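import Mathlib

section

/-!
# The regular 37-gon: basic definitions

`p = 2π/37`, the polygon has inradius `1` and circumradius `Rr = 1/cos(p/2)`.
-/

namespace Pool.Agent.Lib.P37

open Real

/-- angular step of the regular 37-gon -/
noncomputable def p : ℝ := 2 * π / 37
/-- circumradius of the regular 37-gon of inradius 1 -/
noncomputable def Rr : ℝ := 1 / cos (p / 2)
noncomputable def Tt : ℝ := tan (p / 2)
/-- spacing in a row of the optimal packing -/
noncomputable def l0 : ℝ := 1 + Rr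
noncomputable def c6 : ℝ := cos (6 * p)
noncomputable def s6 : ℝ := sin (6 * p)
noncomputable def c12 : ℝ := cos (12 * p)
noncomputable def s12 : ℝ := sin (12 * p)
/-- half the area per copy in the optimal packing (area of a Delaunay triangle) -/
noncomputable def As : ℝ := l0 * (c6 - c12 + l0 * c6 * c12 / 2) / s6
/-- the slope constant of the edge function -/
noncomputable def kap : ℝ := l0 * (1 - l0 / 2 + 2 * l0 * c6 ^ 2 - 2 * c6)

/-- signed fractional part, in `[-1/2, 1/2)` -/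
noncomputable def fr (x : ℝ) : ℝ := x - round x
/-- distance to the nearest integer -/
noncomputable def nd (x : ℝ) : ℝ := |fr x|
/-- the 1-periodic odd function `z/6 - z|z|/3` on `[-1/2,1/2)` -/
noncomputable def g0 (x : ℝ) : ℝ := fr x / 6 - fr x * |fr x| / 3
/-- its derivative -/
noncomputable def g1 (x : ℝ) : ℝ := 1 / 6 - 2 * nd x / 3
/-- `τ(t) = ‖t‖(1-‖t‖)/2` -/
noncomputable def tau (x : ℝ) : ℝ := nd x * (1 - nd x) / 2
/-- the edge potential -/
noncomputable def G (t : ℝ) : ℝ := 3 * kap * p * g0 (t / p)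
/-- width function -/
noncomputable def sigma (psi : ℝ) : ℝ := 1 + Rr * cos (p / 2 - p * nd (psi / p))
/-- the pair inequality for a side of length `d` with end phases `x`, `y` -/
def PairIneq (x y d : ℝ) : Prop :=
  sigma (x - y) ≤ d * cos (p * min (nd (x / p)) (nd (y / p)))
/-- first order lower bound for `(d^2/4-1)/p^2` -/
noncomputable def Ee (X Y : ℝ) : ℝ := (min (nd X) (nd Y)) ^ 2 + tau (X - Y)

/-- data of a counterclockwise triangle of centres: phases `x`, angles `A`, side lengths `d`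
(`d1` is the side between vertices 1 and 2, `d2` between 2 and 3, `d3` between 3 and 1). -/
structure Tri (x1 x2 x3 A1 A2 A3 d1 d2 d3 : ℝ) : Prop where
  A1pos : 0 < A1
  A2pos : 0 < A2
  A3pos : 0 < A3
  sum : A1 + A2 + A3 = π
  law : ∃ r : ℝ, 0 < r ∧ d1 = 2 * r * sin A3 ∧ d2 = 2 * r * sin A1 ∧ d3 = 2 * r * sin A2
  side1 : PairIneq x1 (x2 - A2) d1
  side2 : PairIneq x2 (x3 - A3) d2
  side3 : PairIneq x3 (x1 - A1) d3

/-- area + edge terms - As -/
noncomputable def Psi (x1 x2 x3 A1 A2 A3 d1 _d2 d3 : ℝ) : ℝ :=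
  d1 * d3 * sin A1 / 2 - As + (G x1 - G (x1 - A1)) + (G x2 - G (x2 - A2)) + (G x3 - G (x3 - A3))

/-- sum of the `g0` terms in hat coordinates -/
noncomputable def Gs (X1 X2 X3 D1 D2 D3 : ℝ) : ℝ :=
  (g0 X1 - g0 (X1 - 1/6 - D1)) + (g0 X2 - g0 (X2 - 1/6 - D2)) + (g0 X3 - g0 (X3 - 1/6 - D3))

/-- the basic lower bound obtained from side 1 (between vertices 1 and 2, opposite to 3) -/
noncomputable def MI (X1 X2 X3 D1 D2 D3 : ℝ) : ℝ :=
  Ee X1 (X2 - 1/6 - D2) * (1 - 0.196 * D3) - 6.8 * D3 + D3 ^ 2 - (D1 - D2) ^ 2 / 3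
    + (23 / 22) * Gs X1 X2 X3 D1 D2 D3 - 0.0908

/-- neighbourhood of the optimal triangle T1, in the lifted coordinates -/
structure VC (U g q D1 D2 D3 : ℝ) : Prop where
  sum : D1 + D2 + D3 = 0
  hU1 : -0.1381 ≤ U
  hU2 : U ≤ 0.1381
  hg1 : -0.12 ≤ g
  hg2 : g ≤ 0.1485
  hq1 : -0.1381 ≤ q
  hq2 : q ≤ 0.128
  hug1 : -0.1381 ≤ U + g
  hug2 : U + g ≤ 0.1381
  hub : -0.1381 ≤ U + g - q

/-- neighbourhood of the optimal triangle T1: up to integers the phases are
`X1 = U`, `X3 = U + g - 1/6 - D1`, `X2 = U + g - q - 1/3 + D2` with `VC U g q D1 D2 D3` -/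
def InV (X1 X2 X3 D1 D2 D3 : ℝ) : Prop :=
  ∃ (U g q : ℝ) (n1 n2 n3 : ℤ), VC U g q D1 D2 D3 ∧ X1 = U + n1 ∧
    X2 = (U + g - q - 1/3 + D2) + n2 ∧ X3 = (U + g - 1/6 - D1) + n3

end Pool.Agent.Lib.P37
end

section

namespace Pool.Agent.Lib.P37

open Real

theorem fr_ge (x : ℝ) : -1/2 ≤ fr x := by
  unfold fr
  have h := abs_sub_round x
  rw [abs_le] at h
  linarith [h.1]

theorem fr_le (x : ℝ) : fr x ≤ 1/2 := by
  unfold fr
  have h := abs_sub_round x
  rw [abs_le] at h
  linarith [h.2]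

theorem abs_fr_le (x : ℝ) : |fr x| ≤ 1/2 := by
  rw [abs_le]; constructor <;> linarith [fr_ge x, fr_le x]

theorem nd_nonneg (x : ℝ) : 0 ≤ nd x := abs_nonneg _

theorem nd_le (x : ℝ) : nd x ≤ 1/2 := abs_fr_le x

theorem fr_add_int (x : ℝ) (n : ℤ) : fr (x + n) = fr x := by
  unfold fr
  rw [round_add_intCast]
  push_cast
  ring

theorem fr_sub_int (x : ℝ) (n : ℤ) : fr (x - n) = fr x := by
  unfold fr
  rw [round_sub_intCast]
  push_cast
  ring

theorem nd_add_int (x : ℝ) (n : ℤ) : nd (x + n) = nd x := by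
  unfold nd; rw [fr_add_int]

theorem nd_sub_int (x : ℝ) (n : ℤ) : nd (x - n) = nd x := by
  unfold nd; rw [fr_sub_int]

theorem fr_spec (x : ℝ) : ∃ n : ℤ, fr x = x - n := ⟨round x, rfl⟩

theorem nd_le_abs_sub (x : ℝ) (n : ℤ) : nd x ≤ |x - n| := by
  unfold nd fr
  exact round_le x n

theorem nd_neg (x : ℝ) : nd (-x) = nd x := by
  apply le_antisymm
  · obtain ⟨n, hn⟩ := fr_spec x
    have h := nd_le_abs_sub (-x) (-n)
    unfold nd at *
    rw [hn]
    refine h.trans (le_of_eq ?_)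
    push_cast
    rw [← abs_neg]
    congr 1
    ring
  · obtain ⟨n, hn⟩ := fr_spec (-x)
    have h := nd_le_abs_sub x (-n)
    unfold nd at *
    rw [hn]
    refine h.trans (le_of_eq ?_)
    push_cast
    rw [← abs_neg]
    congr 1
    ring

theorem tau_add_int (x : ℝ) (n : ℤ) : tau (x + n) = tau x := by
  unfold tau; rw [nd_add_int]

theorem tau_sub_int (x : ℝ) (n : ℤ) : tau (x - n) = tau x := by
  unfold tau; rw [nd_sub_int]

theorem tau_neg (x : ℝ) : tau (-x) = tau x := by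
  unfold tau; rw [nd_neg]

theorem tau_nonneg (x : ℝ) : 0 ≤ tau x := by
  unfold tau
  have h1 := nd_nonneg x
  have h2 := nd_le x
  have : 0 ≤ nd x * (1 - nd x) := mul_nonneg h1 (by linarith)
  linarith

theorem tau_le (x : ℝ) : tau x ≤ 1/8 := by
  unfold tau
  nlinarith [sq_nonneg (nd x - 1/2)]

/-- `τ(x) ≥ (|t| - t^2)/2` for `t = x - n`, any integer `n`. -/
theorem tau_ge_abs (x : ℝ) (n : ℤ) : (|x - n| - (x - n) ^ 2) / 2 ≤ tau x := by
  have h1 := nd_le_abs_sub x n
  have h2 := nd_nonneg x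
  have h3 := nd_le x
  have hsq : (x - n) ^ 2 = |x - n| ^ 2 := (sq_abs _).symm
  -- either |x-n| = nd x + integer..., we show nd(1-nd) ≥ |t|(1-|t|)
  have key : |x - n| * (1 - |x - n|) ≤ nd x * (1 - nd x) := by
    by_cases hb : |x - n| ≤ 1/2
    · -- then nd x = |x-n|
      obtain ⟨m, hm⟩ := fr_spec x
      by_cases hmn : m = n
      · have : nd x = |x - n| := by unfold nd; rw [hm, hmn]
        rw [this]
      · -- |m-n| ≥ 1, |x-m| ≤ 1/2 so |x-n| ≥ 1/2
        have h4 : (1:ℝ) ≤ |(m:ℝ) - n| := by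
          have : (1:ℤ) ≤ |m - n| := Int.one_le_abs (sub_ne_zero.mpr hmn)
          exact_mod_cast this
        have h5 : |(m:ℝ) - n| ≤ |x - n| + |x - m| := by
          have := abs_sub_le (m:ℝ) x n
          rw [abs_sub_comm (m:ℝ) x] at this
          linarith
        have h6 : |x - m| = nd x := by unfold nd; rw [hm]
        have h7 : nd x = 1/2 := by linarith
        have h8 : |x - n| = 1/2 := by linarith
        rw [h7, h8]
    · push Not at hb
      -- |x-n| ≥ 1 - nd x
      have h4 : 1 - nd x ≤ |x - n| := by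
        obtain ⟨m, hm⟩ := fr_spec x
        have h6 : |x - m| = nd x := by unfold nd; rw [hm]
        by_cases hmn : m = n
        · rw [hmn] at h6; linarith
        · have h4 : (1:ℝ) ≤ |(m:ℝ) - n| := by
            have : (1:ℤ) ≤ |m - n| := Int.one_le_abs (sub_ne_zero.mpr hmn)
            exact_mod_cast this
          have h5 : |(m:ℝ) - n| ≤ |x - n| + |x - m| := by
            have := abs_sub_le (m:ℝ) x n
            rw [abs_sub_comm (m:ℝ) x] at this
            linarith
          linarith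
      nlinarith [mul_nonneg (sub_nonneg.mpr h1) (sub_nonneg.mpr h4)]
  unfold tau
  rw [hsq]
  nlinarith [key]

/-- linear-quadratic lower bound for `τ`, valid for every integer `n` and every `|s| ≤ 1/2`. -/
theorem tau_ge (x : ℝ) (n : ℤ) (s : ℝ) (hs : |s| ≤ 1/2) :
    s * (x - n) - (x - n) ^ 2 / 2 ≤ tau x := by
  have h := tau_ge_abs x n
  have h1 : s * (x - n) ≤ |x - n| / 2 := by
    calc s * (x - n) ≤ |s * (x - n)| := le_abs_self _
      _ = |s| * |x - n| := abs_mul _ _
      _ ≤ 1/2 * |x - n| := mul_le_mul_of_nonneg_right hs (abs_nonneg _)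
      _ = |x - n| / 2 := by ring
  linarith

theorem g0_add_int (x : ℝ) (n : ℤ) : g0 (x + n) = g0 x := by
  unfold g0; rw [fr_add_int]

theorem g0_sub_int (x : ℝ) (n : ℤ) : g0 (x - n) = g0 x := by
  unfold g0; rw [fr_sub_int]

theorem g1_add_int (x : ℝ) (n : ℤ) : g1 (x + n) = g1 x := by
  unfold g1; rw [nd_add_int]

theorem g1_sub_int (x : ℝ) (n : ℤ) : g1 (x - n) = g1 x := by
  unfold g1; rw [nd_sub_int]

/-- value of `g0` computed with any integer `n` with `|x-n| ≤ 1/2`. -/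
theorem g0_eq (x : ℝ) (n : ℤ) (h : |x - n| ≤ 1/2) :
    g0 x = (x - n) / 6 - (x - n) * |x - n| / 3 := by
  obtain ⟨m, hm⟩ := fr_spec x
  by_cases hmn : m = n
  · unfold g0; rw [hm, hmn]
  · have h4 : (1:ℝ) ≤ |(m:ℝ) - n| := by
      have : (1:ℤ) ≤ |m - n| := Int.one_le_abs (sub_ne_zero.mpr hmn)
      exact_mod_cast this
    have h5 : |(m:ℝ) - n| ≤ |x - n| + |x - m| := by
      have := abs_sub_le (m:ℝ) x n
      rw [abs_sub_comm (m:ℝ) x] at this
      linarith
    have h6 : |x - m| = nd x := by unfold nd; rw [hm]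
    have h3 := nd_le x
    have h7 : |x - m| = 1/2 := by linarith
    have h8 : |x - n| = 1/2 := by linarith
    unfold g0
    rw [hm, h7, h8]
    ring

theorem g1_eq (x : ℝ) (n : ℤ) (h : |x - n| ≤ 1/2) : g1 x = 1/6 - 2 * |x - n| / 3 := by
  obtain ⟨m, hm⟩ := fr_spec x
  by_cases hmn : m = n
  · unfold g1 nd; rw [hm, hmn]
  · have h4 : (1:ℝ) ≤ |(m:ℝ) - n| := by
      have : (1:ℤ) ≤ |m - n| := Int.one_le_abs (sub_ne_zero.mpr hmn)
      exact_mod_cast this
    have h5 : |(m:ℝ) - n| ≤ |x - n| + |x - m| := by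
      have := abs_sub_le (m:ℝ) x n
      rw [abs_sub_comm (m:ℝ) x] at this
      linarith
    have h6 : |x - m| = nd x := by unfold nd; rw [hm]
    have h3 := nd_le x
    have h7 : nd x = 1/2 := by linarith
    have h8 : |x - n| = 1/2 := by linarith
    unfold g1
    rw [h7, h8]

theorem g0_neg (x : ℝ) : g0 (-x) = - g0 x := by
  obtain ⟨n, hn⟩ := fr_spec x
  have h1 : |x - n| ≤ 1/2 := by rw [← hn]; exact abs_fr_le x
  have h2 : |(-x) - ((-n : ℤ) : ℝ)| ≤ 1/2 := by
    push_cast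
    rw [← abs_neg]
    convert h1 using 2
    ring
  rw [g0_eq (-x) (-n) h2, g0_eq x n h1]
  have h3 : |(-x) - ((-n : ℤ) : ℝ)| = |x - n| := by
    push_cast
    rw [← abs_neg]
    congr 1
    ring
  rw [h3]
  push_cast
  ring

/-- the function on the real line `z ↦ z/6 - z|z|/3` has the Taylor estimate with constant 1/3 -/
theorem quad_taylor (x a : ℝ) :
    |(x / 6 - x * |x| / 3) - (a / 6 - a * |a| / 3) - (1/6 - 2 * |a| / 3) * (x - a)|
      ≤ (x - a) ^ 2 / 3 := by
  rw [abs_le]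
  rcases abs_cases x with ⟨hx, hx'⟩ | ⟨hx, hx'⟩ <;> rcases abs_cases a with ⟨ha, ha'⟩ | ⟨ha, ha'⟩ <;>
    rw [hx, ha] <;> constructor <;> nlinarith [mul_nonneg (abs_nonneg x) (abs_nonneg a)]

end Pool.Agent.Lib.P37
end

section

namespace Pool.Agent.Lib.P37

open Real

theorem nd_lip (x a : ℝ) : nd x ≤ nd a + |x - a| := by
  obtain ⟨m, hm⟩ := fr_spec a
  have h6 : |a - m| = nd a := by unfold nd; rw [hm]
  have h1 := nd_le_abs_sub x m
  have h2 : |x - m| ≤ |x - a| + |a - m| := abs_sub_le x a m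
  linarith

theorem nd_lip' (x a : ℝ) : |nd x - nd a| ≤ |x - a| := by
  rw [abs_le]
  constructor
  · have := nd_lip a x
    rw [abs_sub_comm] at this
    linarith
  · have := nd_lip x a
    linarith

theorem g1_lip (x a : ℝ) : |g1 x - g1 a| ≤ 2 / 3 * |x - a| := by
  have h := nd_lip' x a
  unfold g1
  have : (1 / 6 - 2 * nd x / 3) - (1 / 6 - 2 * nd a / 3) = -(2/3) * (nd x - nd a) := by ring
  rw [this, abs_mul]
  have h2 : |(-(2/3) : ℝ)| = 2/3 := by norm_num
  rw [h2]
  nlinarith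

theorem g1_neg (x : ℝ) : g1 (-x) = g1 x := by
  unfold g1; rw [nd_neg]

theorem g1_le (x : ℝ) : g1 x ≤ 1/6 := by
  unfold g1; linarith [nd_nonneg x]

theorem g1_ge (x : ℝ) : -1/6 ≤ g1 x := by
  unfold g1; linarith [nd_le x]

theorem g0_taylor_right (k : ℕ) : ∀ (a x : ℝ) (m : ℤ), |a - m| ≤ 1/2 → |x - (m + k : ℤ)| ≤ 1/2 → a ≤ x →
    |g0 x - g0 a - g1 a * (x - a)| ≤ (x - a) ^ 2 / 3 := by
  induction k with
  | zero =>
    intro a x m ha hx _
    have hx' : |x - m| ≤ 1/2 := by simpa using hx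
    rw [g0_eq x m hx', g0_eq a m ha, g1_eq a m ha]
    have h := quad_taylor (x - m) (a - m)
    have e : (x - (m:ℝ)) - (a - m) = x - a := by ring
    rw [e] at h
    exact h
  | succ k ih =>
    intro a x m ha hx hax
    have ha' := abs_le.mp ha
    have hx' := abs_le.mp hx
    push_cast at hx'
    have hk : (0:ℝ) ≤ k := Nat.cast_nonneg k
    set b : ℝ := m + 1/2 with hb
    have hb1 : |b - m| ≤ 1/2 := by rw [hb]; norm_num
    have hb2 : |b - ((m + 1 : ℤ) : ℝ)| ≤ 1/2 := by
      rw [hb]; push_cast; rw [abs_le]; constructor <;> linarith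
    have hab : a ≤ b := by rw [hb]; linarith
    have hbx : b ≤ x := by rw [hb]; linarith
    have h1 : |g0 b - g0 a - g1 a * (b - a)| ≤ (b - a) ^ 2 / 3 := by
      rw [g0_eq b m hb1, g0_eq a m ha, g1_eq a m ha]
      have h := quad_taylor (b - m) (a - m)
      have e : (b - (m:ℝ)) - (a - m) = b - a := by ring
      rw [e] at h
      exact h
    have h2 := ih b x (m + 1) hb2 (by
      have : ((m + 1 + k : ℤ) : ℝ) = ((m + (k + 1 : ℕ) : ℤ) : ℝ) := by push_cast; ring
      rw [this]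
      exact_mod_cast hx) hbx
    have h3 := g1_lip b a
    rw [abs_of_nonneg (sub_nonneg.mpr hab)] at h3
    have e : g0 x - g0 a - g1 a * (x - a) =
        (g0 x - g0 b - g1 b * (x - b)) + (g0 b - g0 a - g1 a * (b - a)) + (g1 b - g1 a) * (x - b) := by
      ring
    rw [e]
    have h4 : |(g1 b - g1 a) * (x - b)| ≤ 2 / 3 * (b - a) * (x - b) := by
      rw [abs_mul, abs_of_nonneg (sub_nonneg.mpr hbx)]
      exact mul_le_mul_of_nonneg_right h3 (sub_nonneg.mpr hbx)
    calc |(g0 x - g0 b - g1 b * (x - b)) + (g0 b - g0 a - g1 a * (b - a)) + (g1 b - g1 a) * (x - b)|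
        ≤ |(g0 x - g0 b - g1 b * (x - b)) + (g0 b - g0 a - g1 a * (b - a))| + |(g1 b - g1 a) * (x - b)| :=
          abs_add_le _ _
      _ ≤ (|g0 x - g0 b - g1 b * (x - b)| + |g0 b - g0 a - g1 a * (b - a)|) + |(g1 b - g1 a) * (x - b)| := by
          have := abs_add_le (g0 x - g0 b - g1 b * (x - b)) (g0 b - g0 a - g1 a * (b - a))
          linarith
      _ ≤ (x - a) ^ 2 / 3 := by nlinarith

/-- Taylor estimate for `g0` on the whole line. -/
theorem g0_taylor (x a : ℝ) : |g0 x - g0 a - g1 a * (x - a)| ≤ (x - a) ^ 2 / 3 := by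
  have key : ∀ a x : ℝ, a ≤ x → |g0 x - g0 a - g1 a * (x - a)| ≤ (x - a) ^ 2 / 3 := by
    intro a x hax
    obtain ⟨m, hm⟩ := fr_spec a
    have ha : |a - m| ≤ 1/2 := by rw [← hm]; exact abs_fr_le a
    obtain ⟨n, hn⟩ := fr_spec x
    have hx : |x - n| ≤ 1/2 := by rw [← hn]; exact abs_fr_le x
    by_cases hmn : m ≤ n
    · obtain ⟨k, hk⟩ := Int.eq_ofNat_of_zero_le (sub_nonneg.mpr hmn)
      have : n = m + k := by linarith
      rw [this] at hx
      exact g0_taylor_right k a x m ha hx hax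
    · push Not at hmn
      -- n < m but a ≤ x : both within 1/2, so x = a = m - 1/2
      have h1 : (n:ℝ) + 1 ≤ m := by exact_mod_cast hmn
      have ha' := abs_le.mp ha
      have hx' := abs_le.mp hx
      have hxm : |x - m| ≤ 1/2 := by rw [abs_le]; constructor <;> linarith
      exact g0_taylor_right 0 a x m ha (by simpa using hxm) hax
  rcases le_total a x with h | h
  · exact key a x h
  · have h2 := key (-a) (-x) (by linarith)
    rw [g0_neg, g0_neg, g1_neg] at h2
    have e : -g0 x - -g0 a - g1 a * (-x - -a) = -(g0 x - g0 a - g1 a * (x - a)) := by ring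
    rw [e, abs_neg] at h2
    have e2 : (-x - -a) ^ 2 = (x - a) ^ 2 := by ring
    rw [e2] at h2
    exact h2

/-- the vertex function `C(x) = g0(x) - g0(x-1/6)` -/
noncomputable def Cc (x : ℝ) : ℝ := g0 x - g0 (x - 1/6)

theorem g0_mvt (x y : ℝ) : g0 x - g0 y ≤ 1/6 * |x - y| := by
  -- from Taylor at many intermediate points: |g0 x - g0 y| ≤ 1/6 |x-y|
  by_contra hcon
  push Not at hcon
  -- subdivide
  have hne : x ≠ y := by
    rintro rfl
    simp at hcon
  have hpos : 0 < |x - y| := abs_pos.mpr (sub_ne_zero.mpr hne)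
  set δ := g0 x - g0 y - 1/6 * |x - y| with hδ
  have hδpos : 0 < δ := by rw [hδ]; linarith
  obtain ⟨N, hN⟩ := exists_nat_gt ((x - y) ^ 2 / (3 * δ))
  have hN0 : 0 < (N:ℝ) := lt_of_le_of_lt (by positivity) hN
  -- points z_i = y + i (x-y)/N
  have hstep : ∀ i : ℕ, g0 (y + (i + 1) * ((x - y) / N)) - g0 (y + i * ((x - y) / N)) ≤
      1/6 * (|x - y| / N) + (x - y) ^ 2 / (3 * N ^ 2) := by
    intro i
    have h := g0_taylor (y + (i + 1) * ((x - y) / N)) (y + i * ((x - y) / N))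
    have e : (y + ((i:ℝ) + 1) * ((x - y) / N)) - (y + i * ((x - y) / N)) = (x - y) / N := by ring
    rw [e] at h
    have h1 := (abs_le.mp h).2
    have h2 : g1 (y + i * ((x - y) / N)) * ((x - y) / N) ≤ 1/6 * (|x - y| / N) := by
      calc g1 (y + i * ((x - y) / N)) * ((x - y) / N)
          ≤ |g1 (y + i * ((x - y) / N)) * ((x - y) / N)| := le_abs_self _
        _ = |g1 (y + i * ((x - y) / N))| * |(x - y) / N| := abs_mul _ _
        _ ≤ 1/6 * (|x - y| / N) := by
            rw [abs_div, abs_of_pos hN0]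
            apply mul_le_mul_of_nonneg_right _ (by positivity)
            rw [abs_le]; constructor
            · linarith [g1_ge (y + i * ((x - y) / N))]
            · exact g1_le _
    have h3 : ((x - y) / N) ^ 2 / 3 = (x - y) ^ 2 / (3 * N ^ 2) := by
      field_simp
    rw [h3] at h1
    linarith
  have hsum : ∀ k : ℕ, g0 (y + k * ((x - y) / N)) - g0 y ≤
      k * (1/6 * (|x - y| / N) + (x - y) ^ 2 / (3 * N ^ 2)) := by
    intro k
    induction k with
    | zero => simp
    | succ k ih =>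
      have := hstep k
      push_cast
      linarith
  have hfin := hsum N
  have e : y + N * ((x - y) / N) = x := by field_simp; ring
  rw [e] at hfin
  have e2 : (N:ℝ) * (1/6 * (|x - y| / N) + (x - y) ^ 2 / (3 * N ^ 2)) =
      1/6 * |x - y| + (x - y) ^ 2 / (3 * N) := by
    field_simp
  rw [e2] at hfin
  have h5 : (x - y) ^ 2 / (3 * N) < δ := by
    rw [div_lt_iff₀ (by positivity)] at hN ⊢
    linarith
  linarith

/-- `C` is `1/9`-Lipschitz. -/
theorem Cc_lip (x y : ℝ) : Cc x - Cc y ≤ 1/9 * |x - y| := by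
  by_contra hcon
  push Not at hcon
  have hne : x ≠ y := by
    rintro rfl
    simp at hcon
  have hpos : 0 < |x - y| := abs_pos.mpr (sub_ne_zero.mpr hne)
  set δ := Cc x - Cc y - 1/9 * |x - y| with hδ
  have hδpos : 0 < δ := by rw [hδ]; linarith
  obtain ⟨N, hN⟩ := exists_nat_gt (2 * (x - y) ^ 2 / (3 * δ))
  have hN0 : 0 < (N:ℝ) := lt_of_le_of_lt (by positivity) hN
  have hg : ∀ z : ℝ, |g1 z - g1 (z - 1/6)| ≤ 1/9 := by
    intro z
    have h := g1_lip z (z - 1/6)
    have e : |z - (z - 1/6)| = 1/6 := by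
      rw [show z - (z - 1/6) = (1/6 : ℝ) by ring]; norm_num
    rw [e] at h
    linarith
  have hstep : ∀ i : ℕ, Cc (y + (i + 1) * ((x - y) / N)) - Cc (y + i * ((x - y) / N)) ≤
      1/9 * (|x - y| / N) + 2 * (x - y) ^ 2 / (3 * N ^ 2) := by
    intro i
    set w := y + i * ((x - y) / N) with hw
    have hw2 : y + ((i:ℝ) + 1) * ((x - y) / N) = w + (x - y) / N := by rw [hw]; ring
    rw [hw2]
    have h := g0_taylor (w + (x - y) / N) w
    have h' := g0_taylor (w + (x - y) / N - 1/6) (w - 1/6)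
    have e : (w + (x - y) / N) - w = (x - y) / N := by ring
    have e' : (w + (x - y) / N - 1/6) - (w - 1/6) = (x - y) / N := by ring
    rw [e] at h
    rw [e'] at h'
    have h1 := (abs_le.mp h).2
    have h1' := (abs_le.mp h').1
    have h2 : (g1 w - g1 (w - 1/6)) * ((x - y) / N) ≤ 1/9 * (|x - y| / N) := by
      calc (g1 w - g1 (w - 1/6)) * ((x - y) / N)
          ≤ |(g1 w - g1 (w - 1/6)) * ((x - y) / N)| := le_abs_self _
        _ = |g1 w - g1 (w - 1/6)| * |(x - y) / N| := abs_mul _ _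
        _ ≤ 1/9 * (|x - y| / N) := by
            rw [abs_div, abs_of_pos hN0]
            exact mul_le_mul_of_nonneg_right (hg w) (by positivity)
    have h3 : ((x - y) / N) ^ 2 / 3 = (x - y) ^ 2 / (3 * N ^ 2) := by
      field_simp
    rw [h3] at h1 h1'
    unfold Cc
    have h4 : 2 * (x - y) ^ 2 / (3 * (N:ℝ) ^ 2) = (x - y) ^ 2 / (3 * N ^ 2) + (x - y) ^ 2 / (3 * N ^ 2) := by
      ring
    rw [h4]
    linarith
  have hsum : ∀ k : ℕ, Cc (y + k * ((x - y) / N)) - Cc y ≤
      k * (1/9 * (|x - y| / N) + 2 * (x - y) ^ 2 / (3 * N ^ 2)) := by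
    intro k
    induction k with
    | zero => simp
    | succ k ih =>
      have := hstep k
      push_cast
      linarith
  have hfin := hsum N
  have e : y + N * ((x - y) / N) = x := by field_simp; ring
  rw [e] at hfin
  have e2 : (N:ℝ) * (1/9 * (|x - y| / N) + 2 * (x - y) ^ 2 / (3 * N ^ 2)) =
      1/9 * |x - y| + 2 * (x - y) ^ 2 / (3 * N) := by
    field_simp
  rw [e2] at hfin
  have h5 : 2 * (x - y) ^ 2 / (3 * N) < δ := by
    rw [div_lt_iff₀ (by positivity)] at hN ⊢
    linarith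
  linarith

end Pool.Agent.Lib.P37
end
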