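import Pool.Agent.Lib.MP_c009e6_co.Basic2

section

/-!
# The regular 37-gon: definitions for the global (Delaunay) argument
-/

namespace Pool.Agent.Lib.P37

open Real

/-- unit vector of argument `t` -/
noncomputable def ee (t : ℝ) : ℂ := Complex.exp ((t : ℂ) * Complex.I)

/-- real inner product -/
def dotp (z w : ℂ) : ℝ := z.re * w.re + z.im * w.im

/-- cross product -/
def crs (z w : ℂ) : ℝ := z.re * w.im - z.im * w.re

/-- twice the signed area of the triangle `i j k` -/
def ar2 (i j k : ℂ) : ℝ := crs (j - i) (k - i)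

/-- the support function of the polygon with edge normals `ee (k p)` and inradius 1 -/
noncomputable def hh (t : ℝ) : ℝ := Rr * cos (p / 2 - p * nd (t / p))

/-- there is a line separating the body `(a, φ)` from the body `(b, ψ)` -/
def Sep (a b : ℂ) (φ ψ : ℝ) : Prop :=
  ∃ ν : ℝ, hh (ν - φ) + hh (ν + π - ψ) ≤ dotp (b - a) (ee ν)

/-- a finite configuration of pairwise separated bodies -/
def Cfg (S : Finset ℂ) (φ : ℂ → ℝ) : Prop :=
  ∀ a ∈ S, ∀ b ∈ S, a ≠ b → Sep a b (φ a) (φ b)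

/-- the discs of radius 2.008 about the points of `S` cover the disc of radius `ρ` -/
def Cov (S : Finset ℂ) (ρ : ℝ) : Prop := ∀ x : ℂ, ‖x‖ ≤ ρ → ∃ a ∈ S, ‖x - a‖ < 2.008

/-- no four points of `S` on a circle -/
def GP (S : Finset ℂ) : Prop :=
  ∀ m : ℂ, ∀ r : ℝ, ∀ a ∈ S, ∀ b ∈ S, ∀ c ∈ S, ∀ d ∈ S, a ≠ b → a ≠ c → a ≠ d → b ≠ c → b ≠ d → c ≠ d →
    ¬ (‖a - m‖ = r ∧ ‖b - m‖ = r ∧ ‖c - m‖ = r ∧ ‖d - m‖ = r)

/-- `(i,j,k)` is a counterclockwise Delaunay triple of `S`: all other points are strictly outside the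
circumcircle -/
def Del (S : Finset ℂ) (i j k : ℂ) : Prop :=
  i ∈ S ∧ j ∈ S ∧ k ∈ S ∧ 0 < ar2 i j k ∧ ∃ m : ℂ, ∃ r : ℝ, ‖i - m‖ = r ∧ ‖j - m‖ = r ∧ ‖k - m‖ = r ∧
    ∀ l ∈ S, l ≠ i → l ≠ j → l ≠ k → r < ‖l - m‖

open Classical in
/-- the finite set of all Delaunay triples -/
noncomputable def DT (S : Finset ℂ) : Finset (ℂ × ℂ × ℂ) :=
  (S ×ˢ S ×ˢ S).filter (fun t => Del S t.1 t.2.1 t.2.2)

/-- the edge potential difference -/
noncomputable def Gam (φ : ℂ → ℝ) (i j : ℂ) : ℝ :=
  G (φ i - Complex.arg (j - i)) - G (φ j - Complex.arg (i - j))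

/-- the triangle to the left of the directed edge `(i,j)` is bad: long side `ij` and small area -/
def Bad (S : Finset ℂ) (i j : ℂ) : Prop :=
  11.92 < ‖j - i‖ ^ 2 ∧ ∃ k, Del S i j k ∧ ar2 i j k < 2 * 1.7432

open Classical in
/-- the total antisymmetric edge weight -/
noncomputable def Wt (S : Finset ℂ) (φ : ℂ → ℝ) (i j : ℂ) : ℝ :=
  Gam φ i j + 0.0245 * ((if Bad S i j then 1 else 0) - (if Bad S j i then 1 else 0))

theorem mem_DT {S : Finset ℂ} {i j k : ℂ} : (i, j, k) ∈ DT S ↔ Del S i j k := by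
  unfold DT
  simp only [Finset.mem_filter, Finset.mem_product]
  constructor
  · exact fun h => h.2
  · intro h
    exact ⟨⟨h.1, h.2.1, h.2.2.1⟩, h⟩

end Pool.Agent.Lib.P37
end

section

/-!
# The regular 37-gon: elementary facts on `ee`, `dotp`, `crs`, `hh`
-/

namespace Pool.Agent.Lib.P37

open Real

theorem p_pos : 0 < p := by unfold p; positivity

theorem p_mul : (37 : ℝ) * p = 2 * π := by unfold p; ring

theorem pi_eq : π = 37 / 2 * p := by unfold p; ring

theorem half_p : p / 2 = π / 37 := by unfold p; ring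

theorem half_p_lt : p / 2 < π / 2 := by
  rw [half_p]
  have := Real.pi_pos
  linarith

theorem p_lt : p < 0.17 := by
  unfold p
  have := Real.pi_lt_d4
  linarith

theorem p_gt : 0.1698 < p := by
  unfold p
  have := Real.pi_gt_d4
  linarith

theorem cos_half_p_pos : 0 < cos (p / 2) :=
  cos_pos_of_mem_Ioo ⟨by linarith [p_pos, Real.pi_pos], half_p_lt⟩

theorem cos_half_p_le_one : cos (p / 2) ≤ 1 := cos_le_one _

theorem Rr_pos : 0 < Rr := by unfold Rr; exact one_div_pos.mpr cos_half_p_pos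

theorem Rr_mul_cos : Rr * cos (p / 2) = 1 := by
  unfold Rr
  rw [one_div, inv_mul_cancel₀ cos_half_p_pos.ne']

theorem one_le_Rr : 1 ≤ Rr := by
  have h := Rr_mul_cos
  have h1 := cos_half_p_le_one
  nlinarith [Rr_pos, cos_half_p_pos]

theorem Rr_mul_sin : Rr * sin (p / 2) = Tt := by
  unfold Rr Tt
  rw [tan_eq_sin_div_cos]
  ring

@[simp] theorem ee_re (t : ℝ) : (ee t).re = cos t := by
  unfold ee
  rw [Complex.exp_ofReal_mul_I_re]

@[simp] theorem ee_im (t : ℝ) : (ee t).im = sin t := by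
  unfold ee
  rw [Complex.exp_ofReal_mul_I_im]

theorem ee_norm (t : ℝ) : ‖ee t‖ = 1 := by
  unfold ee
  rw [Complex.norm_exp_ofReal_mul_I]

theorem ee_add (s t : ℝ) : ee (s + t) = ee s * ee t := by
  unfold ee
  rw [← Complex.exp_add]
  push_cast
  ring_nf

theorem ee_add_pi (t : ℝ) : ee (t + π) = - ee t := by
  apply Complex.ext
  · simp [cos_add_pi]
  · simp [sin_add_pi]

theorem dotp_ee_ee (s t : ℝ) : dotp (ee s) (ee t) = cos (s - t) := by
  unfold dotp
  simp only [ee_re, ee_im]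
  rw [cos_sub]

theorem crs_ee_ee (s t : ℝ) : crs (ee s) (ee t) = sin (t - s) := by
  unfold crs
  simp only [ee_re, ee_im]
  rw [sin_sub]
  ring

theorem dotp_add_left (a b c : ℂ) : dotp (a + b) c = dotp a c + dotp b c := by
  unfold dotp; simp only [Complex.add_re, Complex.add_im]; ring

theorem dotp_sub_left (a b c : ℂ) : dotp (a - b) c = dotp a c - dotp b c := by
  unfold dotp; simp only [Complex.sub_re, Complex.sub_im]; ring

theorem dotp_neg_left (a c : ℂ) : dotp (-a) c = - dotp a c := by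
  unfold dotp; simp only [Complex.neg_re, Complex.neg_im]; ring

theorem dotp_neg_right (a c : ℂ) : dotp a (-c) = - dotp a c := by
  unfold dotp; simp only [Complex.neg_re, Complex.neg_im]; ring

theorem dotp_smul_left (r : ℝ) (a c : ℂ) : dotp ((r : ℂ) * a) c = r * dotp a c := by
  unfold dotp
  simp only [Complex.mul_re, Complex.mul_im, Complex.ofReal_re, Complex.ofReal_im]
  ring

theorem dotp_comm (a b : ℂ) : dotp a b = dotp b a := by
  unfold dotp; ring

theorem dotp_self (a : ℂ) : dotp a a = ‖a‖ ^ 2 := by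
  unfold dotp
  rw [Complex.sq_norm, Complex.normSq_apply]

theorem dotp_sq_add_crs_sq (a b : ℂ) : dotp a b ^ 2 + crs a b ^ 2 = ‖a‖ ^ 2 * ‖b‖ ^ 2 := by
  unfold dotp crs
  rw [Complex.sq_norm, Complex.normSq_apply, Complex.sq_norm, Complex.normSq_apply]
  ring

theorem dotp_le (a b : ℂ) : dotp a b ≤ ‖a‖ * ‖b‖ := by
  have h := dotp_sq_add_crs_sq a b
  have h1 : dotp a b ^ 2 ≤ (‖a‖ * ‖b‖) ^ 2 := by
    rw [mul_pow]; linarith [sq_nonneg (crs a b)]
  exact abs_le_of_sq_le_sq' h1 (by positivity) |>.2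

theorem eq_norm_mul_ee (a : ℂ) : a = (‖a‖ : ℂ) * ee (Complex.arg a) := by
  unfold ee
  exact (Complex.norm_mul_exp_arg_mul_I a).symm

theorem dotp_ee (a : ℂ) (t : ℝ) : dotp a (ee t) = ‖a‖ * cos (Complex.arg a - t) := by
  conv_lhs => rw [eq_norm_mul_ee a]
  rw [dotp_smul_left, dotp_ee_ee]

/-- rewriting of the argument of the opposite direction, modulo `2π` -/
theorem cos_arg_neg (a : ℂ) (ha : a ≠ 0) (t : ℝ) :
    cos (Complex.arg (-a) - t) = - cos (Complex.arg a - t) := by
  have h1 := dotp_ee (-a) t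
  rw [dotp_neg_left, dotp_ee, norm_neg] at h1
  have h2 : ‖a‖ ≠ 0 := norm_ne_zero_iff.mpr ha
  have : ‖a‖ * (cos (Complex.arg (-a) - t)) = ‖a‖ * (- cos (Complex.arg a - t)) := by linarith
  exact mul_left_cancel₀ h2 this

/-! ### the support function -/

theorem nd_mul_p_le (x : ℝ) : p * nd x ≤ p / 2 := by
  have := nd_le x
  nlinarith [p_pos]

theorem hh_ge_one (t : ℝ) : 1 ≤ hh t := by
  unfold hh
  have h0 : 0 ≤ p * nd (t / p) := mul_nonneg p_pos.le (nd_nonneg _)
  have h1 := nd_mul_p_le (t / p)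
  have h2 : cos (p / 2) ≤ cos (p / 2 - p * nd (t / p)) := by
    apply cos_le_cos_of_nonneg_of_le_pi
    · linarith
    · linarith [half_p_lt, Real.pi_pos]
    · linarith
  have := mul_le_mul_of_nonneg_left h2 Rr_pos.le
  rw [Rr_mul_cos] at this
  exact this

theorem hh_le_Rr (t : ℝ) : hh t ≤ Rr := by
  unfold hh
  have := mul_le_mul_of_nonneg_left (cos_le_one (p / 2 - p * nd (t / p))) Rr_pos.le
  linarith

theorem hh_add_int_mul (t : ℝ) (n : ℤ) : hh (t + n * p) = hh t := by
  unfold hh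
  have : (t + n * p) / p = t / p + n := by
    field_simp [p_pos.ne']
  rw [this, nd_add_int]

theorem hh_sub_int_mul (t : ℝ) (n : ℤ) : hh (t - n * p) = hh t := by
  have := hh_add_int_mul (t - n * p) n
  rw [← this]
  congr 1
  ring

theorem hh_add_two_pi (t : ℝ) : hh (t + 2 * π) = hh t := by
  have := hh_add_int_mul t 37
  rw [← this]
  congr 1
  push_cast
  rw [p_mul]

theorem hh_neg (t : ℝ) : hh (-t) = hh t := by
  unfold hh
  rw [neg_div, nd_neg]

theorem hh_int_mul (n : ℤ) : hh (n * p) = 1 := by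
  have := hh_add_int_mul 0 n
  rw [zero_add] at this
  rw [this]
  unfold hh
  have h : nd (0 / p) = 0 := by
    unfold nd fr
    simp
  rw [h, mul_zero, sub_zero, Rr_mul_cos]

/-- `nd` on an interval between consecutive integers -/
theorem nd_eq_min {x : ℝ} {k : ℤ} (h1 : (k : ℝ) ≤ x) (h2 : x ≤ k + 1) : nd x = min (x - k) (k + 1 - x) := by
  apply le_antisymm
  · apply le_min
    · have := nd_le_abs_sub x k
      rwa [abs_of_nonneg (by linarith)] at this
    · have := nd_le_abs_sub x (k + 1)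
      push_cast at this
      rwa [abs_of_nonpos (by linarith), neg_sub] at this
  · obtain ⟨n, hn⟩ := fr_spec x
    unfold nd
    rw [hn]
    rcases le_or_gt n k with h | h
    · have : (n:ℝ) ≤ k := by exact_mod_cast h
      rw [abs_of_nonneg (by linarith)]
      exact (min_le_left _ _).trans (by linarith)
    · have : (k:ℝ) + 1 ≤ n := by exact_mod_cast h
      rw [abs_of_nonpos (by linarith)]
      exact (min_le_right _ _).trans (by linarith)

/-- between two consecutive edge normals the support function is a sinusoid -/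
theorem hh_sinusoid {t : ℝ} {k : ℤ} (h1 : k * p ≤ t) (h2 : t ≤ (k + 1) * p) :
    hh t = Rr * cos (t - (k + 1 / 2) * p) := by
  have hp := p_pos
  have h1' : (k : ℝ) ≤ t / p := by rw [le_div_iff₀ hp]; exact h1
  have h2' : t / p ≤ k + 1 := by rw [div_le_iff₀ hp]; exact h2
  unfold hh
  rw [nd_eq_min h1' h2']
  congr 1
  rcases min_choice (t / p - k) (k + 1 - t / p) with h | h
  · rw [h]
    rw [← cos_neg]
    congr 1
    field_simp
    ring
  · rw [h]
    congr 1
    field_simp
    ring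

end Pool.Agent.Lib.P37
end
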