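import Mathlib

/-!
# Integer checker for the box exclusion (regular 37-gon)

All phases are in units of 1/384, the weights in units of 1/1000. The arithmetic is written with the
primitive operations `Int.add`, `Int.mul`, ... to keep the kernel evaluation fast.
-/

namespace Pool.Agent.Lib.P37.Chk


/-- sign test -/
def isNN : Int → Bool
  | Int.ofNat _ => true
  | Int.negSucc _ => false
/-- `a ≤ b` -/
def leB (a b : Int) : Bool := isNN (Int.sub b a)
def frI (z : Int) : Int := let r := Int.emod z 384; cond (leB r 191) r (Int.sub r 384)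
def absI : Int → Int
  | Int.ofNat n => Int.ofNat n
  | Int.negSucc n => Int.ofNat (Nat.succ n)
def g0n (z : Int) : Int := let f := frI z; Int.mul f (Int.sub 192 (absI f))
def g1n (z : Int) : Int := Int.sub 96 (absI (frI z))
def minI (a b : Int) : Int := cond (leB a b) a b
def maxI (a b : Int) : Int := cond (leB a b) b a

structure Cd where
  M : Int
  b : Bool

def cands (z dv : Int) (b : Bool) : List Cd :=
  let k0 := Int.ediv (Int.add (Int.sub z dv) 192) 384
  let k1 := Int.ediv (Int.add (Int.add z dv) 192) 384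
  cond (leB k1 k0) [⟨Int.sub z (Int.mul 384 k0), b⟩]
    [⟨Int.sub z (Int.mul 384 k0), b⟩, ⟨Int.sub z (Int.mul 384 k1), b⟩]

def tolOf (H R : Int) (b : Bool) : Int := cond b R H

def ubOf (H R : Int) : List Cd → Int
  | [] => 10000
  | c :: cs => minI (Int.add (absI c.M) (tolOf H R c.b)) (ubOf H R cs)

def prune (H R ub : Int) : List Cd → List Cd
  | [] => []
  | c :: cs => cond (leB (Int.sub (absI c.M) (tolOf H R c.b)) ub) (c :: prune H R ub cs) (prune H R ub cs)

def sideL (x y H R : Int) : List Cd :=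
  let l := cands x H false ++ cands y R true
  prune H R (ubOf H R l) l

structure Op where
  T : Int
  S : Int

def optOf (q tol S : Int) : Op :=
  let f := frI q
  cond (leB tol (absI f)) ⟨Int.emod q 384, 2⟩ ⟨f, S⟩

/-- the verification inequality, given the weights L1 L2 L3 -/
def core (H r Cs dg1 dg2 dg3 e1 e2 e3 M1 M2 M3 w1 w2 w3 EE1 EE2 EE3 L1 L2 L3 b1 b2 b3 d1 d2 d3 : Int) : Bool :=
  let mn := minI L1 (minI L2 L3)
  let G1 := Int.add (Int.mul 33 (Int.add (Int.mul L1 (Int.add (Int.mul (Int.mul 2 M1) (Int.sub 1 b1)) w1)) (Int.mul L3 (Int.sub (Int.mul (Int.mul 2 M3) b3) w3)))) (Int.mul 23000 dg1)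
  let G2 := Int.add (Int.mul 33 (Int.add (Int.mul L2 (Int.add (Int.mul (Int.mul 2 M2) (Int.sub 1 b2)) w2)) (Int.mul L1 (Int.sub (Int.mul (Int.mul 2 M1) b1) w1)))) (Int.mul 23000 dg2)
  let G3 := Int.add (Int.mul 33 (Int.add (Int.mul L3 (Int.add (Int.mul (Int.mul 2 M3) (Int.sub 1 b3)) w3)) (Int.mul L2 (Int.sub (Int.mul (Int.mul 2 M2) b2) w2)))) (Int.mul 23000 dg3)
  let C1 := Int.sub (Int.mul 12800 (Int.sub (Int.add (Int.mul (Int.mul 165 L3) d3) (Int.mul 115000 e1)) (Int.mul 430848 L2))) (Int.mul (Int.mul 539 EE2) L2)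
  let C2 := Int.sub (Int.mul 12800 (Int.sub (Int.add (Int.mul (Int.mul 165 L1) d1) (Int.mul 115000 e2)) (Int.mul 430848 L3))) (Int.mul (Int.mul 539 EE3) L3)
  let C3 := Int.sub (Int.mul 12800 (Int.sub (Int.add (Int.mul (Int.mul 165 L2) d2) (Int.mul 115000 e3)) (Int.mul 430848 L1))) (Int.mul (Int.mul 539 EE1) L1)
  let cm := minI C1 (minI C2 C3)
  let cs := Int.sub (Int.add C1 (Int.add C2 C3)) (Int.mul 3 cm)
  let gs := Int.add (absI G1) (Int.add (absI G2) (absI G3))
  let v1 := Int.sub (Int.add (Int.mul (Int.add (Int.mul L1 EE1) (Int.add (Int.mul L2 EE2) (Int.mul L3 EE3))) 33) (Int.mul 23000 Cs)) 883691520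
  let lm := maxI 0 (Int.sub 1000 (Int.mul 3 mn))
  let Z1 := Int.mul v1 1000000000000
  let Z2 := Int.mul (Int.mul H gs) 2000000000000
  let Z3 := Int.mul (Int.mul r cs) 120000
  let Z4 := Int.mul (Int.mul H H) 270000000000000000
  let Z5 := Int.mul (Int.mul H r) 1986500000000000
  let Z6 := Int.mul (Int.mul r r) (Int.add 4613900000000 (Int.mul 3892838400 lm))
  isNN (Int.sub (Int.sub (Int.sub (Int.sub (Int.sub (Int.sub Z1 Z2) Z3) Z4) Z5) Z6) 1) &&
  isNN mn && leB L1 500 && leB L2 500 && leB L3 500 && leB (absI M1) 230 && leB (absI M2) 230 && leB (absI M3) 230 &&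
  leB (absI w1) 230 && leB (absI w2) 230 && leB (absI w3) 230

def boolI (b : Bool) : Int := cond b 1 0

/-- evaluate one choice with computed weights -/
def evalOne (H r Cs dg1 dg2 dg3 e1 e2 e3 : Int) (c1 c2 c3 : Cd) (o1 o2 o3 : Op) : Bool :=
  let M1 := c1.M; let b1 := boolI c1.b; let M2 := c2.M; let b2 := boolI c2.b; let M3 := c3.M; let b3 := boolI c3.b
  let w1 := Int.sub (Int.mul 96 o1.S) o1.T
  let w2 := Int.sub (Int.mul 96 o2.S) o2.T
  let w3 := Int.sub (Int.mul 96 o3.S) o3.T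
  let EE1 := Int.add (Int.mul (Int.mul 2 M1) M1) (Int.mul o1.T (Int.sub (Int.mul 192 o1.S) o1.T))
  let EE2 := Int.add (Int.mul (Int.mul 2 M2) M2) (Int.mul o2.T (Int.sub (Int.mul 192 o2.S) o2.T))
  let EE3 := Int.add (Int.mul (Int.mul 2 M3) M3) (Int.mul o3.T (Int.sub (Int.mul 192 o3.S) o3.T))
  let d1 := Int.sub w1 (Int.mul (Int.mul 2 M1) b1)
  let d2 := Int.sub w2 (Int.mul (Int.mul 2 M2) b2)
  let d3 := Int.sub w3 (Int.mul (Int.mul 2 M3) b3)
  let q1 := Int.add (Int.mul 11 d3) (Int.mul 23 e1)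
  let q2 := Int.add (Int.mul 11 d1) (Int.mul 23 e2)
  let q3 := Int.add (Int.mul 11 d2) (Int.mul 23 e3)
  let qs := Int.add q1 (Int.add q2 q3)
  let l2 := Int.add 333 (Int.ediv (Int.sub (Int.mul 3 q1) qs) 258)
  let l3 := Int.add 333 (Int.ediv (Int.sub (Int.mul 3 q2) qs) 258)
  let l1 := Int.add 333 (Int.ediv (Int.sub (Int.mul 3 q3) qs) 258)
  let p1 := Int.sub (Int.add (Int.ediv (Int.mul (Int.mul 33 l3) d3) 1000) (Int.mul 23 e1)) (Int.ediv (Int.mul l2 EE2) 116364)
  let p2 := Int.sub (Int.add (Int.ediv (Int.mul (Int.mul 33 l1) d1) 1000) (Int.mul 23 e2)) (Int.ediv (Int.mul l3 EE3) 116364)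
  let p3 := Int.sub (Int.add (Int.ediv (Int.mul (Int.mul 33 l2) d2) 1000) (Int.mul 23 e3)) (Int.ediv (Int.mul l1 EE1) 116364)
  let ps := Int.add p1 (Int.add p2 p3)
  let L2 := Int.add 333 (Int.ediv (Int.sub (Int.mul 3 p1) ps) 258)
  let L1 := Int.add 333 (Int.ediv (Int.sub (Int.mul 3 p3) ps) 258)
  let L3 := Int.sub (Int.sub 1000 L1) L2
  core H r Cs dg1 dg2 dg3 e1 e2 e3 M1 M2 M3 w1 w2 w3 EE1 EE2 EE3 L1 L2 L3 b1 b2 b3 d1 d2 d3

def decS (n : Nat) : Int := Int.sub (Int.ofNat n) 2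

/-- try the option codes (each is a natural number s1 + 5 s2 + 25 s3, S = s - 2) -/
def tryCodes (H r Cs dg1 dg2 dg3 e1 e2 e3 : Int) (c1 c2 c3 : Cd) (q1 q2 q3 tol : Int) : List Nat → Bool
  | [] => false
  | s :: ss => evalOne H r Cs dg1 dg2 dg3 e1 e2 e3 c1 c2 c3 (optOf q1 tol (decS (s % 5))) (optOf q2 tol (decS (s / 5 % 5))) (optOf q3 tol (decS (s / 25 % 5))) ||
     tryCodes H r Cs dg1 dg2 dg3 e1 e2 e3 c1 c2 c3 q1 q2 q3 tol ss

def allL {α : Type} (f : α → Bool) : List α → Bool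
  | [] => true
  | x :: xs => f x && allL f xs

def evalBox (A1 A2 A3 H : Int) (codes : List Nat) : Bool :=
  let Cs := Int.add (Int.sub (g0n A1) (g0n (Int.sub A1 64))) (Int.add (Int.sub (g0n A2) (g0n (Int.sub A2 64))) (Int.sub (g0n A3) (g0n (Int.sub A3 64))))
  let r := Int.add 1590 (Int.ediv (Int.mul 402500 (Int.sub (Int.mul 384 H) Cs)) 9732096)
  let DR := Int.add (Int.ediv (Int.mul 768 r) 100000) 1
  let R := Int.add H DR
  let e1 := g1n (Int.sub A1 64); let e2 := g1n (Int.sub A2 64); let e3 := g1n (Int.sub A3 64)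
  let dg1 := Int.sub (g1n A1) e1; let dg2 := Int.sub (g1n A2) e2; let dg3 := Int.sub (g1n A3) e3
  let tol := Int.add H R
  let q1 := Int.add (Int.sub A1 A2) 64
  let q2 := Int.add (Int.sub A2 A3) 64
  let q3 := Int.add (Int.sub A3 A1) 64
  allL (fun c1 => allL (fun c2 => allL (fun c3 =>
    tryCodes H r Cs dg1 dg2 dg3 e1 e2 e3 c1 c2 c3 q1 q2 q3 tol codes)
    (sideL A3 (Int.sub A1 64) H R)) (sideL A2 (Int.sub A3 64) H R)) (sideL A1 (Int.sub A2 64) H R)



inductive Crt where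
  | V (k : Nat)
  | E (s : List Nat)
  | N (a b c d e f g h : Crt)

/-- V membership, orientation 1, base vertex 1; centres `A1 A2 A3`, tolerance `H` for X, `R` for D -/
def inV1 (A1 A2 A3 H R : Int) : Bool :=
  let u := frI A1
  let g := frI (Int.add (Int.sub A3 A1) 64)
  let q := frI (Int.sub (Int.sub A3 64) A2)
  let v := frI (Int.add A3 64)
  let w := frI (Int.add A2 128)
  let T2 := Int.add (Int.add H H) R
  let T1 := Int.add H R
  leB (Int.add (absI u) H) 53 && leB (Int.sub T2 46) g && leB (Int.add g T2) 57 && leB (Int.sub T2 53) q &&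
  leB (Int.add q T2) 49 && leB (Int.add (absI v) T1) 53 && leB (Int.sub T1 53) w

/-- V membership, mirrored orientation -/
def inV2 (A1 A2 A3 H R : Int) : Bool :=
  let u := frI (Int.sub 64 A1)
  let g := frI (Int.add (Int.sub A1 A2) 64)
  let q := frI (Int.sub (Int.sub A3 64) A2)
  let v := frI (Int.sub 128 A2)
  let w := frI (Int.sub 192 A3)
  let T2 := Int.add (Int.add H H) R
  let T1 := Int.add H R
  leB (Int.add (absI u) T1) 53 && leB (Int.sub T2 46) g && leB (Int.add g T2) 57 && leB (Int.sub T2 53) q &&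
  leB (Int.add q T2) 49 && leB (Int.add (absI v) T1) 53 && leB (Int.sub H 53) w

def rBox (A1 A2 A3 H : Int) : Int :=
  let Cs := Int.add (Int.sub (g0n A1) (g0n (Int.sub A1 64))) (Int.add (Int.sub (g0n A2) (g0n (Int.sub A2 64))) (Int.sub (g0n A3) (g0n (Int.sub A3 64))))
  Int.add 1590 (Int.ediv (Int.mul 402500 (Int.sub (Int.mul 384 H) Cs)) 9732096)

def vBox (k : Nat) (A1 A2 A3 H : Int) : Bool :=
  let DR := Int.add (Int.ediv (Int.mul 768 (rBox A1 A2 A3 H)) 100000) 1
  match k with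
  | 0 => inV1 A1 A2 A3 H DR
  | 1 => inV1 A2 A3 A1 H DR
  | 2 => inV1 A3 A1 A2 H DR
  | 3 => inV2 A1 A2 A3 H DR
  | 4 => inV2 A2 A3 A1 H DR
  | _ => inV2 A3 A1 A2 H DR

def chk : Crt → Int → Int → Int → Int → Bool
  | Crt.V k, A1, A2, A3, H => vBox k A1 A2 A3 H
  | Crt.E s, A1, A2, A3, H => evalBox A1 A2 A3 H s
  | Crt.N a b c d e f g h, A1, A2, A3, H =>
    let k := Int.ediv H 2
    let a1 := Int.sub A1 k; let b1 := Int.add A1 k
    let a2 := Int.sub A2 k; let b2 := Int.add A2 k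
    let a3 := Int.sub A3 k; let b3 := Int.add A3 k
    leB H (Int.add k k) && isNN k &&
    chk a a1 a2 a3 k && chk b a1 a2 b3 k && chk c a1 b2 a3 k && chk d a1 b2 b3 k &&
    chk e b1 a2 a3 k && chk f b1 a2 b3 k && chk g b1 b2 a3 k && chk h b1 b2 b3 k


/-- check a list of top boxes with third centre `c`, `c + 32`, ... -/
def colCheck (a b : Int) : Int → List Crt → Bool
  | _, [] => true
  | c, t :: ts => chk t a b c 16 && colCheck a b (Int.add c 32) ts

end Pool.Agent.Lib.P37.Chk
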