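import Pool.Agent.Lib.MP_c009e6_co.Body

namespace Pool.Agent.Lib.P37

open Real MeasureTheory

theorem norm_sub_sq' (z m : ℂ) : ‖z - m‖ ^ 2 = (z.re - m.re) ^ 2 + (z.im - m.im) ^ 2 := by
  rw [Complex.sq_norm, Complex.normSq_apply, Complex.sub_re, Complex.sub_im]
  ring

theorem del_rot {S : Finset ℂ} {i j k : ℂ} (h : Del S i j k) : Del S j k i := by
  obtain ⟨hi, hj, hk, ha, m, r, h1, h2, h3, h4⟩ := h
  refine ⟨hj, hk, hi, ?_, m, r, h2, h3, h1, fun l hl a b c => h4 l hl c a b⟩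
  have e : ar2 j k i = ar2 i j k := by
    unfold ar2 crs
    simp only [Complex.sub_re, Complex.sub_im]
    ring
  rw [e]
  exact ha

theorem radius_le {S : Finset ℂ} {ρ : ℝ} (hcov : Cov S ρ) {a m : ℂ} {r : ℝ}
    (ha : ‖a‖ ≤ ρ - 3) (hr : ‖a - m‖ = r) (hl : ∀ l ∈ S, r ≤ ‖l - m‖) : r ≤ 2.008 := by
  by_contra hcon
  push Not at hcon
  have hr0 : 0 < r := by linarith
  set s : ℝ := 2.008 / r with hs
  have hs0 : 0 ≤ s := by positivity
  have hs1 : s ≤ 1 := by
    rw [hs, div_le_one hr0]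
    exact hcon.le
  have hsr : s * r = 2.008 := by rw [hs]; field_simp
  set x : ℂ := a + (s : ℂ) * (m - a) with hx
  have h1 : ‖x - a‖ = 2.008 := by
    have : x - a = (s : ℂ) * (m - a) := by rw [hx]; ring
    rw [this, norm_mul, Complex.norm_real, Real.norm_of_nonneg hs0, norm_sub_rev, hr, hsr]
  have h2 : ‖x‖ ≤ ρ := by
    have : ‖x‖ ≤ ‖x - a‖ + ‖a‖ := by
      have := norm_add_le (x - a) a
      rwa [sub_add_cancel] at this
    linarith
  have h3 : ‖x - m‖ = r - 2.008 := by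
    have : x - m = ((1 - s : ℝ) : ℂ) * (a - m) := by
      rw [hx]
      push_cast
      ring
    rw [this, norm_mul, Complex.norm_real, Real.norm_of_nonneg (by linarith), hr]
    linarith
  obtain ⟨l, hlS, hlx⟩ := hcov x h2
  have h4 := hl l hlS
  have h5 : ‖l - m‖ ≤ ‖x - l‖ + ‖x - m‖ := by
    have := norm_sub_le (x - m) (x - l)
    have e : (x - m) - (x - l) = l - m := by ring
    rw [e] at this
    linarith
  linarith

theorem ar2_self_left (i j : ℂ) : ar2 i j i = 0 := by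
  unfold ar2 crs
  simp

theorem ar2_self_right (i j : ℂ) : ar2 i j j = 0 := by
  unfold ar2 crs
  ring

theorem del_unique {S : Finset ℂ} {i j k k' : ℂ} (h : Del S i j k) (h' : Del S i j k') : k = k' := by
  by_contra hne
  obtain ⟨hi, hj, hk, ha, m, r, h1, h2, h3, h4⟩ := h
  obtain ⟨_, _, hk', ha', m', r', h1', h2', h3', h4'⟩ := h'
  have hki : k ≠ i := by
    rintro rfl
    rw [ar2_self_left] at ha
    exact lt_irrefl _ ha
  have hkj : k ≠ j := by
    rintro rfl
    rw [ar2_self_right] at ha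
    exact lt_irrefl _ ha
  have hki' : k' ≠ i := by
    rintro rfl
    rw [ar2_self_left] at ha'
    exact lt_irrefl _ ha'
  have hkj' : k' ≠ j := by
    rintro rfl
    rw [ar2_self_right] at ha'
    exact lt_irrefl _ ha'
  have g1 := h4 k' hk' hki' hkj' (Ne.symm hne)
  have g2 := h4' k hk hki hkj hne
  have hr0 : 0 ≤ r := by rw [← h1]; exact norm_nonneg _
  have hr0' : 0 ≤ r' := by rw [← h1']; exact norm_nonneg _
  have s1 : (i.re - m.re) ^ 2 + (i.im - m.im) ^ 2 = r ^ 2 := by rw [← norm_sub_sq', h1]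
  have s2 : (j.re - m.re) ^ 2 + (j.im - m.im) ^ 2 = r ^ 2 := by rw [← norm_sub_sq', h2]
  have s3 : (k.re - m.re) ^ 2 + (k.im - m.im) ^ 2 = r ^ 2 := by rw [← norm_sub_sq', h3]
  have s4 : r ^ 2 < (k'.re - m.re) ^ 2 + (k'.im - m.im) ^ 2 := by
    rw [← norm_sub_sq']
    exact pow_lt_pow_left₀ g1 hr0 two_ne_zero
  have s1' : (i.re - m'.re) ^ 2 + (i.im - m'.im) ^ 2 = r' ^ 2 := by rw [← norm_sub_sq', h1']
  have s2' : (j.re - m'.re) ^ 2 + (j.im - m'.im) ^ 2 = r' ^ 2 := by rw [← norm_sub_sq', h2']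
  have s3' : (k'.re - m'.re) ^ 2 + (k'.im - m'.im) ^ 2 = r' ^ 2 := by rw [← norm_sub_sq', h3']
  have s4' : r' ^ 2 < (k.re - m'.re) ^ 2 + (k.im - m'.im) ^ 2 := by
    rw [← norm_sub_sq']
    exact pow_lt_pow_left₀ g2 hr0' two_ne_zero
  unfold ar2 crs at ha ha'
  simp only [Complex.sub_re, Complex.sub_im] at ha ha'
  set ux := j.re - i.re with hux
  set uy := j.im - i.im with huy
  set wx := m.re - m'.re with hwx
  set wy := m.im - m'.im with hwy
  have hperp : ux * wx + uy * wy = 0 := by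
    rw [hux, huy, hwx, hwy]
    linear_combination (s1 - s2 - s1' + s2') / 2
  have hu : 0 < ux ^ 2 + uy ^ 2 := by
    by_contra hc
    push Not at hc
    have e1 : ux = 0 := pow_eq_zero_iff two_ne_zero |>.mp
      (le_antisymm (by linarith [sq_nonneg uy]) (sq_nonneg ux))
    have e2 : uy = 0 := pow_eq_zero_iff two_ne_zero |>.mp
      (le_antisymm (by linarith [sq_nonneg ux]) (sq_nonneg uy))
    rw [e1, e2] at ha
    linarith
  -- the identity
  have id1 : ∀ qx qy : ℝ, (ux ^ 2 + uy ^ 2) * ((qx - i.re) * wx + (qy - i.im) * wy) =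
      (ux * (qy - i.im) - uy * (qx - i.re)) * (ux * wy - uy * wx) := by
    intro qx qy
    linear_combination (ux * (qx - i.re) + uy * (qy - i.im)) * hperp
  have d1 : 0 < (k.re - i.re) * wx + (k.im - i.im) * wy := by
    rw [hwx, hwy]
    linarith [s3, s1, s4', s1']
  have d2 : (k'.re - i.re) * wx + (k'.im - i.im) * wy < 0 := by
    rw [hwx, hwy]
    linarith [s4, s1, s3', s1']
  have k1 := id1 k.re k.im
  have k2 := id1 k'.re k'.im
  have p1 : 0 < (ux * (k.im - i.im) - uy * (k.re - i.re)) * (ux * wy - uy * wx) := by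
    rw [← k1]
    exact mul_pos hu d1
  have p2 : (ux * (k'.im - i.im) - uy * (k'.re - i.re)) * (ux * wy - uy * wx) < 0 := by
    rw [← k2]
    exact mul_neg_of_pos_of_neg hu d2
  have q1 : 0 < ux * wy - uy * wx := (pos_iff_pos_of_mul_pos p1).1 ha
  have q2 : 0 < (ux * (k'.im - i.im) - uy * (k'.re - i.re)) * (ux * wy - uy * wx) :=
    mul_pos ha' q1
  linarith

end Pool.Agent.Lib.P37
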