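import Pool.Agent.Lib.MP_c009e6_co.Body

namespace Pool.Agent.Lib.P37

open Real MeasureTheory

theorem dist_of_sep {a b : ℂ} {φ ψ : ℝ} (h : Sep a b φ ψ) : 2 ≤ ‖a - b‖ := by
  obtain ⟨ν, h⟩ := h
  have h1 := dotp_le (b - a) (ee ν)
  rw [ee_norm, mul_one, norm_sub_rev] at h1
  have h2 := hh_ge_one (ν - φ)
  have h3 := hh_ge_one (ν + π - ψ)
  linarith

theorem sep_of_dist {a b : ℂ} {φ ψ : ℝ} (h : 2 * Rr ≤ ‖a - b‖) : Sep a b φ ψ := by
  refine ⟨Complex.arg (b - a), ?_⟩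
  rw [dotp_ee, sub_self, cos_zero, mul_one, norm_sub_rev]
  have h2 := hh_le_Rr (Complex.arg (b - a) - φ)
  have h3 := hh_le_Rr (Complex.arg (b - a) + π - ψ)
  linarith

theorem sep_symm {a b : ℂ} {φ ψ : ℝ} (h : Sep a b φ ψ) : Sep b a ψ φ := by
  obtain ⟨ν, h⟩ := h
  refine ⟨ν + π, ?_⟩
  have e1 : hh (ν + π + π - φ) = hh (ν - φ) := by
    rw [← hh_add_two_pi (ν - φ)]
    congr 1
    ring
  have e2 : dotp (a - b) (ee (ν + π)) = dotp (b - a) (ee ν) := by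
    rw [ee_add_pi, dotp_neg_right, ← dotp_neg_left, neg_sub]
  rw [e1, e2]
  linarith

theorem sep_perturb {a b a' b' : ℂ} {φ ψ η : ℝ} (h : Sep a b φ ψ) (hη : 0 < η)
    (ha : ‖a' - (1 + η) * a‖ ≤ η) (hb : ‖b' - (1 + η) * b‖ ≤ η) : Sep a' b' φ ψ := by
  obtain ⟨ν, h⟩ := h
  refine ⟨ν, ?_⟩
  have h2 := hh_ge_one (ν - φ)
  have h3 := hh_ge_one (ν + π - ψ)
  have e : dotp (b' - a') (ee ν) = (1 + η) * dotp (b - a) (ee ν)
      + (dotp (b' - (1 + η) * b) (ee ν) - dotp (a' - (1 + η) * a) (ee ν)) := by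
    have e1 : ((1 : ℂ) + (η : ℂ)) = ((1 + η : ℝ) : ℂ) := by push_cast; rfl
    rw [e1]
    simp only [dotp_sub_left, dotp_smul_left]
    ring
  have h4 : -η ≤ dotp (b' - (1 + η) * b) (ee ν) := by
    have := dotp_le (-(b' - (1 + η) * b)) (ee ν)
    rw [dotp_neg_left, ee_norm, mul_one, norm_neg] at this
    linarith
  have h5 : dotp (a' - (1 + η) * a) (ee ν) ≤ η := by
    have := dotp_le (a' - (1 + η) * a) (ee ν)
    rw [ee_norm, mul_one] at this
    linarith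
  rw [e]
  have h6 : 2 ≤ dotp (b - a) (ee ν) := by linarith
  nlinarith

theorem Gam_antisymm (φ : ℂ → ℝ) (i j : ℂ) : Gam φ j i = - Gam φ i j := by
  unfold Gam
  ring

theorem abs_g0_le (x : ℝ) : |g0 x| ≤ 1 / 48 := by
  have h1 := fr_ge x
  have h2 := fr_le x
  unfold g0
  rw [abs_le]
  rcases abs_cases (fr x) with ⟨h, h'⟩ | ⟨h, h'⟩
  · rw [h]
    constructor
    · nlinarith
    · nlinarith [sq_nonneg (fr x - 1 / 4)]
  · rw [h]
    constructor
    · nlinarith [sq_nonneg (fr x + 1 / 4)]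
    · nlinarith

theorem Gam_bound (φ : ℂ → ℝ) (i j : ℂ) (hk : 0 ≤ kap) (hk' : kap ≤ 0.1026) :
    |Gam φ i j| ≤ 0.00218 := by
  have hp : p < 0.16982 := by
    unfold p
    have := Real.pi_lt_d6
    linarith
  have hp0 := p_pos
  have hG : ∀ t : ℝ, |G t| ≤ 3 * kap * p * (1 / 48) := by
    intro t
    unfold G
    rw [abs_mul, abs_of_nonneg (by positivity : 0 ≤ 3 * kap * p)]
    exact mul_le_mul_of_nonneg_left (abs_g0_le _) (by positivity)
  unfold Gam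
  have h1 := abs_sub (G (φ i - Complex.arg (j - i))) (G (φ j - Complex.arg (i - j)))
  have h2 := hG (φ i - Complex.arg (j - i))
  have h3 := hG (φ j - Complex.arg (i - j))
  have h4 : kap * p ≤ 0.1026 * 0.16982 := mul_le_mul hk' hp.le hp0.le (by norm_num)
  refine h1.trans ?_
  nlinarith

end Pool.Agent.Lib.P37
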