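import Pool.Agent.Lib.MP_c009e6_co.Body
import Pool.Agent.Lib.MP_c009e6_co.DelA
import Pool.Agent.Lib.MP_c009e6_co.GSep

section

namespace Pool.Agent.Lib.P37

open Real MeasureTheory

theorem im_div_eq (a b : ℂ) : (b / a).im = crs a b / Complex.normSq a := by
  rw [Complex.div_im]
  unfold crs
  ring

theorem arg_pos_of_crs {a b : ℂ} (h : 0 < crs a b) : 0 < Complex.arg (b / a) := by
  have ha : a ≠ 0 := by
    rintro rfl
    unfold crs at h
    simp at h
  have h1 : 0 < (b / a).im := by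
    rw [im_div_eq]
    exact div_pos h (Complex.normSq_pos.mpr ha)
  have h2 : 0 ≤ Complex.arg (b / a) := Complex.arg_nonneg_iff.mpr h1.le
  rcases h2.eq_or_lt with h3 | h3
  · exfalso
    rw [eq_comm, Complex.arg_eq_zero_iff] at h3
    exact h1.ne' h3.2
  · exact h3

theorem arg_lt_pi_of_crs {a b : ℂ} (h : 0 < crs a b) : Complex.arg (b / a) < π := by
  have ha : a ≠ 0 := by
    rintro rfl
    unfold crs at h
    simp at h
  have h1 : 0 < (b / a).im := by
    rw [im_div_eq]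
    exact div_pos h (Complex.normSq_pos.mpr ha)
  rcases (Complex.arg_le_pi (b / a)).eq_or_lt with h3 | h3
  · exfalso
    rw [Complex.arg_eq_pi_iff] at h3
    exact h1.ne' h3.2
  · exact h3

theorem prod_polar (T : Finset (ℂ × ℂ)) (z : ℂ × ℂ → ℂ) :
    ∏ t ∈ T, z t = ((∏ t ∈ T, ‖z t‖ : ℝ) : ℂ) *
      Complex.exp (((∑ t ∈ T, Complex.arg (z t) : ℝ) : ℂ) * Complex.I) := by
  push_cast
  rw [Finset.sum_mul, Complex.exp_sum, ← Finset.prod_mul_distrib]
  exact Finset.prod_congr rfl fun t _ => (Complex.norm_mul_exp_arg_mul_I (z t)).symm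

/-- cyclic angle sum: if the two coordinate maps of a finite set of pairs are injective with the same
image and all the angles are positive, then their sum is at least `2π` -/
theorem angle_sum_abs (T : Finset (ℂ × ℂ)) (i : ℂ) (hne : T.Nonempty)
    (h1 : ∀ t ∈ T, ∀ t' ∈ T, t.1 = t'.1 → t = t') (h2 : ∀ t ∈ T, ∀ t' ∈ T, t.2 = t'.2 → t = t')
    (h3 : T.image Prod.fst = T.image Prod.snd) (h4 : ∀ t ∈ T, 0 < crs (t.1 - i) (t.2 - i)) :
    2 * π ≤ ∑ t ∈ T, Complex.arg ((t.2 - i) / (t.1 - i)) := by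
  have e1 : ∏ t ∈ T, (t.1 - i) = ∏ x ∈ T.image Prod.fst, (x - i) :=
    (Finset.prod_image (f := fun x => x - i) (g := Prod.fst) (fun t ht t' ht' h => h1 t ht t' ht' h)).symm
  have e2 : ∏ t ∈ T, (t.2 - i) = ∏ x ∈ T.image Prod.snd, (x - i) :=
    (Finset.prod_image (f := fun x => x - i) (g := Prod.snd) (fun t ht t' ht' h => h2 t ht t' ht' h)).symm
  have hne0 : ∏ t ∈ T, (t.1 - i) ≠ 0 := by
    rw [Finset.prod_ne_zero_iff]
    intro t ht h
    have := h4 t ht
    rw [h] at this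
    unfold crs at this
    simp at this
  have hprod : ∏ t ∈ T, ((t.2 - i) / (t.1 - i)) = 1 := by
    rw [Finset.prod_div_distrib, e2, ← h3, ← e1, div_self hne0]
  have hpol := prod_polar T (fun t => (t.2 - i) / (t.1 - i))
  rw [hprod] at hpol
  have hnorm : ∏ t ∈ T, ‖(t.2 - i) / (t.1 - i)‖ = 1 := by
    rw [← norm_prod, hprod, norm_one]
  rw [hnorm] at hpol
  push_cast at hpol
  rw [one_mul] at hpol
  obtain ⟨n, hn⟩ := Complex.exp_eq_one_iff.mp hpol.symm
  have hpos : 0 < ∑ t ∈ T, Complex.arg ((t.2 - i) / (t.1 - i)) :=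
    Finset.sum_pos (fun t ht => arg_pos_of_crs (h4 t ht)) hne
  have hreal : ∑ t ∈ T, Complex.arg ((t.2 - i) / (t.1 - i)) = n * (2 * π) := by
    have e' : ((n : ℂ) * (2 * (π : ℂ) * Complex.I)) = ((n * (2 * π) : ℝ) : ℂ) * Complex.I := by
      push_cast
      ring
    rw [e'] at hn
    have h6 := mul_right_cancel₀ Complex.I_ne_zero hn
    exact_mod_cast h6
  rw [hreal] at hpos ⊢
  have hpi := Real.pi_pos
  have hn1 : (1 : ℤ) ≤ n := by
    by_contra hc
    push Not at hc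
    have : n ≤ 0 := by omega
    have : (n : ℝ) ≤ 0 := by exact_mod_cast this
    nlinarith
  have : (1 : ℝ) ≤ n := by exact_mod_cast hn1
  nlinarith

theorem tri_angle_sum {i j k : ℂ} (h : 0 < ar2 i j k) :
    Complex.arg ((k - i) / (j - i)) + Complex.arg ((i - j) / (k - j)) +
      Complex.arg ((j - k) / (i - k)) = π := by
  have c1 : 0 < crs (j - i) (k - i) := h
  have c2 : 0 < crs (k - j) (i - j) := by
    have : crs (k - j) (i - j) = ar2 i j k := by
      unfold ar2 crs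
      simp only [Complex.sub_re, Complex.sub_im]
      ring
    rw [this]
    exact h
  have c3 : 0 < crs (i - k) (j - k) := by
    have : crs (i - k) (j - k) = ar2 i j k := by
      unfold ar2 crs
      simp only [Complex.sub_re, Complex.sub_im]
      ring
    rw [this]
    exact h
  have a1 := arg_pos_of_crs c1
  have a2 := arg_pos_of_crs c2
  have a3 := arg_pos_of_crs c3
  have b1 := arg_lt_pi_of_crs c1
  have b2 := arg_lt_pi_of_crs c2
  have b3 := arg_lt_pi_of_crs c3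
  have n1 : j - i ≠ 0 := by
    intro h0
    rw [h0] at c1
    unfold crs at c1
    simp at c1
  have n2 : k - j ≠ 0 := by
    intro h0
    rw [h0] at c2
    unfold crs at c2
    simp at c2
  have n3 : i - k ≠ 0 := by
    intro h0
    rw [h0] at c3
    unfold crs at c3
    simp at c3
  set z1 := (k - i) / (j - i) with hz1
  set z2 := (i - j) / (k - j) with hz2
  set z3 := (j - k) / (i - k) with hz3
  have hprod : z1 * z2 * z3 = -1 := by
    rw [hz1, hz2, hz3]
    field_simp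
    ring
  have p1 := Complex.norm_mul_exp_arg_mul_I z1
  have p2 := Complex.norm_mul_exp_arg_mul_I z2
  have p3 := Complex.norm_mul_exp_arg_mul_I z3
  have hnorm : ‖z1‖ * ‖z2‖ * ‖z3‖ = 1 := by
    rw [← norm_mul, ← norm_mul, hprod]
    simp
  have hexp : Complex.exp (((Complex.arg z1 + Complex.arg z2 + Complex.arg z3 - π : ℝ) : ℂ) *
      Complex.I) = 1 := by
    have e : (((Complex.arg z1 + Complex.arg z2 + Complex.arg z3 - π : ℝ) : ℂ) * Complex.I) =
        (Complex.arg z1 : ℂ) * Complex.I + (Complex.arg z2 : ℂ) * Complex.I +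
        (Complex.arg z3 : ℂ) * Complex.I - (π : ℂ) * Complex.I := by
      push_cast
      ring
    rw [e, Complex.exp_sub, Complex.exp_add, Complex.exp_add, Complex.exp_pi_mul_I]
    have h5 : ((‖z1‖ * ‖z2‖ * ‖z3‖ : ℝ) : ℂ) * (Complex.exp ((Complex.arg z1 : ℂ) * Complex.I) *
        Complex.exp ((Complex.arg z2 : ℂ) * Complex.I) *
        Complex.exp ((Complex.arg z3 : ℂ) * Complex.I)) = -1 := by
      push_cast
      calc _ = ((‖z1‖ : ℂ) * Complex.exp ((Complex.arg z1 : ℂ) * Complex.I)) *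
            ((‖z2‖ : ℂ) * Complex.exp ((Complex.arg z2 : ℂ) * Complex.I)) *
            ((‖z3‖ : ℂ) * Complex.exp ((Complex.arg z3 : ℂ) * Complex.I)) := by ring
        _ = -1 := by rw [p1, p2, p3, hprod]
    rw [hnorm] at h5
    push_cast at h5
    rw [one_mul] at h5
    rw [h5]
    norm_num
  obtain ⟨n, hn⟩ := Complex.exp_eq_one_iff.mp hexp
  have hreal : Complex.arg z1 + Complex.arg z2 + Complex.arg z3 - π = n * (2 * π) := by
    have e' : ((n : ℂ) * (2 * (π : ℂ) * Complex.I)) = ((n * (2 * π) : ℝ) : ℂ) * Complex.I := by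
      push_cast
      ring
    rw [e'] at hn
    have h6 := mul_right_cancel₀ Complex.I_ne_zero hn
    exact_mod_cast h6
  have hpi := Real.pi_pos
  have hn0 : n = 0 := by
    have h7 : (n : ℝ) < 1 := by
      by_contra hc
      push Not at hc
      nlinarith
    have h8 : (-1 : ℝ) < n := by
      by_contra hc
      push Not at hc
      nlinarith
    have h7' : n < 1 := by exact_mod_cast h7
    have h8' : -1 < n := by exact_mod_cast h8
    omega
  rw [hn0] at hreal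
  push_cast at hreal
  linarith

end Pool.Agent.Lib.P37
end

section

/-!
# Delaunay triples with a vertex well inside the disc
-/

namespace Pool.Agent.Lib.P37

open Real

open Classical in
/-- ordered Delaunay triples with a vertex in the disc of radius `ρ - 10` -/
noncomputable def FF (S : Finset ℂ) (ρ : ℝ) : Finset (ℂ × ℂ × ℂ) :=
  (DT S).filter (fun t => ‖t.1‖ ≤ ρ - 10 ∨ ‖t.2.1‖ ≤ ρ - 10 ∨ ‖t.2.2‖ ≤ ρ - 10)

theorem mem_FF' {S : Finset ℂ} {ρ : ℝ} {t : ℂ × ℂ × ℂ} :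
    t ∈ FF S ρ ↔ Del S t.1 t.2.1 t.2.2 ∧ (‖t.1‖ ≤ ρ - 10 ∨ ‖t.2.1‖ ≤ ρ - 10 ∨ ‖t.2.2‖ ≤ ρ - 10) := by
  unfold FF
  rw [Finset.mem_filter]
  exact and_congr_left' mem_DT

theorem mem_FF {S : Finset ℂ} {ρ : ℝ} {i j k : ℂ} :
    (i, j, k) ∈ FF S ρ ↔ Del S i j k ∧ (‖i‖ ≤ ρ - 10 ∨ ‖j‖ ≤ ρ - 10 ∨ ‖k‖ ≤ ρ - 10) := mem_FF'

/-- sums over `FF` are invariant under rotation of the triples -/
theorem FF_rot_sum (S : Finset ℂ) (ρ : ℝ) (f : ℂ → ℂ → ℂ → ℝ) :
    ∑ t ∈ FF S ρ, f t.2.1 t.2.2 t.1 = ∑ t ∈ FF S ρ, f t.1 t.2.1 t.2.2 := by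
  refine Finset.sum_nbij' (fun t => (t.2.1, t.2.2, t.1)) (fun t => (t.2.2, t.1, t.2.1)) ?_ ?_ ?_ ?_ ?_
  · intro t ht
    rw [mem_FF'] at ht ⊢
    exact ⟨del_rot ht.1, by tauto⟩
  · intro t ht
    rw [mem_FF'] at ht ⊢
    exact ⟨del_rot (del_rot ht.1), by tauto⟩
  · intro t _; rfl
  · intro t _; rfl
  · intro t _; rfl

theorem FF_near {S : Finset ℂ} {ρ : ℝ} (hcov : Cov S ρ) {i j k : ℂ} (h : Del S i j k)
    (hI : ‖i‖ ≤ ρ - 10 ∨ ‖j‖ ≤ ρ - 10 ∨ ‖k‖ ≤ ρ - 10) :
    ‖j - i‖ ≤ 4.016 ∧ ‖k - j‖ ≤ 4.016 ∧ ‖i - k‖ ≤ 4.016 ∧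
      ‖i‖ ≤ ρ - 5.9 ∧ ‖j‖ ≤ ρ - 5.9 ∧ ‖k‖ ≤ ρ - 5.9 := by
  obtain ⟨hi, hj, hk, ha, m, r, h1, h2, h3, h4⟩ := h
  have hall : ∀ l ∈ S, r ≤ ‖l - m‖ := by
    intro l hl
    by_cases c1 : l = i
    · rw [c1, h1]
    by_cases c2 : l = j
    · rw [c2, h2]
    by_cases c3 : l = k
    · rw [c3, h3]
    exact (h4 l hl c1 c2 c3).le
  have hr : r ≤ 2.008 := by
    rcases hI with c | c | c
    · exact radius_le hcov (by linarith) h1 hall
    · exact radius_le hcov (by linarith) h2 hall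
    · exact radius_le hcov (by linarith) h3 hall
  have key : ∀ a b : ℂ, ‖a - m‖ = r → ‖b - m‖ = r → ‖a - b‖ ≤ 4.016 := by
    intro a b ha hb
    have : ‖a - b‖ ≤ ‖a - m‖ + ‖m - b‖ := norm_sub_le_norm_sub_add_norm_sub a m b
    rw [norm_sub_rev m b, ha, hb] at this
    linarith
  have tri : ∀ a b : ℂ, ‖a - b‖ ≤ 4.016 → ‖b‖ ≤ ρ - 10 → ‖a‖ ≤ ρ - 5.9 := by
    intro a b hab hb
    have : ‖a‖ ≤ ‖a - b‖ + ‖b‖ := by
      have := norm_add_le (a - b) b
      rwa [sub_add_cancel] at this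
    linarith
  refine ⟨key j i h2 h1, key k j h3 h2, key i k h1 h3, ?_⟩
  rcases hI with c | c | c
  · exact ⟨by linarith, tri j i (key j i h2 h1) c, tri k i (key k i h3 h1) c⟩
  · exact ⟨tri i j (key i j h1 h2) c, by linarith, tri k j (key k j h3 h2) c⟩
  · exact ⟨tri i k (key i k h1 h3) c, tri j k (key j k h2 h3) c, by linarith⟩

end Pool.Agent.Lib.P37
end
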