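import Pool.Agent.Lib.MP_c009e6_co.Body

namespace Pool.Agent.Lib.P37

open Real MeasureTheory

theorem pi_coe' : (NNReal.pi : ENNReal) = ENNReal.ofReal π := by
  rw [← ENNReal.ofReal_coe_nnreal]
  rfl

theorem card_region (S : Finset ℂ) (hS : ∀ a ∈ S, ∀ b ∈ S, a ≠ b → 2 ≤ ‖a - b‖) (U : Set ℂ)
    (hb : ∀ a ∈ S, Metric.ball a 1 ⊆ U) :
    (S.card : ENNReal) * ENNReal.ofReal π ≤ volume U := by
  have h1 : (S.card : ENNReal) * ENNReal.ofReal π = ∑ a ∈ S, volume (Metric.ball a 1) := by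
    rw [Finset.sum_congr rfl (g := fun _ => ENNReal.ofReal π)]
    · rw [Finset.sum_const, nsmul_eq_mul]
    · intro a _
      rw [Complex.volume_ball, pi_coe']
      simp
  rw [h1, ← measure_biUnion_finset]
  · exact measure_mono (Set.iUnion₂_subset hb)
  · intro a ha b hb' hab
    apply Metric.ball_disjoint_ball
    rw [dist_eq_norm]
    linarith [hS a ha b hb' hab]
  · intro a _
    exact Metric.isOpen_ball.measurableSet

theorem card_ball (S : Finset ℂ) (hS : ∀ a ∈ S, ∀ b ∈ S, a ≠ b → 2 ≤ ‖a - b‖) (x : ℂ) (t : ℝ)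
    (ht : 0 ≤ t) (hx : ∀ a ∈ S, ‖a - x‖ ≤ t) : (S.card : ℝ) ≤ (t + 1) ^ 2 := by
  have h := card_region S hS (Metric.closedBall x (t + 1)) (by
    intro a ha z hz
    rw [Metric.mem_ball, dist_eq_norm] at hz
    rw [Metric.mem_closedBall, dist_eq_norm]
    have h1 := hx a ha
    have h2 : ‖z - x‖ ≤ ‖z - a‖ + ‖a - x‖ := norm_sub_le_norm_sub_add_norm_sub z a x
    linarith)
  rw [Complex.volume_closedBall, pi_coe', ← ENNReal.ofReal_pow (by linarith),
    ← ENNReal.ofReal_mul (by positivity), ← ENNReal.ofReal_natCast,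
    ← ENNReal.ofReal_mul (Nat.cast_nonneg _), ENNReal.ofReal_le_ofReal_iff (by positivity)] at h
  exact le_of_mul_le_mul_right h pi_pos

theorem card_annulus (S : Finset ℂ) (hS : ∀ a ∈ S, ∀ b ∈ S, a ≠ b → 2 ≤ ‖a - b‖) (s t : ℝ)
    (hs : 1 ≤ s) (hst : s ≤ t) (h : ∀ a ∈ S, s ≤ ‖a‖ ∧ ‖a‖ ≤ t) :
    (S.card : ℝ) ≤ (t + 1) ^ 2 - (s - 1) ^ 2 := by
  have h := card_region S hS (Metric.closedBall 0 (t + 1) \ Metric.ball 0 (s - 1)) (by
    intro a ha z hz
    rw [Metric.mem_ball, dist_eq_norm] at hz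
    obtain ⟨h1, h2⟩ := h a ha
    refine ⟨?_, ?_⟩
    · rw [mem_closedBall_zero_iff]
      have h3 : ‖z‖ ≤ ‖z - a‖ + ‖a‖ := by
        have := norm_add_le (z - a) a
        rwa [sub_add_cancel] at this
      linarith
    · rw [mem_ball_zero_iff]
      have h3 : ‖a‖ ≤ ‖z - a‖ + ‖z‖ := by
        have := norm_add_le (a - z) z
        rw [sub_add_cancel, norm_sub_rev] at this
        exact this
      linarith)
  rw [measure_sdiff (Metric.ball_subset_closedBall.trans (Metric.closedBall_subset_closedBall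
      (by linarith))) Metric.isOpen_ball.measurableSet.nullMeasurableSet
      Metric.isBounded_ball.measure_lt_top.ne,
    Complex.volume_closedBall, Complex.volume_ball, pi_coe', ← ENNReal.ofReal_pow (by linarith),
    ← ENNReal.ofReal_pow (by linarith),
    ← ENNReal.ofReal_mul (by positivity), ← ENNReal.ofReal_mul (by positivity),
    ← ENNReal.ofReal_sub _ (by positivity), ← ENNReal.ofReal_natCast,
    ← ENNReal.ofReal_mul (Nat.cast_nonneg _), ← sub_mul,
    ENNReal.ofReal_le_ofReal_iff (by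
      have : (s - 1) ^ 2 ≤ (t + 1) ^ 2 := pow_le_pow_left₀ (by linarith) (by linarith) 2
      exact mul_nonneg (by linarith) pi_pos.le)] at h
  exact le_of_mul_le_mul_right h pi_pos

end Pool.Agent.Lib.P37
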