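import Pool.Agent.Lib.MP_c009e6_co.PDefs
import Pool.Agent.Lib.MP_c009e6_co.Body

section

namespace Pool.Agent.Lib.P37

open Real MeasureTheory

/-- `φ` is a phase of the copy `f '' P37`: its vertices are `f 0 + Rr * ee (φ + (k + 1/2) p)` -/
def IsPhase (f : ℂ ≃ᵢ ℂ) (φ : ℝ) : Prop :=
  ∀ k : ℤ, f 0 + (Rr : ℂ) * ee (φ + (k + 1 / 2) * p) ∈ f '' P37

private theorem Rr_eq : (1 / Real.cos (π / 37) : ℝ) = Rr := by
  unfold Rr; rw [half_p]

private theorem P37_eq : P37 = convexHull ℝ {z : ℂ | z ^ 37 = ((Rr : ℝ) : ℂ) ^ 37} := by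
  unfold P37; rw [Rr_eq]

private theorem ee_int_mul_pow (k : ℤ) : ee (k * p) ^ 37 = 1 := by
  unfold ee
  rw [← Complex.exp_nat_mul, Complex.exp_eq_one_iff]
  refine ⟨k, ?_⟩
  have h := p_mul
  have h' : (37 : ℂ) * (p : ℂ) = 2 * (π : ℂ) := by exact_mod_cast h
  push_cast
  calc (37 : ℂ) * ((k : ℂ) * (p : ℂ) * Complex.I) = k * ((37 : ℂ) * (p : ℂ)) * Complex.I := by ring
    _ = k * (2 * (π : ℂ)) * Complex.I := by rw [h']
    _ = k * (2 * (π : ℂ) * Complex.I) := by ring

private theorem root_form (z : ℂ) (hz : z ^ 37 = ((Rr : ℝ) : ℂ) ^ 37) :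
    ∃ l : ℤ, z = (Rr : ℂ) * ee (l * p) := by
  have hR : ((Rr : ℝ) : ℂ) ≠ 0 := by
    exact_mod_cast Rr_pos.ne'
  have h1 : (z / (Rr : ℂ)) ^ 37 = 1 := by
    rw [div_pow, hz, div_self (pow_ne_zero _ hR)]
  have hprim := Complex.isPrimitiveRoot_exp 37 (by norm_num)
  obtain ⟨i, _, hi⟩ := hprim.eq_pow_of_pow_eq_one h1
  refine ⟨i, ?_⟩
  have h2 : z = (Rr : ℂ) * (z / (Rr : ℂ)) := by
    rw [mul_div_cancel₀ _ hR]
  rw [h2, ← hi]
  congr 1
  unfold ee
  rw [← Complex.exp_nat_mul]
  congr 1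
  unfold p
  push_cast
  ring

theorem vertex_mem (k : ℤ) : (Rr : ℂ) * ee (k * p) ∈ P37 := by
  rw [P37_eq]
  apply subset_convexHull
  simp only [Set.mem_ofPred_eq]
  rw [mul_pow, ee_int_mul_pow, mul_one]

theorem P37_subset_ball : P37 ⊆ Metric.closedBall 0 Rr := by
  rw [P37_eq]
  apply convexHull_min _ (convex_closedBall 0 Rr)
  intro z hz
  obtain ⟨l, rfl⟩ := root_form z hz
  rw [mem_closedBall_zero_iff, norm_mul, ee_norm, mul_one, Complex.norm_real, Real.norm_eq_abs,
    abs_of_pos Rr_pos]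

private theorem cos_half_int (m : ℤ) : cos ((m - 1 / 2) * p) ≤ cos (p / 2) := by
  obtain ⟨q, r, hr1, hr2, hm⟩ : ∃ q r : ℤ, -18 ≤ r ∧ r ≤ 18 ∧ m = r + 37 * q := by
    refine ⟨(m + 18) / 37, (m + 18) % 37 - 18, ?_, ?_, ?_⟩ <;> omega
  have h1 : ((m : ℝ) - 1 / 2) * p = ((r : ℝ) - 1 / 2) * p + q * (2 * π) := by
    rw [hm, ← p_mul]
    push_cast
    ring
  rw [h1, Real.cos_add_int_mul_two_pi, ← Real.cos_abs (((r : ℝ) - 1 / 2) * p), abs_mul,
    abs_of_pos p_pos]
  have hr1' : (-18 : ℝ) ≤ r := by exact_mod_cast hr1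
  have hr2' : (r : ℝ) ≤ 18 := by exact_mod_cast hr2
  have hlow : (1 / 2 : ℝ) ≤ |(r : ℝ) - 1 / 2| := by
    rcases le_or_gt r 0 with h | h
    · have : (r : ℝ) ≤ 0 := by exact_mod_cast h
      rw [abs_of_nonpos (by linarith)]
      linarith
    · have : (1 : ℝ) ≤ r := by exact_mod_cast h
      rw [abs_of_nonneg (by linarith)]
      linarith
  have hup : |(r : ℝ) - 1 / 2| ≤ 37 / 2 := by
    rw [abs_le]; constructor <;> linarith
  apply Real.cos_le_cos_of_nonneg_of_le_pi
  · linarith [p_pos]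
  · rw [pi_eq]
    exact mul_le_mul_of_nonneg_right hup p_pos.le
  · have := mul_le_mul_of_nonneg_right hlow p_pos.le
    linarith

private theorem convex_hp (w : ℂ) : Convex ℝ {z : ℂ | dotp z w ≤ 1} := by
  intro x hx y hy a b ha hb hab
  simp only [Set.mem_ofPred_eq] at *
  have : dotp (a • x + b • y) w = a * dotp x w + b * dotp y w := by
    rw [dotp_add_left, Complex.real_smul, Complex.real_smul, dotp_smul_left, dotp_smul_left]
  rw [this]
  nlinarith

theorem P37_subset_halfplane (k : ℤ) (z : ℂ) (hz : z ∈ P37) : dotp z (ee ((k + 1 / 2) * p)) ≤ 1 := by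
  have hsub : P37 ⊆ {z : ℂ | dotp z (ee ((k + 1 / 2) * p)) ≤ 1} := by
    rw [P37_eq]
    apply convexHull_min _ (convex_hp _)
    intro z hz
    obtain ⟨l, rfl⟩ := root_form z hz
    simp only [Set.mem_ofPred_eq]
    rw [dotp_smul_left, dotp_ee_ee]
    have h1 : (l : ℝ) * p - ((k : ℝ) + 1 / 2) * p = (((l - k : ℤ) : ℝ) - 1 / 2) * p := by
      push_cast; ring
    rw [h1]
    have h2 := mul_le_mul_of_nonneg_left (cos_half_int (l - k)) Rr_pos.le
    have h3 := Rr_mul_cos
    linarith
  exact hsub hz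

theorem P37_interior_halfplane (k : ℤ) (z : ℂ) (hz : z ∈ interior P37) :
    dotp z (ee ((k + 1 / 2) * p)) < 1 := by
  rw [mem_interior_iff_mem_nhds, Metric.mem_nhds_iff] at hz
  obtain ⟨ε, hε, hb⟩ := hz
  set w := ee ((k + 1 / 2) * p) with hw
  have h1 : z + ((ε / 2 : ℝ) : ℂ) * w ∈ Metric.ball z ε := by
    rw [mem_ball_iff_norm, add_sub_cancel_left, norm_mul, hw, ee_norm, mul_one, Complex.norm_real,
      Real.norm_eq_abs, abs_of_pos (by linarith)]
    linarith
  have h2 := P37_subset_halfplane k _ (hb h1)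
  rw [← hw, dotp_add_left, dotp_smul_left, dotp_self, hw, ee_norm] at h2
  rw [hw]
  linarith

theorem exists_phase (f : ℂ ≃ᵢ ℂ) : ∃ φ : ℝ, IsPhase f φ := by
  set g : ℂ ≃ᵢ ℂ := f.trans (IsometryEquiv.subRight (f 0)) with hg
  have hg0 : g 0 = 0 := by simp [hg]
  set L := g.toRealLinearIsometryEquivOfMapZero hg0 with hL
  have hLf : ∀ z, f z = f 0 + L z := by
    intro z
    have : L z = g z := rfl
    rw [this, hg]
    simp
  obtain ⟨a, ha⟩ := linear_isometry_complex L
  -- a = ee α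
  have haα : (a : ℂ) = ee (Complex.arg (a : ℂ)) := by
    unfold ee
    have h := Complex.norm_mul_exp_arg_mul_I (a : ℂ)
    rw [Circle.norm_coe, Complex.ofReal_one, one_mul] at h
    exact h.symm
  set α := Complex.arg (a : ℂ) with hα
  refine ⟨α + p / 2, ?_⟩
  intro k
  rcases ha with ha | ha
  · refine ⟨(Rr : ℂ) * ee (((k + 1 : ℤ) : ℝ) * p), vertex_mem (k + 1), ?_⟩
    rw [hLf, ha, rotation_apply, haα]
    congr 1
    have : α + p / 2 + ((k : ℝ) + 1 / 2) * p = α + ((k + 1 : ℤ) : ℝ) * p := by push_cast; ring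
    rw [this, ee_add]
    ring
  · refine ⟨(Rr : ℂ) * ee (((-(k + 1) : ℤ) : ℝ) * p), vertex_mem (-(k + 1)), ?_⟩
    rw [hLf, ha, LinearIsometryEquiv.trans_apply, rotation_apply, Complex.conjLIE_apply, haα]
    congr 1
    have : α + p / 2 + ((k : ℝ) + 1 / 2) * p = α + ((k + 1 : ℤ) : ℝ) * p := by push_cast; ring
    rw [this, ee_add, map_mul, Complex.conj_ofReal]
    have hc : (starRingEnd ℂ) (ee (((-(k + 1) : ℤ) : ℝ) * p)) = ee (((k + 1 : ℤ) : ℝ) * p) := by
      apply Complex.ext
      · rw [Complex.conj_re, ee_re, ee_re]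
        have : (((-(k + 1) : ℤ) : ℝ) * p) = -(((k + 1 : ℤ) : ℝ) * p) := by push_cast; ring
        rw [this, cos_neg]
      · rw [Complex.conj_im, ee_im, ee_im]
        have : (((-(k + 1) : ℤ) : ℝ) * p) = -(((k + 1 : ℤ) : ℝ) * p) := by push_cast; ring
        rw [this, sin_neg, neg_neg]
    rw [hc]
    ring

theorem image_subset_ball (f : ℂ ≃ᵢ ℂ) : f '' P37 ⊆ Metric.closedBall (f 0) Rr := by
  rintro _ ⟨z, hz, rfl⟩
  have h := P37_subset_ball hz
  rw [Metric.mem_closedBall] at h ⊢
  rw [f.dist_eq]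
  exact h

end Pool.Agent.Lib.P37
end

section

namespace Pool.Agent.Lib.P37

open Real MeasureTheory

/-- the open triangle with counterclockwise vertices `i j k` -/
def oTri (i j k : ℂ) : Set ℂ := {z | 0 < ar2 i j z ∧ 0 < ar2 j k z ∧ 0 < ar2 k i z}

theorem ar2_continuous (i j : ℂ) : Continuous (fun z => ar2 i j z) := by
  unfold ar2 crs
  simp only [Complex.sub_re, Complex.sub_im]
  exact (continuous_const.mul (Complex.continuous_im.sub continuous_const)).sub
    (continuous_const.mul (Complex.continuous_re.sub continuous_const))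

theorem oTri_isOpen (i j k : ℂ) : IsOpen (oTri i j k) := by
  unfold oTri
  exact (isOpen_lt continuous_const (ar2_continuous i j)).inter
    ((isOpen_lt continuous_const (ar2_continuous j k)).inter
      (isOpen_lt continuous_const (ar2_continuous k i)))

theorem oTri_measurable (i j k : ℂ) : MeasurableSet (oTri i j k) :=
  (oTri_isOpen i j k).measurableSet

theorem ar2_sum (i j k z : ℂ) : ar2 j k z + ar2 k i z + ar2 i j z = ar2 i j k := by
  unfold ar2 crs
  simp only [Complex.sub_re, Complex.sub_im]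
  ring

/-- barycentric coordinates of a point of the open triangle -/
theorem oTri_bary {i j k z : ℂ} (h : 0 < ar2 i j k) (hz : z ∈ oTri i j k) :
    ∃ a b c : ℝ, 0 < a ∧ 0 < b ∧ 0 < c ∧ a + b + c = 1 ∧ z = (a : ℂ) * i + (b : ℂ) * j + (c : ℂ) * k := by
  obtain ⟨h1, h2, h3⟩ := hz
  refine ⟨ar2 j k z / ar2 i j k, ar2 k i z / ar2 i j k, ar2 i j z / ar2 i j k, div_pos h2 h,
    div_pos h3 h, div_pos h1 h, ?_, ?_⟩
  · rw [← add_div, ← add_div, ar2_sum, div_self h.ne']
  · apply Complex.ext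
    · simp only [Complex.add_re, Complex.re_ofReal_mul]
      rw [div_mul_eq_mul_div, div_mul_eq_mul_div, div_mul_eq_mul_div, ← add_div, ← add_div,
        eq_div_iff h.ne']
      unfold ar2 crs
      simp only [Complex.sub_re, Complex.sub_im]
      ring
    · simp only [Complex.add_im, Complex.im_ofReal_mul]
      rw [div_mul_eq_mul_div, div_mul_eq_mul_div, div_mul_eq_mul_div, ← add_div, ← add_div,
        eq_div_iff h.ne']
      unfold ar2 crs
      simp only [Complex.sub_re, Complex.sub_im]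
      ring

theorem oTri_of_bary {i j k : ℂ} (h : 0 < ar2 i j k) {a b c : ℝ} (ha : 0 < a) (hb : 0 < b) (hc : 0 < c)
    (hs : a + b + c = 1) : (a : ℂ) * i + (b : ℂ) * j + (c : ℂ) * k ∈ oTri i j k := by
  have e1 : ar2 i j ((a : ℂ) * i + (b : ℂ) * j + (c : ℂ) * k) = c * ar2 i j k := by
    have ha' : a = 1 - b - c := by linarith
    unfold ar2 crs
    simp only [Complex.sub_re, Complex.sub_im, Complex.add_re, Complex.add_im, Complex.re_ofReal_mul,
      Complex.im_ofReal_mul]
    rw [ha']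
    ring
  have e2 : ar2 j k ((a : ℂ) * i + (b : ℂ) * j + (c : ℂ) * k) = a * ar2 i j k := by
    have ha' : c = 1 - b - a := by linarith
    unfold ar2 crs
    simp only [Complex.sub_re, Complex.sub_im, Complex.add_re, Complex.add_im, Complex.re_ofReal_mul,
      Complex.im_ofReal_mul]
    rw [ha']
    ring
  have e3 : ar2 k i ((a : ℂ) * i + (b : ℂ) * j + (c : ℂ) * k) = b * ar2 i j k := by
    have ha' : c = 1 - b - a := by linarith
    unfold ar2 crs
    simp only [Complex.sub_re, Complex.sub_im, Complex.add_re, Complex.add_im, Complex.re_ofReal_mul,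
      Complex.im_ofReal_mul]
    rw [ha']
    ring
  refine ⟨?_, ?_, ?_⟩
  · rw [e1]; exact mul_pos hc h
  · rw [e2]; exact mul_pos ha h
  · rw [e3]; exact mul_pos hb h

/-- the standard open triangle -/
def stdTri : Set ℂ := {w | 0 < w.re ∧ 0 < w.im ∧ w.re + w.im < 1}

theorem vol_stdTri : volume stdTri = ENNReal.ofReal (1 / 2) := by
  have hE : stdTri = Complex.measurableEquivRealProd ⁻¹'
      (regionBetween (fun _ => (0 : ℝ)) (fun x => 1 - x) (Set.Ioo (0 : ℝ) 1)) := by
    ext w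
    simp only [stdTri, regionBetween, Set.mem_ofPred_eq, Set.mem_preimage, Set.mem_Ioo,
      Complex.measurableEquivRealProd_apply]
    constructor
    · rintro ⟨h1, h2, h3⟩
      exact ⟨⟨h1, by linarith⟩, h2, by linarith⟩
    · rintro ⟨⟨h1, h2⟩, h3, h4⟩
      exact ⟨h1, h3, by linarith⟩
  have hm : MeasurableSet (regionBetween (fun _ => (0 : ℝ)) (fun x => 1 - x) (Set.Ioo (0 : ℝ) 1)) :=
    measurableSet_regionBetween measurable_const (measurable_const.sub measurable_id)
      measurableSet_Ioo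
  rw [hE, Complex.volume_preserving_equiv_real_prod.measure_preimage hm.nullMeasurableSet]
  have hcont : Continuous (fun x : ℝ => 1 - x) := continuous_const.sub continuous_id
  have := volume_regionBetween_eq_integral (μ := (volume : Measure ℝ)) (s := Set.Ioo (0 : ℝ) 1)
    (f := fun _ => (0 : ℝ)) (g := fun x => 1 - x) (integrableOn_const (by simp))
    ((hcont.integrableOn_Icc (a := (0:ℝ)) (b := 1)).mono_set Set.Ioo_subset_Icc_self)
    measurableSet_Ioo (fun x hx => by linarith [hx.2])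
  rw [show (volume : Measure (ℝ × ℝ)) = (volume : Measure ℝ).prod volume from rfl, this]
  congr 1
  rw [← integral_Ioc_eq_integral_Ioo, ← intervalIntegral.integral_of_le zero_le_one]
  simp only [Pi.sub_apply, sub_zero]
  rw [intervalIntegral.integral_sub (by simp) (by simp)]
  simp
  norm_num

/-- the linear map with columns `u`, `v` -/
noncomputable def linTri (u v : ℂ) : ℂ →ₗ[ℝ] ℂ where
  toFun w := (w.re : ℂ) * u + (w.im : ℂ) * v
  map_add' x y := by
    simp only [Complex.add_re, Complex.add_im]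
    push_cast
    ring
  map_smul' c x := by
    simp only [RingHom.id_apply, Complex.real_smul, Complex.re_ofReal_mul, Complex.im_ofReal_mul]
    push_cast
    ring

theorem det_linTri (u v : ℂ) : LinearMap.det (linTri u v) = crs u v := by
  rw [← LinearMap.det_toMatrix Complex.basisOneI, Matrix.det_fin_two]
  simp [LinearMap.toMatrix_apply, linTri, crs]
  ring

theorem vol_tri {i j k : ℂ} (h : 0 < ar2 i j k) :
    volume (oTri i j k) = ENNReal.ofReal (ar2 i j k / 2) := by
  have himg : oTri i j k = (fun w => i + w) '' ((linTri (j - i) (k - i)) '' stdTri) := by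
    ext z
    simp only [Set.mem_image]
    constructor
    · intro hz
      obtain ⟨a, b, c, ha, hb, hc, hs, rfl⟩ := oTri_bary h hz
      refine ⟨_, ⟨⟨b, c⟩, ⟨hb, hc, by simp only; linarith⟩, rfl⟩, ?_⟩
      have ha' : (a : ℂ) = 1 - b - c := by
        have : a = 1 - b - c := by linarith
        rw [this]
        push_cast
        ring
      simp only [linTri, LinearMap.coe_mk, AddHom.coe_mk]
      rw [ha']
      ring
    · rintro ⟨_, ⟨w, ⟨h1, h2, h3⟩, rfl⟩, rfl⟩
      have := oTri_of_bary h (a := 1 - w.re - w.im) (b := w.re) (c := w.im) (by linarith) h1 h2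
        (by ring)
      convert this using 1
      simp only [linTri, LinearMap.coe_mk, AddHom.coe_mk]
      push_cast
      ring
  rw [himg, Set.image_add_left, measure_preimage_add, Measure.addHaar_image_linearMap, det_linTri, vol_stdTri]
  have : crs (j - i) (k - i) = ar2 i j k := rfl
  rw [this, abs_of_pos h, ← ENNReal.ofReal_mul h.le]
  congr 1
  ring

end Pool.Agent.Lib.P37
end
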