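import Pool.Agent.Lib.MP_c009e6_co.Body
import Pool.Agent.Lib.MP_c009e6_co.DelA
import Pool.Agent.Lib.MP_c009e6_co.Checker
import Pool.Agent.Lib.MP_c009e6_co.VolTri
import Pool.Agent.Lib.MP_c009e6_co.FDefs
import Pool.Agent.Lib.MP_c009e6_co.GCard

section

namespace Pool.Agent.Lib.P37

open Real MeasureTheory

/-- centre of the pencil of circles through `i` and `j` -/
noncomputable def pcen (i j : ℂ) (t : ℝ) : ℂ :=
  ⟨(i.re + j.re) / 2 - t * (j.im - i.im), (i.im + j.im) / 2 + t * (j.re - i.re)⟩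

/-- the power of `q` at parameter `0` -/
def pow0 (i j q : ℂ) : ℝ := (q.re - i.re) * (q.re - j.re) + (q.im - i.im) * (q.im - j.im)

theorem power_eq (i j q : ℂ) (t : ℝ) :
    ‖q - pcen i j t‖ ^ 2 - ‖i - pcen i j t‖ ^ 2 = pow0 i j q - 2 * t * ar2 i j q := by
  rw [norm_sub_sq', norm_sub_sq']
  unfold pcen pow0 ar2 crs
  simp only [Complex.sub_re, Complex.sub_im]
  ring

theorem pcen_norm (i j : ℂ) (t : ℝ) : ‖j - pcen i j t‖ = ‖i - pcen i j t‖ := by
  have h : ‖j - pcen i j t‖ ^ 2 = ‖i - pcen i j t‖ ^ 2 := by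
    rw [norm_sub_sq', norm_sub_sq']
    unfold pcen
    simp only
    ring
  exact (pow_left_inj₀ (norm_nonneg _) (norm_nonneg _) two_ne_zero).mp h

/-- first hit -/
theorem first_hit {S : Finset ℂ} (hgp : GP S) {i j : ℂ} (hi : i ∈ S) (hj : j ∈ S) (hij : i ≠ j)
    (t0 : ℝ) (hL : ∃ l ∈ S, 0 < ar2 i j l)
    (h1 : ∀ l ∈ S, 0 < ar2 i j l → 0 < pow0 i j l - 2 * t0 * ar2 i j l)
    (h2 : ∀ q ∈ S, q ≠ i → q ≠ j → ar2 i j q < 0 → 0 ≤ pow0 i j q - 2 * t0 * ar2 i j q)
    (h3 : ∀ q ∈ S, q ≠ i → q ≠ j → ar2 i j q = 0 → 0 < pow0 i j q) :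
    ∃ k, Del S i j k := by
  classical
  set L := S.filter (fun q => 0 < ar2 i j q) with hLdef
  have hLne : L.Nonempty := by
    obtain ⟨l, hl, hl'⟩ := hL
    exact ⟨l, Finset.mem_filter.mpr ⟨hl, hl'⟩⟩
  obtain ⟨k, hk, hmin⟩ := Finset.exists_min_image L (fun q => pow0 i j q / (2 * ar2 i j q)) hLne
  rw [hLdef, Finset.mem_filter] at hk
  obtain ⟨hkS, hk0⟩ := hk
  set t1 : ℝ := pow0 i j k / (2 * ar2 i j k) with ht1
  have ht : t0 < t1 := by
    rw [ht1, lt_div_iff₀ (by linarith)]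
    have := h1 k hkS hk0
    linarith
  have hkp : pow0 i j k - 2 * t1 * ar2 i j k = 0 := by
    rw [ht1]
    field_simp
    ring
  have hki : k ≠ i := by
    rintro rfl
    rw [ar2_self_left] at hk0
    exact lt_irrefl _ hk0
  have hkj : k ≠ j := by
    rintro rfl
    rw [ar2_self_right] at hk0
    exact lt_irrefl _ hk0
  set m := pcen i j t1 with hm
  have hjm : ‖j - m‖ = ‖i - m‖ := pcen_norm i j t1
  have hkm : ‖k - m‖ = ‖i - m‖ := by
    have h := power_eq i j k t1
    rw [hkp] at h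
    have h' : ‖k - m‖ ^ 2 = ‖i - m‖ ^ 2 := by linarith
    exact (pow_left_inj₀ (norm_nonneg _) (norm_nonneg _) two_ne_zero).mp h'
  refine ⟨k, hi, hj, hkS, hk0, m, ‖i - m‖, rfl, hjm, hkm, ?_⟩
  intro l hl hli hlj hlk
  have hp := power_eq i j l t1
  have key : 0 < pow0 i j l - 2 * t1 * ar2 i j l := by
    rcases lt_trichotomy (ar2 i j l) 0 with h | h | h
    · have h4 := h2 l hl hli hlj h
      have h5 : 0 < 2 * (t1 - t0) * (- ar2 i j l) := by
        apply mul_pos
        · linarith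
        · linarith
      linarith
    · have h4 := h3 l hl hli hlj h
      rw [h]
      linarith
    · have h4 := hmin l (Finset.mem_filter.mpr ⟨hl, h⟩)
      rw [le_div_iff₀ (by linarith)] at h4
      rcases (show 0 ≤ pow0 i j l - 2 * t1 * ar2 i j l by
        rw [ht1]; linarith).eq_or_lt with h5 | h5
      · exfalso
        have h6 : ‖l - m‖ ^ 2 = ‖i - m‖ ^ 2 := by linarith
        have h7 : ‖l - m‖ = ‖i - m‖ :=
          (pow_left_inj₀ (norm_nonneg _) (norm_nonneg _) two_ne_zero).mp h6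
        exact hgp m ‖i - m‖ i hi j hj k hkS l hl hij hki.symm hli.symm hkj.symm hlj.symm
          hlk.symm ⟨rfl, hjm, hkm, h7⟩
      · exact h5
  have h8 : ‖i - m‖ ^ 2 < ‖l - m‖ ^ 2 := by linarith
  exact lt_of_pow_lt_pow_left₀ 2 (norm_nonneg _) h8

/-- covering: there are points strictly to the left of a line through a deep point -/
theorem cov_left {S : Finset ℂ} {ρ : ℝ} (hcov : Cov S ρ) {v u : ℂ} (hv : ‖v‖ ≤ ρ - 3)
    (hu : u ≠ 0) : ∃ a ∈ S, 0 < crs u (a - v) := by
  have hun : 0 < ‖u‖ := norm_pos_iff.mpr hu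
  set c : ℝ := 2.008 / ‖u‖ with hc
  have hc0 : 0 < c := by positivity
  have hcu : c * ‖u‖ = 2.008 := by rw [hc]; field_simp
  set x : ℂ := v + (c : ℂ) * (Complex.I * u) with hx
  have h1 : ‖x‖ ≤ ρ := by
    have h2 : ‖(c : ℂ) * (Complex.I * u)‖ = 2.008 := by
      rw [norm_mul, norm_mul, Complex.norm_I, one_mul, Complex.norm_real,
        Real.norm_of_nonneg hc0.le, hcu]
    have h3 := norm_add_le v ((c : ℂ) * (Complex.I * u))
    rw [h2] at h3
    linarith
  obtain ⟨a, ha, hax⟩ := hcov x h1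
  refine ⟨a, ha, ?_⟩
  have hxre : x.re = v.re - c * u.im := by
    rw [hx]
    simp
    ring
  have hxim : x.im = v.im + c * u.re := by
    rw [hx]
    simp
  have h4 : (x.re - a.re) ^ 2 + (x.im - a.im) ^ 2 < 2.008 ^ 2 := by
    rw [← norm_sub_sq']
    exact pow_lt_pow_left₀ hax (norm_nonneg _) two_ne_zero
  have h5 : (c * ‖u‖) ^ 2 = c ^ 2 * (u.re ^ 2 + u.im ^ 2) := by
    rw [mul_pow, Complex.sq_norm, Complex.normSq_apply]
    ring
  rw [hcu] at h5
  rw [hxre, hxim] at h4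
  unfold crs
  simp only [Complex.sub_re, Complex.sub_im]
  have h6 : (a.re - v.re) ^ 2 + (a.im - v.im) ^ 2 <
      2 * c * (u.re * (a.im - v.im) - u.im * (a.re - v.re)) := by
    nlinarith [h4, h5]
  have h7 : 0 < 2 * c * (u.re * (a.im - v.im) - u.im * (a.re - v.re)) :=
    lt_of_le_of_lt (by positivity) h6
  exact (pos_iff_pos_of_mul_pos h7).1 (by linarith)

theorem del_across {S : Finset ℂ} {ρ : ℝ} (hgp : GP S) (hcov : Cov S ρ) {i j k : ℂ}
    (h : Del S i j k) (hi : ‖i‖ ≤ ρ - 3 ∨ ‖j‖ ≤ ρ - 3) : ∃ l, Del S j i l := by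
  obtain ⟨hiS, hjS, hkS, ha, m, r, h1, h2, h3, h4⟩ := h
  have hij : i ≠ j := by
    rintro rfl
    unfold ar2 crs at ha
    simp at ha
  have hr0 : 0 ≤ r := by rw [← h1]; exact norm_nonneg _
  have s1 : (i.re - m.re) ^ 2 + (i.im - m.im) ^ 2 = r ^ 2 := by rw [← norm_sub_sq', h1]
  have s2 : (j.re - m.re) ^ 2 + (j.im - m.im) ^ 2 = r ^ 2 := by rw [← norm_sub_sq', h2]
  set ux := i.re - j.re with hux
  set uy := i.im - j.im with huy
  have hu : 0 < ux ^ 2 + uy ^ 2 := by
    have : 0 < ‖i - j‖ ^ 2 := by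
      have : 0 < ‖i - j‖ := norm_pos_iff.mpr (sub_ne_zero.mpr hij)
      positivity
    rwa [norm_sub_sq'] at this
  set wx := m.re - (j.re + i.re) / 2 with hwx
  set wy := m.im - (j.im + i.im) / 2 with hwy
  have hperp : ux * wx + uy * wy = 0 := by
    rw [hux, huy, hwx, hwy]
    linear_combination (s2 - s1) / 2
  set t0 : ℝ := (ux * wy - uy * wx) / (ux ^ 2 + uy ^ 2) with ht0
  have e1 : wx = - (t0 * uy) := by
    rw [ht0, div_mul_eq_mul_div, ← neg_div, eq_div_iff hu.ne']
    linear_combination ux * hperp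
  have e2 : wy = t0 * ux := by
    rw [ht0, div_mul_eq_mul_div, eq_div_iff hu.ne']
    linear_combination uy * hperp
  have hmc : pcen j i t0 = m := by
    unfold pcen
    apply Complex.ext
    · show (j.re + i.re) / 2 - t0 * (i.im - j.im) = m.re
      rw [← huy]
      linarith
    · show (j.im + i.im) / 2 + t0 * (i.re - j.re) = m.im
      rw [← hux]
      linarith
  have hpow : ∀ q, pow0 j i q - 2 * t0 * ar2 j i q = ‖q - m‖ ^ 2 - r ^ 2 := by
    intro q
    rw [← power_eq, hmc, h2]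
  have hflip : ∀ q, ar2 j i q = - ar2 i j q := by
    intro q
    unfold ar2 crs
    simp only [Complex.sub_re, Complex.sub_im]
    ring
  have hout : ∀ q ∈ S, q ≠ i → q ≠ j → q ≠ k → 0 < pow0 j i q - 2 * t0 * ar2 j i q := by
    intro q hq a b c
    rw [hpow]
    have := pow_lt_pow_left₀ (h4 q hq a b c) hr0 two_ne_zero
    linarith
  have hkp : pow0 j i k - 2 * t0 * ar2 j i k = 0 := by
    rw [hpow, h3]
    ring
  refine first_hit hgp hjS hiS hij.symm t0 ?_ ?_ ?_ ?_
  · -- covering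
    have hne : i - j ≠ 0 := sub_ne_zero.mpr hij
    rcases hi with hi | hi
    · obtain ⟨a, ha, hca⟩ := cov_left hcov hi hne
      refine ⟨a, ha, ?_⟩
      have e : ar2 j i a = crs (i - j) (a - i) := by
        unfold ar2 crs
        simp only [Complex.sub_re, Complex.sub_im]
        ring
      rw [e]
      exact hca
    · obtain ⟨a, ha, hca⟩ := cov_left hcov hi hne
      exact ⟨a, ha, hca⟩
  · intro l hl hpos
    have hlk : l ≠ k := by
      rintro rfl
      rw [hflip] at hpos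
      linarith
    have hli : l ≠ i := by
      rintro rfl
      rw [ar2_self_right] at hpos
      exact lt_irrefl _ hpos
    have hlj : l ≠ j := by
      rintro rfl
      rw [ar2_self_left] at hpos
      exact lt_irrefl _ hpos
    exact hout l hl hli hlj hlk
  · intro q hq hqj hqi _
    by_cases hqk : q = k
    · rw [hqk, hkp]
    · exact (hout q hq hqi hqj hqk).le
  · intro q hq hqj hqi h0
    have hqk : q ≠ k := by
      rintro rfl
      rw [hflip] at h0
      linarith
    have := hout q hq hqi hqj hqk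
    rw [h0] at this
    linarith

theorem del_exists {S : Finset ℂ} {ρ : ℝ} (hgp : GP S) (hcov : Cov S ρ) {i : ℂ} (hi : i ∈ S)
    (hi' : ‖i‖ ≤ ρ - 3) : ∃ j k, Del S i j k := by
  classical
  have hne : (S.erase i).Nonempty := by
    obtain ⟨a, ha, hca⟩ := cov_left hcov (u := 1) hi' one_ne_zero
    refine ⟨a, Finset.mem_erase.mpr ⟨?_, ha⟩⟩
    rintro rfl
    unfold crs at hca
    simp at hca
  obtain ⟨j, hj, hmin⟩ := Finset.exists_min_image (S.erase i) (fun q => ‖q - i‖) hne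
  rw [Finset.mem_erase] at hj
  obtain ⟨hji, hjS⟩ := hj
  have hA : ∀ q ∈ S, q ≠ i → q ≠ j → 0 < pow0 i j q := by
    intro q hq hqi hqj
    have h1 := hmin q (Finset.mem_erase.mpr ⟨hqi, hq⟩)
    have h2 : ‖j - i‖ ^ 2 ≤ ‖q - i‖ ^ 2 := pow_le_pow_left₀ (norm_nonneg _) h1 2
    have h3 : 0 < ‖q - j‖ ^ 2 := by
      have : 0 < ‖q - j‖ := norm_pos_iff.mpr (sub_ne_zero.mpr hqj)
      positivity
    rw [norm_sub_sq', norm_sub_sq'] at h2
    rw [norm_sub_sq'] at h3
    unfold pow0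
    nlinarith [h2, h3]
  suffices h : ∃ k, Del S i j k by
    obtain ⟨k, hk⟩ := h
    exact ⟨j, k, hk⟩
  refine first_hit hgp hi hjS hji.symm 0 ?_ ?_ ?_ ?_
  · obtain ⟨a, ha, hca⟩ := cov_left hcov hi' (sub_ne_zero.mpr hji)
    exact ⟨a, ha, hca⟩
  · intro l hl hpos
    have hli : l ≠ i := by
      rintro rfl
      rw [ar2_self_left] at hpos
      exact lt_irrefl _ hpos
    have hlj : l ≠ j := by
      rintro rfl
      rw [ar2_self_right] at hpos
      exact lt_irrefl _ hpos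
    have := hA l hl hli hlj
    linarith
  · intro q hq a b _
    have := hA q hq a b
    linarith
  · intro q hq a b _
    exact hA q hq a b

end Pool.Agent.Lib.P37
end

section

section

/-!
# Certificates for the box check, part 12
-/

namespace Pool.Agent.Lib.P37.Chk

open Crt

theorem c_5_7_5 : colCheck 176 240 176 [
    (E [33]),
    (E [31]),
    (E [31]),
    (E [41]),
    (E [31, 33]),
    (E [27]),
    (E [32])] = true := by
  decide +kernel

theorem c_5_8_5 : colCheck 176 272 176 [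
    (E [31]),
    (E [31]),
    (E [31]),
    (E [31]),
    (E [41]),
    (E [35]),
    (E [26])] = true := by
  decide +kernel

theorem c_5_9_5 : colCheck 176 304 176 [
    (E [31]),
    (E [31]),
    (E [31]),
    (E [31]),
    (E [31]),
    (E [46]),
    (E [41, 36])] = true := by
  decide +kernel

theorem c_5_10_5 : colCheck 176 336 176 [
    (E [31]),
    (E [31]),
    (E [31]),
    (E [31]),
    (E [31]),
    (E [31]),
    (E [41])] = true := by
  decide +kernel

theorem c_5_11_5 : colCheck 176 368 176 [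
    (E [31]),
    (E [31]),
    (E [31]),
    (E [31]),
    (E [31]),
    (E [31]),
    (E [31])] = true := by
  decide +kernel

theorem c_6_6_6 : colCheck 208 208 208 [
    (E [31]),
    (E [41]),
    (E [31]),
    (E [31]),
    (E [31]),
    (E [31])] = true := by
  decide +kernel

theorem c_6_7_6 : colCheck 208 240 208 [
    (E [33]),
    (E [33]),
    (E [48]),
    (N (E [33]) (E [33]) (E [41]) (E [31]) (E [31]) (E [31]) (E [43]) (E [43])),
    (E [29]),
    (E [34])] = true := by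
  decide +kernel

theorem c_6_8_6 : colCheck 208 272 208 [
    (E [31]),
    (E [31]),
    (E [33]),
    (N (E [41]) (E [31]) (E [31]) (E [41]) (E [43]) (E [43]) (E [31]) (E [46])),
    (N (E [31]) (E [31]) (E [41]) (E [41]) (E [38]) (E [33]) (E [48]) (E [41, 46, 44, 49])),
    (N (E [31]) (E [31]) (E [31]) (E [31]) (E [33]) (E [33]) (E [31, 26, 33]) (E [31]))] = true := by
  decide +kernel

theorem c_6_9_6 : colCheck 208 304 208 [
    (E [31]),
    (E [30]),
    (E [30]),
    (N (E [31]) (E [31]) (E [31]) (E [31]) (E [31]) (E [31]) (E [31]) (E [31])),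
    (N (E [46]) (E [46]) (E [31]) (E [31]) (E [46]) (E [45]) (E [30]) (E [31])),
    (N (E [41]) (E [31]) (E [41]) (E [41]) (N (E [41]) (E [31]) (E [41]) (E [31]) (E [41]) (E [31]) (E [46]) (E [40])) (N (E [31]) (E [31]) (E [31]) (E [31]) (E [31]) (E [31]) (E [30]) (E [26])) (N (E [41]) (E [41]) (E [31]) (E [41]) (E [41]) (E [41]) (E [31]) (E [41])) (N (E [41]) (E [31]) (E [41]) (E [31]) (E [41]) (E [31]) (E [41]) (E [41])))] = true := by
  decide +kernel

theorem c_6_10_6 : colCheck 208 336 208 [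
    (E [31]),
    (E [31]),
    (E [31]),
    (N (E [31]) (E [31]) (E [31]) (E [31]) (E [31]) (E [31]) (E [31]) (E [31])),
    (N (E [31]) (E [31]) (E [31]) (E [31]) (E [31]) (E [31]) (E [31]) (E [31])),
    (N (E [31]) (E [41]) (E [31]) (E [31]) (E [31]) (N (E [41]) (E [41]) (E [31]) (E [41]) (E [41]) (E [41]) (E [31]) (E [41])) (E [31]) (E [31]))] = true := by
  decide +kernel

theorem c_6_11_6 : colCheck 208 368 208 [
    (E [31]),
    (E [31]),
    (E [31]),
    (E [31]),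
    (E [31]),
    (E [31])] = true := by
  decide +kernel

theorem c_7_7_7 : colCheck 240 240 240 [
    (E [31]),
    (N (E [41]) (E [31]) (E [31]) (E [41]) (E [41]) (E [41]) (E [31]) (E [41])),
    (N (E [31]) (E [31]) (E [41]) (E [31]) (E [31]) (E [31]) (E [41]) (E [41])),
    (N (E [31]) (E [31]) (E [31]) (E [31]) (E [31]) (E [31]) (E [31]) (E [31])),
    (N (E [31]) (E [31]) (E [31]) (E [31]) (E [31]) (E [31]) (E [31]) (E [31]))] = true := by
  decide +kernel

theorem c_7_8_7 : colCheck 240 272 240 [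
    (N (E [33]) (E [33]) (E [31]) (E [33]) (E [31]) (E [31]) (E [33]) (E [33])),
    (N (E [33]) (E [33]) (E [33]) (E [33]) (E [31]) (E [31]) (E [33]) (E [34])),
    (N (E [48]) (E [44]) (E [33]) (E [49]) (E [46]) (E [46]) (E [34]) (E [49])),
    (N (E [44]) (E [34]) (N (E [43]) (E [43]) (E [48]) (E [48]) (E [48]) (E [44]) (E [48]) (E [44])) (N (E [34]) (E [33]) (E [43]) (E [44]) (E [44]) (E [34]) (E [44]) (E [44])) (N (E [31]) (E [31]) (E [41]) (E [41]) (E [31]) (E [31]) (E [41]) (E [41])) (N (E [31]) (E [31]) (E [31]) (E [31]) (E [31]) (E [31]) (E [31]) (E [31])) (N (E [41]) (E [41]) (E [49]) (E [49]) (E [41]) (E [41]) (E [46]) (E [46])) (N (E [41]) (E [31]) (E [49]) (N (E [41]) (E [31]) (V 2) (V 2) (E [41]) (E [31]) (V 2) (V 2)) (E [41]) (E [31]) (E [46]) (N (E [41]) (E [31]) (V 2) (V 2) (E [41]) (E [31]) (V 2) (V 2)))),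
    (N (E [34]) (E [33]) (N (E [33]) (E [33]) (E [34]) (E [33]) (E [34]) (E [31]) (E [34]) (E [34])) (E [34]) (E [31]) (E [31]) (N (E [31]) (E [31]) (E [31, 41]) (E [31]) (E [31]) (E [31]) (N (E [31]) (E [31]) (V 2) (V 2) (E [31]) (E [31]) (V 2) (V 2)) (E [31])) (E [31]))] = true := by
  decide +kernel

end Pool.Agent.Lib.P37.Chk
end

section

/-!
# Certificates for the box check, part 2
-/

namespace Pool.Agent.Lib.P37.Chk

open Crt

theorem c_1_4_1 : colCheck 48 144 48 [
    (E [31]),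
    (E [31]),
    (N (E [31]) (E [31]) (E [31]) (E [31]) (E [31]) (E [31]) (E [31]) (E [31])),
    (N (E [31]) (E [31]) (E [31]) (E [31]) (N (E [31]) (E [31]) (E [31]) (E [31]) (E [31]) (E [31]) (E [31]) (E [31])) (N (E [31]) (E [31]) (E [31]) (E [31]) (E [31]) (E [33, 32]) (E [31]) (E [31])) (E [31]) (E [31])),
    (N (E [31]) (N (E [41]) (E [31]) (E [31]) (E [41]) (V 3) (V 3) (E [31]) (E [41])) (E [31]) (E [31]) (N (V 3) (V 3) (E [31]) (V 3) (V 3) (V 3) (E [31]) (V 3)) (V 3) (E [31]) (E [31])),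
    (N (N (E [31]) (E [31]) (E [31]) (E [31]) (V 3) (V 3) (E [41]) (E [31])) (E [26]) (E [41]) (E [31]) (V 3) (V 3) (N (E [41]) (E [41]) (E [31]) (E [41]) (V 3) (V 3) (E [31]) (E [41])) (E [26, 41])),
    (N (E [31]) (E [31]) (E [31]) (E [31]) (E [31]) (E [31]) (E [31]) (E [31])),
    (E [31]),
    (E [31]),
    (E [30]),
    (N (E [31]) (E [31]) (E [31]) (E [31]) (E [31]) (E [31]) (E [31]) (E [31]))] = true := by
  decide +kernel

theorem c_1_5_1 : colCheck 48 176 48 [
    (E [31]),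
    (E [31]),
    (E [31]),
    (E [31]),
    (N (E [31]) (E [31]) (E [31]) (E [31]) (E [31]) (E [31]) (E [31]) (E [31])),
    (N (E [31]) (E [41]) (E [31]) (E [31]) (E [31]) (E [41]) (E [31]) (E [31])),
    (E [36]),
    (E [31]),
    (E [31]),
    (E [6]),
    (N (E [31]) (E [31]) (E [31]) (E [31]) (E [31]) (E [31]) (E [31]) (E [31]))] = true := by
  decide +kernel

theorem c_1_6_1 : colCheck 48 208 48 [
    (E [31]),
    (E [31]),
    (E [31]),
    (E [31]),
    (E [31]),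
    (E [31]),
    (E [41]),
    (E [36]),
    (E [26]),
    (N (E [31]) (E [31]) (E [31]) (E [31]) (E [31]) (E [31]) (E [31]) (E [31])),
    (N (E [31]) (E [81]) (E [31, 56]) (E [81]) (E [31]) (E [31]) (E [31]) (E [31]))] = true := by
  decide +kernel

theorem c_1_7_1 : colCheck 48 240 48 [
    (E [31]),
    (E [31]),
    (E [31]),
    (E [31]),
    (E [31]),
    (E [31]),
    (E [31]),
    (E [46]),
    (N (E [31]) (E [31]) (E [41]) (E [31, 41]) (E [31]) (E [31]) (E [41]) (E [31])),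
    (N (E [31]) (N (E [31]) (E [31]) (E [31]) (E [31]) (E [31]) (E [31]) (E [31]) (E [31])) (E [26]) (N (E [31]) (E [31]) (V 0) (E [31]) (E [31]) (E [31]) (V 0) (E [31])) (E [31]) (E [31]) (E [26]) (E [31])),
    (N (N (E [31]) (E [31]) (E [31]) (E [31]) (E [31]) (E [31]) (E [31]) (E [31])) (E [81]) (N (E [31]) (E [31]) (E [31]) (E [31]) (E [31]) (E [31]) (E [31]) (E [31])) (E [81]) (E [31]) (E [31]) (E [31]) (E [31]))] = true := by
  decide +kernel

theorem c_1_8_1 : colCheck 48 272 48 [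
    (E [31]),
    (E [31]),
    (E [31]),
    (E [31]),
    (E [31]),
    (E [31]),
    (E [31]),
    (E [31]),
    (N (E [31]) (E [41]) (E [31]) (E [31]) (E [31]) (E [41]) (E [31]) (E [31])),
    (N (E [26, 41]) (V 0) (E [41]) (V 0) (E [31]) (E [26]) (E [41]) (E [31, 41])),
    (N (N (E [31]) (E [31]) (V 0) (E [31]) (E [31]) (E [31]) (V 0) (E [31])) (E [81]) (N (V 0) (E [31]) (V 0) (E [76]) (V 0) (E [31]) (V 0) (E [26])) (E [81]) (E [31]) (E [31]) (E [1]) (E [31]))] = true := by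
  decide +kernel

theorem c_1_9_1 : colCheck 48 304 48 [
    (E [31]),
    (E [31]),
    (E [31]),
    (E [31]),
    (E [31]),
    (E [31]),
    (E [31]),
    (E [31]),
    (E [31]),
    (N (E [31]) (V 0) (E [31]) (E [31]) (E [31]) (E [41]) (E [31]) (E [31])),
    (N (N (V 0) (E [81, 91]) (V 0) (E [91]) (V 0) (E [26, 66]) (V 0) (E [31, 81, 41, 91])) (N (E [81]) (E [31]) (E [81]) (E [31]) (E [81]) (E [31]) (E [81]) (E [31])) (E [96, 71]) (E [91]) (N (E [6]) (E [31]) (E [41]) (E [6]) (E [31]) (E [31]) (E [31]) (E [6])) (E [26, 36]) (E [41]) (E [66, 61]))] = true := by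
  decide +kernel

theorem c_1_10_1 : colCheck 48 336 48 [
    (E [31]),
    (E [31]),
    (E [31]),
    (E [31]),
    (E [31]),
    (E [31]),
    (E [31]),
    (E [31]),
    (E [31]),
    (N (E [31]) (E [31]) (E [31]) (E [31]) (E [31]) (E [31]) (E [31]) (E [31])),
    (N (E [31]) (E [91]) (E [31]) (E [31]) (E [31]) (E [41]) (E [31]) (E [31]))] = true := by
  decide +kernel

theorem c_1_11_1 : colCheck 48 368 48 [
    (E [31]),
    (E [31]),
    (E [31]),
    (E [31]),
    (E [31]),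
    (E [31]),
    (E [31]),
    (E [31]),
    (E [31]),
    (E [31]),
    (E [81])] = true := by
  decide +kernel

theorem c_2_2_2 : colCheck 80 80 80 [
    (E [31]),
    (N (E [31]) (E [41]) (E [31]) (E [31]) (E [31]) (E [41]) (E [31]) (E [31])),
    (N (E [41]) (E [31]) (E [46]) (N (E [31]) (E [31]) (E [41]) (E [41]) (E [31]) (E [31]) (E [41]) (E [41])) (E [41]) (E [31]) (E [46]) (N (E [31]) (E [31]) (E [41]) (E [41]) (E [41]) (E [31]) (E [41]) (E [41]))),
    (N (E [31]) (E [31]) (E [26]) (E [31]) (E [31]) (E [31]) (N (E [31]) (E [31]) (E [31]) (E [31]) (E [31]) (E [31]) (E [31]) (E [31])) (E [31])),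
    (N (E [31]) (E [31]) (E [31]) (E [31]) (E [31]) (E [31]) (E [31]) (E [31])),
    (E [31]),
    (E [31]),
    (E [31]),
    (E [31]),
    (E [31])] = true := by
  decide +kernel

end Pool.Agent.Lib.P37.Chk
end

section

namespace Pool.Agent.Lib.P37

open Real MeasureTheory

theorem del_overlap {S : Finset ℂ} {i j k i' j' k' z : ℂ} (h : Del S i j k) (h' : Del S i' j' k')
    (hz : z ∈ oTri i j k) (hz' : z ∈ oTri i' j' k') :
    (i', j', k') = (i, j, k) ∨ (i', j', k') = (j, k, i) ∨ (i', j', k') = (k, i, j) := by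
  obtain ⟨hi, hj, hk, ha, m, r, h1, h2, h3, h4⟩ := h
  obtain ⟨hi', hj', hk', ha', m', r', h1', h2', h3', h4'⟩ := h'
  have hr : 0 ≤ r := h1 ▸ norm_nonneg _
  have hr' : 0 ≤ r' := h1' ▸ norm_nonneg _
  have hS : ∀ l ∈ S, r ^ 2 ≤ ‖l - m‖ ^ 2 := by
    intro l hl
    apply pow_le_pow_left₀ hr
    by_cases e1 : l = i
    · rw [e1, h1]
    by_cases e2 : l = j
    · rw [e2, h2]
    by_cases e3 : l = k
    · rw [e3, h3]
    exact (h4 l hl e1 e2 e3).le
  have hS' : ∀ l ∈ S, r' ^ 2 ≤ ‖l - m'‖ ^ 2 := by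
    intro l hl
    apply pow_le_pow_left₀ hr'
    by_cases e1 : l = i'
    · rw [e1, h1']
    by_cases e2 : l = j'
    · rw [e2, h2']
    by_cases e3 : l = k'
    · rw [e3, h3']
    exact (h4' l hl e1 e2 e3).le
  have hin : ∀ l ∈ S, ‖l - m'‖ ^ 2 = r' ^ 2 → l = i' ∨ l = j' ∨ l = k' := by
    intro l hl he
    by_contra hcon
    push Not at hcon
    have := h4' l hl hcon.1 hcon.2.1 hcon.2.2
    have h5 : r' ^ 2 < ‖l - m'‖ ^ 2 := pow_lt_pow_left₀ this hr' two_ne_zero
    linarith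
  obtain ⟨δ, hδ⟩ : ∃ δ : ℂ → ℝ, ∀ q, δ q = (‖q - m‖ ^ 2 - r ^ 2) - (‖q - m'‖ ^ 2 - r' ^ 2) :=
    ⟨_, fun _ => rfl⟩
  have hlin : ∀ a b c : ℝ, ∀ x y w : ℂ, a + b + c = 1 →
      δ ((a : ℂ) * x + (b : ℂ) * y + (c : ℂ) * w) = a * δ x + b * δ y + c * δ w := by
    intro a b c x y w hs
    have h0 : a = 1 - b - c := by linarith
    rw [hδ, hδ, hδ, hδ]
    simp only [norm_sub_sq', Complex.add_re, Complex.add_im, Complex.re_ofReal_mul,
      Complex.im_ofReal_mul]
    rw [h0]
    ring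
  have d1 : δ i ≤ 0 := by rw [hδ, h1]; linarith [hS' i hi]
  have d2 : δ j ≤ 0 := by rw [hδ, h2]; linarith [hS' j hj]
  have d3 : δ k ≤ 0 := by rw [hδ, h3]; linarith [hS' k hk]
  have d1' : 0 ≤ δ i' := by rw [hδ, h1']; linarith [hS i' hi']
  have d2' : 0 ≤ δ j' := by rw [hδ, h2']; linarith [hS j' hj']
  have d3' : 0 ≤ δ k' := by rw [hδ, h3']; linarith [hS k' hk']
  obtain ⟨a, b, c, pa, pb, pc, hs, hze⟩ := oTri_bary ha hz
  obtain ⟨a', b', c', pa', pb', pc', hs', hze'⟩ := oTri_bary ha' hz'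
  have e := hlin a b c i j k hs
  have e' := hlin a' b' c' i' j' k' hs'
  rw [← hze] at e
  rw [← hze'] at e'
  have z0 : 0 ≤ δ z := by rw [e']; positivity
  have m1 : a * δ i ≤ 0 := mul_nonpos_of_nonneg_of_nonpos pa.le d1
  have m2 : b * δ j ≤ 0 := mul_nonpos_of_nonneg_of_nonpos pb.le d2
  have m3 : c * δ k ≤ 0 := mul_nonpos_of_nonneg_of_nonpos pc.le d3
  have n1 : a * δ i = 0 := by linarith
  have n2 : b * δ j = 0 := by linarith
  have n3 : c * δ k = 0 := by linarith
  have o1 : δ i = 0 := (mul_eq_zero.mp n1).resolve_left pa.ne'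
  have o2 : δ j = 0 := (mul_eq_zero.mp n2).resolve_left pb.ne'
  have o3 : δ k = 0 := (mul_eq_zero.mp n3).resolve_left pc.ne'
  have q1 := hin i hi (by rw [hδ, h1] at o1; linarith)
  have q2 := hin j hj (by rw [hδ, h2] at o2; linarith)
  have q3 := hin k hk (by rw [hδ, h3] at o3; linarith)
  clear hlin hδ o1 o2 o3 n1 n2 n3 m1 m2 m3 e e' hze hze' d1 d2 d3 d1' d2' d3' hin hS hS' hz hz' h4 h4' z0
  unfold ar2 crs at ha ha'
  simp only [Complex.sub_re, Complex.sub_im] at ha ha'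
  rcases q1 with rfl | rfl | rfl <;> rcases q2 with q2 | q2 | q2 <;> rcases q3 with q3 | q3 | q3 <;>
    first
    | (subst q2; subst q3; exact Or.inl rfl)
    | (subst q2; subst q3; exact Or.inr (Or.inl rfl))
    | (subst q2; subst q3; exact Or.inr (Or.inr rfl))
    | (exfalso; rw [q2, q3] at ha; linarith)

open Classical in
/-- a point lies in at most three open triangles of (ordered) Delaunay triples -/
theorem mult_le_three (S : Finset ℂ) (z : ℂ) :
    ((DT S).filter (fun t => z ∈ oTri t.1 t.2.1 t.2.2)).card ≤ 3 := by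
  rcases Finset.eq_empty_or_nonempty ((DT S).filter (fun t => z ∈ oTri t.1 t.2.1 t.2.2)) with h | h
  · rw [h]; simp
  · obtain ⟨⟨i, j, k⟩, ht⟩ := h
    rw [Finset.mem_filter, mem_DT] at ht
    have hsub : (DT S).filter (fun t => z ∈ oTri t.1 t.2.1 t.2.2) ⊆
        {(i, j, k), (j, k, i), (k, i, j)} := by
      rintro ⟨i', j', k'⟩ ht'
      rw [Finset.mem_filter, mem_DT] at ht'
      simp only [Finset.mem_insert, Finset.mem_singleton]
      exact del_overlap ht.1 ht'.1 ht.2 ht'.2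
    exact (Finset.card_le_card hsub).trans Finset.card_le_three

theorem area_sum {S : Finset ℂ} {ρ : ℝ} (hρ : 0 ≤ ρ) (hS : ∀ a ∈ S, ‖a‖ ≤ ρ) :
    ∑ t ∈ DT S, ar2 t.1 t.2.1 t.2.2 ≤ 6 * π * ρ ^ 2 := by
  classical
  have hD : ∀ t ∈ DT S, Del S t.1 t.2.1 t.2.2 := fun t ht => mem_DT.mp ht
  have hsub : ∀ t ∈ DT S, ∀ z ∈ oTri t.1 t.2.1 t.2.2, ‖z‖ ≤ ρ := by
    intro t ht z hz
    have h := hD t ht
    obtain ⟨a, b, c, ha, hb, hc, hs, rfl⟩ := oTri_bary h.2.2.2.1 hz
    have h1 := hS _ h.1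
    have h2 := hS _ h.2.1
    have h3 := hS _ h.2.2.1
    calc ‖(a : ℂ) * t.1 + (b : ℂ) * t.2.1 + (c : ℂ) * t.2.2‖
        ≤ ‖(a : ℂ) * t.1‖ + ‖(b : ℂ) * t.2.1‖ + ‖(c : ℂ) * t.2.2‖ := norm_add₃_le
      _ = a * ‖t.1‖ + b * ‖t.2.1‖ + c * ‖t.2.2‖ := by
        rw [norm_mul, norm_mul, norm_mul, Complex.norm_real, Complex.norm_real, Complex.norm_real,
          Real.norm_of_nonneg ha.le, Real.norm_of_nonneg hb.le, Real.norm_of_nonneg hc.le]
      _ ≤ a * ρ + b * ρ + c * ρ := by gcongr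
      _ = ρ := by rw [← add_mul, ← add_mul, hs, one_mul]
  have hsum : ∑ t ∈ DT S, volume (oTri t.1 t.2.1 t.2.2) ≤ 3 * volume (Metric.closedBall (0:ℂ) ρ) := by
    calc ∑ t ∈ DT S, volume (oTri t.1 t.2.1 t.2.2)
        = ∑ t ∈ DT S, ∫⁻ z, (oTri t.1 t.2.1 t.2.2).indicator 1 z := by
          refine Finset.sum_congr rfl fun t ht => ?_
          rw [lintegral_indicator_one (oTri_measurable _ _ _)]
      _ = ∫⁻ z, ∑ t ∈ DT S, (oTri t.1 t.2.1 t.2.2).indicator 1 z := by
          rw [lintegral_finsetSum]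
          intro t ht
          exact measurable_one.indicator (oTri_measurable _ _ _)
      _ ≤ ∫⁻ z, (Metric.closedBall (0:ℂ) ρ).indicator (fun _ => 3) z := by
          apply lintegral_mono
          intro z
          by_cases hz : z ∈ Metric.closedBall (0:ℂ) ρ
          · rw [Set.indicator_of_mem hz]
            have : ∑ t ∈ DT S, (oTri t.1 t.2.1 t.2.2).indicator (1 : ℂ → ENNReal) z =
                (((DT S).filter (fun t => z ∈ oTri t.1 t.2.1 t.2.2)).card : ENNReal) := by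
              rw [Finset.card_filter]
              push_cast
              refine Finset.sum_congr rfl fun t _ => ?_
              rw [Set.indicator_apply]
              simp
            beta_reduce
            rw [this]
            exact_mod_cast mult_le_three S z
          · rw [Set.indicator_of_notMem hz]
            refine le_of_eq (Finset.sum_eq_zero fun t ht => ?_)
            rw [Set.indicator_of_notMem]
            intro hz'
            apply hz
            rw [mem_closedBall_zero_iff]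
            exact hsub t ht z hz'
      _ = 3 * volume (Metric.closedBall (0:ℂ) ρ) := by
          rw [lintegral_indicator_const Metric.isClosed_closedBall.measurableSet]
  rw [Complex.volume_closedBall] at hsum
  have e1 : ∑ t ∈ DT S, volume (oTri t.1 t.2.1 t.2.2) =
      ENNReal.ofReal (∑ t ∈ DT S, ar2 t.1 t.2.1 t.2.2 / 2) := by
    rw [ENNReal.ofReal_sum_of_nonneg]
    · exact Finset.sum_congr rfl fun t ht => vol_tri (hD t ht).2.2.2.1
    · intro t ht
      have := (hD t ht).2.2.2.1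
      linarith
  have e2 : (3 : ENNReal) * (ENNReal.ofReal ρ ^ 2 * NNReal.pi) = ENNReal.ofReal (3 * (ρ ^ 2 * π)) := by
    rw [ENNReal.ofReal_mul (by norm_num), ENNReal.ofReal_mul (by positivity), ENNReal.ofReal_pow hρ]
    congr 2
    · simp
    · rw [← ENNReal.ofReal_coe_nnreal]
      rfl
  rw [e1, e2, ENNReal.ofReal_le_ofReal_iff (by positivity), ← Finset.sum_div] at hsum
  linarith

end Pool.Agent.Lib.P37
end

section

namespace Pool.Agent.Lib.P37

open Real MeasureTheory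

private theorem pb_interior (f : ℂ ≃ᵢ ℂ) {z : ℂ} (hz : z ∈ interior (f '' P37)) :
    f.symm z ∈ interior P37 := by
  have h1 : f '' interior P37 = interior (f '' P37) := f.toHomeomorph.image_interior P37
  rw [← h1] at hz
  obtain ⟨w, hw, rfl⟩ := hz
  rwa [f.symm_apply_apply]

private theorem pb_ball {w : ℂ} (hw : w ∈ interior P37) : ‖w‖ < Rr := by
  have h1 : w ∈ interior (Metric.closedBall (0 : ℂ) Rr) := interior_mono P37_subset_ball hw
  rw [interior_closedBall _ Rr_pos.ne'] at h1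
  simpa using h1

private theorem pb_dir {w w' : ℂ} (hw : w ∈ interior P37) (hw' : w' ∈ interior P37) (k : ℤ) :
    dotp (w + w') (ee ((k + 1 / 2) * p)) < 2 := by
  rw [dotp_add_left]
  have h1 := P37_interior_halfplane k w hw
  have h2 := P37_interior_halfplane k w' hw'
  linarith

private theorem pb_false (m n : ℤ) {z : ℂ} (hz : z ∈ interior (best ((m, n), false) '' P37)) :
    z - (⟨m * l0, 2 * n * hst⟩ : ℂ) ∈ interior P37 := by
  have h := pb_interior _ hz
  have h2 : (best ((m, n), false)).symm z = z - (⟨m * l0, 2 * n * hst⟩ : ℂ) := by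
    rw [IsometryEquiv.symm_apply_eq, l0_eq]
    simp [best]
  rwa [h2] at h

private theorem pb_true (m n : ℤ) {z : ℂ} (hz : z ∈ interior (best ((m, n), true) '' P37)) :
    (⟨-Xst + m * l0, (2 * n + 1) * hst⟩ : ℂ) - z ∈ interior P37 := by
  have h := pb_interior _ hz
  have h2 : (best ((m, n), true)).symm z =
      (⟨-Xst + m * l0, (2 * n + 1) * hst⟩ : ℂ) - z := by
    rw [IsometryEquiv.symm_apply_eq, l0_eq]
    simp [best]
  rwa [h2] at h

private theorem pb_re_gt {w : ℂ} (hw : w ∈ interior P37) : -1 < w.re := by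
  have h := P37_interior_halfplane 18 w hw
  have h1 : (((18 : ℤ) : ℝ) + 1 / 2) * p = 0 + π := by
    rw [pi_eq]; push_cast; ring
  rw [h1, ee_add_pi, dotp_neg_right] at h
  unfold dotp at h
  rw [ee_re, ee_im, cos_zero, sin_zero] at h
  linarith

private theorem pb_re_lt {w : ℂ} (hw : w ∈ interior P37) : w.re < Rr :=
  (Complex.re_le_norm w).trans_lt (pb_ball hw)

/-- no two points of the interior of the polygon differ by `l0` -/
private theorem pb_row {w w' : ℂ} (hw : w ∈ interior P37) (hw' : w' ∈ interior P37)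
    (h : w.re = w'.re + l0) : False := by
  have h1 := pb_re_gt hw'
  have h2 := pb_re_lt hw
  unfold l0 at h
  linarith

/-- differences of equal types -/
private theorem pb_same {w w' : ℂ} (hw : w ∈ interior P37) (hw' : w' ∈ interior P37)
    (hhst : 1.7334 < hst) (hR : 1.0036 < Rr ∧ Rr < 1.0037) (M N : ℤ)
    (hre : w.re = w'.re + M * l0) (him : w.im = w'.im + 2 * N * hst) : M = 0 ∧ N = 0 := by
  have hb := pb_ball hw
  have hb' := pb_ball hw'
  have hn : ‖w - w'‖ < 2 * Rr := by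
    have := norm_sub_le w w'
    linarith
  have h1 : |(w - w').re| < 2 * Rr := (Complex.abs_re_le_norm _).trans_lt hn
  have h2 : |(w - w').im| < 2 * Rr := (Complex.abs_im_le_norm _).trans_lt hn
  rw [Complex.sub_re, hre] at h1
  rw [Complex.sub_im, him] at h2
  rw [abs_lt] at h1 h2
  have hl : 2.0036 < l0 := by unfold l0; linarith [hR.1]
  have hN : N = 0 := by
    by_contra hN
    rcases lt_or_gt_of_ne hN with h | h
    · have h3 : (N : ℝ) ≤ -1 := by exact_mod_cast (by omega : N ≤ -1)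
      nlinarith [h2.1, hR.2]
    · have h3 : (1 : ℝ) ≤ N := by exact_mod_cast (by omega : 1 ≤ N)
      nlinarith [h2.2, hR.2]
  refine ⟨?_, hN⟩
  by_contra hM
  have hM1 : M < 2 := by
    by_contra h
    have h3 : (2 : ℝ) ≤ M := by exact_mod_cast (by omega : 2 ≤ M)
    nlinarith [h1.2, hR.2]
  have hM2 : -2 < M := by
    by_contra h
    have h3 : (M : ℝ) ≤ -2 := by exact_mod_cast (by omega : M ≤ -2)
    nlinarith [h1.1, hR.2]
  have hM3 : M = 1 ∨ M = -1 := by omega
  rcases hM3 with rfl | rfl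
  · exact pb_row hw hw' (by rw [hre]; push_cast; ring)
  · exact pb_row hw' hw (by rw [hre]; push_cast; ring)

private theorem pb_id6 (hc : 0.52 < c6) : Xst * c6 + hst * s6 = 2 := by
  have : c6 ≠ 0 := by linarith
  rw [Xst_eq]
  field_simp
  ring

private theorem pb_id12 (hc : 0.52 < c6) (hs : 0.85 < s6) :
    (Xst - l0) * c12 + hst * s12 = 2 := by
  have h6 : c6 ≠ 0 := by linarith
  have hs6 : s6 ≠ 0 := by linarith
  have h1 : hst * s6 = 2 * c6 - 2 * c12 + l0 * c6 * c12 := by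
    rw [hst_eq]; field_simp
  have h2 : Xst * c6 = 2 - hst * s6 := by
    have := pb_id6 hc
    linarith
  have h3 : s12 * c6 - c12 * s6 = s6 := by
    unfold s12 c6 c12 s6
    rw [← sin_sub]
    congr 1
    ring
  apply mul_right_cancel₀ h6
  linear_combination c12 * h2 + h1 + hst * h3

private theorem pb_dot (a b t : ℝ) : dotp (⟨a, b⟩ : ℂ) (ee t) = a * cos t + b * sin t := by
  unfold dotp
  rw [ee_re, ee_im]

private theorem pb_diff {w w' : ℂ} (hw : w ∈ interior P37) (hw' : w' ∈ interior P37)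
    (hc : 0.52 < c6 ∧ c6 < 0.53) (hs : 0.85 < s6 ∧ s6 < 0.852)
    (hhst : 1.7334 < hst ∧ hst < 1.7335) (hX : 0.9992 < Xst ∧ Xst < 0.9993)
    (hR : 1.0036 < Rr ∧ Rr < 1.0037) (M N : ℤ)
    (h : w + w' = (⟨-Xst + M * l0, (2 * N + 1) * hst⟩ : ℂ)) : False := by
  have hb := pb_ball hw
  have hb' := pb_ball hw'
  have hn : ‖w + w'‖ < 2 * Rr := by
    have := norm_add_le w w'
    linarith
  have hl : 2.0036 < l0 ∧ l0 < 2.0037 := by
    constructor <;> (unfold l0; linarith [hR.1, hR.2])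
  have hsq : (-Xst + M * l0) ^ 2 + ((2 * N + 1) * hst) ^ 2 < (2 * Rr) ^ 2 := by
    have h1 : ‖w + w'‖ ^ 2 = (-Xst + M * l0) ^ 2 + ((2 * N + 1) * hst) ^ 2 := by
      rw [h, Complex.sq_norm, Complex.normSq_mk]
      ring
    rw [← h1]
    exact pow_lt_pow_left₀ hn (norm_nonneg _) two_ne_zero
  have hR2 : (2 * Rr) ^ 2 < 4.0297 := by nlinarith [hR.1, hR.2]
  have hNN : N = 0 ∨ N = -1 := by
    by_contra hcon
    have hN : 1 ≤ N ∨ N ≤ -2 := by omega
    have h9 : 9 ≤ (2 * (N : ℝ) + 1) ^ 2 := by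
      rcases hN with hN | hN
      · have h3 : (1 : ℝ) ≤ N := by exact_mod_cast hN
        nlinarith
      · have h3 : (N : ℝ) ≤ -2 := by exact_mod_cast hN
        nlinarith
    have h10 : 3 ≤ hst ^ 2 := by nlinarith [hhst.1]
    have h11 : ((2 * N + 1) * hst) ^ 2 = (2 * (N : ℝ) + 1) ^ 2 * hst ^ 2 := by ring
    nlinarith [sq_nonneg (-Xst + M * l0)]
  have h1N : (2 * (N : ℝ) + 1) ^ 2 = 1 := by
    rcases hNN with rfl | rfl <;> norm_num
  have hh2 : ((2 * N + 1) * hst) ^ 2 = hst ^ 2 := by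
    have h11 : ((2 * N + 1) * hst) ^ 2 = (2 * (N : ℝ) + 1) ^ 2 * hst ^ 2 := by ring
    rw [h11, h1N, one_mul]
  have hh3 : 3.0046 < hst ^ 2 := by nlinarith [hhst.1]
  have hx2 : (-Xst + M * l0) ^ 2 < 1.0251 := by
    rw [hh2] at hsq
    linarith
  have hMM : M = 0 ∨ M = 1 := by
    by_contra hcon
    have hM : 2 ≤ M ∨ M ≤ -1 := by omega
    rcases hM with hM | hM
    · have h3 : (2 : ℝ) ≤ M := by exact_mod_cast hM
      have h4 : 3 ≤ -Xst + M * l0 := by nlinarith [hl.1, hX.2]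
      nlinarith
    · have h3 : (M : ℝ) ≤ -1 := by exact_mod_cast hM
      have h4 : -Xst + M * l0 ≤ -3 := by nlinarith [hl.1, hX.1]
      nlinarith
  have hid6 := pb_id6 hc.1
  have hid12 := pb_id12 hc.1 hs.1
  rcases hMM with rfl | rfl <;> rcases hNN with rfl | rfl
  · -- (−X, h)
    have h5 := pb_dir hw hw' 12
    have h6 : (((12 : ℤ) : ℝ) + 1 / 2) * p = π - 6 * p := by rw [pi_eq]; push_cast; ring
    rw [h, h6, pb_dot, cos_pi_sub, sin_pi_sub] at h5
    have h7 : cos (6 * p) = c6 := rfl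
    have h8 : sin (6 * p) = s6 := rfl
    rw [h7, h8] at h5
    push_cast at h5
    linarith
  · -- (−X, −h)
    have h5 := pb_dir hw hw' (-13)
    have h6 : (((-13 : ℤ) : ℝ) + 1 / 2) * p = -(π - 6 * p) := by rw [pi_eq]; push_cast; ring
    rw [h, h6, pb_dot, cos_neg, sin_neg, cos_pi_sub, sin_pi_sub] at h5
    have h7 : cos (6 * p) = c6 := rfl
    have h8 : sin (6 * p) = s6 := rfl
    rw [h7, h8] at h5
    push_cast at h5
    linarith
  · -- (l0 - X, h)
    have h5 := pb_dir hw hw' 6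
    have h6 : (((6 : ℤ) : ℝ) + 1 / 2) * p = π - 12 * p := by rw [pi_eq]; push_cast; ring
    rw [h, h6, pb_dot, cos_pi_sub, sin_pi_sub] at h5
    have h7 : cos (12 * p) = c12 := rfl
    have h8 : sin (12 * p) = s12 := rfl
    rw [h7, h8] at h5
    push_cast at h5
    linarith
  · -- (l0 - X, -h)
    have h5 := pb_dir hw hw' (-7)
    have h6 : (((-7 : ℤ) : ℝ) + 1 / 2) * p = -(π - 12 * p) := by rw [pi_eq]; push_cast; ring
    rw [h, h6, pb_dot, cos_neg, sin_neg, cos_pi_sub, sin_pi_sub] at h5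
    have h7 : cos (12 * p) = c12 := rfl
    have h8 : sin (12 * p) = s12 := rfl
    rw [h7, h8] at h5
    push_cast at h5
    linarith

theorem best_packing (hc : 0.52 < c6 ∧ c6 < 0.53) (hs : 0.85 < s6 ∧ s6 < 0.852)
    (hc12 : -0.451 < c12 ∧ c12 < -0.45) (hs12 : 0.892 < s12 ∧ s12 < 0.893)
    (hhst : 1.7334 < hst ∧ hst < 1.7335) (hX : 0.9992 < Xst ∧ Xst < 0.9993)
    (hR : 1.0036 < Rr ∧ Rr < 1.0037) : IsPacking best := by
  rintro ⟨⟨m, n⟩, b⟩ ⟨⟨m', n'⟩, b'⟩ hne
  rw [Set.disjoint_left]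
  intro z hz hz'
  cases b with
  | false =>
    have h1 := pb_false m n hz
    cases b' with
    | false =>
      have h2 := pb_false m' n' hz'
      obtain ⟨h3, h4⟩ := pb_same h1 h2 hhst.1 hR (m' - m) (n' - n)
        (by simp only [Complex.sub_re]; push_cast; ring)
        (by simp only [Complex.sub_im]; push_cast; ring)
      apply hne
      rw [show m' = m by omega, show n' = n by omega]
    | true =>
      have h2 := pb_true m' n' hz'
      refine pb_diff h1 h2 hc hs hhst hX hR (m' - m) (n' - n) ?_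
      apply Complex.ext
      · simp only [Complex.add_re, Complex.sub_re]; push_cast; ring
      · simp only [Complex.add_im, Complex.sub_im]; push_cast; ring
  | true =>
    have h1 := pb_true m n hz
    cases b' with
    | false =>
      have h2 := pb_false m' n' hz'
      refine pb_diff h2 h1 hc hs hhst hX hR (m - m') (n - n') ?_
      apply Complex.ext
      · simp only [Complex.add_re, Complex.sub_re]; push_cast; ring
      · simp only [Complex.add_im, Complex.sub_im]; push_cast; ring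
    | true =>
      have h2 := pb_true m' n' hz'
      obtain ⟨h3, h4⟩ := pb_same h1 h2 hhst.1 hR (m - m') (n - n')
        (by simp only [Complex.sub_re]; push_cast; ring)
        (by simp only [Complex.sub_im]; push_cast; ring)
      apply hne
      rw [show m' = m by omega, show n' = n by omega]

end Pool.Agent.Lib.P37
end

section

namespace Pool.Agent.Lib.P37

open Real MeasureTheory

private lemma pl_vol_rect (a b c d : ℝ) :
    volume ({z : ℂ | (a ≤ z.re ∧ z.re < b) ∧ (c ≤ z.im ∧ z.im < d)} : Set ℂ) =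
      ENNReal.ofReal (b - a) * ENNReal.ofReal (d - c) := by
  have h : ({z : ℂ | (a ≤ z.re ∧ z.re < b) ∧ (c ≤ z.im ∧ z.im < d)} : Set ℂ) =
      Complex.measurableEquivRealProd ⁻¹' (Set.Ico a b ×ˢ Set.Ico c d) := by
    ext z
    simp [Complex.measurableEquivRealProd_apply]
  rw [h, Complex.volume_preserving_equiv_real_prod.measure_preimage
    (measurableSet_Ico.prod measurableSet_Ico).nullMeasurableSet, Measure.volume_eq_prod,
    Measure.prod_prod, Real.volume_Ico, Real.volume_Ico]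

private lemma pl_best_false (m n : ℤ) :
    (best ((m, n), false) : ℂ → ℂ) = fun z => z + (⟨m * l0, 2 * n * hst⟩ : ℂ) := by
  unfold best
  funext z
  rw [l0_eq]
  simp

private lemma pl_best_true (m n : ℤ) :
    (best ((m, n), true) : ℂ → ℂ) = fun z => (⟨-Xst + m * l0, (2 * n + 1) * hst⟩ : ℂ) - z := by
  unfold best
  funext z
  rw [l0_eq]
  simp

private lemma pl_vol_iso (t : (ℤ × ℤ) × Bool) {s : Set ℂ} (hs : MeasurableSet s) :
    volume (best t '' s) = volume s := by
  obtain ⟨⟨m, n⟩, b⟩ := t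
  cases b
  · rw [pl_best_false]
    set c : ℂ := ⟨m * l0, 2 * n * hst⟩
    have : (fun z : ℂ => z + c) '' s = (fun z => z - c) ⁻¹' s := by
      ext z
      constructor
      · rintro ⟨w, hw, rfl⟩
        simpa using hw
      · intro hz
        exact ⟨z - c, hz, by simp⟩
    rw [this]
    exact (measurePreserving_sub_right volume c).measure_preimage hs.nullMeasurableSet
  · rw [pl_best_true]
    set c : ℂ := ⟨-Xst + m * l0, (2 * n + 1) * hst⟩
    have : (fun z : ℂ => c - z) '' s = (fun z => c - z) ⁻¹' s := by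
      ext z
      constructor
      · rintro ⟨w, hw, rfl⟩
        simpa using hw
      · intro hz
        exact ⟨c - z, hz, by simp⟩
    rw [this]
    exact (Measure.measurePreserving_sub_left volume c).measure_preimage hs.nullMeasurableSet

private lemma pl_vol_interior : volume (interior P37) = volume P37 := by
  apply le_antisymm (measure_mono interior_subset)
  have h1 : P37 ⊆ interior P37 ∪ frontier P37 := by
    intro z hz
    by_cases h : z ∈ interior P37
    · exact Or.inl h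
    · exact Or.inr ⟨subset_closure hz, h⟩
  have h2 : volume (frontier P37) = 0 := (convex_convexHull ℝ _).addHaar_frontier volume
  calc volume P37 ≤ volume (interior P37 ∪ frontier P37) := measure_mono h1
    _ ≤ volume (interior P37) + volume (frontier P37) := measure_union_le _ _
    _ = volume (interior P37) := by rw [h2, add_zero]

private lemma pl_vol_copy (t : (ℤ × ℤ) × Bool) :
    volume (interior (best t '' P37)) = volume P37 := by
  have h : interior (best t '' P37) = best t '' interior P37 := by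
    have := (best t).toHomeomorph.image_interior P37
    exact this.symm
  rw [h, pl_vol_iso t isOpen_interior.measurableSet, pl_vol_interior]

private lemma pl_norm_le (z : ℂ) {a b : ℝ} (ha : |z.re| ≤ a) (hb : |z.im| ≤ b) : ‖z‖ ≤ a + b :=
  (Complex.norm_le_abs_re_add_abs_im z).trans (add_le_add ha hb)

theorem best_lower (hb : IsPacking best) (hhst : 1.7334 < hst ∧ hst < 1.7335)
    (hX : 0.9992 < Xst ∧ Xst < 0.9993) (hR : 1.0036 < Rr ∧ Rr < 1.0037) {V : ℝ}
    (hV : volume P37 = ENNReal.ofReal V) (hV0 : 0 < V) (ε : ℝ) (hε : 0 < ε) :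
    ∀ᶠ r : ℝ in Filter.atTop, V / (l0 * hst) - ε ≤ ratio best r := by
  classical
  have hl : 2.0036 < l0 ∧ l0 < 2.0037 := by
    unfold l0; constructor <;> linarith [hR.1, hR.2]
  obtain ⟨hl1, hl2⟩ := hl
  obtain ⟨hh1, hh2⟩ := hhst
  obtain ⟨hX1, hX2⟩ := hX
  obtain ⟨hR1, hR2⟩ := hR
  have hlh : 0 < l0 * hst := by nlinarith
  -- main inequality
  have key : ∀ r : ℝ, 10 < r → V * (r - 10) ^ 2 / (l0 * hst * r ^ 2) ≤ ratio best r := by
    intro r hr
    obtain ⟨N, hN⟩ := exists_nat_ge r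
    set J' : Finset (ℤ × ℤ) := ((Finset.Icc (-(N:ℤ)) N) ×ˢ (Finset.Icc (-(N:ℤ)) N)).filter
      (fun q => ‖(⟨q.1 * l0, 2 * q.2 * hst⟩ : ℂ)‖ ≤ r - 4.5) with hJ'
    set Q : ℤ × ℤ → Set ℂ := fun q => {z : ℂ | ((q.1 * l0 ≤ z.re ∧ z.re < q.1 * l0 + l0)) ∧
      (2 * q.2 * hst ≤ z.im ∧ z.im < 2 * q.2 * hst + 2 * hst)} with hQ
    have hQvol : ∀ q, volume (Q q) = ENNReal.ofReal (l0 * (2 * hst)) := by
      intro q
      rw [hQ]
      simp only
      rw [pl_vol_rect, ← ENNReal.ofReal_mul (by linarith)]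
      congr 1
      ring
    have hcover : Metric.closedBall (0 : ℂ) (r - 10) ⊆ ⋃ q ∈ J', Q q := by
      intro z hz
      rw [mem_closedBall_zero_iff] at hz
      set m : ℤ := ⌊z.re / l0⌋
      set n : ℤ := ⌊z.im / (2 * hst)⌋
      have hm1 : (m : ℝ) * l0 ≤ z.re := by
        have := Int.floor_le (z.re / l0)
        rwa [le_div_iff₀ (by linarith)] at this
      have hm2 : z.re < m * l0 + l0 := by
        have := Int.lt_floor_add_one (z.re / l0)
        rw [div_lt_iff₀ (by linarith)] at this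
        linarith
      have hn1 : 2 * (n : ℝ) * hst ≤ z.im := by
        have := Int.floor_le (z.im / (2 * hst))
        rw [le_div_iff₀ (by linarith)] at this
        linarith
      have hn2 : z.im < 2 * n * hst + 2 * hst := by
        have := Int.lt_floor_add_one (z.im / (2 * hst))
        rw [div_lt_iff₀ (by linarith)] at this
        linarith
      have hw : ‖(⟨m * l0, 2 * n * hst⟩ : ℂ)‖ ≤ r - 4.5 := by
        have h1 : ‖(⟨m * l0, 2 * n * hst⟩ : ℂ) - z‖ ≤ 2.0037 + 3.467 := by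
          apply pl_norm_le
          · simp only [Complex.sub_re]
            rw [abs_le]; constructor <;> linarith
          · simp only [Complex.sub_im]
            rw [abs_le]; constructor <;> linarith
        have h2 : ‖(⟨m * l0, 2 * n * hst⟩ : ℂ)‖ ≤
            ‖(⟨m * l0, 2 * n * hst⟩ : ℂ) - z‖ + ‖z‖ := by
          have := norm_add_le ((⟨m * l0, 2 * n * hst⟩ : ℂ) - z) z
          rwa [sub_add_cancel] at this
        linarith
      have hmN : |(m:ℝ) * l0| ≤ r - 4.5 :=
        (Complex.abs_re_le_norm (⟨m * l0, 2 * n * hst⟩ : ℂ)).trans hw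
      have hnN : |2 * (n:ℝ) * hst| ≤ r - 4.5 :=
        (Complex.abs_im_le_norm (⟨m * l0, 2 * n * hst⟩ : ℂ)).trans hw
      have hmN' : |(m:ℝ)| ≤ N := by
        rw [abs_mul, abs_of_pos (by linarith : 0 < l0)] at hmN
        nlinarith [abs_nonneg (m:ℝ)]
      have hnN' : |(n:ℝ)| ≤ N := by
        rw [abs_mul, abs_mul, abs_of_pos (by linarith : 0 < hst), abs_two] at hnN
        nlinarith [abs_nonneg (n:ℝ)]
      rw [abs_le] at hmN' hnN'
      refine Set.mem_iUnion₂.mpr ⟨(m, n), ?_, ⟨⟨hm1, hm2⟩, ⟨hn1, hn2⟩⟩⟩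
      rw [hJ', Finset.mem_filter, Finset.mem_product, Finset.mem_Icc, Finset.mem_Icc]
      refine ⟨⟨⟨?_, ?_⟩, ⟨?_, ?_⟩⟩, hw⟩
      · exact_mod_cast hmN'.1
      · exact_mod_cast hmN'.2
      · exact_mod_cast hnN'.1
      · exact_mod_cast hnN'.2
    have hcount : π * (r - 10) ^ 2 ≤ (J'.card : ℝ) * (l0 * (2 * hst)) := by
      have h1 : volume (Metric.closedBall (0 : ℂ) (r - 10)) ≤ (J'.card : ENNReal) *
          ENNReal.ofReal (l0 * (2 * hst)) := by
        calc volume (Metric.closedBall (0 : ℂ) (r - 10)) ≤ volume (⋃ q ∈ J', Q q) :=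
              measure_mono hcover
          _ ≤ ∑ q ∈ J', volume (Q q) := measure_biUnion_finset_le _ _
          _ = _ := by
              rw [Finset.sum_congr rfl (fun q _ => hQvol q), Finset.sum_const, nsmul_eq_mul]
      have h2 := ENNReal.toReal_mono (by
        exact ENNReal.mul_ne_top (ENNReal.natCast_ne_top _) ENNReal.ofReal_ne_top) h1
      rw [Complex.volume_closedBall, ENNReal.toReal_mul, ENNReal.toReal_mul, ENNReal.toReal_pow,
        ENNReal.toReal_ofReal (by linarith), ENNReal.toReal_ofReal (by nlinarith),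
        ENNReal.toReal_natCast] at h2
      have h3 : ((NNReal.pi : ENNReal)).toReal = π := by simp
      rw [h3] at h2
      linarith
    -- the copies
    set J : Finset ((ℤ × ℤ) × Bool) := J' ×ˢ Finset.univ with hJ
    have hJcard : J.card = J'.card * 2 := by
      rw [hJ, Finset.card_product, Finset.card_univ, Fintype.card_bool]
    have hin : ∀ t ∈ J, best t '' P37 ⊆ Metric.closedBall (0:ℂ) r := by
      intro t ht
      refine (image_subset_ball (best t)).trans ?_
      apply Metric.closedBall_subset_closedBall'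
      rw [dist_zero_right]
      rw [hJ, Finset.mem_product] at ht
      obtain ⟨⟨m, n⟩, b⟩ := t
      have hq : ‖(⟨m * l0, 2 * n * hst⟩ : ℂ)‖ ≤ r - 4.5 := (Finset.mem_filter.mp ht.1).2
      cases b
      · rw [pl_best_false]
        simp only [zero_add]
        linarith
      · rw [pl_best_true]
        simp only [sub_zero]
        have e : (⟨-Xst + m * l0, (2 * n + 1) * hst⟩ : ℂ) =
            (⟨m * l0, 2 * n * hst⟩ : ℂ) + (⟨-Xst, hst⟩ : ℂ) := by
          apply Complex.ext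
          · simp only [Complex.add_re]; ring
          · simp only [Complex.add_im]; ring
        rw [e]
        have h1 : ‖(⟨-Xst, hst⟩ : ℂ)‖ ≤ 0.9993 + 1.7335 := by
          apply pl_norm_le
          · simp only
            rw [abs_le]; constructor <;> linarith
          · simp only
            rw [abs_le]; constructor <;> linarith
        have h2 := norm_add_le (⟨m * l0, 2 * n * hst⟩ : ℂ) (⟨-Xst, hst⟩ : ℂ)
        linarith
    have hsub : (⋃ t ∈ J, interior (best t '' P37)) ⊆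
        Metric.closedBall (0 : ℂ) r ∩ ⋃ t, best t '' P37 := by
      intro z hz
      obtain ⟨t, ht, hzt⟩ := Set.mem_iUnion₂.mp hz
      have hzt' := interior_subset hzt
      exact ⟨hin t ht hzt', Set.mem_iUnion.mpr ⟨t, hzt'⟩⟩
    have hvolJ : volume (⋃ t ∈ J, interior (best t '' P37)) = (J.card : ENNReal) *
        ENNReal.ofReal V := by
      rw [measure_biUnion_finset]
      · rw [Finset.sum_congr rfl (fun t _ => (pl_vol_copy t).trans hV), Finset.sum_const,
          nsmul_eq_mul]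
      · intro a _ b _ hab
        exact hb hab
      · intro t _
        exact isOpen_interior.measurableSet
    have hfin : volume (Metric.closedBall (0 : ℂ) r ∩ ⋃ t, best t '' P37) ≠ ⊤ := by
      have : volume (Metric.closedBall (0 : ℂ) r ∩ ⋃ t, best t '' P37) ≤
          volume (Metric.closedBall (0 : ℂ) r) := measure_mono Set.inter_subset_left
      exact ne_top_of_le_ne_top (measure_closedBall_lt_top).ne this
    have hge : (J.card : ℝ) * V ≤
        (volume (Metric.closedBall (0 : ℂ) r ∩ ⋃ t, best t '' P37)).toReal := by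
      have h1 := ENNReal.toReal_mono hfin (measure_mono hsub)
      rw [hvolJ, ENNReal.toReal_mul, ENNReal.toReal_natCast, ENNReal.toReal_ofReal hV0.le] at h1
      exact h1
    have hball : (volume (Metric.closedBall (0 : ℂ) r)).toReal = r ^ 2 * π := by
      rw [Complex.volume_closedBall, ENNReal.toReal_mul, ENNReal.toReal_pow,
        ENNReal.toReal_ofReal (by linarith)]
      simp
    unfold ratio
    rw [hball, div_le_div_iff₀ (by positivity) (by have := Real.pi_pos; positivity)]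
    have h5 : (J.card : ℝ) = J'.card * 2 := by rw [hJcard]; push_cast; ring
    rw [h5] at hge
    have h6 : V * (π * (r - 10) ^ 2) ≤ V * ((J'.card : ℝ) * (l0 * (2 * hst))) :=
      mul_le_mul_of_nonneg_left hcount hV0.le
    have h7 : V * ((J'.card : ℝ) * (l0 * (2 * hst))) ≤
        (volume (Metric.closedBall (0 : ℂ) r ∩ ⋃ t, best t '' P37)).toReal * (l0 * hst) := by
      calc V * ((J'.card : ℝ) * (l0 * (2 * hst))) = ((J'.card : ℝ) * 2 * V) * (l0 * hst) := by ring
        _ ≤ _ := mul_le_mul_of_nonneg_right hge hlh.le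
    calc V * (r - 10) ^ 2 * (r ^ 2 * π) = V * (π * (r - 10) ^ 2) * r ^ 2 := by ring
      _ ≤ (volume (Metric.closedBall (0 : ℂ) r ∩ ⋃ t, best t '' P37)).toReal * (l0 * hst) * r ^ 2 :=
          mul_le_mul_of_nonneg_right (h6.trans h7) (by positivity)
      _ = _ := by ring
  -- the limit
  filter_upwards [Filter.eventually_gt_atTop (10 : ℝ),
    Filter.eventually_ge_atTop (20 * V / (l0 * hst * ε))] with r hr1 hr2
  refine le_trans ?_ (key r hr1)
  have hr0 : 0 < r := by linarith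
  have h1 : 20 * V ≤ r * (l0 * hst * ε) := by
    rwa [div_le_iff₀ (by positivity)] at hr2
  rw [le_div_iff₀ (by positivity)]
  have h2 : (V / (l0 * hst) - ε) * (l0 * hst * r ^ 2) = V * r ^ 2 - ε * (l0 * hst) * r ^ 2 := by
    field_simp
  rw [h2]
  have h3 : 20 * V * r ≤ ε * (l0 * hst) * r ^ 2 := by
    nlinarith [mul_le_mul_of_nonneg_right h1 hr0.le]
  nlinarith

end Pool.Agent.Lib.P37
end

section

namespace Pool.Agent.Lib.P37

open Real MeasureTheory

open Classical in
theorem angle_sum {S : Finset ℂ} {ρ : ℝ} (hgp : GP S) (hcov : Cov S ρ) {i : ℂ} (hi : i ∈ S)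
    (hi' : ‖i‖ ≤ ρ - 3) :
    2 * π ≤ ∑ t ∈ (DT S).filter (fun t => t.1 = i),
      Complex.arg ((t.2.2 - t.1) / (t.2.1 - t.1)) := by
  set D := (DT S).filter (fun t => t.1 = i) with hD
  have hmem : ∀ t ∈ D, t.1 = i ∧ Del S i t.2.1 t.2.2 := by
    intro t ht
    rw [hD, Finset.mem_filter] at ht
    obtain ⟨h1, h2⟩ := ht
    obtain ⟨a, b, c⟩ := t
    simp only at h2
    subst h2
    exact ⟨rfl, mem_DT.mp h1⟩
  have hmem' : ∀ j k, Del S i j k → (i, j, k) ∈ D := by
    intro j k h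
    rw [hD, Finset.mem_filter]
    exact ⟨mem_DT.mpr h, rfl⟩
  set T : Finset (ℂ × ℂ) := D.image (fun t => t.2) with hT
  have hsum : ∑ t ∈ D, Complex.arg ((t.2.2 - t.1) / (t.2.1 - t.1)) =
      ∑ s ∈ T, Complex.arg ((s.2 - i) / (s.1 - i)) := by
    rw [hT, Finset.sum_image]
    · refine Finset.sum_congr rfl fun t ht => ?_
      rw [(hmem t ht).1]
    · intro t ht t' ht' h
      exact Prod.ext ((hmem t ht).1.trans (hmem t' ht').1.symm) h
  have hT1 : ∀ s, s ∈ T ↔ Del S i s.1 s.2 := by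
    intro s
    rw [hT, Finset.mem_image]
    constructor
    · rintro ⟨t, ht, rfl⟩
      exact (hmem t ht).2
    · intro h
      exact ⟨(i, s.1, s.2), hmem' _ _ h, rfl⟩
  rw [hsum]
  apply angle_sum_abs
  · obtain ⟨j, k, h⟩ := del_exists hgp hcov hi hi'
    exact ⟨(j, k), (hT1 _).mpr h⟩
  · rintro ⟨j, k⟩ ht ⟨j', k'⟩ ht' h
    rw [hT1] at ht ht'
    simp only at ht ht' h
    subst h
    rw [del_unique ht ht']
  · rintro ⟨j, k⟩ ht ⟨j', k'⟩ ht' h
    rw [hT1] at ht ht'
    simp only at ht ht' h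
    subst h
    rw [del_unique (del_rot (del_rot ht)) (del_rot (del_rot ht'))]
  · ext x
    simp only [Finset.mem_image]
    constructor
    · rintro ⟨⟨j, k⟩, ht, rfl⟩
      rw [hT1] at ht
      simp only at ht ⊢
      obtain ⟨l, hl⟩ := del_across hgp hcov ht (Or.inl hi')
      exact ⟨(l, j), (hT1 _).mpr (del_rot hl), rfl⟩
    · rintro ⟨⟨j, k⟩, ht, rfl⟩
      rw [hT1] at ht
      simp only at ht ⊢
      obtain ⟨l, hl⟩ := del_across hgp hcov (del_rot (del_rot ht)) (Or.inr hi')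
      exact ⟨(k, l), (hT1 _).mpr hl, rfl⟩
  · rintro ⟨j, k⟩ ht
    rw [hT1] at ht
    exact ht.2.2.2.1

end Pool.Agent.Lib.P37
end

section

namespace Pool.Agent.Lib.P37

open Real

theorem Wt_antisymm (S : Finset ℂ) (φ : ℂ → ℝ) (i j : ℂ) : Wt S φ j i = - Wt S φ i j := by
  unfold Wt
  rw [Gam_antisymm]
  ring

theorem Wt_bound (S : Finset ℂ) (φ : ℂ → ℝ) (i j : ℂ) (hk : 0 ≤ kap) (hk' : kap ≤ 0.1026) :
    Wt S φ i j ≤ 0.027 := by
  have h := (abs_le.mp (Gam_bound φ i j hk hk')).2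
  unfold Wt
  split_ifs <;> norm_num at h ⊢ <;> linarith

theorem wt_sum {S : Finset ℂ} {φ : ℂ → ℝ} {ρ : ℝ} (hρ : 20 ≤ ρ) (hC : Cfg S φ) (hgp : GP S)
    (hcov : Cov S ρ) (hk : 0 ≤ kap) (hk' : kap ≤ 0.1026) :
    ∑ t ∈ FF S ρ, (Wt S φ t.1 t.2.1 + Wt S φ t.2.1 t.2.2 + Wt S φ t.2.2 t.1) ≤ 26 * ρ := by
  classical
  have hsep : ∀ a ∈ S, ∀ b ∈ S, a ≠ b → 2 ≤ ‖a - b‖ := fun a ha b hb hab =>
    dist_of_sep (hC a ha b hb hab)
  -- reduction to one term
  have e1 : ∑ t ∈ FF S ρ, Wt S φ t.2.1 t.2.2 = ∑ t ∈ FF S ρ, Wt S φ t.1 t.2.1 :=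
    FF_rot_sum S ρ (fun i j _ => Wt S φ i j)
  have e2 : ∑ t ∈ FF S ρ, Wt S φ t.2.2 t.1 = ∑ t ∈ FF S ρ, Wt S φ t.2.1 t.2.2 :=
    FF_rot_sum S ρ (fun _ j k => Wt S φ j k)
  rw [Finset.sum_add_distrib, Finset.sum_add_distrib, e2, e1]
  -- splitting
  rw [← Finset.sum_filter_add_sum_filter_not (FF S ρ)
    (fun t => ‖t.1‖ ≤ ρ - 10 ∨ ‖t.2.1‖ ≤ ρ - 10) (fun t => Wt S φ t.1 t.2.1)]
  set F1 := (FF S ρ).filter (fun t => ‖t.1‖ ≤ ρ - 10 ∨ ‖t.2.1‖ ≤ ρ - 10) with hF1
  set F2 := (FF S ρ).filter (fun t => ¬ (‖t.1‖ ≤ ρ - 10 ∨ ‖t.2.1‖ ≤ ρ - 10)) with hF2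
  have mF1 : ∀ t, t ∈ F1 ↔ Del S t.1 t.2.1 t.2.2 ∧ (‖t.1‖ ≤ ρ - 10 ∨ ‖t.2.1‖ ≤ ρ - 10) := by
    intro t
    rw [hF1, Finset.mem_filter, mem_FF']
    tauto
  have mF2 : ∀ t, t ∈ F2 → Del S t.1 t.2.1 t.2.2 ∧ ρ - 10 < ‖t.1‖ ∧ ρ - 10 < ‖t.2.1‖ ∧
      ‖t.2.2‖ ≤ ρ - 10 := by
    intro t ht
    rw [hF2, Finset.mem_filter, mem_FF'] at ht
    obtain ⟨⟨h1, h2⟩, h3⟩ := ht
    push Not at h3
    refine ⟨h1, h3.1, h3.2, ?_⟩
    rcases h2 with h | h | h
    · exact absurd h (not_le.mpr h3.1)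
    · exact absurd h (not_le.mpr h3.2)
    · exact h
  -- the sum over F1 vanishes
  have hex : ∀ t, t ∈ F1 → ∃ l, Del S t.2.1 t.1 l := by
    intro t ht
    obtain ⟨h1, h2⟩ := (mF1 t).mp ht
    refine del_across hgp hcov h1 ?_
    rcases h2 with h | h
    · left; linarith
    · right; linarith
  have s1 : ∑ t ∈ F1, Wt S φ t.1 t.2.1 = 0 := by
    refine Finset.sum_involution (fun t ht => (t.2.1, t.1, (hex t ht).choose)) ?_ ?_ ?_ ?_
    · intro t ht
      simp only
      rw [Wt_antisymm S φ t.1 t.2.1]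
      ring
    · intro t ht _ heq
      have h1 : t.2.1 = t.1 := congrArg Prod.fst heq
      have h2 := ((mF1 t).mp ht).1.2.2.2.1
      rw [h1] at h2
      unfold ar2 crs at h2
      simp at h2
    · intro t ht
      rw [mF1]
      refine ⟨(hex t ht).choose_spec, ?_⟩
      simp only
      exact ((mF1 t).mp ht).2.symm
    · intro t ht
      have h1 := ((mF1 t).mp ht).1
      simp only
      refine Prod.ext rfl (Prod.ext rfl ?_)
      simp only
      exact del_unique (Exists.choose_spec _) h1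
  -- the cardinality of F2
  set A := S.filter (fun a => ρ - 10 ≤ ‖a‖ ∧ ‖a‖ ≤ ρ - 5.9) with hA
  have cA : (A.card : ℝ) ≤ 12.2 * ρ := by
    have h := card_annulus A (fun a ha b hb hab => hsep a (Finset.mem_filter.mp ha).1 b
      (Finset.mem_filter.mp hb).1 hab) (ρ - 10) (ρ - 5.9) (by linarith) (by linarith)
      (fun a ha => (Finset.mem_filter.mp ha).2)
    have e : (ρ - 5.9 + 1) ^ 2 - (ρ - 10 - 1) ^ 2 = 12.2 * ρ - 6.1 * 15.9 := by ring
    rw [e] at h
    linarith
  have cB : ∀ i : ℂ, ((S.filter (fun a => ‖a - i‖ ≤ 4.016)).card) ≤ 25 := by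
    intro i
    have h := card_ball (S.filter (fun a => ‖a - i‖ ≤ 4.016)) (fun a ha b hb hab =>
      hsep a (Finset.mem_filter.mp ha).1 b (Finset.mem_filter.mp hb).1 hab) i 4.016 (by norm_num)
      (fun a ha => (Finset.mem_filter.mp ha).2)
    by_contra hcon
    push Not at hcon
    have h' : (26 : ℝ) ≤ ((S.filter (fun a => ‖a - i‖ ≤ 4.016)).card : ℝ) := by
      exact_mod_cast hcon
    have : ((4.016 : ℝ) + 1) ^ 2 < 26 := by norm_num
    linarith
  have c2 : F2.card ≤ A.card * 25 := by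
    have hinj : Set.InjOn (fun t : ℂ × ℂ × ℂ => (⟨t.1, t.2.1⟩ : (_ : ℂ) × ℂ)) (F2 : Set (ℂ × ℂ × ℂ)) := by
      intro t ht t' ht' heq
      have h1 : t.1 = t'.1 := congrArg Sigma.fst heq
      have h2 : t.2.1 = t'.2.1 := by
        have := congrArg Sigma.snd heq
        simpa using this
      have d1 := (mF2 t ht).1
      have d2 := (mF2 t' ht').1
      rw [← h1, ← h2] at d2
      exact Prod.ext h1 (Prod.ext h2 (del_unique d1 d2))
    rw [← Finset.card_image_of_injOn hinj]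
    have hsub : F2.image (fun t : ℂ × ℂ × ℂ => (⟨t.1, t.2.1⟩ : (_ : ℂ) × ℂ)) ⊆
        A.sigma (fun i => S.filter (fun a => ‖a - i‖ ≤ 4.016)) := by
      intro x hx
      rw [Finset.mem_image] at hx
      obtain ⟨t, ht, rfl⟩ := hx
      obtain ⟨h1, h2, h3, h4⟩ := mF2 t ht
      have hn := FF_near hcov h1 (Or.inr (Or.inr h4))
      rw [Finset.mem_sigma, hA, Finset.mem_filter, Finset.mem_filter]
      exact ⟨⟨h1.1, h2.le, hn.2.2.2.1⟩, h1.2.1, hn.1⟩
    refine (Finset.card_le_card hsub).trans ?_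
    rw [Finset.card_sigma]
    calc ∑ a ∈ A, (S.filter (fun b => ‖b - a‖ ≤ 4.016)).card ≤ ∑ _a ∈ A, 25 :=
          Finset.sum_le_sum fun a _ => cB a
      _ = A.card * 25 := by rw [Finset.sum_const, smul_eq_mul]
  have c2' : (F2.card : ℝ) ≤ 305 * ρ := by
    have : (F2.card : ℝ) ≤ (A.card : ℝ) * 25 := by exact_mod_cast c2
    linarith
  have s2 : ∑ t ∈ F2, Wt S φ t.1 t.2.1 ≤ F2.card * 0.027 := by
    calc ∑ t ∈ F2, Wt S φ t.1 t.2.1 ≤ ∑ _t ∈ F2, (0.027 : ℝ) :=
          Finset.sum_le_sum fun t _ => Wt_bound S φ t.1 t.2.1 hk hk'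
      _ = F2.card * 0.027 := by rw [Finset.sum_const, nsmul_eq_mul]
  rw [s1]
  linarith

end Pool.Agent.Lib.P37
end

section

namespace Pool.Agent.Lib.P37

open Real

theorem angle_count {S : Finset ℂ} {ρ : ℝ} (hρ : 20 ≤ ρ) (hgp : GP S) (hcov : Cov S ρ) :
    6 * ((S.filter (fun a => ‖a‖ ≤ ρ - 10)).card : ℝ) ≤ (FF S ρ).card := by
  classical
  set I := S.filter (fun a => ‖a‖ ≤ ρ - 10) with hI
  let ang : ℂ → ℂ → ℂ → ℝ := fun i j k => Complex.arg ((k - i) / (j - i))
  have hpos : ∀ t ∈ FF S ρ, 0 < ang t.1 t.2.1 t.2.2 := by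
    intro t ht
    rw [mem_FF'] at ht
    obtain ⟨⟨-, -, -, h, -⟩, -⟩ := ht
    exact arg_pos_of_crs h
  have h1 : (2 * π) * (I.card : ℝ) ≤
      ∑ i ∈ I, ∑ t ∈ (DT S).filter (fun t => t.1 = i), ang t.1 t.2.1 t.2.2 := by
    rw [mul_comm, ← nsmul_eq_mul]
    apply Finset.card_nsmul_le_sum
    intro i hi
    rw [hI, Finset.mem_filter] at hi
    exact angle_sum hgp hcov hi.1 (by linarith [hi.2])
  have h2 : ∑ i ∈ I, ∑ t ∈ (DT S).filter (fun t => t.1 = i), ang t.1 t.2.1 t.2.2 =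
      ∑ t ∈ (DT S).filter (fun t => t.1 ∈ I), ang t.1 t.2.1 t.2.2 := by
    rw [← Finset.sum_fiberwise_of_maps_to (s := (DT S).filter (fun t => t.1 ∈ I)) (t := I)
      (g := fun t => t.1) (fun t ht => (Finset.mem_filter.mp ht).2)]
    apply Finset.sum_congr rfl
    intro i hi
    apply Finset.sum_congr _ (fun _ _ => rfl)
    ext t
    simp only [Finset.mem_filter]
    constructor
    · rintro ⟨h, h'⟩
      exact ⟨⟨h, by rw [h']; exact hi⟩, h'⟩
    · rintro ⟨⟨h, -⟩, h'⟩
      exact ⟨h, h'⟩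
  have h3 : ∑ t ∈ (DT S).filter (fun t => t.1 ∈ I), ang t.1 t.2.1 t.2.2 ≤
      ∑ t ∈ FF S ρ, ang t.1 t.2.1 t.2.2 := by
    apply Finset.sum_le_sum_of_subset_of_nonneg
    · intro t ht
      rw [Finset.mem_filter] at ht
      obtain ⟨ht1, ht2⟩ := ht
      rw [hI, Finset.mem_filter] at ht2
      rw [mem_FF']
      exact ⟨mem_DT.mp ht1, Or.inl ht2.2⟩
    · intro t ht _
      exact (hpos t ht).le
  have r1 := FF_rot_sum S ρ ang
  have r2 := FF_rot_sum S ρ (fun i j k => ang j k i)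
  have h4 : ∑ t ∈ FF S ρ, (ang t.1 t.2.1 t.2.2 + ang t.2.1 t.2.2 t.1 + ang t.2.2 t.1 t.2.1) =
      ((FF S ρ).card : ℝ) * π := by
    rw [← nsmul_eq_mul]
    apply Finset.sum_eq_card_nsmul
    intro t ht
    rw [mem_FF'] at ht
    obtain ⟨⟨-, -, -, h, -⟩, -⟩ := ht
    exact tri_angle_sum h
  rw [Finset.sum_add_distrib, Finset.sum_add_distrib] at h4
  have hpi := Real.pi_pos
  have h5 : (2 * π) * (I.card : ℝ) * 3 ≤ ((FF S ρ).card : ℝ) * π := by
    rw [← h4]
    have := h1.trans (h2.le.trans h3)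
    linarith
  have h6 : π * (6 * (I.card : ℝ)) ≤ π * ((FF S ρ).card : ℝ) := by linarith
  exact le_of_mul_le_mul_left h6 hpi

end Pool.Agent.Lib.P37
end

section

/-!
# Certificates for the box check, part 1
-/

namespace Pool.Agent.Lib.P37.Chk

open Crt

theorem c_0_7_0 : colCheck 16 240 16 [
    (E [31]),
    (E [31]),
    (E [31]),
    (E [31]),
    (E [31]),
    (E [31]),
    (E [31]),
    (E [31]),
    (N (E [31]) (E [41]) (E [31]) (E [31]) (E [31]) (E [41]) (E [31]) (E [31])),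
    (N (N (E [31]) (V 0) (E [41]) (V 0) (E [31]) (E [31]) (E [31]) (E [31])) (V 0) (N (E [41]) (V 0) (E [31]) (V 0) (E [41]) (E [41]) (E [31]) (E [41])) (V 0) (E [31]) (E [26]) (E [41]) (N (E [31]) (V 0) (E [41]) (V 0) (E [31]) (E [31]) (E [31]) (E [31]))),
    (N (N (E [81, 56]) (E [81]) (V 0) (N (V 0) (E [81]) (V 0) (V 0) (V 0) (E [81]) (V 0) (V 0)) (E [31, 56]) (E [56]) (V 0) (N (V 0) (E [81]) (V 0) (V 0) (V 0) (E [81]) (V 0) (V 0))) (N (E [81]) (E [31]) (E [106]) (E [31]) (E [81]) (E [81]) (E [81]) (E [81])) (V 0) (N (E [106]) (E [31]) (V 0) (E [31]) (N (V 0) (E [81]) (V 0) (V 0) (V 0) (E [81]) (V 0) (V 0)) (E [81]) (V 0) (E [81])) (N (E [31]) (E [31]) (V 0) (E [31, 56]) (E [31]) (E [31]) (V 0) (E [31])) (N (E [56]) (E [81]) (E [56]) (E [81]) (E [31]) (E [31]) (E [31]) (E [56])) (V 0) (N (N (V 0) (E [81]) (V 0) (V 0) (V 0) (E [81]) (V 0) (V 0)) (E [81]) (V 0) (E [81]) (E [31]) (E [56]) (V 0) (E [56]))),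
    (N (E [31]) (E [31]) (E [31]) (E [31]) (E [106]) (E [31]) (N (E [81]) (E [31]) (E [81]) (E [31]) (E [81]) (E [81]) (E [81]) (E [81])) (E [31]))] = true := by
  decide +kernel

theorem c_0_8_0 : colCheck 16 272 16 [
    (E [31]),
    (E [31]),
    (E [31]),
    (E [31]),
    (E [31]),
    (E [31]),
    (E [31]),
    (E [31]),
    (E [31]),
    (N (E [31]) (V 0) (E [31]) (N (V 0) (V 0) (E [31]) (V 0) (V 0) (V 0) (E [31]) (V 0)) (E [31]) (N (E [41]) (V 0) (E [31]) (V 0) (E [41]) (E [41]) (E [31]) (E [41])) (E [31]) (E [31])),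
    (V 0),
    (N (E [31]) (E [31]) (N (V 0) (E [31]) (V 0) (E [31]) (V 0) (E [31]) (V 0) (E [31])) (E [31]) (N (E [81]) (E [31]) (V 0) (E [31]) (E [81]) (E [81]) (V 0) (E [81])) (E [31]) (N (V 0) (E [31]) (V 0) (E [31]) (V 0) (E [81]) (V 0) (E [81])) (E [31]))] = true := by
  decide +kernel

theorem c_0_9_0 : colCheck 16 304 16 [
    (E [31]),
    (E [31]),
    (E [31]),
    (E [31]),
    (E [31]),
    (E [31]),
    (E [31]),
    (E [31]),
    (E [31]),
    (N (E [31]) (N (E [31]) (E [56]) (E [31]) (E [31]) (E [31]) (E [31]) (E [31]) (E [31])) (E [31]) (E [31, 81]) (E [31]) (E [31]) (E [31]) (E [31])),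
    (N (N (V 0) (V 0) (E [81]) (V 0) (V 0) (V 0) (E [31]) (V 0)) (V 0) (N (E [81]) (E [81]) (E [81]) (E [81]) (E [31]) (E [81]) (E [31]) (E [31])) (E [106]) (N (V 0) (V 0) (E [31]) (V 0) (V 0) (V 0) (E [31]) (V 0)) (V 0) (E [31]) (E [81])),
    (N (E [31, 41]) (E [31]) (E [41]) (E [41]) (N (V 0) (E [31]) (V 0) (E [41]) (V 0) (E [106]) (V 0) (E [91])) (E [31]) (E [96]) (E [41]))] = true := by
  decide +kernel

theorem c_0_10_0 : colCheck 16 336 16 [
    (E [41]),
    (E [31]),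
    (E [31]),
    (E [31]),
    (E [31]),
    (E [31]),
    (E [31]),
    (E [31]),
    (E [31]),
    (N (E [31]) (E [31]) (E [31]) (E [31]) (E [31]) (E [31]) (E [31]) (E [31])),
    (N (E [81]) (E [81]) (E [81]) (E [81]) (E [31]) (E [81]) (E [31]) (E [31])),
    (E [121])] = true := by
  decide +kernel

theorem c_0_11_0 : colCheck 16 368 16 [
    (E [41]),
    (E [31]),
    (E [31]),
    (E [31]),
    (E [31]),
    (E [31]),
    (E [31]),
    (E [31]),
    (E [31]),
    (E [31]),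
    (E [81]),
    (E [81])] = true := by
  decide +kernel

theorem c_1_1_1 : colCheck 48 48 48 [
    (E [31]),
    (E [41]),
    (E [41]),
    (E [31]),
    (E [31]),
    (E [31]),
    (E [31]),
    (E [31]),
    (E [31]),
    (E [31]),
    (E [31])] = true := by
  decide +kernel

theorem c_1_2_1 : colCheck 48 80 48 [
    (E [33]),
    (E [33]),
    (E [49]),
    (N (E [31]) (E [31]) (E [49]) (N (E [33]) (E [33]) (V 3) (V 3) (E [31]) (E [31]) (V 3) (V 3)) (E [31]) (E [31]) (E [41]) (E [31, 41])),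
    (N (E [31]) (E [31]) (N (E [33]) (E [33]) (V 3) (V 3) (E [31]) (E [31]) (V 3) (V 3)) (E [33]) (E [31]) (E [31]) (E [26]) (E [31])),
    (N (E [31]) (E [31]) (E [33]) (E [33]) (E [31]) (E [31]) (E [31]) (E [31])),
    (N (E [31]) (E [31]) (E [33]) (E [33]) (E [31]) (E [31]) (E [31]) (E [31])),
    (E [33]),
    (E [33]),
    (E [33]),
    (E [83])] = true := by
  decide +kernel

theorem c_1_3_1 : colCheck 48 112 48 [
    (E [33]),
    (E [33]),
    (N (E [31]) (E [33]) (E [31]) (E [31]) (E [33]) (E [33]) (E [33]) (E [33])),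
    (N (E [33, 32]) (V 3) (E [31]) (N (V 3) (V 3) (E [31]) (V 3) (V 3) (V 3) (E [31]) (V 3)) (E [34]) (V 3) (N (E [33]) (E [33]) (E [31]) (E [31]) (E [33]) (E [33]) (E [33]) (E [33])) (N (V 3) (V 3) (E [31]) (V 3) (V 3) (V 3) (E [33]) (V 3))),
    (V 3),
    (N (N (E [32]) (E [33]) (V 3) (E [31]) (E [33]) (E [33]) (V 3) (E [31, 33])) (N (E [31]) (E [31]) (E [31]) (E [31]) (E [33]) (E [33]) (E [32]) (E [31])) (V 3) (N (E [31]) (E [31]) (V 3) (E [31]) (E [31]) (E [31]) (V 3) (E [31])) (N (E [33]) (E [33]) (V 3) (E [33]) (E [31]) (E [31]) (V 3) (E [34])) (N (E [33]) (E [33]) (E [33]) (E [33]) (E [31]) (E [31]) (E [33]) (E [33])) (V 3) (N (E [33, 32]) (E [33]) (V 3) (E [31]) (E [33]) (E [33]) (V 3) (E [33]))),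
    (N (E [32]) (E [31]) (E [31]) (E [31]) (E [33]) (E [33]) (N (E [31]) (E [31]) (E [31]) (E [31]) (E [33]) (E [31]) (E [31]) (E [31])) (E [31])),
    (E [32]),
    (E [31]),
    (E [6]),
    (N (E [31]) (E [31]) (E [31]) (E [81]) (E [31]) (E [33]) (E [31]) (E [31]))] = true := by
  decide +kernel

end Pool.Agent.Lib.P37.Chk
end
end
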