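import Pool.Agent.Lib.MP_c009e6_co.Basic2

namespace Pool.Agent.Lib.P37

open Real

theorem Gs_ge (X1 X2 X3 D1 D2 D3 : ℝ) :
    Cc X1 + Cc X2 + Cc X3 - (|D1| + |D2| + |D3|) / 6 ≤ Gs X1 X2 X3 D1 D2 D3 := by
  have key : ∀ X D : ℝ, Cc X - |D| / 6 ≤ g0 X - g0 (X - 1/6 - D) := by
    intro X D
    have h := g0_mvt (X - 1/6 - D) (X - 1/6)
    have e : |(X - 1/6 - D) - (X - 1/6)| = |D| := by
      rw [← abs_neg]
      congr 1
      ring
    rw [e] at h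
    unfold Cc
    linarith
  have k1 := key X1 D1
  have k2 := key X2 D2
  have k3 := key X3 D3
  unfold Gs
  linarith

theorem Ee_nonneg (X Y : ℝ) : 0 ≤ Ee X Y := by
  unfold Ee
  have := tau_nonneg (X - Y)
  positivity

theorem rho_aux {X1 X2 X3 D1 D2 D3 : ℝ} (hs : D1 + D2 + D3 = 0) (h3 : |D3| ≤ 0.07)
    (h31 : D3 ≤ D1) (h32 : D3 ≤ D2) (hM : MI X1 X2 X3 D1 D2 D3 < 0) :
    -(7/40 * (0.0908 - 23/22 * (Cc X1 + Cc X2 + Cc X3))) ≤ D3 := by
  have h3' := abs_le.mp h3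
  have hr : D3 ≤ 0 := by linarith
  have hsum : |D1| + |D2| + |D3| ≤ -4 * D3 := by
    rw [abs_of_nonpos hr]
    rcases abs_cases D1 with ⟨e1, _⟩ | ⟨e1, _⟩ <;> rcases abs_cases D2 with ⟨e2, _⟩ | ⟨e2, _⟩ <;>
      rw [e1, e2] <;> linarith
  have hdiff : (D1 - D2) ^ 2 ≤ 9 * D3 ^ 2 := by
    have a1 : D1 - D2 ≤ -3 * D3 := by linarith
    have a2 : -(-3 * D3) ≤ D1 - D2 := by linarith
    have := sq_le_sq' a2 a1
    nlinarith [this]
  have hE := Ee_nonneg X1 (X2 - 1/6 - D2)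
  have hE2 : 0 ≤ Ee X1 (X2 - 1/6 - D2) * (1 - 0.196 * D3) := mul_nonneg hE (by linarith)
  have hG := Gs_ge X1 X2 X3 D1 D2 D3
  have hsq : D3 ^ 2 ≤ -0.07 * D3 := by nlinarith [h3'.1, hr]
  unfold MI at hM
  have : (6.8 - 0.14 - 2/3 * (23/22)) * (-D3) < 0.0908 - 23/22 * (Cc X1 + Cc X2 + Cc X3) := by
    linarith
  linarith

theorem rho_bound {X1 X2 X3 D1 D2 D3 : ℝ} (hs : D1 + D2 + D3 = 0) (h1 : |D1| ≤ 0.07)
    (h2 : |D2| ≤ 0.07) (h3 : |D3| ≤ 0.07) (hM1 : MI X1 X2 X3 D1 D2 D3 < 0)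
    (hM2 : MI X2 X3 X1 D2 D3 D1 < 0) (hM3 : MI X3 X1 X2 D3 D1 D2 < 0) :
    -(7/40 * (0.0908 - 23/22 * (Cc X1 + Cc X2 + Cc X3))) ≤ D1 ∧
    -(7/40 * (0.0908 - 23/22 * (Cc X1 + Cc X2 + Cc X3))) ≤ D2 ∧
    -(7/40 * (0.0908 - 23/22 * (Cc X1 + Cc X2 + Cc X3))) ≤ D3 := by
  have e2 : Cc X2 + Cc X3 + Cc X1 = Cc X1 + Cc X2 + Cc X3 := by ring
  have e3 : Cc X3 + Cc X1 + Cc X2 = Cc X1 + Cc X2 + Cc X3 := by ring
  rcases le_total D1 D2 with a | a <;> rcases le_total D2 D3 with b | b <;>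
    rcases le_total D1 D3 with c | c
  · have := rho_aux (X1 := X2) (X2 := X3) (X3 := X1) (D1 := D2) (D2 := D3) (D3 := D1) (by linarith)
      h1 a c hM2
    rw [e2] at this
    exact ⟨this, this.trans a, this.trans c⟩
  · have := rho_aux (X1 := X2) (X2 := X3) (X3 := X1) (D1 := D2) (D2 := D3) (D3 := D1) (by linarith)
      h1 a (a.trans b) hM2
    rw [e2] at this
    exact ⟨this, this.trans a, this.trans (a.trans b)⟩
  · have := rho_aux (X1 := X2) (X2 := X3) (X3 := X1) (D1 := D2) (D2 := D3) (D3 := D1) (by linarith)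
      h1 a c hM2
    rw [e2] at this
    exact ⟨this, this.trans a, this.trans c⟩
  · have := rho_aux hs h3 c b hM1
    exact ⟨this.trans c, this.trans b, this⟩
  · have := rho_aux (X1 := X3) (X2 := X1) (X3 := X2) (D1 := D3) (D2 := D1) (D3 := D2) (by linarith)
      h2 b a hM3
    rw [e3] at this
    exact ⟨this.trans a, this, this.trans b⟩
  · have := rho_aux (X1 := X3) (X2 := X1) (X3 := X2) (D1 := D3) (D2 := D1) (D3 := D2) (by linarith)
      h2 b a hM3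
    rw [e3] at this
    exact ⟨this.trans a, this, this.trans b⟩
  · have := rho_aux hs h3 (b.trans a) b hM1
    exact ⟨this.trans (b.trans a), this.trans b, this⟩
  · have := rho_aux hs h3 c b hM1
    exact ⟨this.trans c, this.trans b, this⟩

end Pool.Agent.Lib.P37
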