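import Pool.Agent.Lib.MP_c009e6_co.Basic2
import Pool.Agent.Lib.MP_c009e6_co.Checker
import Pool.Agent.Lib.MP_c009e6_co.Body
import Pool.Agent.Lib.MP_c009e6_co.Rho

section

namespace Pool.Agent.Lib.P37

open Real

/-- sum of absolute values of three reals with zero sum, bounded below by `-ρ` -/
theorem abs_sum_le {D1 D2 D3 ρ : ℝ} (hs : D1 + D2 + D3 = 0) (h1 : -ρ ≤ D1) (h2 : -ρ ≤ D2)
    (h3 : -ρ ≤ D3) : |D1| + |D2| + |D3| ≤ 4 * ρ := by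
  rcases abs_cases D1 with ⟨e1, f1⟩ | ⟨e1, f1⟩ <;> rcases abs_cases D2 with ⟨e2, f2⟩ | ⟨e2, f2⟩ <;>
    rcases abs_cases D3 with ⟨e3, f3⟩ | ⟨e3, f3⟩ <;> rw [e1, e2, e3] <;> linarith

theorem sq_sum_le {D1 D2 D3 ρ : ℝ} (hs : D1 + D2 + D3 = 0) (h1 : -ρ ≤ D1) (h2 : -ρ ≤ D2)
    (h3 : -ρ ≤ D3) : D1 ^ 2 + D2 ^ 2 + D3 ^ 2 ≤ 6 * ρ ^ 2 := by
  have a := mul_nonneg (sub_nonneg.mpr h1) (sub_nonneg.mpr h2)
  have b := mul_nonneg (sub_nonneg.mpr h1) (sub_nonneg.mpr h3)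
  have c := mul_nonneg (sub_nonneg.mpr h2) (sub_nonneg.mpr h3)
  have e : D3 = -D1 - D2 := by linarith
  subst e
  nlinarith

/-- vertex contribution -/
theorem vertex_lb (X a D : ℝ) :
    Cc a + (g1 a - g1 (a - 1/6)) * (X - a) + g1 (a - 1/6) * D
      - ((X - a) ^ 2 + ((X - a) - D) ^ 2) / 3 ≤ g0 X - g0 (X - 1/6 - D) := by
  have h1 := (abs_le.mp (g0_taylor X a)).1
  have h2 := (abs_le.mp (g0_taylor (X - 1/6 - D) (a - 1/6))).2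
  have e : (X - 1/6 - D) - (a - 1/6) = (X - a) - D := by ring
  rw [e] at h2
  unfold Cc
  nlinarith

/-- side contribution: the first factor expansion -/
theorem side_lb {E Ec m β ξi ξj Dj Do w h : ℝ} (hβ : β = 0 ∨ β = 1)
    (hm : |m| ≤ 3/5) (hw : |w| ≤ 3/5) (hi : |ξi| ≤ h) (hj : |ξj| ≤ h) (hh : h ≤ 1/24)
    (hDj : |Dj| ≤ 0.07) (hDo : |Do| ≤ 0.07)
    (hE : Ec + 2 * m * ((1 - β) * ξi + β * (ξj - Dj)) + w * (ξi - ξj + Dj)
        - (ξi - ξj + Dj) ^ 2 / 2 ≤ E) :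
    Ec + 2 * m * ((1 - β) * ξi + β * (ξj - Dj)) + w * (ξi - ξj + Dj) - (ξi - ξj + Dj) ^ 2 / 2
      - 0.196 * Ec * Do - 0.196 * ((2.56 * h + 1.88 * |Dj|) * |Do|) ≤ E * (1 - 0.196 * Do) := by
  have hh0 : 0 ≤ h := (abs_nonneg _).trans hi
  have hDo' := abs_le.mp hDo
  set ζ := (1 - β) * ξi + β * (ξj - Dj) with hζ
  set η := ξi - ξj + Dj with hη
  have hζb : |ζ| ≤ h + |Dj| := by
    rcases hβ with rfl | rfl
    · simp only [sub_zero, one_mul, zero_mul, add_zero] at hζ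
      rw [hζ]; linarith [abs_nonneg Dj]
    · simp only [sub_self, zero_mul, one_mul, zero_add] at hζ
      rw [hζ]
      exact (abs_sub _ _).trans (by linarith)
  have hηb : |η| ≤ 2 * h + |Dj| := by
    rw [hη]
    calc |ξi - ξj + Dj| ≤ |ξi - ξj| + |Dj| := abs_add_le _ _
      _ ≤ (|ξi| + |ξj|) + |Dj| := by linarith [abs_sub ξi ξj]
      _ ≤ 2 * h + |Dj| := by linarith
  set L := Ec + 2 * m * ζ + w * η - η ^ 2 / 2 with hL
  have hdev : |L - Ec| ≤ 2.56 * h + 1.88 * |Dj| := by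
    have e : L - Ec = 2 * m * ζ + w * η - η ^ 2 / 2 := by rw [hL]; ring
    rw [e]
    have b1 : |2 * m * ζ| ≤ 1.2 * (h + |Dj|) := by
      rw [abs_mul, abs_mul]
      have : |(2:ℝ)| = 2 := by norm_num
      rw [this]
      have := mul_le_mul hm hζb (abs_nonneg _) (by norm_num)
      nlinarith
    have b2 : |w * η| ≤ 0.6 * (2 * h + |Dj|) := by
      rw [abs_mul]
      have := mul_le_mul hw hηb (abs_nonneg _) (by norm_num)
      linarith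
    have b3 : |η ^ 2 / 2| ≤ 0.0767 * (2 * h + |Dj|) := by
      rw [abs_of_nonneg (by positivity)]
      have hq : η ^ 2 ≤ (2 * h + |Dj|) ^ 2 := by
        rw [← sq_abs η]
        exact pow_le_pow_left₀ (abs_nonneg _) hηb 2
      have hc : 2 * h + |Dj| ≤ 0.1534 := by linarith
      have hnn : 0 ≤ 2 * h + |Dj| := by positivity
      nlinarith
    calc |2 * m * ζ + w * η - η ^ 2 / 2| ≤ |2 * m * ζ + w * η| + |η ^ 2 / 2| := abs_sub _ _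
      _ ≤ (|2 * m * ζ| + |w * η|) + |η ^ 2 / 2| := by linarith [abs_add_le (2 * m * ζ) (w * η)]
      _ ≤ 2.56 * h + 1.88 * |Dj| := by linarith [abs_nonneg Dj]
  have hprod : (L - Ec) * Do ≤ (2.56 * h + 1.88 * |Dj|) * |Do| := by
    calc (L - Ec) * Do ≤ |(L - Ec) * Do| := le_abs_self _
      _ = |L - Ec| * |Do| := abs_mul _ _
      _ ≤ _ := mul_le_mul_of_nonneg_right hdev (abs_nonneg _)
  have hpos : 0 ≤ 1 - 0.196 * Do := by nlinarith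
  have h1 : L * (1 - 0.196 * Do) ≤ E * (1 - 0.196 * Do) := mul_le_mul_of_nonneg_right hE hpos
  nlinarith


theorem mul_abs_lb {g x h : ℝ} (hx : |x| ≤ h) : -(h * |g|) ≤ g * x := by
  have : |g * x| ≤ h * |g| := by
    rw [abs_mul, mul_comm]; exact mul_le_mul_of_nonneg_right hx (abs_nonneg _)
  exact (abs_le.mp this).1

theorem lin_D_lb {D1 D2 D3 ρ c1 c2 c3 cm : ℝ} (hs : D1 + D2 + D3 = 0) (hD1 : -ρ ≤ D1)
    (hD2 : -ρ ≤ D2) (hD3 : -ρ ≤ D3) (hc1 : cm ≤ c1) (hc2 : cm ≤ c2) (hc3 : cm ≤ c3) :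
    -(ρ * (c1 + c2 + c3 - 3 * cm)) ≤ c1 * D1 + c2 * D2 + c3 * D3 := by
  have q1 := mul_nonneg (sub_nonneg.mpr hc1) (sub_nonneg.mpr hD1)
  have q2 := mul_nonneg (sub_nonneg.mpr hc2) (sub_nonneg.mpr hD2)
  have q3 := mul_nonneg (sub_nonneg.mpr hc3) (sub_nonneg.mpr hD3)
  have e3 : cm * (D1 + D2 + D3) = 0 := by rw [hs]; ring
  linarith

theorem eta_sq {x y d h : ℝ} (hx : |x| ≤ h) (hy : |y| ≤ h) :
    (x - y + d) ^ 2 ≤ (2 * h + |d|) ^ 2 := by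
  have hb : |x - y + d| ≤ 2 * h + |d| := by
    calc |x - y + d| ≤ |x - y| + |d| := abs_add_le _ _
      _ ≤ (|x| + |y|) + |d| := by linarith [abs_sub x y]
      _ ≤ 2 * h + |d| := by linarith
  rw [← sq_abs (x - y + d)]
  exact pow_le_pow_left₀ (abs_nonneg _) hb 2

theorem lin_w {l1 l2 l3 u1 u2 u3 ρ : ℝ} (h1 : 0 ≤ u1) (h2 : 0 ≤ u2) (h3 : 0 ≤ u3)
    (hL1 : l1 ≤ 1/2) (hL2 : l2 ≤ 1/2) (hL3 : l3 ≤ 1/2) (hu : u1 + u2 + u3 ≤ 4 * ρ) :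
    l1 * u2 + l2 * u3 + l3 * u1 ≤ 2 * ρ := by
  have q1 := mul_le_mul_of_nonneg_right hL1 h2
  have q2 := mul_le_mul_of_nonneg_right hL2 h3
  have q3 := mul_le_mul_of_nonneg_right hL3 h1
  linarith

theorem TT1_lb {D1 D2 D3 x1 x2 x3 h ρ l1 l2 l3 : ℝ} (hh0 : 0 ≤ h)
    (hA : |D1| + |D2| + |D3| ≤ 4 * ρ) (hQ : D1 ^ 2 + D2 ^ 2 + D3 ^ 2 ≤ 6 * ρ ^ 2)
    (hX1 : |x1| ≤ h) (hX2 : |x2| ≤ h) (hX3 : |x3| ≤ h)
    (hl1 : 0 ≤ l1) (hl2 : 0 ≤ l2) (hl3 : 0 ≤ l3) (hl : l1 + l2 + l3 = 1)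
    (hL1 : l1 ≤ 1/2) (hL2 : l2 ≤ 1/2) (hL3 : l3 ≤ 1/2) :
    l1 * ((x1 - x2 + D2) ^ 2 / 2) + l2 * ((x2 - x3 + D3) ^ 2 / 2) + l3 * ((x3 - x1 + D1) ^ 2 / 2)
      ≤ 2 * h ^ 2 + 4 * (h * ρ) + 3/2 * ρ ^ 2 := by
  have n1 := @eta_sq x1 x2 D2 h hX1 hX2
  have n2 := @eta_sq x2 x3 D3 h hX2 hX3
  have n3 := @eta_sq x3 x1 D1 h hX3 hX1
  have r1 := mul_le_mul_of_nonneg_left n1 hl1
  have r2 := mul_le_mul_of_nonneg_left n2 hl2
  have r3 := mul_le_mul_of_nonneg_left n3 hl3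
  have hlin := lin_w (abs_nonneg D1) (abs_nonneg D2) (abs_nonneg D3) hL1 hL2 hL3 hA
  have hqua := lin_w (sq_nonneg |D1|) (sq_nonneg |D2|) (sq_nonneg |D3|) hL1 hL2 hL3
    (ρ := 3/2 * ρ ^ 2) (by rw [sq_abs, sq_abs, sq_abs]; linarith)
  have hhl := mul_le_mul_of_nonneg_left hlin hh0
  have e : l1 * (2 * h + |D2|) ^ 2 + l2 * (2 * h + |D3|) ^ 2 + l3 * (2 * h + |D1|) ^ 2
      = 4 * h ^ 2 * (l1 + l2 + l3) + 4 * (h * (l1 * |D2| + l2 * |D3| + l3 * |D1|))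
        + (l1 * |D2| ^ 2 + l2 * |D3| ^ 2 + l3 * |D1| ^ 2) := by ring
  rw [hl] at e
  linarith

theorem cross_w {D1 D2 D3 ρ l1 l2 l3 : ℝ}
    (hQ : D1 ^ 2 + D2 ^ 2 + D3 ^ 2 ≤ 6 * ρ ^ 2)
    (hL1 : l1 ≤ 1/2) (hL2 : l2 ≤ 1/2) (hL3 : l3 ≤ 1/2) :
    l1 * (|D2| * |D3|) + l2 * (|D3| * |D1|) + l3 * (|D1| * |D2|) ≤ 3 * ρ ^ 2 := by
  have q1 := mul_le_mul_of_nonneg_right hL1 (mul_nonneg (abs_nonneg D2) (abs_nonneg D3))
  have q2 := mul_le_mul_of_nonneg_right hL2 (mul_nonneg (abs_nonneg D3) (abs_nonneg D1))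
  have q3 := mul_le_mul_of_nonneg_right hL3 (mul_nonneg (abs_nonneg D1) (abs_nonneg D2))
  have e1 := sq_abs D1
  have e2 := sq_abs D2
  have e3 := sq_abs D3
  have s1 := sq_nonneg (|D1| - |D2|)
  have s2 := sq_nonneg (|D2| - |D3|)
  have s3 := sq_nonneg (|D3| - |D1|)
  nlinarith only [q1, q2, q3, e1, e2, e3, s1, s2, s3, hQ]

theorem TT2_lb {D1 D2 D3 h ρ l1 l2 l3 : ℝ} (hh0 : 0 ≤ h) (hρ : 0 ≤ ρ)
    (hA : |D1| + |D2| + |D3| ≤ 4 * ρ) (hQ : D1 ^ 2 + D2 ^ 2 + D3 ^ 2 ≤ 6 * ρ ^ 2)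
    (hL1 : l1 ≤ 1/2) (hL2 : l2 ≤ 1/2) (hL3 : l3 ≤ 1/2) :
    l1 * (0.196 * ((2.56 * h + 1.88 * |D2|) * |D3|)) + l2 * (0.196 * ((2.56 * h + 1.88 * |D3|) * |D1|))
      + l3 * (0.196 * ((2.56 * h + 1.88 * |D1|) * |D2|)) ≤ 1.05 * (h * ρ) + 1.15 * ρ ^ 2 := by
  have hlin := lin_w (u1 := |D2|) (u2 := |D3|) (u3 := |D1|) (l1 := l1) (l2 := l2) (l3 := l3) (ρ := ρ)
    (abs_nonneg D2) (abs_nonneg D3) (abs_nonneg D1) hL1 hL2 hL3 (by linarith)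
  have hhl := mul_le_mul_of_nonneg_left hlin hh0
  have hc := cross_w hQ hL1 hL2 hL3
  have e : l1 * (0.196 * ((2.56 * h + 1.88 * |D2|) * |D3|)) + l2 * (0.196 * ((2.56 * h + 1.88 * |D3|) * |D1|))
    + l3 * (0.196 * ((2.56 * h + 1.88 * |D1|) * |D2|))
    = 0.50176 * (h * (l1 * |D3| + l2 * |D1| + l3 * |D2|))
      + 0.36848 * (l1 * (|D2| * |D3|) + l2 * (|D3| * |D1|) + l3 * (|D1| * |D2|)) := by ring
  rw [e]
  have hρ2 : 0 ≤ ρ ^ 2 := sq_nonneg ρ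
  have hhρ : 0 ≤ h * ρ := mul_nonneg hh0 hρ
  linarith

theorem sq_pair {x d h : ℝ} (hx : |x| ≤ h) :
    x ^ 2 + (x - d) ^ 2 ≤ 2 * h ^ 2 + 2 * (h * |d|) + d ^ 2 := by
  have hx2 : x ^ 2 ≤ h ^ 2 := by
    rw [← sq_abs x]; exact pow_le_pow_left₀ (abs_nonneg _) hx 2
  have hb : |x - d| ≤ h + |d| := by
    calc |x - d| ≤ |x| + |d| := abs_sub _ _
      _ ≤ h + |d| := by linarith
  have hb2 : (x - d) ^ 2 ≤ (h + |d|) ^ 2 := by
    rw [← sq_abs (x - d)]; exact pow_le_pow_left₀ (abs_nonneg _) hb 2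
  have e := sq_abs d
  nlinarith only [hx2, hb2, e]

theorem TT3_lb {D1 D2 D3 x1 x2 x3 h ρ : ℝ} (hh0 : 0 ≤ h)
    (hA : |D1| + |D2| + |D3| ≤ 4 * ρ) (hQ : D1 ^ 2 + D2 ^ 2 + D3 ^ 2 ≤ 6 * ρ ^ 2)
    (hX1 : |x1| ≤ h) (hX2 : |x2| ≤ h) (hX3 : |x3| ≤ h) :
    (x1 ^ 2 + (x1 - D1) ^ 2) / 3 + (x2 ^ 2 + (x2 - D2) ^ 2) / 3
      + (x3 ^ 2 + (x3 - D3) ^ 2) / 3 ≤ 2 * h ^ 2 + 8/3 * (h * ρ) + 2 * ρ ^ 2 := by
  have z1 := @sq_pair x1 D1 h hX1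
  have z2 := @sq_pair x2 D2 h hX2
  have z3 := @sq_pair x3 D3 h hX3
  have hhs := mul_le_mul_of_nonneg_left hA hh0
  have e : h * (|D1| + |D2| + |D3|) = h * |D1| + h * |D2| + h * |D3| := by ring
  linarith

theorem TT4_lb {D1 D2 D3 ρ l1 l2 l3 μ : ℝ} (hs : D1 + D2 + D3 = 0)
    (hQ : D1 ^ 2 + D2 ^ 2 + D3 ^ 2 ≤ 6 * ρ ^ 2) (hl : l1 + l2 + l3 = 1)
    (hμ : 0 ≤ μ) (hμ1 : 1 - 3 * l1 ≤ μ) (hμ2 : 1 - 3 * l2 ≤ μ) (hμ3 : 1 - 3 * l3 ≤ μ) :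
    -(4 * μ * ρ ^ 2) ≤ l1 * (D3 ^ 2 - (D1 - D2) ^ 2 / 3) + l2 * (D1 ^ 2 - (D2 - D3) ^ 2 / 3)
      + l3 * (D2 ^ 2 - (D3 - D1) ^ 2 / 3) := by
  have e : l1 * (D3 ^ 2 - (D1 - D2) ^ 2 / 3) + l2 * (D1 ^ 2 - (D2 - D3) ^ 2 / 3)
    + l3 * (D2 ^ 2 - (D3 - D1) ^ 2 / 3)
    = 2/3 * ((3 * l1 - 1) * D3 ^ 2 + (3 * l2 - 1) * D1 ^ 2 + (3 * l3 - 1) * D2 ^ 2) := by
    have e3 : D3 = -D1 - D2 := by linarith
    have el : l3 = 1 - l1 - l2 := by linarith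
    rw [e3, el]; ring
  rw [e]
  have q1 := mul_nonneg (by linarith : 0 ≤ 3 * l1 - 1 + μ) (sq_nonneg D3)
  have q2 := mul_nonneg (by linarith : 0 ≤ 3 * l2 - 1 + μ) (sq_nonneg D1)
  have q3 := mul_nonneg (by linarith : 0 ≤ 3 * l3 - 1 + μ) (sq_nonneg D2)
  have q4 := mul_le_mul_of_nonneg_left hQ hμ
  nlinarith only [q1, q2, q3, q4]

theorem wsum_neg {l1 l2 l3 m1 m2 m3 : ℝ} (hl1 : 0 ≤ l1) (hl2 : 0 ≤ l2) (hl3 : 0 ≤ l3)
    (hl : l1 + l2 + l3 = 1) (hL3 : l3 ≤ 1/2) (h1 : m1 < 0) (h2 : m2 < 0) (h3 : m3 < 0) :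
    l1 * m1 + l2 * m2 + l3 * m3 < 0 := by
  have p1 := mul_nonpos_of_nonneg_of_nonpos hl1 h1.le
  have p2 := mul_nonpos_of_nonneg_of_nonpos hl2 h2.le
  have p3 := mul_nonpos_of_nonneg_of_nonpos hl3 h3.le
  rcases lt_or_eq_of_le hl1 with h | h
  · have := mul_neg_of_pos_of_neg h h1
    linarith
  · have h2' : 0 < l2 := by linarith
    have := mul_neg_of_pos_of_neg h2' h2
    linarith

/-- lower bound of one MI -/
theorem MI_lb {X1 X2 X3 D1 D2 D3 a1 a2 h m1 w1 b1 Ec1 K : ℝ}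
    (hd2 : |D2| ≤ 0.07) (hd3 : |D3| ≤ 0.07)
    (hh : h ≤ 1/24) (hX1 : |X1 - a1| ≤ h) (hX2 : |X2 - a2| ≤ h)
    (hm1 : |m1| ≤ 3/5) (hw1 : |w1| ≤ 3/5) (hb1 : b1 = 0 ∨ b1 = 1)
    (hE1 : Ec1 + 2 * m1 * ((1 - b1) * (X1 - a1) + b1 * ((X2 - a2) - D2))
        + w1 * ((X1 - a1) - (X2 - a2) + D2) - ((X1 - a1) - (X2 - a2) + D2) ^ 2 / 2
        ≤ Ee X1 (X2 - 1/6 - D2))
    (hK : K ≤ Gs X1 X2 X3 D1 D2 D3) (hM1 : MI X1 X2 X3 D1 D2 D3 < 0) :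
    Ec1 + 2 * m1 * ((1 - b1) * (X1 - a1) + b1 * ((X2 - a2) - D2)) + w1 * ((X1 - a1) - (X2 - a2) + D2)
      - ((X1 - a1) - (X2 - a2) + D2) ^ 2 / 2 - 0.196 * Ec1 * D3 - 0.196 * ((2.56 * h + 1.88 * |D2|) * |D3|)
      - 6.8 * D3 + D3 ^ 2 - (D1 - D2) ^ 2 / 3 + (23 / 22) * K - 0.0908 < 0 := by
  have S1 := side_lb hb1 hm1 hw1 hX1 hX2 hh hd2 hd3 hE1
  unfold MI at hM1
  linarith only [S1, hM1, hK]

theorem Gs_lb (X1 X2 X3 D1 D2 D3 a1 a2 a3 : ℝ) :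
    (Cc a1 + (g1 a1 - g1 (a1 - 1/6)) * (X1 - a1) + g1 (a1 - 1/6) * D1 - ((X1 - a1) ^ 2 + ((X1 - a1) - D1) ^ 2) / 3)
      + (Cc a2 + (g1 a2 - g1 (a2 - 1/6)) * (X2 - a2) + g1 (a2 - 1/6) * D2 - ((X2 - a2) ^ 2 + ((X2 - a2) - D2) ^ 2) / 3)
      + (Cc a3 + (g1 a3 - g1 (a3 - 1/6)) * (X3 - a3) + g1 (a3 - 1/6) * D3 - ((X3 - a3) ^ 2 + ((X3 - a3) - D3) ^ 2) / 3)
      ≤ Gs X1 X2 X3 D1 D2 D3 := by
  have V1 := vertex_lb X1 a1 D1
  have V2 := vertex_lb X2 a2 D2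
  have V3 := vertex_lb X3 a3 D3
  unfold Gs
  linarith only [V1, V2, V3]

theorem key_identity {x1 x2 x3 D1 D2 D3 h l1 l2 l3 m1 m2 m3 w1 w2 w3 b1 b2 b3 Ec1 Ec2 Ec3
    u1 u2 u3 C1 C2 C3 p1 p2 p3 q1 q2 q3 : ℝ} (hl : l1 + l2 + l3 = 1) :
    l1 * (Ec1 + 2 * m1 * ((1 - b1) * x1 + b1 * (x2 - D2)) + w1 * (x1 - x2 + D2)
      - (x1 - x2 + D2) ^ 2 / 2 - 0.196 * Ec1 * D3 - 0.196 * ((2.56 * h + 1.88 * u2) * u3)
      - 6.8 * D3 + D3 ^ 2 - (D1 - D2) ^ 2 / 3 + (23 / 22) *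
        ((C1 + (p1 - q1) * x1 + q1 * D1 - (x1 ^ 2 + (x1 - D1) ^ 2) / 3)
      + (C2 + (p2 - q2) * x2 + q2 * D2 - (x2 ^ 2 + (x2 - D2) ^ 2) / 3)
      + (C3 + (p3 - q3) * x3 + q3 * D3 - (x3 ^ 2 + (x3 - D3) ^ 2) / 3)) - 0.0908)
      + l2 * (Ec2 + 2 * m2 * ((1 - b2) * x2 + b2 * (x3 - D3)) + w2 * (x2 - x3 + D3)
      - (x2 - x3 + D3) ^ 2 / 2 - 0.196 * Ec2 * D1 - 0.196 * ((2.56 * h + 1.88 * u3) * u1)
      - 6.8 * D1 + D1 ^ 2 - (D2 - D3) ^ 2 / 3 + (23 / 22) *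
        ((C1 + (p1 - q1) * x1 + q1 * D1 - (x1 ^ 2 + (x1 - D1) ^ 2) / 3)
      + (C2 + (p2 - q2) * x2 + q2 * D2 - (x2 ^ 2 + (x2 - D2) ^ 2) / 3)
      + (C3 + (p3 - q3) * x3 + q3 * D3 - (x3 ^ 2 + (x3 - D3) ^ 2) / 3)) - 0.0908)
      + l3 * (Ec3 + 2 * m3 * ((1 - b3) * x3 + b3 * (x1 - D1)) + w3 * (x3 - x1 + D1)
      - (x3 - x1 + D1) ^ 2 / 2 - 0.196 * Ec3 * D2 - 0.196 * ((2.56 * h + 1.88 * u1) * u2)
      - 6.8 * D2 + D2 ^ 2 - (D3 - D1) ^ 2 / 3 + (23 / 22) *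
        ((C1 + (p1 - q1) * x1 + q1 * D1 - (x1 ^ 2 + (x1 - D1) ^ 2) / 3)
      + (C2 + (p2 - q2) * x2 + q2 * D2 - (x2 ^ 2 + (x2 - D2) ^ 2) / 3)
      + (C3 + (p3 - q3) * x3 + q3 * D3 - (x3 ^ 2 + (x3 - D3) ^ 2) / 3)) - 0.0908)
      = (l1 * Ec1 + l2 * Ec2 + l3 * Ec3) + 23/22 * (C1 + C2 + C3) - 0.0908
        + ((l1 * (2 * m1 * (1 - b1) + w1) + l3 * (2 * m3 * b3 - w3) + 23/22 * (p1 - q1)) * x1
          + (l2 * (2 * m2 * (1 - b2) + w2) + l1 * (2 * m1 * b1 - w1) + 23/22 * (p2 - q2)) * x2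
          + (l3 * (2 * m3 * (1 - b3) + w3) + l2 * (2 * m2 * b2 - w2) + 23/22 * (p3 - q3)) * x3)
        + ((l3 * (w3 - 2 * m3 * b3) + 23/22 * q1 - l2 * (6.8 + 0.196 * Ec2)) * D1
          + (l1 * (w1 - 2 * m1 * b1) + 23/22 * q2 - l3 * (6.8 + 0.196 * Ec3)) * D2
          + (l2 * (w2 - 2 * m2 * b2) + 23/22 * q3 - l1 * (6.8 + 0.196 * Ec1)) * D3)
        - (l1 * ((x1 - x2 + D2) ^ 2 / 2) + l2 * ((x2 - x3 + D3) ^ 2 / 2) + l3 * ((x3 - x1 + D1) ^ 2 / 2))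
        - (l1 * (0.196 * ((2.56 * h + 1.88 * u2) * u3)) + l2 * (0.196 * ((2.56 * h + 1.88 * u3) * u1))
          + l3 * (0.196 * ((2.56 * h + 1.88 * u1) * u2)))
        + (l1 * (D3 ^ 2 - (D1 - D2) ^ 2 / 3) + l2 * (D1 ^ 2 - (D2 - D3) ^ 2 / 3)
          + l3 * (D2 ^ 2 - (D3 - D1) ^ 2 / 3))
        - 23/22 * ((x1 ^ 2 + (x1 - D1) ^ 2) / 3 + (x2 ^ 2 + (x2 - D2) ^ 2) / 3
          + (x3 ^ 2 + (x3 - D3) ^ 2) / 3) := by
  have el : l3 = 1 - l1 - l2 := by linarith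
  subst el
  ring

/-- the box lower bound in real numbers -/
theorem LB_real
    {X1 X2 X3 D1 D2 D3 a1 a2 a3 h ρ l1 l2 l3 m1 m2 m3 w1 w2 w3 b1 b2 b3 Ec1 Ec2 Ec3 cm μ : ℝ}
    (hs : D1 + D2 + D3 = 0) (hD1 : -ρ ≤ D1) (hD2 : -ρ ≤ D2) (hD3 : -ρ ≤ D3)
    (hd1 : |D1| ≤ 0.07) (hd2 : |D2| ≤ 0.07) (hd3 : |D3| ≤ 0.07)
    (hh : h ≤ 1/24) (hX1 : |X1 - a1| ≤ h) (hX2 : |X2 - a2| ≤ h) (hX3 : |X3 - a3| ≤ h)
    (hl1 : 0 ≤ l1) (hl2 : 0 ≤ l2) (hl3 : 0 ≤ l3) (hl : l1 + l2 + l3 = 1)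
    (hL1 : l1 ≤ 1/2) (hL2 : l2 ≤ 1/2) (hL3 : l3 ≤ 1/2)
    (hμ : 0 ≤ μ) (hμ1 : 1 - 3 * l1 ≤ μ) (hμ2 : 1 - 3 * l2 ≤ μ) (hμ3 : 1 - 3 * l3 ≤ μ)
    (hm1 : |m1| ≤ 3/5) (hm2 : |m2| ≤ 3/5) (hm3 : |m3| ≤ 3/5)
    (hw1 : |w1| ≤ 3/5) (hw2 : |w2| ≤ 3/5) (hw3 : |w3| ≤ 3/5)
    (hb1 : b1 = 0 ∨ b1 = 1) (hb2 : b2 = 0 ∨ b2 = 1) (hb3 : b3 = 0 ∨ b3 = 1)
    (hE1 : Ec1 + 2 * m1 * ((1 - b1) * (X1 - a1) + b1 * ((X2 - a2) - D2))
        + w1 * ((X1 - a1) - (X2 - a2) + D2) - ((X1 - a1) - (X2 - a2) + D2) ^ 2 / 2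
        ≤ Ee X1 (X2 - 1/6 - D2))
    (hE2 : Ec2 + 2 * m2 * ((1 - b2) * (X2 - a2) + b2 * ((X3 - a3) - D3))
        + w2 * ((X2 - a2) - (X3 - a3) + D3) - ((X2 - a2) - (X3 - a3) + D3) ^ 2 / 2
        ≤ Ee X2 (X3 - 1/6 - D3))
    (hE3 : Ec3 + 2 * m3 * ((1 - b3) * (X3 - a3) + b3 * ((X1 - a1) - D1))
        + w3 * ((X3 - a3) - (X1 - a1) + D1) - ((X3 - a3) - (X1 - a1) + D1) ^ 2 / 2
        ≤ Ee X3 (X1 - 1/6 - D1))
    (hM1 : MI X1 X2 X3 D1 D2 D3 < 0) (hM2 : MI X2 X3 X1 D2 D3 D1 < 0)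
    (hM3 : MI X3 X1 X2 D3 D1 D2 < 0)
    (hc1 : cm ≤ l3 * (w3 - 2 * m3 * b3) + 23/22 * g1 (a1 - 1/6) - l2 * (6.8 + 0.196 * Ec2))
    (hc2 : cm ≤ l1 * (w1 - 2 * m1 * b1) + 23/22 * g1 (a2 - 1/6) - l3 * (6.8 + 0.196 * Ec3))
    (hc3 : cm ≤ l2 * (w2 - 2 * m2 * b2) + 23/22 * g1 (a3 - 1/6) - l1 * (6.8 + 0.196 * Ec1)) :
    (l1 * Ec1 + l2 * Ec2 + l3 * Ec3) + 23/22 * (Cc a1 + Cc a2 + Cc a3) - 0.0908
      - h * (|l1 * (2 * m1 * (1 - b1) + w1) + l3 * (2 * m3 * b3 - w3) + 23/22 * (g1 a1 - g1 (a1 - 1/6))|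
        + |l2 * (2 * m2 * (1 - b2) + w2) + l1 * (2 * m1 * b1 - w1) + 23/22 * (g1 a2 - g1 (a2 - 1/6))|
        + |l3 * (2 * m3 * (1 - b3) + w3) + l2 * (2 * m2 * b2 - w2) + 23/22 * (g1 a3 - g1 (a3 - 1/6))|)
      - ρ * ((l3 * (w3 - 2 * m3 * b3) + 23/22 * g1 (a1 - 1/6) - l2 * (6.8 + 0.196 * Ec2))
        + (l1 * (w1 - 2 * m1 * b1) + 23/22 * g1 (a2 - 1/6) - l3 * (6.8 + 0.196 * Ec3))
        + (l2 * (w2 - 2 * m2 * b2) + 23/22 * g1 (a3 - 1/6) - l1 * (6.8 + 0.196 * Ec1)) - 3 * cm)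
      - (2 * h ^ 2 + 4 * (h * ρ) + 3/2 * ρ ^ 2) - (1.05 * (h * ρ) + 1.15 * ρ ^ 2)
      - 23/22 * (2 * h ^ 2 + 8/3 * (h * ρ) + 2 * ρ ^ 2) - 4 * μ * ρ ^ 2 < 0 := by
  have hh0 : 0 ≤ h := (abs_nonneg _).trans hX1
  have hρ : 0 ≤ ρ := by linarith only [hs, hD1, hD2, hD3]
  have hA := abs_sum_le hs hD1 hD2 hD3
  have hQ := sq_sum_le hs hD1 hD2 hD3
  have hK := Gs_lb X1 X2 X3 D1 D2 D3 a1 a2 a3
  have hK2 : Gs X2 X3 X1 D2 D3 D1 = Gs X1 X2 X3 D1 D2 D3 := by unfold Gs; ring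
  have hK3 : Gs X3 X1 X2 D3 D1 D2 = Gs X1 X2 X3 D1 D2 D3 := by unfold Gs; ring
  have M1 := MI_lb hd2 hd3 hh hX1 hX2 hm1 hw1 hb1 hE1 hK hM1
  have M2 := MI_lb hd3 hd1 hh hX2 hX3 hm2 hw2 hb2 hE2 (hK.trans_eq hK2.symm) hM2
  have M3 := MI_lb hd1 hd2 hh hX3 hX1 hm3 hw3 hb3 hE3 (hK.trans_eq hK3.symm) hM3
  have Pst := wsum_neg hl1 hl2 hl3 hl hL3 M1 M2 M3
  rw [key_identity hl] at Pst
  have T1 := @TT1_lb D1 D2 D3 _ _ _ h ρ l1 l2 l3 hh0 hA hQ hX1 hX2 hX3 hl1 hl2 hl3 hl hL1 hL2 hL3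
  have T2 := @TT2_lb D1 D2 D3 h ρ l1 l2 l3 hh0 hρ hA hQ hL1 hL2 hL3
  have T3 := @TT3_lb D1 D2 D3 _ _ _ h ρ hh0 hA hQ hX1 hX2 hX3
  have T4 := @TT4_lb D1 D2 D3 ρ l1 l2 l3 μ hs hQ hl hμ hμ1 hμ2 hμ3
  have T6 := lin_D_lb hs hD1 hD2 hD3 hc1 hc2 hc3
  have t1 := @mul_abs_lb (l1 * (2 * m1 * (1 - b1) + w1) + l3 * (2 * m3 * b3 - w3) + 23/22 * (g1 a1 - g1 (a1 - 1/6))) _ h hX1
  have t2 := @mul_abs_lb (l2 * (2 * m2 * (1 - b2) + w2) + l1 * (2 * m1 * b1 - w1) + 23/22 * (g1 a2 - g1 (a2 - 1/6))) _ h hX2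
  have t3 := @mul_abs_lb (l3 * (2 * m3 * (1 - b3) + w3) + l2 * (2 * m2 * b2 - w2) + 23/22 * (g1 a3 - g1 (a3 - 1/6))) _ h hX3
  linarith only [Pst, T1, T2, T3, T4, T6, t1, t2, t3]

end Pool.Agent.Lib.P37
end

section

section

/-!
# Soundness of the box checker: arithmetic of the checker functions
-/

namespace Pool.Agent.Lib.P37.Chk

open Real Pool.Agent.Lib.P37

theorem isNN_iff (z : ℤ) : isNN z = true ↔ 0 ≤ z := by
  cases z with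
  | ofNat n => simp [isNN]
  | negSucc n => simp [isNN, Int.negSucc_not_nonneg]

theorem leB_iff (a b : ℤ) : leB a b = true ↔ a ≤ b := by
  unfold leB
  rw [isNN_iff]
  show 0 ≤ b - a ↔ a ≤ b
  exact Int.sub_nonneg

theorem absI_eq (z : ℤ) : absI z = |z| := by
  cases z with
  | ofNat n => simp [absI]
  | negSucc n =>
    simp only [absI]
    rw [Int.abs_eq_natAbs]
    rfl

theorem minI_eq (a b : ℤ) : minI a b = min a b := by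
  unfold minI
  cases h : leB a b with
  | true => simp only [cond_true]; rw [leB_iff] at h; exact (min_eq_left h).symm
  | false =>
    simp only [cond_false]
    have : ¬ a ≤ b := by rw [← leB_iff, h]; simp
    exact (min_eq_right (not_le.mp this).le).symm

theorem maxI_eq (a b : ℤ) : maxI a b = max a b := by
  unfold maxI
  cases h : leB a b with
  | true => simp only [cond_true]; rw [leB_iff] at h; exact (max_eq_right h).symm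
  | false =>
    simp only [cond_false]
    have : ¬ a ≤ b := by rw [← leB_iff, h]; simp
    exact (max_eq_left (not_le.mp this).le).symm

theorem frI_spec (z : ℤ) : ∃ n : ℤ, frI z = z - 384 * n ∧ -192 ≤ frI z ∧ frI z ≤ 191 := by
  have e : z % 384 = z - 384 * (z / 384) := by have := Int.emod_add_mul_ediv z 384; linarith
  have h0 : 0 ≤ z % 384 := Int.emod_nonneg z (by norm_num)
  have h1 : z % 384 < 384 := Int.emod_lt_of_pos z (by norm_num)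
  have hf : frI z = if z % 384 ≤ 191 then z % 384 else z % 384 - 384 := by
    unfold frI
    show cond (leB (z % 384) 191) (z % 384) (z % 384 - 384) = _
    cases h : leB (z % 384) 191 with
    | true => rw [leB_iff] at h; simp [h]
    | false =>
      have : ¬ z % 384 ≤ 191 := by rw [← leB_iff, h]; simp
      simp [this]
  by_cases hc : z % 384 ≤ 191
  · refine ⟨z / 384, ?_, ?_, ?_⟩
    · rw [hf, if_pos hc]; exact e
    · rw [hf, if_pos hc]; linarith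
    · rw [hf, if_pos hc]; exact hc
  · refine ⟨z / 384 + 1, ?_, ?_, ?_⟩
    · rw [hf, if_neg hc, e]; ring
    · rw [hf, if_neg hc]; omega
    · rw [hf, if_neg hc]; omega

theorem frI_dist (z : ℤ) : ∃ n : ℤ, (frI z : ℝ) / 384 = (z : ℝ) / 384 - n ∧ |(z : ℝ) / 384 - n| ≤ 1/2 := by
  obtain ⟨n, h1, h2, h3⟩ := frI_spec z
  refine ⟨n, ?_, ?_⟩
  · rw [h1]; push_cast; ring
  · have e : (z : ℝ) / 384 - n = (frI z : ℝ) / 384 := by rw [h1]; push_cast; ring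
    have h2' : (-192 : ℝ) ≤ frI z := by exact_mod_cast h2
    have h3' : (frI z : ℝ) ≤ 191 := by exact_mod_cast h3
    rw [e, abs_le]
    constructor <;> linarith

theorem g0n_cast (z : ℤ) : g0 ((z : ℝ) / 384) = (g0n z : ℝ) / 442368 := by
  obtain ⟨n, h1, h2⟩ := frI_dist z
  rw [g0_eq _ n h2, ← h1]
  have : g0n z = frI z * (192 - |frI z|) := by
    unfold g0n
    show frI z * (192 - absI (frI z)) = _
    rw [absI_eq]
  rw [this]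
  push_cast
  rw [abs_div, abs_of_pos (by norm_num : (0:ℝ) < 384)]
  ring

theorem g1n_cast (z : ℤ) : g1 ((z : ℝ) / 384) = (g1n z : ℝ) / 576 := by
  obtain ⟨n, h1, h2⟩ := frI_dist z
  rw [g1_eq _ n h2, ← h1]
  have : g1n z = 96 - |frI z| := by
    unfold g1n
    show 96 - absI (frI z) = _
    rw [absI_eq]
  rw [this]
  push_cast
  rw [abs_div, abs_of_pos (by norm_num : (0:ℝ) < 384)]
  ring

theorem boolI_cases (b : Bool) : ((boolI b : ℤ) : ℝ) = 0 ∨ ((boolI b : ℤ) : ℝ) = 1 := by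
  cases b
  · left; simp [boolI]
  · right; simp [boolI]

/-! ### the candidate lists -/

theorem cands_spec (z dv : ℤ) (b : Bool) (hdv : 0 ≤ dv) (hdv' : dv ≤ 190) (x : ℝ)
    (hx : |x - (z : ℝ) / 384| ≤ (dv : ℝ) / 384) :
    ∃ c ∈ cands z dv b, c.b = b ∧ ∃ n : ℤ, c.M = z - 384 * n ∧ nd x = |x - n| := by
  -- n = round x
  set n := round x with hn
  have hnd : nd x = |x - n| := rfl
  have hx' := abs_le.mp hx
  -- floor(x + 1/2) = n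
  have hr : (n : ℝ) ≤ x + 1/2 ∧ x + 1/2 < n + 1 := by
    rw [hn, round_eq]
    exact ⟨Int.floor_le _, Int.lt_floor_add_one _⟩
  set k0 := (z - dv + 192) / 384 with hk0
  set k1 := (z + dv + 192) / 384 with hk1
  have e0 : (z - dv + 192) % 384 = (z - dv + 192) - 384 * k0 := by
    have := Int.emod_add_mul_ediv (z - dv + 192) 384; linarith
  have e1 : (z + dv + 192) % 384 = (z + dv + 192) - 384 * k1 := by
    have := Int.emod_add_mul_ediv (z + dv + 192) 384; linarith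
  have p0 : 0 ≤ (z - dv + 192) % 384 := Int.emod_nonneg _ (by norm_num)
  have p0' : (z - dv + 192) % 384 < 384 := Int.emod_lt_of_pos _ (by norm_num)
  have p1 : 0 ≤ (z + dv + 192) % 384 := Int.emod_nonneg _ (by norm_num)
  have p1' : (z + dv + 192) % 384 < 384 := Int.emod_lt_of_pos _ (by norm_num)
  have hk01 : k0 ≤ n := by
    -- z - dv + 192 ≤ 384 x + 192 < 384 (n+1)
    have h1 : ((z - dv + 192 : ℤ) : ℝ) < 384 * (n + 1) := by push_cast; linarith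
    have h2 : z - dv + 192 < 384 * (n + 1) := by exact_mod_cast h1
    omega
  have hk11 : n ≤ k1 := by
    have h1 : (384 : ℝ) * n ≤ ((z + dv + 192 : ℤ) : ℝ) := by push_cast; linarith
    have h2 : 384 * n ≤ z + dv + 192 := by exact_mod_cast h1
    omega
  have hk : k1 ≤ k0 + 1 := by omega
  have hc : cands z dv b = if k1 ≤ k0 then [⟨z - 384 * k0, b⟩]
      else [⟨z - 384 * k0, b⟩, ⟨z - 384 * k1, b⟩] := by
    unfold cands
    show cond (leB k1 k0) _ _ = _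
    cases h : leB k1 k0 with
    | true => rw [leB_iff] at h; simp only [h, cond_true, if_true]; rfl
    | false =>
      have : ¬ k1 ≤ k0 := by rw [← leB_iff, h]; simp
      simp only [this, cond_false, if_false]; rfl
  rw [hc]
  by_cases hle : k1 ≤ k0
  · rw [if_pos hle]
    refine ⟨⟨z - 384 * k0, b⟩, by simp, rfl, k0, rfl, ?_⟩
    have : n = k0 := by omega
    rw [hnd, this]
  · rw [if_neg hle]
    by_cases h0 : n = k0
    · refine ⟨⟨z - 384 * k0, b⟩, by simp, rfl, k0, rfl, ?_⟩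
      rw [hnd, h0]
    · have h1 : n = k1 := by omega
      refine ⟨⟨z - 384 * k1, b⟩, by simp, rfl, k1, rfl, ?_⟩
      rw [hnd, h1]

theorem cands_all (z dv : ℤ) (b : Bool) (c : Cd) (hc : c ∈ cands z dv b) :
    c.b = b ∧ ∃ n : ℤ, c.M = z - 384 * n := by
  have hc' : c ∈ [(⟨z - 384 * ((z - dv + 192) / 384), b⟩ : Cd)] ∨
      c ∈ [(⟨z - 384 * ((z - dv + 192) / 384), b⟩ : Cd), ⟨z - 384 * ((z + dv + 192) / 384), b⟩] := by
    unfold cands at hc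
    revert hc
    show c ∈ cond _ _ _ → _
    cases leB ((z + dv + 192) / 384) ((z - dv + 192) / 384) with
    | true => intro hc; left; exact hc
    | false => intro hc; right; exact hc
  simp only [List.mem_cons, List.not_mem_nil, or_false] at hc'
  rcases hc' with rfl | rfl | rfl <;> exact ⟨rfl, _, rfl⟩

theorem ubOf_le (H R : ℤ) : ∀ (l : List Cd) (c : Cd), c ∈ l →
    ubOf H R l ≤ |c.M| + tolOf H R c.b := by
  intro l
  induction l with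
  | nil => intro c hc; simp at hc
  | cons a l ih =>
    intro c hc
    have e : ubOf H R (a :: l) = min (|a.M| + tolOf H R a.b) (ubOf H R l) := by
      show minI (absI a.M + tolOf H R a.b) (ubOf H R l) = _
      rw [minI_eq, absI_eq]
    rw [e]
    rcases List.mem_cons.mp hc with rfl | h
    · exact min_le_left _ _
    · exact (min_le_right _ _).trans (ih c h)

/-- the upper bound is attained by a candidate, or is `10000` -/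
theorem ubOf_attained (H R : ℤ) : ∀ (l : List Cd), ubOf H R l = 10000 ∨
    ∃ c ∈ l, ubOf H R l = |c.M| + tolOf H R c.b := by
  intro l
  induction l with
  | nil => left; rfl
  | cons a l ih =>
    have e : ubOf H R (a :: l) = min (|a.M| + tolOf H R a.b) (ubOf H R l) := by
      show minI (absI a.M + tolOf H R a.b) (ubOf H R l) = _
      rw [minI_eq, absI_eq]
    rcases min_choice (|a.M| + tolOf H R a.b) (ubOf H R l) with h | h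
    · right; exact ⟨a, by simp, by rw [e, h]⟩
    · rcases ih with h2 | ⟨c, hc, h2⟩
      · left; rw [e, h, h2]
      · right; exact ⟨c, by simp [hc], by rw [e, h, h2]⟩

theorem mem_prune (H R ub : ℤ) : ∀ (l : List Cd) (c : Cd), c ∈ l →
    |c.M| - tolOf H R c.b ≤ ub → c ∈ prune H R ub l := by
  intro l
  induction l with
  | nil => intro c hc; simp at hc
  | cons a l ih =>
    intro c hc h
    unfold prune
    show c ∈ cond (leB (absI a.M - tolOf H R a.b) ub) (a :: prune H R ub l) (prune H R ub l)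
    rcases List.mem_cons.mp hc with rfl | h'
    · have : leB (absI c.M - tolOf H R c.b) ub = true := by rw [leB_iff, absI_eq]; exact h
      rw [this]; simp
    · have := ih c h' h
      cases leB (absI a.M - tolOf H R a.b) ub with
      | true => simp [this]
      | false => simpa using this

end Pool.Agent.Lib.P37.Chk
end

section

/-!
# Soundness of the box checker: one evaluation
-/

namespace Pool.Agent.Lib.P37.Chk

open Real Pool.Agent.Lib.P37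

theorem sideL_spec (x y H R : ℤ) (hH : 0 ≤ H) (hH' : H ≤ 190) (hR : 0 ≤ R) (hR' : R ≤ 190)
    (X Y : ℝ) (hX : |X - (x : ℝ) / 384| ≤ (H : ℝ) / 384) (hY : |Y - (y : ℝ) / 384| ≤ (R : ℝ) / 384) :
    ∃ c ∈ sideL x y H R,
      (c.b = false ∧ ∃ n : ℤ, c.M = x - 384 * n ∧ min (nd X) (nd Y) = |X - n|) ∨
      (c.b = true ∧ ∃ n : ℤ, c.M = y - 384 * n ∧ min (nd X) (nd Y) = |Y - n|) := by
  obtain ⟨c0, hc0, hb0, n0, hM0, hn0⟩ := cands_spec x H false hH hH' X hX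
  obtain ⟨c1, hc1, hb1, n1, hM1, hn1⟩ := cands_spec y R true hR hR' Y hY
  set l := cands x H false ++ cands y R true with hl
  have hsl : sideL x y H R = prune H R (ubOf H R l) l := rfl
  -- every candidate gives an upper bound for the minimum
  have hub : (384 : ℝ) * min (nd X) (nd Y) ≤ (ubOf H R l : ℝ) := by
    rcases ubOf_attained H R l with h | ⟨c, hc, h⟩
    · rw [h]
      have h1 := nd_le X
      have h2 := min_le_left (nd X) (nd Y)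
      push_cast
      linarith
    · rw [h]
      rcases List.mem_append.mp hc with h' | h'
      · obtain ⟨hb, n, hM⟩ := cands_all x H false c h'
        have h1 := nd_le_abs_sub X n
        have h2 := min_le_left (nd X) (nd Y)
        have h3 : |X - n| ≤ |X - (x : ℝ) / 384| + |(x : ℝ) / 384 - n| := abs_sub_le X ((x : ℝ) / 384) n
        have h4 : |(x : ℝ) / 384 - n| = |(c.M : ℝ)| / 384 := by
          rw [hM]; push_cast
          rw [show (x : ℝ) / 384 - n = ((x : ℝ) - 384 * n) / 384 by ring, abs_div,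
            abs_of_pos (by norm_num : (0:ℝ) < 384)]
        rw [h4] at h3
        have h5 : tolOf H R c.b = H := by rw [hb]; rfl
        rw [h5]
        push_cast
        linarith
      · obtain ⟨hb, n, hM⟩ := cands_all y R true c h'
        have h1 := nd_le_abs_sub Y n
        have h2 := min_le_right (nd X) (nd Y)
        have h3 : |Y - n| ≤ |Y - (y : ℝ) / 384| + |(y : ℝ) / 384 - n| := abs_sub_le Y ((y : ℝ) / 384) n
        have h4 : |(y : ℝ) / 384 - n| = |(c.M : ℝ)| / 384 := by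
          rw [hM]; push_cast
          rw [show (y : ℝ) / 384 - n = ((y : ℝ) - 384 * n) / 384 by ring, abs_div,
            abs_of_pos (by norm_num : (0:ℝ) < 384)]
        rw [h4] at h3
        have h5 : tolOf H R c.b = R := by rw [hb]; rfl
        rw [h5]
        push_cast
        linarith
  rcases le_total (nd X) (nd Y) with h | h
  · refine ⟨c0, ?_, Or.inl ⟨hb0, n0, hM0, by rw [min_eq_left h, hn0]⟩⟩
    rw [hsl]
    apply mem_prune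
    · rw [hl]; exact List.mem_append_left _ hc0
    · have h5 : tolOf H R c0.b = H := by rw [hb0]; rfl
      rw [h5]
      rw [min_eq_left h] at hub
      have h3 : |(x : ℝ) / 384 - n0| ≤ |(x : ℝ) / 384 - X| + |X - n0| := abs_sub_le ((x : ℝ) / 384) X n0
      have h4 : |(x : ℝ) / 384 - n0| = |(c0.M : ℝ)| / 384 := by
        rw [hM0]; push_cast
        rw [show (x : ℝ) / 384 - n0 = ((x : ℝ) - 384 * n0) / 384 by ring, abs_div,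
          abs_of_pos (by norm_num : (0:ℝ) < 384)]
      rw [h4, abs_sub_comm, ← hn0] at h3
      have h6 : (|c0.M| : ℤ) - H ≤ ubOf H R l := by
        have : ((|c0.M| - H : ℤ) : ℝ) ≤ (ubOf H R l : ℝ) := by push_cast; linarith
        exact_mod_cast this
      exact h6
  · refine ⟨c1, ?_, Or.inr ⟨hb1, n1, hM1, by rw [min_eq_right h, hn1]⟩⟩
    rw [hsl]
    apply mem_prune
    · rw [hl]; exact List.mem_append_right _ hc1
    · have h5 : tolOf H R c1.b = R := by rw [hb1]; rfl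
      rw [h5]
      rw [min_eq_right h] at hub
      have h3 : |(y : ℝ) / 384 - n1| ≤ |(y : ℝ) / 384 - Y| + |Y - n1| := abs_sub_le ((y : ℝ) / 384) Y n1
      have h4 : |(y : ℝ) / 384 - n1| = |(c1.M : ℝ)| / 384 := by
        rw [hM1]; push_cast
        rw [show (y : ℝ) / 384 - n1 = ((y : ℝ) - 384 * n1) / 384 by ring, abs_div,
          abs_of_pos (by norm_num : (0:ℝ) < 384)]
      rw [h4, abs_sub_comm, ← hn1] at h3
      have h6 : (|c1.M| : ℤ) - R ≤ ubOf H R l := by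
        have : ((|c1.M| - R : ℤ) : ℝ) ≤ (ubOf H R l : ℝ) := by push_cast; linarith
        exact_mod_cast this
      exact h6

/-- options are congruent to `q` modulo 384, with `|S| ≤ 2` -/
theorem optOf_spec (q tol S : ℤ) (hS : |S| ≤ 2) :
    |(optOf q tol S).S| ≤ 2 ∧ ∃ n : ℤ, (optOf q tol S).T = q - 384 * n := by
  have h : optOf q tol S = ⟨q % 384, 2⟩ ∨ optOf q tol S = ⟨frI q, S⟩ := by
    unfold optOf
    show cond (leB tol (absI (frI q))) _ _ = _ ∨ cond (leB tol (absI (frI q))) _ _ = _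
    cases leB tol (absI (frI q)) with
    | true => left; rfl
    | false => right; rfl
  rcases h with h | h
  · rw [h]
    refine ⟨by norm_num, q / 384, ?_⟩
    have := Int.emod_add_mul_ediv q 384
    show q % 384 = _
    linarith
  · rw [h]
    obtain ⟨n, hn, _, _⟩ := frI_spec q
    exact ⟨hS, n, hn⟩

/-- lower bound for `Ee` from a candidate and an option -/
theorem Ee_lb {X Y : ℝ} {x y M T S : ℤ} {b : Bool}
    (hc : (b = false ∧ ∃ n : ℤ, M = x - 384 * n ∧ min (nd X) (nd Y) = |X - n|) ∨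
      (b = true ∧ ∃ n : ℤ, M = y - 384 * n ∧ min (nd X) (nd Y) = |Y - n|))
    (hS : |S| ≤ 2) (hT : ∃ n : ℤ, T = (x - y) - 384 * n) :
    ((2 * M * M + T * (192 * S - T) : ℤ) : ℝ) / 294912
      + 2 * ((M : ℝ) / 384) * ((1 - ((boolI b : ℤ) : ℝ)) * (X - (x : ℝ) / 384)
          + ((boolI b : ℤ) : ℝ) * (Y - (y : ℝ) / 384))
      + (((96 * S - T : ℤ) : ℝ) / 384) * ((X - (x : ℝ) / 384) - (Y - (y : ℝ) / 384))
      - ((X - (x : ℝ) / 384) - (Y - (y : ℝ) / 384)) ^ 2 / 2 ≤ Ee X Y := by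
  obtain ⟨nT, hnT⟩ := hT
  have hS' : |(S : ℝ) / 4| ≤ 1/2 := by
    rw [abs_div, abs_of_pos (by norm_num : (0:ℝ) < 4)]
    have : |(S : ℝ)| ≤ 2 := by exact_mod_cast hS
    linarith
  have htau := tau_ge (X - Y) nT ((S : ℝ) / 4) hS'
  have hTr : (T : ℝ) = (x : ℝ) - y - 384 * nT := by rw [hnT]; push_cast; ring
  set ξ := X - (x : ℝ) / 384 with hξ
  set ζ := Y - (y : ℝ) / 384 with hζ
  have ht : X - Y - nT = (T : ℝ) / 384 + (ξ - ζ) := by rw [hTr, hξ, hζ]; ring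
  rw [ht] at htau
  have hm : ((M : ℝ) / 384) ^ 2 + 2 * ((M : ℝ) / 384) * ((1 - ((boolI b : ℤ) : ℝ)) * ξ
      + ((boolI b : ℤ) : ℝ) * ζ) ≤ (min (nd X) (nd Y)) ^ 2 := by
    rcases hc with ⟨rfl, n, hM, hmin⟩ | ⟨rfl, n, hM, hmin⟩
    · have e : X - n = (M : ℝ) / 384 + ξ := by rw [hM, hξ]; push_cast; ring
      rw [hmin, sq_abs, e]
      simp only [boolI, cond_false, Int.cast_zero]
      nlinarith [sq_nonneg ξ]
    · have e : Y - n = (M : ℝ) / 384 + ζ := by rw [hM, hζ]; push_cast; ring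
      rw [hmin, sq_abs, e]
      simp only [boolI, cond_true, Int.cast_one]
      nlinarith [sq_nonneg ζ]
  unfold Ee
  push_cast
  nlinarith [htau, hm]

end Pool.Agent.Lib.P37.Chk
end

section

/-!
# Soundness of the box checker: the inequality `core`
-/

namespace Pool.Agent.Lib.P37.Chk

open Real Pool.Agent.Lib.P37

/-- `core` in standard form -/
def coreZ (H r Cs dg1 dg2 dg3 e1 e2 e3 M1 M2 M3 w1 w2 w3 EE1 EE2 EE3 L1 L2 L3 b1 b2 b3 d1 d2 d3 : ℤ) : ℤ :=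
  ((L1 * EE1 + (L2 * EE2 + L3 * EE3)) * 33 + 23000 * Cs - 883691520) * 1000000000000
    - (H * (|33 * (L1 * (2 * M1 * (1 - b1) + w1) + L3 * (2 * M3 * b3 - w3)) + 23000 * dg1|
      + (|33 * (L2 * (2 * M2 * (1 - b2) + w2) + L1 * (2 * M1 * b1 - w1)) + 23000 * dg2|
      + |33 * (L3 * (2 * M3 * (1 - b3) + w3) + L2 * (2 * M2 * b2 - w2)) + 23000 * dg3|))) * 2000000000000
    - (r * ((12800 * (165 * L3 * d3 + 115000 * e1 - 430848 * L2) - 539 * EE2 * L2)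
      + ((12800 * (165 * L1 * d1 + 115000 * e2 - 430848 * L3) - 539 * EE3 * L3)
      + (12800 * (165 * L2 * d2 + 115000 * e3 - 430848 * L1) - 539 * EE1 * L1))
      - 3 * (min (12800 * (165 * L3 * d3 + 115000 * e1 - 430848 * L2) - 539 * EE2 * L2)
          (min (12800 * (165 * L1 * d1 + 115000 * e2 - 430848 * L3) - 539 * EE3 * L3)
            (12800 * (165 * L2 * d2 + 115000 * e3 - 430848 * L1) - 539 * EE1 * L1))))) * 120000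
    - (H * H) * 270000000000000000 - (H * r) * 1986500000000000
    - (r * r) * (4613900000000 + 3892838400 * max 0 (1000 - 3 * min L1 (min L2 L3)))

theorem core_spec {H r Cs dg1 dg2 dg3 e1 e2 e3 M1 M2 M3 w1 w2 w3 EE1 EE2 EE3 L1 L2 L3 b1 b2 b3
    d1 d2 d3 : ℤ}
    (h : core H r Cs dg1 dg2 dg3 e1 e2 e3 M1 M2 M3 w1 w2 w3 EE1 EE2 EE3 L1 L2 L3 b1 b2 b3 d1 d2 d3
      = true) :
    1 ≤ coreZ H r Cs dg1 dg2 dg3 e1 e2 e3 M1 M2 M3 w1 w2 w3 EE1 EE2 EE3 L1 L2 L3 b1 b2 b3 d1 d2 d3 ∧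
    0 ≤ min L1 (min L2 L3) ∧ L1 ≤ 500 ∧ L2 ≤ 500 ∧ L3 ≤ 500 ∧ |M1| ≤ 230 ∧ |M2| ≤ 230 ∧ |M3| ≤ 230 ∧
    |w1| ≤ 230 ∧ |w2| ≤ 230 ∧ |w3| ≤ 230 := by
  unfold core at h
  simp only [Bool.and_eq_true, isNN_iff, leB_iff, absI_eq, minI_eq, maxI_eq] at h
  obtain ⟨⟨⟨⟨⟨⟨⟨⟨⟨⟨h1, h2⟩, h3⟩, h4⟩, h5⟩, h6⟩, h7⟩, h8⟩, h9⟩, h10⟩, h11⟩ := h
  refine ⟨?_, h2, h3, h4, h5, h6, h7, h8, h9, h10, h11⟩
  have h1' : 0 ≤ coreZ H r Cs dg1 dg2 dg3 e1 e2 e3 M1 M2 M3 w1 w2 w3 EE1 EE2 EE3 L1 L2 L3 b1 b2 b3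
    d1 d2 d3 - 1 := h1
  linarith

/-- the real form of the inequality -/
theorem core_real {H r Cs dg1 dg2 dg3 e1 e2 e3 M1 M2 M3 w1 w2 w3 EE1 EE2 EE3 L1 L2 L3 b1 b2 b3
    d1 d2 d3 : ℤ} (hH : 0 ≤ H) (hr : 0 ≤ r)
    (h : 1 ≤ coreZ H r Cs dg1 dg2 dg3 e1 e2 e3 M1 M2 M3 w1 w2 w3 EE1 EE2 EE3 L1 L2 L3 b1 b2 b3 d1 d2 d3)
    (hw1 : d1 = w1 - 2 * M1 * b1) (hw2 : d2 = w2 - 2 * M2 * b2) (hw3 : d3 = w3 - 2 * M3 * b3) :
    0 < ((L1 : ℝ) / 1000 * ((EE1 : ℝ) / 294912) + (L2 : ℝ) / 1000 * ((EE2 : ℝ) / 294912)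
        + (L3 : ℝ) / 1000 * ((EE3 : ℝ) / 294912)) + 23/22 * ((Cs : ℝ) / 442368) - 0.0908
      - (H : ℝ) / 384 * (|(L1 : ℝ) / 1000 * (2 * ((M1 : ℝ) / 384) * (1 - (b1 : ℝ)) + (w1 : ℝ) / 384)
          + (L3 : ℝ) / 1000 * (2 * ((M3 : ℝ) / 384) * (b3 : ℝ) - (w3 : ℝ) / 384) + 23/22 * ((dg1 : ℝ) / 576)|
        + |(L2 : ℝ) / 1000 * (2 * ((M2 : ℝ) / 384) * (1 - (b2 : ℝ)) + (w2 : ℝ) / 384)
          + (L1 : ℝ) / 1000 * (2 * ((M1 : ℝ) / 384) * (b1 : ℝ) - (w1 : ℝ) / 384) + 23/22 * ((dg2 : ℝ) / 576)|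
        + |(L3 : ℝ) / 1000 * (2 * ((M3 : ℝ) / 384) * (1 - (b3 : ℝ)) + (w3 : ℝ) / 384)
          + (L2 : ℝ) / 1000 * (2 * ((M2 : ℝ) / 384) * (b2 : ℝ) - (w2 : ℝ) / 384) + 23/22 * ((dg3 : ℝ) / 576)|)
      - (r : ℝ) / 100000 * (((L3 : ℝ) / 1000 * ((w3 : ℝ) / 384 - 2 * ((M3 : ℝ) / 384) * (b3 : ℝ))
            + 23/22 * ((e1 : ℝ) / 576) - (L2 : ℝ) / 1000 * (6.8 + 0.196 * ((EE2 : ℝ) / 294912)))
        + ((L1 : ℝ) / 1000 * ((w1 : ℝ) / 384 - 2 * ((M1 : ℝ) / 384) * (b1 : ℝ))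
            + 23/22 * ((e2 : ℝ) / 576) - (L3 : ℝ) / 1000 * (6.8 + 0.196 * ((EE3 : ℝ) / 294912)))
        + ((L2 : ℝ) / 1000 * ((w2 : ℝ) / 384 - 2 * ((M2 : ℝ) / 384) * (b2 : ℝ))
            + 23/22 * ((e3 : ℝ) / 576) - (L1 : ℝ) / 1000 * (6.8 + 0.196 * ((EE1 : ℝ) / 294912)))
        - 3 * (((min (12800 * (165 * L3 * d3 + 115000 * e1 - 430848 * L2) - 539 * EE2 * L2)
          (min (12800 * (165 * L1 * d1 + 115000 * e2 - 430848 * L3) - 539 * EE3 * L3)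
            (12800 * (165 * L2 * d2 + 115000 * e3 - 430848 * L1) - 539 * EE1 * L1)) : ℤ) : ℝ)
              / 811008000000))
      - (2 * ((H : ℝ) / 384) ^ 2 + 4 * ((H : ℝ) / 384 * ((r : ℝ) / 100000)) + 3/2 * ((r : ℝ) / 100000) ^ 2)
      - (1.05 * ((H : ℝ) / 384 * ((r : ℝ) / 100000)) + 1.15 * ((r : ℝ) / 100000) ^ 2)
      - 23/22 * (2 * ((H : ℝ) / 384) ^ 2 + 8/3 * ((H : ℝ) / 384 * ((r : ℝ) / 100000))
          + 2 * ((r : ℝ) / 100000) ^ 2)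
      - 4 * (((max 0 (1000 - 3 * min L1 (min L2 L3)) : ℤ) : ℝ) / 1000) * ((r : ℝ) / 100000) ^ 2 := by
  unfold coreZ at h
  set cm := min (12800 * (165 * L3 * d3 + 115000 * e1 - 430848 * L2) - 539 * EE2 * L2)
          (min (12800 * (165 * L1 * d1 + 115000 * e2 - 430848 * L3) - 539 * EE3 * L3)
            (12800 * (165 * L2 * d2 + 115000 * e3 - 430848 * L1) - 539 * EE1 * L1)) with hcm
  set lm := max 0 (1000 - 3 * min L1 (min L2 L3)) with hlm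
  have hlm0 : 0 ≤ lm := le_max_left _ _
  set G1 := 33 * (L1 * (2 * M1 * (1 - b1) + w1) + L3 * (2 * M3 * b3 - w3)) + 23000 * dg1 with hG1
  set G2 := 33 * (L2 * (2 * M2 * (1 - b2) + w2) + L1 * (2 * M1 * b1 - w1)) + 23000 * dg2 with hG2
  set G3 := 33 * (L3 * (2 * M3 * (1 - b3) + w3) + L2 * (2 * M2 * b2 - w2)) + 23000 * dg3 with hG3
  have eG1 : (L1 : ℝ) / 1000 * (2 * ((M1 : ℝ) / 384) * (1 - (b1 : ℝ)) + (w1 : ℝ) / 384)
          + (L3 : ℝ) / 1000 * (2 * ((M3 : ℝ) / 384) * (b3 : ℝ) - (w3 : ℝ) / 384) + 23/22 * ((dg1 : ℝ) / 576)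
          = (G1 : ℝ) / 12672000 := by
    rw [hG1]; push_cast; ring
  have eG2 : (L2 : ℝ) / 1000 * (2 * ((M2 : ℝ) / 384) * (1 - (b2 : ℝ)) + (w2 : ℝ) / 384)
          + (L1 : ℝ) / 1000 * (2 * ((M1 : ℝ) / 384) * (b1 : ℝ) - (w1 : ℝ) / 384) + 23/22 * ((dg2 : ℝ) / 576)
          = (G2 : ℝ) / 12672000 := by
    rw [hG2]; push_cast; ring
  have eG3 : (L3 : ℝ) / 1000 * (2 * ((M3 : ℝ) / 384) * (1 - (b3 : ℝ)) + (w3 : ℝ) / 384)
          + (L2 : ℝ) / 1000 * (2 * ((M2 : ℝ) / 384) * (b2 : ℝ) - (w2 : ℝ) / 384) + 23/22 * ((dg3 : ℝ) / 576)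
          = (G3 : ℝ) / 12672000 := by
    rw [hG3]; push_cast; ring
  rw [eG1, eG2, eG3, abs_div, abs_div, abs_div, abs_of_pos (by norm_num : (0:ℝ) < 12672000)]
  have hreal : (1 : ℝ) ≤ (((L1 * EE1 + (L2 * EE2 + L3 * EE3)) * 33 + 23000 * Cs - 883691520) * 1000000000000
    - (H * (|G1| + (|G2| + |G3|))) * 2000000000000
    - (r * ((12800 * (165 * L3 * d3 + 115000 * e1 - 430848 * L2) - 539 * EE2 * L2)
      + ((12800 * (165 * L1 * d1 + 115000 * e2 - 430848 * L3) - 539 * EE3 * L3)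
      + (12800 * (165 * L2 * d2 + 115000 * e3 - 430848 * L1) - 539 * EE1 * L1))
      - 3 * cm)) * 120000
    - (H * H) * 270000000000000000 - (H * r) * 1986500000000000
    - (r * r) * (4613900000000 + 3892838400 * lm) : ℤ) := by exact_mod_cast h
  push_cast at hreal
  have hr' : (0 : ℝ) ≤ r := by exact_mod_cast hr
  have hH' : (0 : ℝ) ≤ H := by exact_mod_cast hH
  have hlm' : (0 : ℝ) ≤ lm := by exact_mod_cast hlm0
  have hHr : (0 : ℝ) ≤ H * r := mul_nonneg hH' hr'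
  have hrr : (0 : ℝ) ≤ r * r := mul_nonneg hr' hr'
  have key : 0 < 9732096000 * (1000000000000 : ℝ) * (((L1 : ℝ) / 1000 * ((EE1 : ℝ) / 294912) + (L2 : ℝ) / 1000 * ((EE2 : ℝ) / 294912)
        + (L3 : ℝ) / 1000 * ((EE3 : ℝ) / 294912)) + 23/22 * ((Cs : ℝ) / 442368) - 0.0908
      - (H : ℝ) / 384 * (|(G1 : ℝ)| / 12672000 + |(G2 : ℝ)| / 12672000 + |(G3 : ℝ)| / 12672000)
      - (r : ℝ) / 100000 * (((L3 : ℝ) / 1000 * ((w3 : ℝ) / 384 - 2 * ((M3 : ℝ) / 384) * (b3 : ℝ))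
            + 23/22 * ((e1 : ℝ) / 576) - (L2 : ℝ) / 1000 * (6.8 + 0.196 * ((EE2 : ℝ) / 294912)))
        + ((L1 : ℝ) / 1000 * ((w1 : ℝ) / 384 - 2 * ((M1 : ℝ) / 384) * (b1 : ℝ))
            + 23/22 * ((e2 : ℝ) / 576) - (L3 : ℝ) / 1000 * (6.8 + 0.196 * ((EE3 : ℝ) / 294912)))
        + ((L2 : ℝ) / 1000 * ((w2 : ℝ) / 384 - 2 * ((M2 : ℝ) / 384) * (b2 : ℝ))
            + 23/22 * ((e3 : ℝ) / 576) - (L1 : ℝ) / 1000 * (6.8 + 0.196 * ((EE1 : ℝ) / 294912)))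
        - 3 * ((cm : ℝ) / 811008000000))
      - (2 * ((H : ℝ) / 384) ^ 2 + 4 * ((H : ℝ) / 384 * ((r : ℝ) / 100000)) + 3/2 * ((r : ℝ) / 100000) ^ 2)
      - (1.05 * ((H : ℝ) / 384 * ((r : ℝ) / 100000)) + 1.15 * ((r : ℝ) / 100000) ^ 2)
      - 23/22 * (2 * ((H : ℝ) / 384) ^ 2 + 8/3 * ((H : ℝ) / 384 * ((r : ℝ) / 100000))
          + 2 * ((r : ℝ) / 100000) ^ 2)
      - 4 * ((lm : ℝ) / 1000) * ((r : ℝ) / 100000) ^ 2) := by
    rw [hw1, hw2, hw3] at hreal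
    push_cast at hreal
    nlinarith only [hreal, hHr, hrr]
  have hpos : (0 : ℝ) < 9732096000 * (1000000000000 : ℝ) := by norm_num
  exact (mul_pos_iff_of_pos_left hpos).mp key

end Pool.Agent.Lib.P37.Chk
end

section

/-!
# Soundness of the box checker: one evaluation gives a contradiction
-/

namespace Pool.Agent.Lib.P37.Chk

open Real Pool.Agent.Lib.P37

/-- the data of a point: angle deviations and phases, with all three basic bounds negative -/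
structure Pt (X1 X2 X3 D1 D2 D3 : ℝ) : Prop where
  sum : D1 + D2 + D3 = 0
  h1 : |D1| ≤ 0.07
  h2 : |D2| ≤ 0.07
  h3 : |D3| ≤ 0.07
  M1 : MI X1 X2 X3 D1 D2 D3 < 0
  M2 : MI X2 X3 X1 D2 D3 D1 < 0
  M3 : MI X3 X1 X2 D3 D1 D2 < 0

theorem Pt.rot {X1 X2 X3 D1 D2 D3 : ℝ} (h : Pt X1 X2 X3 D1 D2 D3) : Pt X2 X3 X1 D2 D3 D1 :=
  ⟨by linarith [h.sum], h.h2, h.h3, h.h1, h.M2, h.M3, h.M1⟩

theorem core_false {X1 X2 X3 D1 D2 D3 : ℝ} (hp : Pt X1 X2 X3 D1 D2 D3)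
    {A1 A2 A3 H r Cs dg1 dg2 dg3 e1 e2 e3 M1 M2 M3 w1 w2 w3 EE1 EE2 EE3 L1 L2 L3 b1 b2 b3
      d1 d2 d3 : ℤ}
    (hH : 0 ≤ H) (hH' : H ≤ 16)
    (hX1 : |X1 - (A1 : ℝ) / 384| ≤ (H : ℝ) / 384) (hX2 : |X2 - (A2 : ℝ) / 384| ≤ (H : ℝ) / 384)
    (hX3 : |X3 - (A3 : ℝ) / 384| ≤ (H : ℝ) / 384)
    (hD1 : -((r : ℝ) / 100000) ≤ D1) (hD2 : -((r : ℝ) / 100000) ≤ D2) (hD3 : -((r : ℝ) / 100000) ≤ D3)
    (hCs : Cc ((A1 : ℝ) / 384) + Cc ((A2 : ℝ) / 384) + Cc ((A3 : ℝ) / 384) = (Cs : ℝ) / 442368)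
    (he1 : g1 ((A1 : ℝ) / 384 - 1/6) = (e1 : ℝ) / 576) (he2 : g1 ((A2 : ℝ) / 384 - 1/6) = (e2 : ℝ) / 576)
    (he3 : g1 ((A3 : ℝ) / 384 - 1/6) = (e3 : ℝ) / 576)
    (hg1 : g1 ((A1 : ℝ) / 384) - g1 ((A1 : ℝ) / 384 - 1/6) = (dg1 : ℝ) / 576)
    (hg2 : g1 ((A2 : ℝ) / 384) - g1 ((A2 : ℝ) / 384 - 1/6) = (dg2 : ℝ) / 576)
    (hg3 : g1 ((A3 : ℝ) / 384) - g1 ((A3 : ℝ) / 384 - 1/6) = (dg3 : ℝ) / 576)
    (hb1 : (b1 : ℝ) = 0 ∨ (b1 : ℝ) = 1) (hb2 : (b2 : ℝ) = 0 ∨ (b2 : ℝ) = 1)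
    (hb3 : (b3 : ℝ) = 0 ∨ (b3 : ℝ) = 1)
    (E1 : (EE1 : ℝ) / 294912 + 2 * ((M1 : ℝ) / 384) * ((1 - (b1 : ℝ)) * (X1 - (A1 : ℝ) / 384)
        + (b1 : ℝ) * ((X2 - (A2 : ℝ) / 384) - D2))
        + (w1 : ℝ) / 384 * ((X1 - (A1 : ℝ) / 384) - (X2 - (A2 : ℝ) / 384) + D2)
        - ((X1 - (A1 : ℝ) / 384) - (X2 - (A2 : ℝ) / 384) + D2) ^ 2 / 2 ≤ Ee X1 (X2 - 1/6 - D2))
    (E2 : (EE2 : ℝ) / 294912 + 2 * ((M2 : ℝ) / 384) * ((1 - (b2 : ℝ)) * (X2 - (A2 : ℝ) / 384)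
        + (b2 : ℝ) * ((X3 - (A3 : ℝ) / 384) - D3))
        + (w2 : ℝ) / 384 * ((X2 - (A2 : ℝ) / 384) - (X3 - (A3 : ℝ) / 384) + D3)
        - ((X2 - (A2 : ℝ) / 384) - (X3 - (A3 : ℝ) / 384) + D3) ^ 2 / 2 ≤ Ee X2 (X3 - 1/6 - D3))
    (E3 : (EE3 : ℝ) / 294912 + 2 * ((M3 : ℝ) / 384) * ((1 - (b3 : ℝ)) * (X3 - (A3 : ℝ) / 384)
        + (b3 : ℝ) * ((X1 - (A1 : ℝ) / 384) - D1))
        + (w3 : ℝ) / 384 * ((X3 - (A3 : ℝ) / 384) - (X1 - (A1 : ℝ) / 384) + D1)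
        - ((X3 - (A3 : ℝ) / 384) - (X1 - (A1 : ℝ) / 384) + D1) ^ 2 / 2 ≤ Ee X3 (X1 - 1/6 - D1))
    (hL : L3 = 1000 - L1 - L2)
    (hw1' : d1 = w1 - 2 * M1 * b1) (hw2' : d2 = w2 - 2 * M2 * b2) (hw3' : d3 = w3 - 2 * M3 * b3)
    (h : core H r Cs dg1 dg2 dg3 e1 e2 e3 M1 M2 M3 w1 w2 w3 EE1 EE2 EE3 L1 L2 L3 b1 b2 b3 d1 d2 d3
      = true) : False := by
  obtain ⟨hcore, hmn, hL1, hL2, hL3, hM1, hM2, hM3, hw1, hw2, hw3⟩ := core_spec h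
  have hr0 : (0 : ℝ) ≤ (r : ℝ) / 100000 := by linarith [hp.sum]
  have hr : 0 ≤ r := by
    have : (0 : ℝ) ≤ r := by linarith
    exact_mod_cast this
  have hreal := core_real hH hr hcore hw1' hw2' hw3'
  clear hcore h
  have hmn1 : 0 ≤ L1 := hmn.trans (min_le_left _ _)
  have hmn2 : 0 ≤ L2 := hmn.trans ((min_le_right _ _).trans (min_le_left _ _))
  have hmn3 : 0 ≤ L3 := hmn.trans ((min_le_right _ _).trans (min_le_right _ _))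
  have hmu : 0 ≤ max 0 (1000 - 3 * min L1 (min L2 L3)) := le_max_left _ _
  have hmu' : 1000 - 3 * min L1 (min L2 L3) ≤ max 0 (1000 - 3 * min L1 (min L2 L3)) := le_max_right _ _
  have hmu1 : 1000 - 3 * L1 ≤ max 0 (1000 - 3 * min L1 (min L2 L3)) := by
    have := min_le_left L1 (min L2 L3); linarith
  have hmu2 : 1000 - 3 * L2 ≤ max 0 (1000 - 3 * min L1 (min L2 L3)) := by
    have := (min_le_right L1 (min L2 L3)).trans (min_le_left _ _); linarith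
  have hmu3 : 1000 - 3 * L3 ≤ max 0 (1000 - 3 * min L1 (min L2 L3)) := by
    have := (min_le_right L1 (min L2 L3)).trans (min_le_right _ _); linarith
  generalize max 0 (1000 - 3 * min L1 (min L2 L3)) = mu at hreal hmu hmu' hmu1 hmu2 hmu3
  have cm1 := min_le_left (12800 * (165 * L3 * d3 + 115000 * e1 - 430848 * L2) - 539 * EE2 * L2)
          (min (12800 * (165 * L1 * d1 + 115000 * e2 - 430848 * L3) - 539 * EE3 * L3)
            (12800 * (165 * L2 * d2 + 115000 * e3 - 430848 * L1) - 539 * EE1 * L1))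
  have cmr := min_le_right (12800 * (165 * L3 * d3 + 115000 * e1 - 430848 * L2) - 539 * EE2 * L2)
          (min (12800 * (165 * L1 * d1 + 115000 * e2 - 430848 * L3) - 539 * EE3 * L3)
            (12800 * (165 * L2 * d2 + 115000 * e3 - 430848 * L1) - 539 * EE1 * L1))
  have cm2 := cmr.trans (min_le_left _ _)
  have cm3 := cmr.trans (min_le_right _ _)
  generalize min (12800 * (165 * L3 * d3 + 115000 * e1 - 430848 * L2) - 539 * EE2 * L2)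
          (min (12800 * (165 * L1 * d1 + 115000 * e2 - 430848 * L3) - 539 * EE3 * L3)
            (12800 * (165 * L2 * d2 + 115000 * e3 - 430848 * L1) - 539 * EE1 * L1)) = cm at hreal cm1 cmr cm2 cm3
  -- casts
  have rL1 : (0 : ℝ) ≤ (L1 : ℝ) / 1000 := by
    have : (0 : ℝ) ≤ L1 := by exact_mod_cast hmn1
    linarith
  have rL2 : (0 : ℝ) ≤ (L2 : ℝ) / 1000 := by
    have : (0 : ℝ) ≤ L2 := by exact_mod_cast hmn2
    linarith
  have rL3 : (0 : ℝ) ≤ (L3 : ℝ) / 1000 := by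
    have : (0 : ℝ) ≤ (L3 : ℝ) := by exact_mod_cast hmn3
    linarith
  have rsum : (L1 : ℝ) / 1000 + (L2 : ℝ) / 1000 + (L3 : ℝ) / 1000 = 1 := by
    rw [hL]; push_cast; ring
  have rL1' : (L1 : ℝ) / 1000 ≤ 1/2 := by
    have : (L1 : ℝ) ≤ 500 := by exact_mod_cast hL1
    linarith
  have rL2' : (L2 : ℝ) / 1000 ≤ 1/2 := by
    have : (L2 : ℝ) ≤ 500 := by exact_mod_cast hL2
    linarith
  have rL3' : (L3 : ℝ) / 1000 ≤ 1/2 := by
    have : (L3 : ℝ) ≤ 500 := by exact_mod_cast hL3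
    linarith
  have rmu : (0 : ℝ) ≤ (mu : ℝ) / 1000 := by
    have : (0 : ℝ) ≤ mu := by exact_mod_cast hmu
    linarith
  have rmu1 : 1 - 3 * ((L1 : ℝ) / 1000) ≤ (mu : ℝ) / 1000 := by
    have : ((1000 - 3 * L1 : ℤ) : ℝ) ≤ mu := by exact_mod_cast hmu1
    push_cast at this; linarith
  have rmu2 : 1 - 3 * ((L2 : ℝ) / 1000) ≤ (mu : ℝ) / 1000 := by
    have : ((1000 - 3 * L2 : ℤ) : ℝ) ≤ mu := by exact_mod_cast hmu2
    push_cast at this; linarith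
  have rmu3 : 1 - 3 * ((L3 : ℝ) / 1000) ≤ (mu : ℝ) / 1000 := by
    have : ((1000 - 3 * L3 : ℤ) : ℝ) ≤ mu := by exact_mod_cast hmu3
    push_cast at this; linarith
  have rabs : ∀ z : ℤ, |z| ≤ 230 → |(z : ℝ) / 384| ≤ 3/5 := by
    intro z hz
    rw [abs_div, abs_of_pos (by norm_num : (0:ℝ) < 384)]
    have : |(z : ℝ)| ≤ 230 := by exact_mod_cast hz
    linarith
  have hh : (H : ℝ) / 384 ≤ 1/24 := by
    have : (H : ℝ) ≤ 16 := by exact_mod_cast hH'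
    linarith
  have scale : ∀ z w : ℤ, z ≤ w → (z : ℝ) / 811008000000 ≤ (w : ℝ) / 811008000000 := by
    intro z w hzw
    have : (z : ℝ) ≤ w := by exact_mod_cast hzw
    linarith
  have LB := LB_real (X1 := X1) (X2 := X2) (X3 := X3) (D1 := D1) (D2 := D2) (D3 := D3)
    (a1 := (A1 : ℝ) / 384) (a2 := (A2 : ℝ) / 384) (a3 := (A3 : ℝ) / 384) (h := (H : ℝ) / 384)
    (ρ := (r : ℝ) / 100000) (l1 := (L1 : ℝ) / 1000) (l2 := (L2 : ℝ) / 1000) (l3 := (L3 : ℝ) / 1000)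
    (m1 := (M1 : ℝ) / 384) (m2 := (M2 : ℝ) / 384) (m3 := (M3 : ℝ) / 384)
    (w1 := (w1 : ℝ) / 384) (w2 := (w2 : ℝ) / 384) (w3 := (w3 : ℝ) / 384)
    (b1 := (b1 : ℝ)) (b2 := (b2 : ℝ)) (b3 := (b3 : ℝ))
    (Ec1 := (EE1 : ℝ) / 294912) (Ec2 := (EE2 : ℝ) / 294912) (Ec3 := (EE3 : ℝ) / 294912)
    (cm := (cm : ℝ) / 811008000000) (μ := (mu : ℝ) / 1000)
    hp.sum hD1 hD2 hD3 hp.h1 hp.h2 hp.h3 hh hX1 hX2 hX3 rL1 rL2 rL3 rsum rL1' rL2' rL3' rmu rmu1 rmu2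
    rmu3 (rabs _ hM1) (rabs _ hM2) (rabs _ hM3) (rabs _ hw1) (rabs _ hw2) (rabs _ hw3)
    hb1 hb2 hb3 E1 E2 E3 hp.M1 hp.M2 hp.M3
    (by
      refine (scale _ _ cm1).trans (le_of_eq ?_)
      rw [he1, hw3']
      push_cast
      ring)
    (by
      refine (scale _ _ cm2).trans (le_of_eq ?_)
      rw [he2, hw1']
      push_cast
      ring)
    (by
      refine (scale _ _ cm3).trans (le_of_eq ?_)
      rw [he3, hw2']
      push_cast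
      ring)
  rw [hCs, hg1, hg2, hg3, he1, he2, he3] at LB
  linarith only [hreal, LB]

end Pool.Agent.Lib.P37.Chk
end

section

/-!
# Soundness of the box checker: a box without V
-/

namespace Pool.Agent.Lib.P37.Chk

open Real Pool.Agent.Lib.P37

theorem evalOne_false {X1 X2 X3 D1 D2 D3 : ℝ} (hp : Pt X1 X2 X3 D1 D2 D3)
    {A1 A2 A3 H r Cs dg1 dg2 dg3 e1 e2 e3 : ℤ} {c1 c2 c3 : Cd} {o1 o2 o3 : Op}
    (hH : 0 ≤ H) (hH' : H ≤ 16)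
    (hX1 : |X1 - (A1 : ℝ) / 384| ≤ (H : ℝ) / 384) (hX2 : |X2 - (A2 : ℝ) / 384| ≤ (H : ℝ) / 384)
    (hX3 : |X3 - (A3 : ℝ) / 384| ≤ (H : ℝ) / 384)
    (hD1 : -((r : ℝ) / 100000) ≤ D1) (hD2 : -((r : ℝ) / 100000) ≤ D2) (hD3 : -((r : ℝ) / 100000) ≤ D3)
    (hCs : Cc ((A1 : ℝ) / 384) + Cc ((A2 : ℝ) / 384) + Cc ((A3 : ℝ) / 384) = (Cs : ℝ) / 442368)
    (he1 : g1 ((A1 : ℝ) / 384 - 1/6) = (e1 : ℝ) / 576) (he2 : g1 ((A2 : ℝ) / 384 - 1/6) = (e2 : ℝ) / 576)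
    (he3 : g1 ((A3 : ℝ) / 384 - 1/6) = (e3 : ℝ) / 576)
    (hg1 : g1 ((A1 : ℝ) / 384) - g1 ((A1 : ℝ) / 384 - 1/6) = (dg1 : ℝ) / 576)
    (hg2 : g1 ((A2 : ℝ) / 384) - g1 ((A2 : ℝ) / 384 - 1/6) = (dg2 : ℝ) / 576)
    (hg3 : g1 ((A3 : ℝ) / 384) - g1 ((A3 : ℝ) / 384 - 1/6) = (dg3 : ℝ) / 576)
    (hc1 : (c1.b = false ∧ ∃ n : ℤ, c1.M = A1 - 384 * n ∧ min (nd X1) (nd (X2 - 1/6 - D2)) = |X1 - n|) ∨
      (c1.b = true ∧ ∃ n : ℤ, c1.M = (A2 - 64) - 384 * n ∧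
        min (nd X1) (nd (X2 - 1/6 - D2)) = |(X2 - 1/6 - D2) - n|))
    (hc2 : (c2.b = false ∧ ∃ n : ℤ, c2.M = A2 - 384 * n ∧ min (nd X2) (nd (X3 - 1/6 - D3)) = |X2 - n|) ∨
      (c2.b = true ∧ ∃ n : ℤ, c2.M = (A3 - 64) - 384 * n ∧
        min (nd X2) (nd (X3 - 1/6 - D3)) = |(X3 - 1/6 - D3) - n|))
    (hc3 : (c3.b = false ∧ ∃ n : ℤ, c3.M = A3 - 384 * n ∧ min (nd X3) (nd (X1 - 1/6 - D1)) = |X3 - n|) ∨
      (c3.b = true ∧ ∃ n : ℤ, c3.M = (A1 - 64) - 384 * n ∧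
        min (nd X3) (nd (X1 - 1/6 - D1)) = |(X1 - 1/6 - D1) - n|))
    (ho1 : |o1.S| ≤ 2 ∧ ∃ n : ℤ, o1.T = (A1 - (A2 - 64)) - 384 * n)
    (ho2 : |o2.S| ≤ 2 ∧ ∃ n : ℤ, o2.T = (A2 - (A3 - 64)) - 384 * n)
    (ho3 : |o3.S| ≤ 2 ∧ ∃ n : ℤ, o3.T = (A3 - (A1 - 64)) - 384 * n)
    (h : evalOne H r Cs dg1 dg2 dg3 e1 e2 e3 c1 c2 c3 o1 o2 o3 = true) : False := by
  have E1 := Ee_lb hc1 ho1.1 ho1.2
  have E2 := Ee_lb hc2 ho2.1 ho2.2
  have E3 := Ee_lb hc3 ho3.1 ho3.2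
  have eqv1 : (X2 - 1/6 - D2) - (((A2 - 64 : ℤ) : ℝ)) / 384 = (X2 - (A2 : ℝ) / 384) - D2 := by
    push_cast; ring
  have eqv2 : (X3 - 1/6 - D3) - (((A3 - 64 : ℤ) : ℝ)) / 384 = (X3 - (A3 : ℝ) / 384) - D3 := by
    push_cast; ring
  have eqv3 : (X1 - 1/6 - D1) - (((A1 - 64 : ℤ) : ℝ)) / 384 = (X1 - (A1 : ℝ) / 384) - D1 := by
    push_cast; ring
  rw [eqv1] at E1
  rw [eqv2] at E2
  rw [eqv3] at E3
  have f1 : (X1 - (A1 : ℝ) / 384) - ((X2 - (A2 : ℝ) / 384) - D2) =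
      (X1 - (A1 : ℝ) / 384) - (X2 - (A2 : ℝ) / 384) + D2 := by ring
  have f2 : (X2 - (A2 : ℝ) / 384) - ((X3 - (A3 : ℝ) / 384) - D3) =
      (X2 - (A2 : ℝ) / 384) - (X3 - (A3 : ℝ) / 384) + D3 := by ring
  have f3 : (X3 - (A3 : ℝ) / 384) - ((X1 - (A1 : ℝ) / 384) - D1) =
      (X3 - (A3 : ℝ) / 384) - (X1 - (A1 : ℝ) / 384) + D1 := by ring
  rw [f1] at E1
  rw [f2] at E2
  rw [f3] at E3
  exact core_false hp hH hH' hX1 hX2 hX3 hD1 hD2 hD3 hCs he1 he2 he3 hg1 hg2 hg3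
    (boolI_cases _) (boolI_cases _) (boolI_cases _) E1 E2 E3 rfl rfl rfl rfl h

theorem decS_le (n : ℕ) (h : n < 5) : |decS n| ≤ 2 := by
  have e : decS n = (n : ℤ) - 2 := rfl
  rw [e, abs_le]
  constructor <;> omega

theorem tryCodes_spec {H r Cs dg1 dg2 dg3 e1 e2 e3 : ℤ} {c1 c2 c3 : Cd} {q1 q2 q3 tol : ℤ} :
    ∀ codes : List ℕ, tryCodes H r Cs dg1 dg2 dg3 e1 e2 e3 c1 c2 c3 q1 q2 q3 tol codes = true →
    ∃ S1 S2 S3 : ℤ, |S1| ≤ 2 ∧ |S2| ≤ 2 ∧ |S3| ≤ 2 ∧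
      evalOne H r Cs dg1 dg2 dg3 e1 e2 e3 c1 c2 c3 (optOf q1 tol S1) (optOf q2 tol S2)
        (optOf q3 tol S3) = true := by
  intro codes
  induction codes with
  | nil => intro h; simp [tryCodes] at h
  | cons s ss ih =>
    intro h
    unfold tryCodes at h
    rw [Bool.or_eq_true] at h
    rcases h with h | h
    · exact ⟨_, _, _, decS_le _ (Nat.mod_lt _ (by norm_num)), decS_le _ (Nat.mod_lt _ (by norm_num)),
        decS_le _ (Nat.mod_lt _ (by norm_num)), h⟩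
    · exact ih h

theorem allL_spec {α : Type} {f : α → Bool} : ∀ {l : List α}, allL f l = true → ∀ x ∈ l, f x = true := by
  intro l
  induction l with
  | nil => intro _ x hx; simp at hx
  | cons a l ih =>
    intro h x hx
    unfold allL at h
    rw [Bool.and_eq_true] at h
    rcases List.mem_cons.mp hx with rfl | hx'
    · exact h.1
    · exact ih h.2 x hx'

/-- the value of `r` bounds `ρ` -/
theorem rho_le_r {A1 A2 A3 H r Cs : ℤ} {X1 X2 X3 : ℝ}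
    (hX1 : |X1 - (A1 : ℝ) / 384| ≤ (H : ℝ) / 384) (hX2 : |X2 - (A2 : ℝ) / 384| ≤ (H : ℝ) / 384)
    (hX3 : |X3 - (A3 : ℝ) / 384| ≤ (H : ℝ) / 384)
    (hCs : Cc ((A1 : ℝ) / 384) + Cc ((A2 : ℝ) / 384) + Cc ((A3 : ℝ) / 384) = (Cs : ℝ) / 442368)
    (hr : r = 1590 + (402500 * (384 * H - Cs)) / 9732096) :
    7/40 * (0.0908 - 23/22 * (Cc X1 + Cc X2 + Cc X3)) ≤ (r : ℝ) / 100000 := by
  have c1 := Cc_lip ((A1 : ℝ) / 384) X1
  have c2 := Cc_lip ((A2 : ℝ) / 384) X2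
  have c3 := Cc_lip ((A3 : ℝ) / 384) X3
  rw [abs_sub_comm] at c1 c2 c3
  have hC : (Cs : ℝ) / 442368 - (H : ℝ) / 384 / 3 ≤ Cc X1 + Cc X2 + Cc X3 := by
    rw [← hCs]; linarith
  have hfl : (402500 * (384 * H - Cs)) / 9732096 * 9732096 > 402500 * (384 * H - Cs) - 9732096 := by
    have := Int.emod_add_mul_ediv (402500 * (384 * H - Cs)) 9732096
    have h2 := Int.emod_lt_of_pos (402500 * (384 * H - Cs)) (by norm_num : (0:ℤ) < 9732096)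
    linarith
  have hr2 : 402500 * (384 * H - Cs) - 9732096 < (r - 1590) * 9732096 := by
    rw [hr]; linarith
  have hr3 : ((402500 * (384 * H - Cs) - 9732096 : ℤ) : ℝ) < ((r - 1590) * 9732096 : ℤ) := by
    exact_mod_cast hr2
  push_cast at hr3
  linarith

theorem g0n_bound (A : ℤ) : |g0n A| ≤ 9216 := by
  obtain ⟨n, h1, h2, h3⟩ := frI_spec A
  have e : g0n A = frI A * (192 - |frI A|) := by
    unfold g0n
    show frI A * (192 - absI (frI A)) = _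
    rw [absI_eq]
  rw [e]
  set f := frI A
  rw [abs_mul]
  have h4 : |f| ≤ 192 := by rw [abs_le]; constructor <;> linarith
  rw [abs_of_nonneg (by linarith : 0 ≤ 192 - |f|)]
  nlinarith [sq_nonneg (|f| - 96)]

theorem Cc_cast (A : ℤ) : Cc ((A : ℝ) / 384) = ((g0n A - g0n (A - 64) : ℤ) : ℝ) / 442368 := by
  unfold Cc
  have e : (A : ℝ) / 384 - 1/6 = ((A - 64 : ℤ) : ℝ) / 384 := by push_cast; ring
  rw [e, g0n_cast, g0n_cast]
  push_cast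
  ring

/-- the tolerance for the angle deviations -/
theorem DR_bounds {X1 X2 X3 D1 D2 D3 : ℝ} (hp : Pt X1 X2 X3 D1 D2 D3)
    {A1 A2 A3 H Cs r DR : ℤ} (_hH : 0 ≤ H) (hH' : H ≤ 16)
    (hX1 : |X1 - (A1 : ℝ) / 384| ≤ (H : ℝ) / 384) (hX2 : |X2 - (A2 : ℝ) / 384| ≤ (H : ℝ) / 384)
    (hX3 : |X3 - (A3 : ℝ) / 384| ≤ (H : ℝ) / 384)
    (hCs : Cs = (g0n A1 - g0n (A1 - 64)) + ((g0n A2 - g0n (A2 - 64)) + (g0n A3 - g0n (A3 - 64))))
    (hr : r = 1590 + (402500 * (384 * H - Cs)) / 9732096) (hDR : DR = (768 * r) / 100000 + 1) :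
    |D1| ≤ (DR : ℝ) / 384 ∧ |D2| ≤ (DR : ℝ) / 384 ∧ |D3| ≤ (DR : ℝ) / 384 ∧ DR ≤ 33 := by
  have hCs' : Cc ((A1 : ℝ) / 384) + Cc ((A2 : ℝ) / 384) + Cc ((A3 : ℝ) / 384) = (Cs : ℝ) / 442368 := by
    rw [Cc_cast, Cc_cast, Cc_cast, hCs]
    push_cast
    ring
  have hρ := rho_le_r hX1 hX2 hX3 hCs' hr
  obtain ⟨k1, k2, k3⟩ := rho_bound hp.sum hp.h1 hp.h2 hp.h3 hp.M1 hp.M2 hp.M3
  have hD1 : -((r : ℝ) / 100000) ≤ D1 := by linarith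
  have hD2 : -((r : ℝ) / 100000) ≤ D2 := by linarith
  have hD3 : -((r : ℝ) / 100000) ≤ D3 := by linarith
  have hDRr : 2 * ((r : ℝ) / 100000) ≤ (DR : ℝ) / 384 := by
    have h1 := Int.emod_add_mul_ediv (768 * r) 100000
    have h2 := Int.emod_lt_of_pos (768 * r) (by norm_num : (0:ℤ) < 100000)
    have h3 : 768 * r ≤ DR * 100000 := by rw [hDR]; linarith
    have h4 : ((768 * r : ℤ) : ℝ) ≤ ((DR * 100000 : ℤ) : ℝ) := by exact_mod_cast h3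
    push_cast at h4
    linarith
  have hs := hp.sum
  have hCsb : -55296 ≤ Cs := by
    have a1 := abs_le.mp (g0n_bound A1)
    have a2 := abs_le.mp (g0n_bound A2)
    have a3 := abs_le.mp (g0n_bound A3)
    have b1 := abs_le.mp (g0n_bound (A1 - 64))
    have b2 := abs_le.mp (g0n_bound (A2 - 64))
    have b3 := abs_le.mp (g0n_bound (A3 - 64))
    rw [hCs]
    linarith [a1.1, a2.1, a3.1, b1.2, b2.2, b3.2]
  have hrb : r ≤ 4132 := by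
    rw [hr]
    have : (402500 * (384 * H - Cs)) / 9732096 ≤ 2542 := by
      apply Int.ediv_le_of_le_mul (by norm_num)
      linarith
    linarith
  have hDRb : DR ≤ 33 := by
    rw [hDR]
    have : (768 * r) / 100000 ≤ 32 := by
      apply Int.ediv_le_of_le_mul (by norm_num)
      linarith
    linarith
  refine ⟨?_, ?_, ?_, hDRb⟩ <;> rw [abs_le] <;> constructor <;> linarith

theorem evalBox_false {X1 X2 X3 D1 D2 D3 : ℝ} (hp : Pt X1 X2 X3 D1 D2 D3)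
    {A1 A2 A3 H : ℤ} {codes : List ℕ} (hH : 0 ≤ H) (hH' : H ≤ 16)
    (hX1 : |X1 - (A1 : ℝ) / 384| ≤ (H : ℝ) / 384) (hX2 : |X2 - (A2 : ℝ) / 384| ≤ (H : ℝ) / 384)
    (hX3 : |X3 - (A3 : ℝ) / 384| ≤ (H : ℝ) / 384)
    (h : evalBox A1 A2 A3 H codes = true) : False := by
  -- the quantities of the box
  set Cs : ℤ := (g0n A1 - g0n (A1 - 64)) + ((g0n A2 - g0n (A2 - 64)) + (g0n A3 - g0n (A3 - 64))) with hCs
  set r : ℤ := 1590 + (402500 * (384 * H - Cs)) / 9732096 with hr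
  set DR : ℤ := (768 * r) / 100000 + 1 with hDR
  have hg0 : ∀ A : ℤ, Cc ((A : ℝ) / 384) = ((g0n A - g0n (A - 64) : ℤ) : ℝ) / 442368 := by
    intro A
    unfold Cc
    have e : (A : ℝ) / 384 - 1/6 = ((A - 64 : ℤ) : ℝ) / 384 := by push_cast; ring
    rw [e, g0n_cast, g0n_cast]
    push_cast
    ring
  have hg1' : ∀ A : ℤ, g1 ((A : ℝ) / 384 - 1/6) = (g1n (A - 64) : ℝ) / 576 := by
    intro A
    have e : (A : ℝ) / 384 - 1/6 = ((A - 64 : ℤ) : ℝ) / 384 := by push_cast; ring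
    rw [e, g1n_cast]
  have hdg : ∀ A : ℤ, g1 ((A : ℝ) / 384) - g1 ((A : ℝ) / 384 - 1/6) =
      ((g1n A - g1n (A - 64) : ℤ) : ℝ) / 576 := by
    intro A
    rw [hg1', g1n_cast]
    push_cast
    ring
  have hCs' : Cc ((A1 : ℝ) / 384) + Cc ((A2 : ℝ) / 384) + Cc ((A3 : ℝ) / 384) = (Cs : ℝ) / 442368 := by
    rw [hg0, hg0, hg0, hCs]
    push_cast
    ring
  have hρ := rho_le_r hX1 hX2 hX3 hCs' hr
  obtain ⟨k1, k2, k3⟩ := rho_bound hp.sum hp.h1 hp.h2 hp.h3 hp.M1 hp.M2 hp.M3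
  have hD1 : -((r : ℝ) / 100000) ≤ D1 := by linarith
  have hD2 : -((r : ℝ) / 100000) ≤ D2 := by linarith
  have hD3 : -((r : ℝ) / 100000) ≤ D3 := by linarith
  have hr0 : (0 : ℝ) ≤ (r : ℝ) / 100000 := by linarith [hp.sum]
  have hr0' : 0 ≤ r := by
    have : (0 : ℝ) ≤ r := by linarith
    exact_mod_cast this
  -- tolerance of D
  have hDRr : 2 * ((r : ℝ) / 100000) ≤ (DR : ℝ) / 384 := by
    have h1 := Int.emod_add_mul_ediv (768 * r) 100000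
    have h2 := Int.emod_lt_of_pos (768 * r) (by norm_num : (0:ℤ) < 100000)
    have h3 : 768 * r ≤ DR * 100000 := by rw [hDR]; linarith
    have h4 : ((768 * r : ℤ) : ℝ) ≤ ((DR * 100000 : ℤ) : ℝ) := by exact_mod_cast h3
    push_cast at h4
    linarith
  have hd1 : |D1| ≤ (DR : ℝ) / 384 := by
    rw [abs_le]; constructor <;> linarith [hp.sum]
  have hd2 : |D2| ≤ (DR : ℝ) / 384 := by
    rw [abs_le]; constructor <;> linarith [hp.sum]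
  have hd3 : |D3| ≤ (DR : ℝ) / 384 := by
    rw [abs_le]; constructor <;> linarith [hp.sum]
  have hDR0 : 0 ≤ DR := by
    have : (0 : ℝ) ≤ DR := by linarith
    exact_mod_cast this
  -- size of r : crude
  have hg0b : ∀ A : ℤ, |g0n A| ≤ 9216 := by
    intro A
    obtain ⟨n, h1, h2, h3⟩ := frI_spec A
    have e : g0n A = frI A * (192 - |frI A|) := by
      unfold g0n
      show frI A * (192 - absI (frI A)) = _
      rw [absI_eq]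
    rw [e]
    set f := frI A
    rw [abs_mul]
    have h4 : |f| ≤ 192 := by rw [abs_le]; constructor <;> linarith
    rw [abs_of_nonneg (by linarith : 0 ≤ 192 - |f|)]
    nlinarith [sq_nonneg (|f| - 96)]
  have hCsb : -55296 ≤ Cs := by
    have a1 := abs_le.mp (hg0b A1)
    have a2 := abs_le.mp (hg0b A2)
    have a3 := abs_le.mp (hg0b A3)
    have b1 := abs_le.mp (hg0b (A1 - 64))
    have b2 := abs_le.mp (hg0b (A2 - 64))
    have b3 := abs_le.mp (hg0b (A3 - 64))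
    rw [hCs]
    linarith [a1.1, a2.1, a3.1, b1.2, b2.2, b3.2]
  have hrb : r ≤ 4132 := by
    rw [hr]
    have : (402500 * (384 * H - Cs)) / 9732096 ≤ 2542 := by
      apply Int.ediv_le_of_le_mul (by norm_num)
      linarith
    linarith
  have hDRb : DR ≤ 33 := by
    rw [hDR]
    have : (768 * r) / 100000 ≤ 32 := by
      apply Int.ediv_le_of_le_mul (by norm_num)
      linarith
    linarith
  have hR : |(X1 - 1/6 - D1) - ((A1 - 64 : ℤ) : ℝ) / 384| ≤ ((H + DR : ℤ) : ℝ) / 384 := by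
    have e : (X1 - 1/6 - D1) - ((A1 - 64 : ℤ) : ℝ) / 384 = (X1 - (A1 : ℝ) / 384) - D1 := by
      push_cast; ring
    rw [e]
    have := abs_sub (X1 - (A1 : ℝ) / 384) D1
    push_cast
    linarith
  have hR2 : |(X2 - 1/6 - D2) - ((A2 - 64 : ℤ) : ℝ) / 384| ≤ ((H + DR : ℤ) : ℝ) / 384 := by
    have e : (X2 - 1/6 - D2) - ((A2 - 64 : ℤ) : ℝ) / 384 = (X2 - (A2 : ℝ) / 384) - D2 := by
      push_cast; ring
    rw [e]
    have := abs_sub (X2 - (A2 : ℝ) / 384) D2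
    push_cast
    linarith
  have hR3 : |(X3 - 1/6 - D3) - ((A3 - 64 : ℤ) : ℝ) / 384| ≤ ((H + DR : ℤ) : ℝ) / 384 := by
    have e : (X3 - 1/6 - D3) - ((A3 - 64 : ℤ) : ℝ) / 384 = (X3 - (A3 : ℝ) / 384) - D3 := by
      push_cast; ring
    rw [e]
    have := abs_sub (X3 - (A3 : ℝ) / 384) D3
    push_cast
    linarith
  obtain ⟨c1, hc1, s1⟩ := sideL_spec A1 (A2 - 64) H (H + DR) hH (by linarith) (by linarith) (by linarith)
    X1 (X2 - 1/6 - D2) hX1 hR2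
  obtain ⟨c2, hc2, s2⟩ := sideL_spec A2 (A3 - 64) H (H + DR) hH (by linarith) (by linarith) (by linarith)
    X2 (X3 - 1/6 - D3) hX2 hR3
  obtain ⟨c3, hc3, s3⟩ := sideL_spec A3 (A1 - 64) H (H + DR) hH (by linarith) (by linarith) (by linarith)
    X3 (X1 - 1/6 - D1) hX3 hR
  have h0 : tryCodes H r Cs (g1n A1 - g1n (A1 - 64)) (g1n A2 - g1n (A2 - 64)) (g1n A3 - g1n (A3 - 64))
      (g1n (A1 - 64)) (g1n (A2 - 64)) (g1n (A3 - 64)) c1 c2 c3 (A1 - A2 + 64) (A2 - A3 + 64)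
      (A3 - A1 + 64) (H + (H + DR)) codes = true := by
    have a1 := allL_spec h c1 hc1
    have a2 := allL_spec a1 c2 hc2
    exact allL_spec a2 c3 hc3
  obtain ⟨S1, S2, S3, t1, t2, t3, h1⟩ := tryCodes_spec codes h0
  have o1 := optOf_spec (A1 - A2 + 64) (H + (H + DR)) S1 t1
  have o2 := optOf_spec (A2 - A3 + 64) (H + (H + DR)) S2 t2
  have o3 := optOf_spec (A3 - A1 + 64) (H + (H + DR)) S3 t3
  have r1 : A1 - A2 + 64 = A1 - (A2 - 64) := by ring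
  have r2 : A2 - A3 + 64 = A2 - (A3 - 64) := by ring
  have r3 : A3 - A1 + 64 = A3 - (A1 - 64) := by ring
  exact evalOne_false hp hH hH' hX1 hX2 hX3 hD1 hD2 hD3 hCs' (hg1' A1) (hg1' A2) (hg1' A3)
    (hdg A1) (hdg A2) (hdg A3) s1 s2 s3 ⟨o1.1, by rw [← r1]; exact o1.2⟩
    ⟨o2.1, by rw [← r2]; exact o2.2⟩ ⟨o3.1, by rw [← r3]; exact o3.2⟩ h1

end Pool.Agent.Lib.P37.Chk
end

section

/-!
# Soundness of the box checker: boxes inside V, recursion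
-/

namespace Pool.Agent.Lib.P37.Chk

open Real Pool.Agent.Lib.P37

/-- membership in V from five congruences -/
theorem inV_of {x1 x2 x3 D1 D2 D3 : ℝ} (hs : D1 + D2 + D3 = 0) (nu ng nq nv nw : ℤ)
    (hU : |x1 - nu| ≤ 0.1381) (hg1 : -0.12 ≤ x3 - x1 + 1/6 + D1 - ng)
    (hg2 : x3 - x1 + 1/6 + D1 - ng ≤ 0.1485) (hq1 : -0.1381 ≤ x3 - 1/6 - D3 - x2 - nq)
    (hq2 : x3 - 1/6 - D3 - x2 - nq ≤ 0.128) (hv : |x3 + 1/6 + D1 - nv| ≤ 0.1381)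
    (hw1 : -0.1381 ≤ x2 + 1/3 - D2 - nw) (hw2 : x2 + 1/3 - D2 - nw ≤ 0.7) :
    InV x1 x2 x3 D1 D2 D3 := by
  have hU' := abs_le.mp hU
  have hv' := abs_le.mp hv
  -- the integers agree
  have key1 : nv = nu + ng := by
    have h1 : |((nv - (nu + ng) : ℤ) : ℝ)| < 1 := by
      push_cast
      rw [abs_lt]
      constructor <;> linarith
    have h2 : |nv - (nu + ng)| < 1 := by exact_mod_cast h1
    have := Int.abs_lt_one_iff.mp h2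
    omega
  have k1 : (nv : ℝ) = nu + ng := by rw [key1]; push_cast; ring
  have key2 : nw = nu + ng - nq := by
    have h1 : |((nw - (nu + ng - nq) : ℤ) : ℝ)| < 1 := by
      push_cast
      rw [abs_lt]
      constructor <;> linarith
    have h2 : |nw - (nu + ng - nq)| < 1 := by exact_mod_cast h1
    have := Int.abs_lt_one_iff.mp h2
    omega
  have k2 : (nw : ℝ) = nu + ng - nq := by rw [key2]; push_cast; ring
  refine ⟨x1 - nu, x3 - x1 + 1/6 + D1 - ng, x3 - 1/6 - D3 - x2 - nq, nu, nu + ng - nq, nu + ng,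
    ⟨hs, hU'.1, hU'.2, hg1, hg2, hq1, hq2, ?_, ?_, ?_⟩, ?_, ?_, ?_⟩
  · linarith
  · linarith
  · linarith
  · ring
  · push_cast; linarith
  · push_cast; linarith

/-- from an approximation to the fractional part -/
theorem fr_approx {y : ℝ} {z t : ℤ} (hy : |y - (z : ℝ) / 384| ≤ (t : ℝ) / 384) :
    ∃ n : ℤ, |y - n - (frI z : ℝ) / 384| ≤ (t : ℝ) / 384 := by
  obtain ⟨n, hn, _, _⟩ := frI_spec z
  refine ⟨n, ?_⟩
  have e : y - n - (frI z : ℝ) / 384 = y - (z : ℝ) / 384 := by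
    rw [hn]; push_cast; ring
  rw [e]
  exact hy

theorem inV1_sound {X1 X2 X3 D1 D2 D3 : ℝ} (hs : D1 + D2 + D3 = 0) {A1 A2 A3 H R : ℤ}
    (hX1 : |X1 - (A1 : ℝ) / 384| ≤ (H : ℝ) / 384) (hX2 : |X2 - (A2 : ℝ) / 384| ≤ (H : ℝ) / 384)
    (hX3 : |X3 - (A3 : ℝ) / 384| ≤ (H : ℝ) / 384)
    (hd1 : |D1| ≤ (R : ℝ) / 384) (hd2 : |D2| ≤ (R : ℝ) / 384) (hd3 : |D3| ≤ (R : ℝ) / 384)
    (hHR : H + R ≤ 60)
    (h : inV1 A1 A2 A3 H R = true) : InV X1 X2 X3 D1 D2 D3 := by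
  have h' : (leB (absI (frI A1) + H) 53 && leB ((H + H + R) - 46) (frI (A3 - A1 + 64)) &&
    leB (frI (A3 - A1 + 64) + (H + H + R)) 57 && leB ((H + H + R) - 53) (frI (A3 - 64 - A2)) &&
    leB (frI (A3 - 64 - A2) + (H + H + R)) 49 && leB (absI (frI (A3 + 64)) + (H + R)) 53 &&
    leB ((H + R) - 53) (frI (A2 + 128))) = true := h
  simp only [Bool.and_eq_true, leB_iff, absI_eq] at h'
  obtain ⟨⟨⟨⟨⟨⟨a1, a2⟩, a3⟩, a4⟩, a5⟩, a6⟩, a7⟩ := h'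
  have a1' : |(frI A1 : ℝ)| + H ≤ 53 := by exact_mod_cast a1
  have a2' : (H : ℝ) + H + R - 46 ≤ frI (A3 - A1 + 64) := by exact_mod_cast a2
  have a3' : (frI (A3 - A1 + 64) : ℝ) + (H + H + R) ≤ 57 := by exact_mod_cast a3
  have a4' : (H : ℝ) + H + R - 53 ≤ frI (A3 - 64 - A2) := by exact_mod_cast a4
  have a5' : (frI (A3 - 64 - A2) : ℝ) + (H + H + R) ≤ 49 := by exact_mod_cast a5
  have a6' : |(frI (A3 + 64) : ℝ)| + (H + R) ≤ 53 := by exact_mod_cast a6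
  have a7' : (H : ℝ) + R - 53 ≤ frI (A2 + 128) := by exact_mod_cast a7
  have hHR' : (H : ℝ) + R ≤ 60 := by exact_mod_cast hHR
  have hX1' := abs_le.mp hX1
  have hX2' := abs_le.mp hX2
  have hX3' := abs_le.mp hX3
  have hd1' := abs_le.mp hd1
  have hd2' := abs_le.mp hd2
  have hd3' := abs_le.mp hd3
  obtain ⟨nu, hu⟩ := fr_approx (y := X1) (z := A1) (t := H) hX1
  obtain ⟨ng, hg⟩ := fr_approx (y := X3 - X1 + 1/6 + D1) (z := A3 - A1 + 64) (t := H + H + R) (by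
    push_cast; rw [abs_le]; constructor <;> linarith)
  obtain ⟨nq, hq⟩ := fr_approx (y := X3 - 1/6 - D3 - X2) (z := A3 - 64 - A2) (t := H + H + R) (by
    push_cast; rw [abs_le]; constructor <;> linarith)
  obtain ⟨nv, hv⟩ := fr_approx (y := X3 + 1/6 + D1) (z := A3 + 64) (t := H + R) (by
    push_cast; rw [abs_le]; constructor <;> linarith)
  obtain ⟨nw, hw⟩ := fr_approx (y := X2 + 1/3 - D2) (z := A2 + 128) (t := H + R) (by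
    push_cast; rw [abs_le]; constructor <;> linarith)
  have hu' := abs_le.mp hu
  have hg' := abs_le.mp hg
  have hq' := abs_le.mp hq
  have hv' := abs_le.mp hv
  have hw' := abs_le.mp hw
  push_cast at hg' hq' hv' hw'
  have fw : (frI (A2 + 128) : ℝ) ≤ 191 := by
    obtain ⟨n, _, _, h3⟩ := frI_spec (A2 + 128)
    exact_mod_cast h3
  have m1 := le_abs_self (frI A1 : ℝ)
  have m2 := neg_abs_le (frI A1 : ℝ)
  have m3 := le_abs_self (frI (A3 + 64) : ℝ)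
  have m4 := neg_abs_le (frI (A3 + 64) : ℝ)
  refine inV_of hs nu ng nq nv nw ?_ ?_ ?_ ?_ ?_ ?_ ?_ ?_
  · rw [abs_le]; constructor <;> linarith
  · linarith
  · linarith
  · linarith
  · linarith
  · rw [abs_le]; constructor <;> linarith
  · linarith
  · linarith

/-- the mirrored configuration -/
def Mir (X1 X2 X3 D1 D2 D3 : ℝ) : Prop :=
  InV (-(X1 - 1/6 - D1)) (-(X3 - 1/6 - D3)) (-(X2 - 1/6 - D2)) D1 D3 D2

theorem inV2_sound {X1 X2 X3 D1 D2 D3 : ℝ} (hs : D1 + D2 + D3 = 0) {A1 A2 A3 H R : ℤ}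
    (hX1 : |X1 - (A1 : ℝ) / 384| ≤ (H : ℝ) / 384) (hX2 : |X2 - (A2 : ℝ) / 384| ≤ (H : ℝ) / 384)
    (hX3 : |X3 - (A3 : ℝ) / 384| ≤ (H : ℝ) / 384)
    (hd1 : |D1| ≤ (R : ℝ) / 384) (hd2 : |D2| ≤ (R : ℝ) / 384) (hd3 : |D3| ≤ (R : ℝ) / 384)
    (hHR : H + R ≤ 60)
    (h : inV2 A1 A2 A3 H R = true) : Mir X1 X2 X3 D1 D2 D3 := by
  have h' : (leB (absI (frI (64 - A1)) + (H + R)) 53 && leB ((H + H + R) - 46) (frI (A1 - A2 + 64)) &&
    leB (frI (A1 - A2 + 64) + (H + H + R)) 57 && leB ((H + H + R) - 53) (frI (A3 - 64 - A2)) &&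
    leB (frI (A3 - 64 - A2) + (H + H + R)) 49 && leB (absI (frI (128 - A2)) + (H + R)) 53 &&
    leB (H - 53) (frI (192 - A3))) = true := h
  simp only [Bool.and_eq_true, leB_iff, absI_eq] at h'
  obtain ⟨⟨⟨⟨⟨⟨a1, a2⟩, a3⟩, a4⟩, a5⟩, a6⟩, a7⟩ := h'
  have a1' : |(frI (64 - A1) : ℝ)| + (H + R) ≤ 53 := by exact_mod_cast a1
  have a2' : (H : ℝ) + H + R - 46 ≤ frI (A1 - A2 + 64) := by exact_mod_cast a2
  have a3' : (frI (A1 - A2 + 64) : ℝ) + (H + H + R) ≤ 57 := by exact_mod_cast a3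
  have a4' : (H : ℝ) + H + R - 53 ≤ frI (A3 - 64 - A2) := by exact_mod_cast a4
  have a5' : (frI (A3 - 64 - A2) : ℝ) + (H + H + R) ≤ 49 := by exact_mod_cast a5
  have a6' : |(frI (128 - A2) : ℝ)| + (H + R) ≤ 53 := by exact_mod_cast a6
  have a7' : (H : ℝ) - 53 ≤ frI (192 - A3) := by exact_mod_cast a7
  have hHR' : (H : ℝ) + R ≤ 60 := by exact_mod_cast hHR
  have hX1' := abs_le.mp hX1
  have hX2' := abs_le.mp hX2
  have hX3' := abs_le.mp hX3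
  have hd1' := abs_le.mp hd1
  have hd2' := abs_le.mp hd2
  have hd3' := abs_le.mp hd3
  obtain ⟨nu, hu⟩ := fr_approx (y := -(X1 - 1/6 - D1)) (z := 64 - A1) (t := H + R) (by
    push_cast; rw [abs_le]; constructor <;> linarith)
  obtain ⟨ng, hg⟩ := fr_approx (y := X1 - X2 + 1/6 + D2) (z := A1 - A2 + 64) (t := H + H + R) (by
    push_cast; rw [abs_le]; constructor <;> linarith)
  obtain ⟨nq, hq⟩ := fr_approx (y := X3 - 1/6 - D3 - X2) (z := A3 - 64 - A2) (t := H + H + R) (by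
    push_cast; rw [abs_le]; constructor <;> linarith)
  obtain ⟨nv, hv⟩ := fr_approx (y := -X2 + 1/3 - D3) (z := 128 - A2) (t := H + R) (by
    push_cast; rw [abs_le]; constructor <;> linarith)
  obtain ⟨nw, hw⟩ := fr_approx (y := -X3 + 1/2) (z := 192 - A3) (t := H) (by
    push_cast; rw [abs_le]; constructor <;> linarith)
  have hu' := abs_le.mp hu
  have hg' := abs_le.mp hg
  have hq' := abs_le.mp hq
  have hv' := abs_le.mp hv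
  have hw' := abs_le.mp hw
  push_cast at hu' hg' hq' hv' hw'
  have fw : (frI (192 - A3) : ℝ) ≤ 191 := by
    obtain ⟨n, _, _, h3⟩ := frI_spec (192 - A3)
    exact_mod_cast h3
  have m1 := le_abs_self (frI (64 - A1) : ℝ)
  have m2 := neg_abs_le (frI (64 - A1) : ℝ)
  have m3 := le_abs_self (frI (128 - A2) : ℝ)
  have m4 := neg_abs_le (frI (128 - A2) : ℝ)
  have hR0 : (0 : ℝ) ≤ R := by have := abs_nonneg D1; linarith
  refine inV_of (by linarith) nu ng nq nv nw ?_ ?_ ?_ ?_ ?_ ?_ ?_ ?_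
  · rw [abs_le]; constructor <;> linarith
  · linarith
  · linarith
  · linarith
  · linarith
  · rw [abs_le]; constructor <;> linarith
  · linarith
  · linarith

/-- one of the six placements -/
def InV6 (X1 X2 X3 D1 D2 D3 : ℝ) : Prop :=
  InV X1 X2 X3 D1 D2 D3 ∨ InV X2 X3 X1 D2 D3 D1 ∨ InV X3 X1 X2 D3 D1 D2 ∨
  Mir X1 X2 X3 D1 D2 D3 ∨ Mir X2 X3 X1 D2 D3 D1 ∨ Mir X3 X1 X2 D3 D1 D2

theorem vBox_sound {X1 X2 X3 D1 D2 D3 : ℝ} (hp : Pt X1 X2 X3 D1 D2 D3) {k : ℕ}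
    {A1 A2 A3 H : ℤ} (hH : 0 ≤ H) (hH' : H ≤ 16)
    (hX1 : |X1 - (A1 : ℝ) / 384| ≤ (H : ℝ) / 384) (hX2 : |X2 - (A2 : ℝ) / 384| ≤ (H : ℝ) / 384)
    (hX3 : |X3 - (A3 : ℝ) / 384| ≤ (H : ℝ) / 384)
    (h : vBox k A1 A2 A3 H = true) : InV6 X1 X2 X3 D1 D2 D3 := by
  set Cs : ℤ := (g0n A1 - g0n (A1 - 64)) + ((g0n A2 - g0n (A2 - 64)) + (g0n A3 - g0n (A3 - 64))) with hCs
  set r : ℤ := 1590 + (402500 * (384 * H - Cs)) / 9732096 with hr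
  set DR : ℤ := (768 * r) / 100000 + 1 with hDR
  obtain ⟨hd1, hd2, hd3, hDRb⟩ := DR_bounds hp hH hH' hX1 hX2 hX3 hCs hr hDR
  have hHR : H + DR ≤ 60 := by linarith
  have hr' : rBox A1 A2 A3 H = r := rfl
  have s2 : D2 + D3 + D1 = 0 := by linarith [hp.sum]
  have s3 : D3 + D1 + D2 = 0 := by linarith [hp.sum]
  unfold InV6
  match k, h with
  | 0, h' => exact Or.inl (inV1_sound hp.sum hX1 hX2 hX3 hd1 hd2 hd3 hHR h')
  | 1, h' => exact Or.inr (Or.inl (inV1_sound s2 hX2 hX3 hX1 hd2 hd3 hd1 hHR h'))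
  | 2, h' => exact Or.inr (Or.inr (Or.inl (inV1_sound s3 hX3 hX1 hX2 hd3 hd1 hd2 hHR h')))
  | 3, h' => exact Or.inr (Or.inr (Or.inr (Or.inl (inV2_sound hp.sum hX1 hX2 hX3 hd1 hd2 hd3 hHR h'))))
  | 4, h' => exact Or.inr (Or.inr (Or.inr (Or.inr (Or.inl (inV2_sound s2 hX2 hX3 hX1 hd2 hd3 hd1 hHR h')))))
  | (n + 5), h' => exact Or.inr (Or.inr (Or.inr (Or.inr (Or.inr (inV2_sound s3 hX3 hX1 hX2 hd3 hd1 hd2 hHR h')))))

theorem chk_sound : ∀ (t : Crt) {X1 X2 X3 D1 D2 D3 : ℝ}, Pt X1 X2 X3 D1 D2 D3 → ∀ {A1 A2 A3 H : ℤ},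
    0 ≤ H → H ≤ 16 → |X1 - (A1 : ℝ) / 384| ≤ (H : ℝ) / 384 → |X2 - (A2 : ℝ) / 384| ≤ (H : ℝ) / 384 →
    |X3 - (A3 : ℝ) / 384| ≤ (H : ℝ) / 384 → chk t A1 A2 A3 H = true → InV6 X1 X2 X3 D1 D2 D3 := by
  intro t
  induction t with
  | V k =>
    intro X1 X2 X3 D1 D2 D3 hp A1 A2 A3 H hH hH' h1 h2 h3 h
    exact vBox_sound hp hH hH' h1 h2 h3 h
  | E s =>
    intro X1 X2 X3 D1 D2 D3 hp A1 A2 A3 H hH hH' h1 h2 h3 h
    exact (evalBox_false hp hH hH' h1 h2 h3 h).elim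
  | N a b c d e f g h ia ib ic id ie iff ig ih =>
    intro X1 X2 X3 D1 D2 D3 hp A1 A2 A3 H hH hH' h1 h2 h3 hc
    set k : ℤ := H / 2 with hk
    have hc' : (leB H (k + k) && isNN k && chk a (A1 - k) (A2 - k) (A3 - k) k &&
      chk b (A1 - k) (A2 - k) (A3 + k) k && chk c (A1 - k) (A2 + k) (A3 - k) k &&
      chk d (A1 - k) (A2 + k) (A3 + k) k && chk e (A1 + k) (A2 - k) (A3 - k) k &&
      chk f (A1 + k) (A2 - k) (A3 + k) k && chk g (A1 + k) (A2 + k) (A3 - k) k &&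
      chk h (A1 + k) (A2 + k) (A3 + k) k) = true := hc
    simp only [Bool.and_eq_true, leB_iff, isNN_iff] at hc'
    obtain ⟨⟨⟨⟨⟨⟨⟨⟨⟨q1, q2⟩, ca⟩, cb⟩, cc⟩, cd⟩, ce⟩, cf⟩, cg⟩, ch⟩ := hc'
    have hk16 : k ≤ 16 := by omega
    have hkr : (H : ℝ) ≤ k + k := by exact_mod_cast q1
    have split : ∀ (X : ℝ) (A : ℤ), |X - (A : ℝ) / 384| ≤ (H : ℝ) / 384 →
        |X - ((A - k : ℤ) : ℝ) / 384| ≤ (k : ℝ) / 384 ∨ |X - ((A + k : ℤ) : ℝ) / 384| ≤ (k : ℝ) / 384 := by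
      intro X A hX
      have hX' := abs_le.mp hX
      rcases le_total X ((A : ℝ) / 384) with hle | hle
      · left
        push_cast
        rw [abs_le]
        constructor <;> linarith
      · right
        push_cast
        rw [abs_le]
        constructor <;> linarith
    rcases split X1 A1 h1 with u1 | u1 <;> rcases split X2 A2 h2 with u2 | u2 <;>
      rcases split X3 A3 h3 with u3 | u3
    · exact ia hp q2 hk16 u1 u2 u3 ca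
    · exact ib hp q2 hk16 u1 u2 u3 cb
    · exact ic hp q2 hk16 u1 u2 u3 cc
    · exact id hp q2 hk16 u1 u2 u3 cd
    · exact ie hp q2 hk16 u1 u2 u3 ce
    · exact iff hp q2 hk16 u1 u2 u3 cf
    · exact ig hp q2 hk16 u1 u2 u3 cg
    · exact ih hp q2 hk16 u1 u2 u3 ch

theorem colCheck_sound {a b : ℤ} : ∀ (l : List Crt) (c : ℤ), colCheck a b c l = true →
    ∀ n : ℕ, n < l.length → ∃ t : Crt, chk t a b (c + 32 * n) 16 = true := by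
  intro l
  induction l with
  | nil => intro c _ n hn; simp at hn
  | cons t ts ih =>
    intro c h n hn
    have h' : (chk t a b c 16 && colCheck a b (c + 32) ts) = true := h
    rw [Bool.and_eq_true] at h'
    cases n with
    | zero => exact ⟨t, by simpa using h'.1⟩
    | succ m =>
      obtain ⟨t', ht'⟩ := ih (c + 32) h'.2 m (by simpa using hn)
      refine ⟨t', ?_⟩
      have e : c + 32 * ((m + 1 : ℕ) : ℤ) = c + 32 + 32 * (m : ℤ) := by push_cast; ring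
      rw [e]
      exact ht'

end Pool.Agent.Lib.P37.Chk
end
end
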