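import Pool.Agent.Lib.MP_c009e6_co.Body

namespace Pool.Agent.Lib.P37

open Real

theorem mul_cos_le_sin' {x : ℝ} (h0 : 0 ≤ x) (h1 : x < π / 2) : x * cos x ≤ sin x := by
  have h := Real.le_tan h0 h1
  have hc : 0 < cos x := cos_pos_of_mem_Ioo ⟨by linarith [Real.pi_pos], h1⟩
  rw [tan_eq_sin_div_cos, le_div_iff₀ hc] at h
  exact h

theorem sigma_lb (ψ : ℝ) : 2 + p ^ 2 * tau (ψ / p) ≤ sigma ψ := by
  have hp := p_pos
  have hp2 := half_p_lt
  have hn0 := nd_nonneg (ψ / p)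
  have hn1 := nd_le (ψ / p)
  obtain ⟨a, ha⟩ : ∃ a : ℝ, a = p * nd (ψ / p) / 2 := ⟨_, rfl⟩
  obtain ⟨b, hb⟩ : ∃ b : ℝ, b = (p - p * nd (ψ / p)) / 2 := ⟨_, rfl⟩
  have hab : p / 2 = a + b := by rw [ha, hb]; ring
  have ha0 : 0 ≤ a := by rw [ha]; positivity
  have hb0 : 0 ≤ b := by
    rw [hb]
    have : p * nd (ψ / p) ≤ p / 2 := nd_mul_p_le _
    linarith
  have haL : a < π / 2 := by linarith
  have hbL : b < π / 2 := by linarith
  have hsa := mul_cos_le_sin' ha0 haL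
  have hsb := mul_cos_le_sin' hb0 hbL
  have hca : 0 < cos a := cos_pos_of_mem_Ioo ⟨by linarith [Real.pi_pos], haL⟩
  have hcb : 0 < cos b := cos_pos_of_mem_Ioo ⟨by linarith [Real.pi_pos], hbL⟩
  have hsa0 : 0 ≤ sin a := sin_nonneg_of_nonneg_of_le_pi ha0 (by linarith)
  have hsb0 : 0 ≤ sin b := sin_nonneg_of_nonneg_of_le_pi hb0 (by linarith)
  have hc : 0 < cos (a + b) := by rw [← hab]; exact cos_half_p_pos
  have hcab : cos (a + b) ≤ cos a * cos b := by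
    rw [cos_add]
    have := mul_nonneg hsa0 hsb0
    linarith
  have key : a * b * cos (a + b) ≤ sin a * sin b := by
    calc a * b * cos (a + b) ≤ a * b * (cos a * cos b) :=
          mul_le_mul_of_nonneg_left hcab (mul_nonneg ha0 hb0)
      _ = (a * cos a) * (b * cos b) := by ring
      _ ≤ sin a * sin b := mul_le_mul hsa hsb (by positivity) hsa0
  have hR : Rr = 1 / cos (a + b) := by unfold Rr; rw [hab]
  have harg : p / 2 - p * nd (ψ / p) = b - a := by rw [ha, hb]; ring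
  have htau : p ^ 2 * tau (ψ / p) = 2 * (a * b) := by
    unfold tau
    rw [ha, hb]
    ring
  unfold sigma
  rw [harg, hR, htau]
  have h2 : 1 / cos (a + b) * cos (b - a) = 1 + 2 * (sin a * sin b) / cos (a + b) := by
    field_simp
    rw [cos_add, cos_sub]
    ring
  rw [h2]
  have h3 : 2 * (a * b) ≤ 2 * (sin a * sin b) / cos (a + b) := by
    rw [le_div_iff₀ hc]
    linarith
  linarith

theorem E_bound {x y d : ℝ} (hd : 0 ≤ d) (h : PairIneq x y d) :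
    p ^ 2 * Ee (x / p) (y / p) ≤ d ^ 2 / 4 - 1 := by
  unfold PairIneq at h
  have hp := p_pos
  have hp2 := half_p_lt
  obtain ⟨m, hm⟩ : ∃ m : ℝ, m = min (nd (x / p)) (nd (y / p)) := ⟨_, rfl⟩
  have hm0 : 0 ≤ m := by rw [hm]; exact le_min (nd_nonneg _) (nd_nonneg _)
  have hm1 : m ≤ 1 / 2 := by rw [hm]; exact (min_le_left _ _).trans (nd_le _)
  have hs := sigma_lb (x - y)
  obtain ⟨τ, hτ⟩ : ∃ τ : ℝ, τ = tau ((x - y) / p) := ⟨_, rfl⟩
  have hτ0 : 0 ≤ τ := by rw [hτ]; exact tau_nonneg _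
  have hE : Ee (x / p) (y / p) = m ^ 2 + τ := by
    unfold Ee
    rw [hm, hτ, sub_div]
  rw [← hm] at h
  rw [← hτ] at hs
  rw [hE]
  have hpm0 : 0 ≤ p * m := by positivity
  have hpm1 : p * m ≤ p / 2 := by nlinarith
  have hc : 0 < cos (p * m) := cos_pos_of_mem_Ioo ⟨by linarith [Real.pi_pos], by linarith⟩
  have hmc := mul_cos_le_sin' hpm0 (by linarith)
  have h1 : 2 + p ^ 2 * τ ≤ d * cos (p * m) := hs.trans h
  have h2 : cos (p * m) ^ 2 * (1 + p ^ 2 * m ^ 2) ≤ 1 := by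
    have h3 : (p * m * cos (p * m)) ^ 2 ≤ sin (p * m) ^ 2 :=
      pow_le_pow_left₀ (mul_nonneg hpm0 hc.le) hmc 2
    have h4 := sin_sq_add_cos_sq (p * m)
    nlinarith
  have h5 : (2 + p ^ 2 * τ) ^ 2 ≤ (d * cos (p * m)) ^ 2 :=
    pow_le_pow_left₀ (by positivity) h1 2
  have h6 : 4 * (1 + p ^ 2 * τ) ≤ d ^ 2 * cos (p * m) ^ 2 := by
    have : 0 ≤ (p ^ 2 * τ) ^ 2 := sq_nonneg _
    nlinarith
  have h7 : 4 * (1 + p ^ 2 * τ) * (1 + p ^ 2 * m ^ 2) ≤ d ^ 2 := by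
    calc 4 * (1 + p ^ 2 * τ) * (1 + p ^ 2 * m ^ 2)
        ≤ d ^ 2 * cos (p * m) ^ 2 * (1 + p ^ 2 * m ^ 2) :=
          mul_le_mul_of_nonneg_right h6 (by positivity)
      _ = d ^ 2 * (cos (p * m) ^ 2 * (1 + p ^ 2 * m ^ 2)) := by ring
      _ ≤ d ^ 2 * 1 := mul_le_mul_of_nonneg_left h2 (sq_nonneg _)
      _ = d ^ 2 := mul_one _
  have h8 : 0 ≤ (p ^ 2 * τ) * (p ^ 2 * m ^ 2) := by positivity
  nlinarith

theorem two_le_of_pair {x y d : ℝ} (hd : 0 ≤ d) (h : PairIneq x y d) : 2 ≤ d := by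
  unfold PairIneq at h
  have hs := sigma_lb (x - y)
  have h0 : 0 ≤ p ^ 2 * tau ((x - y) / p) := mul_nonneg (sq_nonneg _) (tau_nonneg _)
  have h1 : d * cos (p * min (nd (x / p)) (nd (y / p))) ≤ d * 1 :=
    mul_le_mul_of_nonneg_left (cos_le_one _) hd
  linarith

end Pool.Agent.Lib.P37
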