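import Pool.Agent.Lib.MP_c009e6_co.PDefs

namespace Pool.Agent.Lib.P37

open Real

theorem cos_bound8 {x : ℝ} (hx : |x| ≤ 1) :
    |cos x - (1 - x ^ 2 / 2 + x ^ 4 / 24 - x ^ 6 / 720)| ≤ |x| ^ 8 * (9 / 322560) := by
  have h := Complex.exp_bound (x := (x : ℂ) * Complex.I) (by simpa using hx) (n := 8) (by norm_num)
  have hI3 : Complex.I ^ 3 = -Complex.I := by
    rw [show (3:ℕ) = 2 + 1 from rfl, pow_succ, Complex.I_sq]; ring
  have hI4 : Complex.I ^ 4 = 1 := by
    rw [show (4:ℕ) = 2 * 2 from rfl, pow_mul, Complex.I_sq]; ring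
  have hI5 : Complex.I ^ 5 = Complex.I := by
    rw [show (5:ℕ) = 4 + 1 from rfl, pow_succ, hI4]; ring
  have hI6 : Complex.I ^ 6 = -1 := by
    rw [show (6:ℕ) = 4 + 2 from rfl, pow_add, hI4, Complex.I_sq]; ring
  have hI7 : Complex.I ^ 7 = -Complex.I := by
    rw [show (7:ℕ) = 4 + 3 from rfl, pow_add, hI4, hI3]; ring
  have hsum : ∑ m ∈ Finset.range 8, ((x : ℂ) * Complex.I) ^ m / (m.factorial : ℂ) =
      ((1 - x ^ 2 / 2 + x ^ 4 / 24 - x ^ 6 / 720 : ℝ) : ℂ) +
        ((x - x ^ 3 / 6 + x ^ 5 / 120 - x ^ 7 / 5040 : ℝ) : ℂ) * Complex.I := by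
    simp only [Finset.sum_range_succ, Finset.sum_range_zero, mul_pow, Complex.I_sq, hI3, hI4, hI5,
      hI6, hI7, pow_zero, pow_one]
    norm_num [Nat.factorial]
    ring
  have hre : (Complex.exp ((x : ℂ) * Complex.I) -
      ∑ m ∈ Finset.range 8, ((x : ℂ) * Complex.I) ^ m / (m.factorial : ℂ)).re =
      cos x - (1 - x ^ 2 / 2 + x ^ 4 / 24 - x ^ 6 / 720) := by
    rw [hsum, Complex.sub_re, Complex.exp_ofReal_mul_I_re, Complex.add_re, Complex.ofReal_re,
      Complex.re_ofReal_mul, Complex.I_re, mul_zero, add_zero]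
  have h2 := (Complex.abs_re_le_norm _).trans h
  rw [hre] at h2
  refine h2.trans (le_of_eq ?_)
  rw [norm_mul, Complex.norm_I, mul_one, Complex.norm_real, Real.norm_eq_abs]
  norm_num [Nat.factorial]

theorem mul_bd {a b al au bl bu : ℝ} (h1 : al < a) (h2 : a < au) (h3 : bl < b) (h4 : b < bu)
    (h5 : 0 ≤ al) (h6 : 0 ≤ bl) : al * bl < a * b ∧ a * b < au * bu :=
  ⟨mul_lt_mul'' h1 h3 h5 h6, mul_lt_mul'' h2 h4 (h5.trans h1.le) (h6.trans h3.le)⟩

theorem x_bounds : 0.084907909556480 < p / 2 ∧ p / 2 < 0.084907909556482 := by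
  rw [half_p]
  have h1 := Real.pi_gt_d20
  have h2 := Real.pi_lt_d20
  constructor
  · rw [lt_div_iff₀ (by norm_num)]; linarith
  · rw [div_lt_iff₀ (by norm_num)]; linarith

theorem p_bounds : 0.16981581 < p ∧ p < 0.16981583 := by
  have h := x_bounds
  constructor <;> linarith [h.1, h.2]

/-- tight bounds for the cosine of `p/2` -/
theorem cosh_tight : 0.9963974885423 < cos (p / 2) ∧ cos (p / 2) < 0.9963974885426 := by
  obtain ⟨h1, h2⟩ := x_bounds
  obtain ⟨x, hx⟩ : ∃ x : ℝ, x = p / 2 := ⟨_, rfl⟩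
  rw [← hx] at h1 h2 ⊢
  have hx0 : 0 < x := by linarith
  have hb := abs_le.mp (cos_bound8 (x := x) (by rw [abs_of_pos hx0]; linarith))
  rw [abs_of_pos hx0] at hb
  have s1 : 0.084907909556480 ^ 2 < x ^ 2 := pow_lt_pow_left₀ h1 (by norm_num) (by norm_num)
  have s2 : x ^ 2 < 0.084907909556482 ^ 2 := pow_lt_pow_left₀ h2 hx0.le (by norm_num)
  have q1 : 0.084907909556480 ^ 4 < x ^ 4 := pow_lt_pow_left₀ h1 (by norm_num) (by norm_num)
  have q2 : x ^ 4 < 0.084907909556482 ^ 4 := pow_lt_pow_left₀ h2 hx0.le (by norm_num)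
  have r1 : 0.084907909556480 ^ 6 < x ^ 6 := pow_lt_pow_left₀ h1 (by norm_num) (by norm_num)
  have r2 : x ^ 6 < 0.084907909556482 ^ 6 := pow_lt_pow_left₀ h2 hx0.le (by norm_num)
  have t2 : x ^ 8 < 0.084907909556482 ^ 8 := pow_lt_pow_left₀ h2 hx0.le (by norm_num)
  norm_num at s1 s2 q1 q2 r1 r2 t2
  constructor <;> linarith [hb.1, hb.2]

theorem cos_half_bounds : 0.99639748 < cos (p / 2) ∧ cos (p / 2) < 0.99639749 := by
  have h := cosh_tight
  constructor <;> linarith [h.1, h.2]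

theorem sinh_tight : 0.0848059244 < sin (p / 2) ∧ sin (p / 2) < 0.0848059245 := by
  obtain ⟨h1, h2⟩ := cosh_tight
  have hs : 0 < sin (p / 2) := sin_pos_of_pos_of_lt_pi (by linarith [p_pos])
    (by linarith [half_p_lt, Real.pi_pos])
  have hsq := sin_sq_add_cos_sq (p / 2)
  have s1 : 0.9963974885423 ^ 2 < cos (p / 2) ^ 2 := pow_lt_pow_left₀ h1 (by norm_num) (by norm_num)
  have s2 : cos (p / 2) ^ 2 < 0.9963974885426 ^ 2 :=
    pow_lt_pow_left₀ h2 (by linarith) (by norm_num)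
  norm_num at s1 s2
  constructor
  · apply lt_of_pow_lt_pow_left₀ 2 hs.le
    norm_num
    linarith
  · apply lt_of_pow_lt_pow_left₀ 2 (by norm_num)
    norm_num
    linarith

theorem cosp_tight : 0.9856159103467 < cos p ∧ cos p < 0.9856159103481 := by
  obtain ⟨h1, h2⟩ := cosh_tight
  have e : cos p = 2 * cos (p / 2) ^ 2 - 1 := by
    rw [← cos_two_mul]
    congr 1
    ring
  have s1 : 0.9963974885423 ^ 2 < cos (p / 2) ^ 2 := pow_lt_pow_left₀ h1 (by norm_num) (by norm_num)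
  have s2 : cos (p / 2) ^ 2 < 0.9963974885426 ^ 2 :=
    pow_lt_pow_left₀ h2 (by linarith) (by norm_num)
  norm_num at s1 s2
  rw [e]
  constructor <;> linarith

theorem cos3p_tight : 0.873014113147 < cos (3 * p) ∧ cos (3 * p) < 0.873014113170 := by
  obtain ⟨h1, h2⟩ := cosp_tight
  rw [cos_three_mul]
  have s1 : 0.9856159103467 ^ 3 < cos p ^ 3 := pow_lt_pow_left₀ h1 (by norm_num) (by norm_num)
  have s2 : cos p ^ 3 < 0.9856159103481 ^ 3 := pow_lt_pow_left₀ h2 (by linarith) (by norm_num)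
  norm_num at s1 s2
  constructor <;> linarith

theorem c6_tight : 0.5243072835 < c6 ∧ c6 < 0.5243072836 := by
  obtain ⟨h1, h2⟩ := cos3p_tight
  have e : c6 = 2 * cos (3 * p) ^ 2 - 1 := by
    unfold c6
    rw [← cos_two_mul]
    congr 1
    ring
  have s1 : 0.873014113147 ^ 2 < cos (3 * p) ^ 2 := pow_lt_pow_left₀ h1 (by norm_num) (by norm_num)
  have s2 : cos (3 * p) ^ 2 < 0.873014113170 ^ 2 :=
    pow_lt_pow_left₀ h2 (by linarith) (by norm_num)
  norm_num at s1 s2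
  rw [e]
  constructor <;> linarith

theorem c12_tight : -0.4502037450 < c12 ∧ c12 < -0.4502037447 := by
  obtain ⟨h1, h2⟩ := c6_tight
  have e : c12 = 2 * c6 ^ 2 - 1 := by
    unfold c12 c6
    rw [← cos_two_mul]
    congr 1
    ring
  have s1 : 0.5243072835 ^ 2 < c6 ^ 2 := pow_lt_pow_left₀ h1 (by norm_num) (by norm_num)
  have s2 : c6 ^ 2 < 0.5243072836 ^ 2 := pow_lt_pow_left₀ h2 (by linarith) (by norm_num)
  norm_num at s1 s2
  rw [e]
  constructor <;> linarith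

theorem s6_pos : 0 < s6 := by
  unfold s6
  apply sin_pos_of_pos_of_lt_pi
  · linarith [p_pos]
  · rw [pi_eq]; linarith [p_pos]

theorem s12_pos : 0 < s12 := by
  unfold s12
  apply sin_pos_of_pos_of_lt_pi
  · linarith [p_pos]
  · rw [pi_eq]; linarith [p_pos]

theorem s6_sq_add : s6 ^ 2 + c6 ^ 2 = 1 := by
  unfold s6 c6
  exact sin_sq_add_cos_sq _

theorem s12_sq_add : s12 ^ 2 + c12 ^ 2 = 1 := by
  unfold s12 c12
  exact sin_sq_add_cos_sq _

theorem s6_tight : 0.8515291377 < s6 ∧ s6 < 0.8515291378 := by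
  obtain ⟨h1, h2⟩ := c6_tight
  have hs := s6_pos
  have hsq := s6_sq_add
  have s1 : 0.5243072835 ^ 2 < c6 ^ 2 := pow_lt_pow_left₀ h1 (by norm_num) (by norm_num)
  have s2 : c6 ^ 2 < 0.5243072836 ^ 2 := pow_lt_pow_left₀ h2 (by linarith) (by norm_num)
  norm_num at s1 s2
  constructor
  · apply lt_of_pow_lt_pow_left₀ 2 hs.le
    norm_num
    linarith
  · apply lt_of_pow_lt_pow_left₀ 2 (by norm_num)
    norm_num
    linarith

theorem s12_tight : 0.8929258580 < s12 ∧ s12 < 0.8929258583 := by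
  obtain ⟨h1, h2⟩ := c12_tight
  have hs := s12_pos
  have hsq := s12_sq_add
  have s1 : 0.4502037447 ^ 2 < (-c12) ^ 2 :=
    pow_lt_pow_left₀ (by linarith) (by norm_num) (by norm_num)
  have s2 : (-c12) ^ 2 < 0.4502037450 ^ 2 := pow_lt_pow_left₀ (by linarith) (by linarith) (by norm_num)
  rw [neg_sq] at s1 s2
  norm_num at s1 s2
  constructor
  · apply lt_of_pow_lt_pow_left₀ 2 hs.le
    norm_num
    linarith
  · apply lt_of_pow_lt_pow_left₀ 2 (by norm_num)
    norm_num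
    linarith

theorem Rr_tight : 1.0036155364 < Rr ∧ Rr < 1.0036155366 := by
  obtain ⟨h1, h2⟩ := cosh_tight
  have hc := cos_half_p_pos
  unfold Rr
  constructor
  · rw [lt_div_iff₀ hc]; linarith
  · rw [div_lt_iff₀ hc]; linarith

theorem Rr_bounds : 1.0036155 < Rr ∧ Rr < 1.0036156 := by
  have h := Rr_tight
  constructor <;> linarith [h.1, h.2]

theorem c6_bounds : 0.5243072 < c6 ∧ c6 < 0.5243073 := by
  have h := c6_tight
  constructor <;> linarith [h.1, h.2]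

theorem s6_bounds : 0.8515291 < s6 ∧ s6 < 0.8515292 := by
  have h := s6_tight
  constructor <;> linarith [h.1, h.2]

theorem c12_bounds : -0.4502038 < c12 ∧ c12 < -0.4502037 := by
  have h := c12_tight
  constructor <;> linarith [h.1, h.2]

theorem s12_bounds : 0.8929258 < s12 ∧ s12 < 0.8929259 := by
  have h := s12_tight
  constructor <;> linarith [h.1, h.2]

theorem l0_tight : 2.0036155364 < l0 ∧ l0 < 2.0036155366 := by
  have h := Rr_tight
  unfold l0
  constructor <;> linarith [h.1, h.2]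

/-- product bounds used below -/
theorem prod_bounds : (0.2360451024 < c6 * (-c12) ∧ c6 * (-c12) < 0.2360451027) ∧
    (4.014475217 < l0 * l0 ∧ l0 * l0 < 4.014475219) := by
  obtain ⟨h1, h2⟩ := c6_tight
  obtain ⟨h3, h4⟩ := c12_tight
  obtain ⟨h5, h6⟩ := l0_tight
  have a := mul_bd h1 h2 (show (0.4502037447 : ℝ) < -c12 by linarith)
    (show -c12 < (0.4502037450 : ℝ) by linarith) (by norm_num) (by norm_num)
  have b := mul_bd h5 h6 h5 h6 (by norm_num) (by norm_num)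
  norm_num at a b
  refine ⟨⟨?_, ?_⟩, ?_, ?_⟩
  · linarith [a.1]
  · linarith [a.2]
  · linarith [b.1]
  · linarith [b.2]

theorem As_bounds : 1.7365775 < As ∧ As < 1.7365785 := by
  obtain ⟨h1, h2⟩ := c6_tight
  obtain ⟨h3, h4⟩ := c12_tight
  obtain ⟨h5, h6⟩ := l0_tight
  obtain ⟨h7, h8⟩ := s6_tight
  obtain ⟨⟨h9, h10⟩, h11, h12⟩ := prod_bounds
  have hs := s6_pos
  have a := mul_bd h5 h6 (show (0.5243072835 + 0.4502037447 : ℝ) < c6 + (-c12) by linarith)
    (show c6 + (-c12) < (0.5243072836 + 0.4502037450 : ℝ) by linarith) (by norm_num) (by norm_num)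
  have b := mul_bd h11 h12 h9 h10 (by norm_num) (by norm_num)
  norm_num at a b
  have e : l0 * (c6 - c12 + l0 * c6 * c12 / 2) =
      l0 * (c6 + -c12) - (l0 * l0 * (c6 * (-c12))) / 2 := by ring
  unfold As
  rw [e]
  constructor
  · rw [lt_div_iff₀ hs]; linarith [a.1, b.2]
  · rw [div_lt_iff₀ hs]; linarith [a.2, b.1]

theorem kap_bounds : 0.1025 < kap ∧ kap < 0.102502 := by
  obtain ⟨h1, h2⟩ := c6_tight
  obtain ⟨h5, h6⟩ := l0_tight
  obtain ⟨-, h11, h12⟩ := prod_bounds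
  have a := mul_bd h1 h2 h1 h2 (by norm_num) (by norm_num)
  have b := mul_bd h11 h12 a.1 a.2 (by norm_num) (by norm_num)
  have c := mul_bd h5 h6 h1 h2 (by norm_num) (by norm_num)
  norm_num at a b c
  have e : l0 * (1 - l0 / 2 + 2 * l0 * c6 ^ 2 - 2 * c6) =
      l0 - l0 * l0 / 2 + 2 * (l0 * l0 * (c6 * c6)) - 2 * (l0 * c6) := by ring
  unfold kap
  rw [e]
  constructor
  · linarith [b.1, c.2]
  · linarith [b.2, c.1]

theorem H_bounds : 1.4760784 < 2 * c6 - 2 * c12 + l0 * c6 * c12 ∧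
    2 * c6 - 2 * c12 + l0 * c6 * c12 < 1.4760785 := by
  obtain ⟨h1, h2⟩ := c6_tight
  obtain ⟨h3, h4⟩ := c12_tight
  obtain ⟨h5, h6⟩ := l0_tight
  obtain ⟨⟨h9, h10⟩, -⟩ := prod_bounds
  have a := mul_bd h5 h6 h9 h10 (by norm_num) (by norm_num)
  norm_num at a
  have e : 2 * c6 - 2 * c12 + l0 * c6 * c12 = 2 * c6 - 2 * c12 - l0 * (c6 * -c12) := by ring
  rw [e]
  constructor
  · linarith [a.2]
  · linarith [a.1]

theorem hst_bounds : 1.733443 < hst ∧ hst < 1.733446 := by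
  obtain ⟨h1, h2⟩ := H_bounds
  obtain ⟨h7, h8⟩ := s6_tight
  have hs := s6_pos
  rw [hst_eq]
  constructor
  · rw [lt_div_iff₀ hs]; linarith
  · rw [div_lt_iff₀ hs]; linarith

theorem Xst_bounds : 0.999262 < Xst ∧ Xst < 0.999267 := by
  obtain ⟨h1, h2⟩ := H_bounds
  obtain ⟨h3, h4⟩ := c6_tight
  have hs := s6_pos
  have hc : 0 < c6 := by linarith
  rw [Xst_eq, hst_eq, div_mul_cancel₀ _ hs.ne']
  constructor
  · rw [lt_div_iff₀ hc]; linarith
  · rw [div_lt_iff₀ hc]; linarith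

theorem two_As_eq : 2 * As = l0 * hst := by
  have hs := s6_pos
  rw [hst_eq]
  unfold As
  field_simp

theorem dens_bounds : 0.906715 < dens ∧ dens < 0.906716 := by
  obtain ⟨h1, h2⟩ := H_bounds
  obtain ⟨h3, h4⟩ := s6_tight
  obtain ⟨h5, h6⟩ := cosh_tight
  obtain ⟨h7, h8⟩ := sinh_tight
  have hs := s6_pos
  have hc := cos_half_p_pos
  have e : dens = 37 * (sin (p / 2) * s6) /
      ((1 + cos (p / 2)) * (2 * c6 - 2 * c12 + l0 * c6 * c12)) := by
    unfold dens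
    rw [← half_p, hst_eq, tan_eq_sin_div_cos]
    have hH : 2 * c6 - 2 * c12 + l0 * c6 * c12 ≠ 0 := by linarith
    have h1c : 1 + cos (p / 2) ≠ 0 := by linarith
    field_simp
    ring
  have a := mul_bd h7 h8 h3 h4 (by norm_num) (by norm_num)
  have b := mul_bd (show (1 + 0.9963974885423 : ℝ) < 1 + cos (p / 2) by linarith)
    (show 1 + cos (p / 2) < (1 + 0.9963974885426 : ℝ) by linarith) h1 h2 (by norm_num) (by norm_num)
  have hpos : 0 < (1 + cos (p / 2)) * (2 * c6 - 2 * c12 + l0 * c6 * c12) :=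
    mul_pos (by linarith) (by linarith)
  norm_num at a b
  rw [e]
  constructor
  · rw [lt_div_iff₀ hpos]; linarith [a.1, b.2]
  · rw [div_lt_iff₀ hpos]; linarith [a.2, b.1]

theorem sqrt3_bounds : 1.7320508 < √3 ∧ √3 < 1.7320509 := by
  constructor
  · apply Real.lt_sqrt_of_sq_lt
    norm_num
  · rw [Real.sqrt_lt' (by norm_num)]
    norm_num

end Pool.Agent.Lib.P37
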