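import Pool.Agent.Lib.MP_c009e6_co.Checker
import Pool.Agent.Lib.MP_c009e6_co.Body
import Pool.Agent.Lib.MP_c009e6_co.FDefs
import Pool.Agent.Lib.MP_c009e6_co.GCard
import Pool.Agent.Lib.MP_c009e6_co.Num

section

section

/-!
# Certificates for the box check, part 0
-/

namespace Pool.Agent.Lib.P37.Chk

open Crt

theorem c_0_0_0 : colCheck 16 16 16 [
    (E [31]),
    (E [31]),
    (E [31]),
    (E [31]),
    (E [31]),
    (E [31]),
    (E [31]),
    (E [31]),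
    (E [31]),
    (E [31]),
    (E [81]),
    (E [81])] = true := by
  decide +kernel

theorem c_0_1_0 : colCheck 16 48 16 [
    (E [31]),
    (E [33]),
    (E [43]),
    (E [38]),
    (E [28]),
    (E [33]),
    (N (E [31]) (E [31]) (E [31]) (E [31]) (E [31]) (E [31]) (E [31]) (E [31])),
    (N (E [31]) (E [31]) (E [31]) (E [31]) (E [31]) (E [31]) (E [31]) (E [31])),
    (E [33]),
    (N (E [31]) (E [31]) (E [31]) (E [33]) (E [31]) (E [31]) (E [31]) (E [31])),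
    (E [84]),
    (E [83])] = true := by
  decide +kernel

theorem c_0_2_0 : colCheck 16 80 16 [
    (E [31]),
    (E [31]),
    (E [33]),
    (N (E [31]) (E [43]) (E [31]) (E [31]) (E [33]) (E [43]) (E [31]) (E [33])),
    (N (E [32, 42]) (E [26]) (N (E [41]) (E [41]) (E [31]) (E [31]) (E [41]) (E [41]) (E [31]) (E [41])) (N (E [31]) (E [31]) (E [31]) (E [31]) (E [31]) (E [31]) (E [41]) (E [31])) (E [38]) (E [33]) (N (E [31]) (E [43]) (E [31]) (E [41]) (E [33]) (E [43]) (V 3) (V 3)) (N (E [36, 33]) (E [26]) (E [31, 41]) (E [26, 36]) (E [33]) (E [33]) (V 3) (V 3))),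
    (N (E [31]) (E [31]) (E [26]) (E [31]) (E [33]) (E [33]) (N (E [26]) (E [31]) (E [26]) (E [26]) (E [33]) (E [31]) (V 3) (V 3)) (N (E [31]) (E [31]) (E [31]) (E [31]) (E [31]) (E [31]) (V 3) (E [31]))),
    (N (E [31]) (E [31]) (E [31]) (E [31]) (E [33]) (E [33]) (N (E [31]) (E [31]) (E [31]) (E [31]) (E [31]) (E [31]) (E [31]) (E [31])) (E [31, 32])),
    (N (E [31]) (E [31]) (E [31]) (E [31]) (E [33]) (E [31]) (E [31]) (E [31])),
    (N (E [31]) (E [31]) (E [31]) (E [31]) (E [31]) (E [31]) (E [31]) (E [31])),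
    (N (E [31]) (E [31]) (E [31]) (E [31]) (E [31]) (E [31]) (E [31]) (E [31])),
    (N (E [31]) (E [81]) (E [31]) (E [31]) (E [31]) (E [31]) (E [31]) (E [31])),
    (E [108])] = true := by
  decide +kernel

theorem c_0_3_0 : colCheck 16 112 16 [
    (E [31]),
    (E [31]),
    (E [31]),
    (N (E [31]) (E [31]) (E [31]) (E [31]) (E [31]) (E [31]) (E [31]) (E [31])),
    (N (E [31]) (E [41]) (E [31]) (E [31]) (E [31]) (N (E [41]) (E [40]) (E [31]) (E [41]) (V 3) (V 3) (V 3) (V 3)) (E [31]) (E [31])),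
    (N (E [31, 26]) (E [26]) (E [41]) (E [31]) (N (E [30]) (E [26]) (E [41]) (E [31]) (V 3) (V 3) (V 3) (V 3)) (N (E [26]) (E [31]) (E [31]) (E [26]) (V 3) (V 3) (V 3) (V 3)) (E [31, 41]) (E [26, 36])),
    (N (E [31]) (E [31]) (E [26]) (E [31]) (N (E [31]) (E [31]) (E [31]) (E [31]) (E [31]) (E [31]) (V 3) (E [31])) (N (E [31]) (E [31]) (E [31]) (E [31]) (E [31]) (E [31]) (E [31]) (E [31])) (E [26]) (E [31])),
    (N (E [31]) (E [31]) (E [31]) (E [31]) (E [31]) (E [31]) (E [31]) (E [31])),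
    (E [30]),
    (E [6]),
    (E [30]),
    (E [81])] = true := by
  decide +kernel

theorem c_0_4_0 : colCheck 16 144 16 [
    (E [31]),
    (E [31]),
    (E [31]),
    (E [31]),
    (E [31]),
    (N (E [31]) (E [41]) (E [31]) (E [31]) (E [31]) (E [41]) (E [31]) (E [31])),
    (N (E [31]) (E [31]) (E [41]) (E [31]) (E [31]) (E [31]) (E [41]) (E [31])),
    (E [26]),
    (E [31]),
    (E [31]),
    (E [31]),
    (E [81])] = true := by
  decide +kernel

theorem c_0_5_0 : colCheck 16 176 16 [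
    (E [31]),
    (E [31]),
    (E [31]),
    (E [31]),
    (E [31]),
    (E [31]),
    (E [41]),
    (E [36]),
    (E [31]),
    (E [31]),
    (N (E [31]) (E [31]) (E [31]) (E [81]) (E [31]) (E [31]) (E [31]) (E [31])),
    (E [81])] = true := by
  decide +kernel

theorem c_0_6_0 : colCheck 16 208 16 [
    (E [31]),
    (E [31]),
    (E [31]),
    (E [31]),
    (E [31]),
    (E [31]),
    (E [31]),
    (E [41]),
    (N (E [31]) (E [31]) (E [31]) (E [31]) (E [31]) (E [31]) (E [31]) (E [31])),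
    (N (E [31]) (E [31]) (E [31]) (N (E [31]) (E [31]) (E [31]) (E [31]) (E [31]) (E [31]) (E [31]) (E [31])) (E [31]) (E [31]) (E [31]) (E [31])),
    (N (E [81]) (E [81]) (N (E [31]) (E [81]) (E [81]) (E [81]) (E [31]) (E [31]) (E [31]) (E [81])) (E [81]) (E [31]) (E [81]) (E [31, 56]) (N (E [31]) (E [81]) (E [31]) (E [81]) (E [31]) (E [31]) (E [31]) (E [31]))),
    (N (E [31]) (E [31]) (E [31]) (E [31]) (E [81]) (E [31]) (E [81]) (E [31]))] = true := by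
  decide +kernel

end Pool.Agent.Lib.P37.Chk
end

section

/-!
# Certificates for the box check, part 10
-/

namespace Pool.Agent.Lib.P37.Chk

open Crt

theorem c_3_5_5 : colCheck 112 176 176 [
    (N (N (N (E [33]) (E [33]) (E [31]) (E [31]) (E [33]) (E [33]) (E [33]) (E [33])) (N (E [33]) (E [33]) (E [31]) (E [31]) (E [33]) (E [33]) (E [33]) (E [33])) (E [31]) (E [31]) (E [34]) (E [34]) (E [31, 33]) (E [31, 33])) (N (N (E [33]) (E [33]) (E [31]) (E [31]) (E [33]) (E [33]) (E [33]) (E [33])) (N (E [33]) (E [33]) (E [31]) (E [31]) (E [33]) (E [33]) (E [33]) (E [33])) (E [31]) (E [31]) (E [34]) (E [34]) (E [31, 33]) (E [31, 33])) (N (E [31]) (E [31]) (E [31]) (E [31]) (E [31]) (E [31]) (E [31]) (E [31])) (N (E [31]) (E [31]) (E [31]) (E [31]) (E [31]) (E [31]) (E [31]) (E [31])) (N (E [34]) (E [34]) (E [34]) (E [33]) (E [31]) (E [31]) (E [34]) (E [34])) (N (E [34]) (E [34]) (E [33]) (E [33]) (E [34]) (E [34])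 (E [34]) (E [33])) (N (E [31, 33]) (E [33]) (E [31]) (E [31]) (E [33]) (E [33]) (E [33]) (E [31])) (N (E [33]) (E [33]) (E [31]) (E [31]) (E [33]) (E [33]) (E [31]) (E [31])))] = true := by
  decide +kernel

theorem c_3_5_6 : colCheck 112 176 208 [
    (N (N (N (V 3) (V 3) (E [31]) (E [31]) (E [33]) (E [33]) (E [33]) (E [31])) (N (V 3) (V 3) (E [31]) (E [31]) (E [33]) (E [33]) (E [31]) (E [31])) (E [31]) (E [31]) (E [34]) (E [49]) (E [33]) (E [33])) (N (E [48]) (E [48]) (E [46]) (E [41]) (E [48]) (E [43]) (E [46]) (E [46])) (E [30]) (E [46]) (N (E [34]) (E [49]) (E [33]) (E [33]) (E [34]) (E [49]) (E [33]) (E [33])) (N (E [48]) (E [43]) (E [48]) (E [43]) (E [48]) (E [43]) (E [48]) (E [43])) (N (E [31]) (E [31]) (E [31]) (E [31]) (E [33]) (E [33]) (E [31]) (E [31])) (E [46, 48])),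
    (N (E [41, 33, 43]) (E [26]) (E [41]) (E [31]) (E [38]) (E [33]) (E [46]) (E [31])),
    (E [26]),
    (E [31]),
    (E [31, 30, 33]),
    (N (E [31]) (E [31]) (E [31]) (E [30]) (E [31]) (E [33]) (E [31]) (E [31]))] = true := by
  decide +kernel

theorem c_3_6_3 : colCheck 112 208 112 [
    (N (E [31]) (E [31]) (E [31]) (E [31]) (N (E [30]) (E [30]) (E [31]) (E [31]) (N (E [30]) (E [30]) (E [30]) (E [30]) (V 5) (N (V 5) (E [31]) (V 5) (E [31]) (V 5) (E [31]) (V 5) (E [31])) (V 5) (E [30])) (N (E [31]) (E [31]) (E [31]) (E [31]) (E [30]) (E [31]) (E [31]) (E [31])) (E [30]) (E [30])) (N (E [30]) (E [31]) (E [31]) (E [31]) (E [30]) (E [31]) (E [30]) (E [31])) (N (E [31]) (E [31]) (E [31]) (E [31]) (E [31]) (E [31]) (E [31]) (E [31])) (E [31])),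
    (N (E [31]) (E [30]) (E [31]) (E [31]) (N (E [31]) (E [31]) (E [31]) (E [31]) (E [31]) (E [31]) (E [31]) (E [31])) (E [31, 30]) (E [30]) (E [30])),
    (N (E [30]) (E [31]) (E [31]) (E [31]) (E [30]) (E [31]) (E [31]) (E [31])),
    (N (E [31]) (E [31]) (E [31]) (E [31]) (E [31]) (E [31]) (E [31]) (E [31])),
    (E [45]),
    (E [30, 40]),
    (E [25]),
    (E [30]),
    (N (E [31]) (E [31]) (E [31]) (E [31]) (E [31]) (E [31]) (E [31]) (E [31]))] = true := by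
  decide +kernel

theorem c_3_7_3 : colCheck 112 240 112 [
    (N (E [31]) (E [31]) (E [31]) (E [31]) (E [31]) (E [31]) (E [31]) (E [31])),
    (N (E [31]) (E [31]) (E [31]) (E [31]) (E [31]) (E [31]) (E [31]) (E [31])),
    (E [31]),
    (E [31]),
    (E [31]),
    (E [41]),
    (E [26, 41]),
    (E [26]),
    (N (E [31]) (E [31]) (E [31]) (E [31]) (E [31]) (E [31]) (E [31]) (E [31]))] = true := by
  decide +kernel

theorem c_3_8_3 : colCheck 112 272 112 [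
    (E [31]),
    (E [31]),
    (E [31]),
    (E [31]),
    (E [31]),
    (E [31]),
    (E [41]),
    (E [26, 41]),
    (E [26])] = true := by
  decide +kernel

theorem c_3_9_3 : colCheck 112 304 112 [
    (E [31]),
    (E [31]),
    (E [31]),
    (E [31]),
    (E [31]),
    (E [31]),
    (E [31]),
    (E [41]),
    (E [31])] = true := by
  decide +kernel

theorem c_3_10_3 : colCheck 112 336 112 [
    (E [31]),
    (E [31]),
    (E [31]),
    (E [31]),
    (E [31]),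
    (E [31]),
    (E [31]),
    (E [31]),
    (E [41])] = true := by
  decide +kernel

theorem c_3_11_3 : colCheck 112 368 112 [
    (E [31]),
    (E [31]),
    (E [31]),
    (E [31]),
    (E [31]),
    (E [31]),
    (E [31]),
    (E [31]),
    (E [31])] = true := by
  decide +kernel

end Pool.Agent.Lib.P37.Chk
end

section

/-!
# Certificates for the box check, part 11
-/

namespace Pool.Agent.Lib.P37.Chk

open Crt

theorem c_4_4_4 : colCheck 144 144 144 [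
    (N (N (E [31]) (E [31]) (E [31]) (E [31]) (E [31]) (E [31]) (E [31]) (E [31])) (N (E [31]) (E [31]) (E [31]) (E [31]) (E [31]) (E [31]) (E [31]) (E [31])) (N (E [31]) (E [31]) (E [31]) (E [31]) (E [31]) (E [31]) (E [31]) (E [31])) (N (E [31]) (E [31]) (E [31]) (E [31]) (E [31]) (E [31]) (E [31]) (E [31])) (N (E [31]) (E [31]) (E [31]) (E [31]) (E [31]) (E [31]) (E [31]) (E [31])) (N (E [31]) (E [31]) (E [31]) (E [31]) (E [31]) (E [31]) (E [31]) (E [31])) (N (E [31]) (E [31]) (E [31]) (E [31]) (E [31]) (E [31]) (E [31]) (E [31])) (N (E [31]) (E [31]) (E [31]) (E [31]) (E [31]) (E [31]) (E [31]) (E [31]))),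
    (N (N (E [31]) (E [31]) (E [31]) (E [31]) (E [31]) (E [31]) (E [31]) (E [31])) (N (E [46]) (E [46]) (E [31]) (E [46]) (E [46]) (E [46]) (E [31]) (E [46])) (N (E [31]) (E [31]) (E [31]) (E [31]) (E [31]) (E [31]) (E [31]) (E [31])) (N (E [31]) (E [46]) (E [31]) (E [31]) (E [31]) (E [46]) (E [31]) (E [31])) (N (E [31]) (E [31]) (E [31]) (E [31]) (E [31]) (E [31]) (E [31]) (E [31])) (N (E [46]) (E [41]) (E [46]) (E [46]) (E [46]) (E [41]) (E [46]) (E [41])) (N (E [31]) (E [31]) (E [31]) (E [31]) (E [31]) (E [31]) (E [31]) (E [31])) (E [46]))] = true := by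
  decide +kernel

theorem c_4_4_6 : colCheck 144 144 208 [
    (N (N (E [31, 41]) (E [31]) (E [41]) (E [36]) (E [36]) (E [31]) (E [41]) (E [31])) (E [26]) (N (E [46]) (E [41]) (E [46]) (E [41]) (E [46]) (E [41]) (E [46]) (E [41])) (E [31, 41]) (N (E [41]) (E [31]) (E [41]) (E [31]) (E [31]) (E [31]) (E [41]) (E [31])) (E [31]) (E [46]) (E [41])),
    (N (E [31]) (E [31]) (E [31]) (E [31]) (E [31]) (E [31]) (E [31]) (E [31])),
    (E [31]),
    (E [31]),
    (E [31]),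
    (E [31])] = true := by
  decide +kernel

theorem c_4_5_4 : colCheck 144 176 144 [
    (N (N (E [31]) (E [31]) (E [31]) (E [31]) (E [31]) (E [31]) (E [31]) (E [31])) (N (E [31]) (E [31]) (E [31]) (E [31]) (E [31]) (E [31]) (E [31]) (E [31])) (N (E [34]) (E [34]) (E [34]) (E [34]) (E [31]) (E [31]) (E [34]) (E [34])) (N (E [34]) (E [34]) (E [33]) (E [33]) (E [34]) (E [34]) (E [34]) (E [33])) (N (E [31]) (E [31]) (E [31]) (E [31]) (E [31]) (E [31]) (E [31]) (E [31])) (N (E [31]) (E [31]) (E [31]) (E [31]) (E [31]) (E [31]) (E [31]) (E [31])) (N (E [31]) (E [31]) (E [34]) (E [34]) (E [31]) (E [31]) (E [31]) (E [31])) (E [34])),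
    (N (N (E [31]) (E [31]) (E [34]) (E [34]) (E [31]) (E [31]) (E [31]) (E [31])) (N (E [31]) (E [31]) (E [34]) (E [33]) (E [31]) (E [31]) (E [31]) (E [31])) (E [34]) (E [34]) (E [31]) (E [31]) (E [34]) (E [34])),
    (N (E [49]) (E [49]) (E [34]) (E [48]) (E [46]) (E [41]) (E [34]) (E [48])),
    (N (E [38]) (E [33]) (E [43]) (E [31]) (E [31]) (E [31]) (E [43]) (E [33])),
    (E [33]),
    (E [33]),
    (E [33]),
    (E [31, 33])] = true := by
  decide +kernel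

theorem c_4_6_4 : colCheck 144 208 144 [
    (N (N (E [31, 33]) (E [32]) (E [31]) (E [31]) (E [34]) (E [33]) (E [32]) (E [31])) (N (E [33]) (E [31]) (E [31]) (E [31]) (E [33]) (E [33]) (E [31]) (E [31])) (E [30]) (E [31]) (N (E [34]) (E [33]) (E [33]) (E [33]) (E [34]) (E [34]) (E [33]) (E [33])) (E [34]) (E [31, 33]) (E [33])),
    (N (E [31, 33]) (E [31, 33]) (E [31]) (E [31]) (E [34]) (E [33]) (E [31]) (E [31])),
    (N (E [33]) (E [31]) (E [31]) (E [31]) (E [33]) (E [33]) (E [31]) (E [31])),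
    (N (E [41]) (E [31]) (E [31]) (E [41]) (E [46]) (E [31]) (E [31]) (E [41])),
    (E [31, 41]),
    (E [26, 28]),
    (E [30, 33]),
    (N (E [31]) (E [31]) (E [31]) (E [31]) (E [33]) (E [33]) (E [31]) (E [31]))] = true := by
  decide +kernel

theorem c_4_7_4 : colCheck 144 240 144 [
    (N (E [31]) (E [31]) (E [31]) (E [31]) (E [31]) (E [31]) (E [31]) (E [31])),
    (E [30]),
    (E [30]),
    (E [31]),
    (E [46]),
    (E [30, 40]),
    (E [25]),
    (E [30])] = true := by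
  decide +kernel

theorem c_4_8_4 : colCheck 144 272 144 [
    (E [31]),
    (E [31]),
    (E [31]),
    (E [31]),
    (E [31]),
    (E [41]),
    (E [31]),
    (E [26])] = true := by
  decide +kernel

theorem c_4_9_4 : colCheck 144 304 144 [
    (E [31]),
    (E [31]),
    (E [31]),
    (E [31]),
    (E [31]),
    (E [31]),
    (E [41]),
    (E [31])] = true := by
  decide +kernel

theorem c_4_10_4 : colCheck 144 336 144 [
    (E [31]),
    (E [31]),
    (E [31]),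
    (E [31]),
    (E [31]),
    (E [31]),
    (E [31]),
    (E [41])] = true := by
  decide +kernel

theorem c_4_11_4 : colCheck 144 368 144 [
    (E [31]),
    (E [31]),
    (E [31]),
    (E [31]),
    (E [31]),
    (E [31]),
    (E [31]),
    (E [31])] = true := by
  decide +kernel

theorem c_5_5_5 : colCheck 176 176 176 [
    (N (E [31]) (E [31]) (E [31]) (E [31]) (E [31]) (E [31]) (E [31]) (E [31])),
    (N (E [46]) (E [41]) (E [31]) (E [41]) (E [41]) (E [41]) (E [31]) (E [41])),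
    (E [41]),
    (E [31]),
    (E [31]),
    (E [31]),
    (E [31])] = true := by
  decide +kernel

theorem c_5_6_5 : colCheck 176 208 176 [
    (N (E [34]) (E [33]) (E [33]) (E [33]) (E [31]) (E [31]) (E [33]) (E [33])),
    (N (E [33]) (E [33]) (E [31]) (E [31]) (E [31]) (E [31]) (E [33]) (E [31])),
    (E [48]),
    (E [33]),
    (E [28]),
    (E [33]),
    (E [33])] = true := by
  decide +kernel

end Pool.Agent.Lib.P37.Chk
end

section

/-!
# Certificates for the box check, part 13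
-/

namespace Pool.Agent.Lib.P37.Chk

open Crt

theorem c_7_9_7 : colCheck 240 304 240 [
    (N (E [31]) (E [31]) (E [31]) (E [31]) (E [33]) (E [33]) (E [31]) (E [33])),
    (N (E [31]) (E [33]) (E [31]) (E [31]) (E [33]) (E [34]) (E [33]) (E [31, 33])),
    (N (E [33]) (E [31, 33]) (E [31]) (E [30]) (E [34]) (N (E [33]) (E [33]) (E [33]) (E [33]) (E [34]) (E [34]) (E [34]) (E [34])) (N (E [31]) (E [31]) (E [31]) (E [31]) (E [33]) (E [33]) (E [33]) (E [33])) (N (E [33]) (E [33]) (E [31]) (E [31]) (E [33]) (E [34]) (E [31, 33]) (E [31, 33]))),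
    (N (N (E [31]) (E [48]) (E [31]) (E [31]) (E [33]) (E [48]) (E [33]) (E [33])) (V 2) (N (E [31]) (E [31]) (E [31]) (E [31]) (E [31]) (E [31]) (E [31]) (E [31])) (N (V 2) (V 2) (E [31]) (V 2) (V 2) (V 2) (E [30]) (V 2)) (N (E [34]) (E [49]) (E [34]) (E [34]) (E [34]) (E [49]) (E [34]) (E [34])) (V 2) (N (E [31, 33]) (N (E [31]) (V 2) (E [31]) (E [31]) (E [33]) (V 2) (E [33]) (E [33])) (E [31]) (E [30, 33]) (E [34]) (E [34]) (E [31, 34]) (N (E [33]) (E [31, 33]) (E [31]) (E [31]) (E [33]) (E [34]) (E [33]) (E [31, 33]))) (N (V 2) (V 2) (N (E [31]) (V 2) (E [31]) (E [31]) (E [31]) (V 2) (E [31]) (E [31])) (V 2) (V 2) (V 2) (N (E [31, 34]) (V 2) (E [31]) (E [31, 33]) (E [34]) (V 2) (E [31, 34]) (E [31, 34])) (V 2))),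
    (N (V 2) (N (V 2) (E [31]) (V 2) (V 2) (V 2) (E [33]) (V 2) (V 2)) (V 2) (V 2) (V 2) (N (V 2) (E [34]) (V 2) (V 2) (V 2) (E [31]) (V 2) (V 2)) (V 2) (V 2))] = true := by
  decide +kernel

theorem c_7_10_7 : colCheck 240 336 240 [
    (N (E [31]) (E [31]) (E [31]) (E [31]) (E [31]) (E [31]) (E [31]) (E [31])),
    (N (E [31]) (E [31]) (E [31]) (E [31]) (E [31]) (E [30]) (E [31]) (E [30])),
    (N (E [30]) (E [30]) (E [31]) (E [31]) (N (E [31]) (E [31]) (E [31]) (E [31]) (E [31]) (E [31]) (E [31]) (E [31])) (N (E [31]) (E [31]) (E [31]) (E [31]) (E [31]) (E [31]) (E [31]) (E [31])) (E [30]) (E [31])),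
    (N (E [31]) (N (E [31]) (E [31]) (E [31]) (E [31]) (E [31]) (E [31]) (E [31]) (E [31])) (E [31]) (E [31]) (N (E [31]) (E [30]) (E [31]) (E [31]) (E [31, 33]) (N (E [31]) (E [31]) (E [31]) (E [31]) (E [31]) (E [31]) (E [31]) (E [31])) (E [31]) (E [30])) (N (E [30]) (N (E [31]) (V 2) (E [31]) (E [31]) (E [30]) (V 2) (E [31]) (E [30])) (E [31]) (E [31]) (N (E [31]) (E [30]) (E [31]) (E [31]) (E [31, 33]) (E [31, 33]) (E [31]) (E [31])) (N (E [30]) (V 2) (E [31]) (E [30]) (N (V 2) (V 2) (E [31]) (V 2) (V 2) (V 2) (E [31]) (V 2)) (V 2) (E [30]) (E [30])) (E [30]) (N (E [30]) (E [30]) (E [31]) (E [31]) (E [31]) (E [30]) (E [31]) (E [30]))) (E [31]) (N (E [31]) (E [31]) (E [31]) (E [31]) (E [31]) (E [31]) (E [31]) (E [31])))] = true := by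
  decide +kernel

theorem c_7_10_11 : colCheck 240 336 368 [
    (N (N (E [31]) (E [31]) (E [31]) (E [31]) (V 2) (V 2) (E [31]) (E [31])) (N (E [46]) (E [46]) (E [31]) (E [41]) (V 2) (V 2) (E [31]) (E [46])) (E [31]) (E [31]) (N (V 2) (V 2) (E [31]) (V 2) (V 2) (V 2) (N (E [30]) (V 2) (E [31]) (E [31]) (E [30]) (V 2) (E [30]) (E [30])) (V 2)) (V 2) (N (E [31]) (E [31]) (E [31]) (E [31]) (E [31]) (E [31]) (E [31]) (E [31])) (N (E [31]) (E [31]) (E [31]) (E [31]) (V 2) (V 2) (E [31]) (E [31])))] = true := by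
  decide +kernel

theorem c_7_11_7 : colCheck 240 368 240 [
    (N (E [31]) (E [31]) (E [31]) (E [31]) (E [31]) (E [31]) (E [31]) (E [31])),
    (N (E [31]) (E [31]) (E [31]) (E [31]) (E [31]) (E [31]) (E [31]) (E [31])),
    (N (E [31]) (E [31]) (E [31]) (E [31]) (E [31]) (E [31]) (E [31]) (E [31])),
    (N (E [31]) (E [31]) (E [31]) (E [31]) (E [31]) (E [31]) (E [31]) (E [31])),
    (N (E [31]) (E [31]) (E [31]) (E [31]) (E [31]) (E [31]) (E [31]) (E [31]))] = true := by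
  decide +kernel

theorem c_8_8_8 : colCheck 272 272 272 [
    (N (E [31]) (E [31]) (E [31]) (E [31]) (E [31]) (E [31]) (E [31]) (E [31])),
    (N (E [46]) (E [46]) (E [31]) (E [46]) (E [46]) (E [46]) (E [31]) (N (E [31]) (E [46]) (E [31]) (E [31]) (E [31]) (E [46]) (E [31]) (E [31]))),
    (N (N (E [31]) (E [31]) (E [41]) (E [41]) (E [31]) (E [31]) (E [41]) (E [41])) (N (E [31]) (E [31]) (E [31]) (E [31]) (E [31]) (E [31]) (E [31]) (E [31])) (N (E [41]) (E [41]) (E [46]) (E [46]) (E [46]) (E [46]) (E [46]) (E [46])) (N (E [41]) (E [31]) (E [46]) (E [31, 46]) (E [41]) (E [31]) (E [46]) (N (E [41]) (E [31]) (E [41]) (E [41]) (E [41]) (E [31]) (E [41]) (E [41]))) (N (E [41]) (E [31]) (E [41]) (E [41]) (E [41]) (E [31]) (E [41]) (E [41])) (N (E [31]) (E [31]) (E [31]) (E [31]) (E [31]) (E [31]) (E [31]) (E [31])) (N (E [46]) (E [46]) (E [31]) (E [46]) (E [46]) (E [46]) (E [31]) (E [46])) (N (E [31, 41]) (E [31])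 (E [46]) (E [36, 46]) (E [31, 41]) (E [31]) (E [46]) (E [36, 46]))),
    (N (E [31]) (E [31]) (N (E [31]) (E [31]) (E [31, 41]) (E [31]) (E [31]) (E [31]) (E [31, 41]) (E [31])) (E [31]) (E [31]) (E [31]) (N (E [31]) (E [31]) (N (E [31]) (E [31]) (E [31]) (E [31]) (E [31]) (E [31]) (E [31]) (E [31])) (E [31]) (E [31]) (E [31]) (E [31, 41]) (E [31])) (E [31]))] = true := by
  decide +kernel

end Pool.Agent.Lib.P37.Chk
end

section

/-!
# Certificates for the box check, part 14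
-/

namespace Pool.Agent.Lib.P37.Chk

open Crt

theorem c_8_9_8 : colCheck 272 304 272 [
    (N (E [34]) (E [34]) (E [34]) (N (E [33]) (E [33]) (E [33]) (E [33]) (E [33]) (E [34]) (E [33]) (E [34])) (E [31]) (E [31]) (E [34]) (N (E [31]) (E [31]) (E [34]) (E [34]) (E [31]) (E [31]) (E [31]) (E [31]))),
    (N (E [34]) (N (E [31]) (E [31]) (E [34]) (E [34]) (E [31]) (E [31]) (E [31]) (E [31])) (N (E [33]) (E [34]) (E [33]) (E [33]) (E [34]) (E [34]) (E [34]) (E [34])) (N (E [34]) (E [34]) (E [34]) (E [34]) (E [31]) (E [31]) (E [34]) (E [34])) (N (E [31]) (E [31]) (E [31]) (E [31]) (E [31]) (E [31]) (E [31]) (E [31])) (N (E [31]) (E [31]) (E [31]) (E [31]) (E [31]) (E [31]) (E [31]) (E [31])) (N (E [31]) (E [31]) (E [31]) (E [31]) (E [31]) (E [31]) (E [31]) (E [31])) (N (E [31]) (E [31]) (E [31]) (E [31]) (E [31]) (E [31]) (E [31]) (E [31])))] = true := by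
  decide +kernel

theorem c_8_9_10 : colCheck 272 304 336 [
    (N (N (E [31]) (E [31]) (E [31]) (E [31]) (E [31]) (E [31]) (E [31]) (E [31])) (N (E [46]) (N (V 2) (V 2) (V 2) (V 2) (E [46]) (E [41]) (V 2) (V 2)) (V 2) (V 2) (E [46]) (E [46]) (E [31]) (N (V 2) (V 2) (V 2) (V 2) (E [46]) (E [46]) (V 2) (V 2))) (N (E [34]) (E [34]) (E [34]) (N (E [34]) (E [34]) (E [33]) (E [34]) (E [34]) (E [34]) (E [34]) (E [34])) (E [31]) (E [31]) (E [34]) (E [34])) (N (V 2) (V 2) (N (E [34]) (V 2) (E [34]) (E [34]) (E [34]) (V 2) (E [34]) (E [34])) (V 2) (V 2) (V 2) (N (E [34]) (V 2) (E [34]) (E [34]) (E [31]) (V 2) (E [34]) (E [34])) (V 2)) (N (E [31]) (E [31]) (E [31]) (E [31]) (E [31]) (E [31]) (E [31]) (E [31])) (N (E [46]) (E [46]) (E [31]) (N (E [46]) (E [46]) (E [31]) (E [46]) (E [46]) (E [46]) (E [31]) (E [46])) (E [46]) (E [46]) (E [31]) (E [46])) (N (E [31]) (E [31]) (E [31]) (E [31]) (E [31]) (E [31]) (E [31])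 (E [31])) (N (E [31]) (N (V 2) (V 2) (V 2) (V 2) (E [31]) (E [31]) (V 2) (V 2)) (E [31]) (V 2) (E [31]) (E [31]) (E [31]) (E [31])))] = true := by
  decide +kernel

theorem c_8_9_11 : colCheck 272 304 368 [
    (N (N (N (V 2) (V 2) (V 2) (V 2) (E [41]) (E [36]) (V 2) (V 2)) (N (V 2) (V 2) (V 2) (V 2) (E [31]) (E [31]) (V 2) (V 2)) (V 2) (V 2) (N (E [41]) (E [36]) (E [46]) (E [41, 46]) (E [41]) (E [36]) (E [46]) (E [41, 46])) (N (E [31]) (E [31]) (E [31, 46]) (E [31]) (E [31]) (E [31]) (E [36]) (E [31])) (N (V 2) (V 2) (V 2) (V 2) (E [46]) (E [46]) (V 2) (V 2)) (N (V 2) (V 2) (V 2) (V 2) (E [36, 46]) (N (V 2) (V 2) (V 2) (V 2) (E [31]) (E [31]) (V 2) (V 2)) (V 2) (V 2))) (N (E [26]) (E [31]) (V 2) (V 2) (E [31]) (E [31]) (N (V 2) (V 2) (V 2) (V 2) (E [31]) (E [31]) (V 2) (V 2)) (E [26])) (V 2) (V 2) (N (N (E [41]) (E [31]) (E [46]) (E [41]) (E [41]) (E [31]) (E [46]) (E [41, 46])) (N (E [31]) (E [31]) (E [31,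 41]) (E [31]) (E [31]) (E [31]) (E [36]) (E [31])) (N (E [46]) (E [46]) (E [46]) (E [46]) (E [46]) (E [46]) (E [46]) (E [46])) (N (E [36, 46]) (N (E [31]) (E [31]) (E [31]) (E [31]) (E [31]) (E [31]) (E [41]) (E [31])) (E [46]) (E [36, 46]) (E [41, 46]) (E [31, 41]) (E [46]) (N (E [41]) (E [41]) (V 2) (V 2) (E [41]) (E [41]) (E [41]) (E [41]))) (N (E [41]) (E [31]) (E [46]) (E [41, 46]) (E [41]) (E [31]) (E [41]) (E [41])) (N (E [31]) (E [31]) (E [31]) (E [31]) (E [31]) (E [31]) (E [31]) (E [31])) (N (E [46]) (E [46]) (E [46]) (E [46]) (E [46]) (E [46]) (E [46]) (E [46])) (N (E [41, 46]) (E [36]) (E [46]) (E [36, 46]) (E [46]) (E [31]) (E [46]) (E [41, 46]))) (N (E [31]) (E [31]) (N (E [31]) (E [31]) (N (V 2) (V 2) (V 2) (V 2) (V 2) (V 2) (V 2) (V 2)) (V 2) (E [31]) (E [31]) (E [36, 46]) (E [31])) (E [31]) (E [31]) (E [31]) (N (E [31]) (E [31]) (E [31, 41]) (E [31]) (E [31]) (E [31]) (E [31]) (E [31])) (E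 [31])) (N (N (V 2) (V 2) (V 2) (V 2) (E [46]) (E [46]) (V 2) (V 2)) (N (V 2) (V 2) (V 2) (V 2) (E [46]) (V 2) (V 2) (V 2)) (V 2) (V 2) (N (E [46]) (E [46]) (E [31]) (V 2) (E [46]) (E [46]) (E [31]) (E [46])) (N (E [46]) (E [46]) (V 2) (V 2) (E [46]) (E [46]) (E [46]) (E [46])) (V 2) (V 2)) (N (V 2) (V 2) (V 2) (V 2) (N (E [36, 46]) (E [36]) (V 2) (V 2) (E [41, 46]) (E [31]) (E [46]) (E [41, 46])) (N (E [31]) (E [31]) (V 2) (V 2) (E [31]) (E [31]) (E [31]) (E [31])) (V 2) (V 2)))] = true := by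
  decide +kernel

theorem c_8_10_8 : colCheck 272 336 272 [
    (N (N (E [31]) (E [31]) (E [31]) (E [31]) (E [33]) (E [33]) (E [33]) (E [33])) (N (E [33]) (E [33]) (E [31]) (E [31]) (E [33]) (E [33]) (E [33]) (E [33])) (N (E [31]) (E [31]) (E [31]) (E [31]) (E [31]) (E [31]) (E [31]) (E [31])) (N (E [31]) (E [31]) (E [31]) (E [31]) (E [31]) (E [31]) (E [31]) (E [31])) (N (E [33]) (E [34]) (E [33]) (E [33]) (E [34]) (E [34]) (E [34]) (E [34])) (N (E [34]) (E [34]) (E [34]) (E [34]) (E [31]) (E [31]) (E [34]) (E [34])) (N (E [33]) (E [33]) (E [31]) (E [31]) (E [34]) (E [34]) (E [32, 34]) (N (E [33]) (E [33]) (E [31]) (E [31]) (E [33]) (E [33]) (E [33]) (E [33]))) (N (E [33]) (E [31, 33]) (E [31]) (E [31]) (E [34]) (E [34]) (E [32, 34]) (E [32, 34])))] = true := by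
  decide +kernel

end Pool.Agent.Lib.P37.Chk
end

section

/-!
# Certificates for the box check, part 15
-/

namespace Pool.Agent.Lib.P37.Chk

open Crt

theorem c_8_10_9 : colCheck 272 336 304 [
    (N (N (E [33]) (E [31, 33]) (E [31]) (E [31]) (E [33]) (E [34]) (E [31, 33]) (E [31, 34])) (N (E [31, 33]) (E [31, 34]) (E [31]) (E [31, 33]) (E [34]) (E [34]) (E [31, 34]) (N (E [33]) (E [33]) (E [31]) (E [31]) (E [33]) (E [33]) (E [33]) (E [33]))) (N (E [31]) (E [31]) (E [31]) (E [31]) (E [31]) (E [31]) (E [31]) (E [31])) (N (E [31]) (E [31]) (E [31]) (E [31]) (E [31]) (E [31, 33]) (E [31]) (E [31])) (N (E [34]) (E [34]) (E [34]) (E [34]) (E [31]) (E [31]) (E [34]) (E [34])) (N (E [34]) (E [34]) (E [34]) (E [34]) (E [31]) (E [31]) (E [34]) (E [34])) (N (E [31, 33]) (E [31, 34]) (E [31]) (E [31]) (E [34]) (E [34]) (E [32, 34]) (E [32, 34])) (N (N (E [33]) (E [33]) (E [31]) (E [31]) (E [33]) (E [33]) (E [33]) (E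 [33])) (N (E [33]) (E [33]) (E [31]) (E [31]) (E [33]) (E [33]) (E [33]) (E [33])) (E [31, 33]) (E [31, 33]) (E [34]) (E [34]) (E [32, 34]) (E [32, 34])))] = true := by
  decide +kernel

theorem c_8_10_10 : colCheck 272 336 336 [
    (N (N (N (E [33]) (E [33]) (E [31]) (E [31]) (E [33]) (E [33]) (E [33]) (E [33])) (N (E [33]) (E [31, 33]) (E [31]) (E [31]) (E [34]) (E [34]) (E [33]) (E [31, 33])) (E [31, 33]) (N (E [31]) (E [31]) (E [31]) (E [31]) (E [31]) (E [31]) (E [31]) (E [31])) (E [34]) (N (E [34]) (E [34]) (E [34]) (E [34]) (E [34]) (E [34]) (E [34]) (E [34])) (N (E [33]) (E [33]) (E [31]) (E [31]) (E [34]) (E [34]) (E [33]) (E [33])) (N (E [31, 33]) (E [31, 33]) (E [31]) (E [31]) (E [34]) (E [34]) (E [33]) (E [31, 33]))) (N (N (E [31, 34]) (N (E [33]) (E [33]) (E [31]) (E [31]) (E [33]) (E [34]) (E [33]) (E [33])) (E [31, 33]) (E [31, 33]) (E [34]) (E [34]) (E [31, 34]) (E [31, 34])) (N (N (V 2) (V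 2) (E [32]) (V 2) (V 2) (V 2) (E [33]) (V 2)) (V 2) (N (E [31]) (E [31]) (E [31]) (E [31]) (E [32]) (E [31, 33]) (E [31]) (E [31])) (N (V 2) (V 2) (E [31]) (V 2) (V 2) (V 2) (E [31]) (V 2)) (E [34]) (V 2) (N (E [31, 34]) (E [33]) (E [31, 33]) (E [32]) (E [34]) (E [34]) (E [33]) (E [34])) (N (V 2) (V 2) (E [31, 33]) (V 2) (V 2) (V 2) (E [31, 34]) (V 2))) (N (E [31]) (E [31]) (E [31]) (E [31]) (E [31, 33]) (E [31, 33]) (E [31]) (E [31])) (N (E [31]) (E [30]) (E [31]) (E [31]) (E [31, 33]) (N (E [31]) (E [31]) (E [31]) (E [31]) (E [31, 33]) (E [31, 33]) (E [31]) (E [31])) (E [31]) (E [31])) (N (E [34]) (E [34]) (E [34]) (E [34]) (E [34]) (E [34]) (E [34]) (E [34])) (N (E [34]) (V 2) (E [34]) (E [34]) (E [34]) (V 2) (E [34]) (E [34])) (N (E [31, 34]) (E [31, 34]) (E [31, 33]) (E [31, 33]) (E [34]) (E [34]) (E [31, 33]) (E [31, 34])) (N (N (E [33]) (E [33]) (E [32]) (E [32]) (E [34]) (E [34]) (E [33]) (E [33]))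 (N (E [34]) (V 2) (E [31, 33]) (E [31, 33]) (E [34]) (V 2) (E [33]) (E [34])) (E [31, 33]) (N (E [31]) (E [31]) (E [31]) (E [31]) (E [32]) (E [31, 33]) (E [31]) (E [31])) (E [34]) (E [34]) (E [31, 34]) (E [31, 34]))) (N (E [31]) (E [31]) (E [31]) (E [31]) (N (E [31]) (E [31]) (E [31]) (E [31]) (E [31]) (E [31]) (E [31]) (E [31])) (N (E [31]) (E [31]) (E [31]) (E [31]) (E [31]) (E [31]) (E [31]) (E [31])) (E [31]) (E [31])) (N (E [30]) (E [30]) (E [31]) (E [31]) (N (E [31]) (E [31]) (E [31]) (E [31]) (E [31, 33]) (E [31, 33]) (E [31]) (E [31])) (N (E [31]) (E [31]) (E [31]) (E [31]) (E [31, 33]) (E [31, 33]) (E [31]) (E [31])) (E [31]) (E [31])) (N (E [34]) (E [34]) (E [34]) (N (E [34]) (E [34]) (E [34]) (E [34]) (E [34]) (E [34]) (E [34]) (E [34])) (E [31]) (E [31]) (E [34]) (E [34])) (N (N (E [34]) (E [34]) (E [34]) (E [34]) (E [31]) (E [31]) (E [34]) (E [34])) (N (E [34]) (V 2) (E [34]) (V 2) (E [31]) (V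 2) (E [34]) (V 2)) (N (E [34]) (E [34]) (E [34]) (E [34]) (E [34]) (E [34]) (E [34]) (E [34])) (N (E [34]) (E [34]) (E [34]) (E [34]) (E [34]) (E [34]) (E [34]) (E [34])) (E [31]) (E [31]) (E [34]) (E [34])) (N (N (E [33]) (E [33]) (E [31]) (E [31]) (E [33]) (E [34]) (E [33]) (E [33])) (N (E [33]) (E [33]) (E [31]) (E [31]) (E [34]) (E [34]) (E [33]) (E [33])) (E [31, 33]) (E [31, 33]) (E [34]) (E [34]) (N (E [33]) (E [33]) (E [31]) (E [31]) (E [33]) (E [33]) (E [33]) (E [33])) (E [32, 34])) (N (N (E [33]) (E [31, 33]) (E [31]) (E [31]) (E [34]) (E [34]) (E [33]) (E [33])) (N (E [31, 33]) (E [31, 34]) (E [31]) (E [32]) (E [34]) (E [34]) (E [33]) (E [33])) (E [31, 33]) (E [31, 33]) (E [34]) (E [34]) (E [32, 34]) (E [32, 34])))] = true := by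
  decide +kernel

end Pool.Agent.Lib.P37.Chk
end

section

/-!
# Certificates for the box check, part 16
-/

namespace Pool.Agent.Lib.P37.Chk

open Crt

theorem c_8_10_11 : colCheck 272 336 368 [
    (N (N (V 2) (V 2) (N (E [30]) (V 2) (E [30]) (V 2) (N (V 2) (V 2) (V 2) (V 2) (V 2) (V 2) (V 2) (V 2)) (V 2) (E [30]) (V 2)) (V 2) (V 2) (V 2) (N (V 2) (V 2) (N (E [31]) (V 2) (E [31]) (E [31]) (E [32]) (V 2) (E [31]) (E [31])) (V 2) (V 2) (V 2) (N (E [34]) (V 2) (E [31, 33]) (E [32]) (E [34]) (V 2) (E [33]) (E [34])) (V 2)) (V 2)) (V 2) (N (E [30]) (E [30]) (E [31]) (E [31]) (N (E [31]) (E [31]) (E [31]) (E [31]) (E [31, 33]) (E [31, 33]) (E [31]) (E [31])) (N (V 2) (V 2) (E [31]) (V 2) (V 2) (V 2) (E [31]) (V 2)) (E [31]) (E [31])) (N (V 2) (V 2) (E [31]) (V 2) (V 2) (V 2) (E [30]) (V 2)) (N (V 2) (V 2) (N (V 2) (V 2) (E [34]) (V 2) (V 2) (V 2) (E [34]) (V 2)) (V 2) (V 2) (V 2) (E [34]) (V 2)) (V 2) (N (N (E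 [31, 34]) (E [31, 34]) (E [31, 33]) (E [31, 33]) (E [34]) (E [34]) (E [33]) (E [33])) (N (V 2) (V 2) (E [32]) (V 2) (V 2) (V 2) (E [33]) (V 2)) (E [31, 33]) (E [31, 33]) (E [34]) (E [34]) (E [32, 34]) (E [31, 34])) (N (V 2) (V 2) (E [31, 33]) (V 2) (V 2) (V 2) (E [31, 33]) (V 2)))] = true := by
  decide +kernel

theorem c_8_11_8 : colCheck 272 368 272 [
    (N (E [31]) (E [31]) (E [31]) (E [31]) (N (E [31]) (E [31]) (E [31]) (E [31]) (N (E [31]) (E [31]) (E [31]) (E [31]) (E [31]) (E [31]) (E [31]) (E [31])) (E [31, 33]) (E [31]) (E [31])) (N (E [31]) (E [31]) (E [31]) (E [31]) (E [31, 33]) (E [31, 33]) (E [31]) (E [31])) (E [31]) (E [31])),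
    (N (E [31]) (E [31]) (E [31]) (E [31]) (N (E [31]) (E [31]) (E [31]) (E [31]) (E [31, 33]) (E [31, 33]) (E [31]) (E [31])) (N (E [31]) (E [31]) (E [31]) (E [31]) (E [31, 33]) (E [31, 33]) (E [31]) (E [31])) (E [31]) (E [31])),
    (N (E [31]) (E [31]) (E [31]) (E [31]) (N (E [31]) (E [31]) (E [31]) (E [31]) (E [31]) (E [31]) (E [31]) (E [31])) (N (E [31]) (E [31]) (E [31]) (E [31]) (E [31]) (E [31]) (E [31]) (E [31])) (E [31]) (E [31])),
    (N (E [31]) (E [31]) (E [31]) (E [31]) (N (E [31]) (E [31]) (E [31]) (E [31]) (E [31]) (E [31]) (E [31]) (E [31])) (N (E [31]) (E [31]) (E [31]) (E [31]) (E [31]) (E [31]) (E [31]) (E [31])) (E [31]) (E [31]))] = true := by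
  decide +kernel

theorem c_9_9_9 : colCheck 304 304 304 [
    (N (N (E [31]) (E [31]) (E [31]) (E [31]) (E [31]) (E [31]) (E [31]) (E [31])) (N (E [31]) (E [31]) (E [31]) (E [31]) (E [31]) (E [31]) (E [31]) (E [31])) (N (E [31]) (E [31]) (E [31]) (E [31]) (E [31]) (E [31]) (E [31]) (E [31])) (N (E [31]) (E [31]) (E [31]) (E [31]) (E [31]) (E [31]) (E [31]) (E [31])) (N (E [31]) (E [31]) (E [31]) (E [31]) (E [31]) (E [31]) (E [31]) (E [31])) (N (E [31]) (E [31]) (E [31]) (E [31]) (E [31]) (E [31]) (E [31]) (E [31])) (N (E [31]) (E [31]) (E [31]) (E [31]) (E [31]) (E [31]) (E [31]) (E [31])) (N (E [31]) (E [31]) (E [31]) (E [31]) (E [31]) (E [31]) (E [31]) (E [31]))),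
    (N (N (E [31]) (E [31]) (E [31]) (E [31]) (E [31]) (E [31]) (E [31]) (E [31])) (N (E [46]) (E [46]) (E [31]) (E [46]) (E [46]) (E [46]) (E [31]) (E [46])) (N (E [31]) (E [31]) (E [31]) (E [31]) (E [31]) (E [31]) (E [31]) (E [31])) (N (E [31]) (E [31]) (E [31]) (E [31]) (E [31]) (E [31]) (E [31]) (E [31])) (N (E [31]) (E [31]) (E [31]) (E [31]) (E [31]) (E [31]) (E [31]) (E [31])) (N (E [46]) (E [46]) (E [31]) (E [46]) (E [46]) (E [46]) (E [31]) (E [46])) (N (E [31]) (E [31]) (E [31]) (E [31]) (E [31]) (E [31]) (E [31]) (E [31])) (N (E [31]) (E [31]) (E [31]) (E [31]) (E [31]) (E [31]) (E [31]) (E [31])))] = true := by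
  decide +kernel

theorem c_9_9_11 : colCheck 304 304 368 [
    (N (N (N (E [41]) (E [31]) (E [46]) (E [41]) (E [41]) (E [31]) (E [46]) (E [41])) (N (E [31]) (E [31]) (E [31]) (E [31]) (E [31]) (E [31]) (E [31]) (E [31])) (N (E [46]) (E [46]) (E [46]) (E [46]) (E [46]) (E [46]) (E [46]) (E [46])) (N (E [41]) (E [31]) (E [46]) (E [41]) (E [41]) (E [31]) (E [41]) (E [41])) (N (E [41]) (E [31]) (E [41]) (E [41]) (E [41]) (E [31]) (E [46]) (E [41])) (E [31, 41]) (E [46]) (E [36, 46])) (N (E [31]) (E [31]) (N (E [31]) (E [31]) (E [31]) (E [31]) (E [31]) (E [31]) (E [31]) (E [31])) (E [31]) (E [31]) (E [31]) (E [36]) (E [31])) (N (E [46]) (E [46]) (E [31]) (E [46]) (E [46]) (E [46]) (E [31]) (E [46])) (N (N (E [41]) (E [31]) (E [46]) (E [41]) (E [41]) (E [31]) (E [46]) (E [41])) (E [41, 36]) (E [46]) (N (E [41]) (E [31]) (V 2) (V 2) (E [41]) (E [31]) (E [41]) (E [41])) (E [36, 46]) (E [31]) (E [46]) (E [41])) (N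 (E [36, 46]) (E [36]) (E [46]) (E [36, 46]) (E [36, 46]) (E [31]) (E [46]) (E [41, 36])) (N (E [31]) (E [31]) (E [31]) (E [31]) (E [31]) (E [31]) (E [31]) (E [31])) (N (E [46]) (E [46]) (E [31]) (E [46]) (E [46]) (E [46]) (E [31]) (E [46])) (N (E [41, 46]) (E [31]) (E [46]) (E [41]) (E [41]) (E [31]) (E [41]) (E [41])))] = true := by
  decide +kernel

end Pool.Agent.Lib.P37.Chk
end

section

/-!
# Certificates for the box check, part 17
-/

namespace Pool.Agent.Lib.P37.Chk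

open Crt

theorem c_9_10_9 : colCheck 304 336 304 [
    (N (N (E [31]) (E [31]) (E [31]) (E [31]) (E [31]) (E [31]) (E [31]) (E [31])) (N (E [31]) (E [31]) (E [31]) (E [31]) (E [31]) (E [31]) (E [31]) (E [31])) (N (E [34]) (E [34]) (E [34]) (E [34]) (E [31]) (E [31]) (E [34]) (E [34])) (N (E [34]) (E [34]) (E [34]) (E [34]) (E [31]) (E [31]) (E [34]) (E [34])) (N (E [31]) (E [31]) (E [31]) (E [31]) (E [31]) (E [31]) (E [31]) (E [31])) (N (E [31]) (E [31]) (E [31]) (E [31]) (E [31]) (E [31]) (E [31]) (E [31])) (N (E [31]) (E [31]) (E [31]) (E [31]) (E [31]) (E [31]) (E [31]) (E [31])) (N (E [31]) (E [31]) (E [31]) (E [31]) (E [31]) (E [31]) (E [31]) (E [31]))),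
    (N (N (E [31]) (E [31]) (E [31]) (E [31]) (E [31]) (E [31]) (E [31]) (E [31])) (N (E [31]) (E [31]) (E [31]) (E [31]) (E [31]) (E [31]) (E [31]) (E [31])) (N (E [34]) (E [34]) (E [34]) (E [34]) (E [31]) (E [31]) (E [34]) (E [34])) (N (E [34]) (E [34]) (E [34]) (E [34]) (E [31]) (E [31]) (E [34]) (E [34])) (N (E [31]) (E [31]) (E [31]) (E [31]) (E [31]) (E [31]) (E [31]) (E [31])) (N (E [31]) (E [31]) (E [31]) (E [31]) (E [31]) (E [31]) (E [31]) (E [31])) (N (E [31]) (E [31]) (E [31]) (E [31]) (E [31]) (E [31]) (E [31]) (E [31])) (N (E [31]) (E [31]) (E [31]) (E [31]) (E [31]) (E [31]) (E [31]) (E [31])))] = true := by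
  decide +kernel

theorem c_9_10_11 : colCheck 304 336 368 [
    (N (N (V 2) (V 2) (E [31]) (V 2) (E [31]) (E [31]) (E [31]) (V 2)) (N (V 2) (V 2) (V 2) (V 2) (E [46]) (E [46]) (V 2) (V 2)) (N (E [34]) (E [34]) (E [34]) (E [34]) (E [31]) (E [31]) (E [34]) (E [34])) (N (V 2) (V 2) (E [34]) (V 2) (V 2) (V 2) (E [34]) (V 2)) (N (E [31]) (E [31]) (E [31]) (E [31]) (E [31]) (E [31]) (E [31]) (E [31])) (N (E [46]) (E [41]) (E [31]) (E [46]) (E [46]) (E [41]) (E [31]) (E [41])) (E [31]) (E [31]))] = true := by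
  decide +kernel

theorem c_9_11_9 : colCheck 304 368 304 [
    (N (N (N (E [33]) (E [33]) (E [31]) (E [31]) (E [34]) (E [33]) (E [33]) (E [33])) (N (E [33]) (E [33]) (E [31]) (E [31]) (E [33]) (E [33]) (E [33]) (E [33])) (N (E [31]) (E [31]) (E [31]) (E [31]) (E [31]) (E [31]) (E [31]) (E [31])) (E [31, 33]) (E [34]) (E [34]) (N (E [33]) (E [33]) (E [31]) (E [31]) (E [34]) (E [34]) (E [33]) (E [33])) (E [32, 34])) (N (E [32, 34]) (E [32, 34]) (E [32]) (E [31]) (E [34]) (E [34]) (E [32, 34]) (E [33, 32])) (N (E [31]) (E [31]) (E [31]) (E [31]) (N (E [31]) (E [31]) (E [31]) (E [31]) (E [31]) (E [31]) (E [31]) (E [31])) (E [31, 33]) (E [31]) (E [31])) (N (E [31]) (E [31]) (E [31]) (E [31]) (E [31]) (E [31]) (E [31]) (E [31])) (N (E [34]) (E [34]) (E [34]) (E [34]) (E [31]) (E [31]) (E [34]) (E [34])) (N (E [34]) (E [34]) (E [34]) (E [34]) (E [31]) (E [31]) (E [34]) (E [34])) (N (N (E [33]) (E [33]) (E [31])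 (E [31]) (E [34]) (E [34]) (E [33]) (E [33])) (E [32, 34]) (E [33, 32]) (E [31]) (E [34]) (E [34]) (N (E [33]) (E [33]) (E [31]) (E [31]) (V 1) (E [33]) (V 1) (E [33])) (E [33, 34])) (N (E [33]) (E [33]) (E [31]) (E [31]) (E [34]) (E [33]) (E [33]) (E [33])))] = true := by
  decide +kernel

theorem c_9_11_10 : colCheck 304 368 336 [
    (N (N (E [32, 34]) (E [32, 34]) (E [31]) (E [31]) (E [34]) (E [34]) (E [33]) (E [33])) (N (E [33]) (E [33]) (E [31]) (E [31]) (E [34]) (E [33]) (E [33]) (E [33])) (N (E [31]) (E [31]) (E [31]) (E [31]) (E [31]) (E [31]) (E [31]) (E [31])) (E [31]) (N (E [34]) (E [34]) (E [34]) (E [33]) (E [31]) (E [31]) (E [34]) (E [34])) (E [34]) (N (E [33]) (E [33]) (E [31]) (E [31]) (E [33]) (E [33]) (E [33]) (E [31])) (E [33])),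
    (N (N (E [33]) (E [33]) (E [31]) (E [31]) (E [33]) (E [33]) (E [33]) (E [33])) (N (E [33]) (E [33]) (E [31]) (E [31]) (E [33]) (E [33]) (E [33]) (E [31])) (E [31]) (E [31]) (E [34]) (E [34]) (E [33]) (E [33]))] = true := by
  decide +kernel

theorem c_10_10_10 : colCheck 336 336 336 [
    (N (E [31]) (E [31]) (E [31]) (E [31]) (E [31]) (E [31]) (E [31]) (E [31])),
    (N (E [31]) (E [46]) (E [31]) (E [31]) (E [31]) (E [46]) (E [31]) (E [31]))] = true := by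
  decide +kernel

theorem c_10_11_10 : colCheck 336 368 336 [
    (N (E [31]) (E [31]) (E [34]) (E [34]) (E [31]) (E [31]) (E [31]) (E [31])),
    (N (E [31]) (E [31]) (E [33]) (E [33]) (E [31]) (E [31]) (E [31]) (E [31]))] = true := by
  decide +kernel

theorem c_11_11_11 : colCheck 368 368 368 [
    (E [31])] = true := by
  decide +kernel

end Pool.Agent.Lib.P37.Chk
end

section

/-!
# Certificates for the box check, part 3
-/

namespace Pool.Agent.Lib.P37.Chk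

open Crt

theorem c_2_3_2 : colCheck 80 112 80 [
    (N (E [31]) (E [31]) (E [33]) (E [33]) (E [31]) (E [31]) (E [31]) (E [31])),
    (N (E [31]) (E [31]) (E [34]) (E [34]) (E [31]) (E [31]) (E [31]) (E [31])),
    (N (E [31]) (N (V 3) (V 3) (V 3) (V 3) (E [46]) (E [41]) (V 3) (V 3)) (N (E [33]) (E [34]) (E [33]) (E [34]) (E [31]) (E [31]) (E [34]) (E [34])) (N (V 3) (V 3) (E [34]) (V 3) (V 3) (V 3) (E [34]) (V 3)) (E [31]) (N (E [46]) (E [46]) (E [31]) (E [46]) (E [46]) (E [46]) (E [31]) (E [46])) (N (E [31]) (E [31]) (E [31]) (E [31]) (E [31]) (E [31]) (E [31]) (E [31])) (N (V 3) (V 3) (E [31]) (V 3) (E [31]) (E [31]) (E [31]) (V 3))),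
    (N (N (V 3) (V 3) (V 3) (V 3) (E [31, 41]) (E [31]) (V 3) (V 3)) (N (V 3) (V 3) (V 3) (V 3) (E [31]) (E [31]) (V 3) (V 3)) (V 3) (V 3) (N (E [31, 41]) (E [31]) (E [41, 46]) (N (V 3) (V 3) (V 3) (V 3) (E [36]) (E [31]) (V 3) (V 3)) (E [31, 41]) (E [31]) (E [41, 46]) (N (E [36]) (E [31]) (E [46]) (E [31, 41]) (E [36]) (E [31]) (E [46]) (E [31, 41]))) (N (E [31]) (E [31]) (N (V 3) (V 3) (V 3) (V 3) (E [31]) (E [31]) (V 3) (V 3)) (E [26]) (E [31]) (E [31]) (N (E [31]) (E [31]) (E [31]) (E [31]) (E [31]) (E [31]) (E [31]) (E [31])) (E [26])) (N (V 3) (V 3) (V 3) (V 3) (E [46]) (N (V 3) (V 3) (V 3) (V 3) (E [46]) (E [36, 46]) (V 3) (V 3)) (V 3) (V 3)) (N (V 3) (V 3) (V 3) (V 3) (N (V 3) (V 3) (V 3) (V 3) (N (E [31]) (E [31]) (V 3) (V 3) (E [31]) (E [31]) (E [41]) (E [31])) (E [31]) (V 3) (V 3)) (N (V 3) (V 3) (V 3) (V 3) (E [31]) (E [26]) (N (V 3) (V 3) (V 3) (V 3) (V 3) (V 3) (V 3) (V 3)) (E [26])) (V 3) (V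 3))),
    (N (N (E [31]) (E [31]) (V 3) (E [31]) (E [31]) (E [31]) (V 3) (E [31])) (E [31]) (V 3) (N (E [34]) (E [33]) (V 3) (E [33]) (E [31]) (E [31]) (V 3) (E [33])) (N (E [31]) (E [31]) (E [31]) (E [31]) (E [31]) (E [31]) (E [31]) (E [31])) (E [31]) (N (V 3) (V 3) (V 3) (V 3) (E [26]) (E [31]) (V 3) (V 3)) (N (E [31]) (E [31]) (V 3) (E [31]) (E [31]) (E [31]) (V 3) (E [31])))] = true := by
  decide +kernel

theorem c_2_3_7 : colCheck 80 112 240 [
    (N (E [31]) (E [31]) (E [34]) (E [33]) (E [31]) (E [31]) (E [31]) (E [31])),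
    (E [33]),
    (E [33]),
    (E [33]),
    (N (E [31]) (E [31]) (E [31]) (E [33]) (E [31]) (E [31]) (E [31]) (E [31]))] = true := by
  decide +kernel

theorem c_2_4_2 : colCheck 80 144 80 [
    (N (E [33]) (E [33]) (E [31]) (E [31]) (E [34]) (E [34]) (N (E [31]) (E [31]) (E [31]) (E [31]) (E [33]) (E [33]) (E [33]) (E [33])) (N (E [31]) (E [33]) (E [31]) (E [31]) (E [33]) (E [33]) (E [33]) (E [33]))),
    (N (E [33]) (N (E [33]) (E [33]) (E [31]) (E [31]) (E [33]) (E [33]) (E [33]) (E [33])) (E [31]) (N (E [31]) (E [31]) (E [31]) (E [31]) (E [31]) (E [31]) (E [31]) (E [31])) (E [34]) (N (E [34]) (E [34]) (E [33]) (E [34]) (E [31]) (E [31]) (E [34]) (E [34])) (N (E [33]) (E [33]) (E [31]) (E [31]) (E [33]) (E [34]) (E [31, 33]) (E [31, 33])) (N (E [33]) (E [33]) (E [31]) (E [31]) (E [34]) (E [34]) (E [31, 33]) (E [32, 34])))] = true := by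
  decide +kernel

theorem c_2_4_4 : colCheck 80 144 144 [
    (N (N (E [33]) (E [33]) (E [31]) (E [31]) (E [34]) (E [34]) (E [33]) (E [33, 34])) (N (E [33, 34]) (N (E [33]) (V 3) (E [31]) (E [33]) (E [33]) (V 3) (E [33]) (E [33])) (E [32]) (N (E [31]) (E [31]) (E [31]) (E [31]) (E [31]) (E [32]) (E [31]) (E [31])) (E [34]) (N (E [34]) (V 3) (E [34]) (E [34]) (E [34]) (V 3) (E [34]) (E [34])) (E [32, 34]) (N (E [33]) (E [34]) (E [31]) (E [32]) (E [34]) (E [34]) (E [33]) (E [33, 34]))) (N (E [31]) (E [31]) (E [31]) (E [31]) (E [31]) (E [31]) (E [31]) (E [31])) (N (E [31]) (E [31]) (E [31]) (E [31]) (E [31, 33]) (N (E [31]) (E [31]) (E [31]) (E [31]) (E [31]) (E [32]) (E [31]) (E [31])) (E [31]) (E [31])) (N (E [34]) (E [34]) (E [34]) (E [34]) (E [31]) (E [31]) (E [34]) (E [34])) (N (E [34]) (E [34]) (E [34]) (E [34]) (E [31]) (E [31]) (E [34]) (E [34])) (N (E [33, 32]) (E [32, 34]) (E [31]) (E [31]) (E [34])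 (E [34]) (E [32, 34]) (E [32, 34])) (N (N (E [33]) (E [33]) (E [31]) (E [31]) (E [33]) (E [34]) (E [33]) (E [33])) (N (E [33]) (E [33]) (E [31]) (E [31]) (E [34]) (E [34]) (E [33]) (E [33])) (E [31, 33]) (N (E [31]) (E [31]) (E [31]) (E [31]) (E [31]) (E [31]) (E [31]) (E [31])) (E [34]) (N (E [34]) (E [34]) (E [34]) (E [34]) (E [34]) (E [34]) (E [34]) (E [34])) (N (E [33]) (E [33]) (E [31]) (E [31]) (E [33]) (E [34]) (E [33]) (E [33])) (N (E [33]) (E [33]) (E [31]) (E [31]) (E [34]) (E [34]) (E [33]) (E [33]))))] = true := by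
  decide +kernel

end Pool.Agent.Lib.P37.Chk
end

section

/-!
# Certificates for the box check, part 4
-/

namespace Pool.Agent.Lib.P37.Chk

open Crt

theorem c_2_4_5 : colCheck 80 144 176 [
    (N (N (V 3) (V 3) (N (E [31]) (V 3) (E [31]) (E [31]) (E [33, 32]) (V 3) (E [31]) (E [31])) (V 3) (V 3) (V 3) (N (E [33, 34]) (V 3) (E [31, 33]) (N (E [31]) (V 3) (E [31]) (E [31]) (E [33]) (V 3) (E [31]) (E [31])) (E [34]) (V 3) (E [32, 34]) (N (E [33]) (V 3) (E [33]) (E [33]) (E [34]) (V 3) (E [33]) (E [33]))) (V 3)) (V 3) (N (E [31]) (E [30]) (E [31]) (E [31]) (N (E [31]) (E [31]) (E [31]) (E [31]) (E [31, 33]) (N (E [31]) (E [31]) (E [31]) (E [31]) (E [33]) (E [33]) (E [31]) (E [31])) (E [31]) (E [31])) (N (E [31]) (V 3) (E [31]) (E [31]) (N (E [31]) (V 3) (E [31]) (E [31]) (E [32]) (V 3) (E [31]) (E [31])) (N (V 3) (V 3) (V 3) (V 3) (V 3) (V 3) (V 3) (V 3)) (E [31]) (E [31])) (E [31]) (E [31])) (N (E [30]) (V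 3) (E [31]) (E [31]) (N (V 3) (V 3) (E [31]) (V 3) (V 3) (V 3) (E [31]) (V 3)) (V 3) (E [30]) (E [30])) (N (V 3) (V 3) (N (E [34]) (V 3) (E [34]) (E [34]) (E [34]) (V 3) (E [34]) (E [34])) (N (V 3) (V 3) (V 3) (V 3) (V 3) (V 3) (E [34]) (V 3)) (V 3) (V 3) (N (E [34]) (V 3) (E [34]) (E [34]) (E [31]) (E [31]) (E [34]) (E [34])) (N (V 3) (V 3) (E [34]) (V 3) (V 3) (V 3) (E [34]) (V 3))) (V 3) (N (N (E [33, 34]) (N (E [33]) (E [33]) (E [31]) (E [33]) (E [33]) (E [34]) (E [33]) (E [33])) (E [32]) (E [31, 33]) (E [34]) (E [34]) (E [33, 34]) (E [32, 34])) (N (N (E [33]) (V 3) (E [33]) (E [32]) (E [34]) (V 3) (E [33]) (E [33])) (N (V 3) (V 3) (E [33, 32]) (V 3) (V 3) (V 3) (E [33]) (V 3)) (N (E [31]) (E [31]) (E [31]) (E [31]) (E [31]) (E [33]) (E [31]) (E [31])) (N (E [31]) (E [31]) (E [31]) (E [31]) (E [32]) (E [31, 33]) (E [31]) (E [31])) (E [34]) (N (V 3) (V 3) (E [34]) (V 3) (V 3) (V 3) (E [34]) (V 3)) (N (E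 [33]) (E [33]) (E [31]) (E [31]) (E [34]) (E [34]) (E [33]) (E [33])) (N (E [33]) (E [33]) (E [33]) (E [33]) (E [34]) (E [34]) (E [33]) (E [33]))) (N (E [31]) (E [31]) (E [31]) (E [31]) (E [31]) (E [32]) (E [31]) (E [31])) (N (E [31]) (E [31]) (E [31]) (E [31]) (E [32]) (E [31, 33]) (E [31]) (E [31])) (N (E [34]) (E [34]) (E [34]) (E [34]) (E [34]) (E [34]) (E [34]) (E [34])) (N (E [34]) (E [34]) (E [34]) (E [34]) (E [34]) (E [34]) (E [34]) (E [34])) (N (E [33]) (E [33]) (E [31]) (E [31]) (E [34]) (E [34]) (E [33]) (E [33])) (N (E [33, 34]) (E [32, 34]) (E [31]) (E [31]) (E [34]) (E [34]) (E [33]) (E [31, 33]))) (N (N (V 3) (V 3) (N (V 3) (V 3) (E [31]) (V 3) (V 3) (V 3) (E [31]) (V 3)) (V 3) (V 3) (V 3) (N (V 3) (V 3) (E [33]) (V 3) (V 3) (V 3) (E [33]) (V 3)) (V 3)) (V 3) (N (E [31]) (E [31]) (E [31]) (E [31]) (N (E [31]) (E [31]) (E [31]) (E [31]) (E [31]) (E [32]) (E [31]) (E [31])) (N (V 3) (V 3) (E [31])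 (V 3) (V 3) (V 3) (E [31]) (V 3)) (E [31]) (E [31])) (N (V 3) (V 3) (E [31]) (V 3) (V 3) (V 3) (E [31]) (V 3)) (N (V 3) (V 3) (E [34]) (V 3) (V 3) (V 3) (E [34]) (V 3)) (V 3) (N (E [32, 34]) (N (V 3) (V 3) (E [31]) (V 3) (V 3) (V 3) (E [33]) (V 3)) (E [31]) (E [31]) (E [34]) (E [34]) (E [33]) (E [33])) (N (V 3) (V 3) (E [31]) (V 3) (V 3) (V 3) (E [33]) (V 3))))] = true := by
  decide +kernel

theorem c_2_4_6 : colCheck 80 144 208 [
    (N (V 3) (V 3) (N (V 3) (V 3) (E [31]) (E [41]) (V 3) (V 3) (V 3) (V 3)) (N (V 3) (V 3) (E [41]) (E [31]) (V 3) (V 3) (V 3) (V 3)) (V 3) (V 3) (V 3) (V 3)),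
    (N (N (E [33]) (E [31]) (V 3) (E [31]) (E [33]) (E [33]) (V 3) (E [31])) (E [33]) (E [26]) (E [31]) (E [34]) (E [33]) (V 3) (E [31])),
    (E [31, 33]),
    (E [31]),
    (E [31]),
    (N (E [31]) (E [6]) (E [31]) (E [30]) (E [31]) (E [33]) (E [31]) (E [31]))] = true := by
  decide +kernel

theorem c_2_5_2 : colCheck 80 176 80 [
    (N (E [31]) (E [31]) (E [31]) (E [31]) (E [30]) (N (E [31]) (E [31]) (E [31]) (E [31]) (E [31]) (E [31]) (E [31]) (E [31])) (E [31]) (E [31])),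
    (N (E [31]) (E [31]) (E [31]) (E [31]) (N (E [31]) (E [31]) (E [31]) (E [31]) (E [31]) (E [31]) (E [31]) (E [31])) (N (E [31]) (E [31]) (E [31]) (E [31]) (E [31]) (E [31]) (E [31]) (E [31])) (E [31]) (E [31])),
    (N (E [31]) (E [31]) (E [31]) (E [31]) (N (E [31]) (E [31]) (E [31]) (E [31]) (E [31]) (E [31]) (E [31]) (E [31])) (N (E [31]) (E [31]) (E [31]) (E [31]) (E [31]) (E [31, 33]) (E [31]) (E [31])) (E [31]) (E [31])),
    (N (E [31]) (E [31]) (E [31]) (E [31]) (N (E [31]) (E [31]) (E [31]) (E [31]) (E [31, 33]) (E [31, 33]) (E [31]) (E [31])) (N (E [31]) (E [31]) (E [31]) (E [31]) (E [31, 33]) (E [31, 33]) (E [31]) (E [31])) (E [31]) (E [31])),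
    (N (E [31]) (E [46]) (E [31]) (E [41]) (N (E [31]) (E [31]) (E [31]) (E [31]) (N (V 3) (V 3) (E [31]) (E [31]) (V 3) (V 3) (E [31]) (E [31])) (E [31]) (E [31]) (E [31])) (N (E [46]) (E [41]) (E [31]) (E [41]) (E [46]) (E [41]) (E [46]) (E [41])) (E [31]) (E [46])),
    (N (E [31]) (E [31]) (E [41]) (E [31]) (E [36]) (E [31]) (E [41]) (E [31])),
    (E [26]),
    (E [30]),
    (E [30]),
    (N (E [31]) (E [31]) (E [31]) (E [31]) (E [31]) (E [30]) (E [31]) (E [31]))] = true := by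
  decide +kernel

end Pool.Agent.Lib.P37.Chk
end

section

/-!
# Certificates for the box check, part 5
-/

namespace Pool.Agent.Lib.P37.Chk

open Crt

theorem c_2_6_2 : colCheck 80 208 80 [
    (N (E [31]) (E [31]) (E [31]) (E [31]) (E [31]) (E [31]) (E [31]) (E [31])),
    (N (E [31]) (E [31]) (E [31]) (E [31]) (E [31]) (E [31]) (E [31]) (E [31])),
    (N (E [31]) (E [31]) (E [31]) (E [31]) (E [31]) (E [31]) (E [31]) (E [31])),
    (N (E [31]) (E [31]) (E [31]) (E [31]) (E [31]) (E [31]) (E [31]) (E [31])),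
    (N (E [31]) (E [31]) (E [31]) (E [31]) (E [31]) (E [31]) (E [31]) (E [31])),
    (E [46]),
    (E [36]),
    (E [26]),
    (N (E [31]) (E [31]) (E [31]) (E [31]) (E [31]) (E [31]) (E [31]) (E [31])),
    (N (E [31]) (E [31]) (E [31]) (E [31]) (E [31]) (E [31]) (E [31]) (E [31]))] = true := by
  decide +kernel

theorem c_2_7_2 : colCheck 80 240 80 [
    (E [31]),
    (E [31]),
    (E [31]),
    (E [31]),
    (E [31]),
    (E [31]),
    (E [41]),
    (N (E [31]) (E [31]) (E [41]) (E [31]) (E [31]) (E [31]) (E [41]) (E [31])),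
    (N (E [31]) (E [31]) (E [31]) (E [31]) (E [31]) (E [31]) (E [31]) (E [31])),
    (N (E [31]) (E [31]) (E [31]) (E [31]) (E [31]) (E [31]) (E [31]) (E [31]))] = true := by
  decide +kernel

theorem c_2_8_2 : colCheck 80 272 80 [
    (E [31]),
    (E [31]),
    (E [31]),
    (E [31]),
    (E [31]),
    (E [31]),
    (E [31]),
    (E [41]),
    (N (E [31]) (E [31]) (E [41]) (E [31]) (E [31]) (E [31]) (E [31]) (E [31])),
    (N (E [31]) (E [31]) (E [31]) (E [31]) (E [31]) (E [31]) (E [31]) (E [31]))] = true := by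
  decide +kernel

theorem c_2_9_2 : colCheck 80 304 80 [
    (E [31]),
    (E [31]),
    (E [31]),
    (E [31]),
    (E [31]),
    (E [31]),
    (E [31]),
    (E [31]),
    (N (E [31]) (E [41]) (E [31]) (E [31]) (E [31]) (E [31]) (E [31]) (E [31])),
    (N (E [31]) (E [31]) (E [41]) (E [6]) (E [31]) (E [31]) (E [31]) (E [31]))] = true := by
  decide +kernel

theorem c_2_10_2 : colCheck 80 336 80 [
    (E [31]),
    (E [31]),
    (E [31]),
    (E [31]),
    (E [31]),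
    (E [31]),
    (E [31]),
    (E [31]),
    (E [31]),
    (N (E [31]) (E [41]) (E [31]) (E [31]) (E [31]) (E [31]) (E [31]) (E [31]))] = true := by
  decide +kernel

theorem c_2_11_2 : colCheck 80 368 80 [
    (E [31]),
    (E [31]),
    (E [31]),
    (E [31]),
    (E [31]),
    (E [31]),
    (E [31]),
    (E [31]),
    (E [31]),
    (E [31])] = true := by
  decide +kernel

theorem c_3_3_3 : colCheck 112 112 112 [
    (N (E [31]) (E [31]) (E [31]) (E [31]) (E [31]) (E [31]) (E [31]) (E [31])),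
    (N (E [31]) (N (E [46]) (E [46]) (E [31]) (E [46]) (E [46]) (E [46]) (E [31]) (E [46])) (N (E [31]) (E [31]) (E [31]) (E [31]) (E [31]) (E [31]) (E [31]) (E [31])) (N (E [31]) (E [31]) (E [31]) (E [31]) (E [31]) (E [31]) (E [31]) (E [31])) (N (E [31]) (E [31]) (E [31]) (E [31]) (E [31]) (E [31]) (E [31]) (E [31])) (N (E [46]) (E [46]) (E [31]) (E [46]) (E [46]) (E [46]) (E [31]) (E [46])) (N (E [31]) (E [31]) (E [31]) (E [31]) (E [31]) (E [31]) (E [31]) (E [31])) (N (E [31]) (E [31]) (E [31]) (E [31]) (E [31]) (E [31]) (E [31]) (E [31])))] = true := by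
  decide +kernel

end Pool.Agent.Lib.P37.Chk
end

section

/-!
# Certificates for the box check, part 6
-/

namespace Pool.Agent.Lib.P37.Chk

open Crt

theorem c_3_3_5 : colCheck 112 112 176 [
    (N (N (E [31, 46]) (E [31]) (E [46]) (N (E [31, 41]) (E [31]) (E [46]) (E [31, 41]) (E [31, 41]) (E [31]) (E [46]) (E [31, 41])) (E [36, 46]) (E [31]) (E [46]) (N (E [36]) (E [31]) (E [41]) (E [31, 41]) (E [36]) (E [31]) (E [41]) (E [31, 41]))) (N (E [31]) (E [31]) (N (E [31]) (E [31]) (E [31]) (E [31]) (E [31]) (E [31]) (E [31]) (E [31])) (E [26]) (E [31]) (E [31]) (E [26]) (E [26])) (N (E [46]) (N (E [46]) (E [31, 46]) (E [46]) (E [46]) (E [46]) (E [46]) (E [46]) (E [46])) (E [31]) (N (V 3) (V 3) (V 3) (V 3) (E [46]) (E [46]) (E [31]) (E [46])) (E [46]) (N (E [46]) (E [46]) (E [46]) (E [46]) (E [46]) (E [46]) (E [46]) (E [46])) (E [31]) (N (E [46]) (E [46]) (E [31]) (E [46]) (E [46]) (E [46]) (E [31]) (E [46])))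 (N (N (N (E [31]) (E [31]) (E [41]) (E [31]) (E [31]) (E [31]) (E [41]) (E [31])) (E [31]) (N (E [41]) (E [41]) (V 3) (V 3) (E [41]) (E [41]) (E [46]) (E [46])) (N (E [31]) (E [31]) (V 3) (V 3) (E [31]) (E [31]) (E [31, 41]) (E [31])) (E [31, 46]) (E [31]) (E [31, 46]) (N (E [31]) (E [31]) (E [41]) (E [31]) (E [31]) (E [31]) (E [41]) (E [31]))) (N (E [31]) (E [26]) (E [31]) (E [26]) (E [31]) (E [31]) (E [31]) (E [31])) (N (N (V 3) (V 3) (V 3) (V 3) (V 3) (V 3) (V 3) (V 3)) (N (V 3) (V 3) (V 3) (V 3) (E [46]) (E [31, 41]) (V 3) (V 3)) (V 3) (V 3) (E [46]) (N (E [46]) (E [41]) (E [46]) (E [46]) (E [41]) (E [41]) (E [46]) (E [41])) (E [46]) (N (V 3) (V 3) (V 3) (V 3) (E [46]) (E [46]) (E [46]) (E [46]))) (N (N (V 3) (V 3) (V 3) (V 3) (E [26]) (E [31]) (V 3) (V 3)) (E [26]) (V 3) (V 3) (N (E [31]) (E [31]) (E [31, 41]) (E [31]) (E [31]) (E [31]) (E [41]) (E [31])) (E [31]) (N (V 3) (V 3) (V 3) (V 3) (E [46]) (E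 [41]) (E [46]) (E [46])) (N (V 3) (V 3) (V 3) (V 3) (E [31]) (E [31]) (E [31, 41]) (E [31]))) (N (E [31, 41]) (E [31]) (E [31, 46]) (E [31, 46]) (E [31, 41]) (E [31]) (E [46]) (E [31, 41])) (N (E [31]) (E [31]) (E [31]) (E [31]) (E [31]) (E [31]) (E [31]) (E [31])) (N (E [46]) (E [36, 46]) (E [46]) (E [46]) (E [46]) (E [31, 46]) (E [46]) (E [46])) (N (N (E [31]) (E [31]) (E [41]) (E [31]) (E [31]) (E [31]) (E [41]) (E [31])) (E [31]) (E [31, 46]) (N (E [31]) (E [31]) (E [41]) (E [31]) (E [31]) (E [31]) (E [41]) (E [31])) (E [31, 41]) (E [31]) (E [31, 46]) (E [31, 41]))) (N (E [36, 46]) (E [31]) (E [46]) (N (E [41]) (E [31]) (E [41]) (E [31, 41]) (E [31, 41]) (E [31]) (E [41]) (E [31, 41])) (N (E [41]) (E [31]) (E [41]) (E [41]) (E [41]) (E [31]) (E [41]) (E [41])) (E [31]) (E [46]) (N (E [41]) (E [31]) (E [41]) (E [31, 41]) (E [41]) (E [31]) (E [41]) (E [41]))) (N (E [31]) (E [31]) (E [26]) (E [31]) (E [31])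 (E [31]) (E [31]) (E [31])) (N (E [46]) (N (E [46]) (E [46]) (E [46]) (E [46]) (E [46]) (E [41]) (E [46]) (E [46])) (E [31]) (E [46]) (E [46]) (E [36, 46]) (E [31]) (E [46])) (N (N (E [31, 41]) (E [31]) (E [46]) (E [31, 41]) (E [36]) (E [31]) (E [41]) (E [36])) (E [26]) (N (E [46]) (E [46]) (E [46]) (E [46]) (E [46]) (E [46]) (E [46]) (E [46])) (N (E [31, 41]) (E [31]) (E [46]) (E [31, 41]) (E [36]) (E [31]) (E [41]) (E [36])) (N (E [31, 41]) (E [31]) (E [41]) (E [36]) (E [36]) (E [31]) (E [41]) (E [41])) (E [31]) (E [36, 46]) (N (E [36]) (E [31]) (E [41]) (E [36]) (E [36]) (E [31]) (E [41]) (E [31]))))] = true := by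
  decide +kernel

theorem c_3_3_6 : colCheck 112 112 208 [
    (N (N (E [31]) (E [31]) (E [31]) (E [31]) (E [31]) (E [31]) (E [31]) (E [31])) (E [31]) (N (E [26]) (E [31]) (N (E [26]) (E [26]) (V 3) (V 3) (E [26]) (E [26]) (E [26]) (E [26])) (E [26]) (E [26]) (E [31]) (N (E [31]) (E [31]) (E [31]) (E [31]) (E [31]) (E [31]) (E [31]) (E [31])) (E [26])) (N (E [31]) (E [31]) (E [31]) (E [31]) (E [31]) (E [31]) (E [31]) (E [31])) (E [31]) (E [31]) (N (E [26]) (E [31]) (E [26]) (E [26]) (E [31]) (E [31]) (E [31]) (E [31])) (E [31])),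
    (N (E [31]) (E [31]) (E [31]) (E [31]) (E [31]) (E [31]) (E [31]) (E [31])),
    (E [31]),
    (E [31]),
    (E [31]),
    (E [31])] = true := by
  decide +kernel

end Pool.Agent.Lib.P37.Chk
end

section

/-!
# Certificates for the box check, part 7
-/

namespace Pool.Agent.Lib.P37.Chk

open Crt

theorem c_3_4_3 : colCheck 112 144 112 [
    (N (N (E [31]) (E [31]) (E [31]) (E [31]) (E [31]) (E [31]) (E [31]) (E [31])) (N (E [31]) (E [31]) (E [31]) (E [31]) (E [31]) (E [31]) (E [31]) (E [31])) (N (E [34]) (E [34]) (E [34]) (E [34]) (E [31]) (E [31]) (E [34]) (E [34])) (N (E [34]) (E [34]) (E [34]) (E [34]) (E [31]) (E [31]) (E [34]) (E [34])) (N (E [31]) (E [31]) (E [31]) (E [31]) (E [31]) (E [31]) (E [31]) (E [31])) (N (E [31]) (E [31]) (E [31]) (E [31]) (E [31]) (E [31]) (E [31]) (E [31])) (N (E [31]) (E [31]) (E [31]) (E [31]) (E [31]) (E [31]) (E [31]) (E [31])) (N (E [31]) (E [31]) (E [31]) (E [31])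 (E [31]) (E [31]) (E [31]) (E [31]))),
    (N (N (E [31]) (E [31]) (E [31]) (E [31]) (E [31]) (E [31]) (E [31]) (E [31])) (N (E [31]) (E [31]) (E [31]) (E [31]) (E [31]) (E [31]) (E [31]) (E [31])) (N (E [34]) (E [34]) (E [34]) (E [34]) (E [31]) (E [31]) (E [34]) (E [34])) (N (E [34]) (E [34]) (E [34]) (E [34]) (E [31]) (E [31]) (E [34]) (E [34])) (N (E [31]) (E [31]) (E [31]) (E [31]) (E [31]) (E [31]) (E [31]) (E [31])) (N (E [31]) (E [31]) (E [31]) (E [31]) (E [31]) (E [31]) (E [31]) (E [31])) (N (E [31]) (E [31]) (E [31]) (E [31]) (E [31]) (E [31]) (E [31]) (E [31])) (N (E [31]) (E [31]) (E [31]) (E [31]) (E [31]) (E [31]) (E [31]) (E [31])))] = true := by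
  decide +kernel

theorem c_3_4_5 : colCheck 112 144 176 [
    (N (N (E [31]) (N (V 3) (V 3) (V 3) (V 3) (E [31]) (E [31]) (E [31]) (E [31])) (N (E [31]) (E [31]) (E [31]) (E [31]) (E [31]) (E [31]) (E [31]) (E [31])) (N (V 3) (V 3) (E [31]) (V 3) (E [31]) (E [31]) (E [31]) (E [31])) (E [31]) (E [31]) (E [31]) (E [31])) (N (N (V 3) (V 3) (V 3) (V 3) (E [46]) (E [46]) (E [31]) (E [46])) (N (V 3) (V 3) (V 3) (V 3) (E [46]) (N (V 3) (V 3) (V 3) (V 3) (E [46]) (E [31, 41]) (E [46]) (E [46])) (E [46]) (N (V 3) (V 3) (V 3) (V 3) (E [46]) (E [46]) (E [46]) (E [46]))) (N (V 3) (V 3) (V 3) (V 3) (E [31]) (E [31]) (E [31]) (E [31])) (N (V 3) (V 3) (V 3) (V 3) (E [46]) (E [46]) (E [31]) (E [46])) (N (E [46]) (E [46]) (E [31]) (E [46]) (E [46]) (E [46]) (E [31]) (E [46])) (N (E [46]) (E [31, 46]) (E [46]) (E [46]) (E [46]) (E [31, 46]) (E [46]) (E [46])) (N (E [31]) (E [31]) (E [31]) (E [31]) (E [31]) (E [31]) (E [31])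 (E [31])) (N (E [46]) (E [46]) (E [31]) (E [46]) (E [46]) (E [46]) (E [31]) (E [46]))) (N (E [34]) (N (E [34]) (E [34]) (E [34]) (E [34]) (E [31]) (E [31]) (E [34]) (E [34])) (E [34]) (N (E [34]) (E [34]) (E [34]) (E [34]) (E [34]) (E [34]) (E [34]) (E [34])) (E [31]) (E [31]) (E [34]) (E [34])) (N (N (V 3) (V 3) (E [34]) (V 3) (E [31]) (E [31]) (E [34]) (E [34])) (N (V 3) (V 3) (V 3) (V 3) (E [31]) (E [31]) (E [34]) (E [34])) (N (E [34]) (E [34]) (E [33]) (E [33]) (E [34]) (E [34]) (E [34]) (E [34])) (N (V 3) (V 3) (E [33]) (V 3) (E [34]) (E [34]) (E [34]) (E [34])) (E [31]) (E [31]) (E [34]) (E [34])) (N (E [31]) (E [31]) (E [31]) (E [31]) (E [31]) (E [31]) (E [31]) (E [31])) (N (N (E [46]) (E [46]) (E [31]) (E [46]) (E [46]) (E [46]) (E [31]) (E [46])) (N (E [46]) (E [46]) (E [46]) (E [46]) (E [46]) (E [41]) (E [46]) (E [46])) (E [31]) (E [46]) (E [46]) (E [31, 46]) (E [31]) (E [46])) (N (E [31]) (E [31])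 (E [31]) (E [31]) (E [31]) (E [31]) (E [31]) (E [31])) (N (E [31]) (E [31]) (E [31]) (E [31]) (E [31]) (E [31]) (E [31]) (E [31])))] = true := by
  decide +kernel

end Pool.Agent.Lib.P37.Chk
end

section

/-!
# Certificates for the box check, part 9
-/

namespace Pool.Agent.Lib.P37.Chk

open Crt

theorem c_3_5_3 : colCheck 112 176 112 [
    (N (N (E [31, 34]) (E [32, 34]) (E [31]) (E [31]) (E [33, 34]) (E [34]) (N (E [31, 33]) (E [31, 33]) (E [31]) (E [31]) (E [34]) (E [34]) (E [31, 33]) (E [31, 33])) (N (E [31, 33]) (E [31, 33]) (E [31]) (E [31]) (E [34]) (E [33]) (E [31, 33]) (E [31, 33]))) (N (E [32, 34]) (N (E [33]) (E [33]) (E [31]) (E [31]) (E [33]) (E [33]) (E [33]) (E [33])) (E [31]) (E [31]) (E [34]) (E [34]) (N (E [31, 33]) (E [31, 33]) (E [31]) (E [31]) (E [33]) (E [33]) (E [31, 33]) (E [31, 33])) (N (E [31, 33]) (E [32]) (E [31]) (E [31]) (E [33]) (E [33]) (E [31, 33]) (E [33]))) (N (E [31]) (E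 [31]) (E [31]) (E [31]) (N (E [31]) (E [31]) (E [31]) (E [31]) (E [31]) (E [31]) (E [31]) (E [31])) (N (E [31]) (E [31]) (E [31]) (E [31]) (E [31]) (E [31]) (E [31]) (E [31])) (E [30]) (E [30])) (N (E [31]) (E [31]) (E [31]) (E [31]) (E [30]) (E [31]) (E [31]) (E [31])) (N (E [34]) (E [34]) (N (E [34]) (E [34]) (E [33, 34]) (E [34]) (E [34]) (E [34]) (E [34]) (E [34])) (N (E [34]) (E [34]) (E [34]) (E [34]) (E [34]) (E [34]) (E [34]) (E [34])) (E [31]) (E [31]) (N (V 5) (E [34]) (V 5) (E [34]) (V 5) (E [31]) (V 5) (E [34])) (N (E [34]) (E [34]) (E [34]) (E [34]) (E [31]) (E [31]) (E [34]) (E [34]))) (N (E [34]) (E [34]) (N (E [34]) (E [34]) (E [33]) (E [33]) (E [34]) (E [34]) (E [34]) (E [34])) (N (E [34]) (E [34]) (E [33]) (E [33]) (E [34]) (E [34]) (E [34]) (E [34])) (E [31]) (E [31]) (E [34]) (E [34])) (N (N (N (E [31]) (E [31]) (E [31]) (E [31]) (E [33]) (E [33]) (E [31]) (E [31])) (E [31, 34]) (E [31])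 (E [31]) (N (E [34]) (E [33]) (E [31, 34]) (E [33]) (V 5) (E [34]) (V 5) (E [34])) (N (E [34]) (E [33]) (E [33]) (E [33]) (E [34]) (E [34]) (E [33]) (E [34])) (N (E [31]) (E [31]) (E [31]) (E [31]) (V 5) (E [31, 34]) (V 5) (E [30])) (N (E [31]) (E [31]) (E [31]) (E [31]) (E [33]) (E [33]) (E [31]) (E [31]))) (N (E [31, 33]) (E [31, 33]) (E [31]) (E [31]) (E [31, 34]) (E [34]) (N (E [31]) (E [31]) (E [31]) (E [31]) (E [33]) (E [33]) (E [31]) (E [31])) (E [31, 34])) (N (E [31]) (E [31]) (E [30]) (E [31]) (N (E [31]) (E [31]) (E [31]) (E [31]) (E [31]) (E [31]) (E [31]) (E [31])) (E [30]) (E [30]) (E [30])) (N (E [31]) (E [31]) (E [31]) (E [31]) (E [31]) (E [31]) (E [31]) (E [31])) (N (N (V 5) (V 5) (V 5) (V 5) (V 5) (V 5) (V 5) (V 5)) (E [34]) (N (V 5) (E [34]) (V 5) (E [31, 33]) (V 5) (V 5) (V 5) (V 5)) (N (E [34]) (E [33]) (E [31, 34]) (E [31, 33]) (E [34]) (E [34]) (E [34]) (E [34])) (V 5) (E [34]) (V 5)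 (N (V 5) (E [34]) (V 5) (E [34]) (V 5) (E [34]) (V 5) (E [34]))) (N (E [34]) (E [34]) (E [32, 34]) (E [32, 34]) (E [34]) (E [34]) (E [34]) (E [34])) (N (N (V 5) (E [30]) (V 5) (E [31]) (V 5) (V 5) (V 5) (V 5)) (N (E [31]) (E [31]) (E [31]) (E [31]) (E [31, 33]) (E [33]) (E [31, 30]) (E [31])) (E [30]) (E [31]) (V 5) (N (V 5) (E [34]) (V 5) (E [31, 34]) (V 5) (E [34]) (V 5) (E [34])) (V 5) (N (V 5) (E [30]) (V 5) (E [31]) (V 5) (E [31, 33]) (V 5) (E [31]))) (N (N (E [31]) (E [31]) (E [31]) (E [31]) (E [33]) (E [33]) (E [30]) (E [31])) (E [31, 34]) (E [31]) (E [31]) (E [31, 34]) (E [31, 34]) (N (E [31]) (E [31]) (E [31]) (E [31]) (E [31, 34]) (E [33]) (E [31]) (E [31])) (E [31, 33]))) (N (N (E [31, 33]) (E [31, 33]) (E [31]) (E [31]) (E [34]) (E [33]) (E [31, 33]) (E [31, 33])) (N (E [31, 33]) (E [31, 33]) (E [31]) (E [31]) (E [33]) (E [33]) (E [32]) (E [32])) (E [30]) (E [31]) (N (E [34]) (E [34]) (E [31, 34])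 (E [34]) (E [34]) (E [34]) (E [34]) (E [34])) (N (E [34]) (E [34]) (E [33]) (E [33]) (E [34]) (E [34]) (E [34]) (E [34])) (N (E [31, 33]) (E [32]) (E [31]) (E [31]) (E [34]) (E [33]) (E [31, 33]) (E [32])) (N (E [32]) (E [32]) (E [31]) (E [31]) (E [33]) (E [33]) (E [32]) (E [33]))))] = true := by
  decide +kernel

theorem c_3_5_4 : colCheck 112 176 144 [
    (N (N (E [32, 34]) (E [32, 34]) (E [31]) (E [31]) (E [34]) (E [34]) (N (E [33]) (E [33]) (E [31]) (E [31]) (E [33]) (E [33]) (E [33]) (E [33])) (E [31, 34])) (N (N (E [33]) (E [33]) (E [31]) (E [31]) (E [33]) (E [33]) (E [33]) (E [33])) (E [32, 34]) (E [31]) (E [31]) (E [34]) (E [34]) (E [31, 34]) (E [31, 33])) (N (E [31]) (E [31]) (E [31]) (E [31]) (E [31]) (E [31]) (E [31]) (E [31])) (N (E [31]) (E [31]) (E [31]) (E [31]) (E [31]) (E [31]) (E [31]) (E [31])) (N (E [34]) (E [34]) (E [34]) (E [34]) (E [31]) (E [31]) (E [34]) (E [34])) (N (E [34]) (E [34])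 (E [34]) (E [34]) (E [31]) (E [31]) (E [34]) (E [34])) (N (N (E [33]) (E [33]) (E [31]) (E [31]) (E [33]) (E [33]) (E [33]) (E [33])) (E [31, 34]) (E [31]) (E [31]) (E [34]) (E [34]) (E [31, 33]) (E [31, 33])) (N (E [31, 33]) (E [31, 33]) (E [31]) (E [31]) (E [34]) (E [33]) (E [31, 33]) (E [33])))] = true := by
  decide +kernel

end Pool.Agent.Lib.P37.Chk
end

section

namespace Pool.Agent.Lib.P37

open Real

private theorem angle_num : cos (π / 3 + 0.07 * p) < 0.49 ∧ 0.51 < cos (π / 3 - 0.07 * p) := by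
  have hp1 := p_gt
  have hp2 := p_lt
  set δ : ℝ := 0.07 * p with hδ
  have hd1 : 0.011886 < δ := by rw [hδ]; linarith
  have hd2 : δ < 0.0119 := by rw [hδ]; linarith
  have hd0 : 0 < δ := by linarith
  have hs := Real.sin_gt_sub_cube hd0
  have hc := Real.one_sub_sq_div_two_le_cos (x := δ)
  have hc1 := Real.cos_le_one δ
  have h3 : (1.732 : ℝ) < √3 := by
    rw [Real.lt_sqrt (by norm_num)]
    norm_num
  have hsq : δ ^ 2 ≤ 0.0119 ^ 2 := by
    apply pow_le_pow_left₀ hd0.le hd2.le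
  have hcu : δ ^ 3 ≤ 0.0119 ^ 3 := by
    apply pow_le_pow_left₀ hd0.le hd2.le
  have hs' : 0.011885 < sin δ := by
    norm_num at hcu
    linarith
  have hprod : 1.732 * 0.011885 < √3 * sin δ := by
    apply mul_lt_mul'' h3 hs' (by norm_num) (by norm_num)
  norm_num at hprod hsq
  constructor
  · rw [cos_add, cos_pi_div_three, sin_pi_div_three]
    linarith
  · rw [cos_sub, cos_pi_div_three, sin_pi_div_three]
    linarith

/-- angles of a triangle with all squared sides in `[4, 4.08]` -/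
theorem angle_bound {A1 A2 A3 r : ℝ} (h1 : 0 < A1) (h2 : 0 < A2) (h3 : 0 < A3)
    (hs : A1 + A2 + A3 = π) (hr : 0 < r) (d1 : 2 ≤ 2 * r * sin A3) (d2 : 2 ≤ 2 * r * sin A1)
    (d3 : 2 ≤ 2 * r * sin A2) (e1 : (2 * r * sin A3) ^ 2 ≤ 4.08) (e2 : (2 * r * sin A1) ^ 2 ≤ 4.08)
    (e3 : (2 * r * sin A2) ^ 2 ≤ 4.08) : |(A1 - π / 3) / p| ≤ 0.07 := by
  have hA1 : A1 = π - (A2 + A3) := by linarith
  have hlaw : (2 * r * sin A2) ^ 2 + (2 * r * sin A3) ^ 2 - (2 * r * sin A1) ^ 2 =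
      2 * ((2 * r * sin A2) * (2 * r * sin A3)) * cos A1 := by
    rw [hA1, sin_pi_sub, cos_pi_sub, sin_add, cos_add]
    have hc2 := sin_sq_add_cos_sq A2
    have hc3 := sin_sq_add_cos_sq A3
    have e2' : cos A2 ^ 2 = 1 - sin A2 ^ 2 := by linarith
    have e3' : cos A3 ^ 2 = 1 - sin A3 ^ 2 := by linarith
    have : (2 * r * sin A2) ^ 2 + (2 * r * sin A3) ^ 2 -
        (2 * r * (sin A2 * cos A3 + cos A2 * sin A3)) ^ 2 =
        4 * r ^ 2 * (sin A2 ^ 2 + sin A3 ^ 2 - sin A2 ^ 2 * cos A3 ^ 2 - cos A2 ^ 2 * sin A3 ^ 2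
          - 2 * (sin A2 * cos A3 * cos A2 * sin A3)) := by ring
    rw [this, e2', e3']
    ring
  generalize 2 * r * sin A2 = b at *
  generalize 2 * r * sin A3 = c at *
  generalize 2 * r * sin A1 = a at *
  have hb2 : b ≤ 2.02 := by nlinarith
  have hc2 : c ≤ 2.02 := by nlinarith
  have hbc1 : 4 ≤ b * c := by nlinarith
  have hbc2 : b * c ≤ 4.08 := by nlinarith [sq_nonneg (b - c)]
  have ha4 : 4 ≤ a ^ 2 := by nlinarith
  have hbmc : (b - c) ^ 2 ≤ 0.0004 := by nlinarith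
  have hK1 : 0.49 ≤ cos A1 := by
    by_contra hlt
    push Not at hlt
    nlinarith [sq_nonneg (b - c)]
  have hK2 : cos A1 ≤ 0.51 := by
    by_contra hlt
    push Not at hlt
    nlinarith [sq_nonneg (b - c)]
  obtain ⟨n1, n2⟩ := angle_num
  have hp := p_pos
  have hp2 := p_lt
  have hpi := Real.pi_gt_three
  rw [abs_le]
  constructor
  · rw [le_div_iff₀ hp]
    by_contra hlt
    push Not at hlt
    have : cos (π / 3 - 0.07 * p) < cos A1 := by
      apply cos_lt_cos_of_nonneg_of_le_pi h1.le (by linarith) (by linarith)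
    linarith
  · rw [div_le_iff₀ hp]
    by_contra hlt
    push Not at hlt
    have : cos A1 < cos (π / 3 + 0.07 * p) := by
      apply cos_lt_cos_of_nonneg_of_le_pi (by linarith) (by linarith) (by linarith)
    linarith

theorem tri_angle_bound {x1 x2 x3 A1 A2 A3 d1 d2 d3 : ℝ} (h : Tri x1 x2 x3 A1 A2 A3 d1 d2 d3)
    (g1 : 2 ≤ d1) (g2 : 2 ≤ d2) (g3 : 2 ≤ d3) (e1 : d1 ^ 2 ≤ 4.08) (e2 : d2 ^ 2 ≤ 4.08)
    (e3 : d3 ^ 2 ≤ 4.08) : |(A1 - π / 3) / p| ≤ 0.07 ∧ |(A2 - π / 3) / p| ≤ 0.07 ∧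
      |(A3 - π / 3) / p| ≤ 0.07 := by
  obtain ⟨r, hr, l1, l2, l3⟩ := h.law
  subst l1 l2 l3
  have hsum := h.sum
  refine ⟨?_, ?_, ?_⟩
  · exact angle_bound h.A1pos h.A2pos h.A3pos hsum hr g1 g2 g3 e1 e2 e3
  · exact angle_bound h.A2pos h.A3pos h.A1pos (by linarith) hr g2 g3 g1 e2 e3 e1
  · exact angle_bound h.A3pos h.A1pos h.A2pos (by linarith) hr g3 g1 g2 e3 e1 e2

end Pool.Agent.Lib.P37
end

section

/-!
# Certificates for the box check, part 8
-/

namespace Pool.Agent.Lib.P37.Chk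

open Crt

theorem c_3_4_6 : colCheck 112 144 208 [
    (N (N (N (V 3) (V 3) (V 3) (V 3) (N (V 3) (V 3) (V 3) (V 3) (E [31]) (E [31]) (E [31, 41]) (E [31])) (E [26]) (N (V 3) (V 3) (V 3) (V 3) (E [46]) (E [36]) (E [46]) (E [41])) (N (V 3) (V 3) (V 3) (V 3) (E [31]) (E [31]) (E [31, 41]) (E [31]))) (N (V 3) (V 3) (V 3) (V 3) (E [26]) (E [31]) (E [26]) (E [31])) (N (V 3) (V 3) (V 3) (V 3) (E [46]) (N (V 3) (V 3) (V 3) (V 3) (E [41]) (E [36]) (E [46]) (E [41])) (E [46]) (E [46])) (N (V 3) (V 3) (V 3) (V 3) (E [31, 41]) (E [31]) (E [31, 46]) (E [31, 41])) (N (E [31, 46]) (E [31]) (E [31, 46]) (E [31, 41]) (E [31, 41]) (E [31]) (E [31, 46]) (E [31, 41])) (E [26]) (N (E [46]) (E [31, 46]) (E [46]) (E [46]) (E [46]) (E [41]) (E [46]) (E [46])) (N (E [31, 41]) (E [31]) (E [41]) (E [31]) (E [31]) (E [31]) (E [41]) (E [31]))) (N (E [26]) (E [31]) (E [26]) (E [26]) (E [26]) (E [31]) (E [26]) (E [31])) (N (N (V 3) (V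 3) (V 3) (V 3) (E [46]) (E [46]) (E [34]) (E [49])) (N (V 3) (V 3) (V 3) (V 3) (E [46]) (E [41]) (E [49]) (E [49])) (N (V 3) (V 3) (V 3) (V 3) (E [34]) (E [34]) (E [34]) (E [34])) (N (V 3) (V 3) (V 3) (V 3) (E [49]) (E [49]) (E [33]) (E [48])) (N (E [46]) (E [46]) (E [31]) (E [46]) (E [46]) (E [46]) (E [31]) (E [46])) (N (E [46]) (E [41]) (E [46]) (E [41]) (E [41]) (E [41]) (E [46]) (E [41])) (E [34]) (E [49])) (N (N (V 3) (V 3) (V 3) (V 3) (E [31]) (E [31]) (E [44]) (E [34])) (E [34]) (E [34, 49]) (E [39]) (E [31, 41]) (E [31]) (E [49]) (E [34])) (N (N (E [36]) (E [31]) (E [41]) (E [31]) (E [31]) (E [31]) (E [41]) (E [31])) (E [26]) (N (E [46]) (E [41]) (E [46]) (E [46]) (E [41]) (E [41]) (E [46]) (E [41])) (E [31, 41]) (E [31, 46]) (E [31]) (E [46]) (E [31, 41])) (N (E [31]) (E [31]) (E [31]) (E [31]) (E [31]) (E [31]) (E [31]) (E [31])) (N (E [46]) (E [46]) (E [49]) (E [49]) (E [46]) (E [41]) (E [46]) (E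 [46])) (N (E [36]) (E [31]) (E [44]) (E [34]) (E [31]) (E [31]) (E [41]) (E [31])))] = true := by
  decide +kernel

theorem c_3_4_7 : colCheck 112 144 240 [
    (N (E [31]) (E [31]) (E [29]) (E [28]) (E [26]) (E [31]) (E [34]) (E [28])),
    (E [33]),
    (E [33]),
    (E [33]),
    (N (E [31]) (E [31]) (E [31]) (E [33]) (E [31]) (E [31]) (E [31]) (E [31]))] = true := by
  decide +kernel

end Pool.Agent.Lib.P37.Chk
end
end

section

section

namespace Pool.Agent.Lib.P37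

open Real MeasureTheory

private theorem gp_sin {α β a b ν : ℝ} (ha : a ≤ ν) (hb : ν ≤ b) (hab : b - a < π)
    (h : 0 ≤ α * cos ν + β * sin ν) :
    0 ≤ α * cos a + β * sin a ∨ 0 ≤ α * cos b + β * sin b := by
  by_contra hcon
  push Not at hcon
  obtain ⟨h1, h2⟩ := hcon
  have h3 : (α * cos ν + β * sin ν) * sin (b - a) =
      (α * cos a + β * sin a) * sin (b - ν) + (α * cos b + β * sin b) * sin (ν - a) := by
    rw [sin_sub, sin_sub, sin_sub]
    have e1 := sin_sq_add_cos_sq a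
    have e2 := sin_sq_add_cos_sq b
    ring_nf
  rcases eq_or_lt_of_le (ha.trans hb) with hab' | hab'
  · have : ν = a := by linarith
    subst this
    linarith
  · have hs : 0 < sin (b - a) := sin_pos_of_pos_of_lt_pi (by linarith) hab
    have h4 : 0 ≤ sin (b - ν) := sin_nonneg_of_nonneg_of_le_pi (by linarith) (by linarith)
    have h5 : 0 ≤ sin (ν - a) := sin_nonneg_of_nonneg_of_le_pi (by linarith) (by linarith)
    have h6 : 0 ≤ (α * cos ν + β * sin ν) * sin (b - a) := mul_nonneg h hs.le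
    rw [h3] at h6
    rcases eq_or_lt_of_le ha with hν | hν
    · have h7 : 0 < sin (b - ν) := sin_pos_of_pos_of_lt_pi (by linarith) (by linarith)
      nlinarith
    · have h7 : 0 < sin (ν - a) := sin_pos_of_pos_of_lt_pi (by linarith) (by linarith)
      nlinarith

private theorem gp_cos_le (t : ℝ) : cos t ≤ cos (p * nd (t / p)) := by
  have hp := p_pos
  set m : ℤ := round (t / (2 * π)) with hm
  have h1 : |t / (2 * π) - m| ≤ 1 / 2 := abs_sub_round _
  have h2 : |t - m * (2 * π)| ≤ π := by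
    have h3 : t - m * (2 * π) = (t / (2 * π) - m) * (2 * π) := by
      field_simp
    rw [h3, abs_mul, abs_of_pos (by positivity : (0 : ℝ) < 2 * π)]
    nlinarith [Real.pi_pos]
  have h4 : cos t = cos |t - m * (2 * π)| := by
    rw [cos_abs, cos_sub_int_mul_two_pi]
  rw [h4]
  apply cos_le_cos_of_nonneg_of_le_pi (mul_nonneg hp.le (nd_nonneg _)) h2
  have h5 := nd_le_abs_sub (t / p) (37 * m)
  have h6 : p * |t / p - ((37 * m : ℤ) : ℝ)| = |t - m * (2 * π)| := by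
    rw [← abs_of_pos hp, ← abs_mul, abs_of_pos hp]
    congr 1
    push_cast
    rw [← p_mul]
    field_simp
  rw [← h6]
  exact mul_le_mul_of_nonneg_left h5 hp.le

private theorem gp_cos_le' (x y : ℝ) :
    cos (p * nd (x / p)) ≤ cos (p * min (nd (x / p)) (nd (y / p))) := by
  have hp := p_pos
  have h0 : 0 ≤ min (nd (x / p)) (nd (y / p)) := le_min (nd_nonneg _) (nd_nonneg _)
  apply cos_le_cos_of_nonneg_of_le_pi (mul_nonneg hp.le h0)
  · have h1 := nd_mul_p_le (x / p)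
    have h2 := half_p_lt
    linarith [Real.pi_pos]
  · exact mul_le_mul_of_nonneg_left (min_le_left _ _) hp.le

/-- some kink of the support functions is a separating direction -/
private theorem gp_kink {d θ φ ψ ν : ℝ}
    (h : hh (ν - φ) + hh (ν + π - ψ) ≤ d * cos (θ - ν)) :
    ∃ ν' : ℝ, hh (ν' - φ) + hh (ν' + π - ψ) ≤ d * cos (θ - ν') ∧
      ((∃ k : ℤ, ν' = φ + k * p) ∨ ∃ k : ℤ, ν' = ψ - π + k * p) := by
  have hp := p_pos
  set k1 : ℤ := ⌊(ν - φ) / p⌋ with hk1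
  set k2 : ℤ := ⌊(ν + π - ψ) / p⌋ with hk2
  have h1 : k1 * p ≤ ν - φ := by
    have := Int.floor_le ((ν - φ) / p)
    rwa [le_div_iff₀ hp] at this
  have h2 : ν - φ ≤ (k1 + 1) * p := by
    have := (Int.lt_floor_add_one ((ν - φ) / p)).le
    rwa [div_le_iff₀ hp] at this
  have h3 : k2 * p ≤ ν + π - ψ := by
    have := Int.floor_le ((ν + π - ψ) / p)
    rwa [le_div_iff₀ hp] at this
  have h4 : ν + π - ψ ≤ (k2 + 1) * p := by
    have := (Int.lt_floor_add_one ((ν + π - ψ) / p)).le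
    rwa [div_le_iff₀ hp] at this
  -- the sinusoid
  set m1 : ℝ := φ + (k1 + 1 / 2) * p with hm1
  set m2 : ℝ := ψ - π + (k2 + 1 / 2) * p with hm2
  set α : ℝ := d * cos θ - Rr * cos m1 - Rr * cos m2 with hα
  set β : ℝ := d * sin θ - Rr * sin m1 - Rr * sin m2 with hβ
  have key : ∀ t : ℝ, k1 * p ≤ t - φ → t - φ ≤ (k1 + 1) * p → k2 * p ≤ t + π - ψ →
      t + π - ψ ≤ (k2 + 1) * p →
      d * cos (θ - t) - (hh (t - φ) + hh (t + π - ψ)) = α * cos t + β * sin t := by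
    intro t g1 g2 g3 g4
    rw [hh_sinusoid g1 g2, hh_sinusoid g3 g4]
    have e1 : t - φ - (k1 + 1 / 2) * p = t - m1 := by rw [hm1]; ring
    have e2 : t + π - ψ - (k2 + 1 / 2) * p = t - m2 := by rw [hm2]; ring
    rw [e1, e2, cos_sub, cos_sub, cos_sub, hα, hβ]
    ring
  set a0 : ℝ := max (φ + k1 * p) (ψ - π + k2 * p) with ha0
  set b0 : ℝ := min (φ + k1 * p) (ψ - π + k2 * p) + p with hb0
  have hmm : min (φ + k1 * p) (ψ - π + k2 * p) ≤ a0 := min_le_left _ _ |>.trans (le_max_left _ _)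
  have ha : a0 ≤ ν := max_le (by linarith) (by linarith)
  have hb : ν ≤ b0 := by
    rw [hb0]
    rcases min_choice (φ + k1 * p) (ψ - π + k2 * p) with h' | h' <;> rw [h'] <;> linarith
  have hlt : b0 - a0 < π := by
    have := p_lt
    have := Real.pi_gt_three
    linarith
  have hin : ∀ t, a0 ≤ t → t ≤ b0 → k1 * p ≤ t - φ ∧ t - φ ≤ (k1 + 1) * p ∧
      k2 * p ≤ t + π - ψ ∧ t + π - ψ ≤ (k2 + 1) * p := by
    intro t g1 g2
    have g3 : φ + k1 * p ≤ t := (le_max_left _ _).trans g1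
    have g4 : ψ - π + k2 * p ≤ t := (le_max_right _ _).trans g1
    have g5 : min (φ + k1 * p) (ψ - π + k2 * p) ≤ φ + k1 * p := min_le_left _ _
    have g6 : min (φ + k1 * p) (ψ - π + k2 * p) ≤ ψ - π + k2 * p := min_le_right _ _
    refine ⟨by linarith, by linarith, by linarith, by linarith⟩
  have h0 : 0 ≤ α * cos ν + β * sin ν := by
    rw [← key ν h1 h2 h3 h4]
    linarith
  rcases gp_sin ha hb hlt h0 with h5 | h5
  · obtain ⟨g1, g2, g3, g4⟩ := hin a0 le_rfl (ha.trans hb)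
    rw [← key a0 g1 g2 g3 g4] at h5
    refine ⟨a0, by linarith, ?_⟩
    rcases max_choice (φ + k1 * p) (ψ - π + k2 * p) with h' | h'
    · exact Or.inl ⟨k1, h'⟩
    · exact Or.inr ⟨k2, h'⟩
  · obtain ⟨g1, g2, g3, g4⟩ := hin b0 (ha.trans hb) le_rfl
    rw [← key b0 g1 g2 g3 g4] at h5
    refine ⟨b0, by linarith, ?_⟩
    rcases min_choice (φ + k1 * p) (ψ - π + k2 * p) with h' | h'
    · exact Or.inl ⟨k1 + 1, by rw [hb0, h']; push_cast; ring⟩
    · exact Or.inr ⟨k2 + 1, by rw [hb0, h']; push_cast; ring⟩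

theorem pair_of_sep {a b : ℂ} {φ ψ : ℝ} (hab : a ≠ b) (h : Sep a b φ ψ) :
    PairIneq (φ - Complex.arg (b - a)) (ψ - Complex.arg (a - b)) ‖b - a‖ := by
  obtain ⟨ν, hν⟩ := h
  rw [dotp_ee] at hν
  set θ := Complex.arg (b - a) with hθ
  set d := ‖b - a‖ with hd
  have hd0 : 0 ≤ d := norm_nonneg _
  obtain ⟨n, hn⟩ : ∃ n : ℤ, Complex.arg (a - b) - (θ + π) = 2 * π * n := by
    have hba : b - a ≠ 0 := sub_ne_zero.mpr hab.symm
    have h1 := Complex.arg_neg_coe_angle hba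
    rw [neg_sub, ← Real.Angle.coe_add] at h1
    exact Real.Angle.angle_eq_iff_two_pi_dvd_sub.1 h1
  have hsig : sigma (φ - θ - (ψ - Complex.arg (a - b))) = 1 + hh (φ - ψ + π) := by
    have e1 : φ - θ - (ψ - Complex.arg (a - b)) = φ - ψ + π + ((37 * n : ℤ) : ℝ) * p := by
      push_cast
      have := p_mul
      linear_combination hn - n * this
    rw [e1, ← hh_add_int_mul (φ - ψ + π) (37 * n)]
    rfl
  unfold PairIneq
  rw [hsig]
  obtain ⟨ν', h1, h2 | h2⟩ := gp_kink hν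
  · obtain ⟨k, rfl⟩ := h2
    have e1 : hh (φ + k * p - φ) = 1 := by rw [add_sub_cancel_left, hh_int_mul]
    have e2 : hh (φ + k * p + π - ψ) = hh (φ - ψ + π) := by
      rw [show φ + k * p + π - ψ = φ - ψ + π + k * p by ring, hh_add_int_mul]
    rw [e1, e2] at h1
    have e3 : cos (θ - (φ + k * p)) ≤ cos (p * nd ((φ - θ) / p)) := by
      have e4 := gp_cos_le (φ - θ + k * p)
      have e5 : (φ - θ + k * p) / p = (φ - θ) / p + k := by
        field_simp [p_pos.ne']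
      rw [e5, nd_add_int] at e4
      rw [← cos_neg]
      convert e4 using 2
      ring
    have e6 := e3.trans (gp_cos_le' (φ - θ) (ψ - Complex.arg (a - b)))
    exact h1.trans (mul_le_mul_of_nonneg_left e6 hd0)
  · obtain ⟨k, rfl⟩ := h2
    have e1 : hh (ψ - π + k * p + π - ψ) = 1 := by
      rw [show ψ - π + k * p + π - ψ = k * p by ring, hh_int_mul]
    have e2 : hh (ψ - π + k * p - φ) = hh (φ - ψ + π) := by
      rw [show ψ - π + k * p - φ = -(φ - ψ + π) + k * p by ring, hh_add_int_mul, hh_neg]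
    rw [e1, e2] at h1
    have e3 : cos (θ - (ψ - π + k * p)) ≤ cos (p * nd ((ψ - Complex.arg (a - b)) / p)) := by
      have e4 := gp_cos_le (ψ - Complex.arg (a - b) + k * p)
      have e5 : (ψ - Complex.arg (a - b) + k * p) / p = (ψ - Complex.arg (a - b)) / p + k := by
        field_simp [p_pos.ne']
      rw [e5, nd_add_int] at e4
      have e6 : cos (θ - (ψ - π + k * p)) = cos (ψ - Complex.arg (a - b) + k * p) := by
        rw [← cos_neg, ← cos_add_int_mul_two_pi (ψ - Complex.arg (a - b) + k * p) n]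
        congr 1
        linear_combination hn
      rw [e6]
      exact e4
    have e7 := gp_cos_le' (ψ - Complex.arg (a - b)) (φ - θ)
    rw [min_comm] at e7
    have e6 := e3.trans e7
    have h3 := mul_le_mul_of_nonneg_left e6 hd0
    linarith

end Pool.Agent.Lib.P37
end

section

namespace Pool.Agent.Lib.P37

open Real MeasureTheory

theorem heron_ar2 (i j k : ℂ) : 4 * (ar2 i j k) ^ 2 =
    4 * ‖k - j‖ ^ 2 * ‖i - k‖ ^ 2 - (‖k - j‖ ^ 2 + ‖i - k‖ ^ 2 - ‖j - i‖ ^ 2) ^ 2 := by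
  unfold ar2 crs
  simp only [Complex.sq_norm, Complex.normSq_apply, Complex.sub_re, Complex.sub_im]
  ring

theorem mid_area {i j k : ℂ} (h1 : 2 ≤ ‖k - j‖) (h2 : 2 ≤ ‖i - k‖) (h3 : ‖k - j‖ ≤ ‖j - i‖)
    (h4 : ‖i - k‖ ≤ ‖j - i‖) (h5 : 4.08 ≤ ‖j - i‖ ^ 2) (h6 : ‖j - i‖ ^ 2 ≤ 11.92)
    (h : 0 < ar2 i j k) : 1.7432 ≤ ar2 i j k / 2 := by
  have hH := heron_ar2 i j k
  have hA : 4 ≤ ‖k - j‖ ^ 2 := by nlinarith
  have hB : 4 ≤ ‖i - k‖ ^ 2 := by nlinarith
  have hAC : ‖k - j‖ ^ 2 ≤ ‖j - i‖ ^ 2 := by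
    have := norm_nonneg (k - j)
    nlinarith
  have hBC : ‖i - k‖ ^ 2 ≤ ‖j - i‖ ^ 2 := by
    have := norm_nonneg (i - k)
    nlinarith
  set A := ‖k - j‖ ^ 2
  set B := ‖i - k‖ ^ 2
  set C := ‖j - i‖ ^ 2
  have e1 : (4 * A * B - (A + B - C) ^ 2) - (16 * B - (4 + B - C) ^ 2)
      = (A - 4) * (2 * B + 2 * C - A - 4) := by ring
  have e2 : (16 * B - (4 + B - C) ^ 2) - (C * (16 - C)) = (B - 4) * (2 * C - B + 4) := by ring
  have p1 : 0 ≤ (A - 4) * (2 * B + 2 * C - A - 4) :=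
    mul_nonneg (by linarith) (by linarith)
  have p2 : 0 ≤ (B - 4) * (2 * C - B + 4) := mul_nonneg (by linarith) (by linarith)
  have p3 : 48.6336 ≤ C * (16 - C) := by nlinarith
  have h7 : 48.6336 ≤ 4 * (ar2 i j k) ^ 2 := by linarith
  by_contra hcon
  push Not at hcon
  nlinarith

theorem gram_zero (u v w : ℂ) : dotp u u * dotp v v * dotp w w + 2 * dotp v w * dotp w u * dotp u v
    - dotp u u * dotp v w ^ 2 - dotp v v * dotp w u ^ 2 - dotp w w * dotp u v ^ 2 = 0 := by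
  unfold dotp
  ring

theorem circ_identity {i j k m : ℂ} {r : ℝ} (hi : ‖i - m‖ = r) (hj : ‖j - m‖ = r)
    (hk : ‖k - m‖ = r) : ‖j - i‖ ^ 2 * ‖k - j‖ ^ 2 * ‖i - k‖ ^ 2 = 4 * r ^ 2 * (ar2 i j k) ^ 2 := by
  have hH := heron_ar2 i j k
  have hu : dotp (i - m) (i - m) = r ^ 2 := by rw [dotp_self, hi]
  have hv : dotp (j - m) (j - m) = r ^ 2 := by rw [dotp_self, hj]
  have hw : dotp (k - m) (k - m) = r ^ 2 := by rw [dotp_self, hk]
  have hG := gram_zero (i - m) (j - m) (k - m)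
  rw [hu, hv, hw] at hG
  have hC : ‖j - i‖ ^ 2 = 2 * r ^ 2 - 2 * dotp (i - m) (j - m) := by
    have e : ‖j - i‖ ^ 2 = dotp (i - m) (i - m) + dotp (j - m) (j - m)
        - 2 * dotp (i - m) (j - m) := by
      rw [← dotp_self]
      unfold dotp
      simp only [Complex.sub_re, Complex.sub_im]
      ring
    rw [e, hu, hv]; ring
  have hA : ‖k - j‖ ^ 2 = 2 * r ^ 2 - 2 * dotp (j - m) (k - m) := by
    have e : ‖k - j‖ ^ 2 = dotp (j - m) (j - m) + dotp (k - m) (k - m)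
        - 2 * dotp (j - m) (k - m) := by
      rw [← dotp_self]
      unfold dotp
      simp only [Complex.sub_re, Complex.sub_im]
      ring
    rw [e, hw, hv]; ring
  have hB : ‖i - k‖ ^ 2 = 2 * r ^ 2 - 2 * dotp (k - m) (i - m) := by
    have e : ‖i - k‖ ^ 2 = dotp (k - m) (k - m) + dotp (i - m) (i - m)
        - 2 * dotp (k - m) (i - m) := by
      rw [← dotp_self]
      unfold dotp
      simp only [Complex.sub_re, Complex.sub_im]
      ring
    rw [e, hw, hu]; ring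
  rw [hA, hB, hC] at hH
  rw [hA, hB, hC]
  linear_combination (-r ^ 2) * hH - 4 * hG

theorem long_area {i j k m : ℂ} {r : ℝ} (h1 : 2 ≤ ‖k - j‖) (h2 : 2 ≤ ‖i - k‖)
    (hi : ‖i - m‖ = r) (hj : ‖j - m‖ = r) (hk : ‖k - m‖ = r) (hr : r ≤ 2.008)
    (h5 : 11.92 < ‖j - i‖ ^ 2) (h : 0 < ar2 i j k) : 1.7193 ≤ ar2 i j k / 2 := by
  have hc := circ_identity hi hj hk
  have hA : 4 ≤ ‖k - j‖ ^ 2 := by nlinarith
  have hB : 4 ≤ ‖i - k‖ ^ 2 := by nlinarith
  have hr0 : 0 ≤ r := by rw [← hi]; exact norm_nonneg _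
  have hr2 : r ^ 2 ≤ 2.008 ^ 2 := by nlinarith
  have h3 : 16 ≤ ‖k - j‖ ^ 2 * ‖i - k‖ ^ 2 := by nlinarith
  have h4 : 11.92 * 16 ≤ ‖j - i‖ ^ 2 * (‖k - j‖ ^ 2 * ‖i - k‖ ^ 2) :=
    mul_le_mul h5.le h3 (by norm_num) (by positivity)
  have h6 : 11.92 * 16 ≤ 4 * r ^ 2 * (ar2 i j k) ^ 2 := by rw [← hc]; linarith
  by_contra hcon
  push Not at hcon
  have h7 : (ar2 i j k) ^ 2 ≤ 3.4386 ^ 2 := by nlinarith
  have h8 : r ^ 2 * (ar2 i j k) ^ 2 ≤ 2.008 ^ 2 * 3.4386 ^ 2 :=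
    mul_le_mul hr2 h7 (sq_nonneg _) (by norm_num)
  norm_num at h8 h6
  linarith

end Pool.Agent.Lib.P37
end

section

namespace Pool.Agent.Lib.P37

open Real MeasureTheory

private lemma tb_center {i j m : ℂ} (hij : 0 < ‖j - i‖ ^ 2) (h : ‖i - m‖ = ‖j - m‖) :
    ∃ s : ℝ, m.re = (i.re + j.re) / 2 - s * (j.im - i.im) ∧
      m.im = (i.im + j.im) / 2 + s * (j.re - i.re) := by
  have h2 : ‖i - m‖ ^ 2 = ‖j - m‖ ^ 2 := by rw [h]
  rw [Complex.sq_norm, Complex.sq_norm, Complex.normSq_apply, Complex.normSq_apply] at h2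
  rw [Complex.sq_norm, Complex.normSq_apply] at hij
  simp only [Complex.sub_re, Complex.sub_im] at h2 hij
  set C := (j.re - i.re) * (j.re - i.re) + (j.im - i.im) * (j.im - i.im) with hC
  refine ⟨((j.re - i.re) * (m.im - (i.im + j.im) / 2) - (j.im - i.im) * (m.re - (i.re + j.re) / 2)) / C,
    ?_, ?_⟩
  · field_simp
    rw [hC]
    linear_combination ((j.re - i.re)) * h2
  · field_simp
    rw [hC]
    linear_combination ((j.im - i.im)) * h2

private lemma tb_power {i j m q : ℂ} {s : ℝ} (h1 : m.re = (i.re + j.re) / 2 - s * (j.im - i.im))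
    (h2 : m.im = (i.im + j.im) / 2 + s * (j.re - i.re)) :
    ‖q - m‖ ^ 2 - ‖i - m‖ ^ 2 = dotp (q - i) (q - j) - 2 * s * ar2 i j q := by
  rw [Complex.sq_norm, Complex.sq_norm, Complex.normSq_apply, Complex.normSq_apply]
  unfold dotp ar2 crs
  simp only [Complex.sub_re, Complex.sub_im]
  rw [h1, h2]
  ring

private lemma tb_dotp (i j q : ℂ) :
    2 * dotp (q - i) (q - j) = ‖q - j‖ ^ 2 + ‖i - q‖ ^ 2 - ‖j - i‖ ^ 2 := by
  rw [Complex.sq_norm, Complex.sq_norm, Complex.sq_norm, Complex.normSq_apply,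
    Complex.normSq_apply, Complex.normSq_apply]
  unfold dotp
  simp only [Complex.sub_re, Complex.sub_im]
  ring

private lemma tb_num1 {r Z a b C s : ℝ} (hr0 : 0 ≤ r) (hr : r ≤ 2.008) (hZ : 0 < Z)
    (hZ2 : Z < 2 * 1.7432) (ha : 2 ≤ a) (hb : 2 ≤ b) (hC : 11.92 < C)
    (hcirc : C * a ^ 2 * b ^ 2 = 4 * r ^ 2 * Z ^ 2) (hs : 4 * s * Z = a ^ 2 + b ^ 2 - C) :
    s ≤ -0.273 := by
  have hZ3 : Z ^ 2 ≤ 12.155 := by nlinarith
  have hr2 : r ^ 2 ≤ 4.0321 := by nlinarith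
  have hrz : r ^ 2 * Z ^ 2 ≤ 4.0321 * 12.155 :=
    mul_le_mul hr2 hZ3 (by positivity) (by norm_num)
  have hab0 : 0 ≤ a ^ 2 * b ^ 2 := by positivity
  have hab : a ^ 2 * b ^ 2 ≤ 16.447 := by
    by_contra hcon
    push Not at hcon
    have h1 : 11.92 * (a ^ 2 * b ^ 2) ≤ C * (a ^ 2 * b ^ 2) :=
      mul_le_mul_of_nonneg_right hC.le hab0
    linarith
  have ha4 : 4 ≤ a ^ 2 := by nlinarith
  have hb4 : 4 ≤ b ^ 2 := by nlinarith
  have hsum : a ^ 2 + b ^ 2 ≤ 8.11175 := by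
    nlinarith [mul_nonneg (sub_nonneg.mpr ha4) (sub_nonneg.mpr hb4)]
  have hsZ : s * Z ≤ -0.952 := by linarith
  by_contra hcon
  push Not at hcon
  have h6 : 0 ≤ (s + 0.273) * Z := mul_nonneg (by linarith) hZ.le
  have h7 : (s + 0.273) * Z = s * Z + 0.273 * Z := by ring
  linarith

private lemma tb_num2 {Y a' b' C w Dl : ℝ} (hY : 0 < Y) (hC : 11.92 < C) (hw : 0.273 ≤ w)
    (ha0 : 0 ≤ a') (hb0 : 0 ≤ b')
    (hd1 : a' - b' ≤ 2.016) (hd2 : -(2.016) ≤ a' - b') (hDl : Dl = 2 * w * Y)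
    (hdl : 2 * Dl = a' ^ 2 + b' ^ 2 - C) (hcr : Dl ^ 2 + Y ^ 2 = b' ^ 2 * a' ^ 2) :
    6.6 ≤ Y := by
  have hdiff : (a' - b') ^ 2 ≤ 4.0643 := by nlinarith
  have h2ab : C - 4.0643 + 4 * w * Y ≤ 2 * (a' * b') := by
    have e : (a' - b') ^ 2 = a' ^ 2 + b' ^ 2 - 2 * (a' * b') := by ring
    rw [e] at hdiff
    rw [hDl] at hdl
    linarith
  have hwY : 0 ≤ w * Y := mul_nonneg (by linarith) hY.le
  have hq : 7.8557 ≤ C - 4.0643 := by linarith
  have hpos : 0 ≤ C - 4.0643 + 4 * w * Y := by linarith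
  have h8 : (C - 4.0643 + 4 * w * Y) ^ 2 ≤ (2 * (a' * b')) ^ 2 := pow_le_pow_left₀ hpos h2ab 2
  have h9 : (2 * (a' * b')) ^ 2 = 4 * (Y ^ 2 + (2 * w * Y) ^ 2) := by
    rw [← hDl]
    linear_combination (-4) * hcr
  rw [h9] at h8
  have e10 : (C - 4.0643 + 4 * w * Y) ^ 2 = (C - 4.0643) ^ 2 + 8 * ((C - 4.0643) * (w * Y)) +
      4 * (2 * w * Y) ^ 2 := by ring
  rw [e10] at h8
  have h11 : 7.8557 * (0.273 * Y) ≤ (C - 4.0643) * (w * Y) :=
    mul_le_mul hq (mul_le_mul_of_nonneg_right hw hY.le) (by positivity) (by linarith)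
  have h14 : 61.71 ≤ (C - 4.0643) ^ 2 := by nlinarith
  by_contra hcon
  push Not at hcon
  have h15 : 0 ≤ Y * (6.6 - Y) := mul_nonneg hY.le (by linarith)
  have e15 : Y * (6.6 - Y) = 6.6 * Y - Y ^ 2 := by ring
  linarith

/-- the neighbour of a bad triangle across its long side is large -/
theorem bad_nbr {i j k l m m' : ℂ} {r r' : ℝ} (h1 : 2 ≤ ‖k - j‖) (h2 : 2 ≤ ‖i - k‖)
    (h3 : 2 ≤ ‖l - j‖) (h4 : 2 ≤ ‖i - l‖)
    (hi : ‖i - m‖ = r) (hj : ‖j - m‖ = r) (hk : ‖k - m‖ = r) (hr : r ≤ 2.008)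
    (hi' : ‖i - m'‖ = r') (hj' : ‖j - m'‖ = r') (hl' : ‖l - m'‖ = r') (hr' : r' ≤ 2.008)
    (hkm' : r' ≤ ‖k - m'‖) (h5 : 11.92 < ‖j - i‖ ^ 2) (h : 0 < ar2 i j k) (h' : 0 < ar2 j i l)
    (hbad : ar2 i j k < 2 * 1.7432) : 3.3 ≤ ar2 j i l / 2 := by
  obtain ⟨s, hs1, hs2⟩ := tb_center (by linarith) (hi.trans hj.symm)
  obtain ⟨s', hs1', hs2'⟩ := tb_center (by linarith) (hi'.trans hj'.symm)
  have hpk := tb_power (q := k) hs1 hs2
  have hpk' := tb_power (q := k) hs1' hs2'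
  have hpl' := tb_power (q := l) hs1' hs2'
  clear hs1 hs2 hs1' hs2'
  have hdk := tb_dotp i j k
  have hdl := tb_dotp i j l
  have hcirc := circ_identity hi hj hk
  have hY : ar2 i j l = - ar2 j i l := by
    unfold ar2 crs
    simp only [Complex.sub_re, Complex.sub_im]
    ring
  have hr0 : 0 ≤ r := by rw [← hi]; exact norm_nonneg _
  have hr0' : 0 ≤ r' := by rw [← hi']; exact norm_nonneg _
  have hcr := dotp_sq_add_crs_sq (l - i) (l - j)
  have hcrs : crs (l - i) (l - j) = - ar2 j i l := by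
    unfold ar2 crs
    simp only [Complex.sub_re, Complex.sub_im]
    ring
  rw [hcrs, neg_sq, norm_sub_rev l i] at hcr
  rw [hk, hi, sub_self] at hpk
  rw [hi'] at hpk'
  rw [hl', hi', sub_self, hY] at hpl'
  have hk2 : r' ^ 2 ≤ ‖k - m'‖ ^ 2 := pow_le_pow_left₀ hr0' hkm' 2
  have hla : ‖l - j‖ ≤ 2 * r' := by
    have := norm_sub_le (l - m') (j - m')
    rw [hl', hj', sub_sub_sub_cancel_right] at this
    linarith
  have hlb : ‖i - l‖ ≤ 2 * r' := by
    have := norm_sub_le (i - m') (l - m')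
    rw [hl', hi', sub_sub_sub_cancel_right] at this
    linarith
  have hs := tb_num1 hr0 hr h hbad h1 h2 h5 hcirc (s := s) (by linarith)
  have hs' : s' ≤ s := by
    by_contra hcon
    push Not at hcon
    have h6 : 0 < (s' - s) * ar2 i j k := mul_pos (by linarith) h
    have e6 : (s' - s) * ar2 i j k = s' * ar2 i j k - s * ar2 i j k := by ring
    linarith
  have := tb_num2 (w := -s') h' h5 (by linarith) (norm_nonneg _) (norm_nonneg _)
    (a' := ‖l - j‖) (b' := ‖i - l‖) (by linarith) (by linarith)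
    (Dl := dotp (l - i) (l - j)) (by linarith) hdl hcr
  linarith

end Pool.Agent.Lib.P37
end

section

namespace Pool.Agent.Lib.P37

open Real MeasureTheory

private lemma tc_shift {t : ℝ} (n : ℤ) : (t - 2 * π * n) / p = t / p - ((37 * n : ℤ) : ℝ) := by
  have hp := p_pos
  have h := p_mul
  rw [← h]
  push_cast
  field_simp

private lemma tc_nd (t : ℝ) (n : ℤ) : nd ((t - 2 * π * n) / p) = nd (t / p) := by
  rw [tc_shift, nd_sub_int]

private lemma tc_G (t : ℝ) (n : ℤ) : G (t - 2 * π * n) = G t := by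
  unfold G
  rw [tc_shift, g0_sub_int]

private lemma tc_pair {x y d : ℝ} (n : ℤ) (h : PairIneq x (y - 2 * π * n) d) : PairIneq x y d := by
  unfold PairIneq at *
  rw [tc_nd] at h
  have e : sigma (x - (y - 2 * π * n)) = sigma (x - y) := by
    unfold sigma
    have : x - (y - 2 * π * n) = (x - y) - 2 * π * ((-n : ℤ) : ℝ) := by push_cast; ring
    rw [this, tc_nd]
  rwa [e] at h

private lemma tc_arg {a b : ℂ} (ha : a ≠ 0) (hb : b ≠ 0) :
    ∃ n : ℤ, Complex.arg b = Complex.arg a + Complex.arg (b / a) + 2 * π * n := by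
  have h : ((Complex.arg b : ℝ) : Real.Angle) = ((Complex.arg a + Complex.arg (b / a) : ℝ) : Real.Angle) := by
    rw [Real.Angle.coe_add, Complex.arg_div_coe_angle hb ha]
    simp
  obtain ⟨n, hn⟩ := Real.Angle.angle_eq_iff_two_pi_dvd_sub.mp h
  exact ⟨n, by linarith⟩

private lemma tc_sin {a b : ℂ} (ha : a ≠ 0) (hb : b ≠ 0) :
    sin (Complex.arg (b / a)) = crs a b / (‖a‖ * ‖b‖) := by
  rw [Complex.sin_arg, im_div_eq, norm_div, Complex.normSq_eq_norm_sq]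
  have h1 : ‖a‖ ≠ 0 := norm_ne_zero_iff.mpr ha
  have h2 : ‖b‖ ≠ 0 := norm_ne_zero_iff.mpr hb
  field_simp

/-- from three centres to the triangle data -/
theorem tri_of_pts {i j k : ℂ} {φ : ℂ → ℝ} (h : 0 < ar2 i j k)
    (h1 : Sep i j (φ i) (φ j)) (h2 : Sep j k (φ j) (φ k)) (h3 : Sep k i (φ k) (φ i)) :
    ∃ x1 x2 x3 A1 A2 A3 d1 d2 d3 : ℝ, Tri x1 x2 x3 A1 A2 A3 d1 d2 d3 ∧
      d1 = ‖j - i‖ ∧ d2 = ‖k - j‖ ∧ d3 = ‖i - k‖ ∧
      Psi x1 x2 x3 A1 A2 A3 d1 d2 d3 =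
        ar2 i j k / 2 - As + (Gam φ i j + Gam φ j k + Gam φ k i) := by
  have c1 : 0 < crs (j - i) (k - i) := h
  have e2 : crs (k - j) (i - j) = ar2 i j k := by
    unfold ar2 crs
    simp only [Complex.sub_re, Complex.sub_im]
    ring
  have e3 : crs (i - k) (j - k) = ar2 i j k := by
    unfold ar2 crs
    simp only [Complex.sub_re, Complex.sub_im]
    ring
  have c2 : 0 < crs (k - j) (i - j) := by rw [e2]; exact h
  have c3 : 0 < crs (i - k) (j - k) := by rw [e3]; exact h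
  have n1 : j - i ≠ 0 := by
    intro h0
    rw [h0] at c1
    simp [crs] at c1
  have n2 : k - j ≠ 0 := by
    intro h0
    rw [h0] at c2
    simp [crs] at c2
  have n3 : i - k ≠ 0 := by
    intro h0
    rw [h0] at c3
    simp [crs] at c3
  have n1' : i - j ≠ 0 := by rw [← neg_sub]; exact neg_ne_zero.mpr n1
  have n2' : j - k ≠ 0 := by rw [← neg_sub]; exact neg_ne_zero.mpr n2
  have n3' : k - i ≠ 0 := by rw [← neg_sub]; exact neg_ne_zero.mpr n3
  have a1 := arg_pos_of_crs c1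
  have a2 := arg_pos_of_crs c2
  have a3 := arg_pos_of_crs c3
  have hsum := tri_angle_sum h
  obtain ⟨m1, hm1⟩ := tc_arg n1 n3'
  obtain ⟨m2, hm2⟩ := tc_arg n2 n1'
  obtain ⟨m3, hm3⟩ := tc_arg n3 n2'
  have s1 := tc_sin n1 n3'
  have s2 := tc_sin n2 n1'
  have s3 := tc_sin n3 n2'
  rw [norm_sub_rev k i, show crs (j - i) (k - i) = ar2 i j k from rfl] at s1
  rw [norm_sub_rev i j, e2] at s2
  rw [norm_sub_rev j k, e3] at s3
  have p1 : 0 < ‖j - i‖ := norm_pos_iff.mpr n1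
  have p2 : 0 < ‖k - j‖ := norm_pos_iff.mpr n2
  have p3 : 0 < ‖i - k‖ := norm_pos_iff.mpr n3
  set A1 := Complex.arg ((k - i) / (j - i)) with hA1
  set A2 := Complex.arg ((i - j) / (k - j)) with hA2
  set A3 := Complex.arg ((j - k) / (i - k)) with hA3
  have r1 : φ i - Complex.arg (k - i) = (φ i - Complex.arg (j - i) - A1) - 2 * π * m1 := by
    rw [hm1]; ring
  have r2 : φ j - Complex.arg (i - j) = (φ j - Complex.arg (k - j) - A2) - 2 * π * m2 := by
    rw [hm2]; ring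
  have r3 : φ k - Complex.arg (j - k) = (φ k - Complex.arg (i - k) - A3) - 2 * π * m3 := by
    rw [hm3]; ring
  refine ⟨φ i - Complex.arg (j - i), φ j - Complex.arg (k - j), φ k - Complex.arg (i - k),
    A1, A2, A3, ‖j - i‖, ‖k - j‖, ‖i - k‖, ⟨a1, a2, a3, hsum, ?_, ?_, ?_, ?_⟩, rfl, rfl, rfl, ?_⟩
  · refine ⟨‖j - i‖ * ‖k - j‖ * ‖i - k‖ / (2 * ar2 i j k), by positivity, ?_, ?_, ?_⟩
    · rw [s3]; field_simp
    · rw [s1]; field_simp
    · rw [s2]; field_simp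
  · have := pair_of_sep (sub_ne_zero.mp n1') h1
    rw [r2] at this
    exact tc_pair m2 this
  · have := pair_of_sep (sub_ne_zero.mp n2') h2
    rw [r3] at this
    exact tc_pair m3 this
  · have := pair_of_sep (sub_ne_zero.mp n3') h3
    rw [r1] at this
    exact tc_pair m1 this
  · unfold Psi Gam
    rw [r1, r2, r3, tc_G, tc_G, tc_G, s1]
    have : ‖j - i‖ * ‖i - k‖ * (ar2 i j k / (‖j - i‖ * ‖i - k‖)) = ar2 i j k := by
      field_simp
    rw [this]
    ring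

end Pool.Agent.Lib.P37
end

section

namespace Pool.Agent.Lib.P37

open Real

/-- statement of the main local inequality (theorem LI, proved elsewhere) -/
def LIst : Prop := ∀ x1 x2 x3 A1 A2 A3 d1 d2 d3 : ℝ, Tri x1 x2 x3 A1 A2 A3 d1 d2 d3 →
    d1 ^ 2 ≤ 4.08 → d2 ^ 2 ≤ 4.08 → d3 ^ 2 ≤ 4.08 → 2 ≤ d1 → 2 ≤ d2 → 2 ≤ d3 →
    0 ≤ Psi x1 x2 x3 A1 A2 A3 d1 d2 d3

/-- the data of a Delaunay triple well inside the covered disc -/
private lemma lw_data {S : Finset ℂ} {φ : ℂ → ℝ} {ρ : ℝ} (hC : Cfg S φ) (hcov : Cov S ρ)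
    {i j k : ℂ} (h : Del S i j k) (hi : ‖i‖ ≤ ρ - 3) :
    i ∈ S ∧ j ∈ S ∧ k ∈ S ∧ i ≠ j ∧ j ≠ k ∧ k ≠ i ∧ 2 ≤ ‖j - i‖ ∧ 2 ≤ ‖k - j‖ ∧ 2 ≤ ‖i - k‖ ∧
      0 < ar2 i j k ∧ ∃ m : ℂ, ∃ r : ℝ, ‖i - m‖ = r ∧ ‖j - m‖ = r ∧ ‖k - m‖ = r ∧ r ≤ 2.008 ∧
        ∀ l ∈ S, r ≤ ‖l - m‖ := by
  obtain ⟨hiS, hjS, hkS, ha, m, r, h1, h2, h3, h4⟩ := h
  have hij : i ≠ j := by
    rintro rfl
    unfold ar2 crs at ha
    simp at ha
  have hki : k ≠ i := by
    rintro rfl
    rw [ar2_self_left] at ha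
    exact lt_irrefl _ ha
  have hjk : j ≠ k := by
    rintro rfl
    rw [ar2_self_right] at ha
    exact lt_irrefl _ ha
  have hall : ∀ l ∈ S, r ≤ ‖l - m‖ := by
    intro l hl
    by_cases c1 : l = i
    · rw [c1, h1]
    by_cases c2 : l = j
    · rw [c2, h2]
    by_cases c3 : l = k
    · rw [c3, h3]
    exact (h4 l hl c1 c2 c3).le
  have hr : r ≤ 2.008 := radius_le hcov hi h1 hall
  exact ⟨hiS, hjS, hkS, hij, hjk, hki, dist_of_sep (hC j hjS i hiS hij.symm),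
    dist_of_sep (hC k hkS j hjS hjk.symm), dist_of_sep (hC i hiS k hkS hki.symm), ha, m, r, h1, h2,
    h3, hr, hall⟩

private lemma lw_rot (i j k : ℂ) : ar2 j k i = ar2 i j k := by
  unfold ar2 crs
  simp only [Complex.sub_re, Complex.sub_im]
  ring

/-- if the triangle across a side is bad then ours is large -/
private lemma lw_rev {S : Finset ℂ} {φ : ℂ → ℝ} {ρ : ℝ} (hC : Cfg S φ) (hcov : Cov S ρ)
    {a b c : ℂ} (h : Del S a b c) (ha : ‖a‖ ≤ ρ - 3) (hb : ‖b‖ ≤ ρ - 3) (hbad : Bad S b a) :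
    3.3 ≤ ar2 a b c / 2 := by
  obtain ⟨hlong, l, hl, harea⟩ := hbad
  obtain ⟨-, -, -, -, -, -, -, g2, g3, gp, m', r', q1, q2, q3, q4, q5⟩ := lw_data hC hcov h ha
  obtain ⟨-, -, hlS, -, -, -, -, f2, f3, fp, m, r, p1, p2, p3, p4, -⟩ := lw_data hC hcov hl hb
  refine bad_nbr (i := b) (j := a) (k := l) (l := c) (m := m) (m' := m') (r := r) (r' := r')
    f2 f3 ?_ ?_ p1 p2 p3 p4 q2 q1 q3 q4 (q5 l hlS) hlong fp gp harea
  · rw [norm_sub_rev]
    exact g3
  · rw [norm_sub_rev]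
    exact g2

private lemma lw_gam (φ : ℂ → ℝ) (a b : ℂ) : -0.00218 ≤ Gam φ a b := by
  obtain ⟨h1, h2⟩ := kap_bounds
  have h := Gam_bound φ a b (by linarith) (by linarith)
  exact (abs_le.1 h).1

private lemma lw_wt_ge (S : Finset ℂ) (φ : ℂ → ℝ) (a b : ℂ) :
    -0.00218 - 0.0245 ≤ Wt S φ a b := by
  have h := lw_gam φ a b
  unfold Wt
  by_cases h1 : Bad S a b <;> by_cases h2 : Bad S b a <;> simp only [h1, h2, if_true, if_false] <;>
    linarith

private lemma lw_wt_nb {S : Finset ℂ} (φ : ℂ → ℝ) {a b : ℂ} (hb : ¬ Bad S b a) :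
    Gam φ a b ≤ Wt S φ a b := by
  unfold Wt
  by_cases h1 : Bad S a b <;> simp only [h1, hb, if_true, if_false] <;> linarith

private lemma lw_wt_b {S : Finset ℂ} (φ : ℂ → ℝ) {a b : ℂ} (hb : ¬ Bad S b a) (h : Bad S a b) :
    Gam φ a b + 0.0245 ≤ Wt S φ a b := by
  unfold Wt
  simp only [h, hb, if_true, if_false]
  linarith

/-- the case when `ij` is a longest side and no reversed edge is bad -/
private lemma lw_long (hLI : LIst) {S : Finset ℂ} {φ : ℂ → ℝ} {ρ : ℝ} (hC : Cfg S φ)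
    (hcov : Cov S ρ) {i j k : ℂ} (h : Del S i j k) (hi : ‖i‖ ≤ ρ - 3)
    (n1 : ¬ Bad S j i) (n2 : ¬ Bad S k j) (n3 : ¬ Bad S i k)
    (l1 : ‖k - j‖ ≤ ‖j - i‖) (l2 : ‖i - k‖ ≤ ‖j - i‖) :
    0 ≤ ar2 i j k / 2 - As + (Wt S φ i j + Wt S φ j k + Wt S φ k i) := by
  obtain ⟨hiS, hjS, hkS, hij, hjk, hki, g1, g2, g3, gp, m, r, p1, p2, p3, p4, -⟩ :=
    lw_data hC hcov h hi
  have w1 := lw_wt_nb φ n1
  have w2 := lw_wt_nb φ n2
  have w3 := lw_wt_nb φ n3
  have v1 := lw_gam φ i j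
  have v2 := lw_gam φ j k
  have v3 := lw_gam φ k i
  have hAs := As_bounds.2
  rcases le_or_gt (‖j - i‖ ^ 2) 4.08 with c1 | c1
  · obtain ⟨x1, x2, x3, A1, A2, A3, d1, d2, d3, hT, e1, e2, e3, hPsi⟩ :=
      tri_of_pts gp (hC i hiS j hjS hij) (hC j hjS k hkS hjk) (hC k hkS i hiS hki)
    have c2 : ‖k - j‖ ^ 2 ≤ 4.08 := by
      have := pow_le_pow_left₀ (norm_nonneg (k - j)) l1 2
      linarith
    have c3 : ‖i - k‖ ^ 2 ≤ 4.08 := by
      have := pow_le_pow_left₀ (norm_nonneg (i - k)) l2 2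
      linarith
    have := hLI x1 x2 x3 A1 A2 A3 d1 d2 d3 hT (by rw [e1]; exact c1) (by rw [e2]; exact c2)
      (by rw [e3]; exact c3) (by rw [e1]; exact g1) (by rw [e2]; exact g2) (by rw [e3]; exact g3)
    rw [hPsi] at this
    linarith
  · rcases le_or_gt (‖j - i‖ ^ 2) 11.92 with c2 | c2
    · have := mid_area g2 g3 l1 l2 c1.le c2 gp
      linarith
    · rcases lt_or_ge (ar2 i j k) (2 * 1.7432) with c3 | c3
      · have hb : Bad S i j := ⟨c2, k, h, c3⟩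
        have w1' := lw_wt_b φ n1 hb
        have := long_area g2 g3 p1 p2 p3 p4 c2 gp
        linarith
      · linarith

theorem local_w (hLI : LIst) {S : Finset ℂ} {φ : ℂ → ℝ} {ρ : ℝ} (hC : Cfg S φ) (hcov : Cov S ρ)
    {i j k : ℂ} (h : Del S i j k) (hi : ‖i‖ ≤ ρ - 3) (hj : ‖j‖ ≤ ρ - 3) (hk : ‖k‖ ≤ ρ - 3) :
    0 ≤ ar2 i j k / 2 - As + (Wt S φ i j + Wt S φ j k + Wt S φ k i) := by
  have h' := del_rot h
  have h'' := del_rot h'
  have e1 := lw_rot i j k
  have e2 := lw_rot j k i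
  have hAs := As_bounds.2
  by_cases hb : Bad S j i ∨ Bad S k j ∨ Bad S i k
  · have harea : 3.3 ≤ ar2 i j k / 2 := by
      rcases hb with hb | hb | hb
      · exact lw_rev hC hcov h hi hj hb
      · have := lw_rev hC hcov h' hj hk hb
        rwa [e1] at this
      · have := lw_rev hC hcov h'' hk hi hb
        rwa [e2, e1] at this
    have w1 := lw_wt_ge S φ i j
    have w2 := lw_wt_ge S φ j k
    have w3 := lw_wt_ge S φ k i
    linarith
  · push Not at hb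
    obtain ⟨n1, n2, n3⟩ := hb
    rcases le_total ‖k - j‖ ‖j - i‖ with c1 | c1
    · rcases le_total ‖i - k‖ ‖j - i‖ with c2 | c2
      · exact lw_long hLI hC hcov h hi n1 n2 n3 c1 c2
      · have := lw_long hLI hC hcov h'' hk n3 n1 n2 c2 (c1.trans c2)
        rw [e2, e1] at this
        linarith
    · rcases le_total ‖i - k‖ ‖k - j‖ with c2 | c2
      · have := lw_long hLI hC hcov h' hj n2 n3 n1 c2 c1
        rw [e1] at this
        linarith
      · have := lw_long hLI hC hcov h'' hk n3 n1 n2 (c1.trans c2) c2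
        rw [e2, e1] at this
        linarith

end Pool.Agent.Lib.P37
end
end
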