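import Pool.Agent.Lib.MP_c009e6_co.EBound
import Pool.Agent.Lib.MP_c009e6_co.Num

namespace Pool.Agent.Lib.P37

open Real

/-- upper bound for the tangent of a small angle -/
private theorem tan_ub {h : ℝ} (h0 : 0 ≤ h) (h1 : h ≤ 0.01) : tan h ≤ h + 0.34 * h ^ 3 := by
  have hc : 1 - h ^ 2 / 2 ≤ cos h := Real.one_sub_sq_div_two_le_cos
  have hcp : 0 < cos h := by nlinarith
  have hs := Real.sin_bound (x := h) (by rw [abs_of_nonneg h0]; linarith)
  have hs' := (abs_le.mp hs).2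
  rw [abs_of_nonneg h0] at hs'
  rw [Real.tan_eq_sin_div_cos, div_le_iff₀ hcp]
  have h3 : 0 ≤ h ^ 3 := by positivity
  have hp : 0 ≤ h + 0.34 * h ^ 3 := by positivity
  have e1 : (h + 0.34 * h ^ 3) * (1 - h ^ 2 / 2) ≤ (h + 0.34 * h ^ 3) * cos h :=
    mul_le_mul_of_nonneg_left hc hp
  have e2 : sin h ≤ h - h ^ 3 / 6 + h ^ 5 / 100 := by linarith
  have e3 : h - h ^ 3 / 6 + h ^ 5 / 100 ≤ (h + 0.34 * h ^ 3) * (1 - h ^ 2 / 2) := by
    have : (h + 0.34 * h ^ 3) * (1 - h ^ 2 / 2) - (h - h ^ 3 / 6 + h ^ 5 / 100)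
        = h ^ 3 * ((1 / 6 - 0.16) - h ^ 2 / 100 - 0.17 * h ^ 2) := by ring
    have h5 : 0 ≤ (1 / 6 - 0.16) - h ^ 2 / 100 - 0.17 * h ^ 2 := by nlinarith
    nlinarith [mul_nonneg h3 h5]
  linarith

/-- `cot (π/6 + y)` lower bound -/
theorem cot_lb {A : ℝ} {z : ℝ} (hA : A = π / 3 + p * z) (hz : |z| ≤ 0.07) :
    √3 * (1 - (2 / √3) * (p * z) + (p * z) ^ 2 - |p * z| ^ 3) ≤ (1 + cos A) / sin A := by
  have hp0 := p_pos
  have hp1 := p_lt
  have hs3 : (√3) ^ 2 = 3 := Real.sq_sqrt (by norm_num)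
  obtain ⟨hsl, hsu⟩ := sqrt3_bounds
  have hs0 : 0 < √3 := by linarith
  set s := √3 with hs
  -- half angle
  set h := p * z / 2 with hh
  have hhabs : |h| ≤ 0.006 := by
    rw [hh, abs_div, abs_mul, abs_of_pos hp0, abs_of_pos (by norm_num : (0:ℝ) < 2)]
    have : p * |z| ≤ 0.17 * 0.07 := by
      apply mul_le_mul hp1.le hz (abs_nonneg _) (by norm_num)
    linarith
  have hpz : p * z = 2 * h := by rw [hh]; ring
  have hh' := abs_le.mp hhabs
  have hc : 1 - h ^ 2 / 2 ≤ cos h := Real.one_sub_sq_div_two_le_cos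
  have hcp : 0 < cos h := by nlinarith
  set t := tan h with ht
  have hsin : sin h = t * cos h := by
    rw [ht, Real.tan_eq_sin_div_cos]; field_simp
  have hA2 : A / 2 = π / 6 + h := by rw [hA, hpz]; ring
  have hcosA2 : cos (A / 2) = cos h * ((s - t) / 2) := by
    rw [hA2, Real.cos_add, Real.cos_pi_div_six, Real.sin_pi_div_six, hsin]; ring
  have hsinA2 : sin (A / 2) = cos h * ((1 + s * t) / 2) := by
    rw [hA2, Real.sin_add, Real.cos_pi_div_six, Real.sin_pi_div_six, hsin]; ring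
  have htabs : |t| ≤ 0.01 := by
    rcases le_total 0 h with h0 | h0
    · have h1 := tan_ub h0 (by linarith)
      have h2 := Real.le_tan h0 (by linarith [Real.pi_gt_three])
      rw [abs_le]; constructor
      · rw [ht]; linarith
      · rw [ht]
        have : h ^ 3 ≤ 0.006 ^ 3 := pow_le_pow_left₀ h0 hh'.2 3
        norm_num at this ⊢
        linarith
    · have h1 := tan_ub (h := -h) (by linarith) (by linarith)
      have h2 := Real.le_tan (x := -h) (by linarith) (by linarith [Real.pi_gt_three])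
      rw [Real.tan_neg] at h1 h2
      rw [abs_le]; constructor
      · rw [ht]
        have : (-h) ^ 3 ≤ 0.006 ^ 3 := pow_le_pow_left₀ (by linarith) (by linarith) 3
        norm_num at this ⊢
        linarith
      · rw [ht]; linarith
  have ht' := abs_le.mp htabs
  have hden : 0 < 1 + s * t := by nlinarith
  have hcot : (1 + cos A) / sin A = (s - t) / (1 + s * t) := by
    have e1 : A = 2 * (A / 2) := by ring
    have e2 : cos A = 2 * cos (A / 2) ^ 2 - 1 := by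
      conv_lhs => rw [e1]
      exact Real.cos_two_mul _
    have e3 : sin A = 2 * sin (A / 2) * cos (A / 2) := by
      conv_lhs => rw [e1]
      exact Real.sin_two_mul _
    have hst : 0 < s - t := by linarith
    rw [e2, e3, hcosA2, hsinA2]
    field_simp
    ring
  rw [hcot, le_div_iff₀ hden]
  have hq : s * (1 - (2 / s) * (p * z) + (p * z) ^ 2 - |p * z| ^ 3)
      = s - 4 * h + 4 * s * h ^ 2 - 8 * s * |h| ^ 3 := by
    rw [hpz, abs_mul, abs_of_pos (by norm_num : (0:ℝ) < 2)]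
    field_simp
    ring
  rw [hq]
  rcases le_total 0 h with h0 | h0
  · rw [abs_of_nonneg h0]
    have h1 : t ≤ h + 0.34 * h ^ 3 := tan_ub h0 (by linarith)
    have hQ : 0 ≤ 1 + s * (s - 4 * h + 4 * s * h ^ 2 - 8 * s * h ^ 3) := by
      have : 1 + s * (s - 4 * h + 4 * s * h ^ 2 - 8 * s * h ^ 3)
        = 4 - 4 * s * h + 12 * h ^ 2 - 24 * h ^ 3 := by
        linear_combination (1 + 4 * h ^ 2 - 8 * h ^ 3) * hs3
      rw [this]
      have h3 : h ^ 3 ≤ 0.006 ^ 3 := pow_le_pow_left₀ h0 hh'.2 3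
      have h4 : s * h ≤ 2 * 0.006 := mul_le_mul (by linarith) hh'.2 h0 (by norm_num)
      norm_num at h3 h4 ⊢
      nlinarith [sq_nonneg h]
    have key : (h + 0.34 * h ^ 3) * (1 + s * (s - 4 * h + 4 * s * h ^ 2 - 8 * s * h ^ 3))
        ≤ s - (s - 4 * h + 4 * s * h ^ 2 - 8 * s * h ^ 3) := by
      have e : s - (s - 4 * h + 4 * s * h ^ 2 - 8 * s * h ^ 3)
          - (h + 0.34 * h ^ 3) * (1 + s * (s - 4 * h + 4 * s * h ^ 2 - 8 * s * h ^ 3))
          = h ^ 3 * ((8 * s - 12 - 1.36) + 24 * h + 0.34 * (4 * s * h - 12 * h ^ 2 + 24 * h ^ 3)) := by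
        linear_combination (-(h + 0.34 * h ^ 3) * (1 + 4 * h ^ 2 - 8 * h ^ 3)) * hs3
      have h5 : 0 ≤ (8 * s - 12 - 1.36) + 24 * h + 0.34 * (4 * s * h - 12 * h ^ 2 + 24 * h ^ 3) := by
        have h3 : 0 ≤ h ^ 3 := by positivity
        have h6 : h ^ 2 ≤ 0.006 * h := by nlinarith
        have h7 : 0 ≤ s * h := by positivity
        nlinarith
      have h6 : 0 ≤ h ^ 3 := by positivity
      nlinarith [mul_nonneg h6 h5]
    nlinarith [mul_le_mul_of_nonneg_right h1 hQ]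
  · rw [abs_of_nonpos h0]
    have h1 : t ≤ h := by
      have h2 := Real.le_tan (x := -h) (by linarith) (by linarith [Real.pi_gt_three])
      rw [Real.tan_neg] at h2
      rw [ht]; linarith
    have hQe : 1 + s * (s - 4 * h + 4 * s * h ^ 2 - 8 * s * (-h) ^ 3)
        = 4 - 4 * s * h + 12 * h ^ 2 + 24 * h ^ 3 := by
      linear_combination (1 + 4 * h ^ 2 + 8 * h ^ 3) * hs3
    have h8 : (-h) ^ 3 ≤ 0.006 ^ 3 := pow_le_pow_left₀ (by linarith) (by linarith) 3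
    have hQ : 0 ≤ 1 + s * (s - 4 * h + 4 * s * h ^ 2 - 8 * s * (-h) ^ 3) := by
      rw [hQe]
      have h4 : s * h ≤ 0 := by nlinarith
      norm_num at h8 ⊢
      nlinarith [sq_nonneg h]
    have key : h * (1 + s * (s - 4 * h + 4 * s * h ^ 2 - 8 * s * (-h) ^ 3))
        ≤ s - (s - 4 * h + 4 * s * h ^ 2 - 8 * s * (-h) ^ 3) := by
      rw [hQe]
      have e : s - (s - 4 * h + 4 * s * h ^ 2 - 8 * s * (-h) ^ 3)
          - h * (4 - 4 * s * h + 12 * h ^ 2 + 24 * h ^ 3)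
          = (-h) ^ 3 * ((8 * s + 12) + 24 * h) := by ring
      have h6 : 0 ≤ (-h) ^ 3 := by
        have : 0 ≤ -h := by linarith
        positivity
      have h7 : 0 ≤ (8 * s + 12) + 24 * h := by linarith
      nlinarith [mul_nonneg h6 h7]
    nlinarith [mul_le_mul_of_nonneg_right h1 hQ]

private theorem abs_g0_le (x : ℝ) : |g0 x| ≤ 1 / 48 := by
  unfold g0
  have h1 := fr_ge x
  have h2 := fr_le x
  set f := fr x
  rcases le_total 0 f with h | h
  · rw [abs_of_nonneg h]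
    rw [abs_le]; constructor
    · nlinarith
    · nlinarith [sq_nonneg (f - 1/4)]
  · rw [abs_of_nonpos h]
    rw [abs_le]; constructor
    · nlinarith [sq_nonneg (f + 1/4)]
    · nlinarith

private theorem abs_Gs_le (X1 X2 X3 D1 D2 D3 : ℝ) : |Gs X1 X2 X3 D1 D2 D3| ≤ 1 / 8 := by
  unfold Gs
  have a1 := abs_le.mp (abs_g0_le X1)
  have a2 := abs_le.mp (abs_g0_le X2)
  have a3 := abs_le.mp (abs_g0_le X3)
  have b1 := abs_le.mp (abs_g0_le (X1 - 1/6 - D1))
  have b2 := abs_le.mp (abs_g0_le (X2 - 1/6 - D2))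
  have b3 := abs_le.mp (abs_g0_le (X3 - 1/6 - D3))
  rw [abs_le]; constructor <;> linarith [a1.1, a1.2, a2.1, a2.2, a3.1, a3.2, b1.1, b1.2, b2.1, b2.2, b3.1, b3.2]

private theorem Ee_bounds (X Y : ℝ) : 0 ≤ Ee X Y ∧ Ee X Y ≤ 3 / 8 := by
  unfold Ee
  have h1 := nd_nonneg X
  have h2 := nd_nonneg Y
  have h3 := nd_le X
  have h4 := nd_le Y
  have h5 := tau_nonneg (X - Y)
  have h6 := tau_le (X - Y)
  have h7 : 0 ≤ min (nd X) (nd Y) := le_min h1 h2
  have h8 : min (nd X) (nd Y) ≤ 1 / 2 := (min_le_left _ _).trans h3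
  constructor
  · positivity
  · nlinarith

/-- the final numerical inequality -/
private theorem final_ineq {s q E z d g k a F : ℝ}
    (hs1 : 1.7320508 < s) (hs2 : s < 1.7320509) (hq1 : 0.16981581 < q) (hq2 : q < 0.16981583)
    (hk1 : 0.1025 < k) (hk2 : k < 0.102502) (ha : a < 1.7365785)
    (hE0 : 0 ≤ E) (hE1 : E ≤ 3 / 8) (hz : |z| ≤ 0.07) (hd : |d| ≤ 0.14 - |z|) (hg : |g| ≤ 1 / 8)
    (hF : s - 2 * (q * z) + s * (q * z) ^ 2 - s * (q * |z|) ^ 3 - 0.58145 * (q * d) ^ 2 ≤ F) :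
    s * q ^ 2 * (E * (1 - 0.196 * z) - 6.8 * z + z ^ 2 - d ^ 2 / 3 + (23 / 22) * g - 0.0908)
      ≤ (1 + q ^ 2 * E) * F - a + 3 * k * q * g := by
  have hz0 := abs_nonneg z
  have hd0 := abs_nonneg d
  -- numerical constants
  have q2l : 0.0288374 < q ^ 2 := by nlinarith
  have q2u : q ^ 2 < 0.02883742 := by nlinarith
  have q2l' : 0.028837409 < q ^ 2 := by nlinarith
  have q2p : 0 < q ^ 2 := by linarith
  have sq2l : 0.0499478 < s * q ^ 2 := by nlinarith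
  have sq2l' : 0.04994785 < s * q ^ 2 := by nlinarith
  have sq2u : s * q ^ 2 < 0.0499479 := by nlinarith
  have sql : 0.2941296 < s * q := by nlinarith
  have squ : s * q < 0.2941297 := by nlinarith
  have q3u : s * q ^ 3 < 0.00849 := by
    have : s * q ^ 3 = (s * q ^ 2) * q := by ring
    rw [this]; nlinarith
  have q3p : 0 ≤ s * q ^ 3 := by positivity
  -- step 1: reduce to F0
  set F0 := s - 2 * (q * z) + s * (q * z) ^ 2 - s * (q * |z|) ^ 3 - 0.58145 * (q * d) ^ 2 with hF0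
  have hpos : 0 ≤ 1 + q ^ 2 * E := by positivity
  have h1 : (1 + q ^ 2 * E) * F0 ≤ (1 + q ^ 2 * E) * F := mul_le_mul_of_nonneg_left hF hpos
  set t := |z| with ht
  have hzt : z ≤ t := le_abs_self z
  have hzt' : -t ≤ z := neg_abs_le z
  have hd2 : d ^ 2 ≤ (0.14 - t) ^ 2 := by
    have : d ^ 2 = |d| ^ 2 := (sq_abs d).symm
    rw [this]
    exact pow_le_pow_left₀ hd0 hd 2
  have hz2 : z ^ 2 = t ^ 2 := by rw [ht]; exact (sq_abs z).symm
  -- the pieces
  have c0 : 7.5e-6 ≤ s - a + s * q ^ 2 * 0.0908 := by norm_num; nlinarith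
  have c1 : -(1.5e-5 * t) ≤ (-2 * q + 6.8 * (s * q ^ 2)) * z := by
    have e1 : 0 ≤ -2 * q + 6.8 * (s * q ^ 2) := by nlinarith
    have e2 : -2 * q + 6.8 * (s * q ^ 2) ≤ 1.5e-5 := by norm_num; nlinarith
    have e3 : -((-2 * q + 6.8 * (s * q ^ 2)) * t) ≤ (-2 * q + 6.8 * (s * q ^ 2)) * z := by
      have := mul_le_mul_of_nonneg_left hzt' e1
      linarith
    have e4 : (-2 * q + 6.8 * (s * q ^ 2)) * t ≤ 1.5e-5 * t := mul_le_mul_of_nonneg_right e2 hz0
    linarith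
  have t3 : t ^ 3 ≤ 0.0049 * t := by
    have : t ^ 2 ≤ 0.0049 := by nlinarith
    have e : t ^ 3 = t ^ 2 * t := by ring
    rw [e]; exact mul_le_mul_of_nonneg_right this hz0
  have t3p : 0 ≤ t ^ 3 := by positivity
  have c3 : -(4.17e-5 * t) ≤ -(s * (q * t) ^ 3) := by
    have e : s * (q * t) ^ 3 = (s * q ^ 3) * t ^ 3 := by ring
    rw [e]
    have : (s * q ^ 3) * t ^ 3 ≤ 0.00849 * (0.0049 * t) := mul_le_mul q3u.le t3 t3p (by norm_num)
    norm_num at this ⊢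
    linarith
  have c2 : -(1.19e-4 * d ^ 2) ≤ (s * q ^ 2) * d ^ 2 / 3 - 0.58145 * (q * d) ^ 2 := by
    have e : (s * q ^ 2) * d ^ 2 / 3 - 0.58145 * (q * d) ^ 2 = (q ^ 2 * (s / 3 - 0.58145)) * d ^ 2 := by ring
    rw [e]
    have : -1.19e-4 ≤ q ^ 2 * (s / 3 - 0.58145) := by norm_num; nlinarith
    nlinarith [mul_le_mul_of_nonneg_right this (sq_nonneg d)]
  have cE : -(6e-5 / 10 * t) - 1.82e-4 * d ^ 2 ≤ q ^ 2 * E * (F0 - s + 0.196 * s * z) := by
    have e : F0 - s + 0.196 * s * z = (-2 * q + 0.196 * s) * z + s * (q * z) ^ 2 - s * (q * t) ^ 3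
        - 0.58145 * (q * d) ^ 2 := by rw [hF0]; ring
    have f1 : -(1.6e-4 * t) ≤ (-2 * q + 0.196 * s) * z := by
      have e1 : -2 * q + 0.196 * s ≤ 0 := by nlinarith
      have e2 : -1.6e-4 ≤ -2 * q + 0.196 * s := by norm_num; nlinarith
      have e3 : (-2 * q + 0.196 * s) * t ≤ (-2 * q + 0.196 * s) * z := mul_le_mul_of_nonpos_left hzt e1
      have e4 : -1.6e-4 * t ≤ (-2 * q + 0.196 * s) * t := mul_le_mul_of_nonneg_right e2 hz0
      linarith
    have f2 : 0 ≤ s * (q * z) ^ 2 := by positivity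
    have f3 : 0.58145 * (q * d) ^ 2 ≤ 0.01678 * d ^ 2 := by
      have : 0.58145 * (q * d) ^ 2 = (0.58145 * q ^ 2) * d ^ 2 := by ring
      rw [this]
      apply mul_le_mul_of_nonneg_right _ (sq_nonneg d)
      nlinarith
    have f4 : -(1.6e-4 * t) - 4.17e-5 * t - 0.01678 * d ^ 2 ≤ F0 - s + 0.196 * s * z := by
      rw [e]; linarith
    have f5 : 0 ≤ q ^ 2 * E := by positivity
    have f6 : q ^ 2 * E ≤ 0.010815 := by
      have : q ^ 2 * E ≤ 0.02883742 * (3 / 8) := mul_le_mul q2u.le hE1 hE0 (by norm_num)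
      norm_num at this ⊢
      linarith
    have f7 : 0 ≤ (1.6e-4 * t) + 4.17e-5 * t + 0.01678 * d ^ 2 := by positivity
    have f8 := mul_le_mul_of_nonneg_left f4 f5
    have f9 := mul_le_mul_of_nonneg_right f6 f7
    norm_num at f8 f9 ⊢
    nlinarith [sq_nonneg d]
  have cG : -(2e-7 : ℝ) ≤ (3 * k * q - s * q ^ 2 * (23 / 22)) * g := by
    have e1 : |3 * k * q - s * q ^ 2 * (23 / 22)| ≤ 1.6e-6 := by
      rw [abs_le]; constructor <;> norm_num <;> nlinarith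
    have e2 : |(3 * k * q - s * q ^ 2 * (23 / 22)) * g| ≤ 1.6e-6 * (1 / 8) := by
      rw [abs_mul]
      exact mul_le_mul e1 hg (abs_nonneg _) (by norm_num)
    have e3 := (abs_le.mp e2).1
    norm_num at e3 ⊢
    linarith
  have ident : (1 + q ^ 2 * E) * F0 - a + 3 * k * q * g
      - s * q ^ 2 * (E * (1 - 0.196 * z) - 6.8 * z + z ^ 2 - d ^ 2 / 3 + (23 / 22) * g - 0.0908)
      = (s - a + s * q ^ 2 * 0.0908) + (-2 * q + 6.8 * (s * q ^ 2)) * z + (-(s * (q * t) ^ 3))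
        + ((s * q ^ 2) * d ^ 2 / 3 - 0.58145 * (q * d) ^ 2)
        + q ^ 2 * E * (F0 - s + 0.196 * s * z) + (3 * k * q - s * q ^ 2 * (23 / 22)) * g := by
    rw [hF0]; ring
  have fin : 0 ≤ 7.5e-6 - 1.5e-5 * t - 4.17e-5 * t - 1.19e-4 * d ^ 2 - (6e-5 / 10 * t)
      - 1.82e-4 * d ^ 2 - 2e-7 := by
    have : (0.14 - t) ^ 2 ≤ 0.0196 - 0.21 * t := by nlinarith
    norm_num
    nlinarith
  have : 0 ≤ (1 + q ^ 2 * E) * F0 - a + 3 * k * q * g
      - s * q ^ 2 * (E * (1 - 0.196 * z) - 6.8 * z + z ^ 2 - d ^ 2 / 3 + (23 / 22) * g - 0.0908) := by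
    rw [ident]
    linarith
  linarith

theorem MI_bound {x1 x2 x3 A1 A2 A3 d1 d2 d3 : ℝ} (h : Tri x1 x2 x3 A1 A2 A3 d1 d2 d3)
    (g1 : 0 ≤ d1) (h1 : |(A1 - π / 3) / p| ≤ 0.07) (h2 : |(A2 - π / 3) / p| ≤ 0.07)
    (h3 : |(A3 - π / 3) / p| ≤ 0.07) :
    √3 * p ^ 2 * MI (x1 / p) (x2 / p) (x3 / p) ((A1 - π / 3) / p) ((A2 - π / 3) / p)
      ((A3 - π / 3) / p) ≤ Psi x1 x2 x3 A1 A2 A3 d1 d2 d3 := by
  have hp0 := p_pos
  have hp1 := p_lt
  obtain ⟨hsl, hsu⟩ := sqrt3_bounds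
  obtain ⟨hpl, hpu⟩ := p_bounds
  obtain ⟨hkl, hku⟩ := kap_bounds
  set D1 := (A1 - π / 3) / p with hD1
  set D2 := (A2 - π / 3) / p with hD2
  set D3 := (A3 - π / 3) / p with hD3
  have eA1 : A1 = π / 3 + p * D1 := by rw [hD1]; field_simp; ring
  have eA2 : A2 = π / 3 + p * D2 := by rw [hD2]; field_simp; ring
  have eA3 : A3 = π / 3 + p * D3 := by rw [hD3]; field_simp; ring
  have hsum : D1 + D2 + D3 = 0 := by
    have := h.sum
    rw [eA1, eA2, eA3] at this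
    have h4 : p * (D1 + D2 + D3) = 0 := by linarith
    rcases mul_eq_zero.mp h4 with h5 | h5
    · exact absurd h5 hp0.ne'
    · exact h5
  have hshift : ∀ x A D : ℝ, A = π / 3 + p * D → (x - A) / p = (x / p - 1 / 6 - D) - ((6 : ℤ) : ℝ) := by
    intro x A D hA
    have e : π = 37 / 2 * p := pi_eq
    rw [hA, e]
    push_cast
    field_simp
    ring
  have hG : ∀ x A D : ℝ, A = π / 3 + p * D →
      G x - G (x - A) = 3 * kap * p * (g0 (x / p) - g0 (x / p - 1 / 6 - D)) := by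
    intro x A D hA
    unfold G
    rw [hshift x A D hA, g0_sub_int]
    ring
  have hEe : Ee (x1 / p) ((x2 - A2) / p) = Ee (x1 / p) (x2 / p - 1 / 6 - D2) := by
    rw [hshift x2 A2 D2 eA2]
    unfold Ee
    rw [nd_sub_int]
    have : x1 / p - (x2 / p - 1 / 6 - D2 - ((6 : ℤ) : ℝ)) = (x1 / p - (x2 / p - 1 / 6 - D2)) + ((6 : ℤ) : ℝ) := by
      ring
    rw [this, tau_add_int]
  have hE := E_bound g1 h.side1
  rw [hEe] at hE
  set E := Ee (x1 / p) (x2 / p - 1 / 6 - D2) with hEdef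
  obtain ⟨hE0, hE1⟩ := Ee_bounds (x1 / p) (x2 / p - 1 / 6 - D2)
  -- area
  obtain ⟨r, hr, hd1, hd2, hd3⟩ := h.law
  have hA3lt : A3 < π := by have := h.sum; linarith [h.A1pos, h.A2pos]
  have hA2lt : A2 < π := by have := h.sum; linarith [h.A1pos, h.A3pos]
  have hA1lt : A1 < π := by have := h.sum; linarith [h.A2pos, h.A3pos]
  have hs3 : 0 < sin A3 := Real.sin_pos_of_pos_of_lt_pi h.A3pos hA3lt
  have hs2 : 0 < sin A2 := Real.sin_pos_of_pos_of_lt_pi h.A2pos hA2lt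
  have hs1 : 0 < sin A1 := Real.sin_pos_of_pos_of_lt_pi h.A1pos hA1lt
  set F := 2 * sin A1 * sin A2 / sin A3 with hF
  have hFpos : 0 < F := by positivity
  have harea : d1 * d3 * sin A1 / 2 = (d1 ^ 2 / 4) * F := by
    rw [hd1, hd3, hF]
    field_simp
    norm_num
  have harea2 : (1 + p ^ 2 * E) * F ≤ d1 * d3 * sin A1 / 2 := by
    rw [harea]
    apply mul_le_mul_of_nonneg_right _ hFpos.le
    linarith
  have hFeq : F = (1 + cos A3) / sin A3 - (1 - cos (p * (D1 - D2))) / sin A3 := by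
    have e1 : cos (p * (D1 - D2)) = cos A1 * cos A2 + sin A1 * sin A2 := by
      rw [← Real.cos_sub]; congr 1; rw [eA1, eA2]; ring
    have e2 : cos A3 = -(cos A1 * cos A2 - sin A1 * sin A2) := by
      rw [← Real.cos_add, ← Real.cos_pi_sub]
      congr 1
      linarith [h.sum]
    rw [e1, e2, hF]
    field_simp
    ring
  -- sin A3 lower bound
  have hw : |p * D3| ≤ 0.0119 := by
    rw [abs_mul, abs_of_pos hp0]
    have : p * |D3| ≤ 0.17 * 0.07 := mul_le_mul hp1.le h3 (abs_nonneg _) (by norm_num)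
    norm_num at this ⊢
    linarith
  have hw' := abs_le.mp hw
  have hs3l : 0.86 ≤ sin A3 := by
    have e : sin A3 = √3 / 2 * cos (p * D3) + 1 / 2 * sin (p * D3) := by
      rw [eA3, Real.sin_add, Real.sin_pi_div_three, Real.cos_pi_div_three]
    have hc : 1 - (p * D3) ^ 2 / 2 ≤ cos (p * D3) := Real.one_sub_sq_div_two_le_cos
    have hsn : |sin (p * D3)| ≤ |p * D3| := Real.abs_sin_le_abs
    have hsn' := (abs_le.mp (hsn.trans hw)).1
    have hc2 : 0.9999 ≤ cos (p * D3) := by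
      have : (p * D3) ^ 2 ≤ 0.0119 ^ 2 := by
        rw [← sq_abs]; exact pow_le_pow_left₀ (abs_nonneg _) hw 2
      norm_num at this ⊢
      linarith
    rw [e]
    nlinarith
  have hcot := cot_lb (A := A3) (z := D3) eA3 h3
  have h1c : (1 - cos (p * (D1 - D2))) / sin A3 ≤ 0.58145 * (p * (D1 - D2)) ^ 2 := by
    rw [div_le_iff₀ hs3]
    have hc : 1 - (p * (D1 - D2)) ^ 2 / 2 ≤ cos (p * (D1 - D2)) := Real.one_sub_sq_div_two_le_cos
    have : 0.58145 * (p * (D1 - D2)) ^ 2 * 0.86 ≤ 0.58145 * (p * (D1 - D2)) ^ 2 * sin A3 :=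
      mul_le_mul_of_nonneg_left hs3l (by positivity)
    have h5 : 0 ≤ (p * (D1 - D2)) ^ 2 := sq_nonneg _
    norm_num at this ⊢
    nlinarith
  have hFl : √3 - 2 * (p * D3) + √3 * (p * D3) ^ 2 - √3 * (p * |D3|) ^ 3
      - 0.58145 * (p * (D1 - D2)) ^ 2 ≤ F := by
    have e : √3 * (1 - (2 / √3) * (p * D3) + (p * D3) ^ 2 - |p * D3| ^ 3)
        = √3 - 2 * (p * D3) + √3 * (p * D3) ^ 2 - √3 * (p * |D3|) ^ 3 := by
      rw [abs_mul, abs_of_pos hp0]
      have : √3 ≠ 0 := by linarith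
      field_simp
    rw [e] at hcot
    rw [hFeq]
    linarith
  have hdabs : |D1 - D2| ≤ 0.14 - |D3| := by
    have a1 := abs_le.mp h1
    have a2 := abs_le.mp h2
    rcases le_total 0 D3 with h0 | h0
    · rw [abs_of_nonneg h0, abs_le]; constructor <;> linarith [a1.1, a1.2, a2.1, a2.2]
    · rw [abs_of_nonpos h0, abs_le]; constructor <;> linarith [a1.1, a1.2, a2.1, a2.2]
  have hfin := final_ineq (s := √3) (q := p) (E := E) (z := D3) (d := D1 - D2)
    (g := Gs (x1 / p) (x2 / p) (x3 / p) D1 D2 D3) (k := kap) (a := As) (F := F)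
    hsl hsu hpl hpu hkl hku As_bounds.2 hE0 hE1 h3 hdabs (abs_Gs_le _ _ _ _ _ _) hFl
  unfold MI Psi
  rw [hG x1 A1 D1 eA1, hG x2 A2 D2 eA2, hG x3 A3 D3 eA3]
  have eG : 3 * kap * p * Gs (x1 / p) (x2 / p) (x3 / p) D1 D2 D3
      = 3 * kap * p * (g0 (x1 / p) - g0 (x1 / p - 1 / 6 - D1))
        + 3 * kap * p * (g0 (x2 / p) - g0 (x2 / p - 1 / 6 - D2))
        + 3 * kap * p * (g0 (x3 / p) - g0 (x3 / p - 1 / 6 - D3)) := by
    unfold Gs; ring
  linarith

end Pool.Agent.Lib.P37
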