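import Pool.Agent.Lib.MP_c009e6_co.PSep
import Pool.Agent.Lib.MP_c009e6_co.GSep

namespace Pool.Agent.Lib.P37

open Real MeasureTheory

private lemma pu_iso_mp (f : ℂ ≃ᵢ ℂ) : MeasurePreserving f volume volume := by
  have h : (f : ℂ → ℂ) = fun x => f.toRealLinearIsometryEquiv x + f 0 := by
    funext x
    simp [IsometryEquiv.toRealLinearIsometryEquiv_apply]
  rw [h]
  exact (measurePreserving_add_right volume (f 0)).comp (f.toRealLinearIsometryEquiv.measurePreserving)

private lemma pu_vol_copy (f : ℂ ≃ᵢ ℂ) : volume (f '' P37) = volume P37 := by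
  have h1 : NullMeasurableSet P37 volume := (convex_convexHull ℝ _).nullMeasurableSet volume
  have h2 : f '' P37 = f.symm ⁻¹' P37 := by
    ext z
    constructor
    · rintro ⟨w, hw, rfl⟩
      simpa using hw
    · intro hz
      exact ⟨f.symm z, hz, by simp⟩
  rw [h2, (pu_iso_mp f.symm).measure_preimage h1]

private lemma pu_Rr_lt : Rr < 2 := by
  have h1 := Rr_mul_cos
  have h2 := Real.one_sub_sq_div_two_le_cos (x := p / 2)
  have h3 := p_lt
  have h4 := p_pos
  have h5 : (0.9 : ℝ) < cos (p / 2) := by nlinarith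
  nlinarith [Rr_pos]

theorem ratio_nonneg {ι : Type} (f : ι → ℂ ≃ᵢ ℂ) (r : ℝ) : 0 ≤ ratio f r := by
  unfold ratio
  positivity

theorem ratio_le_one {ι : Type} (f : ι → ℂ ≃ᵢ ℂ) (r : ℝ) : ratio f r ≤ 1 := by
  unfold ratio
  apply div_le_one_of_le₀ _ ENNReal.toReal_nonneg
  exact ENNReal.toReal_mono (measure_closedBall_lt_top).ne (measure_mono Set.inter_subset_left)

/-- upper bound for the density of a packing from the counting theorem -/
theorem upper_of_count
    (count : ∀ ρ : ℝ, 20 ≤ ρ → ∀ (S : Finset ℂ) (φ : ℂ → ℝ), Cfg S φ → (∀ a ∈ S, ‖a‖ ≤ ρ) →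
      (S.card : ℝ) ≤ π * ρ ^ 2 / (2 * As) + 100 * ρ)
    (hAs : 0 < As) {V : ℝ} (hV : volume P37 = ENNReal.ofReal V) (hV0 : 0 < V)
    {ι : Type} (f : ι → ℂ ≃ᵢ ℂ) (hf : IsPacking f) : upperDensity f ≤ V / (2 * As) := by
  classical
  choose φ hφ using fun i => exists_phase (f i)
  set c : ι → ℂ := fun i => f i 0 with hc
  have hsep : ∀ i j, i ≠ j → Sep (c i) (c j) (φ i) (φ j) := fun i j hij =>
    sep_of_disjoint (hφ i) (hφ j) (hf hij)
  have hinj : Function.Injective c := by
    intro i j hij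
    by_contra hne
    have := dist_of_sep (hsep i j hne)
    rw [hij, sub_self, norm_zero] at this
    linarith
  set φ' : ℂ → ℝ := fun x => if h : ∃ i, c i = x then φ h.choose else 0 with hφ'
  have hφc : ∀ i, φ' (c i) = φ i := by
    intro i
    have hex : ∃ j, c j = c i := ⟨i, rfl⟩
    rw [hφ']
    simp only [hex, dif_pos]
    congr 1
    exact hinj hex.choose_spec
  have hπ := Real.pi_pos
  -- number of copies
  have hcard : ∀ r : ℝ, 20 ≤ r → ∀ J : Finset ι, (∀ i ∈ J, ‖c i‖ ≤ r + 2) →
      (J.card : ℝ) ≤ π * (r + 2) ^ 2 / (2 * As) + 100 * (r + 2) := by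
    intro r hr J hJ
    have h := count (r + 2) (by linarith) (J.image c) φ' (by
      intro a ha b hb hab
      obtain ⟨i, _, rfl⟩ := Finset.mem_image.mp ha
      obtain ⟨j, _, rfl⟩ := Finset.mem_image.mp hb
      rw [hφc, hφc]
      exact hsep i j (fun h => hab (by rw [h]))) (by
      intro a ha
      obtain ⟨i, hi, rfl⟩ := Finset.mem_image.mp ha
      exact hJ i hi)
    rwa [Finset.card_image_of_injective _ hinj] at h
  have hmain : ∀ r : ℝ, 20 ≤ r →
      ratio f r ≤ (π * (r + 2) ^ 2 / (2 * As) + 100 * (r + 2)) * V / (r ^ 2 * π) := by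
    intro r hr
    set Js : Set ι := {i | ‖c i‖ ≤ r + 2} with hJs
    have hfin : Js.Finite := by
      by_contra hinf
      have hinf' : Js.Infinite := hinf
      obtain ⟨N, hN⟩ := exists_nat_gt (π * (r + 2) ^ 2 / (2 * As) + 100 * (r + 2))
      obtain ⟨t, ht, htc⟩ := hinf'.exists_subset_card_eq N
      have := hcard r hr t (fun i hi => ht hi)
      rw [htc] at this
      linarith
    set J := hfin.toFinset with hJ
    have hJc := hcard r hr J (fun i hi => by
      have := (hfin.mem_toFinset).mp hi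
      exact this)
    have hsub : Metric.closedBall (0:ℂ) r ∩ (⋃ i, f i '' P37) ⊆ ⋃ i ∈ J, f i '' P37 := by
      rintro z ⟨hz, hz2⟩
      obtain ⟨i, hi⟩ := Set.mem_iUnion.mp hz2
      have h1 := image_subset_ball (f i) hi
      rw [Metric.mem_closedBall] at h1
      rw [mem_closedBall_zero_iff] at hz
      have h2 : ‖c i‖ ≤ r + 2 := by
        have h3 : ‖f i 0‖ ≤ ‖z‖ + ‖z - f i 0‖ := by
          have := norm_sub_le z (z - f i 0)
          rwa [sub_sub_cancel] at this
        rw [dist_eq_norm] at h1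
        have := pu_Rr_lt
        simp only [hc]
        linarith
      exact Set.mem_iUnion₂.mpr ⟨i, hfin.mem_toFinset.mpr h2, hi⟩
    have hvol : volume (Metric.closedBall (0:ℂ) r ∩ (⋃ i, f i '' P37)) ≤
        (J.card : ENNReal) * ENNReal.ofReal V := by
      calc volume (Metric.closedBall (0:ℂ) r ∩ (⋃ i, f i '' P37)) ≤ volume (⋃ i ∈ J, f i '' P37) :=
            measure_mono hsub
        _ ≤ ∑ i ∈ J, volume (f i '' P37) := measure_biUnion_finset_le _ _
        _ = _ := by
            rw [Finset.sum_congr rfl (fun i _ => (pu_vol_copy (f i)).trans hV), Finset.sum_const,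
              nsmul_eq_mul]
    have hvol' := ENNReal.toReal_mono
      (ENNReal.mul_ne_top (ENNReal.natCast_ne_top _) ENNReal.ofReal_ne_top) hvol
    rw [ENNReal.toReal_mul, ENNReal.toReal_natCast, ENNReal.toReal_ofReal hV0.le] at hvol'
    have hball : (volume (Metric.closedBall (0 : ℂ) r)).toReal = r ^ 2 * π := by
      rw [Complex.volume_closedBall, ENNReal.toReal_mul, ENNReal.toReal_pow,
        ENNReal.toReal_ofReal (by linarith)]
      simp
    unfold ratio
    rw [hball]
    apply div_le_div_of_nonneg_right _ (by positivity)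
    exact hvol'.trans (mul_le_mul_of_nonneg_right hJc hV0.le)
  -- limsup
  unfold upperDensity
  apply le_of_forall_pos_le_add
  intro ε hε
  apply Filter.limsup_le_of_le
  · exact Filter.isCoboundedUnder_le_of_le _ (x := 0) (fun r => ratio_nonneg f r)
  · filter_upwards [Filter.eventually_ge_atTop (20 : ℝ),
      Filter.eventually_ge_atTop ((5 * V / (2 * As) + 200 * V / π) / ε)] with r hr1 hr2
    refine (hmain r hr1).trans ?_
    have hr0 : 0 < r := by linarith
    rw [div_le_iff₀ hε] at hr2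
    rw [div_le_iff₀ (by positivity)]
    have e1 : (V / (2 * As) + ε) * (r ^ 2 * π) = V / (2 * As) * (r ^ 2 * π) + ε * (r ^ 2 * π) := by
      ring
    have e2 : (π * (r + 2) ^ 2 / (2 * As) + 100 * (r + 2)) * V =
        V / (2 * As) * π * (r + 2) ^ 2 + 100 * (r + 2) * V := by
      ring
    rw [e1, e2]
    have h1 : (r + 2) ^ 2 ≤ r ^ 2 + 5 * r := by nlinarith
    have h2 : V / (2 * As) * π * (r + 2) ^ 2 ≤ V / (2 * As) * π * (r ^ 2 + 5 * r) :=
      mul_le_mul_of_nonneg_left h1 (by positivity)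
    have h3 : 100 * (r + 2) * V ≤ 200 * r * V :=
      mul_le_mul_of_nonneg_right (by linarith) hV0.le
    have h4 : (5 * V / (2 * As) + 200 * V / π) * (r * π) ≤ r * ε * (r * π) :=
      mul_le_mul_of_nonneg_right hr2 (by positivity)
    have h5 : (5 * V / (2 * As) + 200 * V / π) * (r * π) =
        V / (2 * As) * π * (5 * r) + 200 * r * V := by
      field_simp
    nlinarith

end Pool.Agent.Lib.P37
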