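import Pool.Agent.Lib.MP_c009e6_co.VolTri

namespace Pool.Agent.Lib.P37

open Real MeasureTheory

/-- the `k`-th vertex -/
noncomputable def vtx (k : ℤ) : ℂ := (Rr : ℂ) * ee (k * p)

theorem sin_half_p_pos : 0 < sin (p / 2) :=
  sin_pos_of_pos_of_lt_pi (by linarith [p_pos]) (by linarith [half_p_lt, Real.pi_pos])

theorem p_lt_pi : p < π := by linarith [p_lt, Real.pi_gt_three]

theorem crs_smul_left' (r : ℝ) (a c : ℂ) : crs ((r : ℂ) * a) c = r * crs a c := by
  unfold crs
  simp only [Complex.mul_re, Complex.mul_im, Complex.ofReal_re, Complex.ofReal_im]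
  ring

theorem crs_smul_right' (r : ℝ) (a c : ℂ) : crs a ((r : ℂ) * c) = r * crs a c := by
  unfold crs
  simp only [Complex.mul_re, Complex.mul_im, Complex.ofReal_re, Complex.ofReal_im]
  ring

/-- first side condition -/
theorem ar2_zero_left (k : ℤ) (z : ℂ) : ar2 0 (vtx k) z = Rr * crs (ee (k * p)) z := by
  unfold ar2 vtx
  rw [sub_zero, sub_zero, crs_smul_left']

theorem ar2_zero_mid (k : ℤ) (z : ℂ) :
    ar2 (vtx (k + 1)) 0 z = - (Rr * crs (ee ((k + 1) * p)) z) := by
  unfold ar2 vtx crs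
  push_cast
  simp only [Complex.mul_re, Complex.mul_im, Complex.ofReal_re, Complex.ofReal_im,
    Complex.sub_re, Complex.sub_im, Complex.zero_re, Complex.zero_im]
  ring

theorem ee_diff (k : ℤ) : ee ((k + 1) * p) - ee (k * p)
    = ((2 * sin (p / 2) : ℝ) : ℂ) * (Complex.I * ee ((k + 1 / 2) * p)) := by
  have h1 : ((k : ℝ) + 1) * p = ((k : ℝ) + 1 / 2) * p + p / 2 := by ring
  have h2 : (k : ℝ) * p = ((k : ℝ) + 1 / 2) * p - p / 2 := by ring
  apply Complex.ext
  · simp only [Complex.sub_re, ee_re, Complex.mul_re, Complex.ofReal_re, Complex.ofReal_im,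
      Complex.I_re, Complex.I_im, ee_im, Complex.mul_im]
    rw [h1, h2, cos_add, cos_sub]
    ring
  · simp only [Complex.sub_im, ee_im, Complex.mul_im, Complex.mul_re, Complex.ofReal_re,
      Complex.ofReal_im, Complex.I_re, Complex.I_im, ee_re]
    rw [h1, h2, sin_add, sin_sub]
    ring

theorem dotp_vtx (k : ℤ) : dotp (vtx k) (ee ((k + 1 / 2) * p)) = 1 := by
  unfold vtx
  rw [dotp_smul_left, dotp_ee_ee]
  have : (k : ℝ) * p - ((k : ℝ) + 1 / 2) * p = - (p / 2) := by ring
  rw [this, cos_neg, Rr_mul_cos]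

theorem ar2_third (k : ℤ) (z : ℂ) :
    ar2 (vtx k) (vtx (k + 1)) z
      = 2 * Tt * (1 - dotp z (ee ((k + 1 / 2) * p))) := by
  have h1 : vtx (k + 1) - vtx k
      = ((2 * Tt : ℝ) : ℂ) * (Complex.I * ee ((k + 1 / 2) * p)) := by
    have h2 : vtx (k + 1) - vtx k = (Rr : ℂ) * (ee ((k + 1) * p) - ee (k * p)) := by
      unfold vtx
      push_cast
      ring
    rw [h2, ee_diff, ← Rr_mul_sin]
    push_cast
    ring
  have h3 : 2 * Tt * (1 - dotp z (ee ((k + 1 / 2) * p)))
      = 2 * Tt * (dotp (vtx k) (ee ((k + 1 / 2) * p)) - dotp z (ee ((k + 1 / 2) * p))) := by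
    rw [dotp_vtx]
  rw [h3]
  unfold ar2
  rw [h1, crs_smul_left']
  unfold crs dotp
  simp only [Complex.mul_re, Complex.mul_im, Complex.I_re, Complex.I_im, Complex.sub_re,
    Complex.sub_im]
  ring

theorem ar2_base (k : ℤ) : ar2 0 (vtx k) (vtx (k + 1)) = 2 * Tt := by
  rw [ar2_zero_left]
  have h1 : vtx (k + 1) = (Rr : ℂ) * ee ((k + 1) * p) := by
    unfold vtx
    push_cast
    ring
  rw [h1, crs_smul_right', crs_ee_ee]
  have h2 : ((k : ℝ) + 1) * p - (k : ℝ) * p = 2 * (p / 2) := by ring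
  rw [h2, sin_two_mul, ← Rr_mul_sin]
  have := Rr_mul_cos
  linear_combination 2 * Rr * sin (p / 2) * this

theorem Tt_pos : 0 < Tt := by
  rw [← Rr_mul_sin]
  exact mul_pos Rr_pos sin_half_p_pos

theorem crs_eq_norm_sin (t : ℝ) (z : ℂ) : crs (ee t) z = ‖z‖ * sin (Complex.arg z - t) := by
  conv_lhs => rw [eq_norm_mul_ee z]
  rw [crs_smul_right', crs_ee_ee]

/-- the triangles -/
noncomputable def TT (k : ℤ) : Set ℂ := oTri 0 (vtx k) (vtx (k + 1))

theorem zero_mem_P37 : (0 : ℂ) ∈ P37 := by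
  have hconv : Convex ℝ P37 := convex_convexHull ℝ _
  have h0 := vertex_mem 0
  have h1 := vertex_mem 18
  have h2 := vertex_mem (-18)
  have hm := hconv h1 h2 (by norm_num : (0 : ℝ) ≤ 1 / 2) (by norm_num : (0 : ℝ) ≤ 1 / 2)
    (by norm_num)
  have hc : cos (18 * p) < 0 := by
    apply cos_neg_of_pi_div_two_lt_of_lt
    · linarith [pi_eq, p_pos]
    · linarith [pi_eq, p_pos]
  have hd : 0 < 1 - cos (18 * p) := by linarith
  have hm2 := hconv h0 hm (a := - cos (18 * p) / (1 - cos (18 * p)))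
    (b := 1 / (1 - cos (18 * p))) (by apply div_nonneg <;> linarith)
    (by apply div_nonneg <;> linarith) (by field_simp; ring)
  convert hm2 using 1
  apply Complex.ext
  · simp only [Complex.zero_re, Complex.add_re, Complex.real_smul, Complex.mul_re,
      Complex.ofReal_re, Complex.ofReal_im, ee_re, Complex.add_im, Complex.mul_im, ee_im]
    push_cast
    simp only [neg_mul, cos_neg, zero_mul, cos_zero, sub_zero, mul_one]
    field_simp
    ring
  · simp only [Complex.zero_im, Complex.add_re, Complex.real_smul, Complex.mul_re,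
      Complex.ofReal_re, Complex.ofReal_im, ee_re, Complex.add_im, Complex.mul_im, ee_im]
    push_cast
    simp only [neg_mul, cos_neg, sin_neg, zero_mul, sin_zero]
    ring

theorem TT_subset (k : ℤ) : TT k ⊆ P37 := by
  intro z hz
  have hconv : Convex ℝ P37 := convex_convexHull ℝ _
  obtain ⟨a, b, c, ha, hb, hc, hs, rfl⟩ := oTri_bary (by rw [ar2_base]; linarith [Tt_pos]) hz
  have h1 := hconv (vertex_mem k) (vertex_mem (k + 1)) (a := b / (b + c)) (b := c / (b + c))
    (by positivity) (by positivity) (by field_simp)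
  have h2 := hconv zero_mem_P37 h1 (a := a) (b := b + c) ha.le (by positivity) (by linarith)
  convert h2 using 1
  unfold vtx
  rw [Complex.real_smul, Complex.real_smul, Complex.real_smul, Complex.real_smul, mul_add,
    ← mul_assoc _ (((b / (b + c) : ℝ) : ℂ)), ← mul_assoc _ (((c / (b + c) : ℝ) : ℂ)),
    ← Complex.ofReal_mul, ← Complex.ofReal_mul, mul_div_cancel₀, mul_div_cancel₀]
  · ring
  · positivity
  · positivity

theorem TT_phase {k : ℤ} {z : ℂ} (hz : z ∈ TT k) :
    ∃ (m : ℤ) (φ : ℝ), 0 < φ ∧ φ < p ∧ Complex.arg z = k * p + φ + 2 * π * m := by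
  obtain ⟨h1, _, h3⟩ := hz
  rw [ar2_zero_left, crs_eq_norm_sin] at h1
  rw [ar2_zero_mid, crs_eq_norm_sin] at h3
  have hz0 : 0 ≤ ‖z‖ := norm_nonneg _
  have hs1 : 0 < sin (Complex.arg z - k * p) := by
    by_contra hcon
    have hcon := not_lt.mp hcon
    have : Rr * (‖z‖ * sin (Complex.arg z - k * p)) ≤ 0 :=
      mul_nonpos_of_nonneg_of_nonpos Rr_pos.le (mul_nonpos_of_nonneg_of_nonpos hz0 hcon)
    linarith
  have hs2 : sin (Complex.arg z - (k + 1) * p) < 0 := by
    by_contra hcon
    have hcon := not_lt.mp hcon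
    have : 0 ≤ Rr * (‖z‖ * sin (Complex.arg z - (k + 1) * p)) :=
      mul_nonneg Rr_pos.le (mul_nonneg hz0 hcon)
    linarith
  -- reduce modulo 2π
  set x : ℝ := Complex.arg z - k * p with hx
  set m : ℤ := ⌊x / (2 * π)⌋ with hm
  set φ : ℝ := x - 2 * π * m with hφ
  have h2π : 0 < 2 * π := by positivity
  have hfl : (m : ℝ) ≤ x / (2 * π) := Int.floor_le _
  have hfl2 : x / (2 * π) < m + 1 := Int.lt_floor_add_one _
  have hφ0 : 0 ≤ φ := by
    rw [le_div_iff₀ h2π] at hfl
    rw [hφ]; linarith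
  have hφ1 : φ < 2 * π := by
    rw [div_lt_iff₀ h2π] at hfl2
    rw [hφ]; nlinarith
  have hsinφ : sin φ = sin x := by
    rw [hφ]
    have : x - 2 * π * m = x - m * (2 * π) := by ring
    rw [this]
    exact sin_sub_int_mul_two_pi x m
  have hsinφ2 : sin (φ - p) = sin (Complex.arg z - (k + 1) * p) := by
    have : φ - p = (Complex.arg z - (k + 1) * p) - m * (2 * π) := by
      rw [hφ, hx]; ring
    rw [this]
    exact sin_sub_int_mul_two_pi _ m
  have hφpos : 0 < φ := by
    rcases hφ0.lt_or_eq with h | h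
    · exact h
    · exfalso
      rw [← hsinφ, ← h, sin_zero] at hs1
      exact lt_irrefl _ hs1
  have hφπ : φ < π := by
    by_contra hcon
    have hcon := not_lt.mp hcon
    have h4 : sin (φ - π) = - sin φ := sin_sub_pi φ
    have h5 : 0 ≤ sin (φ - π) := sin_nonneg_of_nonneg_of_le_pi (by linarith) (by linarith)
    linarith
  refine ⟨m, φ, hφpos, ?_, ?_⟩
  · by_contra hcon
    have hcon := not_lt.mp hcon
    have h6 : 0 ≤ sin (φ - p) := sin_nonneg_of_nonneg_of_le_pi (by linarith) (by linarith [p_pos])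
    linarith
  · rw [hφ, hx]; ring

theorem TT_disjoint {k l : ℕ} (hkl : k < l) (hl : l < 37) : Disjoint (TT k) (TT l) := by
  rw [Set.disjoint_left]
  intro z hz1 hz2
  obtain ⟨m, φ, h1, h2, h3⟩ := TT_phase hz1
  obtain ⟨m', φ', h1', h2', h3'⟩ := TT_phase hz2
  push_cast at h3 h3'
  have hkl' : (k : ℝ) + 1 ≤ l := by exact_mod_cast hkl
  have hl' : (l : ℝ) ≤ 36 := by exact_mod_cast (by omega : l ≤ 36)
  have hk' : (0 : ℝ) ≤ k := by positivity
  have hp := p_pos
  have he : 2 * π * ((m : ℝ) - m') = ((l : ℝ) - k) * p + φ' - φ := by linarith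
  have hpos : 0 < 2 * π * ((m : ℝ) - m') := by
    rw [he]; nlinarith
  have hlt : 2 * π * ((m : ℝ) - m') < 2 * π * 1 := by
    rw [he, mul_one, ← p_mul]; nlinarith
  have h2π : 0 < 2 * π := by positivity
  have ha : (0 : ℝ) < (m : ℝ) - m' := by
    by_contra hcon
    have hcon := not_lt.mp hcon
    nlinarith
  have hb : (m : ℝ) - m' < 1 := lt_of_mul_lt_mul_left hlt h2π.le
  have ha' : (0 : ℤ) < m - m' := by exact_mod_cast ha
  have hb' : m - m' < (1 : ℤ) := by exact_mod_cast hb
  omega

/-- the lines through the vertices -/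
def LL (k : ℤ) : Set ℂ := {z | crs (ee (k * p)) z = 0}

theorem LL_null (k : ℤ) : volume (LL k) = 0 := by
  let L : ℂ →ₗ[ℝ] ℝ :=
    (cos (k * p)) • Complex.imLm - (sin (k * p)) • Complex.reLm
  have hL : ∀ z, L z = crs (ee (k * p)) z := by
    intro z
    unfold crs
    rw [ee_re, ee_im]
    rfl
  have h1 : LL k = (LinearMap.ker L : Set ℂ) := by
    ext z
    rw [SetLike.mem_coe, LinearMap.mem_ker, hL]
    rfl
  rw [h1]
  apply Measure.addHaar_submodule
  intro h2
  have h3 : (Complex.I * ee (k * p)) ∈ (LinearMap.ker L) := by rw [h2]; trivial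
  rw [LinearMap.mem_ker, hL] at h3
  unfold crs at h3
  simp only [Complex.mul_re, Complex.mul_im, Complex.I_re, Complex.I_im, ee_re, ee_im] at h3
  have := sin_sq_add_cos_sq ((k : ℝ) * p)
  nlinarith

theorem interior_subset : interior P37 ⊆
    (⋃ k ∈ Finset.range 37, TT (k : ℕ)) ∪ ⋃ k ∈ Finset.range 37, LL (k : ℕ) := by
  intro z hz
  have hp := p_pos
  set θ := Complex.arg z with hθ
  set n : ℤ := ⌊θ / p⌋ with hn
  have hn1 : (n : ℝ) * p ≤ θ := by
    have := Int.floor_le (θ / p)
    rwa [le_div_iff₀ hp] at this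
  have hn2 : θ < ((n : ℝ) + 1) * p := by
    have := Int.lt_floor_add_one (θ / p)
    rwa [div_lt_iff₀ hp] at this
  set k : ℕ := (n % 37).toNat with hk
  have hk1 : (k : ℤ) = n % 37 := Int.toNat_of_nonneg (Int.emod_nonneg _ (by norm_num))
  have hk2 : k < 37 := by
    have := Int.emod_lt_of_pos n (by norm_num : (0 : ℤ) < 37)
    omega
  set q : ℤ := n / 37 with hq
  have hnk : n = 37 * q + k := by
    rw [hk1]
    exact (Int.mul_ediv_add_emod n 37).symm
  have hnk' : (n : ℝ) = 37 * q + k := by exact_mod_cast hnk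
  have hsub : θ - (k : ℝ) * p = (θ - n * p) + q * (2 * π) := by
    rw [hnk', ← p_mul]; ring
  have hsub2 : θ - ((k : ℝ) + 1) * p = (θ - (n + 1) * p) + q * (2 * π) := by
    rw [hnk', ← p_mul]; ring
  have hmem : k ∈ Finset.range 37 := Finset.mem_range.mpr hk2
  by_cases hz0 : crs (ee (((k : ℕ) : ℤ) * p)) z = 0
  · right
    simp only [Set.mem_iUnion]
    exact ⟨k, hmem, hz0⟩
  · left
    simp only [Set.mem_iUnion]
    refine ⟨k, hmem, ?_⟩
    have hcast : (((k : ℕ) : ℤ) : ℝ) = (k : ℝ) := by push_cast; rfl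
    have hzn : 0 < ‖z‖ := by
      rw [norm_pos_iff]
      intro h
      apply hz0
      rw [h]
      unfold crs
      simp
    refine ⟨?_, ?_, ?_⟩
    · rw [ar2_zero_left, crs_eq_norm_sin, hcast, ← hθ, hsub, sin_add_int_mul_two_pi]
      rw [crs_eq_norm_sin, hcast, ← hθ, hsub, sin_add_int_mul_two_pi] at hz0
      have hne : sin (θ - n * p) ≠ 0 := fun h => hz0 (by rw [h, mul_zero])
      have hnn : 0 ≤ sin (θ - n * p) :=
        sin_nonneg_of_nonneg_of_le_pi (by linarith) (by linarith [p_lt_pi])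
      have : 0 < sin (θ - n * p) := lt_of_le_of_ne hnn (Ne.symm hne)
      exact mul_pos Rr_pos (mul_pos hzn this)
    · rw [ar2_third]
      have := P37_interior_halfplane (k : ℤ) z hz
      have hT := Tt_pos
      apply mul_pos (by linarith)
      linarith
    · rw [ar2_zero_mid, crs_eq_norm_sin, hcast, ← hθ, hsub2, sin_add_int_mul_two_pi]
      have hneg : sin (θ - (n + 1) * p) < 0 :=
        sin_neg_of_neg_of_neg_pi_lt (by linarith) (by linarith [p_lt_pi])
      have := mul_pos Rr_pos (mul_pos hzn (neg_pos.mpr hneg))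
      linarith

theorem TT_volume (k : ℤ) : volume (TT k) = ENNReal.ofReal Tt := by
  unfold TT
  rw [vol_tri (by rw [ar2_base]; linarith [Tt_pos]), ar2_base]
  congr 1
  ring

theorem P37_volume : volume P37 = ENNReal.ofReal (37 * tan (π / 37)) := by
  have hconv : Convex ℝ P37 := convex_convexHull ℝ _
  have hTt : tan (π / 37) = Tt := by unfold Tt; rw [half_p]
  rw [hTt]
  have hsum : (∑ k ∈ Finset.range 37, volume (TT (k : ℕ))) = ENNReal.ofReal (37 * Tt) := by
    rw [Finset.sum_congr rfl (fun k _ => TT_volume (k : ℕ)), Finset.sum_const, Finset.card_range,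
      nsmul_eq_mul, ENNReal.ofReal_mul (by norm_num)]
    norm_num
  apply le_antisymm
  · have h1 : volume P37 ≤ volume (interior P37) := by
      have hsub : P37 ⊆ interior P37 ∪ frontier P37 := by
        rw [← closure_eq_interior_union_frontier]
        exact subset_closure
      calc volume P37 ≤ volume (interior P37 ∪ frontier P37) := measure_mono hsub
        _ ≤ volume (interior P37) + volume (frontier P37) := measure_union_le _ _
        _ = volume (interior P37) := by rw [hconv.addHaar_frontier volume, add_zero]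
    refine h1.trans ((measure_mono interior_subset).trans ((measure_union_le _ _).trans ?_))
    have h2 : volume (⋃ k ∈ Finset.range 37, LL (k : ℕ)) = 0 := by
      rw [← le_zero_iff]
      refine (measure_biUnion_finset_le _ _).trans ?_
      rw [Finset.sum_eq_zero]
      intro k _
      exact LL_null _
    rw [h2, add_zero, ← hsum]
    exact measure_biUnion_finset_le _ _
  · rw [← hsum, ← measure_biUnion_finset]
    · apply measure_mono
      intro z hz
      simp only [Set.mem_iUnion] at hz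
      obtain ⟨k, _, hk⟩ := hz
      exact TT_subset _ hk
    · intro k hk l hl hkl
      have hk' := Finset.mem_range.mp (Finset.mem_coe.mp hk)
      have hl' := Finset.mem_range.mp (Finset.mem_coe.mp hl)
      rcases lt_or_gt_of_ne hkl with h | h
      · exact TT_disjoint h hl'
      · exact (TT_disjoint h hk').symm
    · intro k _
      exact oTri_measurable _ _ _

end Pool.Agent.Lib.P37
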