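import Pool.Agent.Lib.MP_c009e6_co.Body
import Pool.Agent.Lib.MP_c009e6_co.DelA

namespace Pool.Agent.Lib.P37

open Real MeasureTheory

/-- planar algebra behind the uniqueness of the circumcentre -/
theorem circ_alg {x1 x2 y1 y2 c1 c2 : ℝ} (hcr : x1 * y2 - x2 * y1 = 0)
    (hx : 2 * (c1 * x1 + c2 * x2) + (x1 ^ 2 + x2 ^ 2) = 0)
    (hy : 2 * (c1 * y1 + c2 * y2) + (y1 ^ 2 + y2 ^ 2) = 0)
    (hx0 : 0 < x1 ^ 2 + x2 ^ 2) (hy0 : 0 < y1 ^ 2 + y2 ^ 2) :
    (x1 - y1) ^ 2 + (x2 - y2) ^ 2 = 0 := by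
  have h1 : (x1 ^ 2 + x2 ^ 2) * ((y1 ^ 2 + y2 ^ 2) - (x1 * y1 + x2 * y2)) = 0 := by
    linear_combination (x1 ^ 2 + x2 ^ 2) * hy - (x1 * y1 + x2 * y2) * hx +
      (2 * c1 * x2 - 2 * c2 * x1) * hcr
  have h2 : (y1 ^ 2 + y2 ^ 2) * ((x1 ^ 2 + x2 ^ 2) - (x1 * y1 + x2 * y2)) = 0 := by
    linear_combination (y1 ^ 2 + y2 ^ 2) * hx - (x1 * y1 + x2 * y2) * hy +
      (2 * c2 * y1 - 2 * c1 * y2) * hcr
  have h3 := (mul_eq_zero.mp h1).resolve_left hx0.ne'
  have h4 := (mul_eq_zero.mp h2).resolve_left hy0.ne'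
  linarith

theorem circ_unique {u v w m m' : ℂ} {r r' : ℝ} (huv : u ≠ v) (huw : u ≠ w) (hvw : v ≠ w)
    (h1 : ‖u - m‖ = r) (h2 : ‖v - m‖ = r) (h3 : ‖w - m‖ = r)
    (h1' : ‖u - m'‖ = r') (h2' : ‖v - m'‖ = r') (h3' : ‖w - m'‖ = r') : m = m' := by
  by_contra hne
  have hd : 0 < ‖m - m'‖ ^ 2 := by
    have := norm_pos_iff.mpr (sub_ne_zero.mpr hne)
    positivity
  have hvu : 0 < ‖v - u‖ ^ 2 := by
    have := norm_pos_iff.mpr (sub_ne_zero.mpr huv.symm)
    positivity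
  have hwu : 0 < ‖w - u‖ ^ 2 := by
    have := norm_pos_iff.mpr (sub_ne_zero.mpr huw.symm)
    positivity
  have hwv : 0 < ‖v - w‖ ^ 2 := by
    have := norm_pos_iff.mpr (sub_ne_zero.mpr hvw)
    positivity
  have k1 : ‖u - m‖ ^ 2 = r ^ 2 := by rw [h1]
  have k2 : ‖v - m‖ ^ 2 = r ^ 2 := by rw [h2]
  have k3 : ‖w - m‖ ^ 2 = r ^ 2 := by rw [h3]
  have k1' : ‖u - m'‖ ^ 2 = r' ^ 2 := by rw [h1']
  have k2' : ‖v - m'‖ ^ 2 = r' ^ 2 := by rw [h2']
  have k3' : ‖w - m'‖ ^ 2 = r' ^ 2 := by rw [h3']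
  rw [norm_sub_sq'] at hd hvu hwu hwv k1 k2 k3 k1' k2' k3'
  have e1 : (v.re - u.re) * (m.re - m'.re) + (v.im - u.im) * (m.im - m'.im) = 0 := by
    linear_combination (1/2) * (k1 - k2 - k1' + k2')
  have e2 : (w.re - u.re) * (m.re - m'.re) + (w.im - u.im) * (m.im - m'.im) = 0 := by
    linear_combination (1/2) * (k1 - k3 - k1' + k3')
  have hcr : (v.re - u.re) * (w.im - u.im) - (v.im - u.im) * (w.re - u.re) = 0 := by
    have f : ((v.re - u.re) * (w.im - u.im) - (v.im - u.im) * (w.re - u.re)) *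
        ((m.re - m'.re) ^ 2 + (m.im - m'.im) ^ 2) = 0 := by
      linear_combination
        ((m.re - m'.re) * (w.im - u.im) - (m.im - m'.im) * (w.re - u.re)) * e1 +
        ((m.im - m'.im) * (v.re - u.re) - (m.re - m'.re) * (v.im - u.im)) * e2
    exact (mul_eq_zero.mp f).resolve_right hd.ne'
  have := circ_alg (c1 := u.re - m.re) (c2 := u.im - m.im) hcr
    (by linear_combination k2 - k1) (by linear_combination k3 - k1) hvu hwu
  have e3 : (v.re - w.re) ^ 2 + (v.im - w.im) ^ 2 = 0 := by linear_combination this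
  linarith

/-- the points concyclic with `u`, `v`, `w` -/
def badc (u v w : ℂ) : Set ℂ :=
  {z | u ≠ v ∧ u ≠ w ∧ v ≠ w ∧ ∃ m : ℂ, ∃ r : ℝ, ‖u - m‖ = r ∧ ‖v - m‖ = r ∧ ‖w - m‖ = r ∧ ‖z - m‖ = r}

theorem badc_null (u v w : ℂ) : volume (badc u v w) = 0 := by
  rcases Set.eq_empty_or_nonempty (badc u v w) with h | ⟨z0, huv, huw, hvw, m, r, h1, h2, h3, h4⟩
  · rw [h, measure_empty]
  · apply measure_mono_null (t := Metric.sphere m r)
    · rintro z ⟨-, -, -, m', r', h1', h2', h3', h4'⟩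
      have hm := circ_unique huv huw hvw h1 h2 h3 h1' h2' h3'
      subst hm
      rw [mem_sphere_iff_norm, h4', ← h1', h1]
    · exact Measure.addHaar_sphere _ _ _

theorem gp_insert (T : Finset ℂ) (hT : GP T) (w : ℂ) (η : ℝ) (hη : 0 < η) :
    ∃ z : ℂ, ‖z - w‖ ≤ η ∧ z ∉ T ∧ GP (insert z T) := by
  classical
  have hbad : volume ((T : Set ℂ) ∪ ⋃ t ∈ (T ×ˢ T ×ˢ T : Finset (ℂ × ℂ × ℂ)), badc t.1 t.2.1 t.2.2) = 0 := by
    rw [measure_union_null_iff]
    refine ⟨T.measure_zero _, ?_⟩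
    exact (measure_biUnion_null_iff (T ×ˢ T ×ˢ T : Finset (ℂ × ℂ × ℂ)).countable_toSet).mpr
      fun t _ => badc_null _ _ _
  have hball : 0 < volume (Metric.closedBall w η) := Metric.measure_closedBall_pos _ _ hη
  obtain ⟨z, hz, hz'⟩ : ∃ z ∈ Metric.closedBall w η,
      z ∉ ((T : Set ℂ) ∪ ⋃ t ∈ (T ×ˢ T ×ˢ T : Finset (ℂ × ℂ × ℂ)), badc t.1 t.2.1 t.2.2) := by
    by_contra hcon
    push Not at hcon
    have := measure_mono (μ := volume) (show Metric.closedBall w η ⊆ _ from hcon)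
    rw [hbad] at this
    exact absurd hball (not_lt.mpr this)
  rw [mem_closedBall_iff_norm] at hz
  rw [Set.mem_union, not_or] at hz'
  obtain ⟨hzT, hzb⟩ := hz'
  have hzb' : ∀ a ∈ T, ∀ b ∈ T, ∀ c ∈ T, a ≠ b → a ≠ c → b ≠ c → ∀ m : ℂ, ∀ r : ℝ,
      ‖a - m‖ = r → ‖b - m‖ = r → ‖c - m‖ = r → ‖z - m‖ = r → False := by
    intro a ha b hb c hc hab hac hbc m r e1 e2 e3 e4
    apply hzb
    simp only [Set.mem_iUnion]
    exact ⟨(a, b, c), Finset.mem_product.mpr ⟨ha, Finset.mem_product.mpr ⟨hb, hc⟩⟩,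
      hab, hac, hbc, m, r, e1, e2, e3, e4⟩
  refine ⟨z, hz, fun h => hzT (Finset.mem_coe.mpr h), ?_⟩
  rintro m r a ha b hb c hc d hd hab hac had hbc hbd hcd ⟨e1, e2, e3, e4⟩
  rw [Finset.mem_insert] at ha hb hc hd
  rcases ha with rfl | ha
  · exact hzb' b (hb.resolve_left hab.symm) c (hc.resolve_left hac.symm) d (hd.resolve_left had.symm)
      hbc hbd hcd m r e2 e3 e4 e1
  rcases hb with rfl | hb
  · exact hzb' a ha c (hc.resolve_left hbc.symm) d (hd.resolve_left hbd.symm)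
      hac had hcd m r e1 e3 e4 e2
  rcases hc with rfl | hc
  · exact hzb' a ha b hb d (hd.resolve_left hcd.symm) hab had hbd m r e1 e2 e4 e3
  rcases hd with rfl | hd
  · exact hzb' a ha b hb c hc hab hac hbc m r e1 e2 e3 e4
  exact hT m r a ha b hb c hc d hd hab hac had hbc hbd hcd ⟨e1, e2, e3, e4⟩

theorem gp_near (S : Finset ℂ) (η : ℝ) (hη : 0 < η) (g : ℂ → ℂ) :
    ∃ f : ℂ → ℂ, (∀ a ∈ S, ‖f a - g a‖ ≤ η) ∧
      (∀ a ∈ S, ∀ b ∈ S, a ≠ b → f a ≠ f b) ∧ GP (S.image f) := by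
  classical
  induction S using Finset.induction_on with
  | empty =>
    refine ⟨g, ?_, ?_, ?_⟩
    · simp
    · simp
    · intro m r a ha
      simp at ha
  | insert a S ha ih =>
    obtain ⟨f, h1, h2, h3⟩ := ih
    obtain ⟨z, hz1, hz2, hz3⟩ := gp_insert (S.image f) h3 (g a) η hη
    have hfa : Function.update f a z a = z := Function.update_self _ _ _
    have hfb : ∀ b ∈ S, Function.update f a z b = f b := by
      intro b hb
      rw [Function.update_of_ne]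
      rintro rfl
      exact ha hb
    refine ⟨Function.update f a z, ?_, ?_, ?_⟩
    · intro b hb
      rcases Finset.mem_insert.mp hb with rfl | hb
      · rw [hfa]; exact hz1
      · rw [hfb b hb]; exact h1 b hb
    · intro b hb c hc hbc
      rcases Finset.mem_insert.mp hb with rfl | hb'
      · have hc' : c ∈ S := (Finset.mem_insert.mp hc).resolve_left hbc.symm
        rw [hfa, hfb c hc']
        rintro rfl
        exact hz2 (Finset.mem_image_of_mem f hc')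
      · rcases Finset.mem_insert.mp hc with rfl | hc'
        · rw [hfa, hfb b hb']
          rintro h
          exact hz2 (h ▸ Finset.mem_image_of_mem f hb')
        · rw [hfb b hb', hfb c hc']
          exact h2 b hb' c hc' hbc
    · have : (insert a S).image (Function.update f a z) = insert z (S.image f) := by
        rw [Finset.image_insert, hfa]
        congr 1
        exact Finset.image_congr (fun b hb => hfb b hb)
      rw [this]
      exact hz3

end Pool.Agent.Lib.P37
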