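import Pool.Agent.Lib.MP_c009e6_co.GMax
import Pool.Agent.Lib.MP_c009e6_co.GPos
import Pool.Agent.Lib.MP_c009e6_co.GSep
import Pool.Agent.Lib.MP_c009e6_co.Num

namespace Pool.Agent.Lib.P37

open Real

theorem prep (ρ : ℝ) (hρ : 20 ≤ ρ) (S : Finset ℂ) (φ : ℂ → ℝ) (hC : Cfg S φ)
    (hS : ∀ a ∈ S, ‖a‖ ≤ ρ) :
    ∃ (S' : Finset ℂ) (φ' : ℂ → ℝ), S.card ≤ S'.card ∧ Cfg S' φ' ∧ GP S' ∧ Cov S' ρ ∧
      (∀ a ∈ S', ‖a‖ ≤ ρ + 1) := by
  classical
  obtain ⟨S1, φ1, hcard, hC1, hS1, hcov⟩ := max_ext ρ (by linarith) S φ hC hS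
  obtain ⟨η, hηdef⟩ : ∃ η : ℝ, η = 1 / (10000 * ρ) := ⟨_, rfl⟩
  have hρ0 : 0 < ρ := by linarith
  have hη : 0 < η := by rw [hηdef]; positivity
  have hηρ : η * ρ = 1 / 10000 := by rw [hηdef]; field_simp
  have hη1 : η ≤ 1 / 10000 := by nlinarith
  obtain ⟨f, hf, hinj, hGP⟩ := gp_near S1 η hη (fun a => (1 + (η : ℂ)) * a)
  have hinjOn : Set.InjOn f S1 := by
    intro a ha b hb hab
    by_contra hne
    exact hinj a ha b hb hne hab
  have hinv : ∀ a ∈ S1, Function.invFunOn f (S1 : Set ℂ) (f a) = a := by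
    intro a ha
    exact hinjOn.leftInvOn_invFunOn (by simpa using ha)
  refine ⟨S1.image f, fun b => φ1 (Function.invFunOn f (S1 : Set ℂ) b), ?_, ?_, hGP, ?_, ?_⟩
  · rw [Finset.card_image_of_injOn hinjOn]
    exact hcard
  · intro a' ha' b' hb' hne
    rw [Finset.mem_image] at ha' hb'
    obtain ⟨a, ha, rfl⟩ := ha'
    obtain ⟨b, hb, rfl⟩ := hb'
    have hab : a ≠ b := fun h => hne (by rw [h])
    simp only [hinv a ha, hinv b hb]
    exact sep_perturb (hC1 a ha b hb hab) hη (hf a ha) (hf b hb)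
  · intro x hx
    obtain ⟨a, ha, hxa⟩ := hcov x hx
    refine ⟨f a, Finset.mem_image_of_mem f ha, ?_⟩
    have h1 := Rr_bounds.2
    have h2 : ‖a - f a‖ ≤ η * ‖a‖ + η := by
      have e : a - f a = -(f a - (1 + (η : ℂ)) * a) - (η : ℂ) * a := by ring
      rw [e]
      refine (norm_sub_le _ _).trans ?_
      rw [norm_neg, norm_mul, Complex.norm_real, Real.norm_eq_abs, abs_of_pos hη]
      linarith [hf a ha]
    have h3 : ‖x - f a‖ ≤ ‖x - a‖ + ‖a - f a‖ := norm_sub_le_norm_sub_add_norm_sub _ _ _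
    have h4 : η * ‖a‖ ≤ η * ρ := mul_le_mul_of_nonneg_left (hS1 a ha) hη.le
    linarith
  · intro a' ha'
    rw [Finset.mem_image] at ha'
    obtain ⟨a, ha, rfl⟩ := ha'
    have h2 : ‖f a‖ ≤ ‖a‖ + (η * ‖a‖ + η) := by
      have e : f a = a + ((f a - (1 + (η : ℂ)) * a) + (η : ℂ) * a) := by ring
      calc ‖f a‖ = ‖a + ((f a - (1 + (η : ℂ)) * a) + (η : ℂ) * a)‖ := by rw [← e]
        _ ≤ ‖a‖ + ‖(f a - (1 + (η : ℂ)) * a) + (η : ℂ) * a‖ := norm_add_le _ _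
        _ ≤ ‖a‖ + (‖f a - (1 + (η : ℂ)) * a‖ + ‖(η : ℂ) * a‖) := by
            gcongr; exact norm_add_le _ _
        _ ≤ ‖a‖ + (η * ‖a‖ + η) := by
            rw [norm_mul, Complex.norm_real, Real.norm_eq_abs, abs_of_pos hη]
            linarith [hf a ha]
    have h4 : η * ‖a‖ ≤ η * ρ := mul_le_mul_of_nonneg_left (hS1 a ha) hη.le
    linarith [hS1 a ha]

end Pool.Agent.Lib.P37
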