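import Pool.Agent.Lib.MP_c009e6_co.Body

/-!
# Polynomials used near the optimal triangle
-/

namespace Pool.Agent.Lib.P37

open Real

noncomputable def E12p (U g q : ℝ) : ℝ := U ^ 2 + 1/8 - (g - q) ^ 2 / 2

noncomputable def E31p (U g D1 : ℝ) : ℝ :=
  if 0 ≤ g then (U + g - 1/6 - D1) ^ 2 + (g - g ^ 2) / 2
  else (U - 1/6 - D1) ^ 2 + (-g - g ^ 2) / 2

noncomputable def E23p (U g q D2 : ℝ) : ℝ :=
  if 0 ≤ q then (U + g - 1/3 + D2) ^ 2 + (q - q ^ 2) / 2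
  else (U + g - q - 1/3 + D2) ^ 2 + (-q - q ^ 2) / 2

noncomputable def Gsp (U g q D1 D2 : ℝ) : ℝ :=
  (U + ((g - q) + g) / 3) / 3 + (2/3) * ((max (-(U + g - q)) 0) ^ 2 - (max U 0) ^ 2)
    - (2/3) * (g * D1 + q * D2)

noncomputable def MIp1 (U g q D1 D2 D3 : ℝ) : ℝ :=
  E12p U g q * (1 - 0.196 * D3) - 6.8 * D3 + D3 ^ 2 - (D1 - D2) ^ 2 / 3
    + (23 / 22) * Gsp U g q D1 D2 - 0.0908

noncomputable def MIp2 (U g q D1 D2 D3 : ℝ) : ℝ :=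
  E23p U g q D2 * (1 - 0.196 * D1) - 6.8 * D1 + D1 ^ 2 - (D2 - D3) ^ 2 / 3
    + (23 / 22) * Gsp U g q D1 D2 - 0.0908

noncomputable def MIp3 (U g q D1 D2 D3 : ℝ) : ℝ :=
  E31p U g D1 * (1 - 0.196 * D2) - 6.8 * D2 + D2 ^ 2 - (D3 - D1) ^ 2 / 3
    + (23 / 22) * Gsp U g q D1 D2 - 0.0908

/-- lower bound for `(d3 cos(y1) - 2)/p^2` -/
noncomputable def xh (U g D1 : ℝ) : ℝ :=
  if 0 ≤ g then (g - g ^ 2) / 2 - 1.007 * (g * (1/3 - 2 * U + 2 * D1 - g)) else (-g - g ^ 2) / 2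

/-- lower bound for `(d2 cos(z) - 2)/p^2` -/
noncomputable def yh (U g q D2 : ℝ) : ℝ :=
  if 0 ≤ q then (q - q ^ 2) / 2 - g * (2/3 - 2 * U - 2 * D2 - g)
      - 0.007 * (|g| * (2/3 - 2 * U - 2 * D2 - g))
  else (-q - q ^ 2) / 2 - (g - q) * (2/3 - 2 * U - 2 * D2 - (g - q))
      - 0.007 * (|g - q| * (2/3 - 2 * U - 2 * D2 - (g - q)))

/-- the final polynomial lower bound for `Psi / (√3 p^2)` near the optimal triangle -/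
noncomputable def Fp (U g q D1 D2 : ℝ) : ℝ :=
  0.3369 * (max U 0) ^ 2 + 1.0347 * (max (-U) 0) ^ 2
    + 0.3485 * (((g - q) + g) / 3 - 2 * (g * D1 + q * D2))
    + (0.3058 + 0.103 * U) * xh U g D1 + (0.3561 - 0.0982 * U) * yh U g q D2
    - 0.173 * (g - q) ^ 2 - 0.0005 * (|g| + |q|)

end Pool.Agent.Lib.P37
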