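import Pool.Agent.Lib.MP_c009e6_co.VDefs

namespace Pool.Agent.Lib.P37

open Real

private theorem sq13 {D1 D2 D3 : ℝ} (hs : D1 + D2 + D3 = 0) (h1 : -0.006 ≤ D1)
    (h2 : -0.0125 ≤ D2) (h3 : -0.001 ≤ D3) :
    -0.0004 ≤ (D3 ^ 2 - (D1 - D2) ^ 2 / 3) + (D2 ^ 2 - (D3 - D1) ^ 2 / 3) := by
  have e : D3 = -D1 - D2 := by linarith
  subst e
  nlinarith [mul_nonneg (by linarith : 0 ≤ D1 + 0.006) (by linarith : 0 ≤ D2 + 0.0125),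
    mul_nonneg (by linarith : 0 ≤ D1 + 0.006) (by linarith : 0 ≤ (-D1 - D2) + 0.001),
    mul_nonneg (by linarith : 0 ≤ D2 + 0.0125) (by linarith : 0 ≤ (-D1 - D2) + 0.001),
    sq_nonneg D1, sq_nonneg D2]

private theorem sq12 {D1 D2 D3 : ℝ} (hs : D1 + D2 + D3 = 0) (h1 : -0.006 ≤ D1)
    (h2 : -0.0125 ≤ D2) (h3 : -0.001 ≤ D3) :
    -0.0004 ≤ (D3 ^ 2 - (D1 - D2) ^ 2 / 3) + (D1 ^ 2 - (D2 - D3) ^ 2 / 3) := by
  have e : D3 = -D1 - D2 := by linarith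
  subst e
  nlinarith [mul_nonneg (by linarith : 0 ≤ D1 + 0.006) (by linarith : 0 ≤ D2 + 0.0125),
    mul_nonneg (by linarith : 0 ≤ D1 + 0.006) (by linarith : 0 ≤ (-D1 - D2) + 0.001),
    mul_nonneg (by linarith : 0 ≤ D2 + 0.0125) (by linarith : 0 ≤ (-D1 - D2) + 0.001),
    sq_nonneg D1, sq_nonneg D2]

/-- scaling of a bounded nonnegative term -/
private theorem scale {E D B d : ℝ} (hE : 0 ≤ E) (hE' : E ≤ B) (hD : D ≤ d) (hd : 0 ≤ d) :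
    E - 0.196 * (B * d) ≤ E * (1 - 0.196 * D) := by
  have h1 : E * D ≤ B * d := (mul_le_mul_of_nonneg_left hD hE).trans
    (mul_le_mul_of_nonneg_right hE' hd)
  nlinarith

private theorem r13ppp {U g q D1 D2 : ℝ} (hU1 : -0.1381 ≤ U) (hU2 : U ≤ 0.1381) (hg1 : -0.12 ≤ g)
    (hg2 : g ≤ 0.1485) (hq1 : -0.1381 ≤ q) (hq2 : q ≤ 0.128)
    (d1 : 0.0075 ≤ D1) (d1p : D1 ≤ 0.0135) (d2 : -0.0125 ≤ D2) (d2p : D2 ≤ -0.0065)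
    (hg : 0 ≤ g)  (hU : 0 ≤ U) (hw : 0 ≤ U + g - q) :
    0 ≤ U ^ 2 + 1/8 - (g - q) ^ 2 / 2 + ((1/6 + 0.0075 - U - g) ^ 2 + (g - g ^ 2) / 2)
      + 23/11 * ((U + ((g - q) + g) / 3) / 3 + (2/3) * (0 - U ^ 2) - (2/3) * (g * D1 + q * D2))
      + 0.051 - 0.1816 - 0.003 := by
  linarith [mul_nonneg (by linarith : (0:ℝ) ≤ g) (by linarith : (0:ℝ) ≤ 0.1485 - g),
    mul_nonneg (by linarith : (0:ℝ) ≤ g) (by linarith : (0:ℝ) ≤ q + 0.1381),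
    mul_nonneg (by linarith : (0:ℝ) ≤ g) (by linarith : (0:ℝ) ≤ 0.128 - q),
    mul_nonneg (by linarith : (0:ℝ) ≤ g) (by linarith : (0:ℝ) ≤ U),
    mul_nonneg (by linarith : (0:ℝ) ≤ g) (by linarith : (0:ℝ) ≤ 0.1381 - U),
    mul_nonneg (by linarith : (0:ℝ) ≤ g) (by linarith : (0:ℝ) ≤ U + g - q),
    mul_nonneg (by linarith : (0:ℝ) ≤ 0.1485 - g) (by linarith : (0:ℝ) ≤ q + 0.1381),
    mul_nonneg (by linarith : (0:ℝ) ≤ 0.1485 - g) (by linarith : (0:ℝ) ≤ 0.128 - q),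
    mul_nonneg (by linarith : (0:ℝ) ≤ 0.1485 - g) (by linarith : (0:ℝ) ≤ U),
    mul_nonneg (by linarith : (0:ℝ) ≤ 0.1485 - g) (by linarith : (0:ℝ) ≤ 0.1381 - U),
    mul_nonneg (by linarith : (0:ℝ) ≤ 0.1485 - g) (by linarith : (0:ℝ) ≤ U + g - q),
    mul_nonneg (by linarith : (0:ℝ) ≤ q + 0.1381) (by linarith : (0:ℝ) ≤ 0.128 - q),
    mul_nonneg (by linarith : (0:ℝ) ≤ q + 0.1381) (by linarith : (0:ℝ) ≤ U),
    mul_nonneg (by linarith : (0:ℝ) ≤ q + 0.1381) (by linarith : (0:ℝ) ≤ 0.1381 - U),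
    mul_nonneg (by linarith : (0:ℝ) ≤ q + 0.1381) (by linarith : (0:ℝ) ≤ U + g - q),
    mul_nonneg (by linarith : (0:ℝ) ≤ 0.128 - q) (by linarith : (0:ℝ) ≤ U),
    mul_nonneg (by linarith : (0:ℝ) ≤ 0.128 - q) (by linarith : (0:ℝ) ≤ 0.1381 - U),
    mul_nonneg (by linarith : (0:ℝ) ≤ 0.128 - q) (by linarith : (0:ℝ) ≤ U + g - q),
    mul_nonneg (by linarith : (0:ℝ) ≤ U) (by linarith : (0:ℝ) ≤ 0.1381 - U),
    mul_nonneg (by linarith : (0:ℝ) ≤ U) (by linarith : (0:ℝ) ≤ U + g - q),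
    mul_nonneg (by linarith : (0:ℝ) ≤ 0.1381 - U) (by linarith : (0:ℝ) ≤ U + g - q),
    mul_nonneg (by linarith : (0:ℝ) ≤ g + 0.12) (by linarith : (0:ℝ) ≤ D1 - 0.0075),
    mul_nonneg (by linarith : (0:ℝ) ≤ g + 0.12) (by linarith : (0:ℝ) ≤ 0.0135 - D1),
    mul_nonneg (by linarith : (0:ℝ) ≤ 0.1485 - g) (by linarith : (0:ℝ) ≤ D1 - 0.0075),
    mul_nonneg (by linarith : (0:ℝ) ≤ 0.1485 - g) (by linarith : (0:ℝ) ≤ 0.0135 - D1),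
    mul_nonneg (by linarith : (0:ℝ) ≤ q + 0.1381) (by linarith : (0:ℝ) ≤ D2 + 0.0125),
    mul_nonneg (by linarith : (0:ℝ) ≤ q + 0.1381) (by linarith : (0:ℝ) ≤ -0.0065 - D2),
    mul_nonneg (by linarith : (0:ℝ) ≤ 0.128 - q) (by linarith : (0:ℝ) ≤ D2 + 0.0125),
    mul_nonneg (by linarith : (0:ℝ) ≤ 0.128 - q) (by linarith : (0:ℝ) ≤ -0.0065 - D2),
    sq_nonneg U,
    sq_nonneg g,
    sq_nonneg q,
    sq_nonneg (U + g),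
    sq_nonneg (g - q),
    sq_nonneg (U + g - q), sq_nonneg (U + g - q + 0.13), sq_nonneg (U + g - q + 0.13 + 0.5 * U), sq_nonneg (U + g - q + 0.13 - 0.5 * U), sq_nonneg (U + g - q + 0.13 + g), sq_nonneg (U + g - q + 0.13 - g), sq_nonneg (U + g - q + 0.12)]

private theorem r13ppm {U g q D1 D2 : ℝ} (hU1 : -0.1381 ≤ U) (hU2 : U ≤ 0.1381) (hg1 : -0.12 ≤ g)
    (hg2 : g ≤ 0.1485) (hq1 : -0.1381 ≤ q) (hq2 : q ≤ 0.128)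
    (d1 : 0.0075 ≤ D1) (d1p : D1 ≤ 0.0135) (d2 : -0.0125 ≤ D2) (d2p : D2 ≤ -0.0065)
    (hg : 0 ≤ g)  (hU : 0 ≤ U) (hw : U + g - q ≤ 0) :
    0 ≤ U ^ 2 + 1/8 - (g - q) ^ 2 / 2 + ((1/6 + 0.0075 - U - g) ^ 2 + (g - g ^ 2) / 2)
      + 23/11 * ((U + ((g - q) + g) / 3) / 3 + (2/3) * ((U + g - q) ^ 2 - U ^ 2) - (2/3) * (g * D1 + q * D2))
      + 0.051 - 0.1816 - 0.003 := by
  linarith [mul_nonneg (by linarith : (0:ℝ) ≤ g) (by linarith : (0:ℝ) ≤ 0.1485 - g),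
    mul_nonneg (by linarith : (0:ℝ) ≤ g) (by linarith : (0:ℝ) ≤ q + 0.1381),
    mul_nonneg (by linarith : (0:ℝ) ≤ g) (by linarith : (0:ℝ) ≤ 0.128 - q),
    mul_nonneg (by linarith : (0:ℝ) ≤ g) (by linarith : (0:ℝ) ≤ U),
    mul_nonneg (by linarith : (0:ℝ) ≤ g) (by linarith : (0:ℝ) ≤ 0.1381 - U),
    mul_nonneg (by linarith : (0:ℝ) ≤ g) (by linarith : (0:ℝ) ≤ -(U + g - q)),
    mul_nonneg (by linarith : (0:ℝ) ≤ 0.1485 - g) (by linarith : (0:ℝ) ≤ q + 0.1381),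
    mul_nonneg (by linarith : (0:ℝ) ≤ 0.1485 - g) (by linarith : (0:ℝ) ≤ 0.128 - q),
    mul_nonneg (by linarith : (0:ℝ) ≤ 0.1485 - g) (by linarith : (0:ℝ) ≤ U),
    mul_nonneg (by linarith : (0:ℝ) ≤ 0.1485 - g) (by linarith : (0:ℝ) ≤ 0.1381 - U),
    mul_nonneg (by linarith : (0:ℝ) ≤ 0.1485 - g) (by linarith : (0:ℝ) ≤ -(U + g - q)),
    mul_nonneg (by linarith : (0:ℝ) ≤ q + 0.1381) (by linarith : (0:ℝ) ≤ 0.128 - q),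
    mul_nonneg (by linarith : (0:ℝ) ≤ q + 0.1381) (by linarith : (0:ℝ) ≤ U),
    mul_nonneg (by linarith : (0:ℝ) ≤ q + 0.1381) (by linarith : (0:ℝ) ≤ 0.1381 - U),
    mul_nonneg (by linarith : (0:ℝ) ≤ q + 0.1381) (by linarith : (0:ℝ) ≤ -(U + g - q)),
    mul_nonneg (by linarith : (0:ℝ) ≤ 0.128 - q) (by linarith : (0:ℝ) ≤ U),
    mul_nonneg (by linarith : (0:ℝ) ≤ 0.128 - q) (by linarith : (0:ℝ) ≤ 0.1381 - U),
    mul_nonneg (by linarith : (0:ℝ) ≤ 0.128 - q) (by linarith : (0:ℝ) ≤ -(U + g - q)),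
    mul_nonneg (by linarith : (0:ℝ) ≤ U) (by linarith : (0:ℝ) ≤ 0.1381 - U),
    mul_nonneg (by linarith : (0:ℝ) ≤ U) (by linarith : (0:ℝ) ≤ -(U + g - q)),
    mul_nonneg (by linarith : (0:ℝ) ≤ 0.1381 - U) (by linarith : (0:ℝ) ≤ -(U + g - q)),
    mul_nonneg (by linarith : (0:ℝ) ≤ g + 0.12) (by linarith : (0:ℝ) ≤ D1 - 0.0075),
    mul_nonneg (by linarith : (0:ℝ) ≤ g + 0.12) (by linarith : (0:ℝ) ≤ 0.0135 - D1),
    mul_nonneg (by linarith : (0:ℝ) ≤ 0.1485 - g) (by linarith : (0:ℝ) ≤ D1 - 0.0075),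
    mul_nonneg (by linarith : (0:ℝ) ≤ 0.1485 - g) (by linarith : (0:ℝ) ≤ 0.0135 - D1),
    mul_nonneg (by linarith : (0:ℝ) ≤ q + 0.1381) (by linarith : (0:ℝ) ≤ D2 + 0.0125),
    mul_nonneg (by linarith : (0:ℝ) ≤ q + 0.1381) (by linarith : (0:ℝ) ≤ -0.0065 - D2),
    mul_nonneg (by linarith : (0:ℝ) ≤ 0.128 - q) (by linarith : (0:ℝ) ≤ D2 + 0.0125),
    mul_nonneg (by linarith : (0:ℝ) ≤ 0.128 - q) (by linarith : (0:ℝ) ≤ -0.0065 - D2),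
    sq_nonneg U,
    sq_nonneg g,
    sq_nonneg q,
    sq_nonneg (U + g),
    sq_nonneg (g - q),
    sq_nonneg (U + g - q), sq_nonneg (U + g - q + 0.13), sq_nonneg (U + g - q + 0.13 + 0.5 * U), sq_nonneg (U + g - q + 0.13 - 0.5 * U), sq_nonneg (U + g - q + 0.13 + g), sq_nonneg (U + g - q + 0.13 - g), sq_nonneg (U + g - q + 0.12)]

private theorem r13pmp {U g q D1 D2 : ℝ} (hU1 : -0.1381 ≤ U) (hU2 : U ≤ 0.1381) (hg1 : -0.12 ≤ g)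
    (hg2 : g ≤ 0.1485) (hq1 : -0.1381 ≤ q) (hq2 : q ≤ 0.128)
    (d1 : 0.0075 ≤ D1) (d1p : D1 ≤ 0.0135) (d2 : -0.0125 ≤ D2) (d2p : D2 ≤ -0.0065)
    (hg : 0 ≤ g)  (hU : U ≤ 0) (hw : 0 ≤ U + g - q) :
    0 ≤ U ^ 2 + 1/8 - (g - q) ^ 2 / 2 + ((1/6 + 0.0075 - U - g) ^ 2 + (g - g ^ 2) / 2)
      + 23/11 * ((U + ((g - q) + g) / 3) / 3 + (2/3) * (0 - 0) - (2/3) * (g * D1 + q * D2))
      + 0.051 - 0.1816 - 0.003 := by
  linarith [mul_nonneg (by linarith : (0:ℝ) ≤ g) (by linarith : (0:ℝ) ≤ 0.1485 - g),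
    mul_nonneg (by linarith : (0:ℝ) ≤ g) (by linarith : (0:ℝ) ≤ q + 0.1381),
    mul_nonneg (by linarith : (0:ℝ) ≤ g) (by linarith : (0:ℝ) ≤ 0.128 - q),
    mul_nonneg (by linarith : (0:ℝ) ≤ g) (by linarith : (0:ℝ) ≤ -U),
    mul_nonneg (by linarith : (0:ℝ) ≤ g) (by linarith : (0:ℝ) ≤ U + 0.1381),
    mul_nonneg (by linarith : (0:ℝ) ≤ g) (by linarith : (0:ℝ) ≤ U + g - q),
    mul_nonneg (by linarith : (0:ℝ) ≤ 0.1485 - g) (by linarith : (0:ℝ) ≤ q + 0.1381),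
    mul_nonneg (by linarith : (0:ℝ) ≤ 0.1485 - g) (by linarith : (0:ℝ) ≤ 0.128 - q),
    mul_nonneg (by linarith : (0:ℝ) ≤ 0.1485 - g) (by linarith : (0:ℝ) ≤ -U),
    mul_nonneg (by linarith : (0:ℝ) ≤ 0.1485 - g) (by linarith : (0:ℝ) ≤ U + 0.1381),
    mul_nonneg (by linarith : (0:ℝ) ≤ 0.1485 - g) (by linarith : (0:ℝ) ≤ U + g - q),
    mul_nonneg (by linarith : (0:ℝ) ≤ q + 0.1381) (by linarith : (0:ℝ) ≤ 0.128 - q),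
    mul_nonneg (by linarith : (0:ℝ) ≤ q + 0.1381) (by linarith : (0:ℝ) ≤ -U),
    mul_nonneg (by linarith : (0:ℝ) ≤ q + 0.1381) (by linarith : (0:ℝ) ≤ U + 0.1381),
    mul_nonneg (by linarith : (0:ℝ) ≤ q + 0.1381) (by linarith : (0:ℝ) ≤ U + g - q),
    mul_nonneg (by linarith : (0:ℝ) ≤ 0.128 - q) (by linarith : (0:ℝ) ≤ -U),
    mul_nonneg (by linarith : (0:ℝ) ≤ 0.128 - q) (by linarith : (0:ℝ) ≤ U + 0.1381),
    mul_nonneg (by linarith : (0:ℝ) ≤ 0.128 - q) (by linarith : (0:ℝ) ≤ U + g - q),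
    mul_nonneg (by linarith : (0:ℝ) ≤ -U) (by linarith : (0:ℝ) ≤ U + 0.1381),
    mul_nonneg (by linarith : (0:ℝ) ≤ -U) (by linarith : (0:ℝ) ≤ U + g - q),
    mul_nonneg (by linarith : (0:ℝ) ≤ U + 0.1381) (by linarith : (0:ℝ) ≤ U + g - q),
    mul_nonneg (by linarith : (0:ℝ) ≤ g + 0.12) (by linarith : (0:ℝ) ≤ D1 - 0.0075),
    mul_nonneg (by linarith : (0:ℝ) ≤ g + 0.12) (by linarith : (0:ℝ) ≤ 0.0135 - D1),
    mul_nonneg (by linarith : (0:ℝ) ≤ 0.1485 - g) (by linarith : (0:ℝ) ≤ D1 - 0.0075),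
    mul_nonneg (by linarith : (0:ℝ) ≤ 0.1485 - g) (by linarith : (0:ℝ) ≤ 0.0135 - D1),
    mul_nonneg (by linarith : (0:ℝ) ≤ q + 0.1381) (by linarith : (0:ℝ) ≤ D2 + 0.0125),
    mul_nonneg (by linarith : (0:ℝ) ≤ q + 0.1381) (by linarith : (0:ℝ) ≤ -0.0065 - D2),
    mul_nonneg (by linarith : (0:ℝ) ≤ 0.128 - q) (by linarith : (0:ℝ) ≤ D2 + 0.0125),
    mul_nonneg (by linarith : (0:ℝ) ≤ 0.128 - q) (by linarith : (0:ℝ) ≤ -0.0065 - D2),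
    sq_nonneg U,
    sq_nonneg g,
    sq_nonneg q,
    sq_nonneg (U + g),
    sq_nonneg (g - q),
    sq_nonneg (U + g - q), sq_nonneg (U + g - q + 0.13), sq_nonneg (U + g - q + 0.13 + 0.5 * U), sq_nonneg (U + g - q + 0.13 - 0.5 * U), sq_nonneg (U + g - q + 0.13 + g), sq_nonneg (U + g - q + 0.13 - g), sq_nonneg (U + g - q + 0.12)]

private theorem r13pmm {U g q D1 D2 : ℝ} (hU1 : -0.1381 ≤ U) (hU2 : U ≤ 0.1381) (hg1 : -0.12 ≤ g)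
    (hg2 : g ≤ 0.1485) (hq1 : -0.1381 ≤ q) (hq2 : q ≤ 0.128)
    (d1 : 0.0075 ≤ D1) (d1p : D1 ≤ 0.0135) (d2 : -0.0125 ≤ D2) (d2p : D2 ≤ -0.0065)
    (hg : 0 ≤ g)  (hU : U ≤ 0) (hw : U + g - q ≤ 0) :
    0 ≤ U ^ 2 + 1/8 - (g - q) ^ 2 / 2 + ((1/6 + 0.0075 - U - g) ^ 2 + (g - g ^ 2) / 2)
      + 23/11 * ((U + ((g - q) + g) / 3) / 3 + (2/3) * ((U + g - q) ^ 2 - 0) - (2/3) * (g * D1 + q * D2))
      + 0.051 - 0.1816 - 0.003 := by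
  linarith [mul_nonneg (by linarith : (0:ℝ) ≤ g) (by linarith : (0:ℝ) ≤ 0.1485 - g),
    mul_nonneg (by linarith : (0:ℝ) ≤ g) (by linarith : (0:ℝ) ≤ q + 0.1381),
    mul_nonneg (by linarith : (0:ℝ) ≤ g) (by linarith : (0:ℝ) ≤ 0.128 - q),
    mul_nonneg (by linarith : (0:ℝ) ≤ g) (by linarith : (0:ℝ) ≤ -U),
    mul_nonneg (by linarith : (0:ℝ) ≤ g) (by linarith : (0:ℝ) ≤ U + 0.1381),
    mul_nonneg (by linarith : (0:ℝ) ≤ g) (by linarith : (0:ℝ) ≤ -(U + g - q)),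
    mul_nonneg (by linarith : (0:ℝ) ≤ 0.1485 - g) (by linarith : (0:ℝ) ≤ q + 0.1381),
    mul_nonneg (by linarith : (0:ℝ) ≤ 0.1485 - g) (by linarith : (0:ℝ) ≤ 0.128 - q),
    mul_nonneg (by linarith : (0:ℝ) ≤ 0.1485 - g) (by linarith : (0:ℝ) ≤ -U),
    mul_nonneg (by linarith : (0:ℝ) ≤ 0.1485 - g) (by linarith : (0:ℝ) ≤ U + 0.1381),
    mul_nonneg (by linarith : (0:ℝ) ≤ 0.1485 - g) (by linarith : (0:ℝ) ≤ -(U + g - q)),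
    mul_nonneg (by linarith : (0:ℝ) ≤ q + 0.1381) (by linarith : (0:ℝ) ≤ 0.128 - q),
    mul_nonneg (by linarith : (0:ℝ) ≤ q + 0.1381) (by linarith : (0:ℝ) ≤ -U),
    mul_nonneg (by linarith : (0:ℝ) ≤ q + 0.1381) (by linarith : (0:ℝ) ≤ U + 0.1381),
    mul_nonneg (by linarith : (0:ℝ) ≤ q + 0.1381) (by linarith : (0:ℝ) ≤ -(U + g - q)),
    mul_nonneg (by linarith : (0:ℝ) ≤ 0.128 - q) (by linarith : (0:ℝ) ≤ -U),
    mul_nonneg (by linarith : (0:ℝ) ≤ 0.128 - q) (by linarith : (0:ℝ) ≤ U + 0.1381),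
    mul_nonneg (by linarith : (0:ℝ) ≤ 0.128 - q) (by linarith : (0:ℝ) ≤ -(U + g - q)),
    mul_nonneg (by linarith : (0:ℝ) ≤ -U) (by linarith : (0:ℝ) ≤ U + 0.1381),
    mul_nonneg (by linarith : (0:ℝ) ≤ -U) (by linarith : (0:ℝ) ≤ -(U + g - q)),
    mul_nonneg (by linarith : (0:ℝ) ≤ U + 0.1381) (by linarith : (0:ℝ) ≤ -(U + g - q)),
    mul_nonneg (by linarith : (0:ℝ) ≤ g + 0.12) (by linarith : (0:ℝ) ≤ D1 - 0.0075),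
    mul_nonneg (by linarith : (0:ℝ) ≤ g + 0.12) (by linarith : (0:ℝ) ≤ 0.0135 - D1),
    mul_nonneg (by linarith : (0:ℝ) ≤ 0.1485 - g) (by linarith : (0:ℝ) ≤ D1 - 0.0075),
    mul_nonneg (by linarith : (0:ℝ) ≤ 0.1485 - g) (by linarith : (0:ℝ) ≤ 0.0135 - D1),
    mul_nonneg (by linarith : (0:ℝ) ≤ q + 0.1381) (by linarith : (0:ℝ) ≤ D2 + 0.0125),
    mul_nonneg (by linarith : (0:ℝ) ≤ q + 0.1381) (by linarith : (0:ℝ) ≤ -0.0065 - D2),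
    mul_nonneg (by linarith : (0:ℝ) ≤ 0.128 - q) (by linarith : (0:ℝ) ≤ D2 + 0.0125),
    mul_nonneg (by linarith : (0:ℝ) ≤ 0.128 - q) (by linarith : (0:ℝ) ≤ -0.0065 - D2),
    sq_nonneg U,
    sq_nonneg g,
    sq_nonneg q,
    sq_nonneg (U + g),
    sq_nonneg (g - q),
    sq_nonneg (U + g - q), sq_nonneg (U + g - q + 0.13), sq_nonneg (U + g - q + 0.13 + 0.5 * U), sq_nonneg (U + g - q + 0.13 - 0.5 * U), sq_nonneg (U + g - q + 0.13 + g), sq_nonneg (U + g - q + 0.13 - g), sq_nonneg (U + g - q + 0.12)]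

private theorem r13mpp {U g q D1 D2 : ℝ} (hU1 : -0.1381 ≤ U) (hU2 : U ≤ 0.1381) (hg1 : -0.12 ≤ g)
    (hg2 : g ≤ 0.1485) (hq1 : -0.1381 ≤ q) (hq2 : q ≤ 0.128)
    (d1 : 0.0075 ≤ D1) (d1p : D1 ≤ 0.0135) (d2 : -0.0125 ≤ D2) (d2p : D2 ≤ -0.0065)
    (hg : g ≤ 0)  (hU : 0 ≤ U) (hw : 0 ≤ U + g - q) :
    0 ≤ U ^ 2 + 1/8 - (g - q) ^ 2 / 2 + ((1/6 + 0.0075 - U) ^ 2 + (-g - g ^ 2) / 2)
      + 23/11 * ((U + ((g - q) + g) / 3) / 3 + (2/3) * (0 - U ^ 2) - (2/3) * (g * D1 + q * D2))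
      + 0.051 - 0.1816 - 0.003 := by
  linarith [mul_nonneg (by linarith : (0:ℝ) ≤ -g) (by linarith : (0:ℝ) ≤ g + 0.12),
    mul_nonneg (by linarith : (0:ℝ) ≤ -g) (by linarith : (0:ℝ) ≤ q + 0.1381),
    mul_nonneg (by linarith : (0:ℝ) ≤ -g) (by linarith : (0:ℝ) ≤ 0.128 - q),
    mul_nonneg (by linarith : (0:ℝ) ≤ -g) (by linarith : (0:ℝ) ≤ U),
    mul_nonneg (by linarith : (0:ℝ) ≤ -g) (by linarith : (0:ℝ) ≤ 0.1381 - U),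
    mul_nonneg (by linarith : (0:ℝ) ≤ -g) (by linarith : (0:ℝ) ≤ U + g - q),
    mul_nonneg (by linarith : (0:ℝ) ≤ g + 0.12) (by linarith : (0:ℝ) ≤ q + 0.1381),
    mul_nonneg (by linarith : (0:ℝ) ≤ g + 0.12) (by linarith : (0:ℝ) ≤ 0.128 - q),
    mul_nonneg (by linarith : (0:ℝ) ≤ g + 0.12) (by linarith : (0:ℝ) ≤ U),
    mul_nonneg (by linarith : (0:ℝ) ≤ g + 0.12) (by linarith : (0:ℝ) ≤ 0.1381 - U),
    mul_nonneg (by linarith : (0:ℝ) ≤ g + 0.12) (by linarith : (0:ℝ) ≤ U + g - q),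
    mul_nonneg (by linarith : (0:ℝ) ≤ q + 0.1381) (by linarith : (0:ℝ) ≤ 0.128 - q),
    mul_nonneg (by linarith : (0:ℝ) ≤ q + 0.1381) (by linarith : (0:ℝ) ≤ U),
    mul_nonneg (by linarith : (0:ℝ) ≤ q + 0.1381) (by linarith : (0:ℝ) ≤ 0.1381 - U),
    mul_nonneg (by linarith : (0:ℝ) ≤ q + 0.1381) (by linarith : (0:ℝ) ≤ U + g - q),
    mul_nonneg (by linarith : (0:ℝ) ≤ 0.128 - q) (by linarith : (0:ℝ) ≤ U),
    mul_nonneg (by linarith : (0:ℝ) ≤ 0.128 - q) (by linarith : (0:ℝ) ≤ 0.1381 - U),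
    mul_nonneg (by linarith : (0:ℝ) ≤ 0.128 - q) (by linarith : (0:ℝ) ≤ U + g - q),
    mul_nonneg (by linarith : (0:ℝ) ≤ U) (by linarith : (0:ℝ) ≤ 0.1381 - U),
    mul_nonneg (by linarith : (0:ℝ) ≤ U) (by linarith : (0:ℝ) ≤ U + g - q),
    mul_nonneg (by linarith : (0:ℝ) ≤ 0.1381 - U) (by linarith : (0:ℝ) ≤ U + g - q),
    mul_nonneg (by linarith : (0:ℝ) ≤ g + 0.12) (by linarith : (0:ℝ) ≤ D1 - 0.0075),
    mul_nonneg (by linarith : (0:ℝ) ≤ g + 0.12) (by linarith : (0:ℝ) ≤ 0.0135 - D1),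
    mul_nonneg (by linarith : (0:ℝ) ≤ 0.1485 - g) (by linarith : (0:ℝ) ≤ D1 - 0.0075),
    mul_nonneg (by linarith : (0:ℝ) ≤ 0.1485 - g) (by linarith : (0:ℝ) ≤ 0.0135 - D1),
    mul_nonneg (by linarith : (0:ℝ) ≤ q + 0.1381) (by linarith : (0:ℝ) ≤ D2 + 0.0125),
    mul_nonneg (by linarith : (0:ℝ) ≤ q + 0.1381) (by linarith : (0:ℝ) ≤ -0.0065 - D2),
    mul_nonneg (by linarith : (0:ℝ) ≤ 0.128 - q) (by linarith : (0:ℝ) ≤ D2 + 0.0125),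
    mul_nonneg (by linarith : (0:ℝ) ≤ 0.128 - q) (by linarith : (0:ℝ) ≤ -0.0065 - D2),
    sq_nonneg U,
    sq_nonneg g,
    sq_nonneg q,
    sq_nonneg (U + g),
    sq_nonneg (g - q),
    sq_nonneg (U + g - q), sq_nonneg (U + g - q + 0.13), sq_nonneg (U + g - q + 0.13 + 0.5 * U), sq_nonneg (U + g - q + 0.13 - 0.5 * U), sq_nonneg (U + g - q + 0.13 + g), sq_nonneg (U + g - q + 0.13 - g), sq_nonneg (U + g - q + 0.12)]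

private theorem r13mpm {U g q D1 D2 : ℝ} (hU1 : -0.1381 ≤ U) (hU2 : U ≤ 0.1381) (hg1 : -0.12 ≤ g)
    (hg2 : g ≤ 0.1485) (hq1 : -0.1381 ≤ q) (hq2 : q ≤ 0.128)
    (d1 : 0.0075 ≤ D1) (d1p : D1 ≤ 0.0135) (d2 : -0.0125 ≤ D2) (d2p : D2 ≤ -0.0065)
    (hg : g ≤ 0)  (hU : 0 ≤ U) (hw : U + g - q ≤ 0) :
    0 ≤ U ^ 2 + 1/8 - (g - q) ^ 2 / 2 + ((1/6 + 0.0075 - U) ^ 2 + (-g - g ^ 2) / 2)
      + 23/11 * ((U + ((g - q) + g) / 3) / 3 + (2/3) * ((U + g - q) ^ 2 - U ^ 2) - (2/3) * (g * D1 + q * D2))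
      + 0.051 - 0.1816 - 0.003 := by
  linarith [mul_nonneg (by linarith : (0:ℝ) ≤ -g) (by linarith : (0:ℝ) ≤ g + 0.12),
    mul_nonneg (by linarith : (0:ℝ) ≤ -g) (by linarith : (0:ℝ) ≤ q + 0.1381),
    mul_nonneg (by linarith : (0:ℝ) ≤ -g) (by linarith : (0:ℝ) ≤ 0.128 - q),
    mul_nonneg (by linarith : (0:ℝ) ≤ -g) (by linarith : (0:ℝ) ≤ U),
    mul_nonneg (by linarith : (0:ℝ) ≤ -g) (by linarith : (0:ℝ) ≤ 0.1381 - U),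
    mul_nonneg (by linarith : (0:ℝ) ≤ -g) (by linarith : (0:ℝ) ≤ -(U + g - q)),
    mul_nonneg (by linarith : (0:ℝ) ≤ g + 0.12) (by linarith : (0:ℝ) ≤ q + 0.1381),
    mul_nonneg (by linarith : (0:ℝ) ≤ g + 0.12) (by linarith : (0:ℝ) ≤ 0.128 - q),
    mul_nonneg (by linarith : (0:ℝ) ≤ g + 0.12) (by linarith : (0:ℝ) ≤ U),
    mul_nonneg (by linarith : (0:ℝ) ≤ g + 0.12) (by linarith : (0:ℝ) ≤ 0.1381 - U),
    mul_nonneg (by linarith : (0:ℝ) ≤ g + 0.12) (by linarith : (0:ℝ) ≤ -(U + g - q)),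
    mul_nonneg (by linarith : (0:ℝ) ≤ q + 0.1381) (by linarith : (0:ℝ) ≤ 0.128 - q),
    mul_nonneg (by linarith : (0:ℝ) ≤ q + 0.1381) (by linarith : (0:ℝ) ≤ U),
    mul_nonneg (by linarith : (0:ℝ) ≤ q + 0.1381) (by linarith : (0:ℝ) ≤ 0.1381 - U),
    mul_nonneg (by linarith : (0:ℝ) ≤ q + 0.1381) (by linarith : (0:ℝ) ≤ -(U + g - q)),
    mul_nonneg (by linarith : (0:ℝ) ≤ 0.128 - q) (by linarith : (0:ℝ) ≤ U),
    mul_nonneg (by linarith : (0:ℝ) ≤ 0.128 - q) (by linarith : (0:ℝ) ≤ 0.1381 - U),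
    mul_nonneg (by linarith : (0:ℝ) ≤ 0.128 - q) (by linarith : (0:ℝ) ≤ -(U + g - q)),
    mul_nonneg (by linarith : (0:ℝ) ≤ U) (by linarith : (0:ℝ) ≤ 0.1381 - U),
    mul_nonneg (by linarith : (0:ℝ) ≤ U) (by linarith : (0:ℝ) ≤ -(U + g - q)),
    mul_nonneg (by linarith : (0:ℝ) ≤ 0.1381 - U) (by linarith : (0:ℝ) ≤ -(U + g - q)),
    mul_nonneg (by linarith : (0:ℝ) ≤ g + 0.12) (by linarith : (0:ℝ) ≤ D1 - 0.0075),
    mul_nonneg (by linarith : (0:ℝ) ≤ g + 0.12) (by linarith : (0:ℝ) ≤ 0.0135 - D1),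
    mul_nonneg (by linarith : (0:ℝ) ≤ 0.1485 - g) (by linarith : (0:ℝ) ≤ D1 - 0.0075),
    mul_nonneg (by linarith : (0:ℝ) ≤ 0.1485 - g) (by linarith : (0:ℝ) ≤ 0.0135 - D1),
    mul_nonneg (by linarith : (0:ℝ) ≤ q + 0.1381) (by linarith : (0:ℝ) ≤ D2 + 0.0125),
    mul_nonneg (by linarith : (0:ℝ) ≤ q + 0.1381) (by linarith : (0:ℝ) ≤ -0.0065 - D2),
    mul_nonneg (by linarith : (0:ℝ) ≤ 0.128 - q) (by linarith : (0:ℝ) ≤ D2 + 0.0125),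
    mul_nonneg (by linarith : (0:ℝ) ≤ 0.128 - q) (by linarith : (0:ℝ) ≤ -0.0065 - D2),
    sq_nonneg U,
    sq_nonneg g,
    sq_nonneg q,
    sq_nonneg (U + g),
    sq_nonneg (g - q),
    sq_nonneg (U + g - q), sq_nonneg (U + g - q + 0.13), sq_nonneg (U + g - q + 0.13 + 0.5 * U), sq_nonneg (U + g - q + 0.13 - 0.5 * U), sq_nonneg (U + g - q + 0.13 + g), sq_nonneg (U + g - q + 0.13 - g), sq_nonneg (U + g - q + 0.12)]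

private theorem r13mmp {U g q D1 D2 : ℝ} (hU1 : -0.1381 ≤ U) (hU2 : U ≤ 0.1381) (hg1 : -0.12 ≤ g)
    (hg2 : g ≤ 0.1485) (hq1 : -0.1381 ≤ q) (hq2 : q ≤ 0.128)
    (d1 : 0.0075 ≤ D1) (d1p : D1 ≤ 0.0135) (d2 : -0.0125 ≤ D2) (d2p : D2 ≤ -0.0065)
    (hg : g ≤ 0)  (hU : U ≤ 0) (hw : 0 ≤ U + g - q) :
    0 ≤ U ^ 2 + 1/8 - (g - q) ^ 2 / 2 + ((1/6 + 0.0075 - U) ^ 2 + (-g - g ^ 2) / 2)
      + 23/11 * ((U + ((g - q) + g) / 3) / 3 + (2/3) * (0 - 0) - (2/3) * (g * D1 + q * D2))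
      + 0.051 - 0.1816 - 0.003 := by
  linarith [mul_nonneg (by linarith : (0:ℝ) ≤ -g) (by linarith : (0:ℝ) ≤ g + 0.12),
    mul_nonneg (by linarith : (0:ℝ) ≤ -g) (by linarith : (0:ℝ) ≤ q + 0.1381),
    mul_nonneg (by linarith : (0:ℝ) ≤ -g) (by linarith : (0:ℝ) ≤ 0.128 - q),
    mul_nonneg (by linarith : (0:ℝ) ≤ -g) (by linarith : (0:ℝ) ≤ -U),
    mul_nonneg (by linarith : (0:ℝ) ≤ -g) (by linarith : (0:ℝ) ≤ U + 0.1381),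
    mul_nonneg (by linarith : (0:ℝ) ≤ -g) (by linarith : (0:ℝ) ≤ U + g - q),
    mul_nonneg (by linarith : (0:ℝ) ≤ g + 0.12) (by linarith : (0:ℝ) ≤ q + 0.1381),
    mul_nonneg (by linarith : (0:ℝ) ≤ g + 0.12) (by linarith : (0:ℝ) ≤ 0.128 - q),
    mul_nonneg (by linarith : (0:ℝ) ≤ g + 0.12) (by linarith : (0:ℝ) ≤ -U),
    mul_nonneg (by linarith : (0:ℝ) ≤ g + 0.12) (by linarith : (0:ℝ) ≤ U + 0.1381),
    mul_nonneg (by linarith : (0:ℝ) ≤ g + 0.12) (by linarith : (0:ℝ) ≤ U + g - q),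
    mul_nonneg (by linarith : (0:ℝ) ≤ q + 0.1381) (by linarith : (0:ℝ) ≤ 0.128 - q),
    mul_nonneg (by linarith : (0:ℝ) ≤ q + 0.1381) (by linarith : (0:ℝ) ≤ -U),
    mul_nonneg (by linarith : (0:ℝ) ≤ q + 0.1381) (by linarith : (0:ℝ) ≤ U + 0.1381),
    mul_nonneg (by linarith : (0:ℝ) ≤ q + 0.1381) (by linarith : (0:ℝ) ≤ U + g - q),
    mul_nonneg (by linarith : (0:ℝ) ≤ 0.128 - q) (by linarith : (0:ℝ) ≤ -U),
    mul_nonneg (by linarith : (0:ℝ) ≤ 0.128 - q) (by linarith : (0:ℝ) ≤ U + 0.1381),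
    mul_nonneg (by linarith : (0:ℝ) ≤ 0.128 - q) (by linarith : (0:ℝ) ≤ U + g - q),
    mul_nonneg (by linarith : (0:ℝ) ≤ -U) (by linarith : (0:ℝ) ≤ U + 0.1381),
    mul_nonneg (by linarith : (0:ℝ) ≤ -U) (by linarith : (0:ℝ) ≤ U + g - q),
    mul_nonneg (by linarith : (0:ℝ) ≤ U + 0.1381) (by linarith : (0:ℝ) ≤ U + g - q),
    mul_nonneg (by linarith : (0:ℝ) ≤ g + 0.12) (by linarith : (0:ℝ) ≤ D1 - 0.0075),
    mul_nonneg (by linarith : (0:ℝ) ≤ g + 0.12) (by linarith : (0:ℝ) ≤ 0.0135 - D1),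
    mul_nonneg (by linarith : (0:ℝ) ≤ 0.1485 - g) (by linarith : (0:ℝ) ≤ D1 - 0.0075),
    mul_nonneg (by linarith : (0:ℝ) ≤ 0.1485 - g) (by linarith : (0:ℝ) ≤ 0.0135 - D1),
    mul_nonneg (by linarith : (0:ℝ) ≤ q + 0.1381) (by linarith : (0:ℝ) ≤ D2 + 0.0125),
    mul_nonneg (by linarith : (0:ℝ) ≤ q + 0.1381) (by linarith : (0:ℝ) ≤ -0.0065 - D2),
    mul_nonneg (by linarith : (0:ℝ) ≤ 0.128 - q) (by linarith : (0:ℝ) ≤ D2 + 0.0125),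
    mul_nonneg (by linarith : (0:ℝ) ≤ 0.128 - q) (by linarith : (0:ℝ) ≤ -0.0065 - D2),
    sq_nonneg U,
    sq_nonneg g,
    sq_nonneg q,
    sq_nonneg (U + g),
    sq_nonneg (g - q),
    sq_nonneg (U + g - q), sq_nonneg (U + g - q + 0.13), sq_nonneg (U + g - q + 0.13 + 0.5 * U), sq_nonneg (U + g - q + 0.13 - 0.5 * U), sq_nonneg (U + g - q + 0.13 + g), sq_nonneg (U + g - q + 0.13 - g), sq_nonneg (U + g - q + 0.12)]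

private theorem r13mmm {U g q D1 D2 : ℝ} (hU1 : -0.1381 ≤ U) (hU2 : U ≤ 0.1381) (hg1 : -0.12 ≤ g)
    (hg2 : g ≤ 0.1485) (hq1 : -0.1381 ≤ q) (hq2 : q ≤ 0.128)
    (d1 : 0.0075 ≤ D1) (d1p : D1 ≤ 0.0135) (d2 : -0.0125 ≤ D2) (d2p : D2 ≤ -0.0065)
    (hg : g ≤ 0)  (hU : U ≤ 0) (hw : U + g - q ≤ 0) :
    0 ≤ U ^ 2 + 1/8 - (g - q) ^ 2 / 2 + ((1/6 + 0.0075 - U) ^ 2 + (-g - g ^ 2) / 2)
      + 23/11 * ((U + ((g - q) + g) / 3) / 3 + (2/3) * ((U + g - q) ^ 2 - 0) - (2/3) * (g * D1 + q * D2))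
      + 0.051 - 0.1816 - 0.003 := by
  linarith [mul_nonneg (by linarith : (0:ℝ) ≤ -g) (by linarith : (0:ℝ) ≤ g + 0.12),
    mul_nonneg (by linarith : (0:ℝ) ≤ -g) (by linarith : (0:ℝ) ≤ q + 0.1381),
    mul_nonneg (by linarith : (0:ℝ) ≤ -g) (by linarith : (0:ℝ) ≤ 0.128 - q),
    mul_nonneg (by linarith : (0:ℝ) ≤ -g) (by linarith : (0:ℝ) ≤ -U),
    mul_nonneg (by linarith : (0:ℝ) ≤ -g) (by linarith : (0:ℝ) ≤ U + 0.1381),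
    mul_nonneg (by linarith : (0:ℝ) ≤ -g) (by linarith : (0:ℝ) ≤ -(U + g - q)),
    mul_nonneg (by linarith : (0:ℝ) ≤ g + 0.12) (by linarith : (0:ℝ) ≤ q + 0.1381),
    mul_nonneg (by linarith : (0:ℝ) ≤ g + 0.12) (by linarith : (0:ℝ) ≤ 0.128 - q),
    mul_nonneg (by linarith : (0:ℝ) ≤ g + 0.12) (by linarith : (0:ℝ) ≤ -U),
    mul_nonneg (by linarith : (0:ℝ) ≤ g + 0.12) (by linarith : (0:ℝ) ≤ U + 0.1381),
    mul_nonneg (by linarith : (0:ℝ) ≤ g + 0.12) (by linarith : (0:ℝ) ≤ -(U + g - q)),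
    mul_nonneg (by linarith : (0:ℝ) ≤ q + 0.1381) (by linarith : (0:ℝ) ≤ 0.128 - q),
    mul_nonneg (by linarith : (0:ℝ) ≤ q + 0.1381) (by linarith : (0:ℝ) ≤ -U),
    mul_nonneg (by linarith : (0:ℝ) ≤ q + 0.1381) (by linarith : (0:ℝ) ≤ U + 0.1381),
    mul_nonneg (by linarith : (0:ℝ) ≤ q + 0.1381) (by linarith : (0:ℝ) ≤ -(U + g - q)),
    mul_nonneg (by linarith : (0:ℝ) ≤ 0.128 - q) (by linarith : (0:ℝ) ≤ -U),
    mul_nonneg (by linarith : (0:ℝ) ≤ 0.128 - q) (by linarith : (0:ℝ) ≤ U + 0.1381),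
    mul_nonneg (by linarith : (0:ℝ) ≤ 0.128 - q) (by linarith : (0:ℝ) ≤ -(U + g - q)),
    mul_nonneg (by linarith : (0:ℝ) ≤ -U) (by linarith : (0:ℝ) ≤ U + 0.1381),
    mul_nonneg (by linarith : (0:ℝ) ≤ -U) (by linarith : (0:ℝ) ≤ -(U + g - q)),
    mul_nonneg (by linarith : (0:ℝ) ≤ U + 0.1381) (by linarith : (0:ℝ) ≤ -(U + g - q)),
    mul_nonneg (by linarith : (0:ℝ) ≤ g + 0.12) (by linarith : (0:ℝ) ≤ D1 - 0.0075),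
    mul_nonneg (by linarith : (0:ℝ) ≤ g + 0.12) (by linarith : (0:ℝ) ≤ 0.0135 - D1),
    mul_nonneg (by linarith : (0:ℝ) ≤ 0.1485 - g) (by linarith : (0:ℝ) ≤ D1 - 0.0075),
    mul_nonneg (by linarith : (0:ℝ) ≤ 0.1485 - g) (by linarith : (0:ℝ) ≤ 0.0135 - D1),
    mul_nonneg (by linarith : (0:ℝ) ≤ q + 0.1381) (by linarith : (0:ℝ) ≤ D2 + 0.0125),
    mul_nonneg (by linarith : (0:ℝ) ≤ q + 0.1381) (by linarith : (0:ℝ) ≤ -0.0065 - D2),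
    mul_nonneg (by linarith : (0:ℝ) ≤ 0.128 - q) (by linarith : (0:ℝ) ≤ D2 + 0.0125),
    mul_nonneg (by linarith : (0:ℝ) ≤ 0.128 - q) (by linarith : (0:ℝ) ≤ -0.0065 - D2),
    sq_nonneg U,
    sq_nonneg g,
    sq_nonneg q,
    sq_nonneg (U + g),
    sq_nonneg (g - q),
    sq_nonneg (U + g - q), sq_nonneg (U + g - q + 0.13), sq_nonneg (U + g - q + 0.13 + 0.5 * U), sq_nonneg (U + g - q + 0.13 - 0.5 * U), sq_nonneg (U + g - q + 0.13 + g), sq_nonneg (U + g - q + 0.13 - g), sq_nonneg (U + g - q + 0.12)]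

private theorem r12ppp {U g q D1 D2 : ℝ} (hU1 : -0.1381 ≤ U) (hU2 : U ≤ 0.1381) (hg1 : -0.12 ≤ g)
    (hg2 : g ≤ 0.1485) (hq1 : -0.1381 ≤ q) (hq2 : q ≤ 0.128)
    (d1 : -0.006 ≤ D1) (d1p : D1 ≤ 0.001) (d2 : 0 ≤ D2) (d2p : D2 ≤ 0.007)
     (hq : 0 ≤ q) (hU : 0 ≤ U) (hw : 0 ≤ U + g - q) :
    0 ≤ U ^ 2 + 1/8 - (g - q) ^ 2 / 2 + ((1/3 - U - g - D2) ^ 2 + (q - q ^ 2) / 2)
      + 23/11 * ((U + ((g - q) + g) / 3) / 3 + (2/3) * (0 - U ^ 2) - (2/3) * (g * D1 + q * D2))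
      + 6.8 * D2 - 0.1816 - 0.003 := by
  linarith [mul_nonneg (by linarith : (0:ℝ) ≤ q) (by linarith : (0:ℝ) ≤ 0.128 - q),
    mul_nonneg (by linarith : (0:ℝ) ≤ q) (by linarith : (0:ℝ) ≤ g + 0.12),
    mul_nonneg (by linarith : (0:ℝ) ≤ q) (by linarith : (0:ℝ) ≤ 0.1485 - g),
    mul_nonneg (by linarith : (0:ℝ) ≤ q) (by linarith : (0:ℝ) ≤ U),
    mul_nonneg (by linarith : (0:ℝ) ≤ q) (by linarith : (0:ℝ) ≤ 0.1381 - U),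
    mul_nonneg (by linarith : (0:ℝ) ≤ q) (by linarith : (0:ℝ) ≤ U + g - q),
    mul_nonneg (by linarith : (0:ℝ) ≤ 0.128 - q) (by linarith : (0:ℝ) ≤ g + 0.12),
    mul_nonneg (by linarith : (0:ℝ) ≤ 0.128 - q) (by linarith : (0:ℝ) ≤ 0.1485 - g),
    mul_nonneg (by linarith : (0:ℝ) ≤ 0.128 - q) (by linarith : (0:ℝ) ≤ U),
    mul_nonneg (by linarith : (0:ℝ) ≤ 0.128 - q) (by linarith : (0:ℝ) ≤ 0.1381 - U),
    mul_nonneg (by linarith : (0:ℝ) ≤ 0.128 - q) (by linarith : (0:ℝ) ≤ U + g - q),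
    mul_nonneg (by linarith : (0:ℝ) ≤ g + 0.12) (by linarith : (0:ℝ) ≤ 0.1485 - g),
    mul_nonneg (by linarith : (0:ℝ) ≤ g + 0.12) (by linarith : (0:ℝ) ≤ U),
    mul_nonneg (by linarith : (0:ℝ) ≤ g + 0.12) (by linarith : (0:ℝ) ≤ 0.1381 - U),
    mul_nonneg (by linarith : (0:ℝ) ≤ g + 0.12) (by linarith : (0:ℝ) ≤ U + g - q),
    mul_nonneg (by linarith : (0:ℝ) ≤ 0.1485 - g) (by linarith : (0:ℝ) ≤ U),
    mul_nonneg (by linarith : (0:ℝ) ≤ 0.1485 - g) (by linarith : (0:ℝ) ≤ 0.1381 - U),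
    mul_nonneg (by linarith : (0:ℝ) ≤ 0.1485 - g) (by linarith : (0:ℝ) ≤ U + g - q),
    mul_nonneg (by linarith : (0:ℝ) ≤ U) (by linarith : (0:ℝ) ≤ 0.1381 - U),
    mul_nonneg (by linarith : (0:ℝ) ≤ U) (by linarith : (0:ℝ) ≤ U + g - q),
    mul_nonneg (by linarith : (0:ℝ) ≤ 0.1381 - U) (by linarith : (0:ℝ) ≤ U + g - q),
    mul_nonneg (by linarith : (0:ℝ) ≤ g + 0.12) (by linarith : (0:ℝ) ≤ D1 + 0.006),
    mul_nonneg (by linarith : (0:ℝ) ≤ g + 0.12) (by linarith : (0:ℝ) ≤ 0.001 - D1),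
    mul_nonneg (by linarith : (0:ℝ) ≤ 0.1485 - g) (by linarith : (0:ℝ) ≤ D1 + 0.006),
    mul_nonneg (by linarith : (0:ℝ) ≤ 0.1485 - g) (by linarith : (0:ℝ) ≤ 0.001 - D1),
    mul_nonneg (by linarith : (0:ℝ) ≤ q + 0.1381) (by linarith : (0:ℝ) ≤ D2),
    mul_nonneg (by linarith : (0:ℝ) ≤ q + 0.1381) (by linarith : (0:ℝ) ≤ 0.007 - D2),
    mul_nonneg (by linarith : (0:ℝ) ≤ 0.128 - q) (by linarith : (0:ℝ) ≤ D2),
    mul_nonneg (by linarith : (0:ℝ) ≤ 0.128 - q) (by linarith : (0:ℝ) ≤ 0.007 - D2),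
    mul_nonneg (by linarith : (0:ℝ) ≤ 0.1381 + U) (by linarith : (0:ℝ) ≤ D2),
    mul_nonneg (by linarith : (0:ℝ) ≤ 0.1381 - U) (by linarith : (0:ℝ) ≤ D2),
    mul_nonneg (by linarith : (0:ℝ) ≤ g + 0.12) (by linarith : (0:ℝ) ≤ D2),
    mul_nonneg (by linarith : (0:ℝ) ≤ 0.1485 - g) (by linarith : (0:ℝ) ≤ D2),
    mul_nonneg (by linarith : (0:ℝ) ≤ 0.1381 + U) (by linarith : (0:ℝ) ≤ 0.007 - D2),
    mul_nonneg (by linarith : (0:ℝ) ≤ 0.1381 - U) (by linarith : (0:ℝ) ≤ 0.007 - D2),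
    mul_nonneg (by linarith : (0:ℝ) ≤ g + 0.12) (by linarith : (0:ℝ) ≤ 0.007 - D2),
    mul_nonneg (by linarith : (0:ℝ) ≤ 0.1485 - g) (by linarith : (0:ℝ) ≤ 0.007 - D2),
    sq_nonneg D2,
    sq_nonneg U,
    sq_nonneg g,
    sq_nonneg q,
    sq_nonneg (U + g),
    sq_nonneg (g - q),
    sq_nonneg (U + g - q), sq_nonneg (U + g - q + 0.13), sq_nonneg (U + g - q + 0.13 + 0.5 * U), sq_nonneg (U + g - q + 0.13 - 0.5 * U), sq_nonneg (U + g - q + 0.13 + g), sq_nonneg (U + g - q + 0.13 - g), sq_nonneg (U + g - q + 0.12)]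

private theorem r12ppm {U g q D1 D2 : ℝ} (hU1 : -0.1381 ≤ U) (hU2 : U ≤ 0.1381) (hg1 : -0.12 ≤ g)
    (hg2 : g ≤ 0.1485) (hq1 : -0.1381 ≤ q) (hq2 : q ≤ 0.128)
    (d1 : -0.006 ≤ D1) (d1p : D1 ≤ 0.001) (d2 : 0 ≤ D2) (d2p : D2 ≤ 0.007)
     (hq : 0 ≤ q) (hU : 0 ≤ U) (hw : U + g - q ≤ 0) :
    0 ≤ U ^ 2 + 1/8 - (g - q) ^ 2 / 2 + ((1/3 - U - g - D2) ^ 2 + (q - q ^ 2) / 2)
      + 23/11 * ((U + ((g - q) + g) / 3) / 3 + (2/3) * ((U + g - q) ^ 2 - U ^ 2) - (2/3) * (g * D1 + q * D2))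
      + 6.8 * D2 - 0.1816 - 0.003 := by
  linarith [mul_nonneg (by linarith : (0:ℝ) ≤ q) (by linarith : (0:ℝ) ≤ 0.128 - q),
    mul_nonneg (by linarith : (0:ℝ) ≤ q) (by linarith : (0:ℝ) ≤ g + 0.12),
    mul_nonneg (by linarith : (0:ℝ) ≤ q) (by linarith : (0:ℝ) ≤ 0.1485 - g),
    mul_nonneg (by linarith : (0:ℝ) ≤ q) (by linarith : (0:ℝ) ≤ U),
    mul_nonneg (by linarith : (0:ℝ) ≤ q) (by linarith : (0:ℝ) ≤ 0.1381 - U),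
    mul_nonneg (by linarith : (0:ℝ) ≤ q) (by linarith : (0:ℝ) ≤ -(U + g - q)),
    mul_nonneg (by linarith : (0:ℝ) ≤ 0.128 - q) (by linarith : (0:ℝ) ≤ g + 0.12),
    mul_nonneg (by linarith : (0:ℝ) ≤ 0.128 - q) (by linarith : (0:ℝ) ≤ 0.1485 - g),
    mul_nonneg (by linarith : (0:ℝ) ≤ 0.128 - q) (by linarith : (0:ℝ) ≤ U),
    mul_nonneg (by linarith : (0:ℝ) ≤ 0.128 - q) (by linarith : (0:ℝ) ≤ 0.1381 - U),
    mul_nonneg (by linarith : (0:ℝ) ≤ 0.128 - q) (by linarith : (0:ℝ) ≤ -(U + g - q)),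
    mul_nonneg (by linarith : (0:ℝ) ≤ g + 0.12) (by linarith : (0:ℝ) ≤ 0.1485 - g),
    mul_nonneg (by linarith : (0:ℝ) ≤ g + 0.12) (by linarith : (0:ℝ) ≤ U),
    mul_nonneg (by linarith : (0:ℝ) ≤ g + 0.12) (by linarith : (0:ℝ) ≤ 0.1381 - U),
    mul_nonneg (by linarith : (0:ℝ) ≤ g + 0.12) (by linarith : (0:ℝ) ≤ -(U + g - q)),
    mul_nonneg (by linarith : (0:ℝ) ≤ 0.1485 - g) (by linarith : (0:ℝ) ≤ U),
    mul_nonneg (by linarith : (0:ℝ) ≤ 0.1485 - g) (by linarith : (0:ℝ) ≤ 0.1381 - U),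
    mul_nonneg (by linarith : (0:ℝ) ≤ 0.1485 - g) (by linarith : (0:ℝ) ≤ -(U + g - q)),
    mul_nonneg (by linarith : (0:ℝ) ≤ U) (by linarith : (0:ℝ) ≤ 0.1381 - U),
    mul_nonneg (by linarith : (0:ℝ) ≤ U) (by linarith : (0:ℝ) ≤ -(U + g - q)),
    mul_nonneg (by linarith : (0:ℝ) ≤ 0.1381 - U) (by linarith : (0:ℝ) ≤ -(U + g - q)),
    mul_nonneg (by linarith : (0:ℝ) ≤ g + 0.12) (by linarith : (0:ℝ) ≤ D1 + 0.006),
    mul_nonneg (by linarith : (0:ℝ) ≤ g + 0.12) (by linarith : (0:ℝ) ≤ 0.001 - D1),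
    mul_nonneg (by linarith : (0:ℝ) ≤ 0.1485 - g) (by linarith : (0:ℝ) ≤ D1 + 0.006),
    mul_nonneg (by linarith : (0:ℝ) ≤ 0.1485 - g) (by linarith : (0:ℝ) ≤ 0.001 - D1),
    mul_nonneg (by linarith : (0:ℝ) ≤ q + 0.1381) (by linarith : (0:ℝ) ≤ D2),
    mul_nonneg (by linarith : (0:ℝ) ≤ q + 0.1381) (by linarith : (0:ℝ) ≤ 0.007 - D2),
    mul_nonneg (by linarith : (0:ℝ) ≤ 0.128 - q) (by linarith : (0:ℝ) ≤ D2),
    mul_nonneg (by linarith : (0:ℝ) ≤ 0.128 - q) (by linarith : (0:ℝ) ≤ 0.007 - D2),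
    mul_nonneg (by linarith : (0:ℝ) ≤ 0.1381 + U) (by linarith : (0:ℝ) ≤ D2),
    mul_nonneg (by linarith : (0:ℝ) ≤ 0.1381 - U) (by linarith : (0:ℝ) ≤ D2),
    mul_nonneg (by linarith : (0:ℝ) ≤ g + 0.12) (by linarith : (0:ℝ) ≤ D2),
    mul_nonneg (by linarith : (0:ℝ) ≤ 0.1485 - g) (by linarith : (0:ℝ) ≤ D2),
    mul_nonneg (by linarith : (0:ℝ) ≤ 0.1381 + U) (by linarith : (0:ℝ) ≤ 0.007 - D2),
    mul_nonneg (by linarith : (0:ℝ) ≤ 0.1381 - U) (by linarith : (0:ℝ) ≤ 0.007 - D2),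
    mul_nonneg (by linarith : (0:ℝ) ≤ g + 0.12) (by linarith : (0:ℝ) ≤ 0.007 - D2),
    mul_nonneg (by linarith : (0:ℝ) ≤ 0.1485 - g) (by linarith : (0:ℝ) ≤ 0.007 - D2),
    sq_nonneg D2,
    sq_nonneg U,
    sq_nonneg g,
    sq_nonneg q,
    sq_nonneg (U + g),
    sq_nonneg (g - q),
    sq_nonneg (U + g - q), sq_nonneg (U + g - q + 0.13), sq_nonneg (U + g - q + 0.13 + 0.5 * U), sq_nonneg (U + g - q + 0.13 - 0.5 * U), sq_nonneg (U + g - q + 0.13 + g), sq_nonneg (U + g - q + 0.13 - g), sq_nonneg (U + g - q + 0.12)]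

private theorem r12pmp {U g q D1 D2 : ℝ} (hU1 : -0.1381 ≤ U) (hU2 : U ≤ 0.1381) (hg1 : -0.12 ≤ g)
    (hg2 : g ≤ 0.1485) (hq1 : -0.1381 ≤ q) (hq2 : q ≤ 0.128)
    (d1 : -0.006 ≤ D1) (d1p : D1 ≤ 0.001) (d2 : 0 ≤ D2) (d2p : D2 ≤ 0.007)
     (hq : 0 ≤ q) (hU : U ≤ 0) (hw : 0 ≤ U + g - q) :
    0 ≤ U ^ 2 + 1/8 - (g - q) ^ 2 / 2 + ((1/3 - U - g - D2) ^ 2 + (q - q ^ 2) / 2)
      + 23/11 * ((U + ((g - q) + g) / 3) / 3 + (2/3) * (0 - 0) - (2/3) * (g * D1 + q * D2))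
      + 6.8 * D2 - 0.1816 - 0.003 := by
  linarith [mul_nonneg (by linarith : (0:ℝ) ≤ q) (by linarith : (0:ℝ) ≤ 0.128 - q),
    mul_nonneg (by linarith : (0:ℝ) ≤ q) (by linarith : (0:ℝ) ≤ g + 0.12),
    mul_nonneg (by linarith : (0:ℝ) ≤ q) (by linarith : (0:ℝ) ≤ 0.1485 - g),
    mul_nonneg (by linarith : (0:ℝ) ≤ q) (by linarith : (0:ℝ) ≤ -U),
    mul_nonneg (by linarith : (0:ℝ) ≤ q) (by linarith : (0:ℝ) ≤ U + 0.1381),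
    mul_nonneg (by linarith : (0:ℝ) ≤ q) (by linarith : (0:ℝ) ≤ U + g - q),
    mul_nonneg (by linarith : (0:ℝ) ≤ 0.128 - q) (by linarith : (0:ℝ) ≤ g + 0.12),
    mul_nonneg (by linarith : (0:ℝ) ≤ 0.128 - q) (by linarith : (0:ℝ) ≤ 0.1485 - g),
    mul_nonneg (by linarith : (0:ℝ) ≤ 0.128 - q) (by linarith : (0:ℝ) ≤ -U),
    mul_nonneg (by linarith : (0:ℝ) ≤ 0.128 - q) (by linarith : (0:ℝ) ≤ U + 0.1381),
    mul_nonneg (by linarith : (0:ℝ) ≤ 0.128 - q) (by linarith : (0:ℝ) ≤ U + g - q),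
    mul_nonneg (by linarith : (0:ℝ) ≤ g + 0.12) (by linarith : (0:ℝ) ≤ 0.1485 - g),
    mul_nonneg (by linarith : (0:ℝ) ≤ g + 0.12) (by linarith : (0:ℝ) ≤ -U),
    mul_nonneg (by linarith : (0:ℝ) ≤ g + 0.12) (by linarith : (0:ℝ) ≤ U + 0.1381),
    mul_nonneg (by linarith : (0:ℝ) ≤ g + 0.12) (by linarith : (0:ℝ) ≤ U + g - q),
    mul_nonneg (by linarith : (0:ℝ) ≤ 0.1485 - g) (by linarith : (0:ℝ) ≤ -U),
    mul_nonneg (by linarith : (0:ℝ) ≤ 0.1485 - g) (by linarith : (0:ℝ) ≤ U + 0.1381),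
    mul_nonneg (by linarith : (0:ℝ) ≤ 0.1485 - g) (by linarith : (0:ℝ) ≤ U + g - q),
    mul_nonneg (by linarith : (0:ℝ) ≤ -U) (by linarith : (0:ℝ) ≤ U + 0.1381),
    mul_nonneg (by linarith : (0:ℝ) ≤ -U) (by linarith : (0:ℝ) ≤ U + g - q),
    mul_nonneg (by linarith : (0:ℝ) ≤ U + 0.1381) (by linarith : (0:ℝ) ≤ U + g - q),
    mul_nonneg (by linarith : (0:ℝ) ≤ g + 0.12) (by linarith : (0:ℝ) ≤ D1 + 0.006),
    mul_nonneg (by linarith : (0:ℝ) ≤ g + 0.12) (by linarith : (0:ℝ) ≤ 0.001 - D1),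
    mul_nonneg (by linarith : (0:ℝ) ≤ 0.1485 - g) (by linarith : (0:ℝ) ≤ D1 + 0.006),
    mul_nonneg (by linarith : (0:ℝ) ≤ 0.1485 - g) (by linarith : (0:ℝ) ≤ 0.001 - D1),
    mul_nonneg (by linarith : (0:ℝ) ≤ q + 0.1381) (by linarith : (0:ℝ) ≤ D2),
    mul_nonneg (by linarith : (0:ℝ) ≤ q + 0.1381) (by linarith : (0:ℝ) ≤ 0.007 - D2),
    mul_nonneg (by linarith : (0:ℝ) ≤ 0.128 - q) (by linarith : (0:ℝ) ≤ D2),
    mul_nonneg (by linarith : (0:ℝ) ≤ 0.128 - q) (by linarith : (0:ℝ) ≤ 0.007 - D2),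
    mul_nonneg (by linarith : (0:ℝ) ≤ 0.1381 + U) (by linarith : (0:ℝ) ≤ D2),
    mul_nonneg (by linarith : (0:ℝ) ≤ 0.1381 - U) (by linarith : (0:ℝ) ≤ D2),
    mul_nonneg (by linarith : (0:ℝ) ≤ g + 0.12) (by linarith : (0:ℝ) ≤ D2),
    mul_nonneg (by linarith : (0:ℝ) ≤ 0.1485 - g) (by linarith : (0:ℝ) ≤ D2),
    mul_nonneg (by linarith : (0:ℝ) ≤ 0.1381 + U) (by linarith : (0:ℝ) ≤ 0.007 - D2),
    mul_nonneg (by linarith : (0:ℝ) ≤ 0.1381 - U) (by linarith : (0:ℝ) ≤ 0.007 - D2),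
    mul_nonneg (by linarith : (0:ℝ) ≤ g + 0.12) (by linarith : (0:ℝ) ≤ 0.007 - D2),
    mul_nonneg (by linarith : (0:ℝ) ≤ 0.1485 - g) (by linarith : (0:ℝ) ≤ 0.007 - D2),
    sq_nonneg D2,
    sq_nonneg U,
    sq_nonneg g,
    sq_nonneg q,
    sq_nonneg (U + g),
    sq_nonneg (g - q),
    sq_nonneg (U + g - q), sq_nonneg (U + g - q + 0.13), sq_nonneg (U + g - q + 0.13 + 0.5 * U), sq_nonneg (U + g - q + 0.13 - 0.5 * U), sq_nonneg (U + g - q + 0.13 + g), sq_nonneg (U + g - q + 0.13 - g), sq_nonneg (U + g - q + 0.12)]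

private theorem r12pmm {U g q D1 D2 : ℝ} (hU1 : -0.1381 ≤ U) (hU2 : U ≤ 0.1381) (hg1 : -0.12 ≤ g)
    (hg2 : g ≤ 0.1485) (hq1 : -0.1381 ≤ q) (hq2 : q ≤ 0.128)
    (d1 : -0.006 ≤ D1) (d1p : D1 ≤ 0.001) (d2 : 0 ≤ D2) (d2p : D2 ≤ 0.007)
     (hq : 0 ≤ q) (hU : U ≤ 0) (hw : U + g - q ≤ 0) :
    0 ≤ U ^ 2 + 1/8 - (g - q) ^ 2 / 2 + ((1/3 - U - g - D2) ^ 2 + (q - q ^ 2) / 2)
      + 23/11 * ((U + ((g - q) + g) / 3) / 3 + (2/3) * ((U + g - q) ^ 2 - 0) - (2/3) * (g * D1 + q * D2))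
      + 6.8 * D2 - 0.1816 - 0.003 := by
  linarith [mul_nonneg (by linarith : (0:ℝ) ≤ q) (by linarith : (0:ℝ) ≤ 0.128 - q),
    mul_nonneg (by linarith : (0:ℝ) ≤ q) (by linarith : (0:ℝ) ≤ g + 0.12),
    mul_nonneg (by linarith : (0:ℝ) ≤ q) (by linarith : (0:ℝ) ≤ 0.1485 - g),
    mul_nonneg (by linarith : (0:ℝ) ≤ q) (by linarith : (0:ℝ) ≤ -U),
    mul_nonneg (by linarith : (0:ℝ) ≤ q) (by linarith : (0:ℝ) ≤ U + 0.1381),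
    mul_nonneg (by linarith : (0:ℝ) ≤ q) (by linarith : (0:ℝ) ≤ -(U + g - q)),
    mul_nonneg (by linarith : (0:ℝ) ≤ 0.128 - q) (by linarith : (0:ℝ) ≤ g + 0.12),
    mul_nonneg (by linarith : (0:ℝ) ≤ 0.128 - q) (by linarith : (0:ℝ) ≤ 0.1485 - g),
    mul_nonneg (by linarith : (0:ℝ) ≤ 0.128 - q) (by linarith : (0:ℝ) ≤ -U),
    mul_nonneg (by linarith : (0:ℝ) ≤ 0.128 - q) (by linarith : (0:ℝ) ≤ U + 0.1381),
    mul_nonneg (by linarith : (0:ℝ) ≤ 0.128 - q) (by linarith : (0:ℝ) ≤ -(U + g - q)),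
    mul_nonneg (by linarith : (0:ℝ) ≤ g + 0.12) (by linarith : (0:ℝ) ≤ 0.1485 - g),
    mul_nonneg (by linarith : (0:ℝ) ≤ g + 0.12) (by linarith : (0:ℝ) ≤ -U),
    mul_nonneg (by linarith : (0:ℝ) ≤ g + 0.12) (by linarith : (0:ℝ) ≤ U + 0.1381),
    mul_nonneg (by linarith : (0:ℝ) ≤ g + 0.12) (by linarith : (0:ℝ) ≤ -(U + g - q)),
    mul_nonneg (by linarith : (0:ℝ) ≤ 0.1485 - g) (by linarith : (0:ℝ) ≤ -U),
    mul_nonneg (by linarith : (0:ℝ) ≤ 0.1485 - g) (by linarith : (0:ℝ) ≤ U + 0.1381),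
    mul_nonneg (by linarith : (0:ℝ) ≤ 0.1485 - g) (by linarith : (0:ℝ) ≤ -(U + g - q)),
    mul_nonneg (by linarith : (0:ℝ) ≤ -U) (by linarith : (0:ℝ) ≤ U + 0.1381),
    mul_nonneg (by linarith : (0:ℝ) ≤ -U) (by linarith : (0:ℝ) ≤ -(U + g - q)),
    mul_nonneg (by linarith : (0:ℝ) ≤ U + 0.1381) (by linarith : (0:ℝ) ≤ -(U + g - q)),
    mul_nonneg (by linarith : (0:ℝ) ≤ g + 0.12) (by linarith : (0:ℝ) ≤ D1 + 0.006),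
    mul_nonneg (by linarith : (0:ℝ) ≤ g + 0.12) (by linarith : (0:ℝ) ≤ 0.001 - D1),
    mul_nonneg (by linarith : (0:ℝ) ≤ 0.1485 - g) (by linarith : (0:ℝ) ≤ D1 + 0.006),
    mul_nonneg (by linarith : (0:ℝ) ≤ 0.1485 - g) (by linarith : (0:ℝ) ≤ 0.001 - D1),
    mul_nonneg (by linarith : (0:ℝ) ≤ q + 0.1381) (by linarith : (0:ℝ) ≤ D2),
    mul_nonneg (by linarith : (0:ℝ) ≤ q + 0.1381) (by linarith : (0:ℝ) ≤ 0.007 - D2),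
    mul_nonneg (by linarith : (0:ℝ) ≤ 0.128 - q) (by linarith : (0:ℝ) ≤ D2),
    mul_nonneg (by linarith : (0:ℝ) ≤ 0.128 - q) (by linarith : (0:ℝ) ≤ 0.007 - D2),
    mul_nonneg (by linarith : (0:ℝ) ≤ 0.1381 + U) (by linarith : (0:ℝ) ≤ D2),
    mul_nonneg (by linarith : (0:ℝ) ≤ 0.1381 - U) (by linarith : (0:ℝ) ≤ D2),
    mul_nonneg (by linarith : (0:ℝ) ≤ g + 0.12) (by linarith : (0:ℝ) ≤ D2),
    mul_nonneg (by linarith : (0:ℝ) ≤ 0.1485 - g) (by linarith : (0:ℝ) ≤ D2),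
    mul_nonneg (by linarith : (0:ℝ) ≤ 0.1381 + U) (by linarith : (0:ℝ) ≤ 0.007 - D2),
    mul_nonneg (by linarith : (0:ℝ) ≤ 0.1381 - U) (by linarith : (0:ℝ) ≤ 0.007 - D2),
    mul_nonneg (by linarith : (0:ℝ) ≤ g + 0.12) (by linarith : (0:ℝ) ≤ 0.007 - D2),
    mul_nonneg (by linarith : (0:ℝ) ≤ 0.1485 - g) (by linarith : (0:ℝ) ≤ 0.007 - D2),
    sq_nonneg D2,
    sq_nonneg U,
    sq_nonneg g,
    sq_nonneg q,
    sq_nonneg (U + g),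
    sq_nonneg (g - q),
    sq_nonneg (U + g - q), sq_nonneg (U + g - q + 0.13), sq_nonneg (U + g - q + 0.13 + 0.5 * U), sq_nonneg (U + g - q + 0.13 - 0.5 * U), sq_nonneg (U + g - q + 0.13 + g), sq_nonneg (U + g - q + 0.13 - g), sq_nonneg (U + g - q + 0.12)]

private theorem r12mpp {U g q D1 D2 : ℝ} (hU1 : -0.1381 ≤ U) (hU2 : U ≤ 0.1381) (hg1 : -0.12 ≤ g)
    (hg2 : g ≤ 0.1485) (hq1 : -0.1381 ≤ q) (hq2 : q ≤ 0.128)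
    (d1 : -0.006 ≤ D1) (d1p : D1 ≤ 0.001) (d2 : 0 ≤ D2) (d2p : D2 ≤ 0.007)
     (hq : q ≤ 0) (hU : 0 ≤ U) (hw : 0 ≤ U + g - q) :
    0 ≤ U ^ 2 + 1/8 - (g - q) ^ 2 / 2 + ((1/3 - U - g + q - D2) ^ 2 + (-q - q ^ 2) / 2)
      + 23/11 * ((U + ((g - q) + g) / 3) / 3 + (2/3) * (0 - U ^ 2) - (2/3) * (g * D1 + q * D2))
      + 6.8 * D2 - 0.1816 - 0.003 := by
  linarith [mul_nonneg (by linarith : (0:ℝ) ≤ -q) (by linarith : (0:ℝ) ≤ q + 0.1381),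
    mul_nonneg (by linarith : (0:ℝ) ≤ -q) (by linarith : (0:ℝ) ≤ g + 0.12),
    mul_nonneg (by linarith : (0:ℝ) ≤ -q) (by linarith : (0:ℝ) ≤ 0.1485 - g),
    mul_nonneg (by linarith : (0:ℝ) ≤ -q) (by linarith : (0:ℝ) ≤ U),
    mul_nonneg (by linarith : (0:ℝ) ≤ -q) (by linarith : (0:ℝ) ≤ 0.1381 - U),
    mul_nonneg (by linarith : (0:ℝ) ≤ -q) (by linarith : (0:ℝ) ≤ U + g - q),
    mul_nonneg (by linarith : (0:ℝ) ≤ q + 0.1381) (by linarith : (0:ℝ) ≤ g + 0.12),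
    mul_nonneg (by linarith : (0:ℝ) ≤ q + 0.1381) (by linarith : (0:ℝ) ≤ 0.1485 - g),
    mul_nonneg (by linarith : (0:ℝ) ≤ q + 0.1381) (by linarith : (0:ℝ) ≤ U),
    mul_nonneg (by linarith : (0:ℝ) ≤ q + 0.1381) (by linarith : (0:ℝ) ≤ 0.1381 - U),
    mul_nonneg (by linarith : (0:ℝ) ≤ q + 0.1381) (by linarith : (0:ℝ) ≤ U + g - q),
    mul_nonneg (by linarith : (0:ℝ) ≤ g + 0.12) (by linarith : (0:ℝ) ≤ 0.1485 - g),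
    mul_nonneg (by linarith : (0:ℝ) ≤ g + 0.12) (by linarith : (0:ℝ) ≤ U),
    mul_nonneg (by linarith : (0:ℝ) ≤ g + 0.12) (by linarith : (0:ℝ) ≤ 0.1381 - U),
    mul_nonneg (by linarith : (0:ℝ) ≤ g + 0.12) (by linarith : (0:ℝ) ≤ U + g - q),
    mul_nonneg (by linarith : (0:ℝ) ≤ 0.1485 - g) (by linarith : (0:ℝ) ≤ U),
    mul_nonneg (by linarith : (0:ℝ) ≤ 0.1485 - g) (by linarith : (0:ℝ) ≤ 0.1381 - U),
    mul_nonneg (by linarith : (0:ℝ) ≤ 0.1485 - g) (by linarith : (0:ℝ) ≤ U + g - q),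
    mul_nonneg (by linarith : (0:ℝ) ≤ U) (by linarith : (0:ℝ) ≤ 0.1381 - U),
    mul_nonneg (by linarith : (0:ℝ) ≤ U) (by linarith : (0:ℝ) ≤ U + g - q),
    mul_nonneg (by linarith : (0:ℝ) ≤ 0.1381 - U) (by linarith : (0:ℝ) ≤ U + g - q),
    mul_nonneg (by linarith : (0:ℝ) ≤ g + 0.12) (by linarith : (0:ℝ) ≤ D1 + 0.006),
    mul_nonneg (by linarith : (0:ℝ) ≤ g + 0.12) (by linarith : (0:ℝ) ≤ 0.001 - D1),
    mul_nonneg (by linarith : (0:ℝ) ≤ 0.1485 - g) (by linarith : (0:ℝ) ≤ D1 + 0.006),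
    mul_nonneg (by linarith : (0:ℝ) ≤ 0.1485 - g) (by linarith : (0:ℝ) ≤ 0.001 - D1),
    mul_nonneg (by linarith : (0:ℝ) ≤ q + 0.1381) (by linarith : (0:ℝ) ≤ D2),
    mul_nonneg (by linarith : (0:ℝ) ≤ q + 0.1381) (by linarith : (0:ℝ) ≤ 0.007 - D2),
    mul_nonneg (by linarith : (0:ℝ) ≤ 0.128 - q) (by linarith : (0:ℝ) ≤ D2),
    mul_nonneg (by linarith : (0:ℝ) ≤ 0.128 - q) (by linarith : (0:ℝ) ≤ 0.007 - D2),
    mul_nonneg (by linarith : (0:ℝ) ≤ 0.1381 + U) (by linarith : (0:ℝ) ≤ D2),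
    mul_nonneg (by linarith : (0:ℝ) ≤ 0.1381 - U) (by linarith : (0:ℝ) ≤ D2),
    mul_nonneg (by linarith : (0:ℝ) ≤ g + 0.12) (by linarith : (0:ℝ) ≤ D2),
    mul_nonneg (by linarith : (0:ℝ) ≤ 0.1485 - g) (by linarith : (0:ℝ) ≤ D2),
    mul_nonneg (by linarith : (0:ℝ) ≤ 0.1381 + U) (by linarith : (0:ℝ) ≤ 0.007 - D2),
    mul_nonneg (by linarith : (0:ℝ) ≤ 0.1381 - U) (by linarith : (0:ℝ) ≤ 0.007 - D2),
    mul_nonneg (by linarith : (0:ℝ) ≤ g + 0.12) (by linarith : (0:ℝ) ≤ 0.007 - D2),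
    mul_nonneg (by linarith : (0:ℝ) ≤ 0.1485 - g) (by linarith : (0:ℝ) ≤ 0.007 - D2),
    sq_nonneg D2,
    sq_nonneg U,
    sq_nonneg g,
    sq_nonneg q,
    sq_nonneg (U + g),
    sq_nonneg (g - q),
    sq_nonneg (U + g - q), sq_nonneg (U + g - q + 0.13), sq_nonneg (U + g - q + 0.13 + 0.5 * U), sq_nonneg (U + g - q + 0.13 - 0.5 * U), sq_nonneg (U + g - q + 0.13 + g), sq_nonneg (U + g - q + 0.13 - g), sq_nonneg (U + g - q + 0.12)]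

private theorem r12mpm {U g q D1 D2 : ℝ} (hU1 : -0.1381 ≤ U) (hU2 : U ≤ 0.1381) (hg1 : -0.12 ≤ g)
    (hg2 : g ≤ 0.1485) (hq1 : -0.1381 ≤ q) (hq2 : q ≤ 0.128)
    (d1 : -0.006 ≤ D1) (d1p : D1 ≤ 0.001) (d2 : 0 ≤ D2) (d2p : D2 ≤ 0.007)
     (hq : q ≤ 0) (hU : 0 ≤ U) (hw : U + g - q ≤ 0) :
    0 ≤ U ^ 2 + 1/8 - (g - q) ^ 2 / 2 + ((1/3 - U - g + q - D2) ^ 2 + (-q - q ^ 2) / 2)
      + 23/11 * ((U + ((g - q) + g) / 3) / 3 + (2/3) * ((U + g - q) ^ 2 - U ^ 2) - (2/3) * (g * D1 + q * D2))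
      + 6.8 * D2 - 0.1816 - 0.003 := by
  linarith [mul_nonneg (by linarith : (0:ℝ) ≤ -q) (by linarith : (0:ℝ) ≤ q + 0.1381),
    mul_nonneg (by linarith : (0:ℝ) ≤ -q) (by linarith : (0:ℝ) ≤ g + 0.12),
    mul_nonneg (by linarith : (0:ℝ) ≤ -q) (by linarith : (0:ℝ) ≤ 0.1485 - g),
    mul_nonneg (by linarith : (0:ℝ) ≤ -q) (by linarith : (0:ℝ) ≤ U),
    mul_nonneg (by linarith : (0:ℝ) ≤ -q) (by linarith : (0:ℝ) ≤ 0.1381 - U),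
    mul_nonneg (by linarith : (0:ℝ) ≤ -q) (by linarith : (0:ℝ) ≤ -(U + g - q)),
    mul_nonneg (by linarith : (0:ℝ) ≤ q + 0.1381) (by linarith : (0:ℝ) ≤ g + 0.12),
    mul_nonneg (by linarith : (0:ℝ) ≤ q + 0.1381) (by linarith : (0:ℝ) ≤ 0.1485 - g),
    mul_nonneg (by linarith : (0:ℝ) ≤ q + 0.1381) (by linarith : (0:ℝ) ≤ U),
    mul_nonneg (by linarith : (0:ℝ) ≤ q + 0.1381) (by linarith : (0:ℝ) ≤ 0.1381 - U),
    mul_nonneg (by linarith : (0:ℝ) ≤ q + 0.1381) (by linarith : (0:ℝ) ≤ -(U + g - q)),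
    mul_nonneg (by linarith : (0:ℝ) ≤ g + 0.12) (by linarith : (0:ℝ) ≤ 0.1485 - g),
    mul_nonneg (by linarith : (0:ℝ) ≤ g + 0.12) (by linarith : (0:ℝ) ≤ U),
    mul_nonneg (by linarith : (0:ℝ) ≤ g + 0.12) (by linarith : (0:ℝ) ≤ 0.1381 - U),
    mul_nonneg (by linarith : (0:ℝ) ≤ g + 0.12) (by linarith : (0:ℝ) ≤ -(U + g - q)),
    mul_nonneg (by linarith : (0:ℝ) ≤ 0.1485 - g) (by linarith : (0:ℝ) ≤ U),
    mul_nonneg (by linarith : (0:ℝ) ≤ 0.1485 - g) (by linarith : (0:ℝ) ≤ 0.1381 - U),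
    mul_nonneg (by linarith : (0:ℝ) ≤ 0.1485 - g) (by linarith : (0:ℝ) ≤ -(U + g - q)),
    mul_nonneg (by linarith : (0:ℝ) ≤ U) (by linarith : (0:ℝ) ≤ 0.1381 - U),
    mul_nonneg (by linarith : (0:ℝ) ≤ U) (by linarith : (0:ℝ) ≤ -(U + g - q)),
    mul_nonneg (by linarith : (0:ℝ) ≤ 0.1381 - U) (by linarith : (0:ℝ) ≤ -(U + g - q)),
    mul_nonneg (by linarith : (0:ℝ) ≤ g + 0.12) (by linarith : (0:ℝ) ≤ D1 + 0.006),
    mul_nonneg (by linarith : (0:ℝ) ≤ g + 0.12) (by linarith : (0:ℝ) ≤ 0.001 - D1),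
    mul_nonneg (by linarith : (0:ℝ) ≤ 0.1485 - g) (by linarith : (0:ℝ) ≤ D1 + 0.006),
    mul_nonneg (by linarith : (0:ℝ) ≤ 0.1485 - g) (by linarith : (0:ℝ) ≤ 0.001 - D1),
    mul_nonneg (by linarith : (0:ℝ) ≤ q + 0.1381) (by linarith : (0:ℝ) ≤ D2),
    mul_nonneg (by linarith : (0:ℝ) ≤ q + 0.1381) (by linarith : (0:ℝ) ≤ 0.007 - D2),
    mul_nonneg (by linarith : (0:ℝ) ≤ 0.128 - q) (by linarith : (0:ℝ) ≤ D2),
    mul_nonneg (by linarith : (0:ℝ) ≤ 0.128 - q) (by linarith : (0:ℝ) ≤ 0.007 - D2),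
    mul_nonneg (by linarith : (0:ℝ) ≤ 0.1381 + U) (by linarith : (0:ℝ) ≤ D2),
    mul_nonneg (by linarith : (0:ℝ) ≤ 0.1381 - U) (by linarith : (0:ℝ) ≤ D2),
    mul_nonneg (by linarith : (0:ℝ) ≤ g + 0.12) (by linarith : (0:ℝ) ≤ D2),
    mul_nonneg (by linarith : (0:ℝ) ≤ 0.1485 - g) (by linarith : (0:ℝ) ≤ D2),
    mul_nonneg (by linarith : (0:ℝ) ≤ 0.1381 + U) (by linarith : (0:ℝ) ≤ 0.007 - D2),
    mul_nonneg (by linarith : (0:ℝ) ≤ 0.1381 - U) (by linarith : (0:ℝ) ≤ 0.007 - D2),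
    mul_nonneg (by linarith : (0:ℝ) ≤ g + 0.12) (by linarith : (0:ℝ) ≤ 0.007 - D2),
    mul_nonneg (by linarith : (0:ℝ) ≤ 0.1485 - g) (by linarith : (0:ℝ) ≤ 0.007 - D2),
    sq_nonneg D2,
    sq_nonneg U,
    sq_nonneg g,
    sq_nonneg q,
    sq_nonneg (U + g),
    sq_nonneg (g - q),
    sq_nonneg (U + g - q), sq_nonneg (U + g - q + 0.13), sq_nonneg (U + g - q + 0.13 + 0.5 * U), sq_nonneg (U + g - q + 0.13 - 0.5 * U), sq_nonneg (U + g - q + 0.13 + g), sq_nonneg (U + g - q + 0.13 - g), sq_nonneg (U + g - q + 0.12)]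

private theorem r12mmp {U g q D1 D2 : ℝ} (hU1 : -0.1381 ≤ U) (hU2 : U ≤ 0.1381) (hg1 : -0.12 ≤ g)
    (hg2 : g ≤ 0.1485) (hq1 : -0.1381 ≤ q) (hq2 : q ≤ 0.128)
    (d1 : -0.006 ≤ D1) (d1p : D1 ≤ 0.001) (d2 : 0 ≤ D2) (d2p : D2 ≤ 0.007)
     (hq : q ≤ 0) (hU : U ≤ 0) (hw : 0 ≤ U + g - q) :
    0 ≤ U ^ 2 + 1/8 - (g - q) ^ 2 / 2 + ((1/3 - U - g + q - D2) ^ 2 + (-q - q ^ 2) / 2)
      + 23/11 * ((U + ((g - q) + g) / 3) / 3 + (2/3) * (0 - 0) - (2/3) * (g * D1 + q * D2))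
      + 6.8 * D2 - 0.1816 - 0.003 := by
  linarith [mul_nonneg (by linarith : (0:ℝ) ≤ -q) (by linarith : (0:ℝ) ≤ q + 0.1381),
    mul_nonneg (by linarith : (0:ℝ) ≤ -q) (by linarith : (0:ℝ) ≤ g + 0.12),
    mul_nonneg (by linarith : (0:ℝ) ≤ -q) (by linarith : (0:ℝ) ≤ 0.1485 - g),
    mul_nonneg (by linarith : (0:ℝ) ≤ -q) (by linarith : (0:ℝ) ≤ -U),
    mul_nonneg (by linarith : (0:ℝ) ≤ -q) (by linarith : (0:ℝ) ≤ U + 0.1381),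
    mul_nonneg (by linarith : (0:ℝ) ≤ -q) (by linarith : (0:ℝ) ≤ U + g - q),
    mul_nonneg (by linarith : (0:ℝ) ≤ q + 0.1381) (by linarith : (0:ℝ) ≤ g + 0.12),
    mul_nonneg (by linarith : (0:ℝ) ≤ q + 0.1381) (by linarith : (0:ℝ) ≤ 0.1485 - g),
    mul_nonneg (by linarith : (0:ℝ) ≤ q + 0.1381) (by linarith : (0:ℝ) ≤ -U),
    mul_nonneg (by linarith : (0:ℝ) ≤ q + 0.1381) (by linarith : (0:ℝ) ≤ U + 0.1381),
    mul_nonneg (by linarith : (0:ℝ) ≤ q + 0.1381) (by linarith : (0:ℝ) ≤ U + g - q),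
    mul_nonneg (by linarith : (0:ℝ) ≤ g + 0.12) (by linarith : (0:ℝ) ≤ 0.1485 - g),
    mul_nonneg (by linarith : (0:ℝ) ≤ g + 0.12) (by linarith : (0:ℝ) ≤ -U),
    mul_nonneg (by linarith : (0:ℝ) ≤ g + 0.12) (by linarith : (0:ℝ) ≤ U + 0.1381),
    mul_nonneg (by linarith : (0:ℝ) ≤ g + 0.12) (by linarith : (0:ℝ) ≤ U + g - q),
    mul_nonneg (by linarith : (0:ℝ) ≤ 0.1485 - g) (by linarith : (0:ℝ) ≤ -U),
    mul_nonneg (by linarith : (0:ℝ) ≤ 0.1485 - g) (by linarith : (0:ℝ) ≤ U + 0.1381),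
    mul_nonneg (by linarith : (0:ℝ) ≤ 0.1485 - g) (by linarith : (0:ℝ) ≤ U + g - q),
    mul_nonneg (by linarith : (0:ℝ) ≤ -U) (by linarith : (0:ℝ) ≤ U + 0.1381),
    mul_nonneg (by linarith : (0:ℝ) ≤ -U) (by linarith : (0:ℝ) ≤ U + g - q),
    mul_nonneg (by linarith : (0:ℝ) ≤ U + 0.1381) (by linarith : (0:ℝ) ≤ U + g - q),
    mul_nonneg (by linarith : (0:ℝ) ≤ g + 0.12) (by linarith : (0:ℝ) ≤ D1 + 0.006),
    mul_nonneg (by linarith : (0:ℝ) ≤ g + 0.12) (by linarith : (0:ℝ) ≤ 0.001 - D1),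
    mul_nonneg (by linarith : (0:ℝ) ≤ 0.1485 - g) (by linarith : (0:ℝ) ≤ D1 + 0.006),
    mul_nonneg (by linarith : (0:ℝ) ≤ 0.1485 - g) (by linarith : (0:ℝ) ≤ 0.001 - D1),
    mul_nonneg (by linarith : (0:ℝ) ≤ q + 0.1381) (by linarith : (0:ℝ) ≤ D2),
    mul_nonneg (by linarith : (0:ℝ) ≤ q + 0.1381) (by linarith : (0:ℝ) ≤ 0.007 - D2),
    mul_nonneg (by linarith : (0:ℝ) ≤ 0.128 - q) (by linarith : (0:ℝ) ≤ D2),
    mul_nonneg (by linarith : (0:ℝ) ≤ 0.128 - q) (by linarith : (0:ℝ) ≤ 0.007 - D2),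
    mul_nonneg (by linarith : (0:ℝ) ≤ 0.1381 + U) (by linarith : (0:ℝ) ≤ D2),
    mul_nonneg (by linarith : (0:ℝ) ≤ 0.1381 - U) (by linarith : (0:ℝ) ≤ D2),
    mul_nonneg (by linarith : (0:ℝ) ≤ g + 0.12) (by linarith : (0:ℝ) ≤ D2),
    mul_nonneg (by linarith : (0:ℝ) ≤ 0.1485 - g) (by linarith : (0:ℝ) ≤ D2),
    mul_nonneg (by linarith : (0:ℝ) ≤ 0.1381 + U) (by linarith : (0:ℝ) ≤ 0.007 - D2),
    mul_nonneg (by linarith : (0:ℝ) ≤ 0.1381 - U) (by linarith : (0:ℝ) ≤ 0.007 - D2),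
    mul_nonneg (by linarith : (0:ℝ) ≤ g + 0.12) (by linarith : (0:ℝ) ≤ 0.007 - D2),
    mul_nonneg (by linarith : (0:ℝ) ≤ 0.1485 - g) (by linarith : (0:ℝ) ≤ 0.007 - D2),
    sq_nonneg D2,
    sq_nonneg U,
    sq_nonneg g,
    sq_nonneg q,
    sq_nonneg (U + g),
    sq_nonneg (g - q),
    sq_nonneg (U + g - q), sq_nonneg (U + g - q + 0.13), sq_nonneg (U + g - q + 0.13 + 0.5 * U), sq_nonneg (U + g - q + 0.13 - 0.5 * U), sq_nonneg (U + g - q + 0.13 + g), sq_nonneg (U + g - q + 0.13 - g), sq_nonneg (U + g - q + 0.12)]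

private theorem r12mmm {U g q D1 D2 : ℝ} (hU1 : -0.1381 ≤ U) (hU2 : U ≤ 0.1381) (hg1 : -0.12 ≤ g)
    (hg2 : g ≤ 0.1485) (hq1 : -0.1381 ≤ q) (hq2 : q ≤ 0.128)
    (d1 : -0.006 ≤ D1) (d1p : D1 ≤ 0.001) (d2 : 0 ≤ D2) (d2p : D2 ≤ 0.007)
     (hq : q ≤ 0) (hU : U ≤ 0) (hw : U + g - q ≤ 0) :
    0 ≤ U ^ 2 + 1/8 - (g - q) ^ 2 / 2 + ((1/3 - U - g + q - D2) ^ 2 + (-q - q ^ 2) / 2)
      + 23/11 * ((U + ((g - q) + g) / 3) / 3 + (2/3) * ((U + g - q) ^ 2 - 0) - (2/3) * (g * D1 + q * D2))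
      + 6.8 * D2 - 0.1816 - 0.003 := by
  linarith [mul_nonneg (by linarith : (0:ℝ) ≤ -q) (by linarith : (0:ℝ) ≤ q + 0.1381),
    mul_nonneg (by linarith : (0:ℝ) ≤ -q) (by linarith : (0:ℝ) ≤ g + 0.12),
    mul_nonneg (by linarith : (0:ℝ) ≤ -q) (by linarith : (0:ℝ) ≤ 0.1485 - g),
    mul_nonneg (by linarith : (0:ℝ) ≤ -q) (by linarith : (0:ℝ) ≤ -U),
    mul_nonneg (by linarith : (0:ℝ) ≤ -q) (by linarith : (0:ℝ) ≤ U + 0.1381),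
    mul_nonneg (by linarith : (0:ℝ) ≤ -q) (by linarith : (0:ℝ) ≤ -(U + g - q)),
    mul_nonneg (by linarith : (0:ℝ) ≤ q + 0.1381) (by linarith : (0:ℝ) ≤ g + 0.12),
    mul_nonneg (by linarith : (0:ℝ) ≤ q + 0.1381) (by linarith : (0:ℝ) ≤ 0.1485 - g),
    mul_nonneg (by linarith : (0:ℝ) ≤ q + 0.1381) (by linarith : (0:ℝ) ≤ -U),
    mul_nonneg (by linarith : (0:ℝ) ≤ q + 0.1381) (by linarith : (0:ℝ) ≤ U + 0.1381),
    mul_nonneg (by linarith : (0:ℝ) ≤ q + 0.1381) (by linarith : (0:ℝ) ≤ -(U + g - q)),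
    mul_nonneg (by linarith : (0:ℝ) ≤ g + 0.12) (by linarith : (0:ℝ) ≤ 0.1485 - g),
    mul_nonneg (by linarith : (0:ℝ) ≤ g + 0.12) (by linarith : (0:ℝ) ≤ -U),
    mul_nonneg (by linarith : (0:ℝ) ≤ g + 0.12) (by linarith : (0:ℝ) ≤ U + 0.1381),
    mul_nonneg (by linarith : (0:ℝ) ≤ g + 0.12) (by linarith : (0:ℝ) ≤ -(U + g - q)),
    mul_nonneg (by linarith : (0:ℝ) ≤ 0.1485 - g) (by linarith : (0:ℝ) ≤ -U),
    mul_nonneg (by linarith : (0:ℝ) ≤ 0.1485 - g) (by linarith : (0:ℝ) ≤ U + 0.1381),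
    mul_nonneg (by linarith : (0:ℝ) ≤ 0.1485 - g) (by linarith : (0:ℝ) ≤ -(U + g - q)),
    mul_nonneg (by linarith : (0:ℝ) ≤ -U) (by linarith : (0:ℝ) ≤ U + 0.1381),
    mul_nonneg (by linarith : (0:ℝ) ≤ -U) (by linarith : (0:ℝ) ≤ -(U + g - q)),
    mul_nonneg (by linarith : (0:ℝ) ≤ U + 0.1381) (by linarith : (0:ℝ) ≤ -(U + g - q)),
    mul_nonneg (by linarith : (0:ℝ) ≤ g + 0.12) (by linarith : (0:ℝ) ≤ D1 + 0.006),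
    mul_nonneg (by linarith : (0:ℝ) ≤ g + 0.12) (by linarith : (0:ℝ) ≤ 0.001 - D1),
    mul_nonneg (by linarith : (0:ℝ) ≤ 0.1485 - g) (by linarith : (0:ℝ) ≤ D1 + 0.006),
    mul_nonneg (by linarith : (0:ℝ) ≤ 0.1485 - g) (by linarith : (0:ℝ) ≤ 0.001 - D1),
    mul_nonneg (by linarith : (0:ℝ) ≤ q + 0.1381) (by linarith : (0:ℝ) ≤ D2),
    mul_nonneg (by linarith : (0:ℝ) ≤ q + 0.1381) (by linarith : (0:ℝ) ≤ 0.007 - D2),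
    mul_nonneg (by linarith : (0:ℝ) ≤ 0.128 - q) (by linarith : (0:ℝ) ≤ D2),
    mul_nonneg (by linarith : (0:ℝ) ≤ 0.128 - q) (by linarith : (0:ℝ) ≤ 0.007 - D2),
    mul_nonneg (by linarith : (0:ℝ) ≤ 0.1381 + U) (by linarith : (0:ℝ) ≤ D2),
    mul_nonneg (by linarith : (0:ℝ) ≤ 0.1381 - U) (by linarith : (0:ℝ) ≤ D2),
    mul_nonneg (by linarith : (0:ℝ) ≤ g + 0.12) (by linarith : (0:ℝ) ≤ D2),
    mul_nonneg (by linarith : (0:ℝ) ≤ 0.1485 - g) (by linarith : (0:ℝ) ≤ D2),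
    mul_nonneg (by linarith : (0:ℝ) ≤ 0.1381 + U) (by linarith : (0:ℝ) ≤ 0.007 - D2),
    mul_nonneg (by linarith : (0:ℝ) ≤ 0.1381 - U) (by linarith : (0:ℝ) ≤ 0.007 - D2),
    mul_nonneg (by linarith : (0:ℝ) ≤ g + 0.12) (by linarith : (0:ℝ) ≤ 0.007 - D2),
    mul_nonneg (by linarith : (0:ℝ) ≤ 0.1485 - g) (by linarith : (0:ℝ) ≤ 0.007 - D2),
    sq_nonneg D2,
    sq_nonneg U,
    sq_nonneg g,
    sq_nonneg q,
    sq_nonneg (U + g),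
    sq_nonneg (g - q),
    sq_nonneg (U + g - q), sq_nonneg (U + g - q + 0.13), sq_nonneg (U + g - q + 0.13 + 0.5 * U), sq_nonneg (U + g - q + 0.13 - 0.5 * U), sq_nonneg (U + g - q + 0.13 + g), sq_nonneg (U + g - q + 0.13 - g), sq_nonneg (U + g - q + 0.12)]

private theorem maxsq_cases (x : ℝ) : (0 ≤ x ∧ (max x 0) ^ 2 = x ^ 2) ∨ (x ≤ 0 ∧ (max x 0) ^ 2 = 0) := by
  rcases le_total 0 x with h | h
  · left; exact ⟨h, by rw [max_eq_left h]⟩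
  · right; exact ⟨h, by rw [max_eq_right h]; norm_num⟩

private theorem E12_bd {U g q D1 D2 D3 : ℝ} (h : VC U g q D1 D2 D3) :
    0 ≤ E12p U g q ∧ E12p U g q ≤ 0.15 := by
  obtain ⟨_, hU1, hU2, hg1, hg2, hq1, hq2, -, -, -⟩ := h
  unfold E12p
  have hb : |g - q| ≤ 0.2866 := by rw [abs_le]; constructor <;> linarith
  have hU : |U| ≤ 0.1381 := by rw [abs_le]; constructor <;> linarith
  have k1 := (sq_le_sq₀ (abs_nonneg _) (by norm_num : (0:ℝ) ≤ 0.2866)).mpr hb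
  have k2 := (sq_le_sq₀ (abs_nonneg _) (by norm_num : (0:ℝ) ≤ 0.1381)).mpr hU
  rw [sq_abs] at k1 k2
  constructor
  · nlinarith [sq_nonneg U]
  · nlinarith [sq_nonneg (g - q)]

private theorem E31_nn {U g q D1 D2 D3 : ℝ} (h : VC U g q D1 D2 D3) : 0 ≤ E31p U g D1 := by
  obtain ⟨_, hU1, hU2, hg1, hg2, hq1, hq2, -, -, -⟩ := h
  unfold E31p
  split_ifs with hg
  · nlinarith [sq_nonneg (U + g - 1/6 - D1), mul_nonneg hg (by linarith : (0:ℝ) ≤ 1 - g)]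
  · have hg' : 0 ≤ -g := by linarith
    nlinarith [sq_nonneg (U - 1/6 - D1), mul_nonneg hg' (by linarith : (0:ℝ) ≤ 1 + g)]

private theorem E23_bd {U g q D1 D2 D3 : ℝ} (h : VC U g q D1 D2 D3) (h2 : 0 ≤ D2) (h2' : D2 ≤ 0.007) :
    0 ≤ E23p U g q D2 ∧ E23p U g q D2 ≤ 0.3 := by
  obtain ⟨_, hU1, hU2, hg1, hg2, hq1, hq2, hug1, hug2, hub⟩ := h
  unfold E23p
  split_ifs with hq
  · have e : |U + g - 1/3 + D2| ≤ 0.4715 := by rw [abs_le]; constructor <;> linarith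
    have k1 := (sq_le_sq₀ (abs_nonneg _) (by norm_num : (0:ℝ) ≤ 0.4715)).mpr e
    rw [sq_abs] at k1
    constructor
    · nlinarith [sq_nonneg (U + g - 1/3 + D2), mul_nonneg hq (by linarith : (0:ℝ) ≤ 1 - q)]
    · nlinarith [sq_nonneg q]
  · have hq' : 0 ≤ -q := by linarith
    have e : |U + g - q - 1/3 + D2| ≤ 0.4715 := by rw [abs_le]; constructor <;> linarith
    have k1 := (sq_le_sq₀ (abs_nonneg _) (by norm_num : (0:ℝ) ≤ 0.4715)).mpr e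
    rw [sq_abs] at k1
    constructor
    · nlinarith [sq_nonneg (U + g - q - 1/3 + D2), mul_nonneg hq' (by linarith : (0:ℝ) ≤ 1 + q)]
    · nlinarith [sq_nonneg q]

private theorem pin2_a {U g q D1 D2 D3 : ℝ} (h : VC U g q D1 D2 D3) (h1 : 0.0075 ≤ D1)
    (h2 : -0.0125 ≤ D2) (h3 : -0.001 ≤ D3) :
    0 ≤ MIp1 U g q D1 D2 D3 + MIp3 U g q D1 D2 D3 := by
  have hE12 := E12_bd h
  have hE31 := E31_nn h
  obtain ⟨hs, hU1, hU2, hg1, hg2, hq1, hq2, hug1, hug2, -⟩ := h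
  have hD3 : D3 ≤ 0.005 := by linarith
  have hD2 : D2 ≤ -0.0065 := by linarith
  have hD1 : D1 ≤ 0.0135 := by linarith
  have k1 := scale hE12.1 hE12.2 hD3 (by norm_num)
  have k2 : E31p U g D1 ≤ E31p U g D1 * (1 - 0.196 * D2) := by
    nlinarith [mul_nonneg hE31 (by linarith : (0:ℝ) ≤ -D2)]
  have k3 := sq13 hs (by linarith) h2 h3
  have key : 0 ≤ E12p U g q + E31p U g D1 + 23/11 * Gsp U g q D1 D2 + 0.051 - 0.1816 - 0.003 := by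
    unfold E12p E31p Gsp
    split_ifs with hg
    · have k4 : (1/6 + 0.0075 - U - g) ^ 2 ≤ (U + g - 1/6 - D1) ^ 2 := by
        nlinarith [mul_nonneg (by linarith : (0:ℝ) ≤ D1 - 0.0075)
            (by linarith : (0:ℝ) ≤ (1/6 + D1 - U - g) + (1/6 + 0.0075 - U - g))]
      rcases maxsq_cases U with ⟨hU, eU⟩ | ⟨hU, eU⟩ <;>
        rcases maxsq_cases (-(U + g - q)) with ⟨hw, ew⟩ | ⟨hw, ew⟩ <;> rw [eU, ew]
      · have := r13ppm hU1 hU2 hg1 hg2 hq1 hq2 h1 hD1 h2 hD2 hg hU (by linarith)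
        linarith
      · have := r13ppp hU1 hU2 hg1 hg2 hq1 hq2 h1 hD1 h2 hD2 hg hU (by linarith)
        linarith
      · have := r13pmm hU1 hU2 hg1 hg2 hq1 hq2 h1 hD1 h2 hD2 hg hU (by linarith)
        linarith
      · have := r13pmp hU1 hU2 hg1 hg2 hq1 hq2 h1 hD1 h2 hD2 hg hU (by linarith)
        linarith
    · have hg' : g ≤ 0 := by linarith
      have k4 : (1/6 + 0.0075 - U) ^ 2 ≤ (U - 1/6 - D1) ^ 2 := by
        nlinarith [mul_nonneg (by linarith : (0:ℝ) ≤ D1 - 0.0075)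
            (by linarith : (0:ℝ) ≤ (1/6 + D1 - U) + (1/6 + 0.0075 - U))]
      rcases maxsq_cases U with ⟨hU, eU⟩ | ⟨hU, eU⟩ <;>
        rcases maxsq_cases (-(U + g - q)) with ⟨hw, ew⟩ | ⟨hw, ew⟩ <;> rw [eU, ew]
      · have := r13mpm hU1 hU2 hg1 hg2 hq1 hq2 h1 hD1 h2 hD2 hg' hU (by linarith)
        linarith
      · have := r13mpp hU1 hU2 hg1 hg2 hq1 hq2 h1 hD1 h2 hD2 hg' hU (by linarith)
        linarith
      · have := r13mmm hU1 hU2 hg1 hg2 hq1 hq2 h1 hD1 h2 hD2 hg' hU (by linarith)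
        linarith
      · have := r13mmp hU1 hU2 hg1 hg2 hq1 hq2 h1 hD1 h2 hD2 hg' hU (by linarith)
        linarith
  unfold MIp1 MIp3
  have e : D3 = -D1 - D2 := by linarith
  linarith

private theorem pin2_b {U g q D1 D2 D3 : ℝ} (h : VC U g q D1 D2 D3) (h1 : -0.006 ≤ D1)
    (h2 : 0 ≤ D2) (h3 : -0.001 ≤ D3) :
    0 ≤ MIp1 U g q D1 D2 D3 + MIp2 U g q D1 D2 D3 := by
  have hs := h.sum
  have hD3 : D3 ≤ 0.006 := by linarith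
  have hD2 : D2 ≤ 0.007 := by linarith
  have hD1 : D1 ≤ 0.001 := by linarith
  have hE12 := E12_bd h
  have hE23 := E23_bd h h2 hD2
  obtain ⟨-, hU1, hU2, hg1, hg2, hq1, hq2, hug1, hug2, -⟩ := h
  have k1 := scale hE12.1 hE12.2 hD3 (by norm_num)
  have k2 := scale hE23.1 hE23.2 hD1 (by norm_num)
  have k3 := sq12 hs h1 (by linarith) h3
  have key : 0 ≤ E12p U g q + E23p U g q D2 + 23/11 * Gsp U g q D1 D2 + 6.8 * D2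
      - 0.1816 - 0.003 := by
    unfold E12p E23p Gsp
    split_ifs with hq
    · rcases maxsq_cases U with ⟨hU, eU⟩ | ⟨hU, eU⟩ <;>
        rcases maxsq_cases (-(U + g - q)) with ⟨hw, ew⟩ | ⟨hw, ew⟩ <;> rw [eU, ew]
      · have := r12ppm hU1 hU2 hg1 hg2 hq1 hq2 h1 hD1 h2 hD2 hq hU (by linarith)
        linarith
      · have := r12ppp hU1 hU2 hg1 hg2 hq1 hq2 h1 hD1 h2 hD2 hq hU (by linarith)
        linarith
      · have := r12pmm hU1 hU2 hg1 hg2 hq1 hq2 h1 hD1 h2 hD2 hq hU (by linarith)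
        linarith
      · have := r12pmp hU1 hU2 hg1 hg2 hq1 hq2 h1 hD1 h2 hD2 hq hU (by linarith)
        linarith
    · have hq' : q ≤ 0 := by linarith
      rcases maxsq_cases U with ⟨hU, eU⟩ | ⟨hU, eU⟩ <;>
        rcases maxsq_cases (-(U + g - q)) with ⟨hw, ew⟩ | ⟨hw, ew⟩ <;> rw [eU, ew]
      · have := r12mpm hU1 hU2 hg1 hg2 hq1 hq2 h1 hD1 h2 hD2 hq' hU (by linarith)
        linarith
      · have := r12mpp hU1 hU2 hg1 hg2 hq1 hq2 h1 hD1 h2 hD2 hq' hU (by linarith)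
        linarith
      · have := r12mmm hU1 hU2 hg1 hg2 hq1 hq2 h1 hD1 h2 hD2 hq' hU (by linarith)
        linarith
      · have := r12mmp hU1 hU2 hg1 hg2 hq1 hq2 h1 hD1 h2 hD2 hq' hU (by linarith)
        linarith
  unfold MIp1 MIp2
  have e : D3 = -D1 - D2 := by linarith
  linarith

theorem V_pin2 {U g q D1 D2 D3 : ℝ} (h : VC U g q D1 D2 D3) (h1 : -0.006 ≤ D1)
    (h2 : -0.0125 ≤ D2) (h3 : -0.001 ≤ D3) (hM1 : MIp1 U g q D1 D2 D3 < 0)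
    (hM2 : MIp2 U g q D1 D2 D3 < 0) (hM3 : MIp3 U g q D1 D2 D3 < 0) :
    D1 ≤ 0.0075 ∧ D2 ≤ 0 := by
  constructor
  · by_contra hc
    have := pin2_a h (by linarith) h2 h3
    linarith
  · by_contra hc
    have := pin2_b h h1 (by linarith) h3
    linarith

end Pool.Agent.Lib.P37
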