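import Pool.Agent.Lib.MP_c009e6_co.Body
import Pool.Agent.Lib.MP_c009e6_co.VDefs
import Pool.Agent.Lib.MP_c009e6_co.EBound
import Pool.Agent.Lib.MP_c009e6_co.Rho
import Pool.Agent.Lib.MP_c009e6_co.Num
import Pool.Agent.Lib.MP_c009e6_co.VPin2

section

section

/-!
# Invariance of the triangle data under shifts of the phases by multiples of `p`, rotation and reflection
-/

namespace Pool.Agent.Lib.P37

open Real

theorem nd_shift (x : ℝ) (n : ℤ) : nd ((x + n * p) / p) = nd (x / p) := by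
  have : (x + n * p) / p = x / p + n := by field_simp [p_pos.ne']
  rw [this, nd_add_int]

theorem sigma_shift (x : ℝ) (n : ℤ) : sigma (x + n * p) = sigma x := by
  unfold sigma
  rw [nd_shift]

theorem sigma_neg (x : ℝ) : sigma (-x) = sigma x := by
  unfold sigma
  rw [neg_div, nd_neg]

theorem pair_shift (x y d : ℝ) (m n : ℤ) :
    PairIneq (x + m * p) (y + n * p) d ↔ PairIneq x y d := by
  unfold PairIneq
  rw [nd_shift, nd_shift]
  have : x + m * p - (y + n * p) = (x - y) + ((m - n : ℤ) : ℝ) * p := by push_cast; ring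
  rw [this, sigma_shift]

theorem G_shift (x : ℝ) (n : ℤ) : G (x + n * p) = G x := by
  unfold G
  have : (x + n * p) / p = x / p + n := by field_simp [p_pos.ne']
  rw [this, g0_add_int]

theorem G_neg (x : ℝ) : G (-x) = - G x := by
  unfold G
  rw [neg_div, g0_neg]
  ring

/-- the pair inequality is symmetric -/
theorem pair_swap (x y d : ℝ) : PairIneq x y d ↔ PairIneq y x d := by
  unfold PairIneq
  rw [min_comm, show y - x = -(x - y) by ring, sigma_neg]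

/-- the pair inequality under reflection -/
theorem pair_neg (x y d : ℝ) : PairIneq (-x) (-y) d ↔ PairIneq x y d := by
  unfold PairIneq
  rw [neg_div, neg_div, nd_neg, nd_neg, show -x - -y = -(x - y) by ring, sigma_neg]

/-- shifting the phases -/
theorem tri_shift {x1 x2 x3 A1 A2 A3 d1 d2 d3 : ℝ} (h : Tri x1 x2 x3 A1 A2 A3 d1 d2 d3)
    (n1 n2 n3 : ℤ) : Tri (x1 + n1 * p) (x2 + n2 * p) (x3 + n3 * p) A1 A2 A3 d1 d2 d3 := by
  refine ⟨h.A1pos, h.A2pos, h.A3pos, h.sum, h.law, ?_, ?_, ?_⟩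
  · rw [show x2 + n2 * p - A2 = (x2 - A2) + n2 * p by ring, pair_shift]; exact h.side1
  · rw [show x3 + n3 * p - A3 = (x3 - A3) + n3 * p by ring, pair_shift]; exact h.side2
  · rw [show x1 + n1 * p - A1 = (x1 - A1) + n1 * p by ring, pair_shift]; exact h.side3

theorem Psi_shift (x1 x2 x3 A1 A2 A3 d1 d2 d3 : ℝ) (n1 n2 n3 : ℤ) :
    Psi (x1 + n1 * p) (x2 + n2 * p) (x3 + n3 * p) A1 A2 A3 d1 d2 d3 =
      Psi x1 x2 x3 A1 A2 A3 d1 d2 d3 := by
  unfold Psi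
  rw [show x2 + n2 * p - A2 = (x2 - A2) + n2 * p by ring,
    show x3 + n3 * p - A3 = (x3 - A3) + n3 * p by ring,
    show x1 + n1 * p - A1 = (x1 - A1) + n1 * p by ring]
  simp only [G_shift]

/-- rotation of the triangle -/
theorem tri_rot {x1 x2 x3 A1 A2 A3 d1 d2 d3 : ℝ} (h : Tri x1 x2 x3 A1 A2 A3 d1 d2 d3) :
    Tri x2 x3 x1 A2 A3 A1 d2 d3 d1 := by
  obtain ⟨r, hr, h1, h2, h3⟩ := h.law
  refine ⟨h.A2pos, h.A3pos, h.A1pos, by linarith [h.sum], ⟨r, hr, h2, h3, h1⟩, h.side2, h.side3, h.side1⟩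

theorem Psi_rot {x1 x2 x3 A1 A2 A3 d1 d2 d3 : ℝ} (h : Tri x1 x2 x3 A1 A2 A3 d1 d2 d3) :
    Psi x2 x3 x1 A2 A3 A1 d2 d3 d1 = Psi x1 x2 x3 A1 A2 A3 d1 d2 d3 := by
  obtain ⟨r, hr, h1, h2, h3⟩ := h.law
  unfold Psi
  have : d2 * d1 * sin A2 / 2 = d1 * d3 * sin A1 / 2 := by rw [h1, h2, h3]; ring
  rw [this]; ring

/-- reflection of the triangle: the phases become `-(x - A)` -/
theorem tri_refl {x1 x2 x3 A1 A2 A3 d1 d2 d3 : ℝ} (h : Tri x1 x2 x3 A1 A2 A3 d1 d2 d3) :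
    Tri (-(x1 - A1)) (-(x3 - A3)) (-(x2 - A2)) A1 A3 A2 d3 d2 d1 := by
  obtain ⟨r, hr, h1, h2, h3⟩ := h.law
  refine ⟨h.A1pos, h.A3pos, h.A2pos, by linarith [h.sum], ⟨r, hr, h3, h2, h1⟩, ?_, ?_, ?_⟩
  · rw [show -(x3 - A3) - A3 = -x3 by ring, pair_neg, pair_swap]; exact h.side3
  · rw [show -(x2 - A2) - A2 = -x2 by ring, pair_neg, pair_swap]; exact h.side2
  · rw [show -(x1 - A1) - A1 = -x1 by ring, pair_neg, pair_swap]; exact h.side1

theorem Psi_refl {x1 x2 x3 A1 A2 A3 d1 d2 d3 : ℝ} :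
    Psi (-(x1 - A1)) (-(x3 - A3)) (-(x2 - A2)) A1 A3 A2 d3 d2 d1 =
      Psi x1 x2 x3 A1 A2 A3 d1 d2 d3 := by
  unfold Psi
  rw [show -(x3 - A3) - A3 = -x3 by ring, show -(x2 - A2) - A2 = -x2 by ring,
    show -(x1 - A1) - A1 = -x1 by ring]
  simp only [G_neg]
  ring

end Pool.Agent.Lib.P37
end

section

namespace Pool.Agent.Lib.P37

open Real

/-- sector `g ≥ 0`, `q = -r ≤ 0`, `U ≥ 0` -/
private theorem s1p {U g r D1 D2 : ℝ} (hU : 0 ≤ U) (hU' : U ≤ 0.1381) (hg : 0 ≤ g) (hg' : g ≤ 0.1485)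
    (hr : 0 ≤ r) (hr' : r ≤ 0.1381) (h1 : D1 ≤ 0.0075) (h1' : -0.006 ≤ D1)
    (h2 : -0.0125 ≤ D2) (h2' : D2 ≤ 0) :
    0 ≤ 0.3369 * U ^ 2
      + 0.3485 * (((g + r) + g) / 3 - 2 * (g * D1 - r * D2))
      + (0.3058 + 0.103 * U) * ((g - g ^ 2) / 2 - 1.007 * (g * (1/3 - 2 * U + 2 * D1 - g)))
      + (0.3561 - 0.0982 * U) * ((r - r ^ 2) / 2 - (g + r) * (2/3 - 2 * U - 2 * D2 - (g + r))
        - 0.007 * ((g + r) * (2/3 - 2 * U - 2 * D2 - (g + r))))
      - 0.173 * (g + r) ^ 2 - 0.0005 * (g + r) := by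
  have a1 : 0 ≤ g * (0.0075 - D1) := mul_nonneg hg (by linarith)
  have a2 : 0 ≤ g * (D2 + 0.0125) := mul_nonneg hg (by linarith)
  have a3 : 0 ≤ r * (D2 + 0.0125) := mul_nonneg hr (by linarith)
  have b1 : 0 ≤ g * r := mul_nonneg hg hr
  have b2 : 0 ≤ U * g := mul_nonneg hU hg
  have b3 : 0 ≤ U * r := mul_nonneg hU hr
  have c1 : 0 ≤ (U * g) * (0.0075 - D1) := mul_nonneg b2 (by linarith)
  have c2 : 0 ≤ (U * g) * (-D2) := mul_nonneg b2 (by linarith)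
  have c3 : 0 ≤ (U * r) * (-D2) := mul_nonneg b3 (by linarith)
  have c4 : 0 ≤ (U * g) * (0.1381 - r) := mul_nonneg b2 (by linarith)
  have c5 : 0 ≤ (U * g) * (0.1485 - g) := mul_nonneg b2 (by linarith)
  have c6 : 0 ≤ (U * r) * (0.1381 - r) := mul_nonneg b3 (by linarith)
  have c7 : 0 ≤ (U * r) * (0.1381 - U) := mul_nonneg b3 (by linarith)
  have c8 : 0 ≤ (U * g) * U := mul_nonneg b2 hU
  have d1 := sq_nonneg g
  have d2 := sq_nonneg r
  have d3 := sq_nonneg U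
  nlinarith

/-- sector `g ≥ 0`, `q = -r ≤ 0`, `U = -v ≤ 0` -/
private theorem s1m {v g r D1 D2 : ℝ} (hv : 0 ≤ v) (hv' : v ≤ 0.1381) (hg : 0 ≤ g) (hg' : g ≤ 0.1485)
    (hr : 0 ≤ r) (hr' : r ≤ 0.1381) (h1 : D1 ≤ 0.0075) (h1' : -0.006 ≤ D1)
    (h2 : -0.0125 ≤ D2) (h2' : D2 ≤ 0) :
    0 ≤ 1.0347 * v ^ 2
      + 0.3485 * (((g + r) + g) / 3 - 2 * (g * D1 - r * D2))
      + (0.3058 - 0.103 * v) * ((g - g ^ 2) / 2 - 1.007 * (g * (1/3 + 2 * v + 2 * D1 - g)))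
      + (0.3561 + 0.0982 * v) * ((r - r ^ 2) / 2 - (g + r) * (2/3 + 2 * v - 2 * D2 - (g + r))
        - 0.007 * ((g + r) * (2/3 + 2 * v - 2 * D2 - (g + r))))
      - 0.173 * (g + r) ^ 2 - 0.0005 * (g + r) := by
  have a1 : 0 ≤ g * (0.0075 - D1) := mul_nonneg hg (by linarith)
  have a2 : 0 ≤ g * (D2 + 0.0125) := mul_nonneg hg (by linarith)
  have a3 : 0 ≤ r * (D2 + 0.0125) := mul_nonneg hr (by linarith)
  have b1 : 0 ≤ g * r := mul_nonneg hg hr
  have b2 : 0 ≤ v * g := mul_nonneg hv hg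
  have b3 : 0 ≤ v * r := mul_nonneg hv hr
  have c1 : 0 ≤ (v * g) * (D1 + 0.006) := mul_nonneg b2 (by linarith)
  have c2 : 0 ≤ (v * g) * (D2 + 0.0125) := mul_nonneg b2 (by linarith)
  have c3 : 0 ≤ (v * r) * (D2 + 0.0125) := mul_nonneg b3 (by linarith)
  have c4 : 0 ≤ (v * r) * (0.1381 - v) := mul_nonneg b3 (by linarith)
  have c5 : 0 ≤ (v * g) * r := mul_nonneg b2 hr
  have c6 : 0 ≤ (v * g) * g := mul_nonneg b2 hg
  have c7 : 0 ≤ (v * r) * r := mul_nonneg b3 hr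
  have c8 : 0 ≤ (v * g) * v := mul_nonneg b2 hv
  have e1 : 0 ≤ g * (0.1485 - g) := mul_nonneg hg (by linarith)
  have e2 : 0 ≤ r * (0.1381 - r) := mul_nonneg hr (by linarith)
  have e3 : 0 ≤ g * (0.1381 - r) := mul_nonneg hg (by linarith)
  have e4 : 0 ≤ r * (0.1485 - g) := mul_nonneg hr (by linarith)
  have s := sq_nonneg (v - 0.684 * g - 0.36 * r)
  nlinarith

/-- sector `g ≥ 0`, `q ≥ 0`, `U ≥ 0` -/
private theorem s2p {U g q D1 D2 : ℝ} (hU : 0 ≤ U) (hU' : U ≤ 0.1381) (hg : 0 ≤ g) (hg' : g ≤ 0.1485)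
    (hq : 0 ≤ q) (hq' : q ≤ 0.128) (h1 : D1 ≤ 0.0075)
    (h2 : -0.0125 ≤ D2) (h2' : D2 ≤ 0) :
    0 ≤ 0.3369 * U ^ 2
      + 0.3485 * (((g - q) + g) / 3 - 2 * (g * D1 + q * D2))
      + (0.3058 + 0.103 * U) * ((g - g ^ 2) / 2 - 1.007 * (g * (1/3 - 2 * U + 2 * D1 - g)))
      + (0.3561 - 0.0982 * U) * ((q - q ^ 2) / 2 - g * (2/3 - 2 * U - 2 * D2 - g)
        - 0.007 * (g * (2/3 - 2 * U - 2 * D2 - g)))
      - 0.173 * (g - q) ^ 2 - 0.0005 * (g + q) := by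
  have a1 : 0 ≤ g * (0.0075 - D1) := mul_nonneg hg (by linarith)
  have a2 : 0 ≤ g * (D2 + 0.0125) := mul_nonneg hg (by linarith)
  have a3 : 0 ≤ q * (-D2) := mul_nonneg hq (by linarith)
  have b1 : 0 ≤ g * q := mul_nonneg hg hq
  have b2 : 0 ≤ U * g := mul_nonneg hU hg
  have b3 : 0 ≤ U * q := mul_nonneg hU hq
  have c1 : 0 ≤ (U * g) * (0.0075 - D1) := mul_nonneg b2 (by linarith)
  have c2 : 0 ≤ (U * g) * (-D2) := mul_nonneg b2 (by linarith)
  have c4 : 0 ≤ q * (0.1381 - U) := mul_nonneg hq (by linarith)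
  have c5 : 0 ≤ (U * g) * (0.1485 - g) := mul_nonneg b2 (by linarith)
  have c6 : 0 ≤ (U * q) * q := mul_nonneg b3 hq
  have c8 : 0 ≤ (U * g) * U := mul_nonneg b2 hU
  have e2 : 0 ≤ q * (0.128 - q) := mul_nonneg hq (by linarith)
  have d1 := sq_nonneg g
  have d3 := sq_nonneg U
  nlinarith

/-- sector `g ≥ 0`, `q ≥ 0`, `U = -v ≤ 0` -/
private theorem s2m {v g q D1 D2 : ℝ} (hv : 0 ≤ v) (hv' : v ≤ 0.1381) (hg : 0 ≤ g) (hg' : g ≤ 0.1485)
    (hq : 0 ≤ q) (hq' : q ≤ 0.128) (h1 : D1 ≤ 0.0075) (h1' : -0.006 ≤ D1)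
    (h2 : -0.0125 ≤ D2) (h2' : D2 ≤ 0) :
    0 ≤ 1.0347 * v ^ 2
      + 0.3485 * (((g - q) + g) / 3 - 2 * (g * D1 + q * D2))
      + (0.3058 - 0.103 * v) * ((g - g ^ 2) / 2 - 1.007 * (g * (1/3 + 2 * v + 2 * D1 - g)))
      + (0.3561 + 0.0982 * v) * ((q - q ^ 2) / 2 - g * (2/3 + 2 * v - 2 * D2 - g)
        - 0.007 * (g * (2/3 + 2 * v - 2 * D2 - g)))
      - 0.173 * (g - q) ^ 2 - 0.0005 * (g + q) := by
  have a1 : 0 ≤ g * (0.0075 - D1) := mul_nonneg hg (by linarith)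
  have a2 : 0 ≤ g * (D2 + 0.0125) := mul_nonneg hg (by linarith)
  have a3 : 0 ≤ q * (-D2) := mul_nonneg hq (by linarith)
  have b1 : 0 ≤ g * q := mul_nonneg hg hq
  have b2 : 0 ≤ v * g := mul_nonneg hv hg
  have b3 : 0 ≤ v * q := mul_nonneg hv hq
  have c1 : 0 ≤ (v * g) * (D1 + 0.006) := mul_nonneg b2 (by linarith)
  have c2 : 0 ≤ (v * g) * (D2 + 0.0125) := mul_nonneg b2 (by linarith)
  have c4 : 0 ≤ (v * q) * (0.128 - q) := mul_nonneg b3 (by linarith)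
  have c6 : 0 ≤ (v * g) * g := mul_nonneg b2 hg
  have c8 : 0 ≤ (v * g) * v := mul_nonneg b2 hv
  have e1 : 0 ≤ g * (0.1485 - g) := mul_nonneg hg (by linarith)
  have e2 : 0 ≤ q * (0.128 - q) := mul_nonneg hq (by linarith)
  have s := sq_nonneg (v - 0.684 * g)
  nlinarith

/-- sector `g = -n ≤ 0`, `q ≥ 0`, `U ≥ 0` -/
private theorem s3p {U n q D1 D2 : ℝ} (hU : 0 ≤ U) (hU' : U ≤ 0.1381) (hn : 0 ≤ n) (hn' : n ≤ 0.12)
    (hq : 0 ≤ q) (hq' : q ≤ 0.128) (h1' : -0.006 ≤ D1)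
    (h2 : -0.0125 ≤ D2) (h2' : D2 ≤ 0) :
    0 ≤ 0.3369 * U ^ 2
      + 0.3485 * (((-n - q) + -n) / 3 - 2 * (-n * D1 + q * D2))
      + (0.3058 + 0.103 * U) * ((n - n ^ 2) / 2)
      + (0.3561 - 0.0982 * U) * ((q - q ^ 2) / 2 + n * (2/3 - 2 * U - 2 * D2 + n)
        - 0.007 * (n * (2/3 - 2 * U - 2 * D2 + n)))
      - 0.173 * (n + q) ^ 2 - 0.0005 * (n + q) := by
  have a1 : 0 ≤ n * (D1 + 0.006) := mul_nonneg hn (by linarith)
  have a2 : 0 ≤ n * (-D2) := mul_nonneg hn (by linarith)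
  have a3 : 0 ≤ q * (-D2) := mul_nonneg hq (by linarith)
  have b1 : 0 ≤ n * (0.128 - q) := mul_nonneg hn (by linarith)
  have b2 : 0 ≤ U * n := mul_nonneg hU hn
  have b3 : 0 ≤ U * q := mul_nonneg hU hq
  have b4 : 0 ≤ n * (0.1381 - U) := mul_nonneg hn (by linarith)
  have c2 : 0 ≤ (U * n) * (D2 + 0.0125) := mul_nonneg b2 (by linarith)
  have c4 : 0 ≤ q * (0.1381 - U) := mul_nonneg hq (by linarith)
  have c5 : 0 ≤ (U * n) * (0.12 - n) := mul_nonneg b2 (by linarith)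
  have c6 : 0 ≤ (U * q) * q := mul_nonneg b3 hq
  have c8 : 0 ≤ (U * n) * U := mul_nonneg b2 hU
  have e2 : 0 ≤ q * (0.128 - q) := mul_nonneg hq (by linarith)
  have d1 := sq_nonneg n
  have d3 := sq_nonneg U
  nlinarith

/-- sector `g = -n ≤ 0`, `q ≥ 0`, `U = -v ≤ 0` -/
private theorem s3m {v n q D1 D2 : ℝ} (hv : 0 ≤ v) (hv' : v ≤ 0.1381) (hn : 0 ≤ n) (hn' : n ≤ 0.12)
    (hq : 0 ≤ q) (hq' : q ≤ 0.128) (h1' : -0.006 ≤ D1)
    (h2 : -0.0125 ≤ D2) (h2' : D2 ≤ 0) :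
    0 ≤ 1.0347 * v ^ 2
      + 0.3485 * (((-n - q) + -n) / 3 - 2 * (-n * D1 + q * D2))
      + (0.3058 - 0.103 * v) * ((n - n ^ 2) / 2)
      + (0.3561 + 0.0982 * v) * ((q - q ^ 2) / 2 + n * (2/3 + 2 * v - 2 * D2 + n)
        - 0.007 * (n * (2/3 + 2 * v - 2 * D2 + n)))
      - 0.173 * (n + q) ^ 2 - 0.0005 * (n + q) := by
  have a1 : 0 ≤ n * (D1 + 0.006) := mul_nonneg hn (by linarith)
  have a2 : 0 ≤ n * (-D2) := mul_nonneg hn (by linarith)
  have a3 : 0 ≤ q * (-D2) := mul_nonneg hq (by linarith)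
  have b1 : 0 ≤ n * (0.128 - q) := mul_nonneg hn (by linarith)
  have b2 : 0 ≤ v * n := mul_nonneg hv hn
  have b3 : 0 ≤ v * q := mul_nonneg hv hq
  have c2 : 0 ≤ (v * n) * (-D2) := mul_nonneg b2 (by linarith)
  have c5 : 0 ≤ (v * n) * n := mul_nonneg b2 hn
  have c6 : 0 ≤ (v * q) * (0.128 - q) := mul_nonneg b3 (by linarith)
  have c8 : 0 ≤ (v * n) * v := mul_nonneg b2 hv
  have e2 : 0 ≤ q * (0.128 - q) := mul_nonneg hq (by linarith)
  have d1 := sq_nonneg n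
  have d3 := sq_nonneg v
  nlinarith

/-- sector `g = -n ≤ 0`, `q = -r ≤ 0`, `U ≥ 0`, `r ≥ n` -/
private theorem s4pp {U n r D1 D2 : ℝ} (hU : 0 ≤ U) (hU' : U ≤ 0.1381) (hn : 0 ≤ n) (hn' : n ≤ 0.12)
    (hr : 0 ≤ r) (hr' : r ≤ 0.1381) (h1' : -0.006 ≤ D1)
    (h2 : -0.0125 ≤ D2) (h2' : D2 ≤ 0) :
    0 ≤ 0.3369 * U ^ 2
      + 0.3485 * (((-n + r) + -n) / 3 - 2 * (-n * D1 - r * D2))
      + (0.3058 + 0.103 * U) * ((n - n ^ 2) / 2)
      + (0.3561 - 0.0982 * U) * ((r - r ^ 2) / 2 - (r - n) * (2/3 - 2 * U - 2 * D2 - (r - n))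
        - 0.007 * ((r - n) * (2/3 - 2 * U - 2 * D2 - (r - n))))
      - 0.173 * (r - n) ^ 2 - 0.0005 * (n + r) := by
  have a1 : 0 ≤ n * (D1 + 0.006) := mul_nonneg hn (by linarith)
  have a2 : 0 ≤ n * (-D2) := mul_nonneg hn (by linarith)
  have a3 : 0 ≤ r * (D2 + 0.0125) := mul_nonneg hr (by linarith)
  have b1 : 0 ≤ n * (0.1381 - r) := mul_nonneg hn (by linarith)
  have b2 : 0 ≤ U * n := mul_nonneg hU hn
  have b3 : 0 ≤ U * r := mul_nonneg hU hr
  have b4 : 0 ≤ n * (0.1381 - U) := mul_nonneg hn (by linarith)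
  have c2 : 0 ≤ (U * n) * (D2 + 0.0125) := mul_nonneg b2 (by linarith)
  have c3 : 0 ≤ (U * r) * (-D2) := mul_nonneg b3 (by linarith)
  have c5 : 0 ≤ (U * n) * (0.12 - n) := mul_nonneg b2 (by linarith)
  have c6 : 0 ≤ (U * r) * (0.1381 - r) := mul_nonneg b3 (by linarith)
  have c7 : 0 ≤ (U * n) * r := mul_nonneg b2 hr
  have c8 : 0 ≤ (U * n) * U := mul_nonneg b2 hU
  have c9 : 0 ≤ (U * r) * (0.1381 - U) := mul_nonneg b3 (by linarith)
  have d1 := sq_nonneg n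
  have d2 := sq_nonneg r
  have d3 := sq_nonneg U
  nlinarith

/-- sector `g = -n ≤ 0`, `q = -r ≤ 0`, `U = -v ≤ 0`, `r ≥ n` -/
private theorem s4mp {v n r D1 D2 : ℝ} (hv : 0 ≤ v) (hv' : v ≤ 0.1381) (hn : 0 ≤ n) (hn' : n ≤ 0.12)
    (hr : 0 ≤ r) (hr' : r ≤ 0.1381) (h1' : -0.006 ≤ D1)
    (h2 : -0.0125 ≤ D2) (h2' : D2 ≤ 0) :
    0 ≤ 1.0347 * v ^ 2
      + 0.3485 * (((-n + r) + -n) / 3 - 2 * (-n * D1 - r * D2))
      + (0.3058 - 0.103 * v) * ((n - n ^ 2) / 2)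
      + (0.3561 + 0.0982 * v) * ((r - r ^ 2) / 2 - (r - n) * (2/3 + 2 * v - 2 * D2 - (r - n))
        - 0.007 * ((r - n) * (2/3 + 2 * v - 2 * D2 - (r - n))))
      - 0.173 * (r - n) ^ 2 - 0.0005 * (n + r) := by
  have a1 : 0 ≤ n * (D1 + 0.006) := mul_nonneg hn (by linarith)
  have a2 : 0 ≤ n * (-D2) := mul_nonneg hn (by linarith)
  have a3 : 0 ≤ r * (D2 + 0.0125) := mul_nonneg hr (by linarith)
  have b1 : 0 ≤ n * (0.1381 - r) := mul_nonneg hn (by linarith)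
  have b2 : 0 ≤ v * n := mul_nonneg hv hn
  have b3 : 0 ≤ v * r := mul_nonneg hv hr
  have c2 : 0 ≤ (v * n) * (-D2) := mul_nonneg b2 (by linarith)
  have c3 : 0 ≤ (v * r) * (D2 + 0.0125) := mul_nonneg b3 (by linarith)
  have c5 : 0 ≤ (v * n) * n := mul_nonneg b2 hn
  have c6 : 0 ≤ (v * r) * r := mul_nonneg b3 hr
  have c7 : 0 ≤ (v * n) * (0.1381 - r) := mul_nonneg b2 (by linarith)
  have c8 : 0 ≤ (v * n) * v := mul_nonneg b2 hv
  have c9 : 0 ≤ (v * r) * (0.1381 - v) := mul_nonneg b3 (by linarith)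
  have d1 := sq_nonneg n
  have d2 := sq_nonneg r
  have e2 : 0 ≤ r * (0.1381 - r) := mul_nonneg hr (by linarith)
  have s := sq_nonneg (v - 0.36 * r)
  nlinarith

/-- sector `g = -n ≤ 0`, `q = -r ≤ 0`, `U ≥ 0`, `n ≥ r` -/
private theorem s4pm {U n r D1 D2 : ℝ} (hU : 0 ≤ U) (hU' : U ≤ 0.1381) (hn : 0 ≤ n) (hn' : n ≤ 0.12)
    (hr : 0 ≤ r) (hr' : r ≤ 0.1381) (h1' : -0.006 ≤ D1)
    (h2 : -0.0125 ≤ D2) (h2' : D2 ≤ 0) :
    0 ≤ 0.3369 * U ^ 2
      + 0.3485 * (((-n + r) + -n) / 3 - 2 * (-n * D1 - r * D2))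
      + (0.3058 + 0.103 * U) * ((n - n ^ 2) / 2)
      + (0.3561 - 0.0982 * U) * ((r - r ^ 2) / 2 - (r - n) * (2/3 - 2 * U - 2 * D2 - (r - n))
        - 0.007 * (-(r - n) * (2/3 - 2 * U - 2 * D2 - (r - n))))
      - 0.173 * (r - n) ^ 2 - 0.0005 * (n + r) := by
  have a1 : 0 ≤ n * (D1 + 0.006) := mul_nonneg hn (by linarith)
  have a2 : 0 ≤ n * (-D2) := mul_nonneg hn (by linarith)
  have a3 : 0 ≤ r * (D2 + 0.0125) := mul_nonneg hr (by linarith)
  have b1 : 0 ≤ n * (0.1381 - r) := mul_nonneg hn (by linarith)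
  have b2 : 0 ≤ U * n := mul_nonneg hU hn
  have b3 : 0 ≤ U * r := mul_nonneg hU hr
  have b4 : 0 ≤ n * (0.1381 - U) := mul_nonneg hn (by linarith)
  have c2 : 0 ≤ (U * n) * (D2 + 0.0125) := mul_nonneg b2 (by linarith)
  have c3 : 0 ≤ (U * r) * (-D2) := mul_nonneg b3 (by linarith)
  have c5 : 0 ≤ (U * n) * (0.12 - n) := mul_nonneg b2 (by linarith)
  have c6 : 0 ≤ (U * r) * (0.1381 - r) := mul_nonneg b3 (by linarith)
  have c7 : 0 ≤ (U * n) * r := mul_nonneg b2 hr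
  have c8 : 0 ≤ (U * n) * U := mul_nonneg b2 hU
  have c9 : 0 ≤ (U * r) * (0.1381 - U) := mul_nonneg b3 (by linarith)
  have d1 := sq_nonneg n
  have d2 := sq_nonneg r
  have d3 := sq_nonneg U
  nlinarith

/-- sector `g = -n ≤ 0`, `q = -r ≤ 0`, `U = -v ≤ 0`, `n ≥ r` -/
private theorem s4mm {v n r D1 D2 : ℝ} (hv : 0 ≤ v) (hv' : v ≤ 0.1381) (hn : 0 ≤ n) (hn' : n ≤ 0.12)
    (hr : 0 ≤ r) (hr' : r ≤ 0.1381) (h1' : -0.006 ≤ D1)
    (h2 : -0.0125 ≤ D2) (h2' : D2 ≤ 0) :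
    0 ≤ 1.0347 * v ^ 2
      + 0.3485 * (((-n + r) + -n) / 3 - 2 * (-n * D1 - r * D2))
      + (0.3058 - 0.103 * v) * ((n - n ^ 2) / 2)
      + (0.3561 + 0.0982 * v) * ((r - r ^ 2) / 2 - (r - n) * (2/3 + 2 * v - 2 * D2 - (r - n))
        - 0.007 * (-(r - n) * (2/3 + 2 * v - 2 * D2 - (r - n))))
      - 0.173 * (r - n) ^ 2 - 0.0005 * (n + r) := by
  have a1 : 0 ≤ n * (D1 + 0.006) := mul_nonneg hn (by linarith)
  have a2 : 0 ≤ n * (-D2) := mul_nonneg hn (by linarith)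
  have a3 : 0 ≤ r * (D2 + 0.0125) := mul_nonneg hr (by linarith)
  have b1 : 0 ≤ n * (0.1381 - r) := mul_nonneg hn (by linarith)
  have b2 : 0 ≤ v * n := mul_nonneg hv hn
  have b3 : 0 ≤ v * r := mul_nonneg hv hr
  have c2 : 0 ≤ (v * n) * (-D2) := mul_nonneg b2 (by linarith)
  have c3 : 0 ≤ (v * r) * (D2 + 0.0125) := mul_nonneg b3 (by linarith)
  have c5 : 0 ≤ (v * n) * n := mul_nonneg b2 hn
  have c6 : 0 ≤ (v * r) * r := mul_nonneg b3 hr
  have c7 : 0 ≤ (v * n) * (0.1381 - r) := mul_nonneg b2 (by linarith)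
  have c8 : 0 ≤ (v * n) * v := mul_nonneg b2 hv
  have c9 : 0 ≤ (v * r) * (0.1381 - v) := mul_nonneg b3 (by linarith)
  have d1 := sq_nonneg n
  have d2 := sq_nonneg r
  have e2 : 0 ≤ r * (0.1381 - r) := mul_nonneg hr (by linarith)
  have s := sq_nonneg (v - 0.36 * r)
  nlinarith

theorem Fp_nonneg {U g q D1 D2 D3 : ℝ} (h : VC U g q D1 D2 D3) (h1 : -0.006 ≤ D1)
    (h1' : D1 ≤ 0.0075) (h2 : -0.0125 ≤ D2) (h2' : D2 ≤ 0) : 0 ≤ Fp U g q D1 D2 := by
  obtain ⟨_, hU1, hU2, hg1, hg2, hq1, hq2, -, -, -⟩ := h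
  rcases le_or_gt 0 g with hg | hg
  · rcases le_or_gt 0 q with hq | hq
    · rcases le_or_gt 0 U with hU | hU
      · have k := s2p hU hU2 hg hg2 hq hq2 h1' h2 h2'
        unfold Fp xh yh
        rw [if_pos hg, if_pos hq, abs_of_nonneg hg, abs_of_nonneg hq, max_eq_left hU,
          max_eq_right (by linarith : -U ≤ 0)]
        exact k.trans_eq (by ring)
      · have k := s2m (v := -U) (by linarith) (by linarith) hg hg2 hq hq2 h1' h1 h2 h2'
        unfold Fp xh yh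
        rw [if_pos hg, if_pos hq, abs_of_nonneg hg, abs_of_nonneg hq, max_eq_right hU.le,
          max_eq_left (by linarith : 0 ≤ -U)]
        exact k.trans_eq (by ring)
    · rcases le_or_gt 0 U with hU | hU
      · have k := s1p (r := -q) hU hU2 hg hg2 (by linarith) (by linarith) h1' h1 h2 h2'
        unfold Fp xh yh
        rw [if_pos hg, if_neg (not_le.mpr hq), abs_of_nonneg hg, abs_of_neg hq, max_eq_left hU,
          max_eq_right (by linarith : -U ≤ 0), abs_of_nonneg (by linarith : 0 ≤ g - q)]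
        exact k.trans_eq (by ring)
      · have k := s1m (v := -U) (r := -q) (by linarith) (by linarith) hg hg2 (by linarith)
          (by linarith) h1' h1 h2 h2'
        unfold Fp xh yh
        rw [if_pos hg, if_neg (not_le.mpr hq), abs_of_nonneg hg, abs_of_neg hq, max_eq_right hU.le,
          max_eq_left (by linarith : 0 ≤ -U), abs_of_nonneg (by linarith : 0 ≤ g - q)]
        exact k.trans_eq (by ring)
  · rcases le_or_gt 0 q with hq | hq
    · rcases le_or_gt 0 U with hU | hU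
      · have k := s3p (n := -g) hU hU2 (by linarith) (by linarith) hq hq2 h1 h2 h2'
        unfold Fp xh yh
        rw [if_neg (not_le.mpr hg), if_pos hq, abs_of_neg hg, abs_of_nonneg hq, max_eq_left hU,
          max_eq_right (by linarith : -U ≤ 0)]
        exact k.trans_eq (by ring)
      · have k := s3m (v := -U) (n := -g) (by linarith) (by linarith) (by linarith) (by linarith)
          hq hq2 h1 h2 h2'
        unfold Fp xh yh
        rw [if_neg (not_le.mpr hg), if_pos hq, abs_of_neg hg, abs_of_nonneg hq, max_eq_right hU.le,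
          max_eq_left (by linarith : 0 ≤ -U)]
        exact k.trans_eq (by ring)
    · rcases le_or_gt 0 U with hU | hU
      · rcases le_or_gt 0 (g - q) with hb | hb
        · have k := s4pp (n := -g) (r := -q) hU hU2 (by linarith) (by linarith) (by linarith)
            (by linarith) h1 h2 h2'
          unfold Fp xh yh
          rw [if_neg (not_le.mpr hg), if_neg (not_le.mpr hq), abs_of_neg hg, abs_of_neg hq,
            max_eq_left hU, max_eq_right (by linarith : -U ≤ 0), abs_of_nonneg hb]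
          exact k.trans_eq (by ring)
        · have k := s4pm (n := -g) (r := -q) hU hU2 (by linarith) (by linarith) (by linarith)
            (by linarith) h1 h2 h2'
          unfold Fp xh yh
          rw [if_neg (not_le.mpr hg), if_neg (not_le.mpr hq), abs_of_neg hg, abs_of_neg hq,
            max_eq_left hU, max_eq_right (by linarith : -U ≤ 0), abs_of_neg hb]
          exact k.trans_eq (by ring)
      · rcases le_or_gt 0 (g - q) with hb | hb
        · have k := s4mp (v := -U) (n := -g) (r := -q) (by linarith) (by linarith) (by linarith)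
            (by linarith) (by linarith) (by linarith) h1 h2 h2'
          unfold Fp xh yh
          rw [if_neg (not_le.mpr hg), if_neg (not_le.mpr hq), abs_of_neg hg, abs_of_neg hq,
            max_eq_right hU.le, max_eq_left (by linarith : 0 ≤ -U), abs_of_nonneg hb]
          exact k.trans_eq (by ring)
        · have k := s4mm (v := -U) (n := -g) (r := -q) (by linarith) (by linarith) (by linarith)
            (by linarith) (by linarith) (by linarith) h1 h2 h2'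
          unfold Fp xh yh
          rw [if_neg (not_le.mpr hg), if_neg (not_le.mpr hq), abs_of_neg hg, abs_of_neg hq,
            max_eq_right hU.le, max_eq_left (by linarith : 0 ≤ -U), abs_of_neg hb]
          exact k.trans_eq (by ring)

end Pool.Agent.Lib.P37
end

section

namespace Pool.Agent.Lib.P37

open Real

/-- Cauchy-Binet with the reference normals `ee (6p)`, `ee (12p)` -/
theorem area_ref {U D1 D2 D3 A1 A2 A3 d1 d2 d3 r : ℝ} (hA1 : A1 = π / 3 + p * D1)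
    (hA2 : A2 = π / 3 + p * D2) (hA3 : A3 = π / 3 + p * D3) (hs : D1 + D2 + D3 = 0)
    (h1 : d1 = 2 * r * sin A3) (h2 : d2 = 2 * r * sin A1) (h3 : d3 = 2 * r * sin A2) :
    s6 * (d1 * d3 * sin A1) =
      d1 * cos (6 * p + p * U) * (d2 * cos (p * (U - 1/3 + D2)) + d1 * cos (12 * p + p * U))
        - d1 * cos (12 * p + p * U) * (d3 * cos (p * (U - 1/6 - D1))) := by
  have hpi := pi_eq
  have e1 : cos (p * (U - 1/3 + D2)) = - cos ((12 * p + p * U) + A2) := by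
    have : p * (U - 1/3 + D2) = ((12 * p + p * U) + A2) - π := by
      rw [hA2]; linarith
    rw [this, cos_sub_pi]
  have e2 : cos (p * (U - 1/6 - D1)) = cos ((6 * p + p * U) - A1) := by
    congr 1
    rw [hA1]; linarith
  have e3 : s6 = sin ((12 * p + p * U) - (6 * p + p * U)) := by
    unfold s6
    congr 1
    ring
  have e4 : sin A3 = sin (A1 + A2) := by
    have : A3 = π - (A1 + A2) := by
      rw [hA1, hA2, hA3]
      have : p * D1 + p * D2 + p * D3 = 0 := by rw [← mul_add, ← mul_add, hs, mul_zero]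
      linarith
    rw [this, sin_pi_sub]
  rw [e1, e2, e3, h1, h2, h3, e4]
  generalize 12 * p + p * U = γ
  generalize 6 * p + p * U = β
  rw [sin_add, sin_sub, cos_add, cos_sub]
  have hc : cos A1 ^ 2 = 1 - sin A1 ^ 2 := by
    have := sin_sq_add_cos_sq A1; linarith
  ring

/-- monotonicity of the area expression -/
theorem area_mono {P6 P12 ξ X Y w X0 Y0 : ℝ} (hP6 : 0.49 ≤ P6) (hP6' : P6 ≤ 0.56)
    (hP12 : -0.49 ≤ P12) (hP12' : P12 ≤ -0.42) (hw : 0 ≤ w) (hξ : w ≤ ξ) (hξ' : ξ ≤ 2.03)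
    (hX0 : 1.9 ≤ X0) (hX : X0 ≤ X) (hY0 : 1.9 ≤ Y0) (hY : Y0 ≤ Y) :
    w * P6 * (Y0 + w * P12) - w * P12 * X0 ≤ ξ * P6 * (Y + ξ * P12) - ξ * P12 * X := by
  have hξ0 : 0 ≤ ξ := hw.trans hξ
  have hY1 : ξ * P6 * Y0 ≤ ξ * P6 * Y := by
    apply mul_le_mul_of_nonneg_left hY
    exact mul_nonneg hξ0 (by linarith)
  have hX1 : ξ * (-P12) * X0 ≤ ξ * (-P12) * X := by
    apply mul_le_mul_of_nonneg_left hX
    exact mul_nonneg hξ0 (by linarith)
  have hd : 0 ≤ ξ - w := by linarith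
  have hA : 0.49 * 1.9 ≤ P6 * Y0 := by
    have := mul_le_mul hP6 hY0 (by norm_num) (by linarith : (0:ℝ) ≤ P6)
    exact this
  have hB : 0.42 * 1.9 ≤ (-P12) * X0 := by
    exact mul_le_mul (by linarith : (0.42:ℝ) ≤ -P12) hX0 (by norm_num) (by linarith)
  have hC : P6 * (-P12) ≤ 0.56 * 0.49 :=
    mul_le_mul hP6' (by linarith) (by linarith) (by norm_num)
  have hC0 : 0 ≤ P6 * (-P12) := mul_nonneg (by linarith) (by linarith)
  have hD : P6 * (-P12) * (ξ + w) ≤ 0.56 * 0.49 * 4.06 := by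
    apply mul_le_mul hC (by linarith) (by linarith) (by norm_num)
  have hE : 0 ≤ P6 * Y0 + (-P12) * X0 - P6 * (-P12) * (ξ + w) := by
    have : (0:ℝ) ≤ 0.49 * 1.9 + 0.42 * 1.9 - 0.56 * 0.49 * 4.06 := by norm_num
    linarith
  have hF := mul_nonneg hd hE
  nlinarith [hF, hY1, hX1]

end Pool.Agent.Lib.P37
end
end

section

section

namespace Pool.Agent.Lib.P37

open Real

private theorem ve_nd_eq (x : ℝ) (n : ℤ) (h : |x - n| ≤ 1/2) : nd x = |x - n| := by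
  rw [abs_le] at h
  rcases le_or_gt (n : ℝ) x with h0 | h0
  · rw [nd_eq_min (k := n) h0 (by linarith), min_eq_left (by linarith), abs_of_nonneg (by linarith)]
  · have h1 : ((n - 1 : ℤ) : ℝ) ≤ x := by push_cast; linarith
    have h2 : x ≤ ((n - 1 : ℤ) : ℝ) + 1 := by push_cast; linarith
    rw [nd_eq_min h1 h2, min_eq_right (by push_cast; linarith), abs_of_neg (by linarith)]
    push_cast
    ring

private theorem ve_nd_small {x : ℝ} (h : |x| ≤ 1/2) : nd x = |x| := by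
  have := ve_nd_eq x 0 (by simpa using h)
  simpa using this

private theorem ve_nd_half {w : ℝ} (h : |w| ≤ 1/2) : nd (w - 1/2) = 1/2 - |w| := by
  rcases le_or_gt 0 w with h0 | h0
  · rw [abs_of_nonneg h0] at h ⊢
    rw [ve_nd_small (by rw [abs_le]; constructor <;> linarith), abs_of_nonpos (by linarith)]
    ring
  · rw [abs_of_neg h0] at h ⊢
    have h1 : (w - 1/2) - ((-1 : ℤ) : ℝ) = w + 1/2 := by push_cast; ring
    rw [ve_nd_eq (w - 1/2) (-1) (by rw [h1, abs_le]; constructor <;> linarith), h1,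
      abs_of_nonneg (by linarith)]
    ring

private theorem ve_g0_neg {z : ℝ} (h : z ≤ 0) (h' : -1/2 ≤ z) : g0 z = z / 6 + z ^ 2 / 3 := by
  have h1 : z - ((0 : ℤ) : ℝ) = z := by simp
  have := g0_eq z 0 (by rw [h1, abs_le]; constructor <;> linarith)
  rw [this, h1, abs_of_nonpos h]
  ring

private theorem ve_g0_small {z : ℝ} (h : |z| ≤ 1/2) : g0 z = z / 6 - z * |z| / 3 := by
  have h1 : z - ((0 : ℤ) : ℝ) = z := by simp
  have := g0_eq z 0 (by rw [h1]; exact h)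
  rw [this, h1]

private theorem ve_g0_half {w : ℝ} (h : |w| ≤ 1/2) : g0 (w - 1/2) = - (w / 6 - w * |w| / 3) := by
  rcases le_or_gt 0 w with h0 | h0
  · rw [abs_of_nonneg h0] at h ⊢
    rw [ve_g0_neg (by linarith) (by linarith)]
    ring
  · rw [abs_of_neg h0] at h ⊢
    have h1 : (w - 1/2) - ((-1 : ℤ) : ℝ) = w + 1/2 := by push_cast; ring
    rw [g0_eq (w - 1/2) (-1) (by rw [h1, abs_le]; constructor <;> linarith), h1,
      abs_of_nonneg (by linarith)]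
    ring

theorem E12_eval {U g q D1 D2 D3 : ℝ} (h : VC U g q D1 D2 D3) :
    Ee U (U + g - q - 1/2) = E12p U g q := by
  obtain ⟨hs, hU1, hU2, hg1, hg2, hq1, hq2, hug1, hug2, hub⟩ := h
  have hU : |U| ≤ 0.1381 := by rw [abs_le]; constructor <;> linarith
  have hw : |U + g - q| ≤ 0.2762 := by rw [abs_le]; constructor <;> linarith
  have hb : |g - q| ≤ 1/2 := by rw [abs_le]; constructor <;> linarith
  have hU' : |U| ≤ 1/2 := by linarith
  have hw' : |U + g - q| ≤ 1/2 := by linarith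
  have e1 : U - (U + g - q - 1/2) = -((g - q) - 1/2) := by ring
  unfold Ee E12p tau
  rw [e1, nd_neg, ve_nd_half hb, ve_nd_half hw', ve_nd_small hU', min_eq_left (by linarith), sq_abs]
  have h2 : |g - q| ^ 2 = (g - q) ^ 2 := sq_abs _
  have : (1/2 - |g - q|) * (1 - (1/2 - |g - q|)) = 1/4 - |g - q| ^ 2 := by ring
  rw [this, h2]
  ring

theorem E31_eval {U g q D1 D2 D3 : ℝ} (h : VC U g q D1 D2 D3) (h1 : -0.026 ≤ D1) (h1' : D1 ≤ 0.052) :
    Ee (U + g - 1/6 - D1) (U - 1/6 - D1) = E31p U g D1 := by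
  obtain ⟨hs, hU1, hU2, hg1, hg2, hq1, hq2, hug1, hug2, hub⟩ := h
  have hg : |g| ≤ 1/2 := by rw [abs_le]; constructor <;> linarith
  have e1 : U + g - 1/6 - D1 - (U - 1/6 - D1) = g := by ring
  unfold Ee E31p tau
  rw [e1, ve_nd_small hg,
    ve_nd_small (x := U + g - 1/6 - D1) (by rw [abs_le]; constructor <;> linarith),
    ve_nd_small (x := U - 1/6 - D1) (by rw [abs_le]; constructor <;> linarith),
    abs_of_nonpos (a := U + g - 1/6 - D1) (by linarith),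
    abs_of_nonpos (a := U - 1/6 - D1) (by linarith)]
  split_ifs with h0
  · rw [min_eq_left (by linarith), abs_of_nonneg h0]
    ring
  · push Not at h0
    rw [min_eq_right (by linarith), abs_of_neg h0]
    ring

theorem E23_eval {U g q D1 D2 D3 : ℝ} (h : VC U g q D1 D2 D3) (h2 : -0.026 ≤ D2) (h2' : D2 ≤ 0.052) :
    Ee (U + g - q - 1/3 + D2) (U + g - 1/3 + D2) = E23p U g q D2 := by
  obtain ⟨hs, hU1, hU2, hg1, hg2, hq1, hq2, hug1, hug2, hub⟩ := h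
  have hq : |q| ≤ 1/2 := by rw [abs_le]; constructor <;> linarith
  have e1 : U + g - q - 1/3 + D2 - (U + g - 1/3 + D2) = -q := by ring
  unfold Ee E23p tau
  rw [e1, nd_neg, ve_nd_small hq,
    ve_nd_small (x := U + g - q - 1/3 + D2) (by rw [abs_le]; constructor <;> linarith),
    ve_nd_small (x := U + g - 1/3 + D2) (by rw [abs_le]; constructor <;> linarith),
    abs_of_nonpos (a := U + g - q - 1/3 + D2) (by linarith),
    abs_of_nonpos (a := U + g - 1/3 + D2) (by linarith)]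
  split_ifs with h0
  · rw [min_eq_right (by linarith), abs_of_nonneg h0]
    ring
  · push Not at h0
    rw [min_eq_left (by linarith), abs_of_neg h0]
    ring

theorem Gs_eval {U g q D1 D2 D3 : ℝ} (h : VC U g q D1 D2 D3) (h1 : -0.026 ≤ D1) (h1' : D1 ≤ 0.052)
    (h2 : -0.026 ≤ D2) (h2' : D2 ≤ 0.052) :
    Gs U (U + g - q - 1/3 + D2) (U + g - 1/6 - D1) D1 D2 D3 = Gsp U g q D1 D2 := by
  obtain ⟨hs, hU1, hU2, hg1, hg2, hq1, hq2, hug1, hug2, hub⟩ := h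
  have hU : |U| ≤ 1/2 := by rw [abs_le]; constructor <;> linarith
  have hw : |U + g - q| ≤ 1/2 := by rw [abs_le]; constructor <;> linarith
  have e2 : U + g - q - 1/3 + D2 - 1/6 - D2 = (U + g - q) - 1/2 := by ring
  have e3 : U + g - 1/6 - D1 - 1/6 - D3 = U + g - 1/3 + D2 := by linarith
  unfold Gs Gsp
  rw [e2, e3, ve_g0_small hU, ve_g0_half hw,
    ve_g0_neg (z := U - 1/6 - D1) (by linarith) (by linarith),
    ve_g0_neg (z := U + g - q - 1/3 + D2) (by linarith) (by linarith),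
    ve_g0_neg (z := U + g - 1/6 - D1) (by linarith) (by linarith),
    ve_g0_neg (z := U + g - 1/3 + D2) (by linarith) (by linarith)]
  rcases le_or_gt 0 U with hU0 | hU0 <;> rcases le_or_gt 0 (U + g - q) with hw0 | hw0
  · rw [max_eq_left hU0, max_eq_right (by linarith), abs_of_nonneg hU0, abs_of_nonneg hw0]
    ring
  · rw [max_eq_left hU0, max_eq_left (by linarith), abs_of_nonneg hU0, abs_of_neg hw0]
    ring
  · rw [max_eq_right hU0.le, max_eq_right (by linarith), abs_of_neg hU0, abs_of_nonneg hw0]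
    ring
  · rw [max_eq_right hU0.le, max_eq_left (by linarith), abs_of_neg hU0, abs_of_neg hw0]
    ring

private theorem ve_Gs_cyc (X1 X2 X3 D1 D2 D3 : ℝ) :
    Gs X2 X3 X1 D2 D3 D1 = Gs X1 X2 X3 D1 D2 D3 := by
  unfold Gs
  ring

theorem MI1_eval {U g q D1 D2 D3 : ℝ} (h : VC U g q D1 D2 D3) (h1 : -0.026 ≤ D1) (h1' : D1 ≤ 0.052)
    (h2 : -0.026 ≤ D2) (h2' : D2 ≤ 0.052) :
    MI U (U + g - q - 1/3 + D2) (U + g - 1/6 - D1) D1 D2 D3 = MIp1 U g q D1 D2 D3 := by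
  unfold MI MIp1
  rw [Gs_eval h h1 h1' h2 h2']
  have e : U + g - q - 1/3 + D2 - 1/6 - D2 = U + g - q - 1/2 := by ring
  rw [e, E12_eval h]

theorem MI2_eval {U g q D1 D2 D3 : ℝ} (h : VC U g q D1 D2 D3) (h1 : -0.026 ≤ D1) (h1' : D1 ≤ 0.052)
    (h2 : -0.026 ≤ D2) (h2' : D2 ≤ 0.052) :
    MI (U + g - q - 1/3 + D2) (U + g - 1/6 - D1) U D2 D3 D1 = MIp2 U g q D1 D2 D3 := by
  unfold MI MIp2
  rw [ve_Gs_cyc, Gs_eval h h1 h1' h2 h2']
  have e : U + g - 1/6 - D1 - 1/6 - D3 = U + g - 1/3 + D2 := by linarith [h.sum]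
  rw [e, E23_eval h h2 h2']

theorem MI3_eval {U g q D1 D2 D3 : ℝ} (h : VC U g q D1 D2 D3) (h1 : -0.026 ≤ D1) (h1' : D1 ≤ 0.052)
    (h2 : -0.026 ≤ D2) (h2' : D2 ≤ 0.052) :
    MI (U + g - 1/6 - D1) U (U + g - q - 1/3 + D2) D3 D1 D2 = MIp3 U g q D1 D2 D3 := by
  unfold MI MIp3
  rw [ve_Gs_cyc, ve_Gs_cyc, Gs_eval h h1 h1' h2 h2', E31_eval h h1 h1']

end Pool.Agent.Lib.P37
end

section

namespace Pool.Agent.Lib.P37

open Real

private theorem pinA {U v w D1 D2 : ℝ} (hU1 : -0.1381 ≤ U) (hU2 : U ≤ 0.1381) (hv1 : -0.1381 ≤ v)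
    (hv2 : v ≤ 0.1381) (hw1 : -0.1381 ≤ w) (hg2 : v - U ≤ 0.1485)
    (hg1 : -0.12 ≤ v - U) (hq1 : -0.1381 ≤ v - w)
    (h1 : -0.026 ≤ D1) (h1' : D1 ≤ -0.006) (h2 : -0.026 ≤ D2) (h3 : D1 + D2 ≤ 0.026) :
    0 ≤ (if 0 ≤ v - w then (v - 1/3 + D2)^2 + ((v-w) - (v-w)^2)/2 else
      (w - 1/3 + D2)^2 + (-(v-w) - (v-w)^2)/2) - 6.8 * D1 + D1^2 - (D1 + 2 * D2)^2/3
      + 23/22 * ((U+v+w)/9 + (2/3) * ((max (-w) 0)^2 - (max U 0)^2)
        - 2/3 * ((v-U)*D1 + (v-w)*D2)) - 0.0908 := by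
  rcases le_total 0 U with hU | hU
  · rw [max_eq_left hU]
    rcases le_total 0 w with hw | hw
    · rw [max_eq_right (by linarith : -w ≤ 0)]
      split_ifs with hq
      · nlinarith
      · rw [not_le] at hq
        nlinarith
    · rw [max_eq_left (by linarith : 0 ≤ -w)]
      split_ifs with hq
      · nlinarith
      · rw [not_le] at hq
        nlinarith
  · rw [max_eq_right hU]
    rcases le_total 0 w with hw | hw
    · rw [max_eq_right (by linarith : -w ≤ 0)]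
      split_ifs with hq
      · nlinarith
      · rw [not_le] at hq
        nlinarith
    · rw [max_eq_left (by linarith : 0 ≤ -w)]
      split_ifs with hq
      · nlinarith
      · rw [not_le] at hq
        nlinarith

private theorem pinB {U v w D1 D2 : ℝ} (hU1 : -0.1381 ≤ U) (hU2 : U ≤ 0.1381) (hv1 : -0.1381 ≤ v)
    (hv2 : v ≤ 0.1381) (hw1 : -0.1381 ≤ w) (hg2 : v - U ≤ 0.1485)
    (hg1 : -0.12 ≤ v - U) (hq1 : -0.1381 ≤ v - w) (hq2 : v - w ≤ 0.128)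
    (h1 : -0.026 ≤ D1) (h2 : -0.026 ≤ D2) (h2' : D2 ≤ -0.0125) (h3 : D1 + D2 ≤ 0.026) :
    0 ≤ (if 0 ≤ v - U then (v - 1/6 - D1)^2 + ((v-U) - (v-U)^2)/2 else
      (U - 1/6 - D1)^2 + (-(v-U) - (v-U)^2)/2) - 6.8 * D2 + D2^2 - (2 * D1 + D2)^2/3
      + 23/22 * ((U+v+w)/9 + (2/3) * ((max (-w) 0)^2 - (max U 0)^2)
        - 2/3 * ((v-U)*D1 + (v-w)*D2)) - 0.0908 := by
  rcases le_total 0 U with hU | hU
  · rw [max_eq_left hU]
    rcases le_total 0 w with hw | hw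
    · rw [max_eq_right (by linarith : -w ≤ 0)]
      split_ifs with hq
      · nlinarith
      · rw [not_le] at hq
        nlinarith
    · rw [max_eq_left (by linarith : 0 ≤ -w)]
      split_ifs with hq
      · nlinarith
      · rw [not_le] at hq
        nlinarith
  · rw [max_eq_right hU]
    rcases le_total 0 w with hw | hw
    · rw [max_eq_right (by linarith : -w ≤ 0)]
      split_ifs with hq
      · nlinarith
      · rw [not_le] at hq
        nlinarith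
    · rw [max_eq_left (by linarith : 0 ≤ -w)]
      split_ifs with hq
      · nlinarith
      · rw [not_le] at hq
        nlinarith

private theorem pinC {U v w D1 D2 : ℝ} (hU1 : -0.1381 ≤ U) (hU2 : U ≤ 0.1381) (hv1 : -0.1381 ≤ v)
    (hv2 : v ≤ 0.1381) (hw1 : -0.1381 ≤ w) (hg2 : v - U ≤ 0.1485)
    (hg1 : -0.12 ≤ v - U) (hq1 : -0.1381 ≤ v - w) (hq2 : v - w ≤ 0.128)
    (h1 : -0.026 ≤ D1) (h2 : -0.026 ≤ D2) (h3 : 0.001 ≤ D1 + D2) (h4 : D1 + D2 ≤ 0.026) :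
    0 ≤ (U ^ 2 + 1/8 - (w - U) ^ 2 / 2) + 6.8 * (D1 + D2) + (D1 + D2)^2 - (D1 - D2)^2/3
      + 23/22 * ((U+v+w)/9 + (2/3) * ((max (-w) 0)^2 - (max U 0)^2)
        - 2/3 * ((v-U)*D1 + (v-w)*D2)) - 0.0908 := by
  rcases le_total 0 U with hU | hU
  · rw [max_eq_left hU]
    rcases le_total 0 w with hw | hw
    · rw [max_eq_right (by linarith : -w ≤ 0)]
      nlinarith
    · rw [max_eq_left (by linarith : 0 ≤ -w)]
      nlinarith
  · rw [max_eq_right hU]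
    rcases le_total 0 w with hw | hw
    · rw [max_eq_right (by linarith : -w ≤ 0)]
      nlinarith
    · rw [max_eq_left (by linarith : 0 ≤ -w)]
      nlinarith

theorem V_pin1 {U g q D1 D2 D3 : ℝ} (h : VC U g q D1 D2 D3) (h1 : -0.026 ≤ D1)
    (h2 : -0.026 ≤ D2) (h3 : -0.026 ≤ D3) (hM1 : MIp1 U g q D1 D2 D3 < 0)
    (hM2 : MIp2 U g q D1 D2 D3 < 0) (hM3 : MIp3 U g q D1 D2 D3 < 0) :
    -0.006 ≤ D1 ∧ -0.0125 ≤ D2 ∧ -0.001 ≤ D3 := by
  obtain ⟨hs, hU1, hU2, hg1, hg2, hq1, hq2, hv1, hv2, hw1⟩ := h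
  have hD3 : D3 = -(D1 + D2) := by linarith
  subst hD3
  obtain ⟨v, rfl⟩ : ∃ v, g = v - U := ⟨U + g, by ring⟩
  obtain ⟨w, rfl⟩ : ∃ w, q = v - w := ⟨v - q, by ring⟩
  have ev : U + (v - U) = v := by ring
  have ew : U + (v - U) - (v - w) = w := by ring
  rw [ev] at hv1 hv2
  rw [ew] at hw1
  have egq : v - U - (v - w) = w - U := by ring
  have hG : Gsp U (v - U) (v - w) D1 D2 = (U+v+w)/9 + (2/3) * ((max (-w) 0)^2 - (max U 0)^2)
        - 2/3 * ((v-U)*D1 + (v-w)*D2) := by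
    unfold Gsp
    rw [ew, egq]
    ring
  refine ⟨?_, ?_, ?_⟩
  · by_contra hc
    rw [not_le] at hc
    have h4 := pinA hU1 hU2 hv1 hv2 hw1 hg2 hg1 hq1 h1 hc.le h2 (by linarith)
    unfold MIp2 at hM2
    rw [hG] at hM2
    have hE : E23p U (v - U) (v - w) D2 = if 0 ≤ v - w then (v - 1/3 + D2)^2 + ((v-w) - (v-w)^2)/2
        else (w - 1/3 + D2)^2 + (-(v-w) - (v-w)^2)/2 := by
      unfold E23p
      rw [ew, ev]
    have hE0 : 0 ≤ E23p U (v - U) (v - w) D2 := by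
      rw [hE]
      split_ifs with hq
      · nlinarith [sq_nonneg (v - 1/3 + D2)]
      · rw [not_le] at hq
        nlinarith [sq_nonneg (w - 1/3 + D2)]
    rw [← hE] at h4
    have h5 : 0 ≤ E23p U (v - U) (v - w) D2 * -D1 := mul_nonneg hE0 (by linarith)
    nlinarith
  · by_contra hc
    rw [not_le] at hc
    have h4 := pinB hU1 hU2 hv1 hv2 hw1 hg2 hg1 hq1 hq2 h1 h2 hc.le (by linarith)
    unfold MIp3 at hM3
    rw [hG] at hM3
    have hE : E31p U (v - U) D1 = if 0 ≤ v - U then (v - 1/6 - D1)^2 + ((v-U) - (v-U)^2)/2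
        else (U - 1/6 - D1)^2 + (-(v-U) - (v-U)^2)/2 := by
      unfold E31p
      rw [ev]
    have hE0 : 0 ≤ E31p U (v - U) D1 := by
      rw [hE]
      split_ifs with hq
      · nlinarith [sq_nonneg (v - 1/6 - D1)]
      · rw [not_le] at hq
        nlinarith [sq_nonneg (U - 1/6 - D1)]
    rw [← hE] at h4
    have h5 : 0 ≤ E31p U (v - U) D1 * -D2 := mul_nonneg hE0 (by linarith)
    nlinarith
  · by_contra hc
    rw [not_le] at hc
    have h4 := pinC hU1 hU2 hv1 hv2 hw1 hg2 hg1 hq1 hq2 h1 h2 (by linarith) (by linarith)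
    unfold MIp1 at hM1
    rw [hG] at hM1
    have hE : E12p U (v - U) (v - w) = U ^ 2 + 1/8 - (w - U) ^ 2 / 2 := by
      unfold E12p
      rw [egq]
    have hE0 : 0 ≤ E12p U (v - U) (v - w) := by
      rw [hE]
      nlinarith
    rw [← hE] at h4
    have h5 : 0 ≤ E12p U (v - U) (v - w) * (D1 + D2) := mul_nonneg hE0 (by linarith)
    nlinarith

end Pool.Agent.Lib.P37
end

section

namespace Pool.Agent.Lib.P37

open Real

private theorem cos_ratio_aux1 {a b : ℝ} (hb : |b| ≤ 0.086) (h : |b| ≤ |a|) :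
    cos b * (1 - (a ^ 2 - b ^ 2) / 2 - 0.002 * |a ^ 2 - b ^ 2|) ≤ cos a := by
  have hsq : b ^ 2 ≤ a ^ 2 := sq_le_sq.mpr h
  rw [abs_of_nonneg (sub_nonneg.mpr hsq)]
  have h1 : cos b - cos a ≤ (a ^ 2 - b ^ 2) / 2 := by
    have e : cos b - cos a = 2 * (sin ((a + b) / 2) * sin ((a - b) / 2)) := by
      rw [cos_sub_cos]
      have : sin ((b - a) / 2) = - sin ((a - b) / 2) := by
        rw [← sin_neg]; congr 1; ring
      rw [this, add_comm b a]
      ring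
    rw [e]
    have e1 : sin ((a + b) / 2) * sin ((a - b) / 2) ≤ |(a + b) / 2| * |(a - b) / 2| := by
      calc sin ((a + b) / 2) * sin ((a - b) / 2) ≤ |sin ((a + b) / 2) * sin ((a - b) / 2)| := le_abs_self _
        _ = |sin ((a + b) / 2)| * |sin ((a - b) / 2)| := abs_mul _ _
        _ ≤ |(a + b) / 2| * |(a - b) / 2| :=
            mul_le_mul (abs_sin_le_abs ) (abs_sin_le_abs) (abs_nonneg _) (abs_nonneg _)
    have e2 : |(a + b) / 2| * |(a - b) / 2| = (a ^ 2 - b ^ 2) / 4 := by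
      rw [← abs_mul]
      have : (a + b) / 2 * ((a - b) / 2) = (a ^ 2 - b ^ 2) / 4 := by ring
      rw [this]
      exact abs_of_nonneg (by linarith)
    linarith
  have h2 : 0.9963 ≤ cos b := by
    have := one_sub_sq_div_two_le_cos (x := b)
    have hb2 : b ^ 2 ≤ 0.086 ^ 2 := by
      rw [← sq_abs b]
      exact pow_le_pow_left₀ (abs_nonneg _) hb 2
    norm_num at hb2 ⊢
    linarith
  have h3 : 0 ≤ (a ^ 2 - b ^ 2) * (cos b - 0.9963) :=
    mul_nonneg (sub_nonneg.mpr hsq) (by linarith)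
  norm_num at h3 ⊢
  nlinarith

private theorem cos_ratio_aux2 {a b : ℝ} (ha : 0 ≤ a) (hb : b ≤ 0.086) (h : a < b) :
    cos b * (1 - (a ^ 2 - b ^ 2) / 2 - 0.002 * |a ^ 2 - b ^ 2|) ≤ cos a := by
  have hsq : 0 < b ^ 2 - a ^ 2 := by nlinarith
  have habs : |a ^ 2 - b ^ 2| = b ^ 2 - a ^ 2 := by
    rw [abs_of_neg (by linarith)]; ring
  rw [habs]
  have h1 : 0.498 * (b ^ 2 - a ^ 2) ≤ cos a - cos b := by
    have e : cos a - cos b = 2 * (sin ((a + b) / 2) * sin ((b - a) / 2)) := by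
      rw [cos_sub_cos]
      have : sin ((a - b) / 2) = - sin ((b - a) / 2) := by
        rw [← sin_neg]; congr 1; ring
      rw [this]
      ring
    rw [e]
    set s := (a + b) / 2 with hs
    set t := (b - a) / 2 with ht
    have hs0 : 0 < s := by rw [hs]; linarith
    have ht0 : 0 < t := by rw [ht]; linarith
    have hs1 : s ≤ 0.086 := by rw [hs]; linarith
    have ht1 : t ≤ 0.043 := by rw [ht]; norm_num at hb ⊢; linarith
    have es : s * 0.9981 ≤ sin s := by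
      have := sin_gt_sub_cube hs0
      have h2 : s ^ 2 ≤ 0.0074 := by norm_num at hs1 ⊢; nlinarith
      norm_num at h2 ⊢
      nlinarith
    have et : t * 0.9995 ≤ sin t := by
      have := sin_gt_sub_cube ht0
      have h2 : t ^ 2 ≤ 0.002 := by norm_num at ht1 ⊢; nlinarith
      norm_num at h2 ⊢
      nlinarith
    have h3 : (s * 0.9981) * (t * 0.9995) ≤ sin s * sin t :=
      mul_le_mul es et (by positivity) (by
        have : 0 ≤ s * 0.9981 := by positivity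
        linarith)
    have h4 : b ^ 2 - a ^ 2 = 4 * (s * t) := by rw [hs, ht]; ring
    rw [h4]
    have h5 : 0 < s * t := mul_pos hs0 ht0
    norm_num at h3 ⊢
    nlinarith
  have h2 : cos b * (b ^ 2 - a ^ 2) ≤ b ^ 2 - a ^ 2 := by
    have := cos_le_one b
    nlinarith
  norm_num at h1 ⊢
  nlinarith

theorem cos_ratio {a b : ℝ} (ha : |a| ≤ 0.086) (hb : |b| ≤ 0.086) :
    cos b * (1 - (a ^ 2 - b ^ 2) / 2 - 0.002 * |a ^ 2 - b ^ 2|) ≤ cos a := by
  rcases le_or_gt |b| |a| with h | h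
  · exact cos_ratio_aux1 hb h
  · have := cos_ratio_aux2 (abs_nonneg a) hb h
    rw [cos_abs, cos_abs, sq_abs, sq_abs] at this
    exact this

private theorem nd_eq_abs {x : ℝ} (h : |x| ≤ 1/2) : nd x = |x| := by
  rcases le_or_gt 0 x with hx | hx
  · rw [abs_of_nonneg hx] at h ⊢
    rw [nd_eq_min (k := 0) (by simpa using hx) (by push_cast; linarith)]
    push_cast
    rw [min_eq_left (by linarith)]
    ring
  · rw [abs_of_neg hx] at h ⊢
    rw [nd_eq_min (k := -1) (by push_cast; linarith) (by push_cast; linarith)]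
    push_cast
    rw [min_eq_right (by linarith)]
    ring

private theorem nd_sub_half {x : ℝ} (h : |x| ≤ 1/2) : nd (x - 1/2) = 1/2 - |x| := by
  rcases le_or_gt 0 x with hx | hx
  · rw [abs_of_nonneg hx] at h ⊢
    rw [nd_eq_min (k := -1) (by push_cast; linarith) (by push_cast; linarith)]
    push_cast
    rw [min_eq_right (by linarith)]
    ring
  · rw [abs_of_neg hx] at h ⊢
    rw [nd_eq_min (k := -1) (by push_cast; linarith) (by push_cast; linarith)]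
    push_cast
    rw [min_eq_left (by linarith)]
    ring

private theorem mul_p_div (x : ℝ) : p * x / p = x := by
  field_simp [p_pos.ne']

theorem side1_lb {U g q D1 D2 D3 d : ℝ} (h : VC U g q D1 D2 D3) (hd : 0 ≤ d)
    (hp : PairIneq (p * U) (p * (U + g - q - 1/2)) d) :
    l0 - Rr * (p ^ 2 * (g - q) ^ 2) / 2 ≤ d * cos (p * U) := by
  obtain ⟨hs, hU1, hU2, hg1, hg2, hq1, hq2, hug1, hug2, hub⟩ := h
  norm_num at hU1 hU2 hg1 hg2 hq1 hq2 hug1 hug2 hub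
  unfold PairIneq at hp
  rw [mul_p_div, mul_p_div] at hp
  have hUabs : |U| ≤ 1381/10000 := abs_le.mpr ⟨by linarith, by linarith⟩
  have hbabs : |U + g - q| ≤ 0.2762 := by
    norm_num
    exact abs_le.mpr ⟨by linarith, by linarith⟩
  norm_num at hbabs
  have e1 : nd U = |U| := nd_eq_abs (by linarith)
  have e2 : nd (U + g - q - 1/2) = 1/2 - |U + g - q| := nd_sub_half (by linarith)
  rw [e1, e2, min_eq_left (by linarith)] at hp
  have e3 : cos (p * |U|) = cos (p * U) := by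
    rw [← cos_abs (p * U), abs_mul, abs_of_pos p_pos]
  rw [e3] at hp
  refine le_trans ?_ hp
  unfold sigma
  have e4 : (p * U - p * (U + g - q - 1/2)) / p = -((g - q) - 1/2) := by
    field_simp [p_pos.ne']
    ring
  have hgq : |g - q| ≤ 1/2 := abs_le.mpr ⟨by linarith, by linarith⟩
  rw [e4, nd_neg, nd_sub_half hgq]
  have e5 : cos (p / 2 - p * (1/2 - |g - q|)) = cos (p * (g - q)) := by
    rw [← cos_abs (p * (g - q)), abs_mul, abs_of_pos p_pos]
    congr 1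
    ring
  rw [e5]
  have h1 := one_sub_sq_div_two_le_cos (x := p * (g - q))
  have h2 := mul_le_mul_of_nonneg_left h1 Rr_pos.le
  unfold l0
  nlinarith

/-- the common last step: `b` is the phase with the smaller distance -/
private theorem side_core {s d a b t : ℝ} (hd : 0 ≤ d) (ha : |a| ≤ 1/2) (hb : |b| ≤ 1/2)
    (ht : t ≤ 1/8) (ht0 : 0 ≤ t) (hs : 2 + p ^ 2 * t ≤ s) (hc : s ≤ d * cos (p * |b|)) :
    2 + p ^ 2 * (t - (a ^ 2 - b ^ 2) - 0.007 * |a ^ 2 - b ^ 2|) ≤ d * cos (p * a) := by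
  have hp0 := p_pos
  have hp1 := p_lt
  norm_num at hp1
  have hpa : |p * a| ≤ 0.086 := by
    rw [abs_mul, abs_of_pos hp0]
    norm_num
    nlinarith [abs_nonneg a]
  have hpb : |p * b| ≤ 0.086 := by
    rw [abs_mul, abs_of_pos hp0]
    norm_num
    nlinarith [abs_nonneg b]
  have hr := cos_ratio hpa hpb
  have e3 : cos (p * |b|) = cos (p * b) := by
    rw [← cos_abs (p * b), abs_mul, abs_of_pos p_pos]
  rw [e3] at hc
  have e1 : (p * a) ^ 2 - (p * b) ^ 2 = p ^ 2 * (a ^ 2 - b ^ 2) := by ring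
  rw [e1, abs_mul, abs_of_pos (pow_pos hp0 2)] at hr
  set δ := a ^ 2 - b ^ 2 with hδ
  have hδ1 : |δ| ≤ 1/4 := by
    have h1 : a ^ 2 ≤ 1/4 := by
      rw [← sq_abs a]; nlinarith [abs_nonneg a]
    have h2 : b ^ 2 ≤ 1/4 := by
      rw [← sq_abs b]; nlinarith [abs_nonneg b]
    rw [abs_le]
    constructor <;> nlinarith [sq_nonneg a, sq_nonneg b]
  have hp2 : p ^ 2 ≤ 0.0289 := by norm_num; nlinarith
  have hp2' : 0 < p ^ 2 := pow_pos hp0 2
  norm_num at hp2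
  set P := p ^ 2 with hP
  set w := 1 - P * δ / 2 - 0.002 * (P * |δ|) with hw
  have hw0 : 0 ≤ w := by
    rw [hw]
    have : P * δ ≤ P * |δ| := mul_le_mul_of_nonneg_left (le_abs_self _) hp2'.le
    have h2 : P * |δ| ≤ 0.0289 * (1/4) := by
      norm_num
      nlinarith [abs_nonneg δ]
    norm_num at h2 ⊢
    linarith
  have h1 : d * cos (p * b) * w ≤ d * cos (p * a) := by
    have := mul_le_mul_of_nonneg_left hr hd
    linarith
  have h2 : (2 + P * t) * w ≤ d * cos (p * b) * w :=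
    mul_le_mul_of_nonneg_right (hs.trans hc) hw0
  refine le_trans ?_ (h2.trans h1)
  rw [hw]
  have h3 : P * t ≤ 0.0037 := by norm_num; nlinarith
  have h3' : 0 ≤ P * t := mul_nonneg hp2'.le ht0
  have h4 : P * δ ≤ P * |δ| := mul_le_mul_of_nonneg_left (le_abs_self _) hp2'.le
  have h5 : 0 ≤ P * |δ| := mul_nonneg hp2'.le (abs_nonneg _)
  -- (2 + P t) (1 - Pδ/2 - 0.002 P|δ|) = 2 + P t - Pδ - 0.004 P|δ| - Pt (Pδ/2 + 0.002 P|δ|)
  have h6 : (P * t) * (P * δ / 2 + 0.002 * (P * |δ|)) ≤ 0.0037 * (0.502 * (P * |δ|)) := by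
    have h7 : P * δ / 2 + 0.002 * (P * |δ|) ≤ 0.502 * (P * |δ|) := by norm_num; linarith
    calc (P * t) * (P * δ / 2 + 0.002 * (P * |δ|)) ≤ (P * t) * (0.502 * (P * |δ|)) :=
          mul_le_mul_of_nonneg_left h7 h3'
      _ ≤ 0.0037 * (0.502 * (P * |δ|)) := mul_le_mul_of_nonneg_right h3 (by positivity)
  norm_num at h6 ⊢
  nlinarith

private theorem sigma_lb_abs {x : ℝ} (h : |x| ≤ 1/2) {y z : ℝ} (hyz : y - z = x) :
    2 + p ^ 2 * ((|x| - x ^ 2) / 2) ≤ sigma (p * y - p * z) := by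
  have h1 := sigma_lb (p * y - p * z)
  have e : (p * y - p * z) / p = x := by
    rw [← hyz]
    field_simp [p_pos.ne']
  rw [e] at h1
  have h2 : tau x = (|x| - x ^ 2) / 2 := by
    unfold tau
    rw [nd_eq_abs h]
    have := sq_abs x
    nlinarith
  rwa [h2] at h1

theorem side3_lb {U g q D1 D2 D3 d : ℝ} (h : VC U g q D1 D2 D3) (h1 : -0.026 ≤ D1)
    (h1' : D1 ≤ 0.052) (hd : 0 ≤ d)
    (hp : PairIneq (p * (U + g - 1/6 - D1)) (p * (U - 1/6 - D1)) d) :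
    2 + p ^ 2 * xh U g D1 ≤ d * cos (p * (U - 1/6 - D1)) := by
  obtain ⟨hs, hU1, hU2, hg1, hg2, hq1, hq2, hug1, hug2, hub⟩ := h
  norm_num at hU1 hU2 hg1 hg2 hq1 hq2 hug1 hug2 hub h1 h1'
  unfold PairIneq at hp
  rw [mul_p_div, mul_p_div] at hp
  have hx : |U + g - 1/6 - D1| = -(U + g - 1/6 - D1) := abs_of_neg (by linarith)
  have hy : |U - 1/6 - D1| = -(U - 1/6 - D1) := abs_of_neg (by linarith)
  have hxa : |U + g - 1/6 - D1| ≤ 1/2 := by rw [hx]; linarith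
  have hya : |U - 1/6 - D1| ≤ 1/2 := by rw [hy]; linarith
  have e1 := nd_eq_abs hxa
  have e2 := nd_eq_abs hya
  have hga : |g| ≤ 1/2 := abs_le.mpr ⟨by linarith, by linarith⟩
  have hσ := sigma_lb_abs hga (y := U + g - 1/6 - D1) (z := U - 1/6 - D1) (by ring)
  have ht0 : 0 ≤ (|g| - g ^ 2) / 2 := by
    have := sq_abs g
    nlinarith [abs_nonneg g]
  have ht1 : (|g| - g ^ 2) / 2 ≤ 1/8 := by
    have := sq_abs g
    nlinarith [sq_nonneg (|g| - 1/2)]
  rw [e1, e2] at hp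
  unfold xh
  rcases le_or_gt 0 g with hg | hg
  · rw [if_pos hg]
    rw [min_eq_left (by rw [hx, hy]; linarith)] at hp
    have hcore := side_core (a := U - 1/6 - D1) (b := U + g - 1/6 - D1) hd hya hxa ht1 ht0 hσ hp
    refine le_trans ?_ hcore
    have hp2' : 0 < p ^ 2 := pow_pos p_pos 2
    have e3 : (U - 1/6 - D1) ^ 2 - (U + g - 1/6 - D1) ^ 2 = g * (1/3 - 2 * U + 2 * D1 - g) := by
      ring
    have e4 : 0 ≤ g * (1/3 - 2 * U + 2 * D1 - g) := mul_nonneg hg (by linarith)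
    rw [e3, abs_of_nonneg e4, abs_of_nonneg hg]
    have : (g - g ^ 2) / 2 - 1.007 * (g * (1/3 - 2 * U + 2 * D1 - g)) =
        (g - g ^ 2) / 2 - g * (1/3 - 2 * U + 2 * D1 - g) - 0.007 * (g * (1/3 - 2 * U + 2 * D1 - g)) := by
      norm_num
      ring
    rw [this]
  · rw [if_neg (not_le.mpr hg)]
    rw [min_eq_right (by rw [hx, hy]; linarith)] at hp
    have e3 : cos (p * |U - 1/6 - D1|) = cos (p * (U - 1/6 - D1)) := by
      rw [← cos_abs (p * (U - 1/6 - D1)), abs_mul, abs_of_pos p_pos]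
    rw [e3] at hp
    rw [abs_of_neg hg] at hσ
    exact hσ.trans hp

theorem side2_lb {U g q D1 D2 D3 d : ℝ} (h : VC U g q D1 D2 D3) (h2 : -0.026 ≤ D2)
    (h2' : D2 ≤ 0.052) (hd : 0 ≤ d)
    (hp : PairIneq (p * (U + g - q - 1/3 + D2)) (p * (U + g - 1/3 + D2)) d) :
    2 + p ^ 2 * yh U g q D2 ≤ d * cos (p * (U - 1/3 + D2)) := by
  obtain ⟨hs, hU1, hU2, hg1, hg2, hq1, hq2, hug1, hug2, hub⟩ := h
  norm_num at hU1 hU2 hg1 hg2 hq1 hq2 hug1 hug2 hub h2 h2'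
  unfold PairIneq at hp
  rw [mul_p_div, mul_p_div] at hp
  have hx : |U + g - q - 1/3 + D2| = -(U + g - q - 1/3 + D2) := abs_of_neg (by linarith)
  have hy : |U + g - 1/3 + D2| = -(U + g - 1/3 + D2) := abs_of_neg (by linarith)
  have hz : |U - 1/3 + D2| = -(U - 1/3 + D2) := abs_of_neg (by linarith)
  have hxa : |U + g - q - 1/3 + D2| ≤ 1/2 := by rw [hx]; linarith
  have hya : |U + g - 1/3 + D2| ≤ 1/2 := by rw [hy]; linarith
  have hza : |U - 1/3 + D2| ≤ 1/2 := by rw [hz]; linarith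
  have e1 := nd_eq_abs hxa
  have e2 := nd_eq_abs hya
  have hqa : |-q| ≤ 1/2 := by rw [abs_neg]; exact abs_le.mpr ⟨by linarith, by linarith⟩
  have hσ := sigma_lb_abs hqa (y := U + g - q - 1/3 + D2) (z := U + g - 1/3 + D2) (by ring)
  rw [abs_neg, neg_sq] at hσ
  rw [abs_neg] at hqa
  have ht0 : 0 ≤ (|q| - q ^ 2) / 2 := by
    have := sq_abs q
    nlinarith [abs_nonneg q]
  have ht1 : (|q| - q ^ 2) / 2 ≤ 1/8 := by
    have := sq_abs q
    nlinarith [sq_nonneg (|q| - 1/2)]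
  rw [e1, e2] at hp
  unfold yh
  rcases le_or_gt 0 q with hq | hq
  · rw [if_pos hq]
    rw [min_eq_right (by rw [hx, hy]; linarith)] at hp
    have hcore := side_core (a := U - 1/3 + D2) (b := U + g - 1/3 + D2) hd hza hya ht1 ht0 hσ hp
    refine le_trans (le_of_eq ?_) hcore
    have e3 : (U - 1/3 + D2) ^ 2 - (U + g - 1/3 + D2) ^ 2 = g * (2/3 - 2 * U - 2 * D2 - g) := by
      ring
    rw [e3, abs_mul, abs_of_nonneg (a := 2/3 - 2 * U - 2 * D2 - g) (by linarith), abs_of_nonneg hq]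
  · rw [if_neg (not_le.mpr hq)]
    rw [min_eq_left (by rw [hx, hy]; linarith)] at hp
    have hcore := side_core (a := U - 1/3 + D2) (b := U + g - q - 1/3 + D2) hd hza hxa ht1 ht0 hσ hp
    refine le_trans (le_of_eq ?_) hcore
    have e3 : (U - 1/3 + D2) ^ 2 - (U + g - q - 1/3 + D2) ^ 2 =
        (g - q) * (2/3 - 2 * U - 2 * D2 - (g - q)) := by
      ring
    rw [e3, abs_mul, abs_of_nonneg (a := 2/3 - 2 * U - 2 * D2 - (g - q)) (by linarith), abs_of_neg hq]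

end Pool.Agent.Lib.P37
end

section

namespace Pool.Agent.Lib.P37

open Real

theorem Gsp_zero_ge {U g q : ℝ} {D1 D2 D3 : ℝ} (h : VC U g q D1 D2 D3) :
    -0.0354 ≤ Gsp U g q 0 0 := by
  obtain ⟨-, hU1, hU2, hg1, hg2, hq1, hq2, hug1, hug2, hub⟩ := h
  unfold Gsp
  have e : (U + ((g - q) + g) / 3) / 3 = U / 9 + (U + g - q) / 9 + (U + g) / 9 := by ring
  rw [e]
  have h1 : -1/216 ≤ (U + g - q) / 9 + 2/3 * (max (-(U + g - q)) 0) ^ 2 := by
    generalize U + g - q = w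
    rcases le_total 0 w with hw | hw
    · rw [max_eq_right (by linarith)]
      nlinarith
    · rw [max_eq_left (by linarith)]
      nlinarith [sq_nonneg (w + 1/12)]
  have h2 : -0.01535 ≤ U / 9 - 2/3 * (max U 0) ^ 2 := by
    rcases le_total 0 U with hw | hw
    · rw [max_eq_left hw]
      nlinarith
    · rw [max_eq_right hw]
      nlinarith
  have h3 : -0.01535 ≤ (U + g) / 9 := by linarith
  linarith

theorem V_apriori {U g q D1 D2 D3 : ℝ} (h : VC U g q D1 D2 D3) (h1 : |D1| ≤ 0.07)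
    (h2 : |D2| ≤ 0.07) (h3 : |D3| ≤ 0.07)
    (hM1 : MI U (U + g - q - 1/3 + D2) (U + g - 1/6 - D1) D1 D2 D3 < 0)
    (hM2 : MI (U + g - q - 1/3 + D2) (U + g - 1/6 - D1) U D2 D3 D1 < 0)
    (hM3 : MI (U + g - 1/6 - D1) U (U + g - q - 1/3 + D2) D3 D1 D2 < 0) :
    -0.026 ≤ D1 ∧ -0.026 ≤ D2 ∧ -0.026 ≤ D3 := by
  obtain ⟨r1, r2, r3⟩ := rho_bound h.sum h1 h2 h3 hM1 hM2 hM3
  have hV0 : VC U g q 0 0 0 :=
    ⟨by norm_num, h.hU1, h.hU2, h.hg1, h.hg2, h.hq1, h.hq2, h.hug1, h.hug2, h.hub⟩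
  have hG := Gs_eval hV0 (by norm_num) (by norm_num) (by norm_num) (by norm_num)
  have hC : Gs U (U + g - q - 1/3 + 0) (U + g - 1/6 - 0) 0 0 0
      = Cc U + Cc (U + g - q - 1/3) + Cc (U + g - 1/6) := by
    unfold Gs Cc
    simp only [add_zero, sub_zero]
  have hlow := Gsp_zero_ge h
  have l2 := Cc_lip (U + g - q - 1/3) (U + g - q - 1/3 + D2)
  have l3 := Cc_lip (U + g - 1/6) (U + g - 1/6 - D1)
  have a2 : |(U + g - q - 1/3) - (U + g - q - 1/3 + D2)| = |D2| := by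
    rw [show (U + g - q - 1/3) - (U + g - q - 1/3 + D2) = -D2 by ring, abs_neg]
  have a3 : |(U + g - 1/6) - (U + g - 1/6 - D1)| = |D1| := by
    congr 1; ring
  rw [a2] at l2
  rw [a3] at l3
  have hfin : -0.051 ≤ Cc U + Cc (U + g - q - 1/3 + D2) + Cc (U + g - 1/6 - D1) := by
    rw [hC] at hG
    rw [← hG] at hlow
    linarith
  refine ⟨?_, ?_, ?_⟩ <;> linarith

end Pool.Agent.Lib.P37
end

section

namespace Pool.Agent.Lib.P37

open Real

private theorem vc_s12 : s12 = 2 * s6 * c6 := by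
  unfold s12 s6 c6
  rw [show 12 * p = 2 * (6 * p) by ring, sin_two_mul]

private theorem vc_c12 : c12 = 2 * c6 ^ 2 - 1 := by
  unfold c12 c6
  rw [show 12 * p = 2 * (6 * p) by ring, cos_two_mul]

private theorem vc_sq : s6 ^ 2 = 1 - c6 ^ 2 := by
  unfold s6 c6
  exact sin_sq _

theorem As_kap_identity (t : ℝ) :
    (l0 ^ 2 * (c6 + s6 * t) * (c12 + s12 * t) + 2 * l0 * ((c6 + s6 * t) - (c12 + s12 * t)))
      = 2 * s6 * (As + kap * t + l0 ^ 2 * s12 / 2 * t ^ 2) := by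
  have hs : s6 ≠ 0 := by
    have := s6_bounds.1
    intro h; rw [h] at this; norm_num at this
  have hA : s6 * As = l0 * (c6 - c12 + l0 * c6 * c12 / 2) := by
    unfold As; field_simp
  have e1 : 2 * s6 * (As + kap * t + l0 ^ 2 * s12 / 2 * t ^ 2) =
      2 * (s6 * As) + 2 * s6 * kap * t + s6 * l0 ^ 2 * s12 * t ^ 2 := by ring
  rw [e1, hA]
  unfold kap
  have h1 := vc_s12
  have h2 := vc_c12
  have h3 := vc_sq
  rw [h1, h2]
  have h4 : s6 ^ 2 = 1 - c6 ^ 2 := h3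
  linear_combination (0 : ℝ) * h4

private theorem vc_mul_abs {g B K : ℝ} (h1 : -K ≤ B) (h2 : B ≤ K) : |g * B| ≤ K * |g| := by
  rw [abs_mul, mul_comm K]
  exact mul_le_mul_of_nonneg_left (abs_le.mpr ⟨h1, h2⟩) (abs_nonneg _)

private theorem vc_xh {U g q D1 D2 D3 : ℝ} (h : VC U g q D1 D2 D3) (h1 : -0.006 ≤ D1)
    (h1' : D1 ≤ 0.0075) : |xh U g D1| ≤ 0.61 * |g| := by
  have := h.hU1; have := h.hU2; have := h.hg1; have := h.hg2
  unfold xh
  split_ifs with hg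
  · rw [show (g - g ^ 2) / 2 - 1.007 * (g * (1/3 - 2 * U + 2 * D1 - g)) =
      g * ((1 - g) / 2 - 1.007 * (1/3 - 2 * U + 2 * D1 - g)) by ring]
    apply vc_mul_abs <;> linarith
  · push Not at hg
    rw [show (-g - g ^ 2) / 2 = g * ((-1 - g) / 2) by ring]
    apply vc_mul_abs <;> linarith

private theorem vc_yh {U g q D1 D2 D3 : ℝ} (h : VC U g q D1 D2 D3) (h2 : -0.0125 ≤ D2)
    (h2' : D2 ≤ 0) : |yh U g q D2| ≤ 1.1 * (|g| + |q|) := by
  have := h.hU1; have := h.hU2; have := h.hg1; have := h.hg2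
  have := h.hq1; have := h.hq2; have := h.hug1; have := h.hug2; have := h.hub
  unfold yh
  split_ifs with hq
  · have e1 : |q * ((1 - q) / 2)| ≤ 0.5 * |q| := by
      apply vc_mul_abs <;> linarith
    have e2 : |g * (2/3 - 2 * U - 2 * D2 - g)| ≤ 1.089 * |g| := by
      apply vc_mul_abs <;> linarith
    have e3 : abs (|g| * (2/3 - 2 * U - 2 * D2 - g)) ≤ 1.089 * |g| := by
      have : abs (|g| * (2/3 - 2 * U - 2 * D2 - g)) ≤ 1.089 * abs (|g|) := by
        apply vc_mul_abs <;> linarith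
      rwa [abs_abs] at this
    rw [show (q - q ^ 2) / 2 = q * ((1 - q) / 2) by ring]
    have e4 := abs_le.mp e1
    have e5 := abs_le.mp e2
    have e6 := abs_le.mp e3
    have e7 := abs_nonneg g
    have e8 := abs_nonneg q
    rw [abs_le]
    constructor <;> linarith [e4.1, e4.2, e5.1, e5.2, e6.1, e6.2]
  · push Not at hq
    have e0 : |g - q| ≤ |g| + |q| := abs_sub _ _
    have e1 : |q * ((-1 - q) / 2)| ≤ 0.5 * |q| := by
      apply vc_mul_abs <;> linarith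
    rw [show (-q - q ^ 2) / 2 = q * ((-1 - q) / 2) by ring]
    have hq' : |q| = -q := abs_of_neg hq
    by_cases hb : 0 ≤ g - q
    · have hb' : |g - q| = g - q := abs_of_nonneg hb
      have e2 : (g - q) * (2/3 - 2 * U - 2 * D2 - (g - q)) ≤ (g - q) * 1.089 := by
        apply mul_le_mul_of_nonneg_left _ hb
        linarith
      have e3 : 0 ≤ (g - q) * (2/3 - 2 * U - 2 * D2 - (g - q)) := by
        apply mul_nonneg hb
        linarith
      have e7 := abs_nonneg g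
      have e8 := abs_nonneg q
      have e9 : 0 ≤ q * ((-1 - q) / 2) := by
        have : 0 ≤ (-q) * ((1 + q) / 2) := mul_nonneg (by linarith) (by linarith)
        nlinarith [this]
      have e4 := abs_le.mp e1
      rw [hb'] at e0 ⊢
      rw [abs_le]
      constructor <;> linarith [e4.1, e4.2]
    · push Not at hb
      have hb' : |g - q| = -(g - q) := abs_of_neg hb
      have hg' : |g| = -g := abs_of_neg (by linarith)
      have e2 : -(g - q) * (2/3 - 2 * U - 2 * D2 - (g - q)) ≤ -(g - q) * 1.089 := by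
        apply mul_le_mul_of_nonneg_left _ (by linarith)
        linarith
      have e3 : 0 ≤ -(g - q) * (2/3 - 2 * U - 2 * D2 - (g - q)) := by
        apply mul_nonneg (by linarith)
        linarith
      have e4 := abs_le.mp e1
      rw [hb', hg', hq']
      rw [hq'] at e4
      rw [abs_le]
      constructor <;> linarith [e4.1, e4.2]

private theorem vc_tan {x : ℝ} (h0 : 0 ≤ x) (h1 : x ≤ 0.03) : x ≤ tan x ∧ tan x ≤ x + 0.34 * x ^ 3 := by
  have hpi := Real.pi_gt_three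
  have hc : 0 < cos x := cos_pos_of_mem_Ioo ⟨by linarith, by linarith⟩
  refine ⟨Real.le_tan h0 (by linarith), ?_⟩
  rw [tan_eq_sin_div_cos, div_le_iff₀ hc]
  have h2 : 1 - x ^ 2 / 2 ≤ cos x := one_sub_sq_div_two_le_cos
  have h3 := (abs_le.mp (sin_bound (x := x) (by rw [abs_of_nonneg h0]; linarith))).2
  rw [abs_of_nonneg h0] at h3
  have h4 : 0 ≤ x ^ 3 := by positivity
  have h5 : (x + 0.34 * x ^ 3) * (1 - x ^ 2 / 2) ≤ (x + 0.34 * x ^ 3) * cos x :=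
    mul_le_mul_of_nonneg_left h2 (by positivity)
  have h6 : x ^ 4 ≤ x ^ 3 * 0.03 := by
    rw [show x ^ 4 = x ^ 3 * x by ring]
    exact mul_le_mul_of_nonneg_left h1 h4
  have h7 : x ^ 5 ≤ x ^ 3 * 0.0009 := by
    rw [show x ^ 5 = x ^ 3 * (x * x) by ring]
    apply mul_le_mul_of_nonneg_left _ h4
    nlinarith
  nlinarith [h3, h5, h6, h7, h4]

private theorem vc_prod {a b a1 a2 b1 b2 : ℝ} (ha1 : 0 ≤ a1) (h1 : a1 ≤ a) (h2 : a ≤ a2)
    (hb1 : 0 ≤ b1) (h3 : b1 ≤ b) (h4 : b ≤ b2) : a1 * b1 ≤ a * b ∧ a * b ≤ a2 * b2 :=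
  ⟨mul_le_mul h1 h3 hb1 (ha1.trans h1), mul_le_mul h2 h4 (hb1.trans h3) ((ha1.trans h1).trans h2)⟩

private theorem vc_l0 : 2.0036155 < l0 ∧ l0 < 2.0036156 := by
  unfold l0; constructor <;> linarith [Rr_bounds.1, Rr_bounds.2]

/-- `√3 p` -/
private theorem vc_c : 0.2941296 ≤ √3 * p ∧ √3 * p ≤ 0.2941297 := by
  have h := vc_prod (by norm_num) sqrt3_bounds.1.le sqrt3_bounds.2.le (by norm_num) p_bounds.1.le p_bounds.2.le
  constructor
  · exact le_trans (by norm_num) h.1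
  · exact le_trans h.2 (by norm_num)

/-- `2 s6 √3` -/
private theorem vc_C : 2.949782 ≤ 2 * s6 * √3 ∧ 2 * s6 * √3 ≤ 2.949785 := by
  have h := vc_prod (by norm_num) s6_bounds.1.le s6_bounds.2.le (by norm_num) sqrt3_bounds.1.le sqrt3_bounds.2.le
  constructor <;> nlinarith [h.1, h.2]

private theorem vc_p2 : 0.0288373 ≤ p ^ 2 ∧ p ^ 2 ≤ 0.0288375 := by
  have h := vc_prod (by norm_num) p_bounds.1.le p_bounds.2.le (by norm_num) p_bounds.1.le p_bounds.2.le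
  constructor <;> nlinarith [h.1, h.2]

private theorem vc_A2 : 1.79231 ≤ l0 ^ 2 * s12 / 2 := by
  have h := vc_prod (by norm_num) vc_l0.1.le vc_l0.2.le (by norm_num) vc_l0.1.le vc_l0.2.le
  have h' := vc_prod (by norm_num) h.1 h.2 (by norm_num) s12_bounds.1.le s12_bounds.2.le
  have h2 := h'.1
  have : l0 ^ 2 * s12 = l0 * l0 * s12 := by ring
  rw [this]
  norm_num at h2 ⊢
  linarith

private theorem vc_i {U t : ℝ} (hU2 : U ≤ 0.1381)
    (ht1 : 0 ≤ U → -(0.34 * (p * U) ^ 3) ≤ t + p * U) (ht2 : U ≤ 0 → 0 ≤ t + p * U)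
    (ht3 : (p * U) ^ 2 ≤ t ^ 2) :
    √3 * p ^ 2 * (0.3369 * (max U 0) ^ 2 + 1.0347 * (max (-U) 0) ^ 2) ≤
      kap * (t + p * U) + l0 ^ 2 * s12 / 2 * t ^ 2 - 2 * kap * p * (max U 0) ^ 2 := by
  have hA := vc_A2
  have hk := kap_bounds
  have hp := p_bounds
  have hc := vc_c
  have hp2 := vc_p2
  have e1 : l0 ^ 2 * s12 / 2 * (p * U) ^ 2 ≤ l0 ^ 2 * s12 / 2 * t ^ 2 :=
    mul_le_mul_of_nonneg_left ht3 (by linarith)
  have e2 : 1.79231 * (p * U) ^ 2 ≤ l0 ^ 2 * s12 / 2 * (p * U) ^ 2 :=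
    mul_le_mul_of_nonneg_right hA (sq_nonneg _)
  have hppos : 0 < p := p_pos
  rcases le_total 0 U with h | h
  · rw [max_eq_left h, max_eq_right (by linarith : -U ≤ 0)]
    have e3 : kap * (-(0.34 * (p * U) ^ 3)) ≤ kap * (t + p * U) :=
      mul_le_mul_of_nonneg_left (ht1 h) (by linarith)
    have e4 : kap * p ^ 2 * U ≤ 0.00041 := by
      have h1 := vc_prod (by norm_num) hk.1.le hk.2.le (by norm_num) hp2.1 hp2.2
      have h2 := vc_prod (a1 := 0) le_rfl (by nlinarith [h1.1]) h1.2 (b1 := 0) le_rfl h hU2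
      refine h2.2.trans (by norm_num)
    have e5 : 0 ≤ p * U ^ 2 * (1.79231 * p - 2 * kap - 0.34 * (kap * p ^ 2 * U) - 0.3369 * (√3 * p)) := by
      apply mul_nonneg (by positivity)
      nlinarith [hk.2, hc.2, hp.1, e4]
    nlinarith [e1, e2, e3, e5]
  · rw [max_eq_right h, max_eq_left (by linarith : 0 ≤ -U)]
    have e3 : 0 ≤ kap * (t + p * U) := mul_nonneg (by linarith) (ht2 h)
    have e5 : 0 ≤ (p * U) ^ 2 * (1.79231 - 1.0347 * √3) := by
      apply mul_nonneg (sq_nonneg _)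
      nlinarith [sqrt3_bounds.2]
    nlinarith [e1, e2, e3, e5]

private theorem vc_b {Q n : ℝ} (hn : 0 ≤ n) (hQ : |Q| ≤ 0.7 * n) :
    √3 * p * (0.3485 * Q - 0.00002 * n) ≤ kap * Q := by
  have hk := kap_bounds
  have hc := vc_c
  have h1 : |(kap - 0.3485 * (√3 * p)) * Q| ≤ 0.0000043 * (0.7 * n) := by
    rw [abs_mul]
    apply mul_le_mul _ hQ (abs_nonneg _) (by norm_num)
    rw [abs_le]; constructor <;> linarith [hk.1, hk.2, hc.1, hc.2]
  have h2 := (abs_le.mp h1).1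
  have h3 : 0.2941296 * (0.00002 * n) ≤ √3 * p * (0.00002 * n) :=
    mul_le_mul_of_nonneg_right hc.1 (by positivity)
  nlinarith [h2, h3]

private theorem vc_y {U t Y n : ℝ} (hU1 : -0.1381 ≤ U) (hU2 : U ≤ 0.1381)
    (ht : |t + p * U| ≤ 0.000005) (hn : 0 ≤ n) (hY : |Y| ≤ 1.1 * n) :
    2 * s6 * √3 * ((0.3561 - 0.0982 * U) * Y - 0.00006 * n) ≤ l0 * (c6 + s6 * t) * Y := by
  have hC := vc_C
  have h1 := vc_prod (by norm_num) vc_l0.1.le vc_l0.2.le (by norm_num) c6_bounds.1.le c6_bounds.2.le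
  have h2 := vc_prod (by norm_num) vc_l0.1.le vc_l0.2.le (by norm_num) s6_bounds.1.le s6_bounds.2.le
  have h3 := vc_prod (by norm_num) h2.1 h2.2 (by norm_num) p_bounds.1.le p_bounds.2.le
  have h1a := h1.1
  have h1b := h1.2
  have h2b := h2.2
  have h2a := h2.1
  have h3a := h3.1
  have h3b := h3.2
  norm_num at h1a h1b h2a h2b h3a h3b
  have e1 : |l0 * s6 * (t + p * U)| ≤ 0.00001 := by
    rw [abs_mul, abs_of_nonneg (by linarith : 0 ≤ l0 * s6)]
    have := mul_le_mul h2b ht (abs_nonneg _) (by norm_num)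
    refine this.trans (by norm_num)
  have e2 : |(l0 * s6 * p - 0.0982 * (2 * s6 * √3)) * U| ≤ 0.00001 := by
    rw [abs_mul]
    have h4 : |l0 * s6 * p - 0.0982 * (2 * s6 * √3)| ≤ 0.000065 := by
      rw [abs_le]; constructor <;> linarith [hC.1, hC.2]
    have h5 : |U| ≤ 0.1381 := abs_le.mpr ⟨hU1, hU2⟩
    have := mul_le_mul h4 h5 (abs_nonneg _) (by norm_num)
    refine this.trans (by norm_num)
  have e3 : |l0 * (c6 + s6 * t) - 2 * s6 * √3 * (0.3561 - 0.0982 * U)| ≤ 0.00015 := by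
    rw [show l0 * (c6 + s6 * t) - 2 * s6 * √3 * (0.3561 - 0.0982 * U) =
      (l0 * c6 - 0.3561 * (2 * s6 * √3)) + l0 * s6 * (t + p * U)
        - (l0 * s6 * p - 0.0982 * (2 * s6 * √3)) * U by ring]
    rw [abs_le] at e1 e2 ⊢
    constructor <;> linarith [hC.1, hC.2, e1.1, e1.2, e2.1, e2.2]
  have e4 : |(l0 * (c6 + s6 * t) - 2 * s6 * √3 * (0.3561 - 0.0982 * U)) * Y| ≤ 0.00015 * (1.1 * n) := by
    rw [abs_mul]
    exact mul_le_mul e3 hY (abs_nonneg _) (by norm_num)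
  have e5 := (abs_le.mp e4).1
  have e6 : 2.949782 * (0.00006 * n) ≤ 2 * s6 * √3 * (0.00006 * n) :=
    mul_le_mul_of_nonneg_right hC.1 (by positivity)
  nlinarith [e5, e6]

private theorem vc_x {U t X n : ℝ} (hU1 : -0.1381 ≤ U) (hU2 : U ≤ 0.1381)
    (ht : |t + p * U| ≤ 0.000005) (hn : 0 ≤ n) (hX : |X| ≤ 0.61 * n) :
    2 * s6 * √3 * ((0.3058 + 0.103 * U) * X - 0.00001 * n) ≤ -(l0 * (c12 + s12 * t) * X) := by
  have hC := vc_C
  have h1 := vc_prod (a := l0) (b := -c12) (by norm_num) vc_l0.1.le vc_l0.2.le (b1 := 0.4502037) (by norm_num)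
    (by linarith [c12_bounds.2]) (b2 := 0.4502038) (by linarith [c12_bounds.1])
  have h2 := vc_prod (by norm_num) vc_l0.1.le vc_l0.2.le (by norm_num) s12_bounds.1.le s12_bounds.2.le
  have h3 := vc_prod (by norm_num) h2.1 h2.2 (by norm_num) p_bounds.1.le p_bounds.2.le
  have h1a := h1.1
  have h1b := h1.2
  have h2b := h2.2
  have h2a := h2.1
  have h3a := h3.1
  have h3b := h3.2
  norm_num at h1a h1b h2a h2b h3a h3b
  have e1 : |l0 * s12 * (t + p * U)| ≤ 0.00001 := by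
    rw [abs_mul, abs_of_nonneg (by linarith : 0 ≤ l0 * s12)]
    have := mul_le_mul h2b ht (abs_nonneg _) (by norm_num)
    refine this.trans (by norm_num)
  have e2 : |(l0 * s12 * p - 0.103 * (2 * s6 * √3)) * U| ≤ 0.000003 := by
    rw [abs_mul]
    have h4 : |l0 * s12 * p - 0.103 * (2 * s6 * √3)| ≤ 0.000018 := by
      rw [abs_le]; constructor <;> linarith [hC.1, hC.2]
    have h5 : |U| ≤ 0.1381 := abs_le.mpr ⟨hU1, hU2⟩
    have := mul_le_mul h4 h5 (abs_nonneg _) (by norm_num)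
    refine this.trans (by norm_num)
  have e3 : |-(l0 * (c12 + s12 * t)) - 2 * s6 * √3 * (0.3058 + 0.103 * U)| ≤ 0.00003 := by
    rw [show -(l0 * (c12 + s12 * t)) - 2 * s6 * √3 * (0.3058 + 0.103 * U) =
      (-(l0 * c12) - 0.3058 * (2 * s6 * √3)) - l0 * s12 * (t + p * U)
        + (l0 * s12 * p - 0.103 * (2 * s6 * √3)) * U by ring]
    rw [abs_le] at e1 e2 ⊢
    constructor <;> linarith [hC.1, hC.2, e1.1, e1.2, e2.1, e2.2]
  have e4 : |(-(l0 * (c12 + s12 * t)) - 2 * s6 * √3 * (0.3058 + 0.103 * U)) * X| ≤ 0.00003 * (0.61 * n) := by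
    rw [abs_mul]
    exact mul_le_mul e3 hX (abs_nonneg _) (by norm_num)
  have e5 := (abs_le.mp e4).1
  have e6 : 2.949782 * (0.00001 * n) ≤ 2 * s6 * √3 * (0.00001 * n) :=
    mul_le_mul_of_nonneg_right hC.1 (by positivity)
  nlinarith [e5, e6]

private theorem vc_Br {t : ℝ} (ht : |t| ≤ 0.0236) :
    2 * ((c6 + s6 * t) - (c12 + s12 * t)) + 2 * l0 * (c6 + s6 * t) * (c12 + s12 * t) ≤ 1.0112 := by
  have h1 := vc_prod (by norm_num) c6_bounds.1.le c6_bounds.2.le (b := -c12) (b1 := 0.4502037) (by norm_num)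
    (by linarith [c12_bounds.2]) (b2 := 0.4502038) (by linarith [c12_bounds.1])
  have h2 := vc_prod (by norm_num) c6_bounds.1.le c6_bounds.2.le (by norm_num) s12_bounds.1.le s12_bounds.2.le
  have h3 := vc_prod (by norm_num) s6_bounds.1.le s6_bounds.2.le (b := -c12) (b1 := 0.4502037) (by norm_num)
    (by linarith [c12_bounds.2]) (b2 := 0.4502038) (by linarith [c12_bounds.1])
  have h4 := vc_prod (by norm_num) s6_bounds.1.le s6_bounds.2.le (by norm_num) s12_bounds.1.le s12_bounds.2.le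
  have k1 := vc_prod (by norm_num) vc_l0.1.le vc_l0.2.le (by norm_num) h1.1 h1.2
  have k2 := vc_prod (by norm_num) vc_l0.1.le vc_l0.2.le (by norm_num) h2.1 h2.2
  have k3 := vc_prod (by norm_num) vc_l0.1.le vc_l0.2.le (by norm_num) h3.1 h3.2
  have k4 := vc_prod (by norm_num) vc_l0.1.le vc_l0.2.le (by norm_num) h4.1 h4.2
  have k1a := k1.1
  have k1b := k1.2
  have k2a := k2.1
  have k2b := k2.2
  have k3a := k3.1
  have k3b := k3.2
  have k4a := k4.1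
  have k4b := k4.2
  norm_num at k1a k1b k2a k2b k3a k3b k4a k4b
  have h5 := s6_bounds
  have h6 := s12_bounds
  have h7 := c6_bounds
  have h8 := c12_bounds
  have e1 : |(2 * (s6 - s12) + 2 * (l0 * (c6 * s12)) + 2 * (l0 * (s6 * c12))) * t| ≤ 0.2572 * 0.0236 := by
    rw [abs_mul]
    apply mul_le_mul _ ht (abs_nonneg _) (by norm_num)
    rw [abs_le]; constructor <;> nlinarith [h5.1, h5.2, h6.1, h6.2]
  have e2 : 2 * (l0 * (s6 * s12)) * t ^ 2 ≤ 3.048 * 0.0236 ^ 2 := by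
    have : t ^ 2 ≤ 0.0236 ^ 2 := by
      rw [← sq_abs]
      exact pow_le_pow_left₀ (abs_nonneg _) ht 2
    apply mul_le_mul _ this (sq_nonneg _) (by norm_num)
    linarith
  have e3 := (abs_le.mp e1).2
  nlinarith [e2, e3, h7.1, h7.2, h8.1, h8.2, k1a, k1b]

private theorem vc_t {U : ℝ} (hU1 : -0.1381 ≤ U) (hU2 : U ≤ 0.1381) :
    (0 ≤ U → -(0.34 * (p * U) ^ 3) ≤ -tan (p * U) + p * U) ∧
    (U ≤ 0 → 0 ≤ -tan (p * U) + p * U) ∧ (p * U) ^ 2 ≤ (-tan (p * U)) ^ 2 ∧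
    |-tan (p * U) + p * U| ≤ 0.000005 ∧ |-tan (p * U)| ≤ 0.0236 := by
  have hp := p_bounds
  have hppos := p_pos
  have main : ∀ V : ℝ, 0 ≤ V → V ≤ 0.1381 → (p * V ≤ tan (p * V) ∧ tan (p * V) ≤ p * V + 0.34 * (p * V) ^ 3)
      ∧ 0 ≤ p * V ∧ p * V ≤ 0.02346 ∧ 0.34 * (p * V) ^ 3 ≤ 0.000005 := by
    intro V hV hV'
    have h1 : p * V ≤ 0.02346 := by nlinarith [hp.2]
    have h0 : 0 ≤ p * V := by positivity
    refine ⟨vc_tan h0 (by linarith), h0, h1, ?_⟩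
    have : (p * V) ^ 3 ≤ 0.02346 ^ 3 := pow_le_pow_left₀ h0 h1 3
    nlinarith [this]
  rcases le_total 0 U with h | h
  · obtain ⟨⟨m1, m2⟩, m3, m4, m5⟩ := main U h hU2
    refine ⟨fun _ => by linarith, fun h' => ?_, ?_, ?_, ?_⟩
    · have : U = 0 := le_antisymm h' h
      subst this; simp
    · rw [neg_sq]
      exact pow_le_pow_left₀ m3 m1 2
    · rw [abs_le]; constructor <;> linarith
    · rw [abs_neg, abs_le]; constructor <;> linarith
  · obtain ⟨⟨m1, m2⟩, m3, m4, m5⟩ := main (-U) (by linarith) (by linarith)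
    have e : tan (p * -U) = -tan (p * U) := by rw [mul_neg, tan_neg]
    rw [e] at m1 m2
    have e3 : (p * -U) ^ 3 = -(p * U) ^ 3 := by ring
    rw [e3] at m2 m5
    refine ⟨fun h' => ?_, fun _ => by linarith, ?_, ?_, ?_⟩
    · have : U = 0 := le_antisymm h h'
      subst this; simp
    · rw [show (p * U) ^ 2 = (p * -U) ^ 2 by ring]
      exact pow_le_pow_left₀ m3 m1 2
    · rw [abs_le]; constructor <;> linarith
    · rw [abs_le]; constructor <;> linarith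

private theorem vc_I5 {R z B C : ℝ} (hz : 0 ≤ z) (hR0 : 0 ≤ R) (hR : R ≤ 1.0036156)
    (hB : B ≤ 1.0112) (hC : 2.949782 ≤ C) : R * z / 2 * B ≤ C * (0.17205 * z) := by
  have a := mul_le_mul_of_nonneg_left hB (by positivity : 0 ≤ R * z / 2)
  have b := mul_le_mul_of_nonneg_right hR hz
  have c := mul_le_mul_of_nonneg_right hC hz
  linarith

private theorem vc_I6 {R z B C : ℝ} (hz : 0 ≤ z) (hR0 : 0 ≤ R) (hR : R ≤ 1.0036156)
    (hB : B ≤ 0.0288375 * 0.23) (hC : 2.949782 ≤ C) : R * z / 2 * B ≤ C * (0.0012 * z) := by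
  have a := mul_le_mul_of_nonneg_left hB (by positivity : 0 ≤ R * z / 2)
  have b := mul_le_mul_of_nonneg_right hR hz
  have c := mul_le_mul_of_nonneg_right hC hz
  linarith

private theorem vc_I7 {R z B C : ℝ} (hz : 0 ≤ z) (hz' : z ≤ 0.0288375 * 0.0822) (hR0 : 0 ≤ R)
    (hR : R ≤ 1.0036156) (hB : -0.2744 ≤ B) (hC : 2.949782 ≤ C) :
    -(C * (0.0001 * z)) ≤ (R * z / 2) ^ 2 * B := by
  have a := mul_le_mul_of_nonneg_left hB (sq_nonneg (R * z / 2))
  have b := mul_le_mul_of_nonneg_right hR hz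
  have b0 : 0 ≤ R * z := by positivity
  have c := mul_le_mul_of_nonneg_right hC hz
  have d : (R * z) * (R * z) ≤ (1.0036156 * (0.0288375 * 0.0822)) * (1.0036156 * z) := by
    apply mul_le_mul _ b b0 (by norm_num)
    exact b.trans (mul_le_mul_of_nonneg_left hz' (by norm_num))
  have e : (R * z / 2) ^ 2 = (R * z) * (R * z) / 4 := by ring
  rw [e] at a ⊢
  linarith

private theorem vc_sqle {b : ℝ} (h1 : -0.2866 ≤ b) (h2 : b ≤ 0.2866) : b ^ 2 ≤ 0.0822 := by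
  nlinarith

private theorem vc_om {R z : ℝ} (hz : 0 ≤ z) (hz' : z ≤ 0.0288375 * 0.0822)
    (hR : R ≤ 1.0036156) : R * z / 2 ≤ 0.1 := by
  have b := mul_le_mul_of_nonneg_right hR hz
  linarith

private theorem vc_d1 {d : ℝ} (h : d ^ 2 ≤ 4.08) : d ≤ 2.03 := by
  nlinarith

private theorem vc_dc {d c : ℝ} (h : d ≤ 2.03) (h0 : 0 ≤ d) (hc : c ≤ 1) : d * c ≤ 2.03 := by
  have := mul_le_mul_of_nonneg_left hc h0
  linarith

private theorem vc_X0 {z x : ℝ} (h0 : 0 ≤ z) (h1 : z ≤ 0.0288375) (hx : -0.4 ≤ x) : 1.9 ≤ 2 + z * x := by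
  have := mul_le_mul_of_nonneg_left hx h0
  linarith

private theorem vc_u0 {z x : ℝ} (h0 : 0 ≤ z) (h1 : z ≤ 0.0288375) (hx : x ≤ 0.23) :
    z * x ≤ 0.0288375 * 0.23 := by
  have := mul_le_mul_of_nonneg_left hx h0
  linarith

private theorem vc_PP {a b : ℝ} (h0 : 0 ≤ a) (h1 : a ≤ 0.56) (h2 : -0.49 ≤ b) : -0.2744 ≤ a * b := by
  have := mul_le_mul_of_nonneg_left h2 h0
  linarith

private theorem vc_pU {U : ℝ} (h1 : -0.1381 ≤ U) (h2 : U ≤ 0.1381) : -1 < p * U ∧ p * U < 1 := by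
  have := p_bounds.2
  have h0 := p_pos
  constructor <;> nlinarith

private theorem vc_final {s6 r3 p kap As l0 A2 t Rr b X Y M1 M2 M3 ng nq U g q D1 D2 area P6 P12 : ℝ}
    (mono : (l0 - Rr * (p ^ 2 * b ^ 2) / 2) * P6 * ((2 + p ^ 2 * Y) + (l0 - Rr * (p ^ 2 * b ^ 2) / 2) * P12)
      - (l0 - Rr * (p ^ 2 * b ^ 2) / 2) * P12 * (2 + p ^ 2 * X) ≤ s6 * area)
    (I1 : 2 * s6 * (r3 * p ^ 2 * (0.3369 * M1 ^ 2 + 1.0347 * M2 ^ 2)) ≤
      2 * s6 * (kap * (t + p * U) + A2 * t ^ 2 - 2 * kap * p * M1 ^ 2))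
    (I2 : 2 * s6 * p * (r3 * p * (0.3485 * ((b + g) / 3 - 2 * (g * D1 + q * D2)) - 0.00002 * (ng + nq))) ≤
      2 * s6 * p * (kap * ((b + g) / 3 - 2 * (g * D1 + q * D2))))
    (I3 : p ^ 2 * (2 * s6 * r3 * ((0.3561 - 0.0982 * U) * Y - 0.00006 * (ng + nq))) ≤ p ^ 2 * (l0 * P6 * Y))
    (I4 : p ^ 2 * (2 * s6 * r3 * ((0.3058 + 0.103 * U) * X - 0.00001 * (ng + nq))) ≤ p ^ 2 * (-(l0 * P12 * X)))
    (I5 : Rr * (p ^ 2 * b ^ 2) / 2 * (2 * (P6 - P12) + 2 * l0 * P6 * P12) ≤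
      2 * s6 * r3 * p ^ 2 * (0.17205 * b ^ 2))
    (I6 : Rr * (p ^ 2 * b ^ 2) / 2 * (p ^ 2 * (P6 * Y - P12 * X)) ≤ 2 * s6 * r3 * p ^ 2 * (0.0012 * b ^ 2))
    (I7 : -(2 * s6 * r3 * p ^ 2 * (0.0001 * b ^ 2)) ≤ (Rr * (p ^ 2 * b ^ 2) / 2) ^ 2 * (P6 * P12))
    (I8 : 0 ≤ 2 * s6 * (kap * p) * (2 * M3 ^ 2))
    (I9 : 0 ≤ 2 * s6 * r3 * p ^ 2 * (0.00011 * (ng + nq) - 0.00035 * b ^ 2))
    (I10 : 0 ≤ 2 * s6 * r3 * p ^ 2 * (0.0002 * (ng + nq)))
    (idn : l0 ^ 2 * P6 * P12 + 2 * l0 * (P6 - P12) = 2 * s6 * (As + kap * t + A2 * t ^ 2)) :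
    2 * s6 * (r3 * p ^ 2 * (0.3369 * M1 ^ 2 + 1.0347 * M2 ^ 2
    + 0.3485 * ((b + g) / 3 - 2 * (g * D1 + q * D2))
    + (0.3058 + 0.103 * U) * X + (0.3561 - 0.0982 * U) * Y
    - 0.173 * b ^ 2 - 0.0005 * (ng + nq))) ≤
      2 * s6 * (area / 2 - As + 3 * kap * p * ((U + (b + g) / 3) / 3 + (2/3) * (M3 ^ 2 - M1 ^ 2)
    - (2/3) * (g * D1 + q * D2))) := by
  have hV : (l0 - Rr * (p ^ 2 * b ^ 2) / 2) * P6 * ((2 + p ^ 2 * Y) + (l0 - Rr * (p ^ 2 * b ^ 2) / 2) * P12)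
      - (l0 - Rr * (p ^ 2 * b ^ 2) / 2) * P12 * (2 + p ^ 2 * X) =
      2 * s6 * (As + kap * t + A2 * t ^ 2)
      - Rr * (p ^ 2 * b ^ 2) / 2 * (2 * (P6 - P12) + 2 * l0 * P6 * P12)
      + (Rr * (p ^ 2 * b ^ 2) / 2) ^ 2 * (P6 * P12)
      + p ^ 2 * (l0 * P6 * Y) + p ^ 2 * (-(l0 * P12 * X))
      - Rr * (p ^ 2 * b ^ 2) / 2 * (p ^ 2 * (P6 * Y - P12 * X)) := by
    linear_combination idn
  rw [hV] at mono
  set T1 := Rr * (p ^ 2 * b ^ 2) / 2 * (2 * (P6 - P12) + 2 * l0 * P6 * P12)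
  set T2 := (Rr * (p ^ 2 * b ^ 2) / 2) ^ 2 * (P6 * P12)
  set T3 := Rr * (p ^ 2 * b ^ 2) / 2 * (p ^ 2 * (P6 * Y - P12 * X))
  set T4 := p ^ 2 * (l0 * P6 * Y)
  set T5 := p ^ 2 * (-(l0 * P12 * X))
  clear_value T1 T2 T3 T4 T5
  have key : 2 * s6 * (area / 2 - As + 3 * kap * p * ((U + (b + g) / 3) / 3 + (2/3) * (M3 ^ 2 - M1 ^ 2)
    - (2/3) * (g * D1 + q * D2))) = s6 * area - 2 * s6 * (As + kap * t + A2 * t ^ 2)
      + 2 * s6 * (kap * (t + p * U) + A2 * t ^ 2 - 2 * kap * p * M1 ^ 2)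
      + 2 * s6 * p * (kap * ((b + g) / 3 - 2 * (g * D1 + q * D2)))
      + 2 * s6 * (kap * p) * (2 * M3 ^ 2) := by ring
  rw [key]
  linarith [mono, I1, I2, I3, I4, I5, I6, I7, I8, I9, I10]

theorem V_area {U g q D1 D2 D3 A1 A2 A3 d1 d2 d3 : ℝ}
    (hT : Tri (p * U) (p * (U + g - q - 1/3 + D2)) (p * (U + g - 1/6 - D1)) A1 A2 A3 d1 d2 d3)
    (hA1 : A1 = π / 3 + p * D1) (hA2 : A2 = π / 3 + p * D2) (hA3 : A3 = π / 3 + p * D3)
    (h : VC U g q D1 D2 D3) (h1 : -0.006 ≤ D1) (h1' : D1 ≤ 0.0075) (h2 : -0.0125 ≤ D2)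
    (h2' : D2 ≤ 0) (e1 : d1 ^ 2 ≤ 4.08) (g1 : 0 ≤ d1) (g2 : 0 ≤ d2) (g3 : 0 ≤ d3) :
    √3 * p ^ 2 * Fp U g q D1 D2 ≤
      Psi (p * U) (p * (U + g - q - 1/3 + D2)) (p * (U + g - 1/6 - D1)) A1 A2 A3 d1 d2 d3 := by
  obtain ⟨r, hr, l1, l2, l3⟩ := hT.law
  have hsum := h.sum
  have hpi : π / 3 = 6 * p + p / 6 := by rw [pi_eq]; ring
  have hppos := p_pos
  -- sides
  have s1 : PairIneq (p * U) (p * (U + g - q - 1/2)) d1 := by
    have := hT.side1
    rw [show p * (U + g - q - 1/3 + D2) - A2 = p * (U + g - q - 1/2) + ((-6 : ℤ) : ℝ) * p by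
      rw [hA2, hpi]; push_cast; ring, show p * U = p * U + ((0 : ℤ) : ℝ) * p by push_cast; ring,
      pair_shift] at this
    exact this
  have s2 : PairIneq (p * (U + g - q - 1/3 + D2)) (p * (U + g - 1/3 + D2)) d2 := by
    have := hT.side2
    rw [show p * (U + g - 1/6 - D1) - A3 = p * (U + g - 1/3 + D2) + ((-6 : ℤ) : ℝ) * p by
      rw [hA3, hpi, show D3 = -D1 - D2 by linarith]; push_cast; ring,
      show p * (U + g - q - 1/3 + D2) = p * (U + g - q - 1/3 + D2) + ((0 : ℤ) : ℝ) * p by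
        push_cast; ring, pair_shift] at this
    exact this
  have s3 : PairIneq (p * (U + g - 1/6 - D1)) (p * (U - 1/6 - D1)) d3 := by
    have := hT.side3
    rw [show p * U - A1 = p * (U - 1/6 - D1) + ((-6 : ℤ) : ℝ) * p by
      rw [hA1, hpi]; push_cast; ring,
      show p * (U + g - 1/6 - D1) = p * (U + g - 1/6 - D1) + ((0 : ℤ) : ℝ) * p by
        push_cast; ring, pair_shift] at this
    exact this
  have b1 := side1_lb h g1 s1
  have b3 := side3_lb h (by linarith) (by linarith) g3 s3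
  have b2 := side2_lb h (by linarith) (by linarith) g2 s2
  -- tangent
  obtain ⟨t1, t2, t3, t4, t5⟩ := vc_t h.hU1 h.hU2
  have hcos : 0 < cos (p * U) := by
    have w := vc_pU h.hU1 h.hU2
    have := Real.pi_gt_three
    exact cos_pos_of_mem_Ioo ⟨by linarith [w.1], by linarith [w.2]⟩
  have htan : tan (p * U) * cos (p * U) = sin (p * U) := tan_mul_cos hcos.ne'
  set t := -tan (p * U) with ht
  have q6 : d1 * cos (6 * p + p * U) = d1 * cos (p * U) * (c6 + s6 * t) := by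
    rw [cos_add]
    change d1 * (c6 * cos (p * U) - s6 * sin (p * U)) = _
    rw [← htan, ht]; ring
  have q12 : d1 * cos (12 * p + p * U) = d1 * cos (p * U) * (c12 + s12 * t) := by
    rw [cos_add]
    change d1 * (c12 * cos (p * U) - s12 * sin (p * U)) = _
    rw [← htan, ht]; ring
  have ar := area_ref (U := U) hA1 hA2 hA3 hsum l1 l2 l3
  rw [q6, q12] at ar
  -- numeric bounds
  have hX := vc_xh h h1 h1'
  have hY := vc_yh h h2 h2'
  have k1 := h.hg1; have k2 := h.hg2; have k3 := h.hq1; have k4 := h.hq2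
  have hg : |g| ≤ 0.1485 := abs_le.mpr ⟨by linarith, k2⟩
  have hq : |q| ≤ 0.1381 := abs_le.mpr ⟨k3, by linarith⟩
  have hg0 := abs_nonneg g
  have hq0 := abs_nonneg q
  have hp2 := vc_p2
  have hC := vc_C
  have hP6 : |s6 * t| ≤ 0.8515292 * 0.0236 := by
    rw [abs_mul]
    apply mul_le_mul _ t5 (abs_nonneg _) (by norm_num)
    rw [abs_of_pos (by linarith [s6_bounds.1])]
    exact s6_bounds.2.le
  have hP12 : |s12 * t| ≤ 0.8929259 * 0.0236 := by
    rw [abs_mul]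
    apply mul_le_mul _ t5 (abs_nonneg _) (by norm_num)
    rw [abs_of_pos (by linarith [s12_bounds.1])]
    exact s12_bounds.2.le
  have hP6' := abs_le.mp hP6
  have hP12' := abs_le.mp hP12
  have hb : (g - q) ^ 2 ≤ 0.0822 := vc_sqle (by linarith) (by linarith)
  have hRr := Rr_bounds
  have hom0 : 0 ≤ Rr * (p ^ 2 * (g - q) ^ 2) / 2 := by
    have := Rr_pos; positivity
  have hpb : 0 ≤ p ^ 2 * (g - q) ^ 2 := by positivity
  have hz' : p ^ 2 * (g - q) ^ 2 ≤ 0.0288375 * 0.0822 := mul_le_mul hp2.2 hb (sq_nonneg _) (by norm_num)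
  have hom2 : Rr * (p ^ 2 * (g - q) ^ 2) / 2 ≤ 0.1 := vc_om hpb hz' hRr.2.le
  have hl0 := vc_l0
  have hd1 : d1 ≤ 2.03 := vc_d1 e1
  have hxi : d1 * cos (p * U) ≤ 2.03 := vc_dc hd1 g1 (cos_le_one (p * U))
  have hXb := abs_le.mp hX
  have hYb := abs_le.mp hY
  have hX0 : 1.9 ≤ 2 + p ^ 2 * xh U g D1 := by
    exact vc_X0 (sq_nonneg p) hp2.2 (by linarith [hXb.1])
  have hY0 : 1.9 ≤ 2 + p ^ 2 * yh U g q D2 := by
    exact vc_X0 (sq_nonneg p) hp2.2 (by linarith [hYb.1])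
  have mono := area_mono (P6 := c6 + s6 * t) (P12 := c12 + s12 * t)
    (by linarith [c6_bounds.1, hP6'.1]) (by linarith [c6_bounds.2, hP6'.2])
    (by linarith [c12_bounds.1, hP12'.1]) (by linarith [c12_bounds.2, hP12'.2])
    (by linarith [hl0.1] : 0 ≤ l0 - Rr * (p ^ 2 * (g - q) ^ 2) / 2) b1 hxi hX0 b3 hY0 b2
  rw [← ar] at mono
  -- the G terms
  have hGa : ∀ X : ℝ, G (p * X) = 3 * kap * p * g0 X := by
    intro X
    unfold G
    rw [mul_div_cancel_left₀ _ hppos.ne']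
  have hGb : ∀ X D : ℝ, G (p * X - (π / 3 + p * D)) = 3 * kap * p * g0 (X - 1/6 - D) := by
    intro X D
    unfold G
    rw [show (p * X - (π / 3 + p * D)) / p = (X - 1/6 - D) - ((6 : ℤ) : ℝ) by
      rw [hpi]; push_cast; field_simp; ring, g0_sub_int]
  have hGs := Gs_eval h (by linarith) (by linarith) (by linarith) (by linarith)
  have hPsi : Psi (p * U) (p * (U + g - q - 1/3 + D2)) (p * (U + g - 1/6 - D1)) A1 A2 A3 d1 d2 d3 =
      d1 * d3 * sin A1 / 2 - As + 3 * kap * p * Gsp U g q D1 D2 := by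
    rw [← hGs]
    unfold Psi Gs
    rw [hA1, hA2, hA3]
    simp only [hGa, hGb]
    ring
  rw [hPsi]
  -- pieces
  have hs6 : 0 < s6 := by linarith [s6_bounds.1]
  have hkap : 0 < kap := by linarith [kap_bounds.1]
  have n0 : 0 ≤ |g| + |q| := by linarith
  have I1 := mul_le_mul_of_nonneg_left (vc_i (U := U) (t := t) h.hU2 t1 t2 t3)
    (by positivity : 0 ≤ 2 * s6)
  have hQ : |((g - q) + g) / 3 - 2 * (g * D1 + q * D2)| ≤ 0.7 * (|g| + |q|) := by
    have f1 : |g * (2/3 - 2 * D1)| ≤ 0.7 * |g| := by apply vc_mul_abs <;> linarith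
    have f2 : |q * (-1/3 - 2 * D2)| ≤ 0.7 * |q| := by apply vc_mul_abs <;> linarith
    have f3 := abs_add_le (g * (2/3 - 2 * D1)) (q * (-1/3 - 2 * D2))
    rw [show ((g - q) + g) / 3 - 2 * (g * D1 + q * D2) = g * (2/3 - 2 * D1) + q * (-1/3 - 2 * D2) by ring]
    linarith
  have I2 := mul_le_mul_of_nonneg_left (vc_b n0 hQ) (by positivity : 0 ≤ 2 * s6 * p)
  have I3 := mul_le_mul_of_nonneg_left (vc_y (t := t) h.hU1 h.hU2 t4 n0 hY) (sq_nonneg p)
  have I4 := mul_le_mul_of_nonneg_left (vc_x (t := t) h.hU1 h.hU2 t4 n0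
    (hX.trans (by linarith : 0.61 * |g| ≤ 0.61 * (|g| + |q|)))) (sq_nonneg p)
  have hBr := vc_Br t5
  have I5 : Rr * (p ^ 2 * (g - q) ^ 2) / 2 *
      (2 * ((c6 + s6 * t) - (c12 + s12 * t)) + 2 * l0 * (c6 + s6 * t) * (c12 + s12 * t)) ≤
      2 * s6 * √3 * p ^ 2 * (0.17205 * (g - q) ^ 2) := by
    have u := vc_I5 hpb Rr_pos.le hRr.2.le hBr hC.1
    refine u.trans (le_of_eq (by ring))
  have hW : |(c6 + s6 * t) * yh U g q D2 - (c12 + s12 * t) * xh U g D1| ≤ 0.23 := by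
    have f1 : |(c6 + s6 * t) * yh U g q D2| ≤ 0.56 * (1.1 * 0.2866) := by
      rw [abs_mul]
      apply mul_le_mul _ (hY.trans (by linarith)) (abs_nonneg _) (by norm_num)
      rw [abs_le]; constructor <;> linarith [c6_bounds.1, c6_bounds.2, hP6'.1, hP6'.2]
    have f2 : |(c12 + s12 * t) * xh U g D1| ≤ 0.49 * (0.61 * 0.1485) := by
      rw [abs_mul]
      apply mul_le_mul _ (hX.trans (by linarith)) (abs_nonneg _) (by norm_num)
      rw [abs_le]; constructor <;> linarith [c12_bounds.1, c12_bounds.2, hP12'.1, hP12'.2]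
    have f3 := abs_sub ((c6 + s6 * t) * yh U g q D2) ((c12 + s12 * t) * xh U g D1)
    linarith
  have I6 : Rr * (p ^ 2 * (g - q) ^ 2) / 2 * (p ^ 2 *
      ((c6 + s6 * t) * yh U g q D2 - (c12 + s12 * t) * xh U g D1)) ≤
      2 * s6 * √3 * p ^ 2 * (0.0012 * (g - q) ^ 2) := by
    have u0 : p ^ 2 * ((c6 + s6 * t) * yh U g q D2 - (c12 + s12 * t) * xh U g D1) ≤ 0.0288375 * 0.23 := by
      exact vc_u0 (sq_nonneg p) hp2.2 (abs_le.mp hW).2
    have u := vc_I6 hpb Rr_pos.le hRr.2.le u0 hC.1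
    refine u.trans (le_of_eq (by ring))
  have I7 : -(2 * s6 * √3 * p ^ 2 * (0.0001 * (g - q) ^ 2)) ≤
      (Rr * (p ^ 2 * (g - q) ^ 2) / 2) ^ 2 * ((c6 + s6 * t) * (c12 + s12 * t)) := by
    have u0 : -0.2744 ≤ (c6 + s6 * t) * (c12 + s12 * t) := by
      exact vc_PP (by linarith [c6_bounds.1, hP6'.1]) (by linarith [c6_bounds.2, hP6'.2])
        (by linarith [c12_bounds.1, hP12'.1])
    have u := vc_I7 hpb hz' Rr_pos.le hRr.2.le u0 hC.1
    refine le_trans (le_of_eq (by ring)) u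
  have I8 : 0 ≤ 2 * s6 * (kap * p) * (2 * (max (-(U + g - q)) 0) ^ 2) := by positivity
  have I9 : 0 ≤ 2 * s6 * √3 * p ^ 2 * (0.00011 * (|g| + |q|) - 0.00035 * (g - q) ^ 2) := by
    apply mul_nonneg (by positivity)
    have v1 : |g - q| ≤ |g| + |q| := abs_sub _ _
    have v2 : (g - q) ^ 2 ≤ (|g| + |q|) * 0.2866 := by
      rw [← sq_abs, sq]
      exact mul_le_mul v1 (v1.trans (by linarith)) (abs_nonneg _) n0
    linarith
  have I10 : 0 ≤ 2 * s6 * √3 * p ^ 2 * (0.0002 * (|g| + |q|)) := by positivity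
  have idn := As_kap_identity t
  have fin : 2 * s6 * (√3 * p ^ 2 * Fp U g q D1 D2) ≤
      2 * s6 * (d1 * d3 * sin A1 / 2 - As + 3 * kap * p * Gsp U g q D1 D2) := by
    unfold Fp Gsp
    exact vc_final (b := g - q) mono I1 I2 I3 I4 I5 I6 I7 I8 I9 I10 (by linear_combination idn)
  exact le_of_mul_le_mul_left fin (by positivity)

end Pool.Agent.Lib.P37
end

section

/-!
# The local inequality near the optimal triangle
-/

namespace Pool.Agent.Lib.P37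

open Real

theorem V_lemma {x1 x2 x3 A1 A2 A3 d1 d2 d3 D1 D2 D3 : ℝ} (hT : Tri x1 x2 x3 A1 A2 A3 d1 d2 d3)
    (hA1 : A1 = π / 3 + p * D1) (hA2 : A2 = π / 3 + p * D2) (hA3 : A3 = π / 3 + p * D3)
    (h1 : |D1| ≤ 0.07) (h2 : |D2| ≤ 0.07) (h3 : |D3| ≤ 0.07)
    (e1 : d1 ^ 2 ≤ 4.08) (g1 : 0 ≤ d1) (g2 : 0 ≤ d2) (g3 : 0 ≤ d3)
    (hV : InV (x1 / p) (x2 / p) (x3 / p) D1 D2 D3)
    (hM1 : MI (x1 / p) (x2 / p) (x3 / p) D1 D2 D3 < 0)
    (hM2 : MI (x2 / p) (x3 / p) (x1 / p) D2 D3 D1 < 0)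
    (hM3 : MI (x3 / p) (x1 / p) (x2 / p) D3 D1 D2 < 0) :
    0 ≤ Psi x1 x2 x3 A1 A2 A3 d1 d2 d3 := by
  have hp := p_pos
  obtain ⟨U, g, q, n1, n2, n3, hVC, f1, f2, f3⟩ := hV
  -- shifted phases
  have x1e : x1 = p * U + n1 * p := by
    have : x1 = (x1 / p) * p := by field_simp
    rw [this, f1]; ring
  have x2e : x2 = p * (U + g - q - 1/3 + D2) + n2 * p := by
    have : x2 = (x2 / p) * p := by field_simp
    rw [this, f2]; ring
  have x3e : x3 = p * (U + g - 1/6 - D1) + n3 * p := by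
    have : x3 = (x3 / p) * p := by field_simp
    rw [this, f3]; ring
  have hT' : Tri (p * U) (p * (U + g - q - 1/3 + D2)) (p * (U + g - 1/6 - D1)) A1 A2 A3 d1 d2 d3 := by
    have := tri_shift hT (-n1) (-n2) (-n3)
    convert this using 1
    · rw [x1e]; push_cast; ring
    · rw [x2e]; push_cast; ring
    · rw [x3e]; push_cast; ring
  have hPsi : Psi x1 x2 x3 A1 A2 A3 d1 d2 d3 =
      Psi (p * U) (p * (U + g - q - 1/3 + D2)) (p * (U + g - 1/6 - D1)) A1 A2 A3 d1 d2 d3 := by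
    rw [x1e, x2e, x3e]
    exact Psi_shift _ _ _ _ _ _ _ _ _ n1 n2 n3
  -- MI's at the lifted phases
  have E : ∀ a b : ℝ, ∀ m n : ℤ, Ee (a + m) (b + n) = Ee a b := by
    intro a b m n
    unfold Ee
    rw [nd_add_int, nd_add_int]
    have : a + m - (b + n) = (a - b) + ((m - n : ℤ) : ℝ) := by push_cast; ring
    rw [this, tau_add_int]
  have M : ∀ (a b c u v w : ℝ) (m n k : ℤ), MI (a + m) (b + n) (c + k) u v w = MI a b c u v w := by
    intro a b c u v w m n k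
    unfold MI Gs
    rw [show b + n - 1/6 - v = (b - 1/6 - v) + n by ring, E,
      show a + m - 1/6 - u = (a - 1/6 - u) + m by ring,
      show c + k - 1/6 - w = (c - 1/6 - w) + k by ring]
    simp only [g0_add_int]
  rw [f1, f2, f3, M] at hM1 hM2 hM3
  obtain ⟨a1, a2, a3⟩ := V_apriori hVC h1 h2 h3 hM1 hM2 hM3
  have s := hVC.sum
  have b1 : D1 ≤ 0.052 := by linarith
  have b2 : D2 ≤ 0.052 := by linarith
  rw [MI1_eval hVC a1 b1 a2 b2] at hM1
  rw [MI2_eval hVC a1 b1 a2 b2] at hM2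
  rw [MI3_eval hVC a1 b1 a2 b2] at hM3
  obtain ⟨c1, c2, c3⟩ := V_pin1 hVC a1 a2 a3 hM1 hM2 hM3
  obtain ⟨k1, k2⟩ := V_pin2 hVC c1 c2 c3 hM1 hM2 hM3
  have hF := Fp_nonneg hVC c1 k1 c2 k2
  have hA := V_area hT' hA1 hA2 hA3 hVC c1 k1 c2 k2 e1 g1 g2 g3
  rw [hPsi]
  refine le_trans ?_ hA
  positivity

end Pool.Agent.Lib.P37
end
end
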