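import Pool.Agent.Lib.MP_c009e6_co.ChkF
import Pool.Agent.Lib.MP_c009e6_co.LocW
import Pool.Agent.Lib.MP_c009e6_co.Cert1
import Pool.Agent.Lib.MP_c009e6_co.VLemma
import Pool.Agent.Lib.MP_c009e6_co.MIb
import Pool.Agent.Lib.MP_c009e6_co.Prep
import Pool.Agent.Lib.MP_c009e6_co.PUpper
import Pool.Agent.Lib.MP_c009e6_co.PVol

section

/-!
# All top boxes are certified
-/

namespace Pool.Agent.Lib.P37.Chk

theorem get {a b c z : ℤ} {l : List Crt} (h : colCheck a b c l = true) (n : ℕ) (hn : n < l.length)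
    (hz : c + 32 * (n : ℤ) = z) : ∃ t, chk t a b z 16 = true := by
  obtain ⟨t, ht⟩ := colCheck_sound l c h n hn
  exact ⟨t, by rw [← hz]; exact ht⟩

theorem e_0_0 (k : ℕ) (h : 0 ≤ k) (h2 : k < 12) :
    ∃ t, chk t 16 16 (16 + 32 * (k : ℤ)) 16 = true := by
  interval_cases k
  · exact get c_0_0_0 0 (by simp) (by norm_num)
  · exact get c_0_0_0 1 (by simp) (by norm_num)
  · exact get c_0_0_0 2 (by simp) (by norm_num)
  · exact get c_0_0_0 3 (by simp) (by norm_num)
  · exact get c_0_0_0 4 (by simp) (by norm_num)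
  · exact get c_0_0_0 5 (by simp) (by norm_num)
  · exact get c_0_0_0 6 (by simp) (by norm_num)
  · exact get c_0_0_0 7 (by simp) (by norm_num)
  · exact get c_0_0_0 8 (by simp) (by norm_num)
  · exact get c_0_0_0 9 (by simp) (by norm_num)
  · exact get c_0_0_0 10 (by simp) (by norm_num)
  · exact get c_0_0_0 11 (by simp) (by norm_num)

theorem e_0_1 (k : ℕ) (h : 0 ≤ k) (h2 : k < 12) :
    ∃ t, chk t 16 48 (16 + 32 * (k : ℤ)) 16 = true := by
  interval_cases k
  · exact get c_0_1_0 0 (by simp) (by norm_num)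
  · exact get c_0_1_0 1 (by simp) (by norm_num)
  · exact get c_0_1_0 2 (by simp) (by norm_num)
  · exact get c_0_1_0 3 (by simp) (by norm_num)
  · exact get c_0_1_0 4 (by simp) (by norm_num)
  · exact get c_0_1_0 5 (by simp) (by norm_num)
  · exact get c_0_1_0 6 (by simp) (by norm_num)
  · exact get c_0_1_0 7 (by simp) (by norm_num)
  · exact get c_0_1_0 8 (by simp) (by norm_num)
  · exact get c_0_1_0 9 (by simp) (by norm_num)
  · exact get c_0_1_0 10 (by simp) (by norm_num)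
  · exact get c_0_1_0 11 (by simp) (by norm_num)

theorem e_0_2 (k : ℕ) (h : 0 ≤ k) (h2 : k < 12) :
    ∃ t, chk t 16 80 (16 + 32 * (k : ℤ)) 16 = true := by
  interval_cases k
  · exact get c_0_2_0 0 (by simp) (by norm_num)
  · exact get c_0_2_0 1 (by simp) (by norm_num)
  · exact get c_0_2_0 2 (by simp) (by norm_num)
  · exact get c_0_2_0 3 (by simp) (by norm_num)
  · exact get c_0_2_0 4 (by simp) (by norm_num)
  · exact get c_0_2_0 5 (by simp) (by norm_num)
  · exact get c_0_2_0 6 (by simp) (by norm_num)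
  · exact get c_0_2_0 7 (by simp) (by norm_num)
  · exact get c_0_2_0 8 (by simp) (by norm_num)
  · exact get c_0_2_0 9 (by simp) (by norm_num)
  · exact get c_0_2_0 10 (by simp) (by norm_num)
  · exact get c_0_2_0 11 (by simp) (by norm_num)

theorem e_0_3 (k : ℕ) (h : 0 ≤ k) (h2 : k < 12) :
    ∃ t, chk t 16 112 (16 + 32 * (k : ℤ)) 16 = true := by
  interval_cases k
  · exact get c_0_3_0 0 (by simp) (by norm_num)
  · exact get c_0_3_0 1 (by simp) (by norm_num)
  · exact get c_0_3_0 2 (by simp) (by norm_num)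
  · exact get c_0_3_0 3 (by simp) (by norm_num)
  · exact get c_0_3_0 4 (by simp) (by norm_num)
  · exact get c_0_3_0 5 (by simp) (by norm_num)
  · exact get c_0_3_0 6 (by simp) (by norm_num)
  · exact get c_0_3_0 7 (by simp) (by norm_num)
  · exact get c_0_3_0 8 (by simp) (by norm_num)
  · exact get c_0_3_0 9 (by simp) (by norm_num)
  · exact get c_0_3_0 10 (by simp) (by norm_num)
  · exact get c_0_3_0 11 (by simp) (by norm_num)

theorem e_0_4 (k : ℕ) (h : 0 ≤ k) (h2 : k < 12) :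
    ∃ t, chk t 16 144 (16 + 32 * (k : ℤ)) 16 = true := by
  interval_cases k
  · exact get c_0_4_0 0 (by simp) (by norm_num)
  · exact get c_0_4_0 1 (by simp) (by norm_num)
  · exact get c_0_4_0 2 (by simp) (by norm_num)
  · exact get c_0_4_0 3 (by simp) (by norm_num)
  · exact get c_0_4_0 4 (by simp) (by norm_num)
  · exact get c_0_4_0 5 (by simp) (by norm_num)
  · exact get c_0_4_0 6 (by simp) (by norm_num)
  · exact get c_0_4_0 7 (by simp) (by norm_num)
  · exact get c_0_4_0 8 (by simp) (by norm_num)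
  · exact get c_0_4_0 9 (by simp) (by norm_num)
  · exact get c_0_4_0 10 (by simp) (by norm_num)
  · exact get c_0_4_0 11 (by simp) (by norm_num)

theorem e_0_5 (k : ℕ) (h : 0 ≤ k) (h2 : k < 12) :
    ∃ t, chk t 16 176 (16 + 32 * (k : ℤ)) 16 = true := by
  interval_cases k
  · exact get c_0_5_0 0 (by simp) (by norm_num)
  · exact get c_0_5_0 1 (by simp) (by norm_num)
  · exact get c_0_5_0 2 (by simp) (by norm_num)
  · exact get c_0_5_0 3 (by simp) (by norm_num)
  · exact get c_0_5_0 4 (by simp) (by norm_num)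
  · exact get c_0_5_0 5 (by simp) (by norm_num)
  · exact get c_0_5_0 6 (by simp) (by norm_num)
  · exact get c_0_5_0 7 (by simp) (by norm_num)
  · exact get c_0_5_0 8 (by simp) (by norm_num)
  · exact get c_0_5_0 9 (by simp) (by norm_num)
  · exact get c_0_5_0 10 (by simp) (by norm_num)
  · exact get c_0_5_0 11 (by simp) (by norm_num)

theorem e_0_6 (k : ℕ) (h : 0 ≤ k) (h2 : k < 12) :
    ∃ t, chk t 16 208 (16 + 32 * (k : ℤ)) 16 = true := by
  interval_cases k
  · exact get c_0_6_0 0 (by simp) (by norm_num)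
  · exact get c_0_6_0 1 (by simp) (by norm_num)
  · exact get c_0_6_0 2 (by simp) (by norm_num)
  · exact get c_0_6_0 3 (by simp) (by norm_num)
  · exact get c_0_6_0 4 (by simp) (by norm_num)
  · exact get c_0_6_0 5 (by simp) (by norm_num)
  · exact get c_0_6_0 6 (by simp) (by norm_num)
  · exact get c_0_6_0 7 (by simp) (by norm_num)
  · exact get c_0_6_0 8 (by simp) (by norm_num)
  · exact get c_0_6_0 9 (by simp) (by norm_num)
  · exact get c_0_6_0 10 (by simp) (by norm_num)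
  · exact get c_0_6_0 11 (by simp) (by norm_num)

theorem e_0_7 (k : ℕ) (h : 0 ≤ k) (h2 : k < 12) :
    ∃ t, chk t 16 240 (16 + 32 * (k : ℤ)) 16 = true := by
  interval_cases k
  · exact get c_0_7_0 0 (by simp) (by norm_num)
  · exact get c_0_7_0 1 (by simp) (by norm_num)
  · exact get c_0_7_0 2 (by simp) (by norm_num)
  · exact get c_0_7_0 3 (by simp) (by norm_num)
  · exact get c_0_7_0 4 (by simp) (by norm_num)
  · exact get c_0_7_0 5 (by simp) (by norm_num)
  · exact get c_0_7_0 6 (by simp) (by norm_num)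
  · exact get c_0_7_0 7 (by simp) (by norm_num)
  · exact get c_0_7_0 8 (by simp) (by norm_num)
  · exact get c_0_7_0 9 (by simp) (by norm_num)
  · exact get c_0_7_0 10 (by simp) (by norm_num)
  · exact get c_0_7_0 11 (by simp) (by norm_num)

theorem e_0_8 (k : ℕ) (h : 0 ≤ k) (h2 : k < 12) :
    ∃ t, chk t 16 272 (16 + 32 * (k : ℤ)) 16 = true := by
  interval_cases k
  · exact get c_0_8_0 0 (by simp) (by norm_num)
  · exact get c_0_8_0 1 (by simp) (by norm_num)
  · exact get c_0_8_0 2 (by simp) (by norm_num)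
  · exact get c_0_8_0 3 (by simp) (by norm_num)
  · exact get c_0_8_0 4 (by simp) (by norm_num)
  · exact get c_0_8_0 5 (by simp) (by norm_num)
  · exact get c_0_8_0 6 (by simp) (by norm_num)
  · exact get c_0_8_0 7 (by simp) (by norm_num)
  · exact get c_0_8_0 8 (by simp) (by norm_num)
  · exact get c_0_8_0 9 (by simp) (by norm_num)
  · exact get c_0_8_0 10 (by simp) (by norm_num)
  · exact get c_0_8_0 11 (by simp) (by norm_num)

theorem e_0_9 (k : ℕ) (h : 0 ≤ k) (h2 : k < 12) :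
    ∃ t, chk t 16 304 (16 + 32 * (k : ℤ)) 16 = true := by
  interval_cases k
  · exact get c_0_9_0 0 (by simp) (by norm_num)
  · exact get c_0_9_0 1 (by simp) (by norm_num)
  · exact get c_0_9_0 2 (by simp) (by norm_num)
  · exact get c_0_9_0 3 (by simp) (by norm_num)
  · exact get c_0_9_0 4 (by simp) (by norm_num)
  · exact get c_0_9_0 5 (by simp) (by norm_num)
  · exact get c_0_9_0 6 (by simp) (by norm_num)
  · exact get c_0_9_0 7 (by simp) (by norm_num)
  · exact get c_0_9_0 8 (by simp) (by norm_num)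
  · exact get c_0_9_0 9 (by simp) (by norm_num)
  · exact get c_0_9_0 10 (by simp) (by norm_num)
  · exact get c_0_9_0 11 (by simp) (by norm_num)

theorem e_0_10 (k : ℕ) (h : 0 ≤ k) (h2 : k < 12) :
    ∃ t, chk t 16 336 (16 + 32 * (k : ℤ)) 16 = true := by
  interval_cases k
  · exact get c_0_10_0 0 (by simp) (by norm_num)
  · exact get c_0_10_0 1 (by simp) (by norm_num)
  · exact get c_0_10_0 2 (by simp) (by norm_num)
  · exact get c_0_10_0 3 (by simp) (by norm_num)
  · exact get c_0_10_0 4 (by simp) (by norm_num)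
  · exact get c_0_10_0 5 (by simp) (by norm_num)
  · exact get c_0_10_0 6 (by simp) (by norm_num)
  · exact get c_0_10_0 7 (by simp) (by norm_num)
  · exact get c_0_10_0 8 (by simp) (by norm_num)
  · exact get c_0_10_0 9 (by simp) (by norm_num)
  · exact get c_0_10_0 10 (by simp) (by norm_num)
  · exact get c_0_10_0 11 (by simp) (by norm_num)

theorem e_0_11 (k : ℕ) (h : 0 ≤ k) (h2 : k < 12) :
    ∃ t, chk t 16 368 (16 + 32 * (k : ℤ)) 16 = true := by
  interval_cases k
  · exact get c_0_11_0 0 (by simp) (by norm_num)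
  · exact get c_0_11_0 1 (by simp) (by norm_num)
  · exact get c_0_11_0 2 (by simp) (by norm_num)
  · exact get c_0_11_0 3 (by simp) (by norm_num)
  · exact get c_0_11_0 4 (by simp) (by norm_num)
  · exact get c_0_11_0 5 (by simp) (by norm_num)
  · exact get c_0_11_0 6 (by simp) (by norm_num)
  · exact get c_0_11_0 7 (by simp) (by norm_num)
  · exact get c_0_11_0 8 (by simp) (by norm_num)
  · exact get c_0_11_0 9 (by simp) (by norm_num)
  · exact get c_0_11_0 10 (by simp) (by norm_num)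
  · exact get c_0_11_0 11 (by simp) (by norm_num)

theorem e_1_1 (k : ℕ) (h : 1 ≤ k) (h2 : k < 12) :
    ∃ t, chk t 48 48 (16 + 32 * (k : ℤ)) 16 = true := by
  interval_cases k
  · exact get c_1_1_1 0 (by simp) (by norm_num)
  · exact get c_1_1_1 1 (by simp) (by norm_num)
  · exact get c_1_1_1 2 (by simp) (by norm_num)
  · exact get c_1_1_1 3 (by simp) (by norm_num)
  · exact get c_1_1_1 4 (by simp) (by norm_num)
  · exact get c_1_1_1 5 (by simp) (by norm_num)
  · exact get c_1_1_1 6 (by simp) (by norm_num)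
  · exact get c_1_1_1 7 (by simp) (by norm_num)
  · exact get c_1_1_1 8 (by simp) (by norm_num)
  · exact get c_1_1_1 9 (by simp) (by norm_num)
  · exact get c_1_1_1 10 (by simp) (by norm_num)

theorem e_1_2 (k : ℕ) (h : 1 ≤ k) (h2 : k < 12) :
    ∃ t, chk t 48 80 (16 + 32 * (k : ℤ)) 16 = true := by
  interval_cases k
  · exact get c_1_2_1 0 (by simp) (by norm_num)
  · exact get c_1_2_1 1 (by simp) (by norm_num)
  · exact get c_1_2_1 2 (by simp) (by norm_num)
  · exact get c_1_2_1 3 (by simp) (by norm_num)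
  · exact get c_1_2_1 4 (by simp) (by norm_num)
  · exact get c_1_2_1 5 (by simp) (by norm_num)
  · exact get c_1_2_1 6 (by simp) (by norm_num)
  · exact get c_1_2_1 7 (by simp) (by norm_num)
  · exact get c_1_2_1 8 (by simp) (by norm_num)
  · exact get c_1_2_1 9 (by simp) (by norm_num)
  · exact get c_1_2_1 10 (by simp) (by norm_num)

theorem e_1_3 (k : ℕ) (h : 1 ≤ k) (h2 : k < 12) :
    ∃ t, chk t 48 112 (16 + 32 * (k : ℤ)) 16 = true := by
  interval_cases k
  · exact get c_1_3_1 0 (by simp) (by norm_num)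
  · exact get c_1_3_1 1 (by simp) (by norm_num)
  · exact get c_1_3_1 2 (by simp) (by norm_num)
  · exact get c_1_3_1 3 (by simp) (by norm_num)
  · exact get c_1_3_1 4 (by simp) (by norm_num)
  · exact get c_1_3_1 5 (by simp) (by norm_num)
  · exact get c_1_3_1 6 (by simp) (by norm_num)
  · exact get c_1_3_1 7 (by simp) (by norm_num)
  · exact get c_1_3_1 8 (by simp) (by norm_num)
  · exact get c_1_3_1 9 (by simp) (by norm_num)
  · exact get c_1_3_1 10 (by simp) (by norm_num)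

theorem e_1_4 (k : ℕ) (h : 1 ≤ k) (h2 : k < 12) :
    ∃ t, chk t 48 144 (16 + 32 * (k : ℤ)) 16 = true := by
  interval_cases k
  · exact get c_1_4_1 0 (by simp) (by norm_num)
  · exact get c_1_4_1 1 (by simp) (by norm_num)
  · exact get c_1_4_1 2 (by simp) (by norm_num)
  · exact get c_1_4_1 3 (by simp) (by norm_num)
  · exact get c_1_4_1 4 (by simp) (by norm_num)
  · exact get c_1_4_1 5 (by simp) (by norm_num)
  · exact get c_1_4_1 6 (by simp) (by norm_num)
  · exact get c_1_4_1 7 (by simp) (by norm_num)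
  · exact get c_1_4_1 8 (by simp) (by norm_num)
  · exact get c_1_4_1 9 (by simp) (by norm_num)
  · exact get c_1_4_1 10 (by simp) (by norm_num)

theorem e_1_5 (k : ℕ) (h : 1 ≤ k) (h2 : k < 12) :
    ∃ t, chk t 48 176 (16 + 32 * (k : ℤ)) 16 = true := by
  interval_cases k
  · exact get c_1_5_1 0 (by simp) (by norm_num)
  · exact get c_1_5_1 1 (by simp) (by norm_num)
  · exact get c_1_5_1 2 (by simp) (by norm_num)
  · exact get c_1_5_1 3 (by simp) (by norm_num)
  · exact get c_1_5_1 4 (by simp) (by norm_num)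
  · exact get c_1_5_1 5 (by simp) (by norm_num)
  · exact get c_1_5_1 6 (by simp) (by norm_num)
  · exact get c_1_5_1 7 (by simp) (by norm_num)
  · exact get c_1_5_1 8 (by simp) (by norm_num)
  · exact get c_1_5_1 9 (by simp) (by norm_num)
  · exact get c_1_5_1 10 (by simp) (by norm_num)

theorem e_1_6 (k : ℕ) (h : 1 ≤ k) (h2 : k < 12) :
    ∃ t, chk t 48 208 (16 + 32 * (k : ℤ)) 16 = true := by
  interval_cases k
  · exact get c_1_6_1 0 (by simp) (by norm_num)
  · exact get c_1_6_1 1 (by simp) (by norm_num)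
  · exact get c_1_6_1 2 (by simp) (by norm_num)
  · exact get c_1_6_1 3 (by simp) (by norm_num)
  · exact get c_1_6_1 4 (by simp) (by norm_num)
  · exact get c_1_6_1 5 (by simp) (by norm_num)
  · exact get c_1_6_1 6 (by simp) (by norm_num)
  · exact get c_1_6_1 7 (by simp) (by norm_num)
  · exact get c_1_6_1 8 (by simp) (by norm_num)
  · exact get c_1_6_1 9 (by simp) (by norm_num)
  · exact get c_1_6_1 10 (by simp) (by norm_num)

theorem e_1_7 (k : ℕ) (h : 1 ≤ k) (h2 : k < 12) :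
    ∃ t, chk t 48 240 (16 + 32 * (k : ℤ)) 16 = true := by
  interval_cases k
  · exact get c_1_7_1 0 (by simp) (by norm_num)
  · exact get c_1_7_1 1 (by simp) (by norm_num)
  · exact get c_1_7_1 2 (by simp) (by norm_num)
  · exact get c_1_7_1 3 (by simp) (by norm_num)
  · exact get c_1_7_1 4 (by simp) (by norm_num)
  · exact get c_1_7_1 5 (by simp) (by norm_num)
  · exact get c_1_7_1 6 (by simp) (by norm_num)
  · exact get c_1_7_1 7 (by simp) (by norm_num)
  · exact get c_1_7_1 8 (by simp) (by norm_num)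
  · exact get c_1_7_1 9 (by simp) (by norm_num)
  · exact get c_1_7_1 10 (by simp) (by norm_num)

theorem e_1_8 (k : ℕ) (h : 1 ≤ k) (h2 : k < 12) :
    ∃ t, chk t 48 272 (16 + 32 * (k : ℤ)) 16 = true := by
  interval_cases k
  · exact get c_1_8_1 0 (by simp) (by norm_num)
  · exact get c_1_8_1 1 (by simp) (by norm_num)
  · exact get c_1_8_1 2 (by simp) (by norm_num)
  · exact get c_1_8_1 3 (by simp) (by norm_num)
  · exact get c_1_8_1 4 (by simp) (by norm_num)
  · exact get c_1_8_1 5 (by simp) (by norm_num)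
  · exact get c_1_8_1 6 (by simp) (by norm_num)
  · exact get c_1_8_1 7 (by simp) (by norm_num)
  · exact get c_1_8_1 8 (by simp) (by norm_num)
  · exact get c_1_8_1 9 (by simp) (by norm_num)
  · exact get c_1_8_1 10 (by simp) (by norm_num)

theorem e_1_9 (k : ℕ) (h : 1 ≤ k) (h2 : k < 12) :
    ∃ t, chk t 48 304 (16 + 32 * (k : ℤ)) 16 = true := by
  interval_cases k
  · exact get c_1_9_1 0 (by simp) (by norm_num)
  · exact get c_1_9_1 1 (by simp) (by norm_num)
  · exact get c_1_9_1 2 (by simp) (by norm_num)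
  · exact get c_1_9_1 3 (by simp) (by norm_num)
  · exact get c_1_9_1 4 (by simp) (by norm_num)
  · exact get c_1_9_1 5 (by simp) (by norm_num)
  · exact get c_1_9_1 6 (by simp) (by norm_num)
  · exact get c_1_9_1 7 (by simp) (by norm_num)
  · exact get c_1_9_1 8 (by simp) (by norm_num)
  · exact get c_1_9_1 9 (by simp) (by norm_num)
  · exact get c_1_9_1 10 (by simp) (by norm_num)

theorem e_1_10 (k : ℕ) (h : 1 ≤ k) (h2 : k < 12) :
    ∃ t, chk t 48 336 (16 + 32 * (k : ℤ)) 16 = true := by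
  interval_cases k
  · exact get c_1_10_1 0 (by simp) (by norm_num)
  · exact get c_1_10_1 1 (by simp) (by norm_num)
  · exact get c_1_10_1 2 (by simp) (by norm_num)
  · exact get c_1_10_1 3 (by simp) (by norm_num)
  · exact get c_1_10_1 4 (by simp) (by norm_num)
  · exact get c_1_10_1 5 (by simp) (by norm_num)
  · exact get c_1_10_1 6 (by simp) (by norm_num)
  · exact get c_1_10_1 7 (by simp) (by norm_num)
  · exact get c_1_10_1 8 (by simp) (by norm_num)
  · exact get c_1_10_1 9 (by simp) (by norm_num)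
  · exact get c_1_10_1 10 (by simp) (by norm_num)

theorem e_1_11 (k : ℕ) (h : 1 ≤ k) (h2 : k < 12) :
    ∃ t, chk t 48 368 (16 + 32 * (k : ℤ)) 16 = true := by
  interval_cases k
  · exact get c_1_11_1 0 (by simp) (by norm_num)
  · exact get c_1_11_1 1 (by simp) (by norm_num)
  · exact get c_1_11_1 2 (by simp) (by norm_num)
  · exact get c_1_11_1 3 (by simp) (by norm_num)
  · exact get c_1_11_1 4 (by simp) (by norm_num)
  · exact get c_1_11_1 5 (by simp) (by norm_num)
  · exact get c_1_11_1 6 (by simp) (by norm_num)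
  · exact get c_1_11_1 7 (by simp) (by norm_num)
  · exact get c_1_11_1 8 (by simp) (by norm_num)
  · exact get c_1_11_1 9 (by simp) (by norm_num)
  · exact get c_1_11_1 10 (by simp) (by norm_num)

theorem e_2_2 (k : ℕ) (h : 2 ≤ k) (h2 : k < 12) :
    ∃ t, chk t 80 80 (16 + 32 * (k : ℤ)) 16 = true := by
  interval_cases k
  · exact get c_2_2_2 0 (by simp) (by norm_num)
  · exact get c_2_2_2 1 (by simp) (by norm_num)
  · exact get c_2_2_2 2 (by simp) (by norm_num)
  · exact get c_2_2_2 3 (by simp) (by norm_num)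
  · exact get c_2_2_2 4 (by simp) (by norm_num)
  · exact get c_2_2_2 5 (by simp) (by norm_num)
  · exact get c_2_2_2 6 (by simp) (by norm_num)
  · exact get c_2_2_2 7 (by simp) (by norm_num)
  · exact get c_2_2_2 8 (by simp) (by norm_num)
  · exact get c_2_2_2 9 (by simp) (by norm_num)

theorem e_2_3 (k : ℕ) (h : 2 ≤ k) (h2 : k < 12) :
    ∃ t, chk t 80 112 (16 + 32 * (k : ℤ)) 16 = true := by
  interval_cases k
  · exact get c_2_3_2 0 (by simp) (by norm_num)
  · exact get c_2_3_2 1 (by simp) (by norm_num)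
  · exact get c_2_3_2 2 (by simp) (by norm_num)
  · exact get c_2_3_2 3 (by simp) (by norm_num)
  · exact get c_2_3_2 4 (by simp) (by norm_num)
  · exact get c_2_3_7 0 (by simp) (by norm_num)
  · exact get c_2_3_7 1 (by simp) (by norm_num)
  · exact get c_2_3_7 2 (by simp) (by norm_num)
  · exact get c_2_3_7 3 (by simp) (by norm_num)
  · exact get c_2_3_7 4 (by simp) (by norm_num)

theorem e_2_4 (k : ℕ) (h : 2 ≤ k) (h2 : k < 12) :
    ∃ t, chk t 80 144 (16 + 32 * (k : ℤ)) 16 = true := by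
  interval_cases k
  · exact get c_2_4_2 0 (by simp) (by norm_num)
  · exact get c_2_4_2 1 (by simp) (by norm_num)
  · exact get c_2_4_4 0 (by simp) (by norm_num)
  · exact get c_2_4_5 0 (by simp) (by norm_num)
  · exact get c_2_4_6 0 (by simp) (by norm_num)
  · exact get c_2_4_6 1 (by simp) (by norm_num)
  · exact get c_2_4_6 2 (by simp) (by norm_num)
  · exact get c_2_4_6 3 (by simp) (by norm_num)
  · exact get c_2_4_6 4 (by simp) (by norm_num)
  · exact get c_2_4_6 5 (by simp) (by norm_num)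

theorem e_2_5 (k : ℕ) (h : 2 ≤ k) (h2 : k < 12) :
    ∃ t, chk t 80 176 (16 + 32 * (k : ℤ)) 16 = true := by
  interval_cases k
  · exact get c_2_5_2 0 (by simp) (by norm_num)
  · exact get c_2_5_2 1 (by simp) (by norm_num)
  · exact get c_2_5_2 2 (by simp) (by norm_num)
  · exact get c_2_5_2 3 (by simp) (by norm_num)
  · exact get c_2_5_2 4 (by simp) (by norm_num)
  · exact get c_2_5_2 5 (by simp) (by norm_num)
  · exact get c_2_5_2 6 (by simp) (by norm_num)
  · exact get c_2_5_2 7 (by simp) (by norm_num)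
  · exact get c_2_5_2 8 (by simp) (by norm_num)
  · exact get c_2_5_2 9 (by simp) (by norm_num)

theorem e_2_6 (k : ℕ) (h : 2 ≤ k) (h2 : k < 12) :
    ∃ t, chk t 80 208 (16 + 32 * (k : ℤ)) 16 = true := by
  interval_cases k
  · exact get c_2_6_2 0 (by simp) (by norm_num)
  · exact get c_2_6_2 1 (by simp) (by norm_num)
  · exact get c_2_6_2 2 (by simp) (by norm_num)
  · exact get c_2_6_2 3 (by simp) (by norm_num)
  · exact get c_2_6_2 4 (by simp) (by norm_num)
  · exact get c_2_6_2 5 (by simp) (by norm_num)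
  · exact get c_2_6_2 6 (by simp) (by norm_num)
  · exact get c_2_6_2 7 (by simp) (by norm_num)
  · exact get c_2_6_2 8 (by simp) (by norm_num)
  · exact get c_2_6_2 9 (by simp) (by norm_num)

theorem e_2_7 (k : ℕ) (h : 2 ≤ k) (h2 : k < 12) :
    ∃ t, chk t 80 240 (16 + 32 * (k : ℤ)) 16 = true := by
  interval_cases k
  · exact get c_2_7_2 0 (by simp) (by norm_num)
  · exact get c_2_7_2 1 (by simp) (by norm_num)
  · exact get c_2_7_2 2 (by simp) (by norm_num)
  · exact get c_2_7_2 3 (by simp) (by norm_num)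
  · exact get c_2_7_2 4 (by simp) (by norm_num)
  · exact get c_2_7_2 5 (by simp) (by norm_num)
  · exact get c_2_7_2 6 (by simp) (by norm_num)
  · exact get c_2_7_2 7 (by simp) (by norm_num)
  · exact get c_2_7_2 8 (by simp) (by norm_num)
  · exact get c_2_7_2 9 (by simp) (by norm_num)

theorem e_2_8 (k : ℕ) (h : 2 ≤ k) (h2 : k < 12) :
    ∃ t, chk t 80 272 (16 + 32 * (k : ℤ)) 16 = true := by
  interval_cases k
  · exact get c_2_8_2 0 (by simp) (by norm_num)
  · exact get c_2_8_2 1 (by simp) (by norm_num)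
  · exact get c_2_8_2 2 (by simp) (by norm_num)
  · exact get c_2_8_2 3 (by simp) (by norm_num)
  · exact get c_2_8_2 4 (by simp) (by norm_num)
  · exact get c_2_8_2 5 (by simp) (by norm_num)
  · exact get c_2_8_2 6 (by simp) (by norm_num)
  · exact get c_2_8_2 7 (by simp) (by norm_num)
  · exact get c_2_8_2 8 (by simp) (by norm_num)
  · exact get c_2_8_2 9 (by simp) (by norm_num)

theorem e_2_9 (k : ℕ) (h : 2 ≤ k) (h2 : k < 12) :
    ∃ t, chk t 80 304 (16 + 32 * (k : ℤ)) 16 = true := by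
  interval_cases k
  · exact get c_2_9_2 0 (by simp) (by norm_num)
  · exact get c_2_9_2 1 (by simp) (by norm_num)
  · exact get c_2_9_2 2 (by simp) (by norm_num)
  · exact get c_2_9_2 3 (by simp) (by norm_num)
  · exact get c_2_9_2 4 (by simp) (by norm_num)
  · exact get c_2_9_2 5 (by simp) (by norm_num)
  · exact get c_2_9_2 6 (by simp) (by norm_num)
  · exact get c_2_9_2 7 (by simp) (by norm_num)
  · exact get c_2_9_2 8 (by simp) (by norm_num)
  · exact get c_2_9_2 9 (by simp) (by norm_num)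

theorem e_2_10 (k : ℕ) (h : 2 ≤ k) (h2 : k < 12) :
    ∃ t, chk t 80 336 (16 + 32 * (k : ℤ)) 16 = true := by
  interval_cases k
  · exact get c_2_10_2 0 (by simp) (by norm_num)
  · exact get c_2_10_2 1 (by simp) (by norm_num)
  · exact get c_2_10_2 2 (by simp) (by norm_num)
  · exact get c_2_10_2 3 (by simp) (by norm_num)
  · exact get c_2_10_2 4 (by simp) (by norm_num)
  · exact get c_2_10_2 5 (by simp) (by norm_num)
  · exact get c_2_10_2 6 (by simp) (by norm_num)
  · exact get c_2_10_2 7 (by simp) (by norm_num)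
  · exact get c_2_10_2 8 (by simp) (by norm_num)
  · exact get c_2_10_2 9 (by simp) (by norm_num)

theorem e_2_11 (k : ℕ) (h : 2 ≤ k) (h2 : k < 12) :
    ∃ t, chk t 80 368 (16 + 32 * (k : ℤ)) 16 = true := by
  interval_cases k
  · exact get c_2_11_2 0 (by simp) (by norm_num)
  · exact get c_2_11_2 1 (by simp) (by norm_num)
  · exact get c_2_11_2 2 (by simp) (by norm_num)
  · exact get c_2_11_2 3 (by simp) (by norm_num)
  · exact get c_2_11_2 4 (by simp) (by norm_num)
  · exact get c_2_11_2 5 (by simp) (by norm_num)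
  · exact get c_2_11_2 6 (by simp) (by norm_num)
  · exact get c_2_11_2 7 (by simp) (by norm_num)
  · exact get c_2_11_2 8 (by simp) (by norm_num)
  · exact get c_2_11_2 9 (by simp) (by norm_num)

theorem e_3_3 (k : ℕ) (h : 3 ≤ k) (h2 : k < 12) :
    ∃ t, chk t 112 112 (16 + 32 * (k : ℤ)) 16 = true := by
  interval_cases k
  · exact get c_3_3_3 0 (by simp) (by norm_num)
  · exact get c_3_3_3 1 (by simp) (by norm_num)
  · exact get c_3_3_5 0 (by simp) (by norm_num)
  · exact get c_3_3_6 0 (by simp) (by norm_num)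
  · exact get c_3_3_6 1 (by simp) (by norm_num)
  · exact get c_3_3_6 2 (by simp) (by norm_num)
  · exact get c_3_3_6 3 (by simp) (by norm_num)
  · exact get c_3_3_6 4 (by simp) (by norm_num)
  · exact get c_3_3_6 5 (by simp) (by norm_num)

theorem e_3_4 (k : ℕ) (h : 3 ≤ k) (h2 : k < 12) :
    ∃ t, chk t 112 144 (16 + 32 * (k : ℤ)) 16 = true := by
  interval_cases k
  · exact get c_3_4_3 0 (by simp) (by norm_num)
  · exact get c_3_4_3 1 (by simp) (by norm_num)
  · exact get c_3_4_5 0 (by simp) (by norm_num)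
  · exact get c_3_4_6 0 (by simp) (by norm_num)
  · exact get c_3_4_7 0 (by simp) (by norm_num)
  · exact get c_3_4_7 1 (by simp) (by norm_num)
  · exact get c_3_4_7 2 (by simp) (by norm_num)
  · exact get c_3_4_7 3 (by simp) (by norm_num)
  · exact get c_3_4_7 4 (by simp) (by norm_num)

theorem e_3_5 (k : ℕ) (h : 3 ≤ k) (h2 : k < 12) :
    ∃ t, chk t 112 176 (16 + 32 * (k : ℤ)) 16 = true := by
  interval_cases k
  · exact get c_3_5_3 0 (by simp) (by norm_num)
  · exact get c_3_5_4 0 (by simp) (by norm_num)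
  · exact get c_3_5_5 0 (by simp) (by norm_num)
  · exact get c_3_5_6 0 (by simp) (by norm_num)
  · exact get c_3_5_6 1 (by simp) (by norm_num)
  · exact get c_3_5_6 2 (by simp) (by norm_num)
  · exact get c_3_5_6 3 (by simp) (by norm_num)
  · exact get c_3_5_6 4 (by simp) (by norm_num)
  · exact get c_3_5_6 5 (by simp) (by norm_num)

theorem e_3_6 (k : ℕ) (h : 3 ≤ k) (h2 : k < 12) :
    ∃ t, chk t 112 208 (16 + 32 * (k : ℤ)) 16 = true := by
  interval_cases k
  · exact get c_3_6_3 0 (by simp) (by norm_num)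
  · exact get c_3_6_3 1 (by simp) (by norm_num)
  · exact get c_3_6_3 2 (by simp) (by norm_num)
  · exact get c_3_6_3 3 (by simp) (by norm_num)
  · exact get c_3_6_3 4 (by simp) (by norm_num)
  · exact get c_3_6_3 5 (by simp) (by norm_num)
  · exact get c_3_6_3 6 (by simp) (by norm_num)
  · exact get c_3_6_3 7 (by simp) (by norm_num)
  · exact get c_3_6_3 8 (by simp) (by norm_num)

theorem e_3_7 (k : ℕ) (h : 3 ≤ k) (h2 : k < 12) :
    ∃ t, chk t 112 240 (16 + 32 * (k : ℤ)) 16 = true := by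
  interval_cases k
  · exact get c_3_7_3 0 (by simp) (by norm_num)
  · exact get c_3_7_3 1 (by simp) (by norm_num)
  · exact get c_3_7_3 2 (by simp) (by norm_num)
  · exact get c_3_7_3 3 (by simp) (by norm_num)
  · exact get c_3_7_3 4 (by simp) (by norm_num)
  · exact get c_3_7_3 5 (by simp) (by norm_num)
  · exact get c_3_7_3 6 (by simp) (by norm_num)
  · exact get c_3_7_3 7 (by simp) (by norm_num)
  · exact get c_3_7_3 8 (by simp) (by norm_num)

theorem e_3_8 (k : ℕ) (h : 3 ≤ k) (h2 : k < 12) :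
    ∃ t, chk t 112 272 (16 + 32 * (k : ℤ)) 16 = true := by
  interval_cases k
  · exact get c_3_8_3 0 (by simp) (by norm_num)
  · exact get c_3_8_3 1 (by simp) (by norm_num)
  · exact get c_3_8_3 2 (by simp) (by norm_num)
  · exact get c_3_8_3 3 (by simp) (by norm_num)
  · exact get c_3_8_3 4 (by simp) (by norm_num)
  · exact get c_3_8_3 5 (by simp) (by norm_num)
  · exact get c_3_8_3 6 (by simp) (by norm_num)
  · exact get c_3_8_3 7 (by simp) (by norm_num)
  · exact get c_3_8_3 8 (by simp) (by norm_num)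

theorem e_3_9 (k : ℕ) (h : 3 ≤ k) (h2 : k < 12) :
    ∃ t, chk t 112 304 (16 + 32 * (k : ℤ)) 16 = true := by
  interval_cases k
  · exact get c_3_9_3 0 (by simp) (by norm_num)
  · exact get c_3_9_3 1 (by simp) (by norm_num)
  · exact get c_3_9_3 2 (by simp) (by norm_num)
  · exact get c_3_9_3 3 (by simp) (by norm_num)
  · exact get c_3_9_3 4 (by simp) (by norm_num)
  · exact get c_3_9_3 5 (by simp) (by norm_num)
  · exact get c_3_9_3 6 (by simp) (by norm_num)
  · exact get c_3_9_3 7 (by simp) (by norm_num)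
  · exact get c_3_9_3 8 (by simp) (by norm_num)

theorem e_3_10 (k : ℕ) (h : 3 ≤ k) (h2 : k < 12) :
    ∃ t, chk t 112 336 (16 + 32 * (k : ℤ)) 16 = true := by
  interval_cases k
  · exact get c_3_10_3 0 (by simp) (by norm_num)
  · exact get c_3_10_3 1 (by simp) (by norm_num)
  · exact get c_3_10_3 2 (by simp) (by norm_num)
  · exact get c_3_10_3 3 (by simp) (by norm_num)
  · exact get c_3_10_3 4 (by simp) (by norm_num)
  · exact get c_3_10_3 5 (by simp) (by norm_num)
  · exact get c_3_10_3 6 (by simp) (by norm_num)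
  · exact get c_3_10_3 7 (by simp) (by norm_num)
  · exact get c_3_10_3 8 (by simp) (by norm_num)

theorem e_3_11 (k : ℕ) (h : 3 ≤ k) (h2 : k < 12) :
    ∃ t, chk t 112 368 (16 + 32 * (k : ℤ)) 16 = true := by
  interval_cases k
  · exact get c_3_11_3 0 (by simp) (by norm_num)
  · exact get c_3_11_3 1 (by simp) (by norm_num)
  · exact get c_3_11_3 2 (by simp) (by norm_num)
  · exact get c_3_11_3 3 (by simp) (by norm_num)
  · exact get c_3_11_3 4 (by simp) (by norm_num)
  · exact get c_3_11_3 5 (by simp) (by norm_num)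
  · exact get c_3_11_3 6 (by simp) (by norm_num)
  · exact get c_3_11_3 7 (by simp) (by norm_num)
  · exact get c_3_11_3 8 (by simp) (by norm_num)

theorem e_4_4 (k : ℕ) (h : 4 ≤ k) (h2 : k < 12) :
    ∃ t, chk t 144 144 (16 + 32 * (k : ℤ)) 16 = true := by
  interval_cases k
  · exact get c_4_4_4 0 (by simp) (by norm_num)
  · exact get c_4_4_4 1 (by simp) (by norm_num)
  · exact get c_4_4_6 0 (by simp) (by norm_num)
  · exact get c_4_4_6 1 (by simp) (by norm_num)
  · exact get c_4_4_6 2 (by simp) (by norm_num)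
  · exact get c_4_4_6 3 (by simp) (by norm_num)
  · exact get c_4_4_6 4 (by simp) (by norm_num)
  · exact get c_4_4_6 5 (by simp) (by norm_num)

theorem e_4_5 (k : ℕ) (h : 4 ≤ k) (h2 : k < 12) :
    ∃ t, chk t 144 176 (16 + 32 * (k : ℤ)) 16 = true := by
  interval_cases k
  · exact get c_4_5_4 0 (by simp) (by norm_num)
  · exact get c_4_5_4 1 (by simp) (by norm_num)
  · exact get c_4_5_4 2 (by simp) (by norm_num)
  · exact get c_4_5_4 3 (by simp) (by norm_num)
  · exact get c_4_5_4 4 (by simp) (by norm_num)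
  · exact get c_4_5_4 5 (by simp) (by norm_num)
  · exact get c_4_5_4 6 (by simp) (by norm_num)
  · exact get c_4_5_4 7 (by simp) (by norm_num)

theorem e_4_6 (k : ℕ) (h : 4 ≤ k) (h2 : k < 12) :
    ∃ t, chk t 144 208 (16 + 32 * (k : ℤ)) 16 = true := by
  interval_cases k
  · exact get c_4_6_4 0 (by simp) (by norm_num)
  · exact get c_4_6_4 1 (by simp) (by norm_num)
  · exact get c_4_6_4 2 (by simp) (by norm_num)
  · exact get c_4_6_4 3 (by simp) (by norm_num)
  · exact get c_4_6_4 4 (by simp) (by norm_num)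
  · exact get c_4_6_4 5 (by simp) (by norm_num)
  · exact get c_4_6_4 6 (by simp) (by norm_num)
  · exact get c_4_6_4 7 (by simp) (by norm_num)

theorem e_4_7 (k : ℕ) (h : 4 ≤ k) (h2 : k < 12) :
    ∃ t, chk t 144 240 (16 + 32 * (k : ℤ)) 16 = true := by
  interval_cases k
  · exact get c_4_7_4 0 (by simp) (by norm_num)
  · exact get c_4_7_4 1 (by simp) (by norm_num)
  · exact get c_4_7_4 2 (by simp) (by norm_num)
  · exact get c_4_7_4 3 (by simp) (by norm_num)
  · exact get c_4_7_4 4 (by simp) (by norm_num)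
  · exact get c_4_7_4 5 (by simp) (by norm_num)
  · exact get c_4_7_4 6 (by simp) (by norm_num)
  · exact get c_4_7_4 7 (by simp) (by norm_num)

theorem e_4_8 (k : ℕ) (h : 4 ≤ k) (h2 : k < 12) :
    ∃ t, chk t 144 272 (16 + 32 * (k : ℤ)) 16 = true := by
  interval_cases k
  · exact get c_4_8_4 0 (by simp) (by norm_num)
  · exact get c_4_8_4 1 (by simp) (by norm_num)
  · exact get c_4_8_4 2 (by simp) (by norm_num)
  · exact get c_4_8_4 3 (by simp) (by norm_num)
  · exact get c_4_8_4 4 (by simp) (by norm_num)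
  · exact get c_4_8_4 5 (by simp) (by norm_num)
  · exact get c_4_8_4 6 (by simp) (by norm_num)
  · exact get c_4_8_4 7 (by simp) (by norm_num)

theorem e_4_9 (k : ℕ) (h : 4 ≤ k) (h2 : k < 12) :
    ∃ t, chk t 144 304 (16 + 32 * (k : ℤ)) 16 = true := by
  interval_cases k
  · exact get c_4_9_4 0 (by simp) (by norm_num)
  · exact get c_4_9_4 1 (by simp) (by norm_num)
  · exact get c_4_9_4 2 (by simp) (by norm_num)
  · exact get c_4_9_4 3 (by simp) (by norm_num)
  · exact get c_4_9_4 4 (by simp) (by norm_num)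
  · exact get c_4_9_4 5 (by simp) (by norm_num)
  · exact get c_4_9_4 6 (by simp) (by norm_num)
  · exact get c_4_9_4 7 (by simp) (by norm_num)

theorem e_4_10 (k : ℕ) (h : 4 ≤ k) (h2 : k < 12) :
    ∃ t, chk t 144 336 (16 + 32 * (k : ℤ)) 16 = true := by
  interval_cases k
  · exact get c_4_10_4 0 (by simp) (by norm_num)
  · exact get c_4_10_4 1 (by simp) (by norm_num)
  · exact get c_4_10_4 2 (by simp) (by norm_num)
  · exact get c_4_10_4 3 (by simp) (by norm_num)
  · exact get c_4_10_4 4 (by simp) (by norm_num)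
  · exact get c_4_10_4 5 (by simp) (by norm_num)
  · exact get c_4_10_4 6 (by simp) (by norm_num)
  · exact get c_4_10_4 7 (by simp) (by norm_num)

theorem e_4_11 (k : ℕ) (h : 4 ≤ k) (h2 : k < 12) :
    ∃ t, chk t 144 368 (16 + 32 * (k : ℤ)) 16 = true := by
  interval_cases k
  · exact get c_4_11_4 0 (by simp) (by norm_num)
  · exact get c_4_11_4 1 (by simp) (by norm_num)
  · exact get c_4_11_4 2 (by simp) (by norm_num)
  · exact get c_4_11_4 3 (by simp) (by norm_num)
  · exact get c_4_11_4 4 (by simp) (by norm_num)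
  · exact get c_4_11_4 5 (by simp) (by norm_num)
  · exact get c_4_11_4 6 (by simp) (by norm_num)
  · exact get c_4_11_4 7 (by simp) (by norm_num)

theorem e_5_5 (k : ℕ) (h : 5 ≤ k) (h2 : k < 12) :
    ∃ t, chk t 176 176 (16 + 32 * (k : ℤ)) 16 = true := by
  interval_cases k
  · exact get c_5_5_5 0 (by simp) (by norm_num)
  · exact get c_5_5_5 1 (by simp) (by norm_num)
  · exact get c_5_5_5 2 (by simp) (by norm_num)
  · exact get c_5_5_5 3 (by simp) (by norm_num)
  · exact get c_5_5_5 4 (by simp) (by norm_num)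
  · exact get c_5_5_5 5 (by simp) (by norm_num)
  · exact get c_5_5_5 6 (by simp) (by norm_num)

theorem e_5_6 (k : ℕ) (h : 5 ≤ k) (h2 : k < 12) :
    ∃ t, chk t 176 208 (16 + 32 * (k : ℤ)) 16 = true := by
  interval_cases k
  · exact get c_5_6_5 0 (by simp) (by norm_num)
  · exact get c_5_6_5 1 (by simp) (by norm_num)
  · exact get c_5_6_5 2 (by simp) (by norm_num)
  · exact get c_5_6_5 3 (by simp) (by norm_num)
  · exact get c_5_6_5 4 (by simp) (by norm_num)
  · exact get c_5_6_5 5 (by simp) (by norm_num)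
  · exact get c_5_6_5 6 (by simp) (by norm_num)

theorem e_5_7 (k : ℕ) (h : 5 ≤ k) (h2 : k < 12) :
    ∃ t, chk t 176 240 (16 + 32 * (k : ℤ)) 16 = true := by
  interval_cases k
  · exact get c_5_7_5 0 (by simp) (by norm_num)
  · exact get c_5_7_5 1 (by simp) (by norm_num)
  · exact get c_5_7_5 2 (by simp) (by norm_num)
  · exact get c_5_7_5 3 (by simp) (by norm_num)
  · exact get c_5_7_5 4 (by simp) (by norm_num)
  · exact get c_5_7_5 5 (by simp) (by norm_num)
  · exact get c_5_7_5 6 (by simp) (by norm_num)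

theorem e_5_8 (k : ℕ) (h : 5 ≤ k) (h2 : k < 12) :
    ∃ t, chk t 176 272 (16 + 32 * (k : ℤ)) 16 = true := by
  interval_cases k
  · exact get c_5_8_5 0 (by simp) (by norm_num)
  · exact get c_5_8_5 1 (by simp) (by norm_num)
  · exact get c_5_8_5 2 (by simp) (by norm_num)
  · exact get c_5_8_5 3 (by simp) (by norm_num)
  · exact get c_5_8_5 4 (by simp) (by norm_num)
  · exact get c_5_8_5 5 (by simp) (by norm_num)
  · exact get c_5_8_5 6 (by simp) (by norm_num)

theorem e_5_9 (k : ℕ) (h : 5 ≤ k) (h2 : k < 12) :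
    ∃ t, chk t 176 304 (16 + 32 * (k : ℤ)) 16 = true := by
  interval_cases k
  · exact get c_5_9_5 0 (by simp) (by norm_num)
  · exact get c_5_9_5 1 (by simp) (by norm_num)
  · exact get c_5_9_5 2 (by simp) (by norm_num)
  · exact get c_5_9_5 3 (by simp) (by norm_num)
  · exact get c_5_9_5 4 (by simp) (by norm_num)
  · exact get c_5_9_5 5 (by simp) (by norm_num)
  · exact get c_5_9_5 6 (by simp) (by norm_num)

theorem e_5_10 (k : ℕ) (h : 5 ≤ k) (h2 : k < 12) :
    ∃ t, chk t 176 336 (16 + 32 * (k : ℤ)) 16 = true := by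
  interval_cases k
  · exact get c_5_10_5 0 (by simp) (by norm_num)
  · exact get c_5_10_5 1 (by simp) (by norm_num)
  · exact get c_5_10_5 2 (by simp) (by norm_num)
  · exact get c_5_10_5 3 (by simp) (by norm_num)
  · exact get c_5_10_5 4 (by simp) (by norm_num)
  · exact get c_5_10_5 5 (by simp) (by norm_num)
  · exact get c_5_10_5 6 (by simp) (by norm_num)

theorem e_5_11 (k : ℕ) (h : 5 ≤ k) (h2 : k < 12) :
    ∃ t, chk t 176 368 (16 + 32 * (k : ℤ)) 16 = true := by
  interval_cases k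
  · exact get c_5_11_5 0 (by simp) (by norm_num)
  · exact get c_5_11_5 1 (by simp) (by norm_num)
  · exact get c_5_11_5 2 (by simp) (by norm_num)
  · exact get c_5_11_5 3 (by simp) (by norm_num)
  · exact get c_5_11_5 4 (by simp) (by norm_num)
  · exact get c_5_11_5 5 (by simp) (by norm_num)
  · exact get c_5_11_5 6 (by simp) (by norm_num)

theorem e_6_6 (k : ℕ) (h : 6 ≤ k) (h2 : k < 12) :
    ∃ t, chk t 208 208 (16 + 32 * (k : ℤ)) 16 = true := by
  interval_cases k
  · exact get c_6_6_6 0 (by simp) (by norm_num)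
  · exact get c_6_6_6 1 (by simp) (by norm_num)
  · exact get c_6_6_6 2 (by simp) (by norm_num)
  · exact get c_6_6_6 3 (by simp) (by norm_num)
  · exact get c_6_6_6 4 (by simp) (by norm_num)
  · exact get c_6_6_6 5 (by simp) (by norm_num)

theorem e_6_7 (k : ℕ) (h : 6 ≤ k) (h2 : k < 12) :
    ∃ t, chk t 208 240 (16 + 32 * (k : ℤ)) 16 = true := by
  interval_cases k
  · exact get c_6_7_6 0 (by simp) (by norm_num)
  · exact get c_6_7_6 1 (by simp) (by norm_num)
  · exact get c_6_7_6 2 (by simp) (by norm_num)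
  · exact get c_6_7_6 3 (by simp) (by norm_num)
  · exact get c_6_7_6 4 (by simp) (by norm_num)
  · exact get c_6_7_6 5 (by simp) (by norm_num)

theorem e_6_8 (k : ℕ) (h : 6 ≤ k) (h2 : k < 12) :
    ∃ t, chk t 208 272 (16 + 32 * (k : ℤ)) 16 = true := by
  interval_cases k
  · exact get c_6_8_6 0 (by simp) (by norm_num)
  · exact get c_6_8_6 1 (by simp) (by norm_num)
  · exact get c_6_8_6 2 (by simp) (by norm_num)
  · exact get c_6_8_6 3 (by simp) (by norm_num)
  · exact get c_6_8_6 4 (by simp) (by norm_num)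
  · exact get c_6_8_6 5 (by simp) (by norm_num)

theorem e_6_9 (k : ℕ) (h : 6 ≤ k) (h2 : k < 12) :
    ∃ t, chk t 208 304 (16 + 32 * (k : ℤ)) 16 = true := by
  interval_cases k
  · exact get c_6_9_6 0 (by simp) (by norm_num)
  · exact get c_6_9_6 1 (by simp) (by norm_num)
  · exact get c_6_9_6 2 (by simp) (by norm_num)
  · exact get c_6_9_6 3 (by simp) (by norm_num)
  · exact get c_6_9_6 4 (by simp) (by norm_num)
  · exact get c_6_9_6 5 (by simp) (by norm_num)

theorem e_6_10 (k : ℕ) (h : 6 ≤ k) (h2 : k < 12) :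
    ∃ t, chk t 208 336 (16 + 32 * (k : ℤ)) 16 = true := by
  interval_cases k
  · exact get c_6_10_6 0 (by simp) (by norm_num)
  · exact get c_6_10_6 1 (by simp) (by norm_num)
  · exact get c_6_10_6 2 (by simp) (by norm_num)
  · exact get c_6_10_6 3 (by simp) (by norm_num)
  · exact get c_6_10_6 4 (by simp) (by norm_num)
  · exact get c_6_10_6 5 (by simp) (by norm_num)

theorem e_6_11 (k : ℕ) (h : 6 ≤ k) (h2 : k < 12) :
    ∃ t, chk t 208 368 (16 + 32 * (k : ℤ)) 16 = true := by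
  interval_cases k
  · exact get c_6_11_6 0 (by simp) (by norm_num)
  · exact get c_6_11_6 1 (by simp) (by norm_num)
  · exact get c_6_11_6 2 (by simp) (by norm_num)
  · exact get c_6_11_6 3 (by simp) (by norm_num)
  · exact get c_6_11_6 4 (by simp) (by norm_num)
  · exact get c_6_11_6 5 (by simp) (by norm_num)

theorem e_7_7 (k : ℕ) (h : 7 ≤ k) (h2 : k < 12) :
    ∃ t, chk t 240 240 (16 + 32 * (k : ℤ)) 16 = true := by
  interval_cases k
  · exact get c_7_7_7 0 (by simp) (by norm_num)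
  · exact get c_7_7_7 1 (by simp) (by norm_num)
  · exact get c_7_7_7 2 (by simp) (by norm_num)
  · exact get c_7_7_7 3 (by simp) (by norm_num)
  · exact get c_7_7_7 4 (by simp) (by norm_num)

theorem e_7_8 (k : ℕ) (h : 7 ≤ k) (h2 : k < 12) :
    ∃ t, chk t 240 272 (16 + 32 * (k : ℤ)) 16 = true := by
  interval_cases k
  · exact get c_7_8_7 0 (by simp) (by norm_num)
  · exact get c_7_8_7 1 (by simp) (by norm_num)
  · exact get c_7_8_7 2 (by simp) (by norm_num)
  · exact get c_7_8_7 3 (by simp) (by norm_num)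
  · exact get c_7_8_7 4 (by simp) (by norm_num)

theorem e_7_9 (k : ℕ) (h : 7 ≤ k) (h2 : k < 12) :
    ∃ t, chk t 240 304 (16 + 32 * (k : ℤ)) 16 = true := by
  interval_cases k
  · exact get c_7_9_7 0 (by simp) (by norm_num)
  · exact get c_7_9_7 1 (by simp) (by norm_num)
  · exact get c_7_9_7 2 (by simp) (by norm_num)
  · exact get c_7_9_7 3 (by simp) (by norm_num)
  · exact get c_7_9_7 4 (by simp) (by norm_num)

theorem e_7_10 (k : ℕ) (h : 7 ≤ k) (h2 : k < 12) :
    ∃ t, chk t 240 336 (16 + 32 * (k : ℤ)) 16 = true := by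
  interval_cases k
  · exact get c_7_10_7 0 (by simp) (by norm_num)
  · exact get c_7_10_7 1 (by simp) (by norm_num)
  · exact get c_7_10_7 2 (by simp) (by norm_num)
  · exact get c_7_10_7 3 (by simp) (by norm_num)
  · exact get c_7_10_11 0 (by simp) (by norm_num)

theorem e_7_11 (k : ℕ) (h : 7 ≤ k) (h2 : k < 12) :
    ∃ t, chk t 240 368 (16 + 32 * (k : ℤ)) 16 = true := by
  interval_cases k
  · exact get c_7_11_7 0 (by simp) (by norm_num)
  · exact get c_7_11_7 1 (by simp) (by norm_num)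
  · exact get c_7_11_7 2 (by simp) (by norm_num)
  · exact get c_7_11_7 3 (by simp) (by norm_num)
  · exact get c_7_11_7 4 (by simp) (by norm_num)

theorem e_8_8 (k : ℕ) (h : 8 ≤ k) (h2 : k < 12) :
    ∃ t, chk t 272 272 (16 + 32 * (k : ℤ)) 16 = true := by
  interval_cases k
  · exact get c_8_8_8 0 (by simp) (by norm_num)
  · exact get c_8_8_8 1 (by simp) (by norm_num)
  · exact get c_8_8_8 2 (by simp) (by norm_num)
  · exact get c_8_8_8 3 (by simp) (by norm_num)

theorem e_8_9 (k : ℕ) (h : 8 ≤ k) (h2 : k < 12) :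
    ∃ t, chk t 272 304 (16 + 32 * (k : ℤ)) 16 = true := by
  interval_cases k
  · exact get c_8_9_8 0 (by simp) (by norm_num)
  · exact get c_8_9_8 1 (by simp) (by norm_num)
  · exact get c_8_9_10 0 (by simp) (by norm_num)
  · exact get c_8_9_11 0 (by simp) (by norm_num)

theorem e_8_10 (k : ℕ) (h : 8 ≤ k) (h2 : k < 12) :
    ∃ t, chk t 272 336 (16 + 32 * (k : ℤ)) 16 = true := by
  interval_cases k
  · exact get c_8_10_8 0 (by simp) (by norm_num)
  · exact get c_8_10_9 0 (by simp) (by norm_num)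
  · exact get c_8_10_10 0 (by simp) (by norm_num)
  · exact get c_8_10_11 0 (by simp) (by norm_num)

theorem e_8_11 (k : ℕ) (h : 8 ≤ k) (h2 : k < 12) :
    ∃ t, chk t 272 368 (16 + 32 * (k : ℤ)) 16 = true := by
  interval_cases k
  · exact get c_8_11_8 0 (by simp) (by norm_num)
  · exact get c_8_11_8 1 (by simp) (by norm_num)
  · exact get c_8_11_8 2 (by simp) (by norm_num)
  · exact get c_8_11_8 3 (by simp) (by norm_num)

theorem e_9_9 (k : ℕ) (h : 9 ≤ k) (h2 : k < 12) :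
    ∃ t, chk t 304 304 (16 + 32 * (k : ℤ)) 16 = true := by
  interval_cases k
  · exact get c_9_9_9 0 (by simp) (by norm_num)
  · exact get c_9_9_9 1 (by simp) (by norm_num)
  · exact get c_9_9_11 0 (by simp) (by norm_num)

theorem e_9_10 (k : ℕ) (h : 9 ≤ k) (h2 : k < 12) :
    ∃ t, chk t 304 336 (16 + 32 * (k : ℤ)) 16 = true := by
  interval_cases k
  · exact get c_9_10_9 0 (by simp) (by norm_num)
  · exact get c_9_10_9 1 (by simp) (by norm_num)
  · exact get c_9_10_11 0 (by simp) (by norm_num)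

theorem e_9_11 (k : ℕ) (h : 9 ≤ k) (h2 : k < 12) :
    ∃ t, chk t 304 368 (16 + 32 * (k : ℤ)) 16 = true := by
  interval_cases k
  · exact get c_9_11_9 0 (by simp) (by norm_num)
  · exact get c_9_11_10 0 (by simp) (by norm_num)
  · exact get c_9_11_10 1 (by simp) (by norm_num)

theorem e_10_10 (k : ℕ) (h : 10 ≤ k) (h2 : k < 12) :
    ∃ t, chk t 336 336 (16 + 32 * (k : ℤ)) 16 = true := by
  interval_cases k
  · exact get c_10_10_10 0 (by simp) (by norm_num)
  · exact get c_10_10_10 1 (by simp) (by norm_num)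

theorem e_10_11 (k : ℕ) (h : 10 ≤ k) (h2 : k < 12) :
    ∃ t, chk t 336 368 (16 + 32 * (k : ℤ)) 16 = true := by
  interval_cases k
  · exact get c_10_11_10 0 (by simp) (by norm_num)
  · exact get c_10_11_10 1 (by simp) (by norm_num)

theorem e_11_11 (k : ℕ) (h : 11 ≤ k) (h2 : k < 12) :
    ∃ t, chk t 368 368 (16 + 32 * (k : ℤ)) 16 = true := by
  interval_cases k
  · exact get c_11_11_11 0 (by simp) (by norm_num)

theorem r_0 (j k : ℕ) (hj : 0 ≤ j) (hj2 : j < 12) (hk : 0 ≤ k) (hk2 : k < 12) :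
    ∃ t, chk t 16 (16 + 32 * (j : ℤ)) (16 + 32 * (k : ℤ)) 16 = true := by
  interval_cases j
  · simpa using e_0_0 k hk hk2
  · simpa using e_0_1 k hk hk2
  · simpa using e_0_2 k hk hk2
  · simpa using e_0_3 k hk hk2
  · simpa using e_0_4 k hk hk2
  · simpa using e_0_5 k hk hk2
  · simpa using e_0_6 k hk hk2
  · simpa using e_0_7 k hk hk2
  · simpa using e_0_8 k hk hk2
  · simpa using e_0_9 k hk hk2
  · simpa using e_0_10 k hk hk2
  · simpa using e_0_11 k hk hk2

theorem r_1 (j k : ℕ) (hj : 1 ≤ j) (hj2 : j < 12) (hk : 1 ≤ k) (hk2 : k < 12) :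
    ∃ t, chk t 48 (16 + 32 * (j : ℤ)) (16 + 32 * (k : ℤ)) 16 = true := by
  interval_cases j
  · simpa using e_1_1 k hk hk2
  · simpa using e_1_2 k hk hk2
  · simpa using e_1_3 k hk hk2
  · simpa using e_1_4 k hk hk2
  · simpa using e_1_5 k hk hk2
  · simpa using e_1_6 k hk hk2
  · simpa using e_1_7 k hk hk2
  · simpa using e_1_8 k hk hk2
  · simpa using e_1_9 k hk hk2
  · simpa using e_1_10 k hk hk2
  · simpa using e_1_11 k hk hk2

theorem r_2 (j k : ℕ) (hj : 2 ≤ j) (hj2 : j < 12) (hk : 2 ≤ k) (hk2 : k < 12) :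
    ∃ t, chk t 80 (16 + 32 * (j : ℤ)) (16 + 32 * (k : ℤ)) 16 = true := by
  interval_cases j
  · simpa using e_2_2 k hk hk2
  · simpa using e_2_3 k hk hk2
  · simpa using e_2_4 k hk hk2
  · simpa using e_2_5 k hk hk2
  · simpa using e_2_6 k hk hk2
  · simpa using e_2_7 k hk hk2
  · simpa using e_2_8 k hk hk2
  · simpa using e_2_9 k hk hk2
  · simpa using e_2_10 k hk hk2
  · simpa using e_2_11 k hk hk2

theorem r_3 (j k : ℕ) (hj : 3 ≤ j) (hj2 : j < 12) (hk : 3 ≤ k) (hk2 : k < 12) :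
    ∃ t, chk t 112 (16 + 32 * (j : ℤ)) (16 + 32 * (k : ℤ)) 16 = true := by
  interval_cases j
  · simpa using e_3_3 k hk hk2
  · simpa using e_3_4 k hk hk2
  · simpa using e_3_5 k hk hk2
  · simpa using e_3_6 k hk hk2
  · simpa using e_3_7 k hk hk2
  · simpa using e_3_8 k hk hk2
  · simpa using e_3_9 k hk hk2
  · simpa using e_3_10 k hk hk2
  · simpa using e_3_11 k hk hk2

theorem r_4 (j k : ℕ) (hj : 4 ≤ j) (hj2 : j < 12) (hk : 4 ≤ k) (hk2 : k < 12) :
    ∃ t, chk t 144 (16 + 32 * (j : ℤ)) (16 + 32 * (k : ℤ)) 16 = true := by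
  interval_cases j
  · simpa using e_4_4 k hk hk2
  · simpa using e_4_5 k hk hk2
  · simpa using e_4_6 k hk hk2
  · simpa using e_4_7 k hk hk2
  · simpa using e_4_8 k hk hk2
  · simpa using e_4_9 k hk hk2
  · simpa using e_4_10 k hk hk2
  · simpa using e_4_11 k hk hk2

theorem r_5 (j k : ℕ) (hj : 5 ≤ j) (hj2 : j < 12) (hk : 5 ≤ k) (hk2 : k < 12) :
    ∃ t, chk t 176 (16 + 32 * (j : ℤ)) (16 + 32 * (k : ℤ)) 16 = true := by
  interval_cases j
  · simpa using e_5_5 k hk hk2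
  · simpa using e_5_6 k hk hk2
  · simpa using e_5_7 k hk hk2
  · simpa using e_5_8 k hk hk2
  · simpa using e_5_9 k hk hk2
  · simpa using e_5_10 k hk hk2
  · simpa using e_5_11 k hk hk2

theorem r_6 (j k : ℕ) (hj : 6 ≤ j) (hj2 : j < 12) (hk : 6 ≤ k) (hk2 : k < 12) :
    ∃ t, chk t 208 (16 + 32 * (j : ℤ)) (16 + 32 * (k : ℤ)) 16 = true := by
  interval_cases j
  · simpa using e_6_6 k hk hk2
  · simpa using e_6_7 k hk hk2
  · simpa using e_6_8 k hk hk2
  · simpa using e_6_9 k hk hk2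
  · simpa using e_6_10 k hk hk2
  · simpa using e_6_11 k hk hk2

theorem r_7 (j k : ℕ) (hj : 7 ≤ j) (hj2 : j < 12) (hk : 7 ≤ k) (hk2 : k < 12) :
    ∃ t, chk t 240 (16 + 32 * (j : ℤ)) (16 + 32 * (k : ℤ)) 16 = true := by
  interval_cases j
  · simpa using e_7_7 k hk hk2
  · simpa using e_7_8 k hk hk2
  · simpa using e_7_9 k hk hk2
  · simpa using e_7_10 k hk hk2
  · simpa using e_7_11 k hk hk2

theorem r_8 (j k : ℕ) (hj : 8 ≤ j) (hj2 : j < 12) (hk : 8 ≤ k) (hk2 : k < 12) :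
    ∃ t, chk t 272 (16 + 32 * (j : ℤ)) (16 + 32 * (k : ℤ)) 16 = true := by
  interval_cases j
  · simpa using e_8_8 k hk hk2
  · simpa using e_8_9 k hk hk2
  · simpa using e_8_10 k hk hk2
  · simpa using e_8_11 k hk hk2

theorem r_9 (j k : ℕ) (hj : 9 ≤ j) (hj2 : j < 12) (hk : 9 ≤ k) (hk2 : k < 12) :
    ∃ t, chk t 304 (16 + 32 * (j : ℤ)) (16 + 32 * (k : ℤ)) 16 = true := by
  interval_cases j
  · simpa using e_9_9 k hk hk2
  · simpa using e_9_10 k hk hk2
  · simpa using e_9_11 k hk hk2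

theorem r_10 (j k : ℕ) (hj : 10 ≤ j) (hj2 : j < 12) (hk : 10 ≤ k) (hk2 : k < 12) :
    ∃ t, chk t 336 (16 + 32 * (j : ℤ)) (16 + 32 * (k : ℤ)) 16 = true := by
  interval_cases j
  · simpa using e_10_10 k hk hk2
  · simpa using e_10_11 k hk hk2

theorem r_11 (j k : ℕ) (hj : 11 ≤ j) (hj2 : j < 12) (hk : 11 ≤ k) (hk2 : k < 12) :
    ∃ t, chk t 368 (16 + 32 * (j : ℤ)) (16 + 32 * (k : ℤ)) 16 = true := by
  interval_cases j
  · simpa using e_11_11 k hk hk2

theorem all_top (i j k : ℕ) (hi : i < 12) (hj : i ≤ j) (hj2 : j < 12) (hk : i ≤ k) (hk2 : k < 12) :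
    ∃ t, chk t (16 + 32 * (i : ℤ)) (16 + 32 * (j : ℤ)) (16 + 32 * (k : ℤ)) 16 = true := by
  interval_cases i
  · simpa using r_0 j k hj hj2 hk hk2
  · simpa using r_1 j k hj hj2 hk hk2
  · simpa using r_2 j k hj hj2 hk hk2
  · simpa using r_3 j k hj hj2 hk hk2
  · simpa using r_4 j k hj hj2 hk hk2
  · simpa using r_5 j k hj hj2 hk hk2
  · simpa using r_6 j k hj hj2 hk hk2
  · simpa using r_7 j k hj hj2 hk hk2
  · simpa using r_8 j k hj hj2 hk hk2
  · simpa using r_9 j k hj hj2 hk hk2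
  · simpa using r_10 j k hj hj2 hk hk2
  · simpa using r_11 j k hj hj2 hk hk2

end Pool.Agent.Lib.P37.Chk
end

section

/-!
# Every point with all basic bounds negative is near an optimal triangle
-/

namespace Pool.Agent.Lib.P37.Chk

open Real Pool.Agent.Lib.P37

theorem Ee_shift (X Y : ℝ) (m n : ℤ) : Ee (X - m) (Y - n) = Ee X Y := by
  unfold Ee
  rw [nd_sub_int, nd_sub_int]
  have : X - m - (Y - n) = (X - Y) - ((m - n : ℤ) : ℝ) := by push_cast; ring
  rw [this, tau_sub_int]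

theorem Gs_shift (X1 X2 X3 D1 D2 D3 : ℝ) (n1 n2 n3 : ℤ) :
    Gs (X1 - n1) (X2 - n2) (X3 - n3) D1 D2 D3 = Gs X1 X2 X3 D1 D2 D3 := by
  unfold Gs
  rw [show X1 - n1 - 1/6 - D1 = (X1 - 1/6 - D1) - n1 by ring,
    show X2 - n2 - 1/6 - D2 = (X2 - 1/6 - D2) - n2 by ring,
    show X3 - n3 - 1/6 - D3 = (X3 - 1/6 - D3) - n3 by ring]
  simp only [g0_sub_int]

theorem MI_shift (X1 X2 X3 D1 D2 D3 : ℝ) (n1 n2 n3 : ℤ) :
    MI (X1 - n1) (X2 - n2) (X3 - n3) D1 D2 D3 = MI X1 X2 X3 D1 D2 D3 := by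
  unfold MI
  rw [Gs_shift, show X2 - n2 - 1/6 - D2 = (X2 - 1/6 - D2) - n2 by ring, Ee_shift]

theorem Pt.shift {X1 X2 X3 D1 D2 D3 : ℝ} (h : Pt X1 X2 X3 D1 D2 D3) (n1 n2 n3 : ℤ) :
    Pt (X1 - n1) (X2 - n2) (X3 - n3) D1 D2 D3 :=
  ⟨h.sum, h.h1, h.h2, h.h3, by rw [MI_shift]; exact h.M1, by rw [MI_shift]; exact h.M2,
    by rw [MI_shift]; exact h.M3⟩

theorem InV_shift {X1 X2 X3 D1 D2 D3 : ℝ} {n1 n2 n3 : ℤ}
    (h : InV (X1 - n1) (X2 - n2) (X3 - n3) D1 D2 D3) : InV X1 X2 X3 D1 D2 D3 := by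
  obtain ⟨U, g, q, m1, m2, m3, hV, e1, e2, e3⟩ := h
  refine ⟨U, g, q, m1 + n1, m2 + n2, m3 + n3, hV, ?_, ?_, ?_⟩
  · push_cast; linarith
  · push_cast; linarith
  · push_cast; linarith

theorem Mir_shift {X1 X2 X3 D1 D2 D3 : ℝ} {n1 n2 n3 : ℤ}
    (h : Mir (X1 - n1) (X2 - n2) (X3 - n3) D1 D2 D3) : Mir X1 X2 X3 D1 D2 D3 := by
  unfold Mir at h ⊢
  apply InV_shift (n1 := -n1) (n2 := -n3) (n3 := -n2)
  push_cast
  convert h using 1 <;> ring

theorem InV6_shift {X1 X2 X3 D1 D2 D3 : ℝ} {n1 n2 n3 : ℤ}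
    (h : InV6 (X1 - n1) (X2 - n2) (X3 - n3) D1 D2 D3) : InV6 X1 X2 X3 D1 D2 D3 := by
  unfold InV6 at h ⊢
  rcases h with h | h | h | h | h | h
  · exact Or.inl (InV_shift h)
  · exact Or.inr (Or.inl (InV_shift h))
  · exact Or.inr (Or.inr (Or.inl (InV_shift h)))
  · exact Or.inr (Or.inr (Or.inr (Or.inl (Mir_shift h))))
  · exact Or.inr (Or.inr (Or.inr (Or.inr (Or.inl (Mir_shift h)))))
  · exact Or.inr (Or.inr (Or.inr (Or.inr (Or.inr (Mir_shift h)))))

theorem InV6_rot {X1 X2 X3 D1 D2 D3 : ℝ} (h : InV6 X2 X3 X1 D2 D3 D1) : InV6 X1 X2 X3 D1 D2 D3 := by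
  unfold InV6 at h ⊢
  tauto

/-- the cell of a number in `[0,1)` -/
theorem cell {x : ℝ} (h0 : 0 ≤ x) (h1 : x < 1) : ∃ i : ℕ, i < 12 ∧
    |x - ((16 + 32 * (i : ℤ) : ℤ) : ℝ) / 384| ≤ ((16 : ℤ) : ℝ) / 384 := by
  have h2 : 0 ≤ 12 * x := by linarith
  refine ⟨⌊12 * x⌋₊, ?_, ?_⟩
  · rw [Nat.floor_lt h2]
    push_cast
    linarith
  · have a := Nat.floor_le h2
    have b := Nat.lt_floor_add_one (12 * x)
    push_cast
    rw [abs_le]
    constructor <;> linarith

theorem box_cells {X1 X2 X3 D1 D2 D3 : ℝ} (hp : Pt X1 X2 X3 D1 D2 D3) {i j k : ℕ}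
    (hi : i < 12) (hj2 : j < 12) (hk2 : k < 12) (hj : i ≤ j) (hk : i ≤ k)
    (h1 : |X1 - ((16 + 32 * (i : ℤ) : ℤ) : ℝ) / 384| ≤ ((16 : ℤ) : ℝ) / 384)
    (h2 : |X2 - ((16 + 32 * (j : ℤ) : ℤ) : ℝ) / 384| ≤ ((16 : ℤ) : ℝ) / 384)
    (h3 : |X3 - ((16 + 32 * (k : ℤ) : ℤ) : ℝ) / 384| ≤ ((16 : ℤ) : ℝ) / 384) :
    InV6 X1 X2 X3 D1 D2 D3 := by
  obtain ⟨t, ht⟩ := all_top i j k hi hj hj2 hk hk2
  exact chk_sound t hp (by norm_num) (by norm_num) h1 h2 h3 ht

theorem box_main {X1 X2 X3 D1 D2 D3 : ℝ} (hp : Pt X1 X2 X3 D1 D2 D3) : InV6 X1 X2 X3 D1 D2 D3 := by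
  apply InV6_shift (n1 := ⌊X1⌋) (n2 := ⌊X2⌋) (n3 := ⌊X3⌋)
  have hq := hp.shift ⌊X1⌋ ⌊X2⌋ ⌊X3⌋
  have a1 := Int.floor_le X1
  have b1 := Int.lt_floor_add_one X1
  have a2 := Int.floor_le X2
  have b2 := Int.lt_floor_add_one X2
  have a3 := Int.floor_le X3
  have b3 := Int.lt_floor_add_one X3
  obtain ⟨i, hi, h1⟩ := cell (x := X1 - ⌊X1⌋) (by linarith) (by linarith)
  obtain ⟨j, hj, h2⟩ := cell (x := X2 - ⌊X2⌋) (by linarith) (by linarith)
  obtain ⟨k, hk, h3⟩ := cell (x := X3 - ⌊X3⌋) (by linarith) (by linarith)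
  by_cases c1 : i ≤ j ∧ i ≤ k
  · exact box_cells hq hi hj hk c1.1 c1.2 h1 h2 h3
  · by_cases c2 : j ≤ k ∧ j ≤ i
    · exact InV6_rot (box_cells hq.rot hj hk hi c2.1 c2.2 h2 h3 h1)
    · have c3 : k ≤ i ∧ k ≤ j := by omega
      exact InV6_rot (InV6_rot (box_cells hq.rot.rot hk hi hj c3.1 c3.2 h3 h1 h2))

end Pool.Agent.Lib.P37.Chk
end

section

/-!
# The main local inequality
-/

namespace Pool.Agent.Lib.P37

open Real Pool.Agent.Lib.P37.Chk

/-- data of a hypothetical counterexample -/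
structure Dat (x1 x2 x3 A1 A2 A3 d1 d2 d3 : ℝ) : Prop where
  T : Tri x1 x2 x3 A1 A2 A3 d1 d2 d3
  h1 : d1 ^ 2 ≤ 4.08
  h2 : d2 ^ 2 ≤ 4.08
  h3 : d3 ^ 2 ≤ 4.08
  g1 : 2 ≤ d1
  g2 : 2 ≤ d2
  g3 : 2 ≤ d3
  neg : Psi x1 x2 x3 A1 A2 A3 d1 d2 d3 < 0

theorem Dat.rot {x1 x2 x3 A1 A2 A3 d1 d2 d3 : ℝ} (h : Dat x1 x2 x3 A1 A2 A3 d1 d2 d3) :
    Dat x2 x3 x1 A2 A3 A1 d2 d3 d1 :=
  ⟨tri_rot h.T, h.h2, h.h3, h.h1, h.g2, h.g3, h.g1, by rw [Psi_rot h.T]; exact h.neg⟩

theorem Dat.refl {x1 x2 x3 A1 A2 A3 d1 d2 d3 : ℝ} (h : Dat x1 x2 x3 A1 A2 A3 d1 d2 d3) :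
    Dat (-(x1 - A1)) (-(x3 - A3)) (-(x2 - A2)) A1 A3 A2 d3 d2 d1 :=
  ⟨tri_refl h.T, h.h3, h.h2, h.h1, h.g3, h.g2, h.g1, by rw [Psi_refl]; exact h.neg⟩

theorem Dat.M {x1 x2 x3 A1 A2 A3 d1 d2 d3 : ℝ} (h : Dat x1 x2 x3 A1 A2 A3 d1 d2 d3) :
    MI (x1 / p) (x2 / p) (x3 / p) ((A1 - π / 3) / p) ((A2 - π / 3) / p) ((A3 - π / 3) / p) < 0 := by
  obtain ⟨b1, b2, b3⟩ := tri_angle_bound h.T h.g1 h.g2 h.g3 h.h1 h.h2 h.h3
  have hM := MI_bound h.T (by linarith [h.g1]) b1 b2 b3
  have hneg := h.neg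
  have hp := p_pos
  by_contra hc
  push Not at hc
  have : 0 ≤ √3 * p ^ 2 * MI (x1 / p) (x2 / p) (x3 / p) ((A1 - π / 3) / p) ((A2 - π / 3) / p)
      ((A3 - π / 3) / p) := by positivity
  linarith

theorem Dat.pt {x1 x2 x3 A1 A2 A3 d1 d2 d3 : ℝ} (h : Dat x1 x2 x3 A1 A2 A3 d1 d2 d3) :
    Pt (x1 / p) (x2 / p) (x3 / p) ((A1 - π / 3) / p) ((A2 - π / 3) / p) ((A3 - π / 3) / p) := by
  obtain ⟨b1, b2, b3⟩ := tri_angle_bound h.T h.g1 h.g2 h.g3 h.h1 h.h2 h.h3
  refine ⟨?_, b1, b2, b3, h.M, h.rot.M, h.rot.rot.M⟩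
  have := h.T.sum
  rw [← add_div, ← add_div, div_eq_zero_iff]
  left
  linarith

theorem Dat.noV {x1 x2 x3 A1 A2 A3 d1 d2 d3 : ℝ} (h : Dat x1 x2 x3 A1 A2 A3 d1 d2 d3) :
    ¬ InV (x1 / p) (x2 / p) (x3 / p) ((A1 - π / 3) / p) ((A2 - π / 3) / p) ((A3 - π / 3) / p) := by
  intro hV
  have hP := h.pt
  have hp := p_pos.ne'
  have := V_lemma h.T (D1 := (A1 - π / 3) / p) (D2 := (A2 - π / 3) / p) (D3 := (A3 - π / 3) / p)
    (by field_simp; ring) (by field_simp; ring) (by field_simp; ring) hP.h1 hP.h2 hP.h3 h.h1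
    (by linarith [h.g1]) (by linarith [h.g2]) (by linarith [h.g3]) hV hP.M1 hP.M2 hP.M3
  linarith [h.neg]

theorem Dat.noMir {x1 x2 x3 A1 A2 A3 d1 d2 d3 : ℝ} (h : Dat x1 x2 x3 A1 A2 A3 d1 d2 d3) :
    ¬ Mir (x1 / p) (x2 / p) (x3 / p) ((A1 - π / 3) / p) ((A2 - π / 3) / p) ((A3 - π / 3) / p) := by
  intro hV
  apply h.refl.noV
  unfold Mir at hV
  have hp := p_pos.ne'
  have e : ∀ x A : ℝ, -(x - A) / p - ((6 : ℤ) : ℝ) = -(x / p - 1 / 6 - (A - π / 3) / p) := by
    intro x A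
    rw [pi_eq]
    push_cast
    field_simp
    ring
  apply InV_shift (n1 := 6) (n2 := 6) (n3 := 6)
  rw [e, e, e]
  exact hV

/-- MAIN LOCAL INEQUALITY -/
theorem LI {x1 x2 x3 A1 A2 A3 d1 d2 d3 : ℝ} (h : Tri x1 x2 x3 A1 A2 A3 d1 d2 d3)
    (h1 : d1 ^ 2 ≤ 4.08) (h2 : d2 ^ 2 ≤ 4.08) (h3 : d3 ^ 2 ≤ 4.08) (g1 : 2 ≤ d1) (g2 : 2 ≤ d2)
    (g3 : 2 ≤ d3) : 0 ≤ Psi x1 x2 x3 A1 A2 A3 d1 d2 d3 := by
  by_contra hc
  push Not at hc
  have hd : Dat x1 x2 x3 A1 A2 A3 d1 d2 d3 := ⟨h, h1, h2, h3, g1, g2, g3, hc⟩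
  rcases box_main hd.pt with c | c | c | c | c | c
  · exact hd.noV c
  · exact hd.rot.noV c
  · exact hd.rot.rot.noV c
  · exact hd.noMir c
  · exact hd.rot.noMir c
  · exact hd.rot.rot.noMir c

end Pool.Agent.Lib.P37
end

section

/-!
# The counting theorem
-/

namespace Pool.Agent.Lib.P37

open Real

theorem LIst_holds : LIst := fun _ _ _ _ _ _ _ _ _ h a b c d e f => LI h a b c d e f

/-- the counting theorem in general position -/
theorem main_count (ρ : ℝ) (hρ : 20 ≤ ρ) (S : Finset ℂ) (φ : ℂ → ℝ) (hC : Cfg S φ) (hgp : GP S)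
    (hcov : Cov S ρ) (hS : ∀ a ∈ S, ‖a‖ ≤ ρ + 1) :
    (S.card : ℝ) ≤ π * ρ ^ 2 / (2 * As) + 100 * ρ := by
  classical
  obtain ⟨hk1, hk2⟩ := kap_bounds
  obtain ⟨hA1, hA2⟩ := As_bounds
  have hk : 0 ≤ kap := by linarith
  have hk' : kap ≤ 0.1026 := by linarith
  have h1 : 0 ≤ ∑ t ∈ FF S ρ, (ar2 t.1 t.2.1 t.2.2 / 2 - As +
      (Wt S φ t.1 t.2.1 + Wt S φ t.2.1 t.2.2 + Wt S φ t.2.2 t.1)) := by
    apply Finset.sum_nonneg
    intro t ht
    rw [mem_FF'] at ht
    obtain ⟨-, -, -, n1, n2, n3⟩ := FF_near hcov ht.1 ht.2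
    exact local_w LIst_holds hC hcov ht.1 (by linarith) (by linarith) (by linarith)
  rw [Finset.sum_add_distrib, Finset.sum_sub_distrib, ← Finset.sum_div, Finset.sum_const,
    nsmul_eq_mul] at h1
  have h2 : ∑ t ∈ FF S ρ, ar2 t.1 t.2.1 t.2.2 ≤ 6 * π * (ρ + 1) ^ 2 := by
    refine le_trans (Finset.sum_le_sum_of_subset_of_nonneg (t := DT S) ?_ ?_)
      (area_sum (by linarith) hS)
    · unfold FF
      exact Finset.filter_subset _ _
    · intro t ht _
      have : Del S t.1 t.2.1 t.2.2 := mem_DT.mp ht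
      exact this.2.2.2.1.le
  have h3 := wt_sum hρ hC hgp hcov hk hk'
  have h4 := angle_count hρ hgp hcov
  have hd : ∀ a ∈ S, ∀ b ∈ S, a ≠ b → 2 ≤ ‖a - b‖ := fun a ha b hb hab =>
    dist_of_sep (hC a ha b hb hab)
  have h5 : ((S.filter (fun a => ¬ ‖a‖ ≤ ρ - 10)).card : ℝ) ≤ (ρ + 1 + 1) ^ 2 - (ρ - 10 - 1) ^ 2 := by
    apply card_annulus
    · intro a ha b hb hab
      exact hd a (Finset.mem_filter.mp ha).1 b (Finset.mem_filter.mp hb).1 hab
    · linarith
    · linarith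
    · intro a ha
      obtain ⟨ha1, ha2⟩ := Finset.mem_filter.mp ha
      push Not at ha2
      exact ⟨ha2.le, hS a ha1⟩
  have h6 : (S.card : ℝ) = (S.filter (fun a => ‖a‖ ≤ ρ - 10)).card +
      (S.filter (fun a => ¬ ‖a‖ ≤ ρ - 10)).card := by
    exact_mod_cast (Finset.card_filter_add_card_filter_not (s := S) (fun a => ‖a‖ ≤ ρ - 10)).symm
  have h7 : ((FF S ρ).card : ℝ) * As ≤ 3 * π * (ρ + 1) ^ 2 + 26 * ρ := by linarith
  have h8 : ((S.filter (fun a => ‖a‖ ≤ ρ - 10)).card : ℝ) * (2 * As) ≤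
      π * (ρ + 1) ^ 2 + 26 / 3 * ρ := by
    have : 6 * ((S.filter (fun a => ‖a‖ ≤ ρ - 10)).card : ℝ) * As ≤ (FF S ρ).card * As :=
      mul_le_mul_of_nonneg_right h4 (by linarith)
    linarith
  have h9 : ((S.filter (fun a => ‖a‖ ≤ ρ - 10)).card : ℝ) ≤ π * ρ ^ 2 / (2 * As) + 10 * ρ := by
    have e : π * ρ ^ 2 / (2 * As) + 10 * ρ = (π * ρ ^ 2 + 20 * As * ρ) / (2 * As) := by
      field_simp
      ring
    rw [e, le_div_iff₀ (by linarith)]
    have hp := Real.pi_lt_d2
    nlinarith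
  nlinarith

theorem count (ρ : ℝ) (hρ : 20 ≤ ρ) (S : Finset ℂ) (φ : ℂ → ℝ) (hC : Cfg S φ)
    (hS : ∀ a ∈ S, ‖a‖ ≤ ρ) : (S.card : ℝ) ≤ π * ρ ^ 2 / (2 * As) + 100 * ρ := by
  obtain ⟨S', φ', h1, h2, h3, h4, h5⟩ := prep ρ hρ S φ hC hS
  have := main_count ρ hρ S' φ' h2 h3 h4 h5
  have h6 : (S.card : ℝ) ≤ S'.card := by exact_mod_cast h1
  linarith

end Pool.Agent.Lib.P37
end

section

/-!
# The packing density of the regular 37-gon
-/

namespace Pool.Agent.Lib.P37

open Real MeasureTheory Filter Topology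

theorem tan37_pos : 0 < 37 * tan (π / 37) := by
  have := Real.pi_pos
  have : 0 < tan (π / 37) := tan_pos_of_pos_of_lt_pi_div_two (by positivity) (by linarith)
  positivity

theorem upper_bound {ι : Type} (f : ι → ℂ ≃ᵢ ℂ) (hf : IsPacking f) : upperDensity f ≤ dens := by
  have hA := As_bounds.1
  have h := upper_of_count count (by linarith) P37_volume tan37_pos f hf
  rw [two_As_eq, l0_eq] at h
  exact h

theorem best_is_packing : IsPacking best := by
  obtain ⟨a1, a2⟩ := c6_bounds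
  obtain ⟨b1, b2⟩ := s6_bounds
  obtain ⟨c1, c2⟩ := c12_bounds
  obtain ⟨d1, d2⟩ := s12_bounds
  obtain ⟨e1, e2⟩ := hst_bounds
  obtain ⟨f1, f2⟩ := Xst_bounds
  obtain ⟨g1, g2⟩ := Rr_bounds
  refine best_packing ⟨?_, ?_⟩ ⟨?_, ?_⟩ ⟨?_, ?_⟩ ⟨?_, ?_⟩ ⟨?_, ?_⟩ ⟨?_, ?_⟩ ⟨?_, ?_⟩ <;> linarith

theorem best_lower' (ε : ℝ) (hε : 0 < ε) : ∀ᶠ r : ℝ in atTop, dens - ε ≤ ratio best r := by
  obtain ⟨e1, e2⟩ := hst_bounds
  obtain ⟨f1, f2⟩ := Xst_bounds
  obtain ⟨g1, g2⟩ := Rr_bounds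
  have h := best_lower best_is_packing ⟨by linarith, by linarith⟩ ⟨by linarith, by linarith⟩
    ⟨by linarith, by linarith⟩ P37_volume tan37_pos ε hε
  rw [l0_eq] at h
  exact h

theorem best_tendsto : Tendsto (ratio best) atTop (𝓝 dens) := by
  have hub := upper_bound best best_is_packing
  rw [tendsto_order]
  constructor
  · intro a ha
    filter_upwards [best_lower' ((dens - a) / 2) (by linarith)] with r hr
    linarith
  · intro b hb
    exact eventually_lt_of_limsup_lt (f := atTop) (u := fun r : ℝ => ratio best r)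
      (lt_of_le_of_lt hub hb) (isBoundedUnder_of ⟨1, fun r => ratio_le_one best r⟩)

theorem best_upper : upperDensity best = dens := best_tendsto.limsup_eq

theorem density_eq : packingDensity = dens := by
  unfold packingDensity
  apply IsGreatest.csSup_eq
  refine ⟨⟨_, best, best_is_packing, best_upper.symm⟩, ?_⟩
  rintro d ⟨ι, f, hf, rfl⟩
  exact upper_bound f hf

end Pool.Agent.Lib.P37
end
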