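import Pool.Agent.Lib.MP_c009e6_co.GSep
import Pool.Agent.Lib.MP_c009e6_co.GCard

namespace Pool.Agent.Lib.P37

open Real MeasureTheory

theorem max_ext (ρ : ℝ) (hρ : 0 ≤ ρ) (S : Finset ℂ) (φ : ℂ → ℝ) (hC : Cfg S φ)
    (hS : ∀ a ∈ S, ‖a‖ ≤ ρ) :
    ∃ (S' : Finset ℂ) (φ' : ℂ → ℝ), S.card ≤ S'.card ∧ Cfg S' φ' ∧ (∀ a ∈ S', ‖a‖ ≤ ρ) ∧
      ∀ x : ℂ, ‖x‖ ≤ ρ → ∃ a ∈ S', ‖x - a‖ < 2 * Rr := by
  classical
  -- bound on the cardinality
  have hbd : ∀ T : Finset ℂ, Cfg T φ → (∀ a ∈ T, ‖a‖ ≤ ρ) → (T.card : ℝ) ≤ (ρ + 1) ^ 2 := by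
    intro T hT hTρ
    refine card_ball T ?_ 0 ρ hρ ?_
    · intro a ha b hb hab
      exact dist_of_sep (hT a ha b hb hab)
    · intro a ha
      simpa using hTρ a ha
  obtain ⟨B, hB⟩ := exists_nat_gt ((ρ + 1) ^ 2)
  let P : ℕ → Prop := fun n => ∃ T : Finset ℂ, Cfg T φ ∧ (∀ a ∈ T, ‖a‖ ≤ ρ) ∧ T.card = n
  have hPB : ∀ n, P n → n ≤ B := by
    rintro n ⟨T, hT, hTρ, rfl⟩
    have := hbd T hT hTρ
    have h2 : (T.card : ℝ) < B := lt_of_le_of_lt this hB
    exact_mod_cast h2.le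
  have hPS : P S.card := ⟨S, hC, hS, rfl⟩
  have hm : P (Nat.findGreatest P B) := Nat.findGreatest_spec (hPB _ hPS) hPS
  have hge : S.card ≤ Nat.findGreatest P B := Nat.le_findGreatest (hPB _ hPS) hPS
  obtain ⟨T, hT, hTρ, hcard⟩ := hm
  refine ⟨T, φ, by omega, hT, hTρ, ?_⟩
  intro x hx
  by_contra hcon
  push Not at hcon
  have hRr : 0 < 2 * Rr := by have := Rr_pos; linarith
  have hxT : x ∉ T := by
    intro hxT
    have := hcon x hxT
    simp at this
    linarith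
  have hins : P (T.card + 1) := by
    refine ⟨insert x T, ?_, ?_, Finset.card_insert_of_notMem hxT⟩
    · intro a ha b hb hab
      rw [Finset.mem_insert] at ha hb
      rcases ha with rfl | ha
      · rcases hb with rfl | hb
        · exact absurd rfl hab
        · exact sep_of_dist (hcon b hb)
      · rcases hb with rfl | hb
        · apply sep_of_dist
          rw [norm_sub_rev]
          exact hcon a ha
        · exact hT a ha b hb hab
    · intro a ha
      rw [Finset.mem_insert] at ha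
      rcases ha with rfl | ha
      · exact hx
      · exact hTρ a ha
  have : T.card + 1 ≤ Nat.findGreatest P B := Nat.le_findGreatest (hPB _ hins) hins
  omega

end Pool.Agent.Lib.P37
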