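import Pool.Agent.Lib.MP_c009e6_co.Body

/-!
# Packings of the regular 37-gon: definitions
-/

namespace Pool.Agent.Lib.P37

open Real MeasureTheory Filter Topology

/-- the regular 37-gon of inradius 1 (circumradius `1 / cos (π / 37)`), as the convex hull of its 37 vertices -/
noncomputable def P37 : Set ℂ :=
  convexHull ℝ {z : ℂ | z ^ 37 = ((1 / Real.cos (π / 37) : ℝ) : ℂ) ^ 37}

/-- a family of congruent copies of the 37-gon with pairwise disjoint interiors -/
def IsPacking {ι : Type} (f : ι → ℂ ≃ᵢ ℂ) : Prop :=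
  Pairwise fun i j => Disjoint (interior (f i '' P37)) (interior (f j '' P37))

/-- the proportion of the disc of radius `r` covered by the copies -/
noncomputable def ratio {ι : Type} (f : ι → ℂ ≃ᵢ ℂ) (r : ℝ) : ℝ :=
  (volume (Metric.closedBall (0 : ℂ) r ∩ ⋃ i, f i '' P37)).toReal /
    (volume (Metric.closedBall (0 : ℂ) r)).toReal

/-- the upper density -/
noncomputable def upperDensity {ι : Type} (f : ι → ℂ ≃ᵢ ℂ) : ℝ :=
  limsup (fun r : ℝ => ratio f r) atTop

/-- the packing density of the regular 37-gon -/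
noncomputable def packingDensity : ℝ :=
  sSup {d : ℝ | ∃ (ι : Type) (f : ι → ℂ ≃ᵢ ℂ), IsPacking f ∧ d = upperDensity f}

/-- vertical spacing of the rows of the optimal packing -/
noncomputable def hst : ℝ :=
  (2 * cos (12 * π / 37) - 2 * cos (24 * π / 37)
    + (1 + 1 / cos (π / 37)) * cos (12 * π / 37) * cos (24 * π / 37)) / sin (12 * π / 37)

/-- horizontal shift between the rows of the optimal packing -/
noncomputable def Xst : ℝ := (2 - hst * sin (12 * π / 37)) / cos (12 * π / 37)

/-- the optimal double lattice packing: `P + Λ` and `-P + (-X, h) + Λ`, with the rectangular lattice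
`Λ = l0 ℤ × 2h ℤ`, `l0 = 1 + 1 / cos (π/37)` -/
noncomputable def best (t : (ℤ × ℤ) × Bool) : ℂ ≃ᵢ ℂ :=
  if t.2 then IsometryEquiv.subLeft
    (⟨-Xst + t.1.1 * (1 + 1 / cos (π / 37)), (2 * t.1.2 + 1) * hst⟩ : ℂ)
  else IsometryEquiv.addRight (⟨t.1.1 * (1 + 1 / cos (π / 37)), 2 * t.1.2 * hst⟩ : ℂ)

/-- the packing density of the regular 37-gon in closed form -/
noncomputable def dens : ℝ := 37 * tan (π / 37) / ((1 + 1 / cos (π / 37)) * hst)

theorem l0_eq : l0 = 1 + 1 / cos (π / 37) := by
  unfold l0 Rr; rw [half_p]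

theorem six_p : 6 * p = 12 * π / 37 := by unfold p; ring

theorem twelve_p : 12 * p = 24 * π / 37 := by unfold p; ring

theorem hst_eq : hst = (2 * c6 - 2 * c12 + l0 * c6 * c12) / s6 := by
  unfold hst c6 c12 s6
  rw [← l0_eq, six_p, twelve_p]

theorem Xst_eq : Xst = (2 - hst * s6) / c6 := by
  unfold Xst s6 c6
  rw [six_p]

end Pool.Agent.Lib.P37
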