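import Pool.Agent.Lib.MP_c009e6_co.VolTri

namespace Pool.Agent.Lib.P37

open Real MeasureTheory

private lemma ps_sin_pos : 0 < sin p := by
  apply sin_pos_of_pos_of_lt_pi p_pos
  have := half_p_lt
  linarith

private lemma ps_cos_lt : cos p < 1 := by
  have h := cos_lt_cos_of_nonneg_of_le_pi (le_refl 0) (by
    have := half_p_lt; linarith : p ≤ π) p_pos
  rwa [cos_zero] at h

/-- three noncollinear points of the polygon span the plane -/
private lemma ps_span : affineSpan ℝ P37 = ⊤ := by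
  have hs := ps_sin_pos
  have hc := ps_cos_lt
  have hR := Rr_pos
  have ha := mem_affineSpan ℝ (vertex_mem 0)
  have hb := mem_affineSpan ℝ (vertex_mem 1)
  have hc' := mem_affineSpan ℝ (vertex_mem (-1))
  rw [eq_top_iff]
  intro z _
  set S := affineSpan ℝ P37
  set a : ℂ := (Rr : ℂ) * ee (((0:ℤ):ℝ) * p) with hadef
  set b : ℂ := (Rr : ℂ) * ee (((1:ℤ):ℝ) * p) with hbdef
  set c : ℂ := (Rr : ℂ) * ee (((-1:ℤ):ℝ) * p) with hcdef
  have hab : b - a ∈ S.direction := S.vsub_mem_direction hb ha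
  have hac : c - a ∈ S.direction := S.vsub_mem_direction hc' ha
  set u : ℝ := (z.re - Rr) / (Rr * (cos p - 1)) with hu
  set v : ℝ := z.im / (Rr * sin p) with hv
  have key : z = (((u + v) / 2) • (b - a) + ((u - v) / 2) • (c - a)) + a := by
    have hne : Rr * (cos p - 1) ≠ 0 := mul_ne_zero hR.ne' (by linarith)
    have hne2 : Rr * sin p ≠ 0 := mul_ne_zero hR.ne' hs.ne'
    have e1 : u * (Rr * (cos p - 1)) = z.re - Rr := by rw [hu]; exact div_mul_cancel₀ _ hne
    have e2 : v * (Rr * sin p) = z.im := by rw [hv]; exact div_mul_cancel₀ _ hne2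
    apply Complex.ext
    · simp [hadef, hbdef, hcdef]
      linarith
    · simp [hadef, hbdef, hcdef]
      linarith
  have hmem : (((u + v) / 2) • (b - a) + ((u - v) / 2) • (c - a)) +ᵥ a ∈ S :=
    AffineSubspace.vadd_mem_of_mem_direction
      (S.direction.add_mem (S.direction.smul_mem _ hab) (S.direction.smul_mem _ hac)) ha
  rw [vadd_eq_add, ← key] at hmem
  exact hmem

theorem P37_interior_nonempty : (interior P37).Nonempty := by
  have hconv : Convex ℝ P37 := convex_convexHull ℝ _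
  rw [hconv.interior_nonempty_iff_affineSpan_eq_top]
  exact ps_span

private lemma ps_convex_image (f : ℂ ≃ᵢ ℂ) : Convex ℝ (f '' P37) := by
  have hconv : Convex ℝ P37 := convex_convexHull ℝ _
  have h := hconv.affine_image (f.toRealAffineIsometryEquiv.toAffineEquiv : ℂ →ᵃ[ℝ] ℂ)
  simpa using h

private lemma ps_interior_image (f : ℂ ≃ᵢ ℂ) : (interior (f '' P37)).Nonempty := by
  have h : interior (f '' P37) = f '' interior P37 := (f.toHomeomorph.image_interior P37).symm
  rw [h]
  exact P37_interior_nonempty.image f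

private lemma ps_sub_closure (f : ℂ ≃ᵢ ℂ) : f '' P37 ⊆ closure (interior (f '' P37)) := by
  rw [(ps_convex_image f).closure_interior_eq_closure_of_nonempty_interior (ps_interior_image f)]
  exact subset_closure

theorem sep_of_disjoint {f g : ℂ ≃ᵢ ℂ} {φ ψ : ℝ} (hf : IsPhase f φ) (hg : IsPhase g ψ)
    (h : Disjoint (interior (f '' P37)) (interior (g '' P37))) : Sep (f 0) (g 0) φ ψ := by
  obtain ⟨l, u, hl1, hl2⟩ := geometric_hahn_banach_open_open (ps_convex_image f).interior
    isOpen_interior (ps_convex_image g).interior isOpen_interior h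
  have h1 : ∀ z ∈ f '' P37, l z ≤ u := by
    intro z hz
    have hcl : IsClosed {z : ℂ | l z ≤ u} := isClosed_le l.continuous continuous_const
    exact closure_minimal (fun w hw => (hl1 w hw).le) hcl (ps_sub_closure f hz)
  have h2 : ∀ z ∈ g '' P37, u ≤ l z := by
    intro z hz
    have hcl : IsClosed {z : ℂ | u ≤ l z} := isClosed_le continuous_const l.continuous
    exact closure_minimal (fun w hw => (hl2 w hw).le) hcl (ps_sub_closure g hz)
  obtain ⟨a0, ha0⟩ := ps_interior_image f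
  obtain ⟨b0, hb0⟩ := ps_interior_image g
  have hlt : l a0 < l b0 := (hl1 a0 ha0).trans (hl2 b0 hb0)
  set w : ℂ := ⟨l 1, l Complex.I⟩ with hw
  have hlw : ∀ z : ℂ, l z = dotp z w := by
    intro z
    have e : z = z.re • (1 : ℂ) + z.im • Complex.I := by
      apply Complex.ext <;> simp
    conv_lhs => rw [e]
    rw [map_add, map_smul, map_smul]
    unfold dotp
    simp [hw]
  have hwne : w ≠ 0 := by
    intro h0
    rw [hlw, hlw, h0] at hlt
    simp [dotp] at hlt
  have hwpos : 0 < ‖w‖ := norm_pos_iff.mpr hwne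
  set ν := Complex.arg w with hν
  have hwee : w = (‖w‖ : ℂ) * ee ν := eq_norm_mul_ee w
  have hcmp : ∀ z1 ∈ f '' P37, ∀ z2 ∈ g '' P37, dotp z1 (ee ν) ≤ dotp z2 (ee ν) := by
    intro z1 hz1 z2 hz2
    have h3 : l z1 ≤ l z2 := (h1 z1 hz1).trans (h2 z2 hz2)
    rw [hlw, hlw, hwee, dotp_comm z1, dotp_comm z2, dotp_smul_left, dotp_smul_left] at h3
    have h4 := le_of_mul_le_mul_left h3 hwpos
    rwa [dotp_comm z1, dotp_comm z2]
  refine ⟨ν, ?_⟩
  have hp := p_pos
  set k : ℤ := ⌊(ν - φ) / p⌋ with hk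
  set k' : ℤ := ⌊(ν + π - ψ) / p⌋ with hk'
  have hk1 : k * p ≤ ν - φ := by
    have := Int.floor_le ((ν - φ) / p)
    rwa [le_div_iff₀ hp] at this
  have hk2 : ν - φ ≤ (k + 1) * p := by
    have := (Int.lt_floor_add_one ((ν - φ) / p)).le
    rwa [div_le_iff₀ hp] at this
  have hk1' : k' * p ≤ ν + π - ψ := by
    have := Int.floor_le ((ν + π - ψ) / p)
    rwa [le_div_iff₀ hp] at this
  have hk2' : ν + π - ψ ≤ (k' + 1) * p := by
    have := (Int.lt_floor_add_one ((ν + π - ψ) / p)).le
    rwa [div_le_iff₀ hp] at this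
  have h5 := hcmp _ (hf k) _ (hg k')
  rw [dotp_add_left, dotp_add_left, dotp_smul_left, dotp_smul_left, dotp_ee_ee, dotp_ee_ee] at h5
  have e1 : cos (φ + (k + 1 / 2) * p - ν) = cos (ν - φ - (k + 1 / 2) * p) := by
    rw [← cos_neg]; congr 1; ring
  have e2 : cos (ψ + (k' + 1 / 2) * p - ν) = - cos (ν + π - ψ - (k' + 1 / 2) * p) := by
    rw [← cos_neg]
    have : ν + π - ψ - (k' + 1 / 2) * p = -(ψ + (k' + 1 / 2) * p - ν) + π := by ring
    rw [this, cos_add_pi, neg_neg]
  rw [e1, e2] at h5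
  rw [hh_sinusoid hk1 hk2, hh_sinusoid hk1' hk2', dotp_sub_left]
  linarith

end Pool.Agent.Lib.P37
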